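import Pool.Agent.SUR.St3

/-!
# LOC: surjectivity in degree one passes to direct limits
-/

set_option autoImplicit false

universe u

namespace Pool.Agent.SUR

open Pool.Agent.WhK

theorem LOC.inj {G : Type u} [Group G] (G₀ : Subgroup G) :
    Function.Injective (ringMap G₀.subtype) := by
  have h := MonoidAlgebra.mapDomain_injective (R := ℤ) G₀.subtype_injective
  intro a b hab
  apply h
  simpa only [ringMap, MonoidAlgebra.mapDomainRingHom_apply] using hab

theorem LOC.mem {G : Type u} [Group G] (G₀ : Subgroup G) (x : MonoidAlgebra ℤ G)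
    (hx : ∀ g ∈ x.coeff.support, g ∈ G₀) : ∃ y, ringMap G₀.subtype y = x := by
  refine ⟨MonoidAlgebra.comapDomain G₀.subtype G₀.subtype_injective x, ?_⟩
  unfold ringMap
  rw [MonoidAlgebra.mapDomainRingHom_apply]
  refine MonoidAlgebra.mapDomain_comapDomain ?_ _
  intro g hg
  exact ⟨⟨g, hx g hg⟩, rfl⟩

theorem LOC.lift {G : Type u} [Group G] (n : ℕ) (X : GLn (MonoidAlgebra ℤ G) n) :
    ∃ (G₀ : Subgroup G) (_ : G₀.FG) (X₀ : GLn (MonoidAlgebra ℤ G₀) n),
      GLn.map (ringMap G₀.subtype) n X₀ = X := by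
  classical
  let A : Matrix (Fin n) (Fin n) (MonoidAlgebra ℤ G) := X.val
  let B : Matrix (Fin n) (Fin n) (MonoidAlgebra ℤ G) := X.inv
  have hAB : A * B = 1 := X.val_inv
  have hBA : B * A = 1 := X.inv_val
  let S : Finset G := Finset.univ.biUnion fun q : Fin n × Fin n =>
    (A q.1 q.2).coeff.support ∪ (B q.1 q.2).coeff.support
  let G₀ : Subgroup G := Subgroup.closure (S : Set G)
  have hA : ∀ i j, ∃ y, ringMap G₀.subtype y = A i j := fun i j =>
    LOC.mem G₀ _ fun g hg => Subgroup.subset_closure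
      (Finset.mem_coe.2 (Finset.mem_biUnion.2 ⟨(i, j), Finset.mem_univ _,
        Finset.mem_union_left _ hg⟩))
  have hB : ∀ i j, ∃ y, ringMap G₀.subtype y = B i j := fun i j =>
    LOC.mem G₀ _ fun g hg => Subgroup.subset_closure
      (Finset.mem_coe.2 (Finset.mem_biUnion.2 ⟨(i, j), Finset.mem_univ _,
        Finset.mem_union_right _ hg⟩))
  choose a ha using hA
  choose b hb using hB
  have hmap : Function.Injective (fun M : Matrix (Fin n) (Fin n) (MonoidAlgebra ℤ G₀) =>
      (ringMap G₀.subtype).mapMatrix M) := by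
    intro M N h
    ext1 i j
    exact LOC.inj G₀ (congrFun (congrFun h i) j)
  have ha' : (ringMap G₀.subtype).mapMatrix (Matrix.of a) = A := by
    ext1 i j
    exact ha i j
  have hb' : (ringMap G₀.subtype).mapMatrix (Matrix.of b) = B := by
    ext1 i j
    exact hb i j
  refine ⟨G₀, ⟨S, rfl⟩, ⟨Matrix.of a, Matrix.of b, ?_, ?_⟩, ?_⟩
  · apply hmap
    show (ringMap G₀.subtype).mapMatrix (Matrix.of a * Matrix.of b) =
      (ringMap G₀.subtype).mapMatrix 1
    rw [map_mul, map_one, ha', hb', hAB]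
  · apply hmap
    show (ringMap G₀.subtype).mapMatrix (Matrix.of b * Matrix.of a) =
      (ringMap G₀.subtype).mapMatrix 1
    rw [map_mul, map_one, ha', hb', hBA]
  · exact Units.ext ha'

theorem t_LOC : s_LOC := by
  intro G _ h Q _ _ π x
  obtain ⟨n, X, rfl⟩ := K1.exists_mk x
  obtain ⟨G₀, hG₀, X₀, rfl⟩ := LOC.lift n X
  obtain ⟨k, hk, hmem⟩ := h G₀ hG₀ Q (π.comp G₀.subtype) (K1.mk n X₀)
  refine ⟨k, hk, ?_⟩
  have e1 : K1.map (ringMap π) (K1.mk n (GLn.map (ringMap G₀.subtype) n X₀)) =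
      K1.map (ringMap (π.comp G₀.subtype)) (K1.mk n X₀) := by
    rw [← K1.map_mk, K1.map_comp, ringMap_comp]
  rw [e1]
  refine (AddSubgroup.closure_le _).2 ?_ hmem
  rintro y ⟨H, hH, z, rfl⟩
  refine AddSubgroup.subset_closure ?_
  let e : H ≃* H.map G₀.subtype := Subgroup.equivMapOfInjective H G₀.subtype G₀.subtype_injective
  refine ⟨H.map G₀.subtype, Finite.of_equiv _ e.toEquiv, K1.map (ringMap e.toMonoidHom) z, ?_⟩
  rw [K1.map_comp, ringMap_comp]
  rfl

end Pool.Agent.SUR
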