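import Pool.Agent.SUR.St3

/-!
# Torsion free groups
-/

set_option autoImplicit false

universe u

namespace Pool.Agent.SUR

open Pool.Agent.WhK

theorem unit_sq_of_subsingleton {C : Type*} [Group C] [Subsingleton C]
    (w : (MonoidAlgebra ℤ C)ˣ) : w * w = 1 := by
  have hs : ∀ x : MonoidAlgebra ℤ C, x = MonoidAlgebra.single 1 (x.coeff 1) := fun x => by
    ext c
    rw [Subsingleton.elim c 1, MonoidAlgebra.coeff_single, Finsupp.single_eq_same]
  have h1 := w.mul_inv
  rw [hs w.val, hs (w⁻¹ : (MonoidAlgebra ℤ C)ˣ).val, MonoidAlgebra.single_mul_single,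
    mul_one] at h1
  have h2 := congrArg (fun x : MonoidAlgebra ℤ C => x.coeff 1) h1
  simp only [MonoidAlgebra.coeff_single, Finsupp.single_eq_same, MonoidAlgebra.one_def] at h2
  ext1
  rw [Units.val_mul, Units.val_one, hs w.val, MonoidAlgebra.single_mul_single, mul_one,
    MonoidAlgebra.one_def]
  congr 1
  exact Int.isUnit_mul_self (IsUnit.of_mul_eq_one _ h2)

/-- the group `K₁(ℤ[H])` of a trivial group is a torsion group -/
theorem K1_torsion_of_subsingleton (H : Type u) [Group H] [Subsingleton H]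
    (z : K1 (MonoidAlgebra ℤ H)) : ∃ n : ℕ, 0 < n ∧ n • z = 0 := by
  let _ : Fintype H := Fintype.ofFinite H
  have h1 : cycUnits H ≤ sat (⊥ : AddSubgroup (K1 (MonoidAlgebra ℤ H))) := by
    refine (AddSubgroup.closure_le _).2 ?_
    rintro y ⟨C, -, w, rfl⟩
    refine mem_sat.2 ⟨2, Nat.two_pos, ?_⟩
    rw [AddSubgroup.mem_bot, two_smul, ← K1.ofUnit_mul, ← map_mul, unit_sq_of_subsingleton, map_one]
    have h := K1.ofUnit_mul (1 : (MonoidAlgebra ℤ H)ˣ) 1
    rw [mul_one] at h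
    exact left_eq_add.1 h
  obtain ⟨N, hN, hz⟩ := artin_K1 z
  obtain ⟨N', hN', hz'⟩ := h1 hz
  rw [AddSubgroup.mem_bot, ← mul_smul] at hz'
  exact ⟨N' * N, Nat.mul_pos hN' hN, hz'⟩

/-- for torsion free groups the image in `K₁(ℤ[Q])` is a torsion group -/
theorem torsion_of_surjG {G : Type u} [Group G] (hG : SurjG G)
    (htf : ∀ g : G, IsOfFinOrder g → g = 1) (Q : Type u) [Group Q] [Finite Q] (π : G →* Q)
    (x : K1 (MonoidAlgebra ℤ G)) : ∃ n : ℕ, 0 < n ∧ n • K1.map (ringMap π) x = 0 := by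
  obtain ⟨n, hn, hx⟩ := hG Q π x
  have h1 : AddSubgroup.closure
      {y | ∃ (H : Subgroup G) (_ : Finite H) (z : K1 (MonoidAlgebra ℤ H)),
        y = K1.map (ringMap (π.comp H.subtype)) z} ≤
      sat (⊥ : AddSubgroup (K1 (MonoidAlgebra ℤ Q))) := by
    refine (AddSubgroup.closure_le _).2 ?_
    rintro y ⟨H, hH, z, rfl⟩
    have hs : Subsingleton H := ⟨fun a b => by
      have ha : ∀ a : H, a = 1 := fun a => Subtype.ext (htf _
        (MonoidHom.isOfFinOrder H.subtype (isOfFinOrder_of_finite a)))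
      rw [ha a, ha b]⟩
    obtain ⟨N, hN, hz⟩ := K1_torsion_of_subsingleton H z
    exact mem_sat.2 ⟨N, hN, by rw [AddSubgroup.mem_bot, ← map_nsmul, hz, map_zero]⟩
  obtain ⟨N, hN, h2⟩ := h1 hx
  rw [AddSubgroup.mem_bot, ← mul_smul] at h2
  exact ⟨N * n, Nat.mul_pos hN hn, h2⟩

end Pool.Agent.SUR
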