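import Pool.Agent.SUR.St6
import Pool.Agent.SUR.TF

/-!
# Whitehead groups: finite target groups and torsion free groups
-/

set_option autoImplicit false

universe u

namespace Pool.Agent.SUR

open Pool.Agent.WhK

theorem Wh_map_top {Γ : Type u} [Group Γ] (y : Wh Γ) :
    Wh.map (⊤ : Subgroup Γ).subtype
      (Wh.map (Subgroup.topEquiv (G := Γ)).symm.toMonoidHom y) = y := by
  have h : (⊤ : Subgroup Γ).subtype.comp (Subgroup.topEquiv (G := Γ)).symm.toMonoidHom =
      (MulAut.conj (1 : Γ)).toMonoidHom := by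
    ext g
    simp
  rw [Wh.map_comp, h, Wh.map_conj]

theorem Wh_torsion_of_subsingleton (H : Type u) [Group H] [Subsingleton H] (z : Wh H) :
    ∃ n : ℕ, 0 < n ∧ n • z = 0 := by
  obtain ⟨x, rfl⟩ := Wh.exists_mk z
  obtain ⟨n, hn, hx⟩ := K1_torsion_of_subsingleton H x
  refine ⟨n, hn, ?_⟩
  have h : n • Wh.mk x = Wh.mk (n • x) := rfl
  rw [h, hx]
  rfl

theorem t_FINITE : s_FINITE.{u} := by
  refine ⟨?_, ?_⟩
  · intro Γ _ _ y
    refine AddSubgroup.subset_closure ⟨⊤, inferInstance,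
      Wh.map (Subgroup.topEquiv (G := Γ)).symm.toMonoidHom y, ?_⟩
    exact (Wh_map_top y).symm
  · intro G Γ _ _ π htf y hy
    have h1 : AddSubgroup.closure
        {y | ∃ (H : Subgroup G) (_ : Finite H) (z : Wh H), y = Wh.map (π.comp H.subtype) z} ≤
        sat (⊥ : AddSubgroup (Wh Γ)) := by
      refine (AddSubgroup.closure_le _).2 ?_
      rintro y ⟨H, hH, z, rfl⟩
      have hs : Subsingleton H := ⟨fun a b => by
        have ha : ∀ a : H, a = 1 := fun a => Subtype.ext (htf _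
          (MonoidHom.isOfFinOrder H.subtype (isOfFinOrder_of_finite a)))
        rw [ha a, ha b]⟩
      obtain ⟨N, hN, hz⟩ := Wh_torsion_of_subsingleton H z
      exact mem_sat.2 ⟨N, hN, by rw [AddSubgroup.mem_bot, ← map_nsmul, hz, map_zero]⟩
    obtain ⟨N, hN, h2⟩ := h1 hy
    rw [AddSubgroup.mem_bot] at h2
    exact ⟨N, hN, h2⟩

end Pool.Agent.SUR
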