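import Pool.Agent.SUR.StP

/-!
# DTP: roots in the automorphism groups of residually torsion-free nilpotent groups
-/

set_option autoImplicit false

universe u

namespace Pool.Agent.SUR

namespace PAUT

variable {π : Type u} [Group π]

/-- the element of the group ring -/
noncomputable abbrev e (g : π) : MonoidAlgebra ℤ π := MonoidAlgebra.single g 1

theorem e_mul (g h : π) : e (g * h) = e g * e h := by
  unfold e
  rw [MonoidAlgebra.single_mul_single, one_mul]

theorem e_one : e (1 : π) = 1 := rfl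

theorem e_sub_mem (g : π) : e g - 1 ∈ J2 π :=
  Submodule.subset_span (Set.mem_insert_of_mem _ ⟨g, rfl⟩)

theorem two_mem : (2 : MonoidAlgebra ℤ π) ∈ J2 π := Submodule.subset_span (Set.mem_insert _ _)

/-- the ring homomorphism of an automorphism -/
noncomputable def A (θ : MulAut π) : MonoidAlgebra ℤ π →+* MonoidAlgebra ℤ π :=
  MonoidAlgebra.mapDomainRingHom ℤ θ.toMonoidHom

theorem A_apply (θ : MulAut π) (x : MonoidAlgebra ℤ π) : A θ x = MonoidAlgebra.mapDomain θ x := rfl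

theorem A_e (θ : MulAut π) (g : π) : A θ (e g) = e (θ g) := by
  rw [A_apply]
  exact MonoidAlgebra.mapDomain_single

theorem A_mul (θ ζ : MulAut π) (x : MonoidAlgebra ℤ π) : A (θ * ζ) x = A θ (A ζ x) := by
  have h : A (θ * ζ) = (A θ).comp (A ζ) := by
    unfold A
    rw [← MonoidAlgebra.mapDomainRingHom_comp]
    rfl
  rw [h]
  rfl

theorem A_one (x : MonoidAlgebra ℤ π) : A (1 : MulAut π) x = x := by
  have h : A (1 : MulAut π) = RingHom.id _ := by
    unfold A
    rw [← MonoidAlgebra.mapDomainRingHom_id]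
    rfl
  rw [h]
  rfl

/-- the first three parts of `s_PJ2` -/
structure Hyp (π : Type u) [Group π] : Prop where
  ideal : ∀ (k : ℕ) (a : MonoidAlgebra ℤ π), 1 ≤ k → ∀ x ∈ J2 π ^ k,
    a * x ∈ J2 π ^ k ∧ x * a ∈ J2 π ^ k
  step : ∀ k : ℕ, 1 ≤ k → J2 π ^ (k + 1) ≤ J2 π ^ k
  inv : ∀ (θ : MulAut π) (k : ℕ), ∀ x ∈ J2 π ^ k, MonoidAlgebra.mapDomain θ x ∈ J2 π ^ k

theorem Hyp.mono (H : Hyp π) {k l : ℕ} (hk : 1 ≤ k) (hl : k ≤ l) : J2 π ^ l ≤ J2 π ^ k := by
  induction l, hl using Nat.le_induction with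
  | base => exact le_rfl
  | succ l hl ih => exact (H.step l (hk.trans hl)).trans ih

theorem mul_mem_add {k l : ℕ} {x y : MonoidAlgebra ℤ π} (hx : x ∈ J2 π ^ k) (hy : y ∈ J2 π ^ l) :
    x * y ∈ J2 π ^ (k + l) := by
  rw [pow_add]
  exact Submodule.mul_mem_mul hx hy

theorem two_mul_mem {k : ℕ} {x : MonoidAlgebra ℤ π} (hx : x ∈ J2 π ^ k) :
    2 * x ∈ J2 π ^ (k + 1) := by
  rw [pow_succ']
  exact Submodule.mul_mem_mul two_mem hx

theorem pow_two_pow (H : Hyp π) (s : ℕ) : ∀ g : π, e (g ^ 2 ^ s) - 1 ∈ J2 π ^ (s + 1) := by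
  induction s with
  | zero =>
    intro g
    have h : e (g ^ 2 ^ 0) - 1 = e g - 1 := by rw [pow_zero, pow_one]
    rw [h, zero_add, pow_one]
    exact e_sub_mem g
  | succ s ih =>
    intro g
    have h := ih g
    have h1 : e (g ^ 2 ^ (s + 1)) - 1 = (e (g ^ 2 ^ s) - 1) * (e (g ^ 2 ^ s) - 1) +
        2 * (e (g ^ 2 ^ s) - 1) := by
      rw [pow_succ 2 s, pow_mul, sq, e_mul]
      noncomm_ring
    rw [h1]
    refine Submodule.add_mem _ ?_ (two_mul_mem h)
    exact H.mono (by omega) (by omega) (mul_mem_add h h)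

theorem pow_two_pow_mul (H : Hyp π) (s t : ℕ) (g : π) :
    e (g ^ (2 ^ s * t)) - 1 ∈ J2 π ^ (s + 1) := by
  rw [mul_comm, pow_mul]
  exact pow_two_pow H s (g ^ t)

theorem bezout {p b : ℕ} (hp : 0 < p) (hb : 0 < b) (h : Nat.Coprime p b) : ∃ u t : ℕ, p * u = 1 + b * t := by
  rcases Nat.lt_or_ge 1 b with h1 | h1
  · obtain ⟨u, hu⟩ := Nat.exists_mul_mod_eq_one_of_coprime h h1
    refine ⟨u, p * u / b, ?_⟩
    have := Nat.mod_add_div (p * u) b
    omega
  · have hb1 : b = 1 := by omega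
    subst hb1
    exact ⟨1, p - 1, by omega⟩

/-- part (1) -/
theorem part1 (H : Hyp π)
    (hR : ∀ h : π, (∀ k : ℕ, 1 ≤ k → MonoidAlgebra.single h (1 : ℤ) - 1 ∈ J2 π ^ k) → h = 1) :
    UniqExp π := by
  refine ⟨2, fun p hp hp2 x y hxy => ?_⟩
  have hfin : x * y⁻¹ = 1 := by
    refine hR _ fun k hk => ?_
    have hco : Nat.Coprime p (2 ^ k) := by
      refine Nat.Coprime.pow_right k ?_
      rw [Nat.coprime_primes hp Nat.prime_two]
      omega
    obtain ⟨u, t, hut⟩ := bezout hp.pos (Nat.two_pow_pos k) hco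
    have h1 : x * x ^ (2 ^ k * t) = y * y ^ (2 ^ k * t) := by
      have i1 : x * x ^ (2 ^ k * t) = (x ^ p) ^ u := by
        rw [← pow_mul, hut, pow_add, pow_one]
      have i2 : y * y ^ (2 ^ k * t) = (y ^ p) ^ u := by
        rw [← pow_mul, hut, pow_add, pow_one]
      rw [i1, i2, hxy]
    have h2 : e x * e (x ^ (2 ^ k * t)) = e y * e (y ^ (2 ^ k * t)) := by
      rw [← e_mul, ← e_mul, h1]
    have h3 : e x - e y = e y * (e (y ^ (2 ^ k * t)) - 1) - e x * (e (x ^ (2 ^ k * t)) - 1) := by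
      rw [mul_sub, mul_sub, ← h2]
      noncomm_ring
    have h4 : e x - e y ∈ J2 π ^ (k + 1) := by
      rw [h3]
      exact Submodule.sub_mem _ (H.ideal _ _ (by omega) _ (pow_two_pow_mul H k t y)).1
        (H.ideal _ _ (by omega) _ (pow_two_pow_mul H k t x)).1
    have h5 : e (x * y⁻¹) - 1 = (e x - e y) * e y⁻¹ := by
      rw [sub_mul, ← e_mul, ← e_mul, mul_inv_cancel, e_one]
    change e (x * y⁻¹) - 1 ∈ J2 π ^ k
    rw [h5]
    exact (H.ideal k _ hk _ (H.step k hk h4)).2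
  exact mul_inv_eq_one.1 hfin

/-! ### Automorphisms -/

/-- the level of an automorphism -/
def Lev (ζ : MulAut π) (s : ℕ) : Prop :=
  (∀ x : MonoidAlgebra ℤ π, A ζ x - x ∈ J2 π ^ s) ∧
    ∀ k : ℕ, 1 ≤ k → ∀ x ∈ J2 π ^ k, A ζ x - x ∈ J2 π ^ (k + s)

theorem A_mem (H : Hyp π) (θ : MulAut π) {k : ℕ} {x : MonoidAlgebra ℤ π} (hx : x ∈ J2 π ^ k) :
    A θ x ∈ J2 π ^ k := H.inv θ k x hx

theorem lev_one (H : Hyp π) {η : MulAut π} (h : ∀ x : MonoidAlgebra ℤ π, A η x - x ∈ J2 π ^ 2) :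
    Lev η 1 := by
  refine ⟨fun x => H.step 1 le_rfl (h x), fun k hk => ?_⟩
  induction k, hk using Nat.le_induction with
  | base => exact fun x _ => h x
  | succ k hk ih =>
    intro x hx
    rw [pow_succ] at hx
    refine Submodule.mul_induction_on (C := fun z => A η z - z ∈ J2 π ^ (k + 1 + 1)) hx ?_ ?_
    · intro a ha b hb
      have h1 : A η (a * b) - a * b = (A η a - a) * A η b + a * (A η b - b) := by
        rw [map_mul]
        noncomm_ring
      rw [h1]
      have hb1 : b ∈ J2 π ^ 1 := by rwa [pow_one]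
      refine Submodule.add_mem _ (mul_mem_add (ih a ha) (A_mem H η hb1)) ?_
      exact (mul_mem_add ha (h b) : a * (A η b - b) ∈ J2 π ^ (k + 2))
    · intro a b ha hb
      have h1 : A η (a + b) - (a + b) = (A η a - a) + (A η b - b) := by
        rw [map_add]
        abel
      rw [h1]
      exact Submodule.add_mem _ ha hb

theorem lev_mul_self (H : Hyp π) {ζ : MulAut π} {s : ℕ} (hs : 1 ≤ s) (h : Lev ζ s) :
    Lev (ζ * ζ) (s + 1) := by
  have key : ∀ x : MonoidAlgebra ℤ π, A (ζ * ζ) x - x =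
      2 * (A ζ x - x) + (A ζ (A ζ x - x) - (A ζ x - x)) := by
    intro x
    rw [A_mul, map_sub, two_mul]
    abel
  constructor
  · intro x
    rw [key]
    have h1 := h.1 x
    exact Submodule.add_mem _ (two_mul_mem h1)
      (H.mono (by omega) (by omega) (h.2 s hs _ h1))
  · intro k hk x hx
    rw [key]
    have h1 := h.2 k hk x hx
    exact Submodule.add_mem _ (two_mul_mem h1)
      (H.mono (by omega) (by omega) (h.2 (k + s) (by omega) _ h1))

theorem lev_pow (H : Hyp π) {ζ : MulAut π} {s : ℕ} (h : Lev ζ s) (t : ℕ) : Lev (ζ ^ t) s := by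
  induction t with
  | zero =>
    rw [pow_zero]
    refine ⟨fun x => ?_, fun k _ x _ => ?_⟩
    · rw [A_one, sub_self]
      exact Submodule.zero_mem _
    · rw [A_one, sub_self]
      exact Submodule.zero_mem _
  | succ t ih =>
    have key : ∀ x : MonoidAlgebra ℤ π, A (ζ ^ (t + 1)) x - x =
        A (ζ ^ t) (A ζ x - x) + (A (ζ ^ t) x - x) := by
      intro x
      rw [pow_succ, A_mul, map_sub]
      abel
    refine ⟨fun x => ?_, fun k hk x hx => ?_⟩
    · rw [key]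
      exact Submodule.add_mem _ (A_mem H _ (h.1 x)) (ih.1 x)
    · rw [key]
      exact Submodule.add_mem _ (A_mem H _ (h.2 k hk x hx)) (ih.2 k hk x hx)

theorem lev_two_pow (H : Hyp π) {ζ : MulAut π} (h : Lev ζ 1) (s : ℕ) : Lev (ζ ^ 2 ^ s) (s + 1) := by
  induction s with
  | zero =>
    rw [pow_zero, pow_one]
    exact h
  | succ s ih =>
    rw [pow_succ 2 s, pow_mul, sq]
    exact lev_mul_self H (by omega) ih

/-! ### The quotient by `J ^ 2` is finite -/

theorem e_mem_of_gen (N : Submodule ℤ (MonoidAlgebra ℤ π)) (h1 : (1 : MonoidAlgebra ℤ π) ∈ N)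
    (h2 : J2 π ^ 2 ≤ N) (T : Set π) (hT : Subgroup.closure T = ⊤) (h3 : ∀ t ∈ T, e t ∈ N) (g : π) :
    e g ∈ N := by
  have hg : g ∈ Subgroup.closure T := by rw [hT]; trivial
  have hprod : ∀ a b : π, (e a - 1) * (e b - 1) ∈ N := by
    intro a b
    refine h2 ?_
    rw [sq]
    exact Submodule.mul_mem_mul (e_sub_mem a) (e_sub_mem b)
  induction hg using Subgroup.closure_induction with
  | mem x hx => exact h3 x hx
  | one => exact h1
  | mul x y _ _ hx hy =>
    have h : e (x * y) = (e x - 1) * (e y - 1) + e x + e y - 1 := by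
      rw [e_mul]
      noncomm_ring
    rw [h]
    exact Submodule.sub_mem _ (Submodule.add_mem _ (Submodule.add_mem _ (hprod x y) hx) hy) h1
  | inv x _ hx =>
    have h0 : e x * e x⁻¹ = 1 := by rw [← e_mul, mul_inv_cancel, e_one]
    have h : e x⁻¹ = 1 + 1 - e x - (e x - 1) * (e x⁻¹ - 1) := by
      have : (e x - 1) * (e x⁻¹ - 1) = e x * e x⁻¹ - e x - e x⁻¹ + 1 := by noncomm_ring
      rw [this, h0]
      abel
    rw [h]
    exact Submodule.sub_mem _ (Submodule.sub_mem _ (Submodule.add_mem _ h1 h1) hx) (hprod x x⁻¹)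

theorem top_of_e (N : Submodule ℤ (MonoidAlgebra ℤ π)) (h : ∀ g : π, e g ∈ N) : N = ⊤ := by
  rw [eq_top_iff]
  intro x _
  induction x using MonoidAlgebra.induction_on with
  | of g => exact h g
  | add x y hx hy => exact Submodule.add_mem _ (hx trivial) (hy trivial)
  | smul r x hx => exact Submodule.smul_mem _ r (hx trivial)

theorem finite_quot (H : Hyp π) (hfg : Group.FG π) :
    Finite (MonoidAlgebra ℤ π ⧸ (J2 π ^ 2)) := by
  obtain ⟨T, hT⟩ := Group.fg_def.1 hfg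
  have hfin : Module.Finite ℤ (MonoidAlgebra ℤ π ⧸ (J2 π ^ 2)) := by
    have h1 : (insert 1 (e '' (T : Set π))).Finite := (T.finite_toSet.image e).insert 1
    have h2 : Submodule.span ℤ (insert 1 (e '' (T : Set π))) ⊔ J2 π ^ 2 = ⊤ := by
      refine top_of_e _ fun g => e_mem_of_gen _ ?_ le_sup_right (T : Set π) hT ?_ g
      · exact Submodule.mem_sup_left (Submodule.subset_span (Set.mem_insert _ _))
      · intro t ht
        exact Submodule.mem_sup_left (Submodule.subset_span (Set.mem_insert_of_mem _ ⟨t, ht, rfl⟩))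
    refine ⟨?_⟩
    have h3 : (⊤ : Submodule ℤ (MonoidAlgebra ℤ π ⧸ (J2 π ^ 2))) =
        (Submodule.span ℤ (insert 1 (e '' (T : Set π)))).map (J2 π ^ 2).mkQ := by
      have h4 := congrArg (Submodule.map (J2 π ^ 2).mkQ) h2
      rw [Submodule.map_sup, Submodule.mkQ_map_self, sup_bot_eq, Submodule.map_top,
        Submodule.range_mkQ] at h4
      exact h4.symm
    rw [h3]
    exact (Submodule.fg_span h1).map _
  refine Module.finite_of_fg_torsion _ ?_
  intro x
  obtain ⟨a, rfl⟩ := Submodule.Quotient.mk_surjective (J2 π ^ 2) x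
  refine ⟨⟨4, mem_nonZeroDivisors_of_ne_zero (by norm_num)⟩, ?_⟩
  change (4 : ℤ) • (Submodule.Quotient.mk a : MonoidAlgebra ℤ π ⧸ (J2 π ^ 2)) = 0
  rw [← Submodule.Quotient.mk_smul, Submodule.Quotient.mk_eq_zero]
  have h4 : (4 : ℤ) • a = (2 * 2) * a := by
    rw [zsmul_eq_mul]
    norm_num
  rw [h4]
  refine (H.ideal 2 a (by omega) _ ?_).2
  rw [sq]
  exact Submodule.mul_mem_mul two_mem two_mem

/-- the action of the automorphisms on the quotient -/
noncomputable def act (H : Hyp π) (θ : MulAut π) :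
    (MonoidAlgebra ℤ π ⧸ (J2 π ^ 2)) →ₗ[ℤ] (MonoidAlgebra ℤ π ⧸ (J2 π ^ 2)) :=
  Submodule.mapQ (J2 π ^ 2) (J2 π ^ 2) (A θ).toAddMonoidHom.toIntLinearMap
    (fun _ hx => A_mem H θ hx)

theorem act_mk (H : Hyp π) (θ : MulAut π) (x : MonoidAlgebra ℤ π) :
    act H θ (Submodule.Quotient.mk x) = Submodule.Quotient.mk (A θ x) := rfl

/-- the action as a homomorphism -/
noncomputable def actHom (H : Hyp π) :
    MulAut π →* Module.End ℤ (MonoidAlgebra ℤ π ⧸ (J2 π ^ 2)) where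
  toFun := act H
  map_one' := by
    refine LinearMap.ext fun x => ?_
    obtain ⟨a, rfl⟩ := Submodule.Quotient.mk_surjective _ x
    rw [act_mk, A_one]
    rfl
  map_mul' θ ζ := by
    refine LinearMap.ext fun x => ?_
    obtain ⟨a, rfl⟩ := Submodule.Quotient.mk_surjective _ x
    rw [act_mk, A_mul]
    rfl

theorem exists_power (H : Hyp π) (hfg : Group.FG π) : ∃ m : ℕ, 0 < m ∧ ∀ θ : MulAut π, Lev (θ ^ m) 1 := by
  have hf := finite_quot H hfg
  have hE : Finite (Module.End ℤ (MonoidAlgebra ℤ π ⧸ (J2 π ^ 2))) :=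
    Finite.of_injective (fun f => (f : (MonoidAlgebra ℤ π ⧸ (J2 π ^ 2)) →
      (MonoidAlgebra ℤ π ⧸ (J2 π ^ 2)))) DFunLike.coe_injective
  have hU : Finite (Module.End ℤ (MonoidAlgebra ℤ π ⧸ (J2 π ^ 2)))ˣ :=
    Finite.of_injective _ Units.val_injective
  refine ⟨Nat.card (Module.End ℤ (MonoidAlgebra ℤ π ⧸ (J2 π ^ 2)))ˣ, Nat.card_pos, fun θ => ?_⟩
  refine lev_one H fun x => ?_
  have h1 : (actHom H).toHomUnits (θ ^ Nat.card (Module.End ℤ (MonoidAlgebra ℤ π ⧸ (J2 π ^ 2)))ˣ) =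
      1 := by
    rw [map_pow, pow_card_eq_one']
  have h2 : act H (θ ^ Nat.card (Module.End ℤ (MonoidAlgebra ℤ π ⧸ (J2 π ^ 2)))ˣ) =
      LinearMap.id := by
    have := congrArg Units.val h1
    exact this
  have h3 := act_mk H (θ ^ Nat.card (Module.End ℤ (MonoidAlgebra ℤ π ⧸ (J2 π ^ 2)))ˣ) x
  rw [h2, LinearMap.id_apply] at h3
  exact (Submodule.Quotient.eq _).1 h3.symm

/-- part (2) -/
theorem part2 (H : Hyp π) (hfg : Group.FG π)
    (hR : ∀ h : π, (∀ k : ℕ, 1 ≤ k → MonoidAlgebra.single h (1 : ℤ) - 1 ∈ J2 π ^ k) → h = 1) :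
    UniqExp (MulAut π) := by
  obtain ⟨m, hm, hlev⟩ := exists_power H hfg
  refine ⟨max 2 m, fun p hp hp2 x y hxy => ?_⟩
  have hp2' : 2 < p := (le_max_left 2 m).trans_lt hp2
  have hpm : m < p := (le_max_right 2 m).trans_lt hp2
  refine MulEquiv.ext fun g => ?_
  have hfin : x g * (y g)⁻¹ = 1 := by
    refine hR _ fun k hk => ?_
    have hco : Nat.Coprime p (m * 2 ^ k) := by
      refine Nat.Coprime.mul_right ?_ (Nat.Coprime.pow_right k ?_)
      · exact Nat.coprime_of_lt_prime hm.ne' hpm hp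
      · rw [Nat.coprime_primes hp Nat.prime_two]
        omega
    obtain ⟨u, t, hut⟩ := bezout hp.pos (Nat.mul_pos hm (Nat.two_pow_pos k)) hco
    have hl : ∀ z : MulAut π, Lev (z ^ (m * 2 ^ k * t)) (k + 1) := by
      intro z
      rw [pow_mul, pow_mul]
      exact lev_pow H (lev_two_pow H (hlev z) k) t
    have h1 : x * x ^ (m * 2 ^ k * t) = y * y ^ (m * 2 ^ k * t) := by
      have i1 : x * x ^ (m * 2 ^ k * t) = (x ^ p) ^ u := by
        rw [← pow_mul, hut, pow_add, pow_one]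
      have i2 : y * y ^ (m * 2 ^ k * t) = (y ^ p) ^ u := by
        rw [← pow_mul, hut, pow_add, pow_one]
      rw [i1, i2, hxy]
    have hz : ∀ z : MulAut π, A (z * z ^ (m * 2 ^ k * t)) (e g) - e (z g) ∈ J2 π ^ (k + 1) := by
      intro z
      have h2 := A_mem H z ((hl z).1 (e g))
      rw [map_sub, A_e z g, ← A_mul] at h2
      exact h2
    have h4 : e (x g) - e (y g) ∈ J2 π ^ (k + 1) := by
      have h5 : e (x g) - e (y g) = (A (y * y ^ (m * 2 ^ k * t)) (e g) - e (y g)) -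
          (A (x * x ^ (m * 2 ^ k * t)) (e g) - e (x g)) := by
        rw [h1]
        abel
      rw [h5]
      exact Submodule.sub_mem _ (hz y) (hz x)
    have h5 : e (x g * (y g)⁻¹) - 1 = (e (x g) - e (y g)) * e (y g)⁻¹ := by
      rw [sub_mul, ← e_mul, ← e_mul, mul_inv_cancel, e_one]
    change e (x g * (y g)⁻¹) - 1 ∈ J2 π ^ k
    rw [h5]
    exact (H.ideal k _ hk _ (H.step k hk h4)).2
  exact mul_inv_eq_one.1 hfin

end PAUT

open PAUT in
theorem t_PAUT (hPJ2 : s_PJ2.{u}) : s_PAUT.{u} := by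
  refine ⟨fun G _ hR => ?_, fun π _ hfg hR => ?_⟩
  · obtain ⟨h1, h2, h3, h4⟩ := hPJ2 G
    exact part1 ⟨h1, h2, h3⟩ (h4 hR)
  · obtain ⟨h1, h2, h3, h4⟩ := hPJ2 π
    exact part2 ⟨h1, h2, h3⟩ hfg (h4 hR)

end Pool.Agent.SUR
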