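import Pool.Agent.SUR.StP

set_option autoImplicit false

universe u

namespace Pool.Agent.SUR.PFREE

/-- syllable lists -/
def Good {α : Type u} (l : List (α × ℤ)) : Prop :=
  (∀ p ∈ l, p.2 ≠ 0) ∧ l.IsChain (fun p q => p.1 ≠ q.1)

/-- the product of a syllable list -/
def pr {α : Type u} (l : List (α × ℤ)) : FreeGroup α :=
  (l.map fun p => FreeGroup.of p.1 ^ p.2).prod

theorem cons_ex {α : Type u} (a : α) (s : ℤ) (hs : s ≠ 0) (l : List (α × ℤ)) (hl : Good l) :
    ∃ l' : List (α × ℤ), Good l' ∧ pr l' = FreeGroup.of a ^ s * pr l := by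
  classical
  cases l with
  | nil =>
    refine ⟨[(a, s)], ⟨?_, ?_⟩, ?_⟩
    · intro p hp
      rw [List.mem_singleton] at hp
      rw [hp]; exact hs
    · exact List.isChain_singleton _
    · simp [pr]
  | cons b t =>
    obtain ⟨h1, h2⟩ := hl
    by_cases h : a = b.1
    · by_cases h0 : s + b.2 = 0
      · refine ⟨t, ⟨fun p hp => h1 p (List.mem_cons_of_mem _ hp), h2.tail⟩, ?_⟩
        have : pr (b :: t) = FreeGroup.of b.1 ^ b.2 * pr t := by simp [pr]
        rw [this, ← mul_assoc, h, ← zpow_add, h0, zpow_zero, one_mul]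
      · refine ⟨(a, s + b.2) :: t, ⟨?_, ?_⟩, ?_⟩
        · intro p hp
          rcases List.mem_cons.1 hp with hp | hp
          · rw [hp]; exact h0
          · exact h1 p (List.mem_cons_of_mem _ hp)
        · cases t with
          | nil => exact List.isChain_singleton _
          | cons c t =>
            rw [List.isChain_cons_cons] at h2 ⊢
            exact ⟨by simpa [h] using h2.1, h2.2⟩
        · have : pr (b :: t) = FreeGroup.of b.1 ^ b.2 * pr t := by simp [pr]
          have h3 : pr ((a, s + b.2) :: t) = FreeGroup.of a ^ (s + b.2) * pr t := by simp [pr]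
          rw [this, h3, ← mul_assoc, h, ← zpow_add]
    · refine ⟨(a, s) :: b :: t, ⟨?_, ?_⟩, ?_⟩
      · intro p hp
        rcases List.mem_cons.1 hp with hp | hp
        · rw [hp]; exact hs
        · exact h1 p hp
      · rw [List.isChain_cons_cons]
        exact ⟨h, h2⟩
      · simp [pr]

theorem good_ex {α : Type u} (g : FreeGroup α) : ∃ l : List (α × ℤ), Good l ∧ pr l = g := by
  classical
  obtain ⟨L, rfl⟩ : ∃ L, FreeGroup.mk L = g := ⟨g.toWord, FreeGroup.mk_toWord⟩
  induction L with
  | nil => exact ⟨[], ⟨by simp, List.isChain_nil⟩, by simp [pr, FreeGroup.one_eq_mk]⟩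
  | cons x L ih =>
    obtain ⟨l, hl, hp⟩ := ih
    obtain ⟨a, b⟩ := x
    have key : FreeGroup.mk ((a, b) :: L) = FreeGroup.of a ^ (if b then (1 : ℤ) else -1) *
        FreeGroup.mk L := by
      cases b
      · have : (FreeGroup.of a)⁻¹ = FreeGroup.mk [(a, false)] := by
          simp [FreeGroup.of, FreeGroup.inv_mk, FreeGroup.invRev]
        simp [this, FreeGroup.mul_mk]
      · simp [FreeGroup.of, FreeGroup.mul_mk]
    obtain ⟨l', h1, h2⟩ := cons_ex a (if b then (1 : ℤ) else -1) (by split_ifs <;> norm_num) l hl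
    exact ⟨l', h1, by rw [h2, hp, key]⟩

open Classical in
/-- the nilpotent matrices -/
noncomputable def N {α : Type u} (l : List (α × ℤ)) (x : α) :
    Matrix (Fin (l.length + 1)) (Fin (l.length + 1)) ℤ :=
  fun i j => if (i : ℕ) + 1 = j ∧ (l[(i : ℕ)]?).map Prod.fst = some x then 1 else 0

theorem N_sq {α : Type u} (l : List (α × ℤ)) (hl : Good l) (x : α) : N l x * N l x = 0 := by
  classical
  ext i k
  rw [Matrix.mul_apply]
  refine Finset.sum_eq_zero fun j _ => ?_
  by_contra h
  have h1 : N l x i j ≠ 0 := fun h0 => h (by rw [h0, zero_mul])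
  have h2 : N l x j k ≠ 0 := fun h0 => h (by rw [h0, mul_zero])
  unfold N at h1 h2
  have e1 := (ite_ne_right_iff.1 h1).1
  have e2 := (ite_ne_right_iff.1 h2).1
  obtain ⟨e1, f1⟩ := e1
  obtain ⟨e2, f2⟩ := e2
  rw [Option.map_eq_some_iff] at f1 f2
  obtain ⟨p, hp, hp2⟩ := f1
  obtain ⟨q, hq, hq2⟩ := f2
  rw [← e1] at hq
  obtain ⟨hi, hp⟩ := List.getElem?_eq_some_iff.1 hp
  obtain ⟨hj, hq⟩ := List.getElem?_eq_some_iff.1 hq
  have := List.isChain_iff_getElem.1 hl.2 i hj
  rw [hp, hq, hp2, hq2] at this
  exact this rfl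

/-- the unit `1 + N x` -/
noncomputable def uu {α : Type u} (l : List (α × ℤ)) (hl : Good l) (x : α) :
    (Matrix (Fin (l.length + 1)) (Fin (l.length + 1)) ℤ)ˣ where
  val := 1 + N l x
  inv := 1 - N l x
  val_inv := by
    have := N_sq l hl x
    rw [add_mul, mul_sub, mul_sub, this]; simp
  inv_val := by
    have := N_sq l hl x
    rw [sub_mul, mul_add, mul_add, this]; simp

theorem uu_pow {α : Type u} (l : List (α × ℤ)) (hl : Good l) (x : α) (n : ℕ) :
    ((uu l hl x ^ n : (Matrix (Fin (l.length + 1)) (Fin (l.length + 1)) ℤ)ˣ) :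
      Matrix (Fin (l.length + 1)) (Fin (l.length + 1)) ℤ) = 1 + (n : ℤ) • N l x ∧
    (((uu l hl x)⁻¹ ^ n : (Matrix (Fin (l.length + 1)) (Fin (l.length + 1)) ℤ)ˣ) :
      Matrix (Fin (l.length + 1)) (Fin (l.length + 1)) ℤ) = 1 - (n : ℤ) • N l x := by
  have hN := N_sq l hl x
  induction n with
  | zero => simp
  | succ n ih =>
    obtain ⟨h1, h2⟩ := ih
    constructor
    · rw [pow_succ, Units.val_mul, h1]
      change (1 + (n : ℤ) • N l x) * (1 + N l x) = _
      have e1 : ((n : ℤ) • N l x) * N l x = 0 := by rw [smul_mul_assoc, hN, smul_zero]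
      rw [add_mul, mul_add, mul_add, e1, mul_one, mul_one, one_mul]
      push_cast
      rw [add_smul, one_smul]
      abel
    · rw [pow_succ, Units.val_mul, h2]
      change (1 - (n : ℤ) • N l x) * (1 - N l x) = _
      have e1 : ((n : ℤ) • N l x) * N l x = 0 := by rw [smul_mul_assoc, hN, smul_zero]
      rw [sub_mul, mul_sub, mul_sub, e1, mul_one, mul_one, one_mul]
      push_cast
      rw [add_smul, one_smul]
      abel

theorem uu_zpow {α : Type u} (l : List (α × ℤ)) (hl : Good l) (x : α) (e : ℤ) :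
    ((uu l hl x ^ e : (Matrix (Fin (l.length + 1)) (Fin (l.length + 1)) ℤ)ˣ) :
      Matrix (Fin (l.length + 1)) (Fin (l.length + 1)) ℤ) = 1 + e • N l x := by
  obtain ⟨n, rfl | rfl⟩ := e.eq_nat_or_neg
  · rw [zpow_natCast]; exact (uu_pow l hl x n).1
  · rw [zpow_neg, zpow_natCast, ← inv_pow, (uu_pow l hl x n).2, neg_smul, sub_eq_add_neg]

/-- the representation -/
noncomputable def rep {α : Type u} (l : List (α × ℤ)) (hl : Good l) :
    FreeGroup α →* Matrix (Fin (l.length + 1)) (Fin (l.length + 1)) ℤ :=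
  (Units.coeHom _).comp (FreeGroup.lift (uu l hl))

theorem rep_zpow {α : Type u} (l : List (α × ℤ)) (hl : Good l) (x : α) (e : ℤ) :
    rep l hl (FreeGroup.of x ^ e) = 1 + e • N l x := by
  rw [← uu_zpow l hl x e]
  simp [rep]

theorem N_low {α : Type u} (l : List (α × ℤ)) (x : α) (i j : Fin (l.length + 1)) (h : j ≤ i) :
    N l x i j = 0 := by
  unfold N
  rw [if_neg]
  rintro ⟨h1, -⟩
  have : (j : ℕ) ≤ i := h
  omega

theorem rep_uni {α : Type u} (l : List (α × ℤ)) (hl : Good l) (h : FreeGroup α) :
    ∀ i j, j ≤ i → rep l hl h i j = if i = j then 1 else 0 := by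
  induction h using FreeGroup.induction_on with
  | C1 => intro i j _; rw [map_one, Matrix.one_apply]
  | of x =>
    intro i j hij
    have := rep_zpow l hl x 1
    rw [zpow_one, one_smul] at this
    change rep l hl (FreeGroup.of x) i j = _
    rw [this, Matrix.add_apply, N_low l x i j hij, Matrix.one_apply, add_zero]
  | inv_of x _ =>
    intro i j hij
    have := rep_zpow l hl x (-1)
    rw [zpow_neg_one] at this
    change rep l hl (FreeGroup.of x)⁻¹ i j = _
    rw [this, Matrix.add_apply, Matrix.smul_apply, N_low l x i j hij, Matrix.one_apply, smul_zero,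
      add_zero]
  | mul a b ha hb =>
    intro i j hij
    rw [map_mul, Matrix.mul_apply, Finset.sum_eq_single i]
    · rw [ha i i le_rfl, if_pos rfl, one_mul, hb i j hij]
    · intro k _ hk
      rcases lt_or_gt_of_ne hk with h | h
      · rw [ha i k h.le, if_neg (Ne.symm hk), zero_mul]
      · rw [hb k j (hij.trans h.le), if_neg, mul_zero]
        exact (lt_of_le_of_lt hij h).ne'
    · intro h; exact absurd (Finset.mem_univ i) h

theorem last_col {α : Type u} (l : List (α × ℤ)) (hl : Good l) (d : ℕ) (hd : d ≤ l.length) :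
    (∀ j : Fin (l.length + 1), (j : ℕ) < l.length - d →
      rep l hl (pr (l.drop (l.length - d))) j (Fin.last _) = 0) ∧
    ∀ j : Fin (l.length + 1), (j : ℕ) = l.length - d →
      rep l hl (pr (l.drop (l.length - d))) j (Fin.last _) ≠ 0 := by
  induction d with
  | zero =>
    have h1 : pr (l.drop (l.length - 0)) = 1 := by simp [pr]
    rw [h1, map_one]
    constructor
    · intro j hj
      rw [Matrix.one_apply, if_neg]
      intro h
      rw [h] at hj
      simp at hj
    · intro j hj
      rw [Matrix.one_apply, if_pos]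
      · exact one_ne_zero
      · ext; simpa using hj
  | succ d ih =>
    obtain ⟨ih1, ih2⟩ := ih (by omega)
    set k := l.length - (d + 1) with hk
    have hk1 : l.length - d = k + 1 := by omega
    have hkl : k < l.length := by omega
    rw [hk1] at ih1 ih2
    have hdrop : l.drop k = l[k] :: l.drop (k + 1) := List.drop_eq_getElem_cons hkl
    have hpr : pr (l.drop k) = FreeGroup.of l[k].1 ^ l[k].2 * pr (l.drop (k + 1)) := by
      rw [hdrop]; rfl
    have hent : ∀ j : Fin (l.length + 1), rep l hl (pr (l.drop k)) j (Fin.last _) =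
        rep l hl (pr (l.drop (k + 1))) j (Fin.last _) +
          l[k].2 * ∑ i, N l l[k].1 j i * rep l hl (pr (l.drop (k + 1))) i (Fin.last _) := by
      intro j
      rw [hpr, map_mul, rep_zpow, add_mul, one_mul, Matrix.add_apply, smul_mul_assoc,
        Matrix.smul_apply, Matrix.mul_apply, smul_eq_mul]
    constructor
    · intro j hj
      rw [hent, ih1 j (by omega), Finset.sum_eq_zero, mul_zero, add_zero]
      intro i _
      by_cases hi : (j : ℕ) + 1 = i
      · rw [ih1 i (by omega), mul_zero]
      · unfold N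
        rw [if_neg (fun h => hi h.1), zero_mul]
    · intro j hj
      rw [hent, ih1 j (by omega), zero_add]
      have hlt : k + 1 < l.length + 1 := by omega
      rw [Finset.sum_eq_single (⟨k + 1, hlt⟩ : Fin (l.length + 1))]
      · have hN : N l l[k].1 j ⟨k + 1, hlt⟩ = 1 := by
          unfold N
          rw [if_pos]
          refine ⟨by simp [hj], ?_⟩
          rw [hj, List.getElem?_eq_getElem hkl]
          rfl
        rw [hN, one_mul]
        refine mul_ne_zero (hl.1 _ (List.getElem_mem hkl)) (ih2 _ rfl)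
      · intro i _ hi
        unfold N
        rw [if_neg, zero_mul]
        rintro ⟨h, -⟩
        apply hi
        ext
        simp; omega
      · intro h; exact absurd (Finset.mem_univ _) h

end Pool.Agent.SUR.PFREE

namespace Pool.Agent.SUR

theorem t_PFREE : s_PFREE.{u} := by
  intro α g hg
  obtain ⟨l, hl, hp⟩ := PFREE.good_ex g
  refine ⟨l.length + 1, PFREE.rep l hl, fun h i j hij => PFREE.rep_uni l hl h i j hij, ?_⟩
  intro h1
  have hl0 : l ≠ [] := by
    rintro rfl
    exact hg (by rw [← hp]; simp [PFREE.pr])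
  have hpos : 0 < l.length := List.length_pos_iff.2 hl0
  have h2 := (PFREE.last_col l hl l.length le_rfl).2 0 (by simp)
  rw [Nat.sub_self, List.drop_zero, hp, h1, Matrix.one_apply, if_neg] at h2
  · exact h2 rfl
  · intro h
    have := congrArg Fin.val h
    simp at this
    omega

end Pool.Agent.SUR
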