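import Pool.Agent.SUR.StP

/-!
Module DTP_J2 (MP_e40716_gt): the powers of the augmentation ideal modulo `2` of an integral group
ring.
-/

set_option autoImplicit false

universe u

namespace Pool.Agent.SUR

namespace PJ2

open MonoidAlgebra

variable {π : Type u} [Group π]

theorem two_mem : (2 : MonoidAlgebra ℤ π) ∈ J2 π := Submodule.subset_span (Set.mem_insert _ _)

theorem sub_mem (g : π) : (single g 1 - 1 : MonoidAlgebra ℤ π) ∈ J2 π :=
  Submodule.subset_span (Set.mem_insert_of_mem _ ⟨g, rfl⟩)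

theorem two_smul_mem (a : MonoidAlgebra ℤ π) (h : a - 1 ∈ J2 π) :
    (a * 2 : MonoidAlgebra ℤ π) ∈ J2 π := by
  have e : (a * 2 : MonoidAlgebra ℤ π) = (2 : ℤ) • (a - 1) + 2 := by
    rw [two_smul, mul_two]
    have : (2 : MonoidAlgebra ℤ π) = 1 + 1 := by norm_num
    rw [this]; abel
  rw [e]
  exact add_mem (Submodule.smul_mem _ _ h) two_mem

theorem single_mul_mem (g : π) {x : MonoidAlgebra ℤ π} (hx : x ∈ J2 π) :
    single g 1 * x ∈ J2 π := by
  induction hx using Submodule.span_induction with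
  | mem y hy =>
    rcases hy with rfl | ⟨h, rfl⟩
    · exact two_smul_mem _ (sub_mem g)
    · have e : (single g 1 * (single h 1 - 1) : MonoidAlgebra ℤ π) =
          (single (g * h) 1 - 1) - (single g 1 - 1) := by
        rw [mul_sub, single_mul_single, mul_one, mul_one]; abel
      rw [e]
      exact Submodule.sub_mem _ (sub_mem _) (sub_mem _)
  | zero => rw [mul_zero]; exact zero_mem _
  | add y z _ _ h1 h2 => rw [mul_add]; exact add_mem h1 h2
  | smul c y _ h => rw [mul_smul_comm]; exact Submodule.smul_mem _ _ h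

theorem mul_single_mem (g : π) {x : MonoidAlgebra ℤ π} (hx : x ∈ J2 π) :
    x * single g 1 ∈ J2 π := by
  induction hx using Submodule.span_induction with
  | mem y hy =>
    rcases hy with rfl | ⟨h, rfl⟩
    · have := two_smul_mem _ (sub_mem g)
      rw [mul_two] at this
      rw [two_mul]
      exact this
    · have e : ((single h 1 - 1) * single g 1 : MonoidAlgebra ℤ π) =
          (single (h * g) 1 - 1) - (single g 1 - 1) := by
        rw [sub_mul, single_mul_single, one_mul, one_mul]; abel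
      rw [e]
      exact Submodule.sub_mem _ (sub_mem _) (sub_mem _)
  | zero => rw [zero_mul]; exact zero_mem _
  | add y z _ _ h1 h2 => rw [add_mul]; exact add_mem h1 h2
  | smul c y _ h => rw [smul_mul_assoc]; exact Submodule.smul_mem _ _ h

theorem single_eq_smul (g : π) (r : ℤ) :
    (single g r : MonoidAlgebra ℤ π) = r • single g 1 := by
  rw [smul_single, smul_eq_mul, mul_one]

theorem mul_mem_left (a : MonoidAlgebra ℤ π) {x : MonoidAlgebra ℤ π} (hx : x ∈ J2 π) :
    a * x ∈ J2 π := by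
  induction a using MonoidAlgebra.induction_linear with
  | zero => rw [zero_mul]; exact zero_mem _
  | add a b h1 h2 => rw [add_mul]; exact add_mem h1 h2
  | single g r =>
    rw [single_eq_smul, smul_mul_assoc]
    exact Submodule.smul_mem _ _ (single_mul_mem g hx)

theorem mul_mem_right (a : MonoidAlgebra ℤ π) {x : MonoidAlgebra ℤ π} (hx : x ∈ J2 π) :
    x * a ∈ J2 π := by
  induction a using MonoidAlgebra.induction_linear with
  | zero => rw [mul_zero]; exact zero_mem _
  | add a b h1 h2 => rw [mul_add]; exact add_mem h1 h2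
  | single g r =>
    rw [single_eq_smul, mul_smul_comm]
    exact Submodule.smul_mem _ _ (mul_single_mem g hx)

theorem pow_mul_mem_left (k : ℕ) (a : MonoidAlgebra ℤ π) {x : MonoidAlgebra ℤ π}
    (hx : x ∈ J2 π ^ (k + 1)) : a * x ∈ J2 π ^ (k + 1) := by
  rw [pow_succ'] at hx ⊢
  induction hx using Submodule.mul_induction_on' with
  | mem_mul_mem m hm n hn =>
    rw [← mul_assoc]
    exact Submodule.mul_mem_mul (mul_mem_left a hm) hn
  | add x _ y _ h1 h2 => rw [mul_add]; exact add_mem h1 h2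

theorem pow_mul_mem_right (k : ℕ) (a : MonoidAlgebra ℤ π) {x : MonoidAlgebra ℤ π}
    (hx : x ∈ J2 π ^ (k + 1)) : x * a ∈ J2 π ^ (k + 1) := by
  rw [pow_succ] at hx ⊢
  induction hx using Submodule.mul_induction_on' with
  | mem_mul_mem m hm n hn =>
    rw [mul_assoc]
    exact Submodule.mul_mem_mul hm (mul_mem_right a hn)
  | add x _ y _ h1 h2 => rw [add_mul]; exact add_mem h1 h2

theorem map_J2 (θ : MulAut π) {x : MonoidAlgebra ℤ π} (hx : x ∈ J2 π) :
    MonoidAlgebra.mapDomain θ x ∈ J2 π := by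
  induction hx using Submodule.span_induction with
  | mem y hy =>
    rcases hy with rfl | ⟨h, rfl⟩
    · have e : MonoidAlgebra.mapDomain θ (2 : MonoidAlgebra ℤ π) = 2 :=
        map_ofNat (mapDomainRingHom ℤ (θ : π →* π)) 2
      rw [e]; exact two_mem
    · have e : MonoidAlgebra.mapDomain θ (single h 1 - 1 : MonoidAlgebra ℤ π) =
          single (θ h) 1 - 1 := by
        have := map_sub (mapDomainRingHom ℤ (θ : π →* π)) (single h 1) 1
        rw [map_one] at this
        refine this.trans ?_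
        congr 1
        exact mapDomain_single
      rw [e]; exact sub_mem _
  | zero => rw [mapDomain_zero]; exact zero_mem _
  | add y z _ _ h1 h2 => rw [mapDomain_add]; exact add_mem h1 h2
  | smul c y _ h =>
    have e : MonoidAlgebra.mapDomain θ (c • y) = c • MonoidAlgebra.mapDomain θ y :=
      map_zsmul (mapDomainRingHom ℤ (θ : π →* π)) c y
    rw [e]
    exact Submodule.smul_mem _ _ h

theorem map_pow_J2 (θ : MulAut π) : ∀ (k : ℕ) {x : MonoidAlgebra ℤ π}, x ∈ J2 π ^ k →
    MonoidAlgebra.mapDomain θ x ∈ J2 π ^ k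
  | 0, x, hx => by
    rw [pow_zero, Submodule.mem_one] at hx ⊢
    obtain ⟨y, rfl⟩ := hx
    refine ⟨y, ?_⟩
    exact (map_intCast (mapDomainRingHom ℤ (θ : π →* π)) y).symm
  | k + 1, x, hx => by
    rw [pow_succ] at hx ⊢
    induction hx using Submodule.mul_induction_on' with
    | mem_mul_mem m hm n hn =>
      rw [mapDomain_mul]
      exact Submodule.mul_mem_mul (map_pow_J2 θ k hm) (map_J2 θ hn)
    | add x _ y _ h1 h2 => rw [mapDomain_add]; exact add_mem h1 h2

/-! ### Unitriangular matrices -/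

/-- the matrices of level `k` -/
def Lev (m k : ℕ) (A : Matrix (Fin m) (Fin m) ℤ) : Prop :=
  (∀ i j, j < i → A i j = 0) ∧ ∀ i j, i ≤ j → (2 : ℤ) ^ (k - (j.val - i.val)) ∣ A i j

theorem Lev.add {m k : ℕ} {A B : Matrix (Fin m) (Fin m) ℤ} (hA : Lev m k A) (hB : Lev m k B) :
    Lev m k (A + B) :=
  ⟨fun i j h => by rw [Matrix.add_apply, hA.1 i j h, hB.1 i j h, add_zero],
    fun i j h => dvd_add (hA.2 i j h) (hB.2 i j h)⟩

theorem Lev.zero (m k : ℕ) : Lev m k 0 :=
  ⟨fun _ _ _ => rfl, fun _ _ _ => dvd_zero _⟩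

theorem Lev.smul {m k : ℕ} {A : Matrix (Fin m) (Fin m) ℤ} (c : ℤ) (hA : Lev m k A) :
    Lev m k (c • A) :=
  ⟨fun i j h => by rw [Matrix.smul_apply, hA.1 i j h, smul_zero],
    fun i j h => by rw [Matrix.smul_apply]; exact dvd_smul_of_dvd _ (hA.2 i j h)⟩

theorem Lev.mul {m k l : ℕ} {A B : Matrix (Fin m) (Fin m) ℤ} (hA : Lev m k A) (hB : Lev m l B) :
    Lev m (k + l) (A * B) := by
  constructor
  · intro i j h
    rw [Matrix.mul_apply]
    refine Finset.sum_eq_zero fun t _ => ?_
    rcases lt_or_ge t i with h1 | h1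
    · rw [hA.1 i t h1, zero_mul]
    · rw [hB.1 t j (lt_of_lt_of_le h h1), mul_zero]
  · intro i j h
    rw [Matrix.mul_apply]
    refine Finset.dvd_sum fun t _ => ?_
    rcases lt_or_ge t i with h1 | h1
    · rw [hA.1 i t h1, zero_mul]; exact dvd_zero _
    rcases lt_or_ge j t with h2 | h2
    · rw [hB.1 t j h2, mul_zero]; exact dvd_zero _
    · refine (pow_dvd_pow 2 ?_).trans ((pow_add (2 : ℤ) _ _).dvd.trans
        (mul_dvd_mul (hA.2 i t h1) (hB.2 t j h2)))
      have h3 : i.val ≤ t.val := h1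
      have h4 : t.val ≤ j.val := h2
      omega

theorem lev_gen {m : ℕ} (ρ : π →* Matrix (Fin m) (Fin m) ℤ)
    (hρ : ∀ h i j, j ≤ i → ρ h i j = if i = j then 1 else 0) {x : MonoidAlgebra ℤ π}
    (hx : x ∈ J2 π) : Lev m 1 (MonoidAlgebra.lift ℤ (Matrix (Fin m) (Fin m) ℤ) π ρ x) := by
  induction hx using Submodule.span_induction with
  | mem y hy =>
    rcases hy with rfl | ⟨h, rfl⟩
    · rw [map_ofNat]
      have e : (OfNat.ofNat 2 : Matrix (Fin m) (Fin m) ℤ) = Matrix.diagonal fun _ => 2 := by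
        ext i j
        rw [Matrix.ofNat_apply, Matrix.diagonal_apply]
        split_ifs <;> rfl
      rw [e]
      constructor
      · intro i j h
        rw [Matrix.diagonal_apply_ne _ h.ne']
      · intro i j h
        by_cases hij : i = j
        · subst hij
          rw [Matrix.diagonal_apply_eq]
          simp
        · rw [Matrix.diagonal_apply_ne _ hij]; exact dvd_zero _
    · rw [map_sub, map_one, MonoidAlgebra.lift_single, one_smul]
      constructor
      · intro i j hij
        rw [Matrix.sub_apply, hρ h i j hij.le, Matrix.one_apply, sub_self]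
      · intro i j hij
        rcases hij.eq_or_lt with rfl | hij
        · rw [Matrix.sub_apply, hρ h i i le_rfl, Matrix.one_apply, sub_self]; exact dvd_zero _
        · have h1 : 1 - (j.val - i.val) = 0 := by
            have : i.val < j.val := hij
            omega
          rw [h1, pow_zero]
          exact one_dvd _
  | zero => rw [map_zero]; exact Lev.zero _ _
  | add y z _ _ h1 h2 => rw [map_add]; exact h1.add h2
  | smul c y _ h => rw [map_smul]; exact h.smul c

theorem lev_pow {m : ℕ} (ρ : π →* Matrix (Fin m) (Fin m) ℤ)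
    (hρ : ∀ h i j, j ≤ i → ρ h i j = if i = j then 1 else 0) : ∀ (k : ℕ) {x : MonoidAlgebra ℤ π},
    x ∈ J2 π ^ k → Lev m k (MonoidAlgebra.lift ℤ (Matrix (Fin m) (Fin m) ℤ) π ρ x)
  | 0, x, hx => by
    rw [pow_zero, Submodule.mem_one] at hx
    obtain ⟨y, rfl⟩ := hx
    have e : MonoidAlgebra.lift ℤ (Matrix (Fin m) (Fin m) ℤ) π ρ
        (algebraMap ℤ (MonoidAlgebra ℤ π) y) = y • (1 : Matrix (Fin m) (Fin m) ℤ) := by
      rw [AlgHom.commutes, Algebra.algebraMap_eq_smul_one]
    rw [e]
    refine Lev.smul y ⟨fun i j h => Matrix.one_apply_ne h.ne', fun i j _ => ?_⟩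
    rw [Nat.zero_sub, pow_zero]
    exact one_dvd _
  | k + 1, x, hx => by
    rw [pow_succ] at hx
    induction hx using Submodule.mul_induction_on' with
    | mem_mul_mem m hm n hn =>
      rw [map_mul]
      exact (lev_pow ρ hρ k hm).mul (lev_gen ρ hρ hn)
    | add x _ y _ h1 h2 => rw [map_add]; exact h1.add h2

theorem eq_zero_of_dvd {z : ℤ} (h : ∀ e : ℕ, (2 : ℤ) ^ e ∣ z) : z = 0 := by
  refine Int.eq_zero_of_abs_lt_dvd (h z.natAbs) ?_
  rw [Int.abs_eq_natAbs]
  exact_mod_cast Nat.lt_two_pow_self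

end PJ2

open PJ2 in
/-- **DTP_J2.** -/
theorem t_PJ2 : s_PJ2.{u} := by
  intro π _
  refine ⟨?_, ?_, fun θ k x hx => map_pow_J2 θ k hx, ?_⟩
  · intro k a hk x hx
    obtain ⟨k, rfl⟩ : ∃ l, k = l + 1 := ⟨k - 1, by omega⟩
    exact ⟨pow_mul_mem_left k a hx, pow_mul_mem_right k a hx⟩
  · intro k hk
    obtain ⟨k, rfl⟩ : ∃ l, k = l + 1 := ⟨k - 1, by omega⟩
    rw [pow_succ _ (k + 1)]
    exact Submodule.mul_le.2 fun x hx y _ => pow_mul_mem_right k y hx
  · intro hR h hh
    by_contra hne
    obtain ⟨m, ρ, hρ, hρh⟩ := hR h hne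
    refine hρh ?_
    ext i j
    rcases lt_or_ge j i with hij | hij
    · rw [hρ h i j hij.le, Matrix.one_apply]
    · have h1 : ∀ e : ℕ, (2 : ℤ) ^ e ∣ (ρ h - 1) i j := by
        intro e
        have h2 := (lev_pow ρ hρ (e + (j.val - i.val) + 1) (hh _ (by omega))).2 i j hij
        rw [map_sub, map_one, MonoidAlgebra.lift_single, one_smul] at h2
        exact (pow_dvd_pow 2 (by omega)).trans h2
      have h3 := eq_zero_of_dvd h1
      rw [Matrix.sub_apply] at h3
      exact sub_eq_zero.1 h3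

end Pool.Agent.SUR
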