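import Pool.Agent.SUR.StP

/-!
# SUR, module PPRT: unique roots and few roots
-/

set_option autoImplicit false

universe u

namespace Pool.Agent.SUR

theorem t_PPRT : s_PPRT.{u} := by
  intro G _ hU hF S hS N
  obtain ⟨N0, hN0⟩ := hU
  have hT : (⋃ x ∈ (S : Set G), ⋃ y ∈ (S : Set G), {p : ℕ | p.Prime ∧ IsConj (x ^ p) y}).Finite :=
    Set.Finite.biUnion S.finite_toSet fun x hx =>
      Set.Finite.biUnion S.finite_toSet fun y _ => hF x y (hS x hx)
  obtain ⟨b, hb⟩ := hT.bddAbove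
  obtain ⟨p, hp, hpp⟩ := Nat.exists_infinite_primes (N + N0 + b + 1)
  have h1 : N < p := by omega
  have h2 : N0 < p := by omega
  have h3 : b < p := by omega
  refine ⟨p, h1, hpp, ?_, ?_⟩
  · intro x _ h hh
    have h4 : (h * x * h⁻¹) ^ p = x ^ p := by
      rw [conj_pow, hh, mul_inv_cancel_right]
    have h5 := hN0 p hpp h2 _ _ h4
    rw [mul_inv_eq_iff_eq_mul] at h5
    exact h5
  · intro x hx y hy
    refine ⟨fun hc => ?_, fun hc => ?_⟩
    · have h4 : p ∈ ⋃ x ∈ (S : Set G), ⋃ y ∈ (S : Set G), {p : ℕ | p.Prime ∧ IsConj (x ^ p) y} :=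
        Set.mem_iUnion₂.2 ⟨x, hx, Set.mem_iUnion₂.2 ⟨y, hy, hpp, hc⟩⟩
      have := hb h4
      omega
    · obtain ⟨k, hk⟩ := isConj_iff.1 hc
      refine isConj_iff.2 ⟨k, ?_⟩
      apply hN0 p hpp h2
      rw [conj_pow]
      exact hk

end Pool.Agent.SUR
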