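import Pool.Agent.SUR.St

/-!
# Surjectivity in degree one, seen in finite quotients: the general form of the last steps
-/

set_option autoImplicit false

universe u

namespace Pool.Agent.SUR

open Pool.Agent.WhK

/-- every element `g` of infinite order has a homomorphism from its centraliser to `ℤ` which does
not vanish at `g` -/
def CentHom (G : Type*) [Group G] : Prop :=
  ∀ g : G, ¬IsOfFinOrder g → ∃ f : Subgroup.centralizer {g} →* Multiplicative ℤ,
    (f ⟨g, Subgroup.mem_centralizer_singleton_iff.2 rfl⟩).toAdd ≠ 0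

/-- for large primes the integral logarithm vanishes at the classes of infinite order outside of
`SC` and of its `p`-th powers -/
def Vanishes (G : Type u) [Group G] : Prop :=
  ∀ n : ℕ, 0 < n → ∀ w : (MonoidAlgebra ℤ (MM G n))ˣ, ∃ p0 : ℕ, ∀ (p m : ℕ) [Fact p.Prime],
    p0 < p → ∀ K : ConjClasses G, (∀ g, ConjClasses.mk g = K → ¬IsOfFinOrder g) →
    some K ∉ SC MM.cl w → (∀ C, some C ∈ SC MM.cl w → powC p C ≠ K) →
    gamVal MM.cl MM.cl_comm p m w (some K) = 0

/-- the conclusion of the arithmetic argument -/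
def ArithG (G : Type u) [Group G] : Prop :=
  ∀ (n : ℕ), 0 < n → ∀ (w : (MonoidAlgebra ℤ (MM G n))ˣ) (Q : Type u) [Group Q] [Finite Q]
    (π : G →* Q) (M : ℕ), 0 < M →
  ∃ (p : ℕ) (_ : Fact p.Prime), p ≠ 2 ∧ M ∣ p - 1 ∧ ∃ D : ℕ, 0 < D ∧
    ∀ (m : ℕ) (c : Q), (∀ g, IsConj (π g) c → ¬IsOfFinOrder g) →
      D • Finsupp.mapDomain (Option.map (ConjClasses.map π)) (gamVal MM.cl MM.cl_comm p m w)
        (some (ConjClasses.mk c)) = 0

/-- the conclusion of the theorem -/
def SurjG (G : Type u) [Group G] : Prop :=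
  ∀ (Q : Type u) [Group Q] [Finite Q] (π : G →* Q) (x : K1 (MonoidAlgebra ℤ G)),
  ∃ n : ℕ, 0 < n ∧ n • K1.map (ringMap π) x ∈ AddSubgroup.closure
    {y | ∃ (H : Subgroup G) (_ : Finite H) (z : K1 (MonoidAlgebra ℤ H)),
      y = K1.map (ringMap (π.comp H.subtype)) z}

/-- COH. Coherence of the integral logarithms. (helper25) -/
def s_COH : Prop := ∀ (𝔐 K : Type u) [Monoid 𝔐] (cl : 𝔐 → K)
  (hcl : ∀ a b, cl (a * b) = cl (b * a)) (p m : ℕ) [Fact p.Prime], p ≠ 2 →
  ∀ (w : (MonoidAlgebra ℤ 𝔐)ˣ) (k : K),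
    ZMod.castHom (pow_dvd_pow p (Nat.le_succ (m + 1))) (ZMod (p ^ (m + 1)))
      (gamVal cl hcl p (m + 1) w k) = gamVal cl hcl p m w k

/-- ARIC. The arithmetic argument. (architect) Hypotheses `s_VAL`, `s_COC`, `s_RES`. -/
def s_ARIC : Prop := ∀ (G : Type u) [Group G], CentHom G → Vanishes G → ArithG G

/-- VANL (60 lines). Hypothesis `s_VAN`.
Proof. `p0 = max 2 (4 * L)` with `L` a bound for the lengths `ℓ h`, `unit i j h` in the (finite)
supports of `w` and `w⁻¹`. -/
def s_VANL : Prop := ∀ (G : Type u) [Group G] (ℓ : G → ℕ), LengthBound ℓ → Vanishes G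

/-- VANC (150 lines). Hypotheses `s_COH`, `s_REF`, `s_COC`, `s_RES`.
Proof. As `VAN` (see `Pool/Agent/SUR/VAN.lean`), `p0 = 2`. Take `g` with `mk g = K`, `f` from
`CentHom`, `v = f g ≠ 0`, `v = p^j c` with `p ∤ c`. `COC` gives `W`. `REF` at the level `m + j` (with
its `j` equal to `0` and its `c` equal to `v`): `v * gamVal (m + j) (some K) = e` and
`e = bil W w⁻¹ w - bil (pw W p) w⁻¹ w = 0` as in `VAN`. In `ZMod (p^(m+j+1))`: `c` is a unit, so
`p^j * a = 0`, `a = gamVal (m + j) (some K)`; so `p^(m+1)` divides `a.val` and the image of `a` in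
`ZMod (p^(m+1))` is `0`. This image is `gamVal m (some K)` (induction on `j` with `COH`). -/
def s_VANC : Prop := ∀ (G : Type u) [Group G], CentHom G → Vanishes G

/-- FINC (250 lines). Hypotheses `s_END`, `s_KCO`, `s_LIF`, `s_NTG`.
Proof. `x = K1.mk n X` (`K1.exists_mk`), `Y = GLn.map (ringMap π) n X`,
`K1.map (ringMap π) x = K1.mk n Y` (`K1.map_mk`). `KCO Q n Y` gives `n0, ξ, k, hk` with
`liftColim (K1.unitHom _) ξ = n0 • K1.mk n Y` and `Lmap Q k p m hp ξ (some κ) =
n0 • GamGL Q (k+1) p m hp (stabGL Y) (some κ)`. `stabGL Y = GLn.map (ringMap π) (k+1) (stabGL X)`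
(`stabMat_map`). Put `w = Fhom G (k+1) (stabGL X)`, so that
`GamGL G (k+1) p m hp (stabGL X) = gamVal MM.cl MM.cl_comm p m w`; `NTG` computes `GamGL Q` of the
image as `Finsupp.mapDomain (Option.map (ConjClasses.map π)) (gamVal .. w)`. Apply `ArithG G` with
`n = k + 1`, `w`, `Q`, `π`, `M = Nat.card Q`: `p`, `D`. Put `P c := ∃ g, IsOfFinOrder g ∧
IsConj (π g) c` (invariant under conjugation and closed under powers). `END` for `D • ξ` (`Lmap` is
additive): `n1 • D • ξ ∈ closure {ColimK1.mk C w | ∀ c ∈ C.1, P c}`. So with `n = n1 * D * n0`: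
`n • K1.mk n Y = liftColim .. (n1 • D • ξ)` is in the closure of the elements
`K1.unitHom .. (unitsMap C.1.subtype w)` (`liftColim_mk`) with `∀ c ∈ C.1, P c`. Let `S` be the
closure of the statement. Claim: a positive multiple of each of these elements is in `S` (then the
same holds for all elements of the closure: `{x | ∃ n > 0, n • x ∈ S}` is a subgroup, `sat`).
Proof of the claim: let `c0` generate `C`, `q * π g * q⁻¹ = c0`, `g` of finite order,
`H = zpowers g` (finite), `φ : H → C`, `φ h = q * π h * q⁻¹`; it is well defined and surjective since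
`C = zpowers c0`. `LIF`: `unitsMap φ w' = w ^ n`, `n > 0`. Then `n • K1.ofUnit (incl w) =
K1.ofUnit (incl (w ^ n)) = K1.ofUnit (incl (φ w'))`, and `incl (φ w')` is the conjugate by
`single q 1` of the image of `w'` under `ringMap (π.comp H.subtype)`; conjugate units have the same
class in `K1` (it is an abelian quotient of `GL`), and `K1.map_ofUnit`. -/
def s_FINC : Prop := ∀ (G : Type u) [Group G], ArithG G → SurjG G

/-- REF (200 lines). The statement is `s_REF` in `St.lean`; this is its proof. Hypotheses `s_KAP`,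
`s_WRW`, `s_DIV`, `s_INV`, `s_GAM`, `s_TOT`, `s_EVA`; use the rules in `Pool/Agent/SUR/Bil.lean`.
`N = p^(m+1)`, `U, Ui, Wo, Wi` = `extPow w, extPow w⁻¹, Wof w, Wof w⁻¹`, `z = zOf p m w`, `IsTrip` by
`isTrip_of` and `zOf_spec`; `X = XW Ui z Wi`, `Y = YW U z`, `X Y = Y X = 1` by `INV`. `d = p^j ∣ N` and
`d ∣ W 1 a` for all `a` (if `W 1 a ≠ 0`, then `cl (1 * a) = k` and `W 1 a = v = p^j c`). Put
`w' x y = (wr W x y - (The W (y * x) - The W (x * y))) / p^j` (exact by `DIV`). `w'` is a weight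
(multiply by `p^j`; `WRW` and associativity), `w' x y ≠ 0` implies `(x * y).i = 1`
(otherwise `wr W x y = 0` and both values of `The` are `0`), and `w' 1 a = c` if `a.i = 1` and
`cl (prodSeq a.s) = k`, `0` otherwise (`wr W 1 a` by `WRW`). `KAP` with `deg = degW 𝔐 N`:
`bil (fun a b => (w' 1 (a * b)) * b.i) X Y = bil w' X Y` in `ZMod N`, and the left hand side is
`c * bil (GAM's function) X Y = - c * gam k`. Finally `p^j * bil w' X Y = bil (wr W) X Y -
(lin (The W) (Y * X) - lin (The W) (X * Y)) = bil (wr W) X Y` (`bil_mul`, `bil_swap`), and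
`N * bil (wr W) X Y = -(N * bil W w⁻¹ w - N * bil (pw W p) w⁻¹ w)` by `TOT`, `EVA`. So
`e = - bil w' X Y`. -/
def s_REFdoc : Prop := True

end Pool.Agent.SUR
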