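import Mathlib
import Pool.Agent.SUR.St2

/-!
# The arithmetic argument
-/

set_option autoImplicit false

universe u

namespace Pool.Agent.SUR

open Pool.Agent.WhK

/-- the classes of infinite order -/
def InfC {G : Type*} [Group G] (K : ConjClasses G) : Prop :=
  ∀ g, ConjClasses.mk g = K → ¬IsOfFinOrder g

theorem isOfFinOrder_of_isConj {G : Type*} [Group G] {a b : G} (h : IsConj a b)
    (ha : IsOfFinOrder a) : IsOfFinOrder b := by
  obtain ⟨c, hc⟩ := isConj_iff.1 h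
  rw [isOfFinOrder_iff_pow_eq_one] at ha ⊢
  obtain ⟨n, hn, h1⟩ := ha
  exact ⟨n, hn, by rw [← hc, conj_pow, h1, mul_one, mul_inv_cancel]⟩

theorem infC_mk {G : Type*} [Group G] (g : G) : InfC (ConjClasses.mk g) ↔ ¬IsOfFinOrder g := by
  refine ⟨fun h => h g rfl, fun h g' hg' hf => h ?_⟩
  rw [ConjClasses.mk_eq_mk_iff_isConj] at hg'
  exact isOfFinOrder_of_isConj hg' hf

theorem powC_mk {G : Type*} [Group G] (p : ℕ) (g : G) :
    powC p (ConjClasses.mk g) = ConjClasses.mk (g ^ p) := rfl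

theorem infC_powC {G : Type*} [Group G] {p : ℕ} (hp : p ≠ 0) (K : ConjClasses G) :
    InfC (powC p K) ↔ InfC K := by
  obtain ⟨g, rfl⟩ := ConjClasses.exists_rep K
  rw [powC_mk, infC_mk, infC_mk, not_iff_not, isOfFinOrder_pow]
  exact ⟨fun h => h.resolve_right hp, Or.inl⟩

theorem map_powC {G Q : Type*} [Group G] [Group Q] [Finite Q] (π : G →* Q) {p : ℕ} (hp : 0 < p)
    (hQ : Nat.card Q ∣ p - 1) (K : ConjClasses G) :
    ConjClasses.map π (powC p K) = ConjClasses.map π K := by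
  obtain ⟨g, rfl⟩ := ConjClasses.exists_rep K
  show ConjClasses.mk (π (g ^ p)) = ConjClasses.mk (π g)
  have h1 : π g ^ (p - 1) = 1 := by
    obtain ⟨k, hk⟩ := hQ
    rw [hk, pow_mul, pow_card_eq_one', one_pow]
  have h2 : p = (p - 1) + 1 := by omega
  rw [map_pow, h2, pow_succ, h1, one_mul]

theorem mapDomain_eq_sum_of {α β A : Type*} [AddCommMonoid A] (f : α → β) (φ : α →₀ A) (y : β)
    (J : Finset α) (hJ : ∀ x ∈ J, f x = y) (h0 : ∀ x, f x = y → x ∉ J → φ x = 0) :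
    Finsupp.mapDomain f φ y = ∑ x ∈ J, φ x := by
  classical
  have h1 : Finsupp.mapDomain f φ y = ∑ x ∈ φ.support ∪ J, if f x = y then φ x else 0 := by
    rw [Finsupp.mapDomain, Finsupp.sum_apply, Finsupp.sum]
    have h2 : ∀ x, (Finsupp.single (f x) (φ x)) y = if f x = y then φ x else 0 := fun x =>
      Finsupp.single_apply
    rw [Finset.sum_congr rfl fun x _ => h2 x]
    refine Finset.sum_subset Finset.subset_union_left fun x _ hx => ?_
    rw [Finsupp.notMem_support_iff.1 hx, ite_self]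
  rw [h1]
  symm
  rw [← Finset.sum_subset (Finset.subset_union_right : J ⊆ φ.support ∪ J)]
  · exact Finset.sum_congr rfl fun x hx => by rw [if_pos (hJ x hx)]
  · intro x _ hx
    by_cases h : f x = y
    · rw [if_pos h]
      exact h0 x h hx
    · rw [if_neg h]

theorem exists_wt (hCOC : s_COC.{u}) {G : Type u} [Group G] (hc : CentHom G) (n : ℕ)
    (K : ConjClasses G) (hK : InfC K) :
    ∃ (v : ℤ) (W : MM G n → MM G n → ℤ), v ≠ 0 ∧ WtAt MM.cl (some K) v W := by
  obtain ⟨g, rfl⟩ := ConjClasses.exists_rep K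
  obtain ⟨f, hf⟩ := hc g ((infC_mk g).1 hK)
  obtain ⟨W, hW⟩ := hCOC G n g f
  exact ⟨_, W, hf, hW⟩

theorem SC_finite {𝔐 K : Type*} [Monoid 𝔐] (cl : 𝔐 → K) (w : (MonoidAlgebra ℤ 𝔐)ˣ) :
    (SC cl w).Finite := by
  classical
  refine Set.Finite.subset (((w⁻¹ : (MonoidAlgebra ℤ 𝔐)ˣ).val.coeff.support ×ˢ
    w.val.coeff.support).image fun x => cl (x.1 * x.2)).finite_toSet ?_
  rintro k ⟨a, ha, b, hb, rfl⟩
  exact Finset.mem_coe.2 (Finset.mem_image.2 ⟨(a, b), Finset.mem_product.2 ⟨ha, hb⟩, rfl⟩)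

/-- an integer with `v * (p * x m + s) = 0` modulo all powers of `p` is divisible by `p` -/
theorem dvd_of_forall {p : ℕ} [Fact p.Prime] (v s : ℤ) (hv : v ≠ 0)
    (x : (m : ℕ) → ZMod (p ^ (m + 1)))
    (h : ∀ m, (v : ZMod (p ^ (m + 1))) * (p * x m + s) = 0) : (p : ℤ) ∣ s := by
  have hp : p.Prime := Fact.out
  have hp1 : 1 < p := hp.one_lt
  -- choose `m` with `v` not divisible by `p ^ m`
  obtain ⟨m, hm⟩ : ∃ m : ℕ, ¬((p : ℤ) ^ (m + 1) ∣ v) := by
    refine ⟨v.natAbs, fun hd => ?_⟩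
    have h1 : p ^ (v.natAbs + 1) ∣ v.natAbs := by
      have := Int.natAbs_dvd_natAbs.2 hd
      rwa [Int.natAbs_pow, Int.natAbs_natCast] at this
    have h2 := Nat.le_of_dvd (Int.natAbs_pos.2 hv) h1
    have h3 : v.natAbs + 1 < p ^ (v.natAbs + 1) := Nat.lt_pow_self hp1
    omega
  have h1 := h m
  obtain ⟨y, hy⟩ := ZMod.intCast_surjective (x m)
  rw [← hy] at h1
  have h2 : ((v * (p * y + s) : ℤ) : ZMod (p ^ (m + 1))) = 0 := by
    push_cast
    exact h1
  rw [ZMod.intCast_zmod_eq_zero_iff_dvd] at h2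
  push_cast at h2
  by_contra hs
  have hcop : IsCoprime ((p : ℤ) ^ (m + 1)) (p * y + s) := by
    refine IsCoprime.pow_left ?_
    rw [Prime.coprime_iff_not_dvd (Nat.prime_iff_prime_int.1 hp)]
    intro hd
    exact hs ((Int.dvd_add_right (Dvd.intro _ rfl)).1 hd)
  exact hm (hcop.dvd_of_dvd_mul_right h2)

theorem t_ARIC (hVAL : s_VAL.{u}) (hCOC : s_COC.{u}) (hRES : s_RES.{u}) : s_ARIC.{u} := by
  intro G _ hc hvan n hn w Q _ _ π M hM
  classical
  obtain ⟨p0, hp0⟩ := hvan n hn w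
  have hwt : ∀ K : ConjClasses G, ∃ (v : ℤ) (W : MM G n → MM G n → ℤ),
      InfC K → v ≠ 0 ∧ WtAt MM.cl (some K) v W := by
    intro K
    by_cases hK : InfC K
    · obtain ⟨v, W, h⟩ := exists_wt hCOC hc n K hK
      exact ⟨v, W, fun _ => h⟩
    · exact ⟨0, 0, fun h => absurd h hK⟩
  choose v W hvW using hwt
  -- the classes of infinite order in `SC`
  have hfin : {C : ConjClasses G | some C ∈ SC MM.cl w}.Finite :=
    (SC_finite MM.cl w).preimage (Option.some_injective _).injOn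
  let S : Finset (ConjClasses G) := hfin.toFinset.filter InfC
  have hS : ∀ C, C ∈ S ↔ some C ∈ SC MM.cl w ∧ InfC C := fun C => by
    rw [Finset.mem_filter, Set.Finite.mem_toFinset]
    rfl
  let V : ℤ := ∏ C ∈ S, v C
  have hV : V ≠ 0 := Finset.prod_ne_zero_iff.2 fun C hC => (hvW C ((hS C).1 hC).2).1
  let a : ConjClasses G → ℤ := fun C =>
    (bil (W C) (w⁻¹ : (MonoidAlgebra ℤ (MM G n))ˣ).val w.val) * ∏ C' ∈ S.erase C, v C'
  let B : ℕ := p0 + 2 + ∑ C ∈ S, ((v C).natAbs + (a C).natAbs)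
  have hMQ : M * Nat.card Q ≠ 0 := Nat.mul_ne_zero hM.ne' Nat.card_pos.ne'
  obtain ⟨p, hp, hpB, hmod⟩ := Nat.exists_prime_gt_modEq_one (k := M * Nat.card Q) B hMQ
  have : Fact p.Prime := ⟨hp⟩
  have hdvd : M * Nat.card Q ∣ p - 1 := (Nat.modEq_iff_dvd' hp.one_lt.le).1 hmod.symm
  have hp2 : p ≠ 2 := by
    have : B < p := hpB
    omega
  have hpp0 : p0 < p := by
    have : B < p := hpB
    omega
  have hpz : (p : ℤ) ≠ 0 := by exact_mod_cast hp.ne_zero
  have hva : ∀ C ∈ S, (v C).natAbs < p := fun C hC => by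
    have h1 : (v C).natAbs + (a C).natAbs ≤ ∑ C ∈ S, ((v C).natAbs + (a C).natAbs) :=
      Finset.single_le_sum (f := fun C => (v C).natAbs + (a C).natAbs) (fun _ _ => Nat.zero_le _) hC
    have h2 : B < p := hpB
    omega
  -- (F1)
  have F1 : ∀ C ∈ S, ¬(p : ℤ) ∣ v C := fun C hC hd => by
    have h1 := Int.natAbs_dvd_natAbs.2 hd
    rw [Int.natAbs_natCast] at h1
    have h2 := Nat.le_of_dvd (Int.natAbs_pos.2 (hvW C ((hS C).1 hC).2).1) h1
    have h3 := hva C hC
    omega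
  -- (F2)
  have F2 : ∀ C ∈ S, ∀ C', powC p C' ≠ C := fun C hC C' h => by
    obtain ⟨v', h1, -⟩ := (hRES G n p C (v C) (W C) hn hp (hvW C ((hS C).1 hC).2).2).2.2.1 C' h
    exact F1 C hC ⟨v', h1⟩
  -- (F3)
  have F3 : ∀ C ∈ S, ∀ m, (V : ZMod (p ^ (m + 1))) * gamVal MM.cl MM.cl_comm p m w (some C) =
      (a C : ℤ) := fun C hC m => by
    have h1 := (hVAL G n p m hn hp2 w C (v C) (W C) (hvW C ((hS C).1 hC).2).2).1 (F1 C hC)
    have h2 : V = (∏ C' ∈ S.erase C, v C') * v C := (Finset.prod_erase_mul S v hC).symm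
    rw [h2, Int.cast_mul, mul_assoc, h1, ← Int.cast_mul, mul_comm]
  let SP : Finset (ConjClasses G) := S.image (powC p)
  have hSPinf : ∀ K ∈ SP, InfC K := fun K hK => by
    obtain ⟨C, hC, rfl⟩ := Finset.mem_image.1 hK
    exact (infC_powC hp.ne_zero C).2 ((hS C).1 hC).2
  have hSPS : ∀ K ∈ SP, some K ∉ SC MM.cl w := fun K hK h => by
    obtain ⟨C, hC, hCK⟩ := Finset.mem_image.1 hK
    exact F2 K ((hS K).2 ⟨h, hSPinf K hK⟩) C hCK
  -- (F4)
  have F4 : ∀ K ∈ SP, ∃ v' : ℤ, v K = p * v' ∧ ∀ m,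
      (v' : ZMod (p ^ (m + 1))) * (p * (V * gamVal MM.cl MM.cl_comm p m w (some K)) +
        ((∑ C ∈ S with powC p C = K, a C : ℤ) : ZMod (p ^ (m + 1)))) = 0 := fun K hK => by
    have hw := hvW K (hSPinf K hK)
    obtain ⟨C0, hC0, hCK⟩ := Finset.mem_image.1 hK
    obtain ⟨v', hv', -⟩ := (hRES G n p K (v K) (W K) hn hp hw.2).2.2.1 C0 hCK
    refine ⟨v', hv', fun m => ?_⟩
    have h1 := (hVAL G n p m hn hp2 w K (v K) (W K) hw.2).2 (S.filter fun C => powC p C = K) v' hv'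
      (hSPS K hK) (fun C => by
        rw [Finset.mem_filter, hS]
        refine ⟨fun h => ⟨h.1.1, h.2⟩, fun h => ⟨⟨h.1, ?_⟩, h.2⟩⟩
        rw [← infC_powC hp.ne_zero, h.2]
        exact hSPinf K hK)
      (fun C hC C' _ => F2 C (Finset.mem_filter.1 hC).1 C')
    have h2 : (V : ZMod (p ^ (m + 1))) * ∑ C ∈ S with powC p C = K,
        gamVal MM.cl MM.cl_comm p m w (some C) =
        ((∑ C ∈ S with powC p C = K, a C : ℤ) : ZMod (p ^ (m + 1))) := by
      rw [Finset.mul_sum, Int.cast_sum]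
      exact Finset.sum_congr rfl fun C hC => F3 C (Finset.mem_filter.1 hC).1 m
    rw [← h2]
    have h3 : (v' : ZMod (p ^ (m + 1))) * (p * (V * gamVal MM.cl MM.cl_comm p m w (some K)) +
        V * ∑ C ∈ S with powC p C = K, gamVal MM.cl MM.cl_comm p m w (some C)) =
        V * (v' * (p * gamVal MM.cl MM.cl_comm p m w (some K) +
          ∑ C ∈ S with powC p C = K, gamVal MM.cl MM.cl_comm p m w (some C))) := by ring
    rw [h3, h1, mul_zero]
  -- (F5)
  have F5 : ∀ K ∈ SP, ∑ C ∈ S with powC p C = K, a C = 0 := fun K hK => by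
    obtain ⟨v', hv', h⟩ := F4 K hK
    have hv0 : v' ≠ 0 := fun h0 => (hvW K (hSPinf K hK)).1 (by rw [hv', h0, mul_zero])
    have hd : (p : ℤ) ∣ ∑ C ∈ S with powC p C = K, a C := dvd_of_forall v' _ hv0 _ h
    refine Int.eq_zero_of_abs_lt_dvd hd ?_
    have h1 : |∑ C ∈ S with powC p C = K, a C| ≤ ∑ C ∈ S, |a C| :=
      (Finset.abs_sum_le_sum_abs _ _).trans
        (Finset.sum_le_sum_of_subset_of_nonneg (Finset.filter_subset _ _) fun _ _ _ => abs_nonneg _)
    have h2 : ∑ C ∈ S, |a C| ≤ ((∑ C ∈ S, ((v C).natAbs + (a C).natAbs) : ℕ) : ℤ) := by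
      push_cast
      refine Finset.sum_le_sum fun C _ => ?_
      have := abs_nonneg (v C)
      omega
    have h3 : ((∑ C ∈ S, ((v C).natAbs + (a C).natAbs) : ℕ) : ℤ) < p := by
      have : B < p := hpB
      exact_mod_cast (by omega : (∑ C ∈ S, ((v C).natAbs + (a C).natAbs)) < p)
    omega
  -- (F6)
  have F6 : ∀ K ∈ SP, ∀ m, (v K : ZMod (p ^ (m + 1))) *
      (V * gamVal MM.cl MM.cl_comm p m w (some K)) = 0 := fun K hK m => by
    obtain ⟨v', hv', h⟩ := F4 K hK
    have h1 := h m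
    rw [F5 K hK, Int.cast_zero, add_zero] at h1
    rw [hv', Int.cast_mul, Int.cast_natCast, mul_assoc, mul_left_comm]
    exact h1
  let R : ℤ := ∏ K ∈ SP, v K
  have hR : R ≠ 0 := Finset.prod_ne_zero_iff.2 fun K hK => (hvW K (hSPinf K hK)).1
  refine ⟨p, ⟨hp⟩, hp2, (Dvd.intro _ rfl).trans hdvd, (R * V).natAbs,
    Int.natAbs_pos.2 (mul_ne_zero hR hV), fun m c hcbad => ?_⟩
  have hQ : Nat.card Q ∣ p - 1 := (Dvd.intro_left _ rfl).trans hdvd
  -- classes over `c` have infinite order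
  have hinf : ∀ K : ConjClasses G, ConjClasses.map π K = ConjClasses.mk c → InfC K := by
    intro K hK g hg
    refine hcbad g ?_
    rw [← ConjClasses.mk_eq_mk_iff_isConj, ← hK, ← hg]
    rfl
  let J1 : Finset (ConjClasses G) := S.filter fun K => ConjClasses.map π K = ConjClasses.mk c
  let J2 : Finset (ConjClasses G) := SP.filter fun K => ConjClasses.map π K = ConjClasses.mk c
  have hdis : Disjoint J1 J2 := by
    rw [Finset.disjoint_left]
    intro K h1 h2
    exact hSPS K (Finset.mem_filter.1 h2).1 ((hS K).1 (Finset.mem_filter.1 h1).1).1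
  have hsum : Finsupp.mapDomain (Option.map (ConjClasses.map π)) (gamVal MM.cl MM.cl_comm p m w)
      (some (ConjClasses.mk c)) = ∑ K ∈ J1, gamVal MM.cl MM.cl_comm p m w (some K) +
        ∑ K ∈ J2, gamVal MM.cl MM.cl_comm p m w (some K) := by
    rw [← Finset.sum_union hdis]
    rw [mapDomain_eq_sum_of (Option.map (ConjClasses.map π)) _ (some (ConjClasses.mk c))
      ((J1 ∪ J2).map ⟨some, Option.some_injective _⟩)]
    · rw [Finset.sum_map]
      rfl
    · intro x hx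
      obtain ⟨K, hK, rfl⟩ := Finset.mem_map.1 hx
      show some (ConjClasses.map π K) = some (ConjClasses.mk c)
      rcases Finset.mem_union.1 hK with h | h
      · rw [(Finset.mem_filter.1 h).2]
      · rw [(Finset.mem_filter.1 h).2]
    · intro x hx hxJ
      cases x with
      | none => exact absurd hx (by simp)
      | some K =>
        have hK : ConjClasses.map π K = ConjClasses.mk c := Option.some_injective _ hx
        have hKJ : K ∉ J1 ∪ J2 := fun h => hxJ (Finset.mem_map.2 ⟨K, h, rfl⟩)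
        rw [Finset.mem_union, not_or] at hKJ
        have hKi := hinf K hK
        refine hp0 p m hpp0 K hKi (fun h => hKJ.1 ?_) (fun C hC hCK => hKJ.2 ?_)
        · exact Finset.mem_filter.2 ⟨(hS K).2 ⟨h, hKi⟩, hK⟩
        · refine Finset.mem_filter.2 ⟨Finset.mem_image.2 ⟨C, (hS C).2 ⟨hC, ?_⟩, hCK⟩, hK⟩
          rw [← infC_powC hp.ne_zero, hCK]
          exact hKi
  -- the first sum
  have hJ1 : (V : ZMod (p ^ (m + 1))) * ∑ K ∈ J1, gamVal MM.cl MM.cl_comm p m w (some K) = 0 := by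
    rw [Finset.mul_sum, Finset.sum_congr rfl fun K hK => F3 K (Finset.mem_filter.1 hK).1 m,
      ← Int.cast_sum]
    have h1 : ∑ K ∈ J1, a K = 0 := by
      rw [← Finset.sum_fiberwise_of_maps_to (s := J1) (t := J2) (g := powC p)
        (fun K hK => Finset.mem_filter.2 ⟨Finset.mem_image.2 ⟨K, (Finset.mem_filter.1 hK).1, rfl⟩, by
          rw [map_powC π hp.pos hQ, (Finset.mem_filter.1 hK).2]⟩) a]
      refine Finset.sum_eq_zero fun K hK => ?_
      rw [← F5 K (Finset.mem_filter.1 hK).1]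
      refine Finset.sum_congr ?_ fun _ _ => rfl
      ext C
      constructor
      · intro h
        obtain ⟨h1, h2⟩ := Finset.mem_filter.1 h
        exact Finset.mem_filter.2 ⟨(Finset.mem_filter.1 h1).1, h2⟩
      · intro h
        obtain ⟨h1, h2⟩ := Finset.mem_filter.1 h
        refine Finset.mem_filter.2 ⟨Finset.mem_filter.2 ⟨h1, ?_⟩, h2⟩
        rw [← map_powC π hp.pos hQ, h2]
        exact (Finset.mem_filter.1 hK).2
    rw [h1, Int.cast_zero]
  -- the second sum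
  have hJ2 : ((R * V : ℤ) : ZMod (p ^ (m + 1))) *
      ∑ K ∈ J2, gamVal MM.cl MM.cl_comm p m w (some K) = 0 := by
    rw [Finset.mul_sum]
    refine Finset.sum_eq_zero fun K hK => ?_
    have hKS := (Finset.mem_filter.1 hK).1
    have h2 : R = (∏ K' ∈ SP.erase K, v K') * v K := (Finset.prod_erase_mul SP v hKS).symm
    rw [h2, Int.cast_mul, Int.cast_mul, mul_assoc, mul_assoc, F6 K hKS m, mul_zero]
  have hall : ((R * V : ℤ) : ZMod (p ^ (m + 1))) * Finsupp.mapDomain
      (Option.map (ConjClasses.map π)) (gamVal MM.cl MM.cl_comm p m w)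
      (some (ConjClasses.mk c)) = 0 := by
    rw [hsum, mul_add, hJ2, add_zero, Int.cast_mul, mul_assoc, hJ1, mul_zero]
  rw [nsmul_eq_mul]
  rcases Int.natAbs_eq (R * V) with h | h
  · rw [h] at hall
    rw [Int.cast_natCast] at hall
    exact hall
  · rw [h] at hall
    rw [Int.cast_neg, Int.cast_natCast, neg_mul, neg_eq_zero] at hall
    exact hall

end Pool.Agent.SUR
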