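import Pool.Agent.SUR.St3

/-!
# Arbitrary target groups

For every homomorphism `π : G → Γ` to any group: the elements of `K₁(ℤ[Γ])` which come from `K₁(ℤ[G])`
and, up to multiples, from finite subgroups of `Γ`, come, up to multiples, from finite subgroups of `G`.
-/

set_option autoImplicit false

universe u

namespace Pool.Agent.SUR

open Pool.Agent.WhK

/-- the subgroup of `K₁(ℤ[Γ])` generated by the images of the finite subgroups of `Γ` -/
noncomputable def FinPart (Γ : Type u) [Group Γ] : AddSubgroup (K1 (MonoidAlgebra ℤ Γ)) :=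
  AddSubgroup.closure {y | ∃ (H : Subgroup Γ) (_ : Finite H) (z : K1 (MonoidAlgebra ℤ H)),
    y = K1.map (ringMap H.subtype) z}

/-- the subgroup of `K₁(ℤ[Γ])` generated by the images of the finite subgroups of `G` -/
noncomputable def FinPartOf {G Γ : Type u} [Group G] [Group Γ] (π : G →* Γ) :
    AddSubgroup (K1 (MonoidAlgebra ℤ Γ)) :=
  AddSubgroup.closure {y | ∃ (H : Subgroup G) (_ : Finite H) (z : K1 (MonoidAlgebra ℤ H)),
    y = K1.map (ringMap (π.comp H.subtype)) z}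

/-- the conclusion of the arithmetic argument, arbitrary target groups -/
def ArithR (G : Type u) [Group G] : Prop :=
  ∀ (n : ℕ), 0 < n → ∀ (w : (MonoidAlgebra ℤ (MM G n))ˣ) (Γ : Type u) [Group Γ]
    (π : G →* Γ) (M : ℕ), 0 < M →
  ∃ (p : ℕ) (_ : Fact p.Prime), p ≠ 2 ∧ M ∣ p - 1 ∧ ∃ D : ℕ, 0 < D ∧
    ∀ (m : ℕ) (c : Γ), IsOfFinOrder c → (∀ g, IsConj (π g) c → ¬IsOfFinOrder g) →
      D • Finsupp.mapDomain (Option.map (ConjClasses.map π)) (gamVal MM.cl MM.cl_comm p m w)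
        (some (ConjClasses.mk c)) = 0

/-- the conclusion of the theorem, arbitrary target groups -/
def SurjR (G : Type u) [Group G] : Prop :=
  ∀ (Γ : Type u) [Group Γ] (π : G →* Γ) (x : K1 (MonoidAlgebra ℤ G)),
  (∃ n : ℕ, 0 < n ∧ n • K1.map (ringMap π) x ∈ FinPart Γ) →
  ∃ n : ℕ, 0 < n ∧ n • K1.map (ringMap π) x ∈ FinPartOf π

/-- ARIG. (architect) Hypotheses `s_VAL`, `s_COC`, `s_RES`. -/
def s_ARIG : Prop := ∀ (G : Type u) [Group G], CentHom G → Vanishes G → ArithR G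

/-- ENG (as `END`, `Pool/Agent/SUR/END.lean`, for arbitrary groups).
Proof. The same induction on `r`. `exists_rep`, `main_step`, `other_term` hold for all groups; the
generators of the finite cyclic subgroups `q.out` have finite order, so the vanishing is only needed
for elements of finite order. In the step `Lmap` of `b` (in the closure `B`) vanishes at the
classes outside of `P`, so the induction hypothesis applies to `y`. -/
def s_ENG : Prop := ∀ (Γ : Type u) [Group Γ] (p : ℕ) [Fact p.Prime] (hp : p ≠ 2) (P : Γ → Prop),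
  (∀ c d, IsConj c d → P c → P d) → (∀ c (i : ℕ), P c → P (c ^ i)) →
  ∀ (k r : ℕ), ∀ ξ ∈ Alow Γ p r,
  (∀ m c, IsOfFinOrder c → ¬P c → Lmap Γ k p m hp ξ (some (ConjClasses.mk c)) = 0) →
  ∃ n : ℕ, 0 < n ∧ n • ξ ∈ AddSubgroup.closure
    {x | ∃ (C : Cyc Γ) (w : (MonoidAlgebra ℤ C.1)ˣ), (∀ c ∈ C.1, P c) ∧ x = ColimK1.mk C w}

/-- KCG (as `KCO`, `Pool/Agent/SUR/KCO.lean`, for arbitrary groups).
Proof. As `KCO`; only the first step changes: for a finite subgroup `H` of `Γ` and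
`z ∈ K₁(ℤ[H])`, `artin_K1 z` gives `N > 0` with `N • z ∈ cycUnits H`, so `N • K1.map (ringMap H.subtype) z`
is a sum of classes `K1.ofUnit` of units of `ℤ[C]`, `C` a finite cyclic subgroup of `Γ`
(`C.map H.subtype`), i.e. it is in the range of `liftColim (K1.unitHom _)`. So `FinPart Γ` is contained
in `sat` of this range (`closure_le`). The rest (`exists_total`, `exists_stab_mem_commutator`,
`GamGL`) is the same and does not use that `Γ` is finite. -/
def s_KCG : Prop := ∀ (Γ : Type u) [Group Γ] (n : ℕ) (X : GLn (MonoidAlgebra ℤ Γ) n),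
  (∃ n1 : ℕ, 0 < n1 ∧ n1 • K1.mk n X ∈ FinPart Γ) →
  ∃ (n0 : ℕ) (ξ : ColimK1 Γ) (k : ℕ) (hk : n ≤ k + 1), 0 < n0 ∧
    liftColim (K1.unitHom (MonoidAlgebra ℤ Γ)) ξ = n0 • K1.mk n X ∧
    ∀ (p m : ℕ) [Fact p.Prime] (hp : p ≠ 2) (κ : ConjClasses Γ),
      Lmap Γ k p m hp ξ (some κ) =
        n0 • (GamGL Γ (k + 1) p m hp (stabGL (MonoidAlgebra ℤ Γ) n (k + 1) hk X)).toAdd (some κ)

/-- FING (as `FINC`, `Pool/Agent/SUR/FINC.lean`, for arbitrary target groups). Hypotheses `s_ENG`,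
`s_KCG`, `s_LIF`, `s_NTG`.
Proof. As `FINC` with `KCG` instead of `KCO`, `ENG` instead of `END` (`exists_mem_Alow (D • ξ)` or
`exists_mem_Alow ξ` gives the number `M` for `ArithR G`: `ξ ∈ Alow Γ p (M + 1)` if `M ∣ p - 1`), and
`P c := ∃ g, IsOfFinOrder g ∧ IsConj (π g) c`; `C` is a finite cyclic subgroup of `Γ` with
`∀ c ∈ C, P c`. -/
def s_FING : Prop := ∀ (G : Type u) [Group G], ArithR G → SurjR G

/-- LOCR (as `LOC`, `Pool/Agent/SUR/LOC.lean`). -/
def s_LOCR : Prop := ∀ (G : Type u) [Group G], (∀ G₀ : Subgroup G, G₀.FG → SurjR G₀) → SurjR G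

end Pool.Agent.SUR
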