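import Mathlib
import Pool.Agent.SUR.ARIC
import Pool.Agent.SUR.St5

/-!
# The arithmetic argument, arbitrary target groups
-/

set_option autoImplicit false

universe u

namespace Pool.Agent.SUR

open Pool.Agent.WhK

theorem map_powC_of_orderOf {G Γ : Type*} [Group G] [Group Γ] (π : G →* Γ) {p : ℕ} (hp : 0 < p)
    (g : G) (h : orderOf (π g) ∣ p - 1) :
    ConjClasses.map π (powC p (ConjClasses.mk g)) = ConjClasses.map π (ConjClasses.mk g) := by
  show ConjClasses.mk (π (g ^ p)) = ConjClasses.mk (π g)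
  have h1 : π g ^ (p - 1) = 1 := orderOf_dvd_iff_pow_eq_one.1 h
  have h2 : p = (p - 1) + 1 := by omega
  rw [map_pow, h2, pow_succ, h1, one_mul]

theorem t_ARIG (hVAL : s_VAL.{u}) (hCOC : s_COC.{u}) (hRES : s_RES.{u}) : s_ARIG.{u} := by
  intro G _ hc hvan n hn w Q _ π M hM
  classical
  obtain ⟨p0, hp0⟩ := hvan n hn w
  have hwt : ∀ K : ConjClasses G, ∃ (v : ℤ) (W : MM G n → MM G n → ℤ),
      InfC K → v ≠ 0 ∧ WtAt MM.cl (some K) v W := by
    intro K
    by_cases hK : InfC K
    · obtain ⟨v, W, h⟩ := exists_wt hCOC hc n K hK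
      exact ⟨v, W, fun _ => h⟩
    · exact ⟨0, 0, fun h => absurd h hK⟩
  choose v W hvW using hwt
  -- the classes of infinite order in `SC`
  have hfin : {C : ConjClasses G | some C ∈ SC MM.cl w}.Finite :=
    (SC_finite MM.cl w).preimage (Option.some_injective _).injOn
  let S : Finset (ConjClasses G) := hfin.toFinset.filter InfC
  have hS : ∀ C, C ∈ S ↔ some C ∈ SC MM.cl w ∧ InfC C := fun C => by
    rw [Finset.mem_filter, Set.Finite.mem_toFinset]
    rfl
  let V : ℤ := ∏ C ∈ S, v C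
  have hV : V ≠ 0 := Finset.prod_ne_zero_iff.2 fun C hC => (hvW C ((hS C).1 hC).2).1
  let a : ConjClasses G → ℤ := fun C =>
    (bil (W C) (w⁻¹ : (MonoidAlgebra ℤ (MM G n))ˣ).val w.val) * ∏ C' ∈ S.erase C, v C'
  let B : ℕ := p0 + 2 + ∑ C ∈ S, ((v C).natAbs + (a C).natAbs)
  -- the orders of the images of the classes of `S`
  let o : ConjClasses G → ℕ := fun C => if orderOf (π (Quotient.out C)) = 0 then 1 else
    orderOf (π (Quotient.out C))
  have ho : ∀ C, o C ≠ 0 := fun C => by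
    show (if orderOf (π (Quotient.out C)) = 0 then 1 else orderOf (π (Quotient.out C))) ≠ 0
    by_cases h : orderOf (π (Quotient.out C)) = 0
    · rw [if_pos h]
      exact one_ne_zero
    · rw [if_neg h]
      exact h
  let O : ℕ := ∏ C ∈ S, o C
  have hMQ : M * O ≠ 0 := Nat.mul_ne_zero hM.ne' (Finset.prod_ne_zero_iff.2 fun C _ => ho C)
  obtain ⟨p, hp, hpB, hmod⟩ := Nat.exists_prime_gt_modEq_one (k := M * O) B hMQ
  have : Fact p.Prime := ⟨hp⟩
  have hdvd : M * O ∣ p - 1 := (Nat.modEq_iff_dvd' hp.one_lt.le).1 hmod.symm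
  have hmap : ∀ C ∈ S, IsOfFinOrder (π (Quotient.out C)) →
      ConjClasses.map π (powC p C) = ConjClasses.map π C := fun C hC hf => by
    have h1 : orderOf (π (Quotient.out C)) ∣ p - 1 := by
      have h2 : o C = orderOf (π (Quotient.out C)) := if_neg hf.orderOf_pos.ne'
      rw [← h2]
      exact (Finset.dvd_prod_of_mem o hC).trans ((Dvd.intro_left _ rfl).trans hdvd)
    have h3 := map_powC_of_orderOf π hp.pos (Quotient.out C) h1
    have h4 : ConjClasses.mk (Quotient.out C) = C := Quotient.out_eq C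
    rwa [h4] at h3
  have hp2 : p ≠ 2 := by
    have : B < p := hpB
    omega
  have hpp0 : p0 < p := by
    have : B < p := hpB
    omega
  have hpz : (p : ℤ) ≠ 0 := by exact_mod_cast hp.ne_zero
  have hva : ∀ C ∈ S, (v C).natAbs < p := fun C hC => by
    have h1 : (v C).natAbs + (a C).natAbs ≤ ∑ C ∈ S, ((v C).natAbs + (a C).natAbs) :=
      Finset.single_le_sum (f := fun C => (v C).natAbs + (a C).natAbs) (fun _ _ => Nat.zero_le _) hC
    have h2 : B < p := hpB
    omega
  -- (F1)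
  have F1 : ∀ C ∈ S, ¬(p : ℤ) ∣ v C := fun C hC hd => by
    have h1 := Int.natAbs_dvd_natAbs.2 hd
    rw [Int.natAbs_natCast] at h1
    have h2 := Nat.le_of_dvd (Int.natAbs_pos.2 (hvW C ((hS C).1 hC).2).1) h1
    have h3 := hva C hC
    omega
  -- (F2)
  have F2 : ∀ C ∈ S, ∀ C', powC p C' ≠ C := fun C hC C' h => by
    obtain ⟨v', h1, -⟩ := (hRES G n p C (v C) (W C) hn hp (hvW C ((hS C).1 hC).2).2).2.2.1 C' h
    exact F1 C hC ⟨v', h1⟩
  -- (F3)
  have F3 : ∀ C ∈ S, ∀ m, (V : ZMod (p ^ (m + 1))) * gamVal MM.cl MM.cl_comm p m w (some C) =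
      (a C : ℤ) := fun C hC m => by
    have h1 := (hVAL G n p m hn hp2 w C (v C) (W C) (hvW C ((hS C).1 hC).2).2).1 (F1 C hC)
    have h2 : V = (∏ C' ∈ S.erase C, v C') * v C := (Finset.prod_erase_mul S v hC).symm
    rw [h2, Int.cast_mul, mul_assoc, h1, ← Int.cast_mul, mul_comm]
  let SP : Finset (ConjClasses G) := S.image (powC p)
  have hSPinf : ∀ K ∈ SP, InfC K := fun K hK => by
    obtain ⟨C, hC, rfl⟩ := Finset.mem_image.1 hK
    exact (infC_powC hp.ne_zero C).2 ((hS C).1 hC).2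
  have hSPS : ∀ K ∈ SP, some K ∉ SC MM.cl w := fun K hK h => by
    obtain ⟨C, hC, hCK⟩ := Finset.mem_image.1 hK
    exact F2 K ((hS K).2 ⟨h, hSPinf K hK⟩) C hCK
  -- (F4)
  have F4 : ∀ K ∈ SP, ∃ v' : ℤ, v K = p * v' ∧ ∀ m,
      (v' : ZMod (p ^ (m + 1))) * (p * (V * gamVal MM.cl MM.cl_comm p m w (some K)) +
        ((∑ C ∈ S with powC p C = K, a C : ℤ) : ZMod (p ^ (m + 1)))) = 0 := fun K hK => by
    have hw := hvW K (hSPinf K hK)
    obtain ⟨C0, hC0, hCK⟩ := Finset.mem_image.1 hK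
    obtain ⟨v', hv', -⟩ := (hRES G n p K (v K) (W K) hn hp hw.2).2.2.1 C0 hCK
    refine ⟨v', hv', fun m => ?_⟩
    have h1 := (hVAL G n p m hn hp2 w K (v K) (W K) hw.2).2 (S.filter fun C => powC p C = K) v' hv'
      (hSPS K hK) (fun C => by
        rw [Finset.mem_filter, hS]
        refine ⟨fun h => ⟨h.1.1, h.2⟩, fun h => ⟨⟨h.1, ?_⟩, h.2⟩⟩
        rw [← infC_powC hp.ne_zero, h.2]
        exact hSPinf K hK)
      (fun C hC C' _ => F2 C (Finset.mem_filter.1 hC).1 C')
    have h2 : (V : ZMod (p ^ (m + 1))) * ∑ C ∈ S with powC p C = K,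
        gamVal MM.cl MM.cl_comm p m w (some C) =
        ((∑ C ∈ S with powC p C = K, a C : ℤ) : ZMod (p ^ (m + 1))) := by
      rw [Finset.mul_sum, Int.cast_sum]
      exact Finset.sum_congr rfl fun C hC => F3 C (Finset.mem_filter.1 hC).1 m
    rw [← h2]
    have h3 : (v' : ZMod (p ^ (m + 1))) * (p * (V * gamVal MM.cl MM.cl_comm p m w (some K)) +
        V * ∑ C ∈ S with powC p C = K, gamVal MM.cl MM.cl_comm p m w (some C)) =
        V * (v' * (p * gamVal MM.cl MM.cl_comm p m w (some K) +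
          ∑ C ∈ S with powC p C = K, gamVal MM.cl MM.cl_comm p m w (some C))) := by ring
    rw [h3, h1, mul_zero]
  -- (F5)
  have F5 : ∀ K ∈ SP, ∑ C ∈ S with powC p C = K, a C = 0 := fun K hK => by
    obtain ⟨v', hv', h⟩ := F4 K hK
    have hv0 : v' ≠ 0 := fun h0 => (hvW K (hSPinf K hK)).1 (by rw [hv', h0, mul_zero])
    have hd : (p : ℤ) ∣ ∑ C ∈ S with powC p C = K, a C := dvd_of_forall v' _ hv0 _ h
    refine Int.eq_zero_of_abs_lt_dvd hd ?_
    have h1 : |∑ C ∈ S with powC p C = K, a C| ≤ ∑ C ∈ S, |a C| :=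
      (Finset.abs_sum_le_sum_abs _ _).trans
        (Finset.sum_le_sum_of_subset_of_nonneg (Finset.filter_subset _ _) fun _ _ _ => abs_nonneg _)
    have h2 : ∑ C ∈ S, |a C| ≤ ((∑ C ∈ S, ((v C).natAbs + (a C).natAbs) : ℕ) : ℤ) := by
      push_cast
      refine Finset.sum_le_sum fun C _ => ?_
      have := abs_nonneg (v C)
      omega
    have h3 : ((∑ C ∈ S, ((v C).natAbs + (a C).natAbs) : ℕ) : ℤ) < p := by
      have : B < p := hpB
      exact_mod_cast (by omega : (∑ C ∈ S, ((v C).natAbs + (a C).natAbs)) < p)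
    omega
  -- (F6)
  have F6 : ∀ K ∈ SP, ∀ m, (v K : ZMod (p ^ (m + 1))) *
      (V * gamVal MM.cl MM.cl_comm p m w (some K)) = 0 := fun K hK m => by
    obtain ⟨v', hv', h⟩ := F4 K hK
    have h1 := h m
    rw [F5 K hK, Int.cast_zero, add_zero] at h1
    rw [hv', Int.cast_mul, Int.cast_natCast, mul_assoc, mul_left_comm]
    exact h1
  let R : ℤ := ∏ K ∈ SP, v K
  have hR : R ≠ 0 := Finset.prod_ne_zero_iff.2 fun K hK => (hvW K (hSPinf K hK)).1
  refine ⟨p, ⟨hp⟩, hp2, (Dvd.intro _ rfl).trans hdvd, (R * V).natAbs,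
    Int.natAbs_pos.2 (mul_ne_zero hR hV), fun m c hcf hcbad => ?_⟩
  have hmap1 : ∀ C ∈ S, ConjClasses.map π C = ConjClasses.mk c →
      ConjClasses.map π (powC p C) = ConjClasses.mk c := fun C hC h => by
    rw [hmap C hC, h]
    have h4 : ConjClasses.mk (Quotient.out C) = C := Quotient.out_eq C
    have h5 : ConjClasses.mk (π (Quotient.out C)) = ConjClasses.mk c :=
      (congrArg (ConjClasses.map π) h4).trans h
    exact isOfFinOrder_of_isConj (ConjClasses.mk_eq_mk_iff_isConj.1 h5).symm hcf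
  have hmap2 : ∀ C ∈ S, ConjClasses.map π (powC p C) = ConjClasses.mk c →
      ConjClasses.map π C = ConjClasses.mk c := fun C hC h => by
    rw [← hmap C hC, h]
    have h4 : ConjClasses.mk (Quotient.out C) = C := Quotient.out_eq C
    have h5 : ConjClasses.mk (π (Quotient.out C) ^ p) = ConjClasses.mk c := by
      rw [← map_pow]
      exact (congrArg (fun K => ConjClasses.map π (powC p K)) h4).trans h
    have h6 := isOfFinOrder_of_isConj (ConjClasses.mk_eq_mk_iff_isConj.1 h5).symm hcf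
    exact (isOfFinOrder_pow.1 h6).resolve_right hp.ne_zero
  -- classes over `c` have infinite order
  have hinf : ∀ K : ConjClasses G, ConjClasses.map π K = ConjClasses.mk c → InfC K := by
    intro K hK g hg
    refine hcbad g ?_
    rw [← ConjClasses.mk_eq_mk_iff_isConj, ← hK, ← hg]
    rfl
  let J1 : Finset (ConjClasses G) := S.filter fun K => ConjClasses.map π K = ConjClasses.mk c
  let J2 : Finset (ConjClasses G) := SP.filter fun K => ConjClasses.map π K = ConjClasses.mk c
  have hdis : Disjoint J1 J2 := by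
    rw [Finset.disjoint_left]
    intro K h1 h2
    exact hSPS K (Finset.mem_filter.1 h2).1 ((hS K).1 (Finset.mem_filter.1 h1).1).1
  have hsum : Finsupp.mapDomain (Option.map (ConjClasses.map π)) (gamVal MM.cl MM.cl_comm p m w)
      (some (ConjClasses.mk c)) = ∑ K ∈ J1, gamVal MM.cl MM.cl_comm p m w (some K) +
        ∑ K ∈ J2, gamVal MM.cl MM.cl_comm p m w (some K) := by
    rw [← Finset.sum_union hdis]
    rw [mapDomain_eq_sum_of (Option.map (ConjClasses.map π)) _ (some (ConjClasses.mk c))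
      ((J1 ∪ J2).map ⟨some, Option.some_injective _⟩)]
    · rw [Finset.sum_map]
      rfl
    · intro x hx
      obtain ⟨K, hK, rfl⟩ := Finset.mem_map.1 hx
      show some (ConjClasses.map π K) = some (ConjClasses.mk c)
      rcases Finset.mem_union.1 hK with h | h
      · rw [(Finset.mem_filter.1 h).2]
      · rw [(Finset.mem_filter.1 h).2]
    · intro x hx hxJ
      cases x with
      | none => exact absurd hx (by simp)
      | some K =>
        have hK : ConjClasses.map π K = ConjClasses.mk c := Option.some_injective _ hx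
        have hKJ : K ∉ J1 ∪ J2 := fun h => hxJ (Finset.mem_map.2 ⟨K, h, rfl⟩)
        rw [Finset.mem_union, not_or] at hKJ
        have hKi := hinf K hK
        refine hp0 p m hpp0 K hKi (fun h => hKJ.1 ?_) (fun C hC hCK => hKJ.2 ?_)
        · exact Finset.mem_filter.2 ⟨(hS K).2 ⟨h, hKi⟩, hK⟩
        · refine Finset.mem_filter.2 ⟨Finset.mem_image.2 ⟨C, (hS C).2 ⟨hC, ?_⟩, hCK⟩, hK⟩
          rw [← infC_powC hp.ne_zero, hCK]
          exact hKi
  -- the first sum
  have hJ1 : (V : ZMod (p ^ (m + 1))) * ∑ K ∈ J1, gamVal MM.cl MM.cl_comm p m w (some K) = 0 := by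
    rw [Finset.mul_sum, Finset.sum_congr rfl fun K hK => F3 K (Finset.mem_filter.1 hK).1 m,
      ← Int.cast_sum]
    have h1 : ∑ K ∈ J1, a K = 0 := by
      rw [← Finset.sum_fiberwise_of_maps_to (s := J1) (t := J2) (g := powC p)
        (fun K hK => Finset.mem_filter.2 ⟨Finset.mem_image.2 ⟨K, (Finset.mem_filter.1 hK).1, rfl⟩,
          hmap1 K (Finset.mem_filter.1 hK).1 (Finset.mem_filter.1 hK).2⟩) a]
      refine Finset.sum_eq_zero fun K hK => ?_
      rw [← F5 K (Finset.mem_filter.1 hK).1]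
      refine Finset.sum_congr ?_ fun _ _ => rfl
      ext C
      constructor
      · intro h
        obtain ⟨h1, h2⟩ := Finset.mem_filter.1 h
        exact Finset.mem_filter.2 ⟨(Finset.mem_filter.1 h1).1, h2⟩
      · intro h
        obtain ⟨h1, h2⟩ := Finset.mem_filter.1 h
        refine Finset.mem_filter.2 ⟨Finset.mem_filter.2 ⟨h1, hmap2 C h1 ?_⟩, h2⟩
        rw [h2]
        exact (Finset.mem_filter.1 hK).2
    rw [h1, Int.cast_zero]
  -- the second sum
  have hJ2 : ((R * V : ℤ) : ZMod (p ^ (m + 1))) *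
      ∑ K ∈ J2, gamVal MM.cl MM.cl_comm p m w (some K) = 0 := by
    rw [Finset.mul_sum]
    refine Finset.sum_eq_zero fun K hK => ?_
    have hKS := (Finset.mem_filter.1 hK).1
    have h2 : R = (∏ K' ∈ SP.erase K, v K') * v K := (Finset.prod_erase_mul SP v hKS).symm
    rw [h2, Int.cast_mul, Int.cast_mul, mul_assoc, mul_assoc, F6 K hKS m, mul_zero]
  have hall : ((R * V : ℤ) : ZMod (p ^ (m + 1))) * Finsupp.mapDomain
      (Option.map (ConjClasses.map π)) (gamVal MM.cl MM.cl_comm p m w)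
      (some (ConjClasses.mk c)) = 0 := by
    rw [hsum, mul_add, hJ2, add_zero, Int.cast_mul, mul_assoc, hJ1, mul_zero]
  rw [nsmul_eq_mul]
  rcases Int.natAbs_eq (R * V) with h | h
  · rw [h] at hall
    rw [Int.cast_natCast] at hall
    exact hall
  · rw [h] at hall
    rw [Int.cast_neg, Int.cast_natCast, neg_mul, neg_eq_zero] at hall
    exact hall

end Pool.Agent.SUR
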