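import Mathlib
import Pool.Agent.Lib_helper44.Wh.Main

/-!
# Surjectivity of the assembly map in degree one, seen in finite quotients: definitions

* `bil F x y`: bilinear extension of a function of two variables to the monoid ring.
* `IsWt W`: `W a b` is the value of a derivation on the second factor of the cyclic word `a b`.
* `Wr 𝔐 N`: the wreath product of a monoid `𝔐` with `ZMod N`.
* `eN W`: the weight of cyclic words of length `N`; `wr W`: the weight on the wreath product.
* `XW`, `YW`: the unit of the ring of the wreath product (and its inverse) attached to a triple.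
-/

set_option autoImplicit false

namespace Pool.Agent.SUR

open Pool.Agent.WhK Finset

/-- bilinear extension to the monoid ring -/
noncomputable def bil {X A : Type*} [AddCommGroup A] (F : X → X → A) (x y : MonoidAlgebra ℤ X) :
    A :=
  x.coeff.sum fun a r => y.coeff.sum fun b s => (r * s) • F a b

/-- weights: `W a b` is the value of a derivation on the second factor of the cyclic word `a b` -/
def IsWt {𝔐 : Type*} [Monoid 𝔐] (W : 𝔐 → 𝔐 → ℤ) : Prop :=
  ∀ a b c, W a (b * c) = W (a * b) c + W (c * a) b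

/-- the pull back of a weight under the `p`-th power map of cyclic words -/
def pw {𝔐 : Type*} [Monoid 𝔐] (W : 𝔐 → 𝔐 → ℤ) (p : ℕ) (a b : 𝔐) : ℤ :=
  W ((a * b) ^ (p - 1) * a) b

/-- the product `y (r + 1) ⋯ y (r + N - 1)` of all entries but the one at `r` -/
def Pr {𝔐 : Type*} [Monoid 𝔐] {N : ℕ} (r : ZMod N) (y : ZMod N → 𝔐) : 𝔐 :=
  ((List.range (N - 1)).map fun k : ℕ => y (r + 1 + (k : ZMod N))).prod

/-- the weight of cyclic words of length `N` (the second factors carry the weight) -/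
def eN {𝔐 : Type*} [Monoid 𝔐] {N : ℕ} [NeZero N] (W : 𝔐 → 𝔐 → ℤ) (a b : ZMod N → 𝔐) : ℤ :=
  ∑ r, W (Pr r (a * b) * a r) (b r)

/-- the wreath product of a monoid with `ZMod N` -/
@[ext] structure Wr (𝔐 : Type*) (N : ℕ) where
  s : ZMod N → 𝔐
  i : ZMod N

section Wr

variable {𝔐 : Type*} [Monoid 𝔐] {N : ℕ}

instance : Mul (Wr 𝔐 N) := ⟨fun x y => ⟨x.s * shiftHom x.i y.s, x.i + y.i⟩⟩
instance : One (Wr 𝔐 N) := ⟨⟨1, 0⟩⟩

theorem Wr.mul_def (x y : Wr 𝔐 N) : x * y = ⟨x.s * shiftHom x.i y.s, x.i + y.i⟩ := rfl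
theorem Wr.one_def : (1 : Wr 𝔐 N) = ⟨1, 0⟩ := rfl

instance : Monoid (Wr 𝔐 N) where
  one_mul x := by
    rw [Wr.mul_def, Wr.one_def]
    ext1
    · show 1 * shiftHom 0 x.s = x.s
      rw [shiftHom_zero, one_mul]
    · exact zero_add _
  mul_one x := by
    rw [Wr.mul_def, Wr.one_def]
    ext1
    · show x.s * shiftHom x.i 1 = x.s
      rw [map_one, mul_one]
    · exact add_zero _
  mul_assoc x y z := by
    rw [Wr.mul_def, Wr.mul_def, Wr.mul_def, Wr.mul_def]
    ext1
    · show x.s * shiftHom x.i y.s * shiftHom (x.i + y.i) z.s =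
        x.s * shiftHom x.i (y.s * shiftHom y.i z.s)
      rw [map_mul, shiftHom_add, mul_assoc]
    · exact add_assoc _ _ _

/-- the degree -/
def degW (𝔐 : Type*) [Monoid 𝔐] (N : ℕ) : Wr 𝔐 N →* Multiplicative (ZMod N) where
  toFun x := Multiplicative.ofAdd x.i
  map_one' := rfl
  map_mul' _ _ := rfl

/-- the weight on the wreath product, concentrated in degree `1` -/
def wr [NeZero N] (W : 𝔐 → 𝔐 → ℤ) (x y : Wr 𝔐 N) : ℤ :=
  if x.i + y.i = 1 then
    ∑ r, W (Pr r (x.s * shiftHom x.i y.s) * x.s r) (shiftHom x.i y.s r) else 0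

/-- the function whose coboundary is the weight modulo divisors of `N` -/
def The [NeZero N] (W : 𝔐 → 𝔐 → ℤ) (y : Wr 𝔐 N) : ℤ :=
  if y.i = 1 then ∑ r : ZMod N, (r.val : ℤ) * W (Pr r y.s) (y.s r) else 0

/-- the inclusion of the base -/
def inW (𝔐 : Type*) [Monoid 𝔐] (N : ℕ) : (ZMod N → 𝔐) →* Wr 𝔐 N where
  toFun a := ⟨a, 0⟩
  map_one' := rfl
  map_mul' a b := by
    rw [Wr.mul_def]
    ext1
    · show a * b = a * shiftHom 0 b
      rw [shiftHom_zero]
    · exact (add_zero _).symm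

/-- the inclusion of the ring of the base -/
noncomputable def io : MonoidAlgebra ℤ (ZMod N → 𝔐) →+* MonoidAlgebra ℤ (Wr 𝔐 N) :=
  MonoidAlgebra.mapDomainRingHom ℤ (inW 𝔐 N)

/-- the sum of the elements of `ZMod N` -/
noncomputable def eW (𝔐 : Type*) [Monoid 𝔐] (N : ℕ) [NeZero N] : MonoidAlgebra ℤ (Wr 𝔐 N) :=
  ∑ i : ZMod N, MonoidAlgebra.single (⟨1, i⟩ : Wr 𝔐 N) 1

/-- the inverse of `YW` -/
noncomputable def XW [NeZero N] (Ui z Wi : MonoidAlgebra ℤ (ZMod N → 𝔐)) :
    MonoidAlgebra ℤ (Wr 𝔐 N) :=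
  io Ui + io (Ui * z * Wi) * eW 𝔐 N

/-- the unit attached to a triple -/
noncomputable def YW [NeZero N] (U z : MonoidAlgebra ℤ (ZMod N → 𝔐)) : MonoidAlgebra ℤ (Wr 𝔐 N) :=
  io U - io z * eW 𝔐 N

end Wr

/-- the `p`-th power map on conjugacy classes -/
def powC {G : Type*} [Group G] (p : ℕ) : ConjClasses G → ConjClasses G :=
  Quotient.lift (fun g => ConjClasses.mk (g ^ p)) fun a b h => by
    rw [ConjClasses.mk_eq_mk_iff_isConj, isConj_iff]
    obtain ⟨c, hc⟩ := isConj_iff.1 h
    exact ⟨c, by rw [← hc, conj_pow]⟩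

/-- a weight at the class `k`: it sees only words with class `k`, its constant is `v` -/
def WtAt {𝔐 K : Type*} [Monoid 𝔐] (cl : 𝔐 → K) (k : K) (v : ℤ) (W : 𝔐 → 𝔐 → ℤ) : Prop :=
  IsWt W ∧ (∀ a b, W a b ≠ 0 → cl (a * b) = k) ∧ (∀ a, cl a = k → W 1 a = v)

/-- the classes of the products of the elements of the supports of `u⁻¹` and `u` -/
def SC {𝔐 K : Type*} [Monoid 𝔐] (cl : 𝔐 → K) (u : (MonoidAlgebra ℤ 𝔐)ˣ) : Set K :=
  {k | ∃ a ∈ (u⁻¹ : (MonoidAlgebra ℤ 𝔐)ˣ).val.coeff.support, ∃ b ∈ u.val.coeff.support,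
    cl (a * b) = k}

open Classical in
/-- the part at the class `c` of the pull back of a weight under the `p`-th power map -/
noncomputable def resW {𝔐 K : Type*} [Monoid 𝔐] (cl : 𝔐 → K) (W : 𝔐 → 𝔐 → ℤ) (p : ℕ) (c : K)
    (a b : 𝔐) : ℤ :=
  if cl (a * b) = c then pw W p a b else 0

/-- the map of matrix units induced by a group homomorphism -/
def mmMap {G Q : Type*} [Group G] [Group Q] (π : G →* Q) (n : ℕ) : MM G n →* MM Q n where
  toFun
    | .one => .one
    | .zero => .zero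
    | .unit i j g => .unit i j (π g)
  map_one' := rfl
  map_mul' x y := by
    cases x with
    | one => rw [MM.one_mul']; exact (MM.one_mul' _).symm
    | zero => rw [MM.zero_mul']; exact (MM.zero_mul' _).symm
    | unit i j g =>
      cases y with
      | one => rw [MM.mul_one']; exact (MM.mul_one' _).symm
      | zero => rw [MM.mul_zero']; exact (MM.mul_zero' _).symm
      | unit k l h =>
        rw [MM.unit_mul, MM.unit_mul]
        by_cases hjk : j = k
        · rw [if_pos hjk, if_pos hjk]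
          exact congrArg (MM.unit i l) (map_mul π g h)
        · rw [if_neg hjk, if_neg hjk]

/-- the length bound: every element `g` of infinite order has a homomorphism from its centraliser
to `ℤ` whose value at `g` is not `0` and at most `ℓ g` -/
def LengthBound {G : Type*} [Group G] (ℓ : G → ℕ) : Prop :=
  (∀ a b, ℓ (a * b) ≤ ℓ a + ℓ b) ∧
  ∀ g : G, ¬IsOfFinOrder g → ∃ f : Subgroup.centralizer {g} →* Multiplicative ℤ,
    (f ⟨g, Subgroup.mem_centralizer_singleton_iff.2 rfl⟩).toAdd ≠ 0 ∧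
    (f ⟨g, Subgroup.mem_centralizer_singleton_iff.2 rfl⟩).toAdd.natAbs ≤ ℓ g

end Pool.Agent.SUR
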