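import Mathlib
import Pool.Agent.SUR.Defs

/-!
# Rules for the bilinear extension `bil`
-/

set_option autoImplicit false

namespace Pool.Agent.SUR

open Finset

variable {X A B : Type*} [AddCommGroup A] [AddCommGroup B]

theorem bil_eq_sum (F : X → X → A) (x y : MonoidAlgebra ℤ X) :
    bil F x y = ∑ a ∈ x.coeff.support, ∑ b ∈ y.coeff.support,
      (x.coeff a * y.coeff b) • F a b := rfl

theorem bil_eq_sum_of_subset (F : X → X → A) (x y : MonoidAlgebra ℤ X) (s t : Finset X)
    (hs : x.coeff.support ⊆ s) (ht : y.coeff.support ⊆ t) :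
    bil F x y = ∑ a ∈ s, ∑ b ∈ t, (x.coeff a * y.coeff b) • F a b := by
  rw [bil_eq_sum]
  have h1 : ∀ a, ∑ b ∈ y.coeff.support, (x.coeff a * y.coeff b) • F a b =
      ∑ b ∈ t, (x.coeff a * y.coeff b) • F a b := fun a =>
    Finset.sum_subset ht fun b _ hb => by
      rw [Finsupp.notMem_support_iff.1 hb, mul_zero, zero_smul]
  rw [Finset.sum_congr rfl fun a _ => h1 a]
  refine Finset.sum_subset hs fun a _ ha => ?_
  refine Finset.sum_eq_zero fun b _ => ?_
  rw [Finsupp.notMem_support_iff.1 ha, zero_mul, zero_smul]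

theorem bil_congr (F G : X → X → A) (x y : MonoidAlgebra ℤ X)
    (h : ∀ a ∈ x.coeff.support, ∀ b ∈ y.coeff.support, F a b = G a b) :
    bil F x y = bil G x y := by
  rw [bil_eq_sum, bil_eq_sum]
  exact Finset.sum_congr rfl fun a ha => Finset.sum_congr rfl fun b hb => by rw [h a ha b hb]

theorem bil_eq_zero (F : X → X → A) (x y : MonoidAlgebra ℤ X)
    (h : ∀ a ∈ x.coeff.support, ∀ b ∈ y.coeff.support, F a b = 0) :
    bil F x y = 0 := by
  rw [bil_eq_sum]
  exact Finset.sum_eq_zero fun a ha => Finset.sum_eq_zero fun b hb => by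
    rw [h a ha b hb, smul_zero]

theorem bil_zero_left (F : X → X → A) (y : MonoidAlgebra ℤ X) : bil F 0 y = 0 := by
  rw [bil_eq_sum]
  simp

theorem bil_zero_right (F : X → X → A) (x : MonoidAlgebra ℤ X) : bil F x 0 = 0 := by
  rw [bil_eq_sum]
  simp

theorem bil_add_left (F : X → X → A) (x x' y : MonoidAlgebra ℤ X) :
    bil F (x + x') y = bil F x y + bil F x' y := by
  classical
  rw [bil_eq_sum_of_subset F (x + x') y (x.coeff.support ∪ x'.coeff.support) y.coeff.support
      Finsupp.support_add subset_rfl,
    bil_eq_sum_of_subset F x y (x.coeff.support ∪ x'.coeff.support) y.coeff.support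
      subset_union_left subset_rfl,
    bil_eq_sum_of_subset F x' y (x.coeff.support ∪ x'.coeff.support) y.coeff.support
      subset_union_right subset_rfl, ← Finset.sum_add_distrib]
  refine Finset.sum_congr rfl fun a _ => ?_
  rw [← Finset.sum_add_distrib]
  refine Finset.sum_congr rfl fun b _ => ?_
  rw [← add_smul, ← add_mul]
  rfl

theorem bil_add_right (F : X → X → A) (x y y' : MonoidAlgebra ℤ X) :
    bil F x (y + y') = bil F x y + bil F x y' := by
  classical
  rw [bil_eq_sum_of_subset F x (y + y') x.coeff.support (y.coeff.support ∪ y'.coeff.support)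
      subset_rfl Finsupp.support_add,
    bil_eq_sum_of_subset F x y x.coeff.support (y.coeff.support ∪ y'.coeff.support)
      subset_rfl subset_union_left,
    bil_eq_sum_of_subset F x y' x.coeff.support (y.coeff.support ∪ y'.coeff.support)
      subset_rfl subset_union_right, ← Finset.sum_add_distrib]
  refine Finset.sum_congr rfl fun a _ => ?_
  rw [← Finset.sum_add_distrib]
  refine Finset.sum_congr rfl fun b _ => ?_
  rw [← add_smul, ← mul_add]
  rfl

/-- `bil` as a biadditive map -/
noncomputable def bilHom (F : X → X → A) :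
    MonoidAlgebra ℤ X →+ MonoidAlgebra ℤ X →+ A :=
  AddMonoidHom.mk' (fun x => AddMonoidHom.mk' (bil F x) fun y y' => bil_add_right F x y y')
    fun x x' => AddMonoidHom.ext fun y => bil_add_left F x x' y

theorem bilHom_apply (F : X → X → A) (x y : MonoidAlgebra ℤ X) : bilHom F x y = bil F x y := rfl

theorem bil_neg_left (F : X → X → A) (x y : MonoidAlgebra ℤ X) : bil F (-x) y = -bil F x y := by
  rw [← bilHom_apply, ← bilHom_apply, map_neg]
  rfl

theorem bil_neg_right (F : X → X → A) (x y : MonoidAlgebra ℤ X) : bil F x (-y) = -bil F x y := by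
  rw [← bilHom_apply, ← bilHom_apply, map_neg]

theorem bil_sub_left (F : X → X → A) (x x' y : MonoidAlgebra ℤ X) :
    bil F (x - x') y = bil F x y - bil F x' y := by
  rw [sub_eq_add_neg, bil_add_left, bil_neg_left, sub_eq_add_neg]

theorem bil_sub_right (F : X → X → A) (x y y' : MonoidAlgebra ℤ X) :
    bil F x (y - y') = bil F x y - bil F x y' := by
  rw [sub_eq_add_neg, bil_add_right, bil_neg_right, sub_eq_add_neg]

theorem bil_sum_left {ι : Type*} (F : X → X → A) (s : Finset ι) (x : ι → MonoidAlgebra ℤ X)
    (y : MonoidAlgebra ℤ X) : bil F (∑ i ∈ s, x i) y = ∑ i ∈ s, bil F (x i) y := by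
  rw [← bilHom_apply, map_sum, AddMonoidHom.finsetSum_apply]
  rfl

theorem bil_sum_right {ι : Type*} (F : X → X → A) (s : Finset ι) (x : MonoidAlgebra ℤ X)
    (y : ι → MonoidAlgebra ℤ X) : bil F x (∑ i ∈ s, y i) = ∑ i ∈ s, bil F x (y i) := by
  rw [← bilHom_apply, map_sum]
  rfl

theorem bil_single (F : X → X → A) (a b : X) (r s : ℤ) :
    bil F (MonoidAlgebra.single a r) (MonoidAlgebra.single b s) = (r * s) • F a b := by
  classical
  rw [bil_eq_sum_of_subset F _ _ {a} {b} (by
      rw [MonoidAlgebra.coeff_single]; exact Finsupp.support_single_subset) (by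
      rw [MonoidAlgebra.coeff_single]; exact Finsupp.support_single_subset)]
  rw [Finset.sum_singleton, Finset.sum_singleton, MonoidAlgebra.coeff_single,
    MonoidAlgebra.coeff_single, Finsupp.single_eq_same, Finsupp.single_eq_same]

theorem map_bil (φ : A →+ B) (F : X → X → A) (x y : MonoidAlgebra ℤ X) :
    φ (bil F x y) = bil (fun a b => φ (F a b)) x y := by
  rw [bil_eq_sum, bil_eq_sum, map_sum]
  refine Finset.sum_congr rfl fun a _ => ?_
  rw [map_sum]
  exact Finset.sum_congr rfl fun b _ => map_zsmul φ _ _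

theorem bil_fun_add (F G : X → X → A) (x y : MonoidAlgebra ℤ X) :
    bil (fun a b => F a b + G a b) x y = bil F x y + bil G x y := by
  rw [bil_eq_sum, bil_eq_sum, bil_eq_sum, ← Finset.sum_add_distrib]
  refine Finset.sum_congr rfl fun a _ => ?_
  rw [← Finset.sum_add_distrib]
  exact Finset.sum_congr rfl fun b _ => smul_add _ _ _

theorem bil_fun_sub (F G : X → X → A) (x y : MonoidAlgebra ℤ X) :
    bil (fun a b => F a b - G a b) x y = bil F x y - bil G x y := by
  rw [bil_eq_sum, bil_eq_sum, bil_eq_sum, ← Finset.sum_sub_distrib]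
  refine Finset.sum_congr rfl fun a _ => ?_
  rw [← Finset.sum_sub_distrib]
  exact Finset.sum_congr rfl fun b _ => smul_sub _ _ _

theorem bil_fun_sum {ι : Type*} (s : Finset ι) (F : ι → X → X → A) (x y : MonoidAlgebra ℤ X) :
    bil (fun a b => ∑ i ∈ s, F i a b) x y = ∑ i ∈ s, bil (F i) x y := by
  classical
  induction s using Finset.induction_on with
  | empty =>
    simp only [Finset.sum_empty]
    exact bil_eq_zero _ x y fun _ _ _ _ => rfl
  | insert i s hi ih =>
    simp only [Finset.sum_insert hi]
    rw [bil_fun_add, ih]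

/-- to compare two biadditive expressions it is enough to compare them on monomials -/
theorem biadd_ext (f g : MonoidAlgebra ℤ X →+ MonoidAlgebra ℤ X →+ A)
    (h : ∀ a b, f (MonoidAlgebra.single a 1) (MonoidAlgebra.single b 1) =
      g (MonoidAlgebra.single a 1) (MonoidAlgebra.single b 1)) (x y : MonoidAlgebra ℤ X) :
    f x y = g x y := by
  have hs : ∀ (a : X) (r : ℤ), MonoidAlgebra.single a r =
      r • (MonoidAlgebra.single a 1 : MonoidAlgebra ℤ X) := fun a r => by
    rw [MonoidAlgebra.smul_single, smul_eq_mul, mul_one]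
  induction x using MonoidAlgebra.induction_linear with
  | zero => rw [map_zero, map_zero]
  | add x x' hx hx' => rw [map_add, map_add, AddMonoidHom.add_apply, AddMonoidHom.add_apply, hx, hx']
  | single a r =>
    induction y using MonoidAlgebra.induction_linear with
    | zero => rw [map_zero, map_zero]
    | add y y' hy hy' => rw [map_add, map_add, hy, hy']
    | single b s =>
      rw [hs a r, hs b s, map_zsmul, map_zsmul, map_zsmul, map_zsmul, AddMonoidHom.smul_apply,
        AddMonoidHom.smul_apply, h]

/-- the additive extension of a function -/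
noncomputable def lin (T : X → A) : MonoidAlgebra ℤ X →+ A :=
  (Finsupp.liftAddHom fun a => (zmultiplesHom A) (T a)).comp
    MonoidAlgebra.coeffAddEquiv.toAddMonoidHom

theorem lin_single (T : X → A) (a : X) (r : ℤ) : lin T (MonoidAlgebra.single a r) = r • T a := by
  simp [lin]

/-- a function of the product -/
theorem bil_mul [Monoid X] (T : X → A) (x y : MonoidAlgebra ℤ X) :
    bil (fun a b => T (a * b)) x y = lin T (x * y) := by
  refine biadd_ext (bilHom fun a b => T (a * b))
    ((AddMonoidHom.mul : MonoidAlgebra ℤ X →+ MonoidAlgebra ℤ X →+ MonoidAlgebra ℤ X).compr₂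
      (lin T)) (fun a b => ?_) x y
  rw [bilHom_apply, bil_single, AddMonoidHom.compr₂_apply, AddMonoidHom.mul_apply,
    MonoidAlgebra.single_mul_single, lin_single]

theorem bil_swap (F : X → X → A) (x y : MonoidAlgebra ℤ X) :
    bil (fun a b => F b a) x y = bil F y x := by
  rw [bil_eq_sum, bil_eq_sum, Finset.sum_comm]
  exact Finset.sum_congr rfl fun b _ => Finset.sum_congr rfl fun a _ => by rw [mul_comm]

end Pool.Agent.SUR
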