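import Pool.Agent.SUR.St6
import Pool.Agent.SUR.Cond

/-!
# Weights with values in an abelian group: definitions and statements

The modules are copies of the modules for `ℤ` (same name without the `A`) with a general group of
values. `ZM M` is `ℤ[1/M]` as a subring of `ℚ`.
-/

set_option autoImplicit false

universe u

namespace Pool.Agent.SUR

open Pool.Agent.WhK

/-- weights with values in `A` -/
def IsWtA {𝔐 A : Type*} [Monoid 𝔐] [AddCommGroup A] (W : 𝔐 → 𝔐 → A) : Prop :=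
  ∀ a b c, W a (b * c) = W (a * b) c + W (c * a) b

/-- the pull back under the `p`-th power map of cyclic words -/
def pwA {𝔐 A : Type*} [Monoid 𝔐] (W : 𝔐 → 𝔐 → A) (p : ℕ) (a b : 𝔐) : A :=
  W ((a * b) ^ (p - 1) * a) b

/-- the weight of cyclic words of length `N` -/
def eNA {𝔐 A : Type*} [Monoid 𝔐] [AddCommGroup A] {N : ℕ} [NeZero N] (W : 𝔐 → 𝔐 → A)
    (a b : ZMod N → 𝔐) : A :=
  ∑ r, W (Pr r (a * b) * a r) (b r)

/-- the weight on the wreath product, concentrated in degree `1` -/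
def wrA {𝔐 A : Type*} [Monoid 𝔐] [AddCommGroup A] {N : ℕ} [NeZero N] (W : 𝔐 → 𝔐 → A)
    (x y : Wr 𝔐 N) : A :=
  if x.i + y.i = 1 then
    ∑ r, W (Pr r (x.s * shiftHom x.i y.s) * x.s r) (shiftHom x.i y.s r) else 0

/-- a weight at the class `k`: it sees only words with class `k`, its constant is `v` -/
def WtAtA {𝔐 K A : Type*} [Monoid 𝔐] [AddCommGroup A] (cl : 𝔐 → K) (k : K) (v : A)
    (W : 𝔐 → 𝔐 → A) : Prop :=
  IsWtA W ∧ (∀ a b, W a b ≠ 0 → cl (a * b) = k) ∧ (∀ a, cl a = k → W 1 a = v)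

open Classical in
/-- the part at the class `c` of the pull back of a weight under the `p`-th power map -/
noncomputable def resWA {𝔐 K A : Type*} [Monoid 𝔐] [AddCommGroup A] (cl : 𝔐 → K) (W : 𝔐 → 𝔐 → A)
    (p : ℕ) (c : K) (a b : 𝔐) : A :=
  if cl (a * b) = c then pwA W p a b else 0

/-- AKAP (copy of `KAP`; here the degree has values in the ring of values). -/
def s_AKAP : Prop := ∀ (𝒮 : Type u) (Λ : Type) [Monoid 𝒮] [CommRing Λ] (W : 𝒮 → 𝒮 → Λ), IsWtA W →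
  ∀ (deg : 𝒮 →* Multiplicative Λ),
  (∀ a b, W a b ≠ 0 → deg (a * b) = Multiplicative.ofAdd 1) →
  ∀ (X Y : MonoidAlgebra ℤ 𝒮), X * Y = 1 → Y * X = 1 →
  bil (fun a b => W 1 (a * b) * (deg b).toAdd) X Y = bil W X Y

/-- AWRW (copy of `WRW`). -/
def s_AWRW : Prop := ∀ (𝔐 : Type u) (A : Type) [Monoid 𝔐] [AddCommGroup A] (N : ℕ) [NeZero N]
  (W : 𝔐 → 𝔐 → A), IsWtA W →
  IsWtA (wrA (N := N) W) ∧
  (∀ y : Wr 𝔐 N, wrA W 1 y = if y.i = 1 then W 1 (prodSeq y.s) else 0)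

/-- ATOT (copy of `TOT`). -/
def s_ATOT : Prop := ∀ (𝔐 K : Type u) (A : Type) [Monoid 𝔐] [AddCommGroup A] (cl : 𝔐 → K)
  (hcl : ∀ a b, cl (a * b) = cl (b * a)) (N : ℕ) [NeZero N] (W : 𝔐 → 𝔐 → A)
  (U Ui Wo Wi z : MonoidAlgebra ℤ (ZMod N → 𝔐)), 1 < N →
  (cycData N cl hcl).IsTrip U Ui Wo Wi z →
  N • bil (wrA W) (XW Ui z Wi) (YW U z) = -(bil (eNA W) Ui U - bil (eNA W) Wi Wo)

/-- AEVA (copy of `EVA`, with `EVG`). -/
def s_AEVA : Prop := ∀ (𝔐 : Type u) (A : Type) [Monoid 𝔐] [AddCommGroup A] (W : 𝔐 → 𝔐 → A) (p m : ℕ)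
  [Fact p.Prime] (v w : MonoidAlgebra ℤ 𝔐), v * w = 1 →
  bil (eNA W) (extPow (ZMod (p ^ (m + 1))) v) (extPow (ZMod (p ^ (m + 1))) w) =
    (p ^ (m + 1)) • bil W v w ∧
  bil (eNA W) (Wof p m v) (Wof p m w) = (p ^ (m + 1)) • bil (pwA W p) v w

/-- AREF (copy of `REF` with `j = 0`, values in the `p`-adic integers).
Hypotheses `s_AKAP`, `s_AWRW`, `s_ATOT`, `s_AEVA`, `s_INV`, `s_GAM`.
Proof. `N = p ^ (m + 1)`, `q = PadicInt.toZModPow (m + 1)`. The weight `q ∘ wrA W` with values in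
`Λ = ZMod N` and `AKAP` (`deg = degW 𝔐 N`): the left hand side is
`q v * (GAM's function) = - q v * gam k` since `wrA W 1 a = v` if `a.i = 1` and
`cl (prodSeq a.s) = k`, `0` otherwise; the right hand side is `q (bil (wrA W) X Y)` (`map_bil`), and
`N • bil (wrA W) X Y = -(N • bil W w⁻¹ w - N • bil (pwA W p) w⁻¹ w)`, so
`bil (wrA W) X Y = -(bil W w⁻¹ w - bil (pwA W p) w⁻¹ w)` because `ℤ_[p]` has no torsion. -/
def s_AREF : Prop := ∀ (𝔐 K : Type u) [Monoid 𝔐] (cl : 𝔐 → K)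
  (hcl : ∀ a b, cl (a * b) = cl (b * a)) (k : K) (p m : ℕ) [Fact p.Prime], p ≠ 2 →
  ∀ (v : ℤ_[p]) (W : 𝔐 → 𝔐 → ℤ_[p]), WtAtA cl k v W → ∀ w : (MonoidAlgebra ℤ 𝔐)ˣ,
    PadicInt.toZModPow (m + 1) v * gamVal cl hcl p m w k =
      PadicInt.toZModPow (m + 1) (bil W (w⁻¹ : (MonoidAlgebra ℤ 𝔐)ˣ).val w.val -
        bil (pwA W p) (w⁻¹ : (MonoidAlgebra ℤ 𝔐)ˣ).val w.val)

/-- ACOC (copy of `COC`). -/
def s_ACOC : Prop := ∀ (G : Type u) (A : Type) [Group G] [AddCommGroup A] (n : ℕ) (g : G)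
  (f : Subgroup.centralizer {g} →* Multiplicative A),
  ∃ W : MM G n → MM G n → A, WtAtA MM.cl (some (ConjClasses.mk g))
    (f ⟨g, Subgroup.mem_centralizer_singleton_iff.2 rfl⟩).toAdd W

/-- ARES (copy of `RES`, values in the `p`-adic integers). -/
def s_ARES : Prop := ∀ (G : Type u) [Group G] (n p : ℕ) [Fact p.Prime] (K : ConjClasses G)
  (v : ℤ_[p]) (W : MM G n → MM G n → ℤ_[p]), 0 < n → WtAtA MM.cl (some K) v W →
  (∀ (x : MM G n) (C : ConjClasses G), MM.cl (x ^ p) = some C →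
    ∃ C', MM.cl x = some C' ∧ powC p C' = C) ∧
  (∀ C, powC p C = K → ∃ v' : ℤ_[p], v = p * v' ∧
    WtAtA MM.cl (some C) v' (resWA MM.cl W p (some C))) ∧
  (∀ (S : Finset (ConjClasses G)) (x y : MonoidAlgebra ℤ (MM G n)),
    (∀ C ∈ S, powC p C = K) →
    (∀ a ∈ x.coeff.support, ∀ b ∈ y.coeff.support, ∀ C, MM.cl (a * b) = some C → powC p C = K →
      C ∈ S) →
    bil (pwA W p) x y = ∑ C ∈ S, bil (resWA MM.cl W p (some C)) x y) ∧
  (¬(p : ℤ_[p]) ∣ v → ∀ x y : MonoidAlgebra ℤ (MM G n), bil (pwA W p) x y = 0)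

/-- AVAL (copy of `VAL`). Hypotheses `s_AREF`, `s_ARES`. -/
def s_AVAL : Prop := ∀ (G : Type u) [Group G] (n p m : ℕ) [Fact p.Prime], 0 < n → p ≠ 2 →
  ∀ (w : (MonoidAlgebra ℤ (MM G n))ˣ) (K : ConjClasses G) (v : ℤ_[p])
    (W : MM G n → MM G n → ℤ_[p]), WtAtA MM.cl (some K) v W →
  (¬(p : ℤ_[p]) ∣ v →
    PadicInt.toZModPow (m + 1) v * gamVal MM.cl MM.cl_comm p m w (some K) =
    PadicInt.toZModPow (m + 1) (bil W (w⁻¹ : (MonoidAlgebra ℤ (MM G n))ˣ).val w.val)) ∧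
  (∀ (T : Finset (ConjClasses G)) (v' : ℤ_[p]), v = p * v' → some K ∉ SC MM.cl w →
    (∀ C, C ∈ T ↔ (some C ∈ SC MM.cl w ∧ powC p C = K)) →
    (∀ C ∈ T, ∀ C', some C' ∈ SC MM.cl w → powC p C' ≠ C) →
    PadicInt.toZModPow (m + 1) v' * (p * gamVal MM.cl MM.cl_comm p m w (some K) +
      ∑ C ∈ T, gamVal MM.cl MM.cl_comm p m w (some C)) = 0)

/-- ANEQ (60 lines). Transport of a weight from `ℤ[1/M]` to the `p`-adic integers.
Proof. For `p` prime, `p ∤ M`, every element of `ZM M` has `p`-adic norm at most `1`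
(`‖x‖ = ‖M^k x‖ = ‖a‖ ≤ 1`), so there is a ring homomorphism `j : ZM M → ℤ_[p]`,
`(j x : ℚ_[p]) = (x : ℚ)`, injective. `j ∘ W` is a weight and `bil (j ∘ W) x y = j (bil W x y)`
(`map_bil`). -/
def s_ANEQ : Prop := ∀ (M p : ℕ) [Fact p.Prime], 0 < M → ¬p ∣ M →
  ∃ j : ZM M →+* ℤ_[p], Function.Injective j ∧ (∀ x : ZM M, ((j x : ℤ_[p]) : ℚ_[p]) = ((x : ℚ) : ℚ_[p])) ∧
    ∀ (𝔐 K : Type u) [Monoid 𝔐] (cl : 𝔐 → K) (k : K) (v : ZM M) (W : 𝔐 → 𝔐 → ZM M),
      WtAtA cl k v W → WtAtA cl k (j v) (fun a b => j (W a b))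

/-- AVANC (copy of `VANC`). Hypotheses `s_COH`, `s_AREF`, `s_ACOC`, `s_ARES`, `s_ANEQ`.
`VanishesM`: as `Vanishes`. Proof: `p0 = max 2 M`; as `VANC` with `v = p ^ j * unit` in `ℤ_[p]`. -/
def s_AVANC : Prop := ∀ (G : Type u) [Group G] (M : ℕ), 0 < M → CentHomM G M → Vanishes G

/-- AARI. (architect) Hypotheses `s_AVAL`, `s_ACOC`, `s_ARES`, `s_ANEQ`. -/
def s_AARI : Prop := ∀ (G : Type u) [Group G] (M : ℕ), 0 < M → CentHomM G M → Vanishes G → ArithR G

/-- LOCM (30 lines). `ℤ`-valued homomorphisms are `ℤ[1/1]`-valued. -/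
def s_LOCM : Prop := ∀ (G : Type u) [Group G], LocCentHom G → LocCentHomM G

/-- EIGH (40 lines, see `Pool/Agent/SUR/EIGG.lean`). As `EIGG`, for one element no power of which is
unipotent. -/
def s_EIGH : Prop := ∀ (F : Type u) [Field F] (n : ℕ) (G₀ : Subgroup (GL (Fin n) F)), G₀.FG →
  ∀ g : G₀, (∀ k : ℕ, 0 < k → ¬IsNilpotent (((g : GL (Fin n) F) : Matrix (Fin n) (Fin n) F) ^ k - 1)) →
  ∃ (E : Type u) (_ : Field E) (S : Set E), S.Finite ∧ Subfield.closure S = ⊤ ∧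
    ∃ d : Subgroup.centralizer {g} →* Eˣ,
      ¬IsOfFinOrder (d ⟨g, Subgroup.mem_centralizer_singleton_iff.2 rfl⟩)

/-- NNF (300 lines). Finitely generated domains of characteristic `0`: additive functionals to
`ℤ[1/M]`.
Proof. Let `A = Subring.closure S`, `S` finite, `B = Algebra.adjoin ℚ S ⊆ F`. Noether normalisation
(`exists_integral_inj_algHom_of_fg`): `B` is integral over a polynomial ring `ℚ[y_1, ..., y_d]`,
`y_i ∈ B` algebraically independent; multiply the `y_i` by integers so that they lie in `A`. Each of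
the finitely many `s ∈ S` satisfies a monic equation over `ℚ[y]`; let `M` be a common denominator of
all coefficients (`M > 0`). So `A` is integral over `P = ℤ[1/M][y_1, ..., y_d]`, which is integrally
closed (a polynomial ring over a principal ideal domain), with field of fractions `L = ℚ(y)`. Let
`E` be the subfield of `F` generated by `S`; it is finite over `L` (generated by integral elements)
and `Tr : E → L` maps elements integral over `P` to `P` (`Algebra.isIntegral_trace`). For `ν ≠ 0`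
in `A` there is `α ∈ A` with `α ν = b ∈ ℤ[y]`, `b ≠ 0` (constant coefficient of a minimal equation of
`ν` over `ℤ[y]`, `ν` is algebraic over `ℤ[y] ⊆ A`). Then `Tr (α ν) = [E : L] b ≠ 0`, choose a monomial
whose coefficient in `[E : L] b` is not `0` and put `ψ x` = this coefficient of `Tr (α x) ∈ P`. -/
def s_NNF : Prop := ∀ (F : Type u) [Field F] [CharZero F] (S : Set F), S.Finite →
  ∃ M : ℕ, 0 < M ∧ ∀ ν ∈ Subring.closure S, ν ≠ 0 →
    ∃ ψ : Subring.closure S →+ ZM M, ∀ h : ν ∈ Subring.closure S, ψ ⟨ν, h⟩ ≠ 0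

/-- GLT (250 lines). All subgroups of `GL 2 F`, characteristic `0`. Hypotheses `s_NNF`, `s_VALG`,
`s_EIGH`.
Proof. A finitely generated subgroup `G₁` of `G` is isomorphic to its image `G₀` in `GL 2 F`, so let
`G₀ ≤ GL 2 F` be finitely generated. Let `S` be the finite set of the entries of the generators and
their inverses and `1/2`, `A = Subring.closure S`, so all elements of `G₀` have entries in `A`. Take
`M` from `NNF`. Let `g ∈ G₀` have infinite order. If no power `g ^ k`, `k > 0`, is unipotent,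
`EIGH` and `VALG` give a homomorphism to `ℤ ⊆ ℤ[1/M]`. Otherwise `g ^ k = 1 + N`, `k > 0`, `N ^ 2 = 0`,
`N ≠ 0` (infinite order). If `z` commutes with `g`, then `z N = N z`, so `z = a + b N` with
`a, b ∈ F` (the centraliser of a nonzero nilpotent 2 by 2 matrix), `a ≠ 0`; `c z = b / a` is a
homomorphism `(a + b N)(a' + b' N) = a a' + (a b' + a' b) N` to the additive group of `F`. `c (g ^ k) = 1`,
so `k * c g = 1`. `2 a = trace z`, `a⁻¹ = trace (z⁻¹) / 2`, so `a, a⁻¹ ∈ A` and the entries of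
`(z / a - 1) = (c z) N` are in `A`; let `ν = N i j ≠ 0` be an entry (`ν ∈ A`). `z ↦ c z * ν ∈ A` is a
homomorphism to the additive group of `A` with value `ν / k` at `g`; compose with `ψ` from `NNF` for
`ν`: `k * ψ (ν / k) = ψ ν ≠ 0`. -/
def s_GLT : Prop := ∀ (F : Type u) [Field F] [CharZero F] (G : Subgroup (GL (Fin 2) F)),
  LocCentHomM G

end Pool.Agent.SUR
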