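import Pool.Agent.SUR.StE

/-!
# The Dennis trace of `K₁(ℤ[G])` at the classes of infinite order

A function `F : G → G → A` with `F a (b c) = F (a b) c + F (c a) b` is a Hochschild `1`-cocycle of `ℤ[G]`
with values in the dual; it pairs with invertible matrices (`pairF`, the Dennis trace in degree one). If
`F` is supported at elements of infinite order, the pairing should vanish (a consequence of the
Farrell–Jones conjecture). Modules as in `StL.lean`: `theorem t_DXXX : s_DXXX` in
`Pool/Agent/SUR/DXXX.lean`.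
-/

set_option autoImplicit false

universe u v

namespace Pool.Agent.SUR

open Pool.Agent.WhK Finset

/-! ### Definitions -/

/-- the pairing of a cocycle with an invertible matrix -/
noncomputable def pairF {G A : Type*} [Group G] [AddCommGroup A] (F : G → G → A) {n : ℕ}
    (X : (Matrix (Fin n) (Fin n) (MonoidAlgebra ℤ G))ˣ) : A :=
  ∑ i, ∑ j, bil F ((X⁻¹ : (Matrix (Fin n) (Fin n) (MonoidAlgebra ℤ G))ˣ).val i j) (X.val j i)

/-- the vanishing of the Dennis trace at the classes of infinite order -/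
def TraceZero (G : Type u) [Group G] : Prop :=
  ∀ F : G → G → ℚ, IsWtA F → (∀ a b, IsOfFinOrder (a * b) → F a b = 0) →
  ∀ (n : ℕ) (X : (Matrix (Fin n) (Fin n) (MonoidAlgebra ℤ G))ˣ), pairF F X = 0

/-- for two elements of infinite order which are not conjugate, only finitely many `p`-th powers are
conjugate, `p` a prime number -/
def UniqRoots (G : Type u) [Group G] : Prop :=
  ∀ x y : G, ¬IsOfFinOrder x → ¬IsOfFinOrder y → ¬IsConj x y →
    {p : ℕ | p.Prime ∧ IsConj (x ^ p) (y ^ p)}.Finite

/-- the cocycle on matrix units -/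
def FMM {G A : Type*} [Group G] [AddCommGroup A] (F : G → G → A) (n : ℕ) : MM G n → MM G n → A
  | .one, .unit k l β => if k = l then F 1 β else 0
  | .unit i j α, .one => if i = j then F α 1 else 0
  | .unit i j α, .unit k l β => if j = k ∧ l = i then F α β else 0
  | _, _ => 0

open Classical in
/-- the part of a weight at a class -/
noncomputable def atC {𝔐 K A : Type*} [Monoid 𝔐] [AddCommGroup A] (cl : 𝔐 → K) (k : K)
    (W : 𝔐 → 𝔐 → A) (a b : 𝔐) : A :=
  if cl (a * b) = k then W a b else 0

/-! ### The modules -/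

/-- DMM (150 lines). Cocycles on `G` and matrix units.
Proof. From the rule `F a 1 = 0` and `F 1 1 = 0`. (1) cases. (2) `Fhom G n X = 1 + Psi (X - 1)`, `Psi` is
the sum of the `psi i j`, `psi_single`; `FMM` vanishes if one argument is `zero`. With `A = X⁻¹ - 1`,
`B = X - 1`: `bil (FMM F n) (1 + Psi A) (1 + Psi B) = ∑ i, F(1, B i i) + ∑ i j, F(A i j, B j i)`
`= ∑ i j, F(X⁻¹ i j, B j i) = ∑ i j, F(X⁻¹ i j, X j i)` (`F` biadditive; `F(·, 1) = 0`). (3) the products
`a b` of the relevant matrix units are units `unit i i (α β)`; `F 1 (α β) = F α β + F β α = F 1 (β α)`, so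
`F 1 h` depends only on the class of `h`. -/
def s_DMM : Prop := ∀ (G : Type u) (A : Type) [Group G] [AddCommGroup A] (F : G → G → A), IsWtA F →
  ∀ n : ℕ, IsWtA (FMM F n) ∧
  (∀ X : (Matrix (Fin n) (Fin n) (MonoidAlgebra ℤ G))ˣ,
    bil (FMM F n) (Fhom G n (X⁻¹ : (Matrix (Fin n) (Fin n) (MonoidAlgebra ℤ G))ˣ).val)
      (Fhom G n X.val) = pairF F X) ∧
  (∀ a b, FMM F n a b ≠ 0 → ∃ α β : G, F α β ≠ 0 ∧ MM.cl (a * b) = some (ConjClasses.mk (α * β))) ∧
  (∀ g : G, WtAtA MM.cl (some (ConjClasses.mk g)) (F 1 g)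
    (atC MM.cl (some (ConjClasses.mk g)) (FMM F n)))

/-- DPB (40 lines). Pull back of weights under the product of words.
Proof. `th` is a homomorphism. For the degree: `th (c ε)` does not depend on `ε` for a cube, and
`∑ ε, sgB ε = 0`. `bil` of the pull back: `bil` depends only on the images (biadditivity,
`MonoidAlgebra.mapDomain`). -/
def s_DPB : Prop := ∀ (𝔑 K : Type u) (A : Type) [Monoid 𝔑] [AddCommGroup A] (W : 𝔑 → 𝔑 → A),
  (∀ (cl : 𝔑 → K) (k : K) (v : A), WtAtA cl k v W →
    WtAtA (fun a => cl (th 𝔑 a)) k v fun a b => W (th 𝔑 a) (th 𝔑 b)) ∧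
  (∀ r, DegV (th 𝔑) r fun a b => W (th 𝔑 a) (th 𝔑 b)) ∧
  (∀ x y : MonoidAlgebra ℤ (FreeMonoid 𝔑), bil (fun a b => W (th 𝔑 a) (th 𝔑 b)) x y =
    bil W (MonoidAlgebra.mapDomainRingHom ℤ (th 𝔑) x) (MonoidAlgebra.mapDomainRingHom ℤ (th 𝔑) y))

/-- DZERO (300 lines, from `Pool/Agent/SUR/LARI.lean`). Hypotheses `s_LVAL`, `s_LRES`, `s_ANEQ`,
`s_LPSH.{u, 0}`.
Proof. If `K` is not in `SCL x y`, clear. Otherwise let `S` be the set of the classes of infinite order in
`SCL x y`; choose a weight `(v C, W C)` for each, the given one for `K`. Choose the prime `p` as in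
`LARI` (large, prime to `M`), but instead of the congruence condition such that `powC p` is injective on
`S` (all but finitely many primes: `UniqRoots` for representatives of the pairs of different classes of
`S`). The steps (F1) - (F5) of `LARI` do not use the congruence: `∑ C ∈ S with powC p C = K', a C = 0`, so
`a C = 0` for all `C ∈ S`, `a C = bz C * ∏ C' ∈ S.erase C, v C'`, so `bz K = 0` and `bil (W K) y x = 0`. -/
def s_DZERO : Prop := ∀ (G : Type u) [Group G] (M r : ℕ), 0 < M → CentWt G M r → UniqRoots G →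
  ∀ n : ℕ, 0 < n → ∀ (w : (MonoidAlgebra ℤ (MM G n))ˣ)
    (x y : MonoidAlgebra ℤ (FreeMonoid (MM G n))), Lft (r + 1) w x y →
  ∀ K : ConjClasses G, (∀ g, ConjClasses.mk g = K → ¬IsOfFinOrder g) →
  ∀ (v : ZM M) (W : FreeMonoid (MM G n) → FreeMonoid (MM G n) → ZM M), v ≠ 0 →
  WtAtA (clF G n) (some K) v W → DegV (th (MM G n)) r W → bil W y x = 0

/-- DPOL (120 lines). Functions on cubes.
Proof. Let `Pol d k` be the additive subgroup of the functions `(Fin d → Bool) → ℚ` generated by the
`ε ↦ if (∀ s ∈ T, ε s = true) then a else 0`, `T.card ≤ k` (see `Pool/Agent/SUR/LKERD.lean`). `f ∈ Pol d k` if and only if for all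
`T : Finset (Fin d)` with `k < T.card` the Moebius coefficient
`∑ ε with (∀ s, ε s = true → s ∈ T), (-1) ^ card {s ∈ T | ε s = false} * f ε` is `0` (every function is the sum
of its Moebius coefficients times the generators). If this holds for all `T` with `k + 1` elements and all
faces (fixed values of the other coordinates), then for all larger `T` as well. A face of a cube is a cube:
for an injective `e : Fin (r + 1) → Fin d` and `ε₀`, the map `ε ↦ c (fun s => if s = e i then ε i else ε₀ s)`
is a cube of dimension `r + 1`. So for `W` with `DegV θ r W` and cubes `c, c'` of dimension `d` the function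
`ε ↦ W (c ε) (c' ε)` is in `Pol d r`. The statement is in terms of `PolQ`. -/
def PolQ {d : ℕ} (k : ℕ) : AddSubgroup ((Fin d → Bool) → ℚ) :=
  AddSubgroup.closure {f | ∃ (T : Finset (Fin d)) (a : ℚ), T.card ≤ k ∧
    f = fun ε => if ∀ s ∈ T, ε s = true then a else 0}

@[inherit_doc PolQ]
def s_DPOL : Prop := (∀ (𝔐 𝔔 : Type u) [Monoid 𝔐] [Monoid 𝔔] (θ : 𝔐 →* 𝔔) (r : ℕ) (W : 𝔐 → 𝔐 → ℚ),
    DegV θ r W → ∀ (d : ℕ) (c c' : (Fin d → Bool) → 𝔐), Cub θ c → Cub θ c' →
    (fun ε => W (c ε) (c' ε)) ∈ PolQ (d := d) r) ∧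
  (∀ (d k l : ℕ) (f g : (Fin d → Bool) → ℚ), f ∈ PolQ k → g ∈ PolQ l →
    (fun ε => f ε * g ε) ∈ PolQ (d := d) (k + l)) ∧
  (∀ (d k : ℕ) (f g : (Fin d → Bool) → ℚ) (s : Fin d), f ∈ PolQ k → g ∈ PolQ k →
    (fun ε => if ε s then f ε else g ε) ∈ PolQ (d := d) (k + 1)) ∧
  (∀ (d k : ℕ) (f : (Fin d → Bool) → ℚ), k < d → f ∈ PolQ k → altS f = 0)

/-- DANT (200 lines). Weights with constant `0`. Hypothesis `s_DPOL`.
Proof. For a word `u` put `T u = ∑ W (s p) x * U (x s) p` over all decompositions `u = p x s`, `x` a letter.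
Iterating the rule, `W a b = ∑ W (s a p) x` over the decompositions `b = p x s`. For words `a, b` with
`cl (th (a b)) = k`: the positions in `b` contribute to `T (a b) - T (b a)` the sum of the
`W (s a p) x * (U (x s) (a p) - U (x s a) p) = W (s a p) x * U (p x s) a`, so `W a b * U b a`; those in `a`
contribute `- W b a * U a b`; with `U a b + U b a = U 1 (a b) = 0` and `W a b + W b a = W 1 (a b) = v`:
`T (a b) - T (b a) = - v * U a b` (both sides are `0` if the class is not `k`). So
`v * bil U y x = lin T (x y) - lin T (y x) = lin T (x y - 1) - lin T (y x - 1)`. It remains to see that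
`altS (fun ε => T (c ε)) = 0` for cubes `c` of dimension `2 r + 2`: more generally, for cubes `α, c, β` of
dimension `d` the function `ε ↦ ∑ W (s β p') x * U (x s β) p'` (`c ε = p x s`, `p' = α p`) is in
`PolQ (2 r + 1)`, by induction on `Cub c` for all `α, β`: constants and slots: for a fixed word `b` the sum
over its decompositions `b = p x s` of
`W (s β(ε) α(ε) p) x * U (x s β(ε)) (α(ε) p)` is in `PolQ (2 r)` (`DPOL`), and the slot adds `1`; products
`c c'`: use `(α, c, c' β)` and `(α c, c', β)`. -/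
def s_DANT : Prop := ∀ (𝔑 K : Type u) [Monoid 𝔑] (cl : 𝔑 → K), (∀ a b, cl (a * b) = cl (b * a)) →
  ∀ (k : K) (v : ℚ) (r : ℕ) (W U : FreeMonoid 𝔑 → FreeMonoid 𝔑 → ℚ), v ≠ 0 →
  WtAtA (fun a => cl (th 𝔑 a)) k v W → DegV (th 𝔑) r W →
  WtAtA (fun a => cl (th 𝔑 a)) k 0 U → DegV (th 𝔑) r U →
  ∀ (w : (MonoidAlgebra ℤ 𝔑)ˣ) (x y : MonoidAlgebra ℤ (FreeMonoid 𝔑)), Lft (2 * r + 2) w x y →
  bil U y x = 0

/-- DTR (150 lines). Hypotheses `s_LWE`, `s_LMONO`, `s_LLIFT`, `s_DMM`, `s_DPB`, `s_DZERO`, `s_DANT`,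
`s_LPSH.{u, 0}`.
Proof. `M, r` and `CentWt G M r` from `LWE`. We may assume `0 < n`. Let `w = Fhom X`
(`Units.map (Fhom G n)`), `x, y` from `LLIFT` with `K = 2 r + 2`. By `DMM`
`pairF F X = bil (FMM F n) w⁻¹ w`, which is the finite sum over the classes `C` of the products of the
supports of `bil (atC MM.cl (some C) (FMM F n)) w⁻¹ w` (the products with class `none` do not
contribute); the classes of finite order contribute `0` (`F α β = 0` if `α β` has finite order). For `C` of
infinite order, `P = atC .. (FMM F n)` is a weight at `C` with some constant `v₁`; its pull back `P'` under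
`th` is a weight of degree at most `r`, `bil P' y x = bil P w⁻¹ w` (`DPB`). Let `(v, W)` be a weight at `C`,
`v ≠ 0`, of degree at most `r`, with values in `ZM M`; `bil W y x = 0` by `DZERO` (degree `2 r + 1`:
`LMONO`, also for `CentWt`). Let `W'` be `W` with values in `ℚ`. `U = v P' - v₁ W'` has the constant `0`
and degree at most `r`, so `bil U y x = 0` by `DANT`, and `v * bil P' y x = v₁ * bil W' y x = 0`. -/
def s_DTR : Prop := ∀ (G : Type u) [Group G], CentEul G → UniqRoots G → TraceZero G

/-- DLOC (100 lines, see `Pool/Agent/SUR/LOC.lean`). Direct limits.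
Proof. `X = GLn.map (ringMap G₀.subtype) n X₀` for a finitely generated subgroup `G₀`, and
`pairF F X = pairF (fun a b => F a b) X₀` (restriction of `F` to `G₀`). -/
def s_DLOC : Prop := ∀ (G : Type u) [Group G], (∀ G₀ : Subgroup G, G₀.FG → TraceZero G₀) → TraceZero G

/-- DFG (100 lines). Finitely generated domains have finite residue fields.
Proof. `A = Subring.closure S` is a finitely generated `ℤ`-algebra, a Noetherian domain. Let `m` be a
maximal ideal of `A`; `A ⧸ m` is a field which is finitely generated as a ring, so it is finite (Mathlib: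
Jacobson rings, `finite_of_finite_type_of_isJacobsonRing`, or search `Finite` of a field of finite type over
`ℤ`). `⨅ i, m ^ i = ⊥` by Krull (`Ideal.iInf_pow_eq_bot_of_isDomain`). `A ⧸ m ^ i` is finite: induction
(`m ^ i / m ^ (i + 1)` is a finitely generated module over `A ⧸ m`; or `Ideal.finite_quotient_pow`). -/
def s_DFG : Prop := ∀ (F : Type u) [Field F] (S : Set F), S.Finite →
  ∃ m : Ideal (Subring.closure S), m.IsMaximal ∧ (∀ i : ℕ, Finite (Subring.closure S ⧸ m ^ i)) ∧
    ⨅ i : ℕ, m ^ i = ⊥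

/-- DPW (150 lines). Roots in congruence groups.
Proof. Let `N` be the order of `GL_n(A/m)` times the characteristic `ℓ` of `A/m` (both positive). Let
`x ^ p = y ^ p`, `p ∤ N`. It suffices that the images of `x` and `y` in `GL_n(A/m^i)` are equal for all `i`
(`⨅ i, m ^ i = ⊥`). This is a finite group; its order is prime to `p`: otherwise it has an element `z` of
order `p` (Cauchy), `z` maps to `1` in `GL_n(A/m)`, so `z = 1 + ε` with entries of `ε` in `m/m^i`,
`z ^ (ℓ ^ t) = 1` for large `t` (`(1 + ε) ^ ℓ = 1 + ε'` with entries of `ε'` in `m^(j+1)` if those of `ε` are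
in `m^j`, `j ≥ 1`, because `ℓ ∈ m`: expand, the middle binomials are divisible by `ℓ`), and `z ^ p = 1`, so
`z = 1`. In a finite group of order prime to `p` the `p`-th power map is injective
(`powCoprime` or `Nat.Coprime.pow_left_bijective`). -/
def s_DPW : Prop := ∀ (A : Type u) [CommRing A] (m : Ideal A), m.IsMaximal →
  (∀ i : ℕ, Finite (A ⧸ m ^ i)) → ⨅ i : ℕ, m ^ i = ⊥ → ∀ n : ℕ,
  ∃ p₀ : ℕ, ∀ p : ℕ, p.Prime → p₀ < p → ∀ x y : (Matrix (Fin n) (Fin n) A)ˣ, x ^ p = y ^ p → x = y

/-- DUR (80 lines). Hypotheses `s_DFG`, `s_DPW`. Linear groups have unique roots.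
Proof. `G₀ ≤ G ≤ GL n F` finitely generated; all elements have entries in `A = Subring.closure S`, `S`
finite (see `Pool/Agent/SUR/LLIN.lean`: an injective homomorphism to the invertible matrices over `A`). If
`x ^ p` and `y ^ p` are conjugate, `k x ^ p k⁻¹ = y ^ p`, `p > p₀`, then `k x k⁻¹ = y`. So the set of the
primes is contained in `{p | p ≤ p₀}`. -/
def s_DUR : Prop := ∀ (F : Type u) [Field F] (n : ℕ) (G : Subgroup (GL (Fin n) F))
  (G₀ : Subgroup G), G₀.FG → UniqRoots G₀

end Pool.Agent.SUR
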