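import Mathlib
import Pool.Agent.SUR.AARI
import Pool.Agent.SUR.StD

/-!
# Classes of infinite order: the pairing with weights of bounded degree vanishes
-/

set_option autoImplicit false

universe u

namespace Pool.Agent.SUR

open Pool.Agent.WhK

theorem dzero_finite {G : Type u} [Group G] {n : ℕ}
    (x y : MonoidAlgebra ℤ (FreeMonoid (MM G n))) : (SCL x y).Finite :=
  Set.Finite.image2 (fun a b => clF G n (a * b)) y.coeff.support.finite_toSet
    x.coeff.support.finite_toSet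

theorem dzero_prime {G : Type u} [Group G] (hU : UniqRoots G) (S : Finset (ConjClasses G))
    (hS : ∀ C ∈ S, InfC C) :
    ∃ P0 : ℕ, ∀ p : ℕ, p.Prime → P0 < p → ∀ C ∈ S, ∀ C' ∈ S, powC p C = powC p C' → C = C' := by
  classical
  have hbad : ∀ C ∈ S, ∀ C' ∈ S, C ≠ C' → {p : ℕ | p.Prime ∧ powC p C = powC p C'}.Finite := by
    intro C hC C' hC' hne
    obtain ⟨g, rfl⟩ := ConjClasses.exists_rep C
    obtain ⟨g', rfl⟩ := ConjClasses.exists_rep C'
    have h1 := hU g g' ((infC_mk g).1 (hS _ hC)) ((infC_mk g').1 (hS _ hC'))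
      (fun h => hne (ConjClasses.mk_eq_mk_iff_isConj.2 h))
    refine h1.subset ?_
    rintro p ⟨hp, hpp⟩
    exact ⟨hp, ConjClasses.mk_eq_mk_iff_isConj.1 hpp⟩
  have hfin : {p : ℕ | ∃ q ∈ (S ×ˢ S).filter (fun q => q.1 ≠ q.2),
      p.Prime ∧ powC p q.1 = powC p q.2}.Finite := by
    have h1 : {p : ℕ | ∃ q ∈ (S ×ˢ S).filter (fun q => q.1 ≠ q.2),
        p.Prime ∧ powC p q.1 = powC p q.2} =
        ⋃ q ∈ (((S ×ˢ S).filter (fun q => q.1 ≠ q.2) : Finset (ConjClasses G × ConjClasses G)) :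
          Set (ConjClasses G × ConjClasses G)), {p : ℕ | p.Prime ∧ powC p q.1 = powC p q.2} := by
      ext p
      simp only [Set.mem_setOf_eq, Set.mem_iUnion, Finset.mem_coe, exists_prop]
    rw [h1]
    refine Set.Finite.biUnion (Finset.finite_toSet _) fun q hq => ?_
    rw [Finset.mem_coe, Finset.mem_filter, Finset.mem_product] at hq
    exact hbad q.1 hq.1.1 q.2 hq.1.2 hq.2
  obtain ⟨P0, hP0⟩ := hfin.bddAbove
  refine ⟨P0, fun p hp hpP C hC C' hC' h => ?_⟩
  by_contra hne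
  have h1 := hP0 (⟨(C, C'), Finset.mem_filter.2 ⟨Finset.mem_product.2 ⟨hC, hC'⟩, hne⟩, hp, h⟩ :
    p ∈ {p : ℕ | ∃ q ∈ (S ×ˢ S).filter (fun q => q.1 ≠ q.2), p.Prime ∧ powC p q.1 = powC p q.2})
  omega

theorem t_DZERO (hVAL : s_LVAL.{u}) (hRES : s_LRES.{u}) (hNEQ : s_ANEQ.{u})
    (hPSH : s_LPSH.{u, 0}) : s_DZERO.{u} := by
  intro G _ M0 r hM0 hc hU n hn w x y hL K0 hK0 v0 W0 hv00 hW0 hD0
  classical
  by_cases hKS : some K0 ∈ SCL x y
  swap
  · refine bil_eq_zero _ _ _ fun a ha b hb => ?_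
    by_contra hne
    exact hKS ⟨a, ha, b, hb, hW0.2.1 a b hne⟩
  have hwt : ∀ K : ConjClasses G, ∃ (v : ZM M0)
      (W : FreeMonoid (MM G n) → FreeMonoid (MM G n) → ZM M0),
      (InfC K → v ≠ 0 ∧ WtAtA (clF G n) (some K) v W ∧ DegV (th (MM G n)) r W) ∧
      (K = K0 → W = W0) := by
    intro K
    by_cases hKK : K = K0
    · subst hKK
      exact ⟨v0, W0, fun _ => ⟨hv00, hW0, hD0⟩, fun _ => rfl⟩
    · by_cases hK : InfC K
      · obtain ⟨g, rfl⟩ := ConjClasses.exists_rep K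
        obtain ⟨v, W, h⟩ := hc n hn g ((infC_mk g).1 hK)
        exact ⟨v, W, fun _ => h, fun h' => absurd h' hKK⟩
      · exact ⟨0, 0, fun h => absurd h hK, fun h' => absurd h' hKK⟩
  choose vq W hvW hWK using hwt
  have hsc : ∀ K : ConjClasses G, ∃ (T : ℕ) (a b : ℤ), T ≠ 0 ∧ (T : ZM M0) * vq K = (a : ZM M0) ∧
      (T : ZM M0) * bil (W K) y x = (b : ZM M0) :=
    fun K => exists_scale hM0 _ _
  choose T v bz hT hTv hTb using hsc
  have hv0 : ∀ K, InfC K → v K ≠ 0 := fun K hK h => by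
    have h1 := hTv K
    rw [h, Int.cast_zero] at h1
    rcases mul_eq_zero.1 h1 with h2 | h2
    · exact hT K (by exact_mod_cast h2)
    · exact (hvW K hK).1 h2
  -- the classes of infinite order in `SC`
  have hfin : {C : ConjClasses G | some C ∈ SCL x y}.Finite :=
    (dzero_finite x y).preimage (Option.some_injective _).injOn
  let S : Finset (ConjClasses G) := hfin.toFinset.filter InfC
  have hS : ∀ C, C ∈ S ↔ some C ∈ SCL x y ∧ InfC C := fun C => by
    rw [Finset.mem_filter, Set.Finite.mem_toFinset]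
    rfl
  let V : ℤ := ∏ C ∈ S, v C
  have hV : V ≠ 0 := Finset.prod_ne_zero_iff.2 fun C hC => hv0 C ((hS C).1 hC).2
  let a : ConjClasses G → ℤ := fun C => bz C * ∏ C' ∈ S.erase C, v C'
  obtain ⟨P0, hP0⟩ := dzero_prime hU S fun C hC => ((hS C).1 hC).2
  let B : ℕ := P0 + 2 + M0 + ∑ C ∈ S, ((v C).natAbs + (a C).natAbs)
  obtain ⟨p, hpB1, hp⟩ := Nat.exists_infinite_primes (B + 1)
  have hpB : B < p := hpB1
  have : Fact p.Prime := ⟨hp⟩
  have hp2 : p ≠ 2 := by
    have : B < p := hpB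
    omega
  have hpP0 : P0 < p := by
    have : B < p := hpB
    omega
  have hpM : ¬p ∣ M0 := fun hd => by
    have h1 := Nat.le_of_dvd hM0 hd
    have : B < p := hpB
    omega
  obtain ⟨j, hj, -, hjW⟩ := hNEQ M0 p hM0 hpM
  have hjT : ∀ K, (T K : ℤ_[p]) * j (vq K) = (v K : ℤ_[p]) := fun K => by
    rw [← map_natCast j, ← map_mul, hTv, map_intCast]
  have hjb : ∀ K, (T K : ℤ_[p]) * j (bil (W K) y x) =
      (bz K : ℤ_[p]) := fun K => by
    rw [← map_natCast j, ← map_mul, hTb, map_intCast]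
  have hjv0 : ∀ K, InfC K → j (vq K) ≠ 0 := fun K hK h =>
    (hvW K hK).1 (hj (h.trans (map_zero j).symm))
  have hjD : ∀ K, InfC K → DegV (th (MM G n)) r fun a b => j (W K a b) := fun K hK =>
    (hPSH (FreeMonoid (MM G n)) (MM G n) (Option (ConjClasses G)) (ZM M0) ℤ_[p] (th (MM G n))
      j.toAddMonoidHom (W K)).1 r (hvW K hK).2.2
  have hbilj : ∀ K, bil (fun a b => j (W K a b)) y x =
      j (bil (W K) y x) := fun K =>
    (map_bil j.toAddMonoidHom (W K) _ _).symm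
  have hva : ∀ C ∈ S, (v C).natAbs < p := fun C hC => by
    have h1 : (v C).natAbs + (a C).natAbs ≤ ∑ C ∈ S, ((v C).natAbs + (a C).natAbs) :=
      Finset.single_le_sum (f := fun C => (v C).natAbs + (a C).natAbs) (fun _ _ => Nat.zero_le _) hC
    have h2 : B < p := hpB
    omega
  -- (F1)
  have F1 : ∀ C ∈ S, ¬(p : ℤ_[p]) ∣ j (vq C) := fun C hC hd => by
    have h0 : (p : ℤ_[p]) ∣ (v C : ℤ_[p]) := by
      rw [← hjT]
      exact Dvd.dvd.mul_left hd _
    have h1 := Int.natAbs_dvd_natAbs.2 ((padic_dvd_int _).1 h0)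
    rw [Int.natAbs_natCast] at h1
    have h2 := Nat.le_of_dvd (Int.natAbs_pos.2 (hv0 C ((hS C).1 hC).2)) h1
    have h3 := hva C hC
    omega
  -- (F2)
  have F2 : ∀ C ∈ S, ∀ C', powC p C' ≠ C := fun C hC C' h => by
    obtain ⟨v', h1, -⟩ := (hRES G n p r C (j (vq C)) (fun a b => j (W C a b)) hn
      (hjW _ _ _ _ _ _ (hvW C ((hS C).1 hC).2).2.1) (hjD C ((hS C).1 hC).2)).2.1 C' h
    exact F1 C hC ⟨v', h1⟩
  -- (F3)
  have F3 : ∀ C ∈ S, ∀ m, (V : ZMod (p ^ (m + 1))) * gamVal MM.cl MM.cl_comm p m w (some C) =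
      (a C : ℤ) := fun C hC m => by
    have h1 := (hVAL G n p m r hn hp2 w x y hL C (j (vq C)) (fun a b => j (W C a b))
      (hjW _ _ _ _ _ _ (hvW C ((hS C).1 hC).2).2.1) (hjD C ((hS C).1 hC).2)).1 (F1 C hC)
    rw [hbilj] at h1
    have h1' : (v C : ZMod (p ^ (m + 1))) * gamVal MM.cl MM.cl_comm p m w (some C) =
        (bz C : ZMod (p ^ (m + 1))) := by
      rw [← map_intCast (PadicInt.toZModPow (m + 1) : ℤ_[p] →+* ZMod (p ^ (m + 1))) (v C),
        ← map_intCast (PadicInt.toZModPow (m + 1) : ℤ_[p] →+* ZMod (p ^ (m + 1))) (bz C), ← hjT,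
        ← hjb, map_mul, map_mul, mul_assoc, h1]
    have h2 : V = (∏ C' ∈ S.erase C, v C') * v C := (Finset.prod_erase_mul S v hC).symm
    rw [h2, Int.cast_mul, mul_assoc, h1', ← Int.cast_mul, mul_comm]
  let SP : Finset (ConjClasses G) := S.image (powC p)
  have hSPinf : ∀ K ∈ SP, InfC K := fun K hK => by
    obtain ⟨C, hC, rfl⟩ := Finset.mem_image.1 hK
    exact (infC_powC hp.ne_zero C).2 ((hS C).1 hC).2
  have hSPS : ∀ K ∈ SP, some K ∉ SCL x y := fun K hK h => by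
    obtain ⟨C, hC, hCK⟩ := Finset.mem_image.1 hK
    exact F2 K ((hS K).2 ⟨h, hSPinf K hK⟩) C hCK
  -- (F4)
  have F4 : ∀ K ∈ SP, ∃ v' : ℤ_[p], j (vq K) = p * v' ∧ ∀ m,
      PadicInt.toZModPow (m + 1) v' * (p * (V * gamVal MM.cl MM.cl_comm p m w (some K)) +
        ((∑ C ∈ S with powC p C = K, a C : ℤ) : ZMod (p ^ (m + 1)))) = 0 := fun K hK => by
    have hw := hvW K (hSPinf K hK)
    obtain ⟨C0, hC0, hCK⟩ := Finset.mem_image.1 hK
    have hwp := hjW _ _ _ _ _ _ hw.2.1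
    have hwd := hjD K (hSPinf K hK)
    obtain ⟨v', hv', -⟩ := (hRES G n p r K (j (vq K)) (fun a b => j (W K a b)) hn hwp hwd).2.1 C0 hCK
    refine ⟨v', hv', fun m => ?_⟩
    have h1 := (hVAL G n p m r hn hp2 w x y hL K (j (vq K)) (fun a b => j (W K a b)) hwp hwd).2
      (S.filter fun C => powC p C = K) v' hv'
      (hSPS K hK) (fun C => by
        rw [Finset.mem_filter, hS]
        refine ⟨fun h => ⟨h.1.1, h.2⟩, fun h => ⟨⟨h.1, ?_⟩, h.2⟩⟩
        rw [← infC_powC hp.ne_zero, h.2]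
        exact hSPinf K hK)
      (fun C hC C' _ => F2 C (Finset.mem_filter.1 hC).1 C')
    have h2 : (V : ZMod (p ^ (m + 1))) * ∑ C ∈ S with powC p C = K,
        gamVal MM.cl MM.cl_comm p m w (some C) =
        ((∑ C ∈ S with powC p C = K, a C : ℤ) : ZMod (p ^ (m + 1))) := by
      rw [Finset.mul_sum, Int.cast_sum]
      exact Finset.sum_congr rfl fun C hC => F3 C (Finset.mem_filter.1 hC).1 m
    rw [← h2]
    have h3 : PadicInt.toZModPow (m + 1) v' *
        (p * (V * gamVal MM.cl MM.cl_comm p m w (some K)) +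
        V * ∑ C ∈ S with powC p C = K, gamVal MM.cl MM.cl_comm p m w (some C)) =
        V * (PadicInt.toZModPow (m + 1) v' * (p * gamVal MM.cl MM.cl_comm p m w (some K) +
          ∑ C ∈ S with powC p C = K, gamVal MM.cl MM.cl_comm p m w (some C))) := by ring
    rw [h3, h1, mul_zero]
  -- (F5)
  have F5 : ∀ K ∈ SP, ∑ C ∈ S with powC p C = K, a C = 0 := fun K hK => by
    obtain ⟨v', hv', h⟩ := F4 K hK
    have hv0' : v' ≠ 0 := fun h0 => hjv0 K (hSPinf K hK) (by rw [hv', h0, mul_zero])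
    have hd : (p : ℤ) ∣ ∑ C ∈ S with powC p C = K, a C := dvd_of_forall' v' _ hv0' _ h
    refine Int.eq_zero_of_abs_lt_dvd hd ?_
    have h1 : |∑ C ∈ S with powC p C = K, a C| ≤ ∑ C ∈ S, |a C| :=
      (Finset.abs_sum_le_sum_abs _ _).trans
        (Finset.sum_le_sum_of_subset_of_nonneg (Finset.filter_subset _ _) fun _ _ _ => abs_nonneg _)
    have h2 : ∑ C ∈ S, |a C| ≤ ((∑ C ∈ S, ((v C).natAbs + (a C).natAbs) : ℕ) : ℤ) := by
      push_cast
      refine Finset.sum_le_sum fun C _ => ?_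
      have := abs_nonneg (v C)
      omega
    have h3 : ((∑ C ∈ S, ((v C).natAbs + (a C).natAbs) : ℕ) : ℤ) < p := by
      have : B < p := hpB
      exact_mod_cast (by omega : (∑ C ∈ S, ((v C).natAbs + (a C).natAbs)) < p)
    omega
  -- the end
  have hK0S : K0 ∈ S := (hS K0).2 ⟨hKS, hK0⟩
  have h1 := F5 (powC p K0) (Finset.mem_image_of_mem _ hK0S)
  have h2 : (S.filter fun C => powC p C = powC p K0) = {K0} := by
    ext C
    rw [Finset.mem_filter, Finset.mem_singleton]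
    refine ⟨fun h => hP0 p hp hpP0 C h.1 K0 hK0S h.2, fun h => ?_⟩
    rw [h]
    exact ⟨hK0S, rfl⟩
  rw [h2, Finset.sum_singleton] at h1
  have h3 : bz K0 = 0 := by
    rcases mul_eq_zero.1 h1 with h | h
    · exact h
    · exact absurd h (Finset.prod_ne_zero_iff.2 fun C hC =>
        hv0 C ((hS C).1 (Finset.mem_of_mem_erase hC)).2)
  have h4 := hTb K0
  rw [h3, Int.cast_zero] at h4
  rw [← hWK K0 rfl]
  rcases mul_eq_zero.1 h4 with h | h
  · exact absurd (by exact_mod_cast h) (hT K0)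
  · exact h

end Pool.Agent.SUR
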