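import Pool.Agent.SUR.StQ
import Pool.Agent.SUR.DZERO

/-!
# The class of one element of infinite order: the pairing with weights vanishes
-/

set_option autoImplicit false

universe u

namespace Pool.Agent.SUR

open Pool.Agent.WhK

theorem t_QZERO (hVAL : s_LVAL.{u}) (hRES : s_LRES.{u}) (hNEQ : s_ANEQ.{u})
    (hPSH : s_LPSH.{u, 0}) : s_QZERO.{u} := by
  intro G _ M r hM hP g hg hwp n hn w x y hL v W hv0 hW hD
  classical
  by_cases hKS : some (ConjClasses.mk g) ∈ SCL x y
  swap
  · refine bil_eq_zero _ _ _ fun a ha b hb => ?_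
    by_contra hne
    exact hKS ⟨a, ha, b, hb, hW.2.1 a b hne⟩
  obtain ⟨T, a, b, hT, hTa, hTb⟩ := exists_scale hM v (bil W y x)
  have ha0 : a ≠ 0 := fun h => by
    rw [h, Int.cast_zero] at hTa
    rcases mul_eq_zero.1 hTa with h2 | h2
    · exact hT (by exact_mod_cast h2)
    · exact hv0 h2
  -- the classes of infinite order
  have hfin : {C : ConjClasses G | some C ∈ SCL x y}.Finite :=
    (dzero_finite x y).preimage (Option.some_injective _).injOn
  let S : Finset (ConjClasses G) := hfin.toFinset.filter InfC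
  have hS : ∀ C, C ∈ S ↔ some C ∈ SCL x y ∧ InfC C := fun C => by
    rw [Finset.mem_filter, Set.Finite.mem_toFinset]
    rfl
  choose rep hrep using fun C : ConjClasses G => ConjClasses.exists_rep C
  let Vs : Finset G := insert g (S.image rep)
  have hVs : ∀ z ∈ Vs, ¬IsOfFinOrder z := fun z hz => by
    rcases Finset.mem_insert.1 hz with rfl | hz
    · exact hg
    · obtain ⟨C, hC, rfl⟩ := Finset.mem_image.1 hz
      exact ((hS C).1 hC).2 _ (hrep C)
  obtain ⟨p, hpN, hp, hcen, hroots⟩ := hP Vs hVs (M + 2 + a.natAbs + b.natAbs)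
  have : Fact p.Prime := ⟨hp⟩
  have hp2 : p ≠ 2 := by omega
  have hpM : ¬p ∣ M := fun hd => by
    have h1 := Nat.le_of_dvd hM hd
    omega
  have hgV : g ∈ Vs := Finset.mem_insert_self _ _
  have hrepV : ∀ C, C ∈ S → rep C ∈ Vs := fun C hC =>
    Finset.mem_insert_of_mem (Finset.mem_image_of_mem _ hC)
  obtain ⟨j, hj, -, hjW⟩ := hNEQ M p hM hpM
  have hja : (T : ℤ_[p]) * j v = (a : ℤ_[p]) := by
    rw [← map_natCast j, ← map_mul, hTa, map_intCast]
  have hjb : (T : ℤ_[p]) * j (bil W y x) = (b : ℤ_[p]) := by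
    rw [← map_natCast j, ← map_mul, hTb, map_intCast]
  have hbilj : bil (fun a b => j (W a b)) y x = j (bil W y x) :=
    (map_bil j.toAddMonoidHom W _ _).symm
  have hjD : DegV (th (MM G n)) r fun a b => j (W a b) :=
    (hPSH (FreeMonoid (MM G n)) (MM G n) (Option (ConjClasses G)) (ZM M) ℤ_[p] (th (MM G n))
      j.toAddMonoidHom W).1 r hD
  -- (F1)
  have F1 : ¬(p : ℤ_[p]) ∣ j v := fun hd => by
    have h0 : (p : ℤ_[p]) ∣ (a : ℤ_[p]) := by
      rw [← hja]
      exact Dvd.dvd.mul_left hd _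
    have h1 := Int.natAbs_dvd_natAbs.2 ((padic_dvd_int _).1 h0)
    rw [Int.natAbs_natCast] at h1
    have h2 := Nat.le_of_dvd (Int.natAbs_pos.2 ha0) h1
    omega
  -- (F2)
  have F2 : ∀ C, some C ∈ SCL x y → powC p C ≠ ConjClasses.mk g := fun C hC h => by
    have h1 : InfC C := by
      rw [← infC_powC hp.ne_zero, h, infC_mk]
      exact hg
    have h2 : C ∈ S := (hS C).2 ⟨hC, h1⟩
    rw [← hrep C, powC_mk, ConjClasses.mk_eq_mk_iff_isConj] at h
    exact (hroots _ (hrepV C h2) g hgV).1 h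
  -- (F3)
  have F3 : ∀ m, (a : ZMod (p ^ (m + 1))) * gamVal MM.cl MM.cl_comm p m w
      (some (ConjClasses.mk g)) = (b : ZMod (p ^ (m + 1))) := fun m => by
    have h1 := (hVAL G n p m r hn hp2 w x y hL (ConjClasses.mk g) (j v) (fun a b => j (W a b))
      (hjW _ _ _ _ _ _ hW) hjD).1 F1
    rw [hbilj] at h1
    rw [← map_intCast (PadicInt.toZModPow (m + 1) : ℤ_[p] →+* ZMod (p ^ (m + 1))) a,
      ← map_intCast (PadicInt.toZModPow (m + 1) : ℤ_[p] →+* ZMod (p ^ (m + 1))) b, ← hja,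
      ← hjb, map_mul, map_mul, mul_assoc, h1]
  -- (F4)
  obtain ⟨v', W', hv'0, hW', hD'⟩ := hwp p hp (hcen g hgV) n hn
  have hKp : powC p (ConjClasses.mk g) = ConjClasses.mk (g ^ p) := powC_mk p g
  have hjD' : DegV (th (MM G n)) r fun a b => j (W' a b) :=
    (hPSH (FreeMonoid (MM G n)) (MM G n) (Option (ConjClasses G)) (ZM M) ℤ_[p] (th (MM G n))
      j.toAddMonoidHom W').1 r hD'
  have hwp' := hjW _ _ _ _ _ _ hW'
  obtain ⟨v'', hv'', -⟩ := (hRES G n p r (ConjClasses.mk (g ^ p)) (j v') (fun a b => j (W' a b))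
    hn hwp' hjD').2.1 (ConjClasses.mk g) hKp
  have hgp : ¬IsOfFinOrder (g ^ p) := by
    have h1 : InfC (powC p (ConjClasses.mk g)) := by
      rw [infC_powC hp.ne_zero, infC_mk]
      exact hg
    rw [hKp, infC_mk] at h1
    exact h1
  have hnot : some (ConjClasses.mk (g ^ p)) ∉ SCL x y := fun h => by
    have h2 : ConjClasses.mk (g ^ p) ∈ S := (hS _).2 ⟨h, (infC_mk _).2 hgp⟩
    have h3 := (hroots g hgV _ (hrepV _ h2)).1
    exact h3 (ConjClasses.mk_eq_mk_iff_isConj.1 (hrep (ConjClasses.mk (g ^ p))).symm)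
  have F4 : ∀ m, PadicInt.toZModPow (m + 1) v'' * (p * (a * gamVal MM.cl MM.cl_comm p m w
      (some (ConjClasses.mk (g ^ p)))) + (b : ZMod (p ^ (m + 1)))) = 0 := fun m => by
    have h1 := (hVAL G n p m r hn hp2 w x y hL (ConjClasses.mk (g ^ p)) (j v')
      (fun a b => j (W' a b)) hwp' hjD').2 {ConjClasses.mk g} v'' hv'' hnot (fun C => by
        rw [Finset.mem_singleton]
        refine ⟨fun h => ?_, fun h => ?_⟩
        · rw [h]
          exact ⟨hKS, hKp⟩
        · have h2 : InfC C := by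
            rw [← infC_powC hp.ne_zero, h.2, infC_mk]
            exact hgp
          have h3 : C ∈ S := (hS C).2 ⟨h.1, h2⟩
          have h4 := h.2
          rw [← hrep C, powC_mk, ConjClasses.mk_eq_mk_iff_isConj] at h4
          rw [← hrep C, ConjClasses.mk_eq_mk_iff_isConj]
          exact (hroots _ (hrepV C h3) g hgV).2 h4)
      (fun C hC C' hC' => by
        rw [Finset.mem_singleton.1 hC]
        exact F2 C' hC')
    rw [Finset.sum_singleton] at h1
    rw [← F3 m]
    have h3 : PadicInt.toZModPow (m + 1) v'' * (p * (a * gamVal MM.cl MM.cl_comm p m w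
        (some (ConjClasses.mk (g ^ p)))) + a * gamVal MM.cl MM.cl_comm p m w
        (some (ConjClasses.mk g))) = a * (PadicInt.toZModPow (m + 1) v'' *
          (p * gamVal MM.cl MM.cl_comm p m w (some (ConjClasses.mk (g ^ p))) +
          gamVal MM.cl MM.cl_comm p m w (some (ConjClasses.mk g)))) := by ring
    rw [h3, h1, mul_zero]
  -- (F5)
  have hv''0 : v'' ≠ 0 := fun h0 => by
    rw [h0, mul_zero] at hv''
    exact hv'0 (hj (hv''.trans (map_zero j).symm))
  have hd : (p : ℤ) ∣ b := dvd_of_forall' v'' _ hv''0 _ F4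
  have hb0 : b = 0 := by
    refine Int.eq_zero_of_abs_lt_dvd hd ?_
    have h1 : b.natAbs < p := by omega
    have h2 : (b.natAbs : ℤ) < p := by exact_mod_cast h1
    rwa [Int.natCast_natAbs] at h2
  rw [hb0, Int.cast_zero] at hTb
  rcases mul_eq_zero.1 hTb with h | h
  · exact absurd (by exact_mod_cast h) hT
  · exact h

end Pool.Agent.SUR
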