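import Pool.Agent.SUR.StQ

/-!
# Surjectivity in degree one for groups with unique roots: no bound on the size of the representations

Statements of the modules `DTS_XXX`, `theorem Pool.Agent.SUR.t_RXXX : s_RXXX` in
`Pool/Agent/SUR/RXXX.lean`. The condition `CentEulN` is the condition `CentEul` in which the size `n` of the
representation, respectively the power `n` of the Euler class, may depend on the element `g`. For groups
with unique `p`-th roots for all large primes `p` it suffices. Example: the automorphism group of a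
finitely generated free group.
-/

set_option autoImplicit false

universe u

namespace Pool.Agent.SUR

open Pool.Agent.WhK Finset

/-! ### Definitions -/

/-- weights of bounded degree at `g` and at the `g ^ p` with the same centraliser; the bound depends on
`g` -/
def WtN (G : Type u) [Group G] (M : ℕ) : Prop :=
  ∀ g : G, ¬IsOfFinOrder g → ∃ r : ℕ, WtG G M r g ∧ ∀ p : ℕ, p.Prime →
    (∀ h : G, h * g ^ p = g ^ p * h → h * g = g * h) → WtG G M r (g ^ p)

/-- the elements of infinite order have infinite order in some integral representation -/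
def LinSepZ (G : Type u) [Group G] : Prop :=
  ∀ x : G, ¬IsOfFinOrder x → ∃ (n : ℕ) (ρ : G →* Matrix (Fin n) (Fin n) ℤ), ¬IsOfFinOrder (ρ x)

/-- the augmentation ideal of the integral group ring, as a `ℤ`-submodule -/
noncomputable def IZ (π : Type*) [Group π] : Submodule ℤ (MonoidAlgebra ℤ π) :=
  Submodule.span ℤ {x | ∃ g : π, x = MonoidAlgebra.single g 1 - 1}

/-! ### The modules -/

/-- RWT (130 lines). Hypotheses: those of `t_LWE` (`Pool/Agent/SUR/LWE.lean`).
Proof. The proof of `QWT` (`StQ.lean`): `M` depends only on `F` and `S` (`NNF`, `M = 1` in positive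
characteristic), `r = n * n + n + 2` for the `n` of `g`. Case (a): `LWEx.of_rep` for `g`, and for `g ^ p` with
the restriction of `ρ` to the centraliser of `g ^ p` (contained in that of `g`). Case (b): `NilEuler` passes
from `c ^ j` to `(c ^ j) ^ p`, see `QWT`. -/
def s_RWT : Prop := ∀ (G : Type u) [Group G], CentEulN G → ∃ M : ℕ, 0 < M ∧ WtN G M

/-- RFEW (60 lines). Hypotheses `s_LRES`, `s_ANEQ`, `s_LPSH.{u, 0}`.
Proof. As `PNOR` (`StP.lean`), with a degree which depends on `y`. -/
def s_RFEW : Prop := ∀ (G : Type u) [Group G] (M : ℕ), 0 < M → WtN G M → FewRoots G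

/-- RVAN (200 lines). Hypotheses `s_QZERO`, `s_LREF`, `s_LRES`, `s_ANEQ`, `s_LPSH.{u, 0}`, `s_LLIFT`,
`s_LMONO`, `s_COH`.
Proof. `p₀ = max (max N M) 2`, `N` from `UniqExp`. Let `K` be the class of `g`. (1) By `UniqExp` there is at
most one class `C` with `powC p C = K`: if `c ^ p` and `c' ^ p` are conjugate to `g`, then, after
conjugation, `c ^ p = c' ^ p`. Let `r` be the degree for `g` in `WtN`, and if there is such a `C`, class of
`c`, the maximum of this and of the degree for `c`. Take `x, y` from `LLIFT` with depth `r + 1`, the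
weight `(v, W)` at `g` (`LMONO`), `j : ZM M →+* ℤ_[p]` from `ANEQ`. (2) `bil W y x = 0` by `QZERO`.
(3) `bil (pwA (j ∘ W) p) y x = 0`: by the third part of `LRES` with the set of the `C` with
`powC p C = K` and `some C ∈ SCL x y` (empty, or the one class `C`) it is `0` or
`bil (resWA (clF G n) (j ∘ W) p (some C)) y x`, and this is `j` of `bil R y x`,
`R = resWA (clF G n) W p (some C)`, a weight at `C` with values in `ZM M`, a nonzero constant (`p` times it
is `v`) and degree at most `r` (by `LRES`, since `j` is injective; or as in `ARES.lean`), so it is `0` by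
`QZERO` for `c` (`c` has infinite order). (4) By `LREF`, `toZModPow (m' + 1) (j v) * gamVal .. m' .. K = 0`
for all `m'`. End as in `t_LVANC` (`Pool/Agent/SUR/LVANC.lean`). -/
def s_RVAN : Prop := ∀ (G : Type u) [Group G] (M : ℕ), 0 < M → UniqExp G → PRoots G → WtN G M →
  ∃ p0 : ℕ, ∀ (p m : ℕ) [Fact p.Prime], p0 < p → ∀ n : ℕ, 0 < n →
  ∀ (w : (MonoidAlgebra ℤ (MM G n))ˣ) (K : ConjClasses G),
    (∀ g, ConjClasses.mk g = K → ¬IsOfFinOrder g) →
    gamVal MM.cl MM.cl_comm p m w (some K) = 0

/-- RARI (60 lines). Hypothesis `s_RVAN`.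
Proof. There is a prime `p` larger than `p0` and `2` with `M' ∣ p - 1` (`Nat.exists_prime_gt_modEq_one`, see
`Pool/Agent/SUR/AARI.lean`). `D = 1`: the value of `mapDomain` at the class of `c` is a sum of the
`gamVal .. (some K)` over classes `K` which map to the class of `c` (`mapDomain_eq_sum_of` in
`AARI.lean` or `ARIC.lean`); they have infinite order by the hypothesis on `c`. -/
def s_RARI : Prop := ∀ (G : Type u) [Group G] (M : ℕ), 0 < M → UniqExp G → PRoots G → WtN G M →
  ArithR G

/-- RLZ (40 lines).
Proof. `F = ULift ℚ`, `S = ∅`; compose `ρ` (restricted to the centraliser) with the ring homomorphism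
`ℤ → Subring.closure ∅`, which is injective. `0 < n` since `ρ x` has infinite order. -/
def s_RLZ : Prop := ∀ (G : Type u) [Group G], LinSepZ G → CentEulN G

/-- RGRF (100 lines). `I = IZ π`, `A = MonoidAlgebra ℤ π`. (`PGRF` over `ℤ`.)
Proof. Let `T` be a finite generating set with inverses, `V` the span of the `t - 1`, `t ∈ T`. By
`g h - 1 = (g - 1) (h - 1) + (g - 1) + (h - 1)` and induction over the generated subgroup
`I ≤ V ⊔ I ^ 2`, `V ≤ I`. So `I ^ k ≤ V ^ k ⊔ I ^ (k + 1)` for `k ≥ 1` and
`⊤ = 1 ⊔ I = 1 ⊔ V ⊔ ⋯ ⊔ V ^ (k - 1) ⊔ I ^ k` (`1` the span of the unit element), and the `V ^ i` are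
finitely generated (`Submodule.FG.pow`). -/
def s_RGRF : Prop := ∀ (π : Type u) [Group π], Group.FG π → ∀ k : ℕ, 1 ≤ k →
  Module.Finite ℤ (MonoidAlgebra ℤ π ⧸ IZ π ^ k)

/-- RLSZ (220 lines). Hypothesis `s_RGRF`. (`PLSA` over `ℤ`.)
Proof. (1) `RTN G`: for `x ≠ 1` take `ρ` with `ρ x ≠ 1` unitriangular; it has infinite order.
(2) `I = IZ π`, `A = MonoidAlgebra ℤ π`. `A I ^ k ⊆ I ^ k`, `I ^ k A ⊆ I ^ k` for `k ≥ 1`, automorphisms of
`π` preserve `I ^ k`. Let `L k` be the quotient of `A` by `{a | ∃ m > 0, m a ∈ I ^ k}`: finitely generated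
(`RGRF`) and torsion free, so free (`Module.free_of_finite_type_torsion_free'`). `MulAut π` acts on it;
choose a basis to get a homomorphism to `Matrix (Fin n) (Fin n) ℤ`. Let `x : MulAut π` have infinite
order and suppose that it has finite order in all these representations (`k ≥ 1`). Let `x ^ e`, `e > 0`,
act trivially on `L 2`, `η = x ^ e`. For all `a ∈ A` some multiple `m (η a - a)`, `m > 0`, is in `I ^ 2`; so
for `a ∈ I ^ k` some multiple of `η a - a` is in `I ^ (k + 1)`
(`η (a b) - a b = (η a - a) η b + a (η b - b)`); the same for `a` with a multiple in `I ^ k`. So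
`(η - 1) ^ k = 0` on `L k`; as `η` has finite order on `L k`, which is torsion free, `η = 1` on `L k`: if
`N = η - 1` is nilpotent and `(1 + N) ^ f = 1`, `f > 0`, let `N ^ i ≠ 0`, `N ^ (i + 1) = 0`, `i ≥ 1`; then
`0 = N ^ (i - 1) ((1 + N) ^ f - 1) = f N ^ i`, a contradiction. So for all `g`, `k` a multiple of `η g - g`
is in `I ^ k`. By `RTN` this gives `η g = g`: extend `ρ` to `A → Matrix (Fin m) (Fin m) ℤ`; it maps `I` to
strictly upper triangular matrices, so `I ^ m` to `0` (products: the entries `(i, j)` with `j - i < k` of an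
element of the image of `I ^ k` vanish). So `x ^ e = 1`, a contradiction. -/
def s_RLSZ : Prop := (∀ (G : Type u) [Group G], RTN G → LinSepZ G) ∧
  ∀ (π : Type u) [Group π], Group.FG π → RTN π → LinSepZ (MulAut π)

end Pool.Agent.SUR
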