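import Mathlib
import Pool.Agent.SUR.StR
import Pool.Agent.SUR.ARIC

/-!
# The arithmetic argument for groups with unique roots, weights whose degree depends on the element
-/

set_option autoImplicit false

universe u

namespace Pool.Agent.SUR

open Pool.Agent.WhK

theorem t_RARI (hVAN : s_RVAN.{u}) : s_RARI.{u} := by
  intro G _ M0 hM0 hU hP hW n hn w Γ _ π M hM
  obtain ⟨p0, hp0⟩ := hVAN G M0 hM0 hU hP hW
  obtain ⟨p, hp, hpB, hmod⟩ := Nat.exists_prime_gt_modEq_one (k := M) (p0 + 2) hM.ne'
  have hfact : Fact p.Prime := ⟨hp⟩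
  have hdvd : M ∣ p - 1 := (Nat.modEq_iff_dvd' hp.one_lt.le).1 hmod.symm
  refine ⟨p, hfact, by omega, hdvd, 1, one_pos, fun m c _ hc => ?_⟩
  rw [one_smul]
  rw [mapDomain_eq_sum_of (Option.map (ConjClasses.map π)) _ (some (ConjClasses.mk c)) ∅
    (fun x hx => absurd hx (Finset.notMem_empty x)), Finset.sum_empty]
  intro x hx _
  cases x with
  | none => exact absurd hx (by simp)
  | some K =>
    have hK : ConjClasses.map π K = ConjClasses.mk c := Option.some_injective _ hx
    refine hp0 p m (by omega) n hn w K fun g hg => hc g ?_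
    rw [← ConjClasses.mk_eq_mk_iff_isConj, ← hK, ← hg]
    rfl

end Pool.Agent.SUR
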