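import Pool.Agent.SUR.StR

/-!
Module DTS_FEW (MP_e40716_gt): weights of bounded degree exclude `p`-th roots for all large primes
`p`.
-/

set_option autoImplicit false

universe u

namespace Pool.Agent.SUR

open Pool.Agent.WhK Finset

namespace RFEW

/-- a rational number of `p`-adic norm less than one has a numerator divisible by `p` -/
theorem dvd_num {p : ℕ} [Fact p.Prime] {q : ℚ} (h : ‖(q : ℚ_[p])‖ < 1) : (p : ℤ) ∣ q.num := by
  rw [← Padic.norm_intCast_lt_one_iff]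
  have e : ((q.num : ℤ) : ℚ_[p]) = (q : ℚ_[p]) * ((q.den : ℤ) : ℚ_[p]) := by
    have h1 : (q.num : ℚ) = q * ((q.den : ℤ) : ℚ) := by
      have := Rat.mul_den_eq_num q
      push_cast
      exact this.symm
    have h2 := congrArg (fun t : ℚ => (t : ℚ_[p])) h1
    simpa only [Rat.cast_intCast, Rat.cast_mul] using h2
  rw [e, norm_mul]
  have h3 : ‖((q.den : ℤ) : ℚ_[p])‖ ≤ 1 := Padic.norm_int_le_one _
  calc ‖(q : ℚ_[p])‖ * ‖((q.den : ℤ) : ℚ_[p])‖ ≤ ‖(q : ℚ_[p])‖ * 1 :=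
        mul_le_mul_of_nonneg_left h3 (norm_nonneg _)
    _ < 1 := by rw [mul_one]; exact h

end RFEW

open RFEW in
/-- **DTS_FEW.** -/
theorem t_RFEW (hRES : s_LRES.{u}) (hNEQ : s_ANEQ.{u}) (hPSH : s_LPSH.{u, 0}) : s_RFEW.{u} := by
  intro G _ M hM hW x y hx
  by_cases hy : IsOfFinOrder y
  · refine Set.Finite.subset (Set.finite_empty) fun p hp => ?_
    obtain ⟨hp, hc⟩ := hp
    refine absurd ?_ hx
    obtain ⟨c, hc⟩ := isConj_iff.1 hc
    have h1 : IsOfFinOrder (x ^ p) := by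
      rw [isOfFinOrder_iff_pow_eq_one] at hy ⊢
      obtain ⟨n, hn, h2⟩ := hy
      refine ⟨n, hn, ?_⟩
      have h3 : x ^ p = c⁻¹ * y * (c⁻¹)⁻¹ := by rw [← hc]; group
      rw [h3, conj_pow, h2]
      group
    rw [isOfFinOrder_pow] at h1
    exact h1.resolve_right hp.ne_zero
  · obtain ⟨r, hG, -⟩ := hW y hy
    obtain ⟨v, W, hv, hwt, hdeg⟩ := hG 1 Nat.one_pos
    have hvq : (v : ℚ) ≠ 0 := fun h => hv (Subtype.ext h)
    have hnum : (v : ℚ).num ≠ 0 := Rat.num_ne_zero.2 hvq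
    have hf1 : {p : ℕ | p ∣ M}.Finite :=
      (Nat.divisors M).finite_toSet.subset fun p hp => by
        rw [Finset.mem_coe, Nat.mem_divisors]
        exact ⟨hp, hM.ne'⟩
    have hf2 : {p : ℕ | p ∣ (v : ℚ).num.natAbs}.Finite :=
      (Nat.divisors (v : ℚ).num.natAbs).finite_toSet.subset fun p hp => by
        rw [Finset.mem_coe, Nat.mem_divisors]
        exact ⟨hp, Int.natAbs_ne_zero.2 hnum⟩
    refine (hf1.union hf2).subset fun p hp => ?_
    obtain ⟨hp, hc⟩ := hp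
    by_cases hpM : p ∣ M
    · exact Or.inl hpM
    · refine Or.inr ?_
      have : Fact p.Prime := ⟨hp⟩
      obtain ⟨j, -, hjv, hjW⟩ := hNEQ M p hM hpM
      have hjD : DegV (th (MM G 1)) r fun a b => j (W a b) :=
        (hPSH (FreeMonoid (MM G 1)) (MM G 1) (Option (ConjClasses G)) (ZM M) ℤ_[p] (th (MM G 1))
          j.toAddMonoidHom W).1 r hdeg
      have hK : powC p (ConjClasses.mk x) = ConjClasses.mk y := by
        show ConjClasses.mk (x ^ p) = ConjClasses.mk y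
        exact ConjClasses.mk_eq_mk_iff_isConj.2 hc
      obtain ⟨v', hv', -⟩ := (hRES G 1 p r (ConjClasses.mk y) (j v) (fun a b => j (W a b))
        Nat.one_pos (hjW _ _ _ _ _ _ hwt) hjD).2.1 (ConjClasses.mk x) hK
      have h1 : ‖((v : ℚ) : ℚ_[p])‖ < 1 := by
        rw [← hjv v, ← PadicInt.norm_def, hv', norm_mul]
        have h2 : ‖(p : ℤ_[p])‖ < 1 := by
          rw [PadicInt.norm_p]
          exact inv_lt_one_of_one_lt₀ (by exact_mod_cast hp.one_lt)
        calc ‖(p : ℤ_[p])‖ * ‖v'‖ ≤ ‖(p : ℤ_[p])‖ * 1 :=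
              mul_le_mul_of_nonneg_left (PadicInt.norm_le_one _) (norm_nonneg _)
          _ < 1 := by rw [mul_one]; exact h2
      exact Int.natCast_dvd.1 (dvd_num h1)

end Pool.Agent.SUR
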