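import Pool.Agent.SUR.StR

/-!
# Integral group rings modulo powers of the augmentation ideal are finitely generated

`t_RGRF : s_RGRF`.
-/

set_option autoImplicit false

universe u

namespace Pool.Agent.SUR.RGRF

open Pool.Agent.WhK Finset

variable {π : Type u} [Group π]

/-- the span of the `t - 1`, `t ∈ T` -/
noncomputable def VZ (T : Finset π) : Submodule ℤ (MonoidAlgebra ℤ π) :=
  Submodule.span ℤ {x | ∃ t ∈ T, x = MonoidAlgebra.single t 1 - 1}

lemma VZ_le (T : Finset π) : VZ T ≤ IZ π :=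
  Submodule.span_mono (by rintro x ⟨t, _, rfl⟩; exact ⟨t, rfl⟩)

lemma VZ_fg (T : Finset π) : (VZ T).FG := by
  refine Submodule.fg_span ?_
  exact (T.finite_toSet.image (fun t => (MonoidAlgebra.single t (1 : ℤ) : MonoidAlgebra ℤ π) - 1)).subset
    (by rintro x ⟨t, ht, rfl⟩; exact ⟨t, ht, rfl⟩)

lemma mem_IZ (g : π) : (MonoidAlgebra.single g (1 : ℤ) : MonoidAlgebra ℤ π) - 1 ∈ IZ π :=
  Submodule.subset_span ⟨g, rfl⟩

lemma mul_sub (g h : π) : (MonoidAlgebra.single (g * h) (1 : ℤ) : MonoidAlgebra ℤ π) - 1 =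
    (MonoidAlgebra.single g 1 - 1) * (MonoidAlgebra.single h 1 - 1) +
      (MonoidAlgebra.single g 1 - 1) + (MonoidAlgebra.single h 1 - 1) := by
  have : (MonoidAlgebra.single (g * h) (1 : ℤ) : MonoidAlgebra ℤ π) =
      MonoidAlgebra.single g 1 * MonoidAlgebra.single h 1 := by
    rw [MonoidAlgebra.single_mul_single, one_mul]
  rw [this]
  noncomm_ring

lemma IZ_le (T : Finset π) (hT : Subgroup.closure (T : Set π) = ⊤) : IZ π ≤ VZ T ⊔ IZ π ^ 2 := by
  have key : ∀ g : π, (MonoidAlgebra.single g (1 : ℤ) : MonoidAlgebra ℤ π) - 1 ∈ VZ T ⊔ IZ π ^ 2 := by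
    intro g
    have hg : g ∈ Subgroup.closure (T : Set π) := by rw [hT]; trivial
    have hm : ∀ a b : π, (MonoidAlgebra.single a (1 : ℤ) - 1 : MonoidAlgebra ℤ π) *
        (MonoidAlgebra.single b 1 - 1) ∈ VZ T ⊔ IZ π ^ 2 := by
      intro a b
      refine (le_sup_right : IZ π ^ 2 ≤ _) ?_
      rw [pow_two]
      exact Submodule.mul_mem_mul (mem_IZ a) (mem_IZ b)
    induction hg using Subgroup.closure_induction with
    | mem x hx =>
      exact (le_sup_left : VZ T ≤ _) (Submodule.subset_span ⟨x, hx, rfl⟩)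
    | one =>
      have : (MonoidAlgebra.single (1 : π) (1 : ℤ) : MonoidAlgebra ℤ π) - 1 = 0 := by
        rw [← MonoidAlgebra.one_def, sub_self]
      rw [this]
      exact Submodule.zero_mem _
    | mul a b _ _ ha hb =>
      rw [mul_sub]
      exact Submodule.add_mem _ (Submodule.add_mem _ (hm a b) ha) hb
    | inv a _ ha =>
      have h1 := mul_sub a a⁻¹
      rw [mul_inv_cancel, ← MonoidAlgebra.one_def, sub_self] at h1
      have h2 : (MonoidAlgebra.single a⁻¹ (1 : ℤ) : MonoidAlgebra ℤ π) - 1 =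
          -((MonoidAlgebra.single a (1 : ℤ) - 1 : MonoidAlgebra ℤ π) *
            (MonoidAlgebra.single a⁻¹ 1 - 1) + (MonoidAlgebra.single a 1 - 1)) := by
        rw [eq_neg_iff_add_eq_zero, add_comm]
        exact h1.symm
      rw [h2]
      exact Submodule.neg_mem _ (Submodule.add_mem _ (hm _ _) ha)
  refine Submodule.span_le.2 ?_
  rintro x ⟨g, rfl⟩
  exact key g

lemma pow_le (T : Finset π) (hT : Subgroup.closure (T : Set π) = ⊤) (k : ℕ) :
    IZ π ^ k ≤ VZ T ^ k ⊔ IZ π ^ (k + 1) := by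
  induction k with
  | zero => simp
  | succ k ih =>
    have h1 : VZ T ^ k * IZ π ≤ VZ T ^ (k + 1) ⊔ IZ π ^ (k + 1 + 1) := by
      calc VZ T ^ k * IZ π ≤ VZ T ^ k * (VZ T ⊔ IZ π ^ 2) := mul_le_mul' le_rfl (IZ_le T hT)
        _ = VZ T ^ (k + 1) ⊔ VZ T ^ k * IZ π ^ 2 := by rw [Submodule.mul_sup, ← pow_succ]
        _ ≤ VZ T ^ (k + 1) ⊔ IZ π ^ k * IZ π ^ 2 :=
            sup_le_sup le_rfl (mul_le_mul' (pow_le_pow_left' (VZ_le T) k) le_rfl)
        _ = VZ T ^ (k + 1) ⊔ IZ π ^ (k + 1 + 1) := by rw [← pow_add]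
    calc IZ π ^ (k + 1) = IZ π ^ k * IZ π := pow_succ _ _
      _ ≤ (VZ T ^ k ⊔ IZ π ^ (k + 1)) * IZ π := mul_le_mul' ih le_rfl
      _ = VZ T ^ k * IZ π ⊔ IZ π ^ (k + 1 + 1) := by rw [Submodule.sup_mul, ← pow_succ]
      _ ≤ VZ T ^ (k + 1) ⊔ IZ π ^ (k + 1 + 1) := sup_le h1 le_sup_right

lemma top_le_one : (⊤ : Submodule ℤ (MonoidAlgebra ℤ π)) ≤ 1 ⊔ IZ π := by
  intro x _
  induction x using MonoidAlgebra.induction_on with
  | of g =>
    have h : (MonoidAlgebra.of ℤ π g : MonoidAlgebra ℤ π) = 1 + (MonoidAlgebra.single g 1 - 1) := by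
      rw [MonoidAlgebra.of_apply]; abel
    rw [h]
    exact Submodule.add_mem _ ((le_sup_left : (1 : Submodule ℤ (MonoidAlgebra ℤ π)) ≤ _)
      (Submodule.one_le.1 le_rfl)) ((le_sup_right : IZ π ≤ _) (mem_IZ g))
  | add a b ha hb => exact Submodule.add_mem _ (ha trivial) (hb trivial)
  | smul r a ha => exact Submodule.smul_mem _ r (ha trivial)

lemma exists_W (T : Finset π) (hT : Subgroup.closure (T : Set π) = ⊤) (k : ℕ) :
    ∃ W : Submodule ℤ (MonoidAlgebra ℤ π), W.FG ∧ W ⊔ IZ π ^ (k + 1) = ⊤ := by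
  induction k with
  | zero =>
    refine ⟨1, ?_, ?_⟩
    · simpa using (VZ_fg T).pow 0
    · rw [zero_add, pow_one]
      exact top_le_iff.1 top_le_one
  | succ k ih =>
    obtain ⟨W, hW, h⟩ := ih
    refine ⟨W ⊔ VZ T ^ (k + 1), hW.sup ((VZ_fg T).pow _), top_le_iff.1 ?_⟩
    calc (⊤ : Submodule ℤ (MonoidAlgebra ℤ π)) = W ⊔ IZ π ^ (k + 1) := h.symm
      _ ≤ W ⊔ (VZ T ^ (k + 1) ⊔ IZ π ^ (k + 1 + 1)) := sup_le_sup le_rfl (pow_le T hT _)
      _ = W ⊔ VZ T ^ (k + 1) ⊔ IZ π ^ (k + 1 + 1) := (sup_assoc _ _ _).symm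

lemma finite_quot {R : Type} [Ring R] {A : Type u} [AddCommGroup A] [Module R A]
    (W N : Submodule R A) (hW : W.FG) (h : W ⊔ N = ⊤) : Module.Finite R (A ⧸ N) := by
  rw [Module.finite_def]
  have h1 : Submodule.map N.mkQ W = ⊤ := by
    have h2 : Submodule.map N.mkQ (W ⊔ N) = ⊤ := by
      rw [h, Submodule.map_top, Submodule.range_mkQ]
    rwa [Submodule.map_sup, Submodule.mkQ_map_self, sup_bot_eq] at h2
  rw [← h1]
  exact hW.map _

end Pool.Agent.SUR.RGRF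

namespace Pool.Agent.SUR

theorem t_RGRF : s_RGRF.{u} := by
  intro π _ hfg k hk
  obtain ⟨T, hT⟩ := hfg.out
  obtain ⟨m, rfl⟩ : ∃ m, k = m + 1 := ⟨k - 1, by omega⟩
  obtain ⟨W, hW, h⟩ := RGRF.exists_W T hT m
  have h2 := RGRF.finite_quot W _ hW h
  convert h2

end Pool.Agent.SUR
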