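import Pool.Agent.SUR.StR

/-!
# Automorphism groups of residually torsion-free nilpotent groups: integral representations

`t_RLSZ : s_RGRF → s_RLSZ`.
-/

set_option autoImplicit false

universe u

namespace Pool.Agent.SUR.RLSZ

open Pool.Agent.WhK Finset

/-! ### Unipotent elements of finite order -/

lemma binom2 {R : Type*} [Ring R] (N : R) (f : ℕ) :
    ∃ q : R, (1 + N) ^ f = 1 + (f : R) * N + N * N * q := by
  induction f with
  | zero => exact ⟨0, by simp⟩
  | succ f ih =>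
    obtain ⟨q, hq⟩ := ih
    refine ⟨q + (f : R) + q * N, ?_⟩
    rw [pow_succ, hq]
    have hc : (f : R) * N = N * (f : R) := (Nat.cast_commute f N).eq
    push_cast
    have h1 : (f : R) * N * N = N * N * (f : R) := by
      rw [hc, mul_assoc, hc, ← mul_assoc]
    noncomm_ring
    have h2 : (f : R) * (N * N) = N * (N * (f : R)) := by
      rw [← mul_assoc, h1, mul_assoc]
    rw [h2]
    abel

lemma nil_tors {R : Type*} [Ring R] (htf : ∀ (f : ℕ) (a : R), f ≠ 0 → (f : R) * a = 0 → a = 0)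
    {N : R} (hN : IsNilpotent N) {f : ℕ} (hf : f ≠ 0) (h : (1 + N) ^ f = 1) : N = 0 := by
  classical
  by_contra hne
  have hex : ∃ k, N ^ k = 0 := hN
  have hk := Nat.find_spec hex
  have hk2 : 2 ≤ Nat.find hex := by
    by_contra h2
    have h3 : Nat.find hex = 0 ∨ Nat.find hex = 1 := by omega
    rcases h3 with h3 | h3
    · rw [h3, pow_zero] at hk
      exact hne (by rw [← mul_one N, hk, mul_zero])
    · rw [h3, pow_one] at hk
      exact hne hk
  obtain ⟨i, hi⟩ : ∃ i, Nat.find hex = i + 2 := ⟨Nat.find hex - 2, by omega⟩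
  have hmin : N ^ (i + 1) ≠ 0 := Nat.find_min hex (by omega)
  rw [hi] at hk
  obtain ⟨q, hq⟩ := binom2 N f
  rw [h] at hq
  have h1 : (f : R) * N + N * N * q = 0 := by
    have := hq.symm
    rw [add_assoc] at this
    exact left_eq_add.1 this.symm
  have h2 : (f : R) * N ^ (i + 1) = 0 := by
    have h3 : N ^ i * ((f : R) * N + N * N * q) = 0 := by rw [h1, mul_zero]
    have h4 : N ^ i * ((f : R) * N) = (f : R) * N ^ (i + 1) := by
      rw [← mul_assoc, (Nat.cast_commute f (N ^ i)).eq.symm, mul_assoc, ← pow_succ]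
    have h5 : N ^ i * (N * N * q) = 0 := by
      rw [← mul_assoc, ← mul_assoc, ← pow_succ, ← pow_succ, show i + 1 + 1 = i + 2 by ring, hk,
        zero_mul]
    rw [mul_add, h4, h5, add_zero] at h3
    exact h3
  exact hmin (htf f _ hf h2)

/-- strictly upper triangular up to the diagonal `k` -/
def Up {m : ℕ} (k : ℕ) (B : Matrix (Fin m) (Fin m) ℤ) : Prop :=
  ∀ i j : Fin m, (j : ℕ) < i + k → B i j = 0

lemma Up.mul {m k l : ℕ} {B C : Matrix (Fin m) (Fin m) ℤ} (hB : Up k B) (hC : Up l C) :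
    Up (k + l) (B * C) := by
  intro i j hij
  rw [Matrix.mul_apply]
  refine Finset.sum_eq_zero fun t _ => ?_
  by_cases h : (t : ℕ) < i + k
  · rw [hB i t h, zero_mul]
  · rw [hC t j (by omega), mul_zero]

lemma Up.zero {m k : ℕ} (hk : m ≤ k) {B : Matrix (Fin m) (Fin m) ℤ} (hB : Up k B) : B = 0 := by
  ext i j
  exact hB i j (by have := j.2; omega)

lemma Up.pow {m : ℕ} {B : Matrix (Fin m) (Fin m) ℤ} (hB : Up 1 B) (k : ℕ) : Up k (B ^ k) := by
  induction k with
  | zero =>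
    intro i j hij
    have hne : i ≠ j := by
      rintro rfl
      omega
    rw [pow_zero, Matrix.one_apply_ne hne]
  | succ k ih =>
    rw [pow_succ]
    exact ih.mul hB

lemma mat_tf {m : ℕ} (f : ℕ) (a : Matrix (Fin m) (Fin m) ℤ) (hf : f ≠ 0)
    (h : (f : Matrix (Fin m) (Fin m) ℤ) * a = 0) : a = 0 := by
  rw [← nsmul_eq_mul] at h
  ext i j
  have h1 := congrFun (congrFun h i) j
  simp only [Matrix.smul_apply, Matrix.zero_apply, nsmul_eq_mul] at h1 ⊢
  rcases mul_eq_zero.1 h1 with h2 | h2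
  · exact absurd (by exact_mod_cast h2) hf
  · exact h2

lemma up_sub {m : ℕ} {B : Matrix (Fin m) (Fin m) ℤ}
    (hB : ∀ i j, j ≤ i → B i j = if i = j then 1 else 0) : Up 1 (B - 1) := by
  intro i j hij
  have h1 : j ≤ i := by
    rw [Fin.le_def]; omega
  rw [Matrix.sub_apply, hB i j h1, Matrix.one_apply, sub_self]

lemma part1 (G : Type u) [Group G] (hG : RTN G) : LinSepZ G := by
  intro x hx
  have hx1 : x ≠ 1 := by
    rintro rfl
    exact hx IsOfFinOrder.one
  obtain ⟨m, ρ, hρ, hne⟩ := hG x hx1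
  refine ⟨m, ρ, fun hfin => ?_⟩
  obtain ⟨f, hf, hf1⟩ := isOfFinOrder_iff_pow_eq_one.1 hfin
  have hU : Up 1 (ρ x - 1) := up_sub (hρ x)
  have hnil : IsNilpotent (ρ x - 1) := ⟨m, (hU.pow m).zero le_rfl⟩
  have h0 := nil_tors mat_tf hnil hf.ne' (by rw [add_sub_cancel]; exact hf1)
  exact hne (sub_eq_zero.1 h0)

/-! ### The action on the quotients -/

section

variable {π : Type u} [Group π]

/-- the action on the group ring -/
noncomputable def aH (φ : MulAut π) : MonoidAlgebra ℤ π →ₐ[ℤ] MonoidAlgebra ℤ π :=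
  MonoidAlgebra.mapDomainAlgHom ℤ ℤ (φ : π →* π)

lemma aH_single (φ : MulAut π) (g : π) (r : ℤ) :
    aH φ (MonoidAlgebra.single g r) = MonoidAlgebra.single (φ g) r := by
  unfold aH
  simp

lemma aH_one : aH (1 : MulAut π) = AlgHom.id ℤ _ := by
  refine MonoidAlgebra.algHom_ext (fun g => ?_) (Subsingleton.elim _ _)
  rw [aH_single]
  rfl

lemma aH_mul (φ ψ : MulAut π) : aH (φ * ψ) = (aH φ).comp (aH ψ) := by
  refine MonoidAlgebra.algHom_ext (fun g => ?_) (Subsingleton.elim _ _)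
  rw [AlgHom.comp_apply, aH_single, aH_single, aH_single]
  rfl

lemma map_IZ (φ : MulAut π) : (IZ π).map (aH φ).toLinearMap ≤ IZ π := by
  unfold IZ
  rw [Submodule.map_span_le]
  rintro x ⟨g, rfl⟩
  refine Submodule.subset_span ⟨φ g, ?_⟩
  rw [AlgHom.toLinearMap_apply, map_sub, map_one, aH_single]

lemma map_IZ_pow (φ : MulAut π) (k : ℕ) : (IZ π ^ k).map (aH φ).toLinearMap ≤ IZ π ^ k := by
  have h : (IZ π ^ k).map (aH φ).toLinearMap = ((IZ π).map (aH φ).toLinearMap) ^ k :=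
    Submodule.map_pow _ _ k
  rw [h]
  exact pow_le_pow_left' (map_IZ φ) k

lemma aH_mem (φ : MulAut π) {k : ℕ} {a : MonoidAlgebra ℤ π} (ha : a ∈ IZ π ^ k) :
    aH φ a ∈ IZ π ^ k :=
  map_IZ_pow φ k (Submodule.mem_map_of_mem (f := (aH φ).toLinearMap) ha)

/-- the elements with a multiple in the power of the augmentation ideal -/
def JJ (π : Type u) [Group π] (k : ℕ) : Submodule ℤ (MonoidAlgebra ℤ π) where
  carrier := {a | ∃ m : ℕ, 0 < m ∧ m • a ∈ IZ π ^ k}
  zero_mem' := ⟨1, one_pos, by simp⟩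
  add_mem' := by
    rintro a b ⟨m, hm, ha⟩ ⟨n, hn, hb⟩
    refine ⟨m * n, Nat.mul_pos hm hn, ?_⟩
    rw [smul_add]
    refine Submodule.add_mem _ ?_ ?_
    · rw [mul_comm, mul_smul]
      exact Submodule.smul_of_tower_mem _ n ha
    · rw [mul_smul]
      exact Submodule.smul_of_tower_mem _ m hb
  smul_mem' := by
    rintro r a ⟨m, hm, ha⟩
    refine ⟨m, hm, ?_⟩
    rw [smul_comm]
    exact Submodule.smul_mem _ r ha

lemma mem_JJ {k : ℕ} {a : MonoidAlgebra ℤ π} :
    a ∈ JJ π k ↔ ∃ m : ℕ, 0 < m ∧ m • a ∈ IZ π ^ k := Iff.rfl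

lemma le_JJ (k : ℕ) : IZ π ^ k ≤ JJ π k := fun a ha => ⟨1, one_pos, by rwa [one_smul]⟩

lemma JJ_pure {k : ℕ} {a : MonoidAlgebra ℤ π} {n : ℕ} (hn : 0 < n) (h : n • a ∈ JJ π k) :
    a ∈ JJ π k := by
  obtain ⟨m, hm, h1⟩ := h
  exact ⟨m * n, Nat.mul_pos hm hn, by rwa [mul_smul]⟩

lemma aH_mem_JJ (φ : MulAut π) {k : ℕ} {a : MonoidAlgebra ℤ π} (ha : a ∈ JJ π k) :
    aH φ a ∈ JJ π k := by
  obtain ⟨m, hm, h1⟩ := ha
  exact ⟨m, hm, by rw [← map_nsmul]; exact aH_mem φ h1⟩

lemma JJ_mul {k l : ℕ} {a b : MonoidAlgebra ℤ π} (ha : a ∈ JJ π k) (hb : b ∈ IZ π ^ l) :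
    a * b ∈ JJ π (k + l) := by
  obtain ⟨m, hm, h1⟩ := ha
  refine ⟨m, hm, ?_⟩
  rw [← smul_mul_assoc, pow_add]
  exact Submodule.mul_mem_mul h1 hb

lemma mul_JJ {k l : ℕ} {a b : MonoidAlgebra ℤ π} (ha : a ∈ IZ π ^ k) (hb : b ∈ JJ π l) :
    a * b ∈ JJ π (k + l) := by
  obtain ⟨m, hm, h1⟩ := hb
  refine ⟨m, hm, ?_⟩
  rw [← mul_smul_comm, pow_add]
  exact Submodule.mul_mem_mul ha h1

/-- the lattices -/
abbrev LL (π : Type u) [Group π] (k : ℕ) : Type u := MonoidAlgebra ℤ π ⧸ JJ π k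

lemma LL_finite (hG : s_RGRF.{u}) (hfg : Group.FG π) {k : ℕ} (hk : 1 ≤ k) :
    Module.Finite ℤ (LL π k) := by
  have := hG π hfg k hk
  exact Module.Finite.of_surjective (Submodule.factor (le_JJ k)) (Submodule.factor_surjective _)

lemma LL_tf {k : ℕ} (n : ℕ) (hn : n ≠ 0) (a : LL π k) (h : n • a = 0) : a = 0 := by
  obtain ⟨a, rfl⟩ := Submodule.Quotient.mk_surjective _ a
  rw [← Submodule.Quotient.mk_smul, Submodule.Quotient.mk_eq_zero] at h
  rw [Submodule.Quotient.mk_eq_zero]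
  exact JJ_pure (Nat.pos_of_ne_zero hn) h

instance {k : ℕ} : Module.IsTorsionFree ℤ (LL π k) := by
  refine Module.IsTorsionFree.of_smul_eq_zero fun r a h => ?_
  by_cases hr : r = 0
  · exact Or.inl hr
  · right
    refine LL_tf r.natAbs (by omega) a ?_
    rcases Int.natAbs_eq r with h1 | h1
    · rw [← Nat.cast_smul_eq_nsmul ℤ, ← h1]; exact h
    · rw [h1, neg_smul, neg_eq_zero] at h
      rw [← Nat.cast_smul_eq_nsmul ℤ]; exact h

/-- the action on the lattices -/
noncomputable def act (π : Type u) [Group π] (k : ℕ) : MulAut π →* Module.End ℤ (LL π k) where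
  toFun φ := Submodule.mapQ _ _ (aH φ).toLinearMap (fun _ ha => aH_mem_JJ φ ha)
  map_one' := by
    refine Submodule.linearMap_qext _ ?_
    ext a
    simp [aH_one]
  map_mul' φ ψ := by
    refine Submodule.linearMap_qext _ (LinearMap.ext fun a => ?_)
    show Submodule.Quotient.mk (aH (φ * ψ) a) = Submodule.Quotient.mk (aH φ (aH ψ a))
    rw [aH_mul, AlgHom.comp_apply]

lemma act_mk (k : ℕ) (φ : MulAut π) (a : MonoidAlgebra ℤ π) :
    act π k φ (Submodule.Quotient.mk a) = Submodule.Quotient.mk (aH φ a) := rfl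

lemma end_tf {k : ℕ} (f : ℕ) (a : Module.End ℤ (LL π k)) (hf : f ≠ 0)
    (h : (f : Module.End ℤ (LL π k)) * a = 0) : a = 0 := by
  rw [← nsmul_eq_mul] at h
  refine LinearMap.ext fun v => ?_
  have h1 := LinearMap.congr_fun h v
  rw [LinearMap.smul_apply, LinearMap.zero_apply] at h1
  exact LL_tf f hf _ h1

/-- if all matrices have finite order then so do all the actions -/
lemma fin_act (hG : s_RGRF.{u}) (hfg : Group.FG π) (x : MulAut π)
    (hx : ∀ (n : ℕ) (ρ : MulAut π →* Matrix (Fin n) (Fin n) ℤ), IsOfFinOrder (ρ x)) {k : ℕ}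
    (hk : 1 ≤ k) : IsOfFinOrder (act π k x) := by
  have := LL_finite hG hfg hk
  have b := Module.finBasis ℤ (LL π k)
  have h := hx _ ((LinearMap.toMatrixAlgEquiv b).toAlgHom.toRingHom.toMonoidHom.comp (act π k))
  have h1 : IsOfFinOrder ((LinearMap.toMatrixAlgEquiv b) (act π k x)) := h
  exact ((LinearMap.toMatrixAlgEquiv b).toMulEquiv.injective.isOfFinOrder_iff
    (f := (LinearMap.toMatrixAlgEquiv b).toMulEquiv.toMonoidHom)).1 h1

lemma act_pow_sub {η : MulAut π} (h2 : ∀ a : MonoidAlgebra ℤ π, aH η a - a ∈ JJ π 2) (k : ℕ) :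
    ∀ a ∈ IZ π ^ k, aH η a - a ∈ JJ π (k + 1) := by
  induction k with
  | zero =>
    intro a ha
    obtain ⟨m, hm, h⟩ := h2 a
    rw [pow_zero, Submodule.one_eq_span, Submodule.mem_span_singleton] at ha
    obtain ⟨r, rfl⟩ := ha
    rw [map_smul, map_one, sub_self]
    exact Submodule.zero_mem _
  | succ k ih =>
    intro a ha
    rw [pow_succ] at ha
    refine Submodule.mul_induction_on ha ?_ ?_
    · intro a ha b hb
      have h : aH η (a * b) - a * b = (aH η a - a) * aH η b + a * (aH η b - b) := by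
        rw [map_mul]; noncomm_ring
      rw [h]
      refine Submodule.add_mem _ ?_ ?_
      · exact JJ_mul (ih a ha) (by rw [pow_one]; simpa using aH_mem η (k := 1) (by simpa using hb))
      · have := mul_JJ ha (h2 b)
        exact this
    · intro a b ha hb
      have h : aH η (a + b) - (a + b) = (aH η a - a) + (aH η b - b) := by
        rw [map_add]; abel
      rw [h]
      exact Submodule.add_mem _ ha hb

lemma act_sub_JJ {η : MulAut π} (h2 : ∀ a : MonoidAlgebra ℤ π, aH η a - a ∈ JJ π 2) {k : ℕ}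
    {a : MonoidAlgebra ℤ π} (ha : a ∈ JJ π k) : aH η a - a ∈ JJ π (k + 1) := by
  obtain ⟨m, hm, h⟩ := ha
  refine JJ_pure hm ?_
  rw [smul_sub, ← map_nsmul]
  exact act_pow_sub h2 k _ h

lemma nil_act {η : MulAut π} (h2 : ∀ a : MonoidAlgebra ℤ π, aH η a - a ∈ JJ π 2) (k : ℕ) :
    IsNilpotent (act π (k + 2) η - 1) := by
  refine ⟨k + 1, ?_⟩
  have key : ∀ (i : ℕ) (a : MonoidAlgebra ℤ π), ∃ b ∈ JJ π (i + 2),
      ((act π (k + 2) η - 1) ^ (i + 1)) (Submodule.Quotient.mk a) = Submodule.Quotient.mk b := by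
    intro i
    induction i with
    | zero =>
      intro a
      refine ⟨aH η a - a, h2 a, ?_⟩
      rw [zero_add, pow_one, LinearMap.sub_apply, act_mk, Module.End.one_apply]
      rfl
    | succ i ih =>
      intro a
      obtain ⟨b, hb, h⟩ := ih a
      refine ⟨aH η b - b, act_sub_JJ h2 hb, ?_⟩
      rw [pow_succ', Module.End.mul_apply, h, LinearMap.sub_apply, act_mk, Module.End.one_apply]
      rfl
  refine LinearMap.ext fun v => ?_
  obtain ⟨a, rfl⟩ := Submodule.Quotient.mk_surjective _ v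
  obtain ⟨b, hb, h⟩ := key k a
  rw [h, LinearMap.zero_apply, Submodule.Quotient.mk_eq_zero]
  exact hb

/-- the extension of a unitriangular representation -/
noncomputable def ext {m : ℕ} (ρ : π →* Matrix (Fin m) (Fin m) ℤ) :
    MonoidAlgebra ℤ π →ₐ[ℤ] Matrix (Fin m) (Fin m) ℤ :=
  MonoidAlgebra.lift ℤ _ π ρ

lemma ext_single {m : ℕ} (ρ : π →* Matrix (Fin m) (Fin m) ℤ) (g : π) :
    ext ρ (MonoidAlgebra.single g 1) = ρ g := by
  unfold ext
  simp

/-- the upper triangular matrices as a submodule -/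
def UpS (m k : ℕ) : Submodule ℤ (Matrix (Fin m) (Fin m) ℤ) where
  carrier := {B | Up k B}
  zero_mem' := fun _ _ _ => rfl
  add_mem' := by
    intro a b ha hb i j hij
    rw [Matrix.add_apply, ha i j hij, hb i j hij, add_zero]
  smul_mem' := by
    intro r a ha i j hij
    rw [Matrix.smul_apply, ha i j hij, smul_zero]

lemma map_ext_pow {m : ℕ} (ρ : π →* Matrix (Fin m) (Fin m) ℤ)
    (hρ : ∀ h i j, j ≤ i → ρ h i j = if i = j then 1 else 0) (k : ℕ) :
    ∀ a ∈ IZ π ^ k, Up k (ext ρ a) := by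
  have h1 : (IZ π).map (ext ρ).toLinearMap ≤ UpS m 1 := by
    unfold IZ
    rw [Submodule.map_span_le]
    rintro x ⟨g, rfl⟩
    show Up 1 _
    rw [AlgHom.toLinearMap_apply, map_sub, map_one, ext_single]
    exact up_sub (hρ g)
  induction k with
  | zero =>
    intro a ha
    rw [pow_zero, Submodule.one_eq_span, Submodule.mem_span_singleton] at ha
    obtain ⟨r, rfl⟩ := ha
    rw [map_smul, map_one]
    intro i j hij
    have hne : i ≠ j := by
      rintro rfl
      omega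
    rw [Matrix.smul_apply, Matrix.one_apply_ne hne, smul_zero]
  | succ k ih =>
    intro a ha
    rw [pow_succ] at ha
    refine Submodule.mul_induction_on ha ?_ ?_
    · intro a ha b hb
      rw [map_mul]
      exact (ih a ha).mul (h1 (Submodule.mem_map_of_mem (f := (ext ρ).toLinearMap) hb))
    · intro a b ha hb
      rw [map_add]
      exact (UpS m (k + 1)).add_mem ha hb

lemma part2 (hG : s_RGRF.{u}) (hfg : Group.FG π) (hT : RTN π) : LinSepZ (MulAut π) := by
  intro x hx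
  by_contra hcon
  push Not at hcon
  have hfin : ∀ (n : ℕ) (ρ : MulAut π →* Matrix (Fin n) (Fin n) ℤ), IsOfFinOrder (ρ x) := hcon
  obtain ⟨e, he, he1⟩ := isOfFinOrder_iff_pow_eq_one.1
    (fin_act hG hfg x hfin (k := 2) (by norm_num))
  have h2 : ∀ a : MonoidAlgebra ℤ π, aH (x ^ e) a - a ∈ JJ π 2 := by
    intro a
    have h := LinearMap.congr_fun he1 (Submodule.Quotient.mk a)
    rw [← map_pow, act_mk, Module.End.one_apply] at h
    exact (Submodule.Quotient.eq _).1 h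
  have h3 : ∀ (k : ℕ) (a : MonoidAlgebra ℤ π), aH (x ^ e) a - a ∈ JJ π (k + 2) := by
    intro k a
    have hf := (fin_act hG hfg x hfin (k := k + 2) (by omega)).pow (n := e)
    rw [← map_pow] at hf
    obtain ⟨f, hf0, hf1⟩ := isOfFinOrder_iff_pow_eq_one.1 hf
    have h := nil_tors end_tf (nil_act h2 k) hf0.ne' (by rw [add_sub_cancel]; exact hf1)
    have h4 := LinearMap.congr_fun h (Submodule.Quotient.mk a)
    rw [LinearMap.sub_apply, act_mk, Module.End.one_apply, LinearMap.zero_apply, sub_eq_zero] at h4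
    exact (Submodule.Quotient.eq _).1 h4
  refine hx (isOfFinOrder_iff_pow_eq_one.2 ⟨e, he, ?_⟩)
  refine MulEquiv.ext fun g => ?_
  by_contra hne
  have hy : (x ^ e) g * g⁻¹ ≠ 1 := by
    intro h
    exact hne (mul_inv_eq_one.1 h)
  obtain ⟨m, ρ, hρ, hρ1⟩ := hT _ hy
  obtain ⟨M, hM, h4⟩ := h3 m (MonoidAlgebra.single g 1)
  have h5 := (map_ext_pow ρ hρ _ _ h4).zero (by omega)
  rw [map_nsmul, map_sub, aH_single, ext_single, ext_single] at h5
  have h6 : ρ ((x ^ e) g) - ρ g = 0 := by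
    refine mat_tf M _ hM.ne' ?_
    rw [← nsmul_eq_mul]
    exact h5
  refine hρ1 ?_
  rw [map_mul, sub_eq_zero.1 h6, ← map_mul, mul_inv_cancel, map_one]

end

end Pool.Agent.SUR.RLSZ

namespace Pool.Agent.SUR

theorem t_RLSZ (hG : s_RGRF.{u}) : s_RLSZ.{u} :=
  ⟨fun G _ h => RLSZ.part1 G h, fun _ _ hfg hT => RLSZ.part2 hG hfg hT⟩

end Pool.Agent.SUR
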