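import Pool.Agent.SUR.StR

/-!
# Integral representations in which the elements of infinite order have infinite order
-/

set_option autoImplicit false
set_option maxHeartbeats 4000000

universe u

namespace Pool.Agent.SUR

namespace RLZ

lemma inj_cast : Function.Injective
    (Int.castRingHom (Subring.closure (∅ : Set (ULift.{u} ℚ)))) := by
  intro a b h
  have h1 : ((a : Subring.closure (∅ : Set (ULift.{u} ℚ))) : ULift.{u} ℚ) =
      ((b : Subring.closure (∅ : Set (ULift.{u} ℚ))) : ULift.{u} ℚ) := congrArg Subtype.val h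
  have h2 : (a : ULift.{u} ℚ) = (b : ULift.{u} ℚ) := by simpa using h1
  have h3 : (a : ℚ) = (b : ℚ) := by
    have := congrArg ULift.down h2
    simpa using this
  exact_mod_cast h3

end RLZ

open RLZ in
theorem t_RLZ : s_RLZ.{u} := by
  intro G _ hG
  refine ⟨ULift.{u} ℚ, inferInstance, ∅, Set.finite_empty, ?_⟩
  intro g hg
  obtain ⟨n, ρ, hρ⟩ := hG g hg
  refine ⟨n, ?_, Or.inl ⟨((Int.castRingHom
    (Subring.closure (∅ : Set (ULift.{u} ℚ)))).mapMatrix.toMonoidHom).comp
      (ρ.comp (Subgroup.subtype _)), ?_⟩⟩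
  · rcases Nat.eq_zero_or_pos n with h | h
    · subst h
      exact absurd (isOfFinOrder_iff_pow_eq_one.2 ⟨1, one_pos, Subsingleton.elim _ _⟩) hρ
    · exact h
  · intro h
    apply hρ
    rw [isOfFinOrder_iff_pow_eq_one] at h ⊢
    obtain ⟨k, hk, h⟩ := h
    refine ⟨k, hk, ?_⟩
    have hinj : Function.Injective ((Int.castRingHom
        (Subring.closure (∅ : Set (ULift.{u} ℚ)))).mapMatrix (m := Fin n)) := by
      intro A B hAB
      ext i j
      exact inj_cast (congrFun (congrFun hAB i) j)
    apply hinj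
    rw [map_pow, map_one]
    exact h

end Pool.Agent.SUR
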