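import Pool.Agent.SUR.St2

/-!
# SUR_VANC: the integral logarithm vanishes at the classes outside of the finite set `SC`, for
groups with homomorphisms of centralisers
-/

set_option autoImplicit false

universe u

namespace Pool.Agent.SUR

open Pool.Agent.WhK

namespace VANCx

theorem eq_unit_of_cl {G : Type u} [Group G] {n : ℕ} {a : MM G n} {K : ConjClasses G}
    (h : MM.cl a = some K) : ∃ (i : Fin n) (g : G), a = .unit i i g ∧ ConjClasses.mk g = K := by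
  cases a with
  | one => exact absurd h (by simp [MM.cl])
  | zero => exact absurd h (by simp [MM.cl])
  | unit i j g =>
    by_cases hij : i = j
    · subst hij
      refine ⟨i, g, rfl, ?_⟩
      simpa [MM.cl] using h
    · exact absurd h (by simp [MM.cl, hij])

theorem bil_eq_zero_of {X A : Type*} [AddCommGroup A] (F : X → X → A) (x y : MonoidAlgebra ℤ X)
    (h : ∀ a ∈ x.coeff.support, ∀ b ∈ y.coeff.support, F a b = 0) : bil F x y = 0 := by
  unfold bil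
  refine Finset.sum_eq_zero fun a ha => Finset.sum_eq_zero fun b hb => ?_
  show (_ * _ : ℤ) • F a b = 0
  rw [h a ha b hb, smul_zero]

/-- The iterated form of the coherence. -/
theorem coh_iter (hCOH : s_COH.{u}) (𝔐 K : Type u) [Monoid 𝔐] (cl : 𝔐 → K)
    (hcl : ∀ a b, cl (a * b) = cl (b * a)) (p m : ℕ) [Fact p.Prime] (hp : p ≠ 2)
    (w : (MonoidAlgebra ℤ 𝔐)ˣ) (k : K) (j : ℕ) (hj : p ^ (m + 1) ∣ p ^ (m + j + 1)) :
    ZMod.castHom hj (ZMod (p ^ (m + 1))) (gamVal cl hcl p (m + j) w k) =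
      gamVal cl hcl p m w k := by
  induction j with
  | zero =>
    have h : ZMod.castHom hj (ZMod (p ^ (m + 1))) = RingHom.id _ := Subsingleton.elim _ _
    rw [h]
    rfl
  | succ j ih =>
    have h1 : p ^ (m + 1) ∣ p ^ (m + j + 1) := pow_dvd_pow p (by omega)
    rw [← ih h1, ← hCOH 𝔐 K cl hcl p (m + j) hp w k]
    have h2 : ZMod.castHom hj (ZMod (p ^ (m + 1))) =
        (ZMod.castHom h1 (ZMod (p ^ (m + 1)))).comp
          (ZMod.castHom (pow_dvd_pow p (Nat.le_succ (m + j + 1))) (ZMod (p ^ (m + j + 1)))) :=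
      Subsingleton.elim _ _
    rw [h2]
    rfl

/-- Divisibility. -/
theorem cast_eq_zero (p m j : ℕ) [hpf : Fact p.Prime] (c : ℤ) (hc : ¬(p : ℤ) ∣ c)
    (a : ZMod (p ^ (m + j + 1))) (h : (((p : ℤ) ^ j * c : ℤ) : ZMod (p ^ (m + j + 1))) * a = 0)
    (hj : p ^ (m + 1) ∣ p ^ (m + j + 1)) :
    ZMod.castHom hj (ZMod (p ^ (m + 1))) a = 0 := by
  have hpp : p.Prime := hpf.out
  obtain ⟨n, rfl⟩ := ZMod.intCast_surjective a
  rw [← Int.cast_mul, ZMod.intCast_zmod_eq_zero_iff_dvd] at h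
  have hp0 : (p : ℤ) ^ j ≠ 0 := pow_ne_zero _ (by exact_mod_cast hpp.ne_zero)
  have h1 : (p : ℤ) ^ j * (p : ℤ) ^ (m + 1) ∣ (p : ℤ) ^ j * (c * n) := by
    have e1 : (((p ^ (m + j + 1) : ℕ)) : ℤ) = (p : ℤ) ^ j * (p : ℤ) ^ (m + 1) := by
      push_cast
      rw [← pow_add]
      congr 1
      omega
    rw [← e1, ← mul_assoc]
    exact h
  have h2 : (p : ℤ) ^ (m + 1) ∣ c * n := (mul_dvd_mul_iff_left hp0).1 h1
  have hcop : IsCoprime ((p : ℤ) ^ (m + 1)) c :=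
    IsCoprime.pow_left (((Nat.prime_iff_prime_int.1 hpp).coprime_iff_not_dvd.2 hc))
  have h3 : (p : ℤ) ^ (m + 1) ∣ n := hcop.dvd_of_dvd_mul_left h2
  rw [map_intCast, ZMod.intCast_zmod_eq_zero_iff_dvd]
  exact_mod_cast h3

end VANCx

theorem t_VANC (hCOH : s_COH.{u}) (hREF : s_REF.{u}) (hCOC : s_COC.{u}) (hRES : s_RES.{u}) :
    s_VANC.{u} := by
  intro G _ hG n hn w
  refine ⟨2, fun p m _ hp2 K hK hSC hpow => ?_⟩
  have hp : p ≠ 2 := by omega
  have hpp : p.Prime := Fact.out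
  obtain ⟨h, hmk⟩ := ConjClasses.mk_surjective K
  obtain ⟨f, hf0⟩ := hG h (hK h hmk)
  set v : ℤ := (f ⟨h, Subgroup.mem_centralizer_singleton_iff.2 rfl⟩).toAdd with hv
  have hfm : FiniteMultiplicity (p : ℤ) v :=
    Int.finiteMultiplicity_iff.2 ⟨by simpa using hpp.one_lt.ne', hf0⟩
  obtain ⟨c, hc1, hc2⟩ := hfm.exists_eq_pow_mul_and_not_dvd
  set j := multiplicity (p : ℤ) v
  obtain ⟨W, hW⟩ := hCOC G n h f
  have hW' : WtAt MM.cl (some K) v W := by rw [← hmk]; exact hW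
  have hb1 : bil W (w⁻¹ : (MonoidAlgebra ℤ (MM G n))ˣ).val w.val = 0 := by
    refine VANCx.bil_eq_zero_of _ _ _ fun a ha b hb => ?_
    by_contra hab
    exact hSC ⟨a, ha, b, hb, hW'.2.1 a b hab⟩
  obtain ⟨-, -, -, h4, -⟩ := hRES G n p K v W hn hpp hW'
  have hb2 : bil (pw W p) (w⁻¹ : (MonoidAlgebra ℤ (MM G n))ˣ).val w.val = 0 := by
    rw [h4 ∅ _ _ (by simp) (fun a ha b hb C hC hCK =>
      absurd hCK (hpow C ⟨a, ha, b, hb, hC⟩))]
    simp
  obtain ⟨e, he1, he2⟩ := hREF (MM G n) (Option (ConjClasses G)) MM.cl MM.cl_comm (some K) v W hW'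
    p (m + j) hp 0 v (Nat.zero_le _) (by rw [pow_zero, one_mul]) w
  rw [hb1, hb2, sub_zero, pow_zero, one_mul] at he1
  rw [he1, Int.cast_zero, hc1] at he2
  have hj : p ^ (m + 1) ∣ p ^ (m + j + 1) := pow_dvd_pow p (by omega)
  rw [← VANCx.coh_iter hCOH (MM G n) (Option (ConjClasses G)) MM.cl MM.cl_comm p m hp w (some K) j
    hj]
  exact VANCx.cast_eq_zero p m j c hc2 _ he2 hj

end Pool.Agent.SUR
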