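import Pool.Agent.SUR.StR
import Pool.Agent.SUR.VANC
import Pool.Agent.SUR.Bil

/-!
# DTS_VAN: for groups with unique `p`-th roots for large `p` the integral logarithm vanishes at all
classes of infinite order, for `p` larger than a bound which depends only on the group
-/

set_option autoImplicit false

universe u

namespace Pool.Agent.SUR

open Pool.Agent.WhK Finset

namespace RVAN

theorem wtG_mono (hMONO : s_LMONO.{u}) {G : Type u} [Group G] {M r r' : ℕ} {g : G} (h : r ≤ r')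
    (hg : WtG G M r g) : WtG G M r' g := by
  intro n hn
  obtain ⟨v, W, hv, hW, hD⟩ := hg n hn
  exact ⟨v, W, hv, hW, hMONO (FreeMonoid (MM G n)) (MM G n) (ZM M) (th (MM G n)) r r' W h hD⟩

/-- `p`-th roots of classes are unique -/
theorem powC_inj {G : Type u} [Group G] {p : ℕ} (h : ∀ x y : G, x ^ p = y ^ p → x = y)
    {C C' : ConjClasses G} (hC : powC p C = powC p C') : C = C' := by
  obtain ⟨c, rfl⟩ := ConjClasses.exists_rep C
  obtain ⟨c', rfl⟩ := ConjClasses.exists_rep C'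
  have h1 : IsConj (c ^ p) (c' ^ p) := ConjClasses.mk_eq_mk_iff_isConj.1 hC
  obtain ⟨d, hd⟩ := isConj_iff.1 h1
  refine ConjClasses.mk_eq_mk_iff_isConj.2 (isConj_iff.2 ⟨d, h _ _ ?_⟩)
  rw [conj_pow, hd]

theorem map_altS {A B : Type*} [AddCommGroup A] [AddCommGroup B] {K : ℕ} (φ : A →+ B)
    (f : (Fin K → Bool) → A) : altS (fun ε => φ (f ε)) = φ (altS f) := by
  unfold altS
  rw [map_sum]
  exact Finset.sum_congr rfl fun ε _ => (map_zsmul φ _ _).symm

theorem degV_of_map {𝔐 𝔔 A B : Type*} [Monoid 𝔐] [Monoid 𝔔] [AddCommGroup A] [AddCommGroup B]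
    {θ : 𝔐 →* 𝔔} {r : ℕ} {W : 𝔐 → 𝔐 → A} (φ : A →+ B) (hφ : Function.Injective φ)
    (h : DegV θ r fun a b => φ (W a b)) : DegV θ r W := by
  intro c c' hc hc'
  have h1 := h c c' hc hc'
  rw [map_altS φ fun ε => W (c ε) (c' ε)] at h1
  exact hφ (h1.trans (map_zero φ).symm)

theorem wtAtA_of_map {𝔐 K A B : Type*} [Monoid 𝔐] [AddCommGroup A] [AddCommGroup B]
    {cl : 𝔐 → K} {k : K} {v : B} {W : 𝔐 → 𝔐 → A} (φ : A →+ B) (hφ : Function.Injective φ)
    (h : WtAtA cl k v fun a b => φ (W a b)) (a₀ : 𝔐) (ha₀ : cl a₀ = k) :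
    φ (W 1 a₀) = v ∧ WtAtA cl k (W 1 a₀) W := by
  obtain ⟨h1, h2, h3⟩ := h
  refine ⟨h3 a₀ ha₀, ?_, ?_, ?_⟩
  · intro a b c
    apply hφ
    rw [map_add]
    exact h1 a b c
  · intro a b hab
    refine h2 a b fun h0 => hab (hφ (h0.trans (map_zero φ).symm))
  · intro a ha
    exact hφ ((h3 a ha).trans (h3 a₀ ha₀).symm)

theorem map_resWA {𝔐 K A B : Type*} [Monoid 𝔐] [AddCommGroup A] [AddCommGroup B]
    (cl : 𝔐 → K) (W : 𝔐 → 𝔐 → A) (φ : A →+ B) (p : ℕ) (c : K) :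
    resWA cl (fun a b => φ (W a b)) p c = fun a b => φ (resWA cl W p c a b) := by
  funext a b
  unfold resWA pwA
  split_ifs
  · rfl
  · rw [map_zero]

/-- the pull back of a weight with values in `ZM M` at a class with `powC p C = K` -/
theorem res (hRES : s_LRES.{u}) (hPSH : s_LPSH.{u, 0}) {G : Type u} [Group G] {M n p r : ℕ}
    [Fact p.Prime] (hn : 0 < n) {K C : ConjClasses G} {v : ZM M}
    {W : FreeMonoid (MM G n) → FreeMonoid (MM G n) → ZM M} (hv : v ≠ 0)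
    (j : ZM M →+* ℤ_[p]) (hj : Function.Injective j)
    (hW : WtAtA (clF G n) (some K) (j v) fun a b => j (W a b))
    (hD : DegV (th (MM G n)) r W) (hC : powC p C = K) :
    ∃ v' : ZM M, v' ≠ 0 ∧ WtAtA (clF G n) (some C) v' (resWA (clF G n) W p (some C)) ∧
      DegV (th (MM G n)) r (resWA (clF G n) W p (some C)) := by
  have hjD : DegV (th (MM G n)) r fun a b => j (W a b) :=
    (hPSH (FreeMonoid (MM G n)) (MM G n) (Option (ConjClasses G)) (ZM M) ℤ_[p] (th (MM G n))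
      j.toAddMonoidHom W).1 r hD
  obtain ⟨v₁, hv₁, hR, hRD⟩ :=
    (hRES G n p r K (j v) (fun a b => j (W a b)) hn hW hjD).2.1 C hC
  have hmap := map_resWA (clF G n) W (j.toAddMonoidHom) p (some C)
  have hR' : WtAtA (clF G n) (some C) v₁
      fun a b => j.toAddMonoidHom (resWA (clF G n) W p (some C) a b) := by
    rw [← hmap]
    exact hR
  have hRD' : DegV (th (MM G n)) r
      fun a b => j.toAddMonoidHom (resWA (clF G n) W p (some C) a b) := by
    rw [← hmap]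
    exact hRD
  obtain ⟨c, hc⟩ := ConjClasses.exists_rep C
  have ha₀ : clF G n (FreeMonoid.of (MM.unit ⟨0, hn⟩ ⟨0, hn⟩ c : MM G n)) = some C := by
    unfold clF th
    rw [FreeMonoid.lift_eval_of]
    simp [MM.cl, ← hc]
  obtain ⟨h1, h2⟩ := wtAtA_of_map j.toAddMonoidHom hj hR' _ ha₀
  refine ⟨_, ?_, h2, degV_of_map j.toAddMonoidHom hj hRD'⟩
  intro h0
  rw [h0, map_zero] at h1
  rw [← h1, mul_zero] at hv₁
  exact hv (hj (hv₁.trans (map_zero j).symm))

end RVAN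

theorem t_RVAN (hQZERO : s_QZERO.{u}) (hREF : s_LREF.{u}) (hRES : s_LRES.{u})
    (hNEQ : s_ANEQ.{u}) (hPSH : s_LPSH.{u, 0}) (hLIFT : s_LLIFT.{u}) (hMONO : s_LMONO.{u})
    (hCOH : s_COH.{u}) : s_RVAN.{u} := by
  intro G _ M hM hU hPR hWN
  obtain ⟨N, hN⟩ := hU
  refine ⟨max (max N M) 2, fun p m _ hp0 n hn w K hK => ?_⟩
  have hpp : p.Prime := Fact.out
  have hpN : N < p := lt_of_le_of_lt ((le_max_left N M).trans (le_max_left _ _)) hp0
  have hpM : M < p := lt_of_le_of_lt ((le_max_right N M).trans (le_max_left _ _)) hp0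
  have hp2 : p ≠ 2 := (lt_of_le_of_lt (le_max_right _ _) hp0).ne'
  have hpd : ¬p ∣ M := fun h => absurd (Nat.le_of_dvd hM h) (by omega)
  obtain ⟨g, hg⟩ := ConjClasses.exists_rep K
  have hg' : ConjClasses.mk g = K := hg
  have hginf := hK g hg'
  obtain ⟨r₁, hW₁, hP₁⟩ := hWN g hginf
  -- the degree and the classes with `powC p C = K`
  obtain ⟨r, S, hr₁, hS, hS', hSc⟩ : ∃ (r : ℕ) (S : Finset (ConjClasses G)), r₁ ≤ r ∧
      (∀ C ∈ S, powC p C = K) ∧ (∀ C, powC p C = K → C ∈ S) ∧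
      ∀ C ∈ S, ∃ c, ConjClasses.mk c = C ∧ ¬IsOfFinOrder c ∧ ∀ q : ℕ, q.Prime →
        (∀ h : G, h * c ^ q = c ^ q * h → h * c = c * h) → WtG G M r (c ^ q) := by
    by_cases hex : ∃ C : ConjClasses G, powC p C = K
    · obtain ⟨C, hC⟩ := hex
      obtain ⟨c, hc⟩ := ConjClasses.exists_rep C
      have hc' : ConjClasses.mk c = C := hc
      have hcinf : ¬IsOfFinOrder c := fun h => by
        refine hK (c ^ p) ?_ h.pow
        rw [← hC, ← hc']
        rfl
      obtain ⟨r₂, -, hP₂⟩ := hWN c hcinf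
      refine ⟨max r₁ r₂, {C}, le_max_left _ _, ?_, ?_, ?_⟩
      · intro C' hC'
        rw [Finset.mem_singleton] at hC'
        rw [hC', hC]
      · intro C' hC'
        rw [Finset.mem_singleton]
        exact RVAN.powC_inj (hN p hpp hpN) (hC'.trans hC.symm)
      · intro C' hC'
        rw [Finset.mem_singleton] at hC'
        subst hC'
        exact ⟨c, hc', hcinf, fun q hq h => RVAN.wtG_mono hMONO (le_max_right _ _) (hP₂ q hq h)⟩
    · exact ⟨r₁, ∅, le_refl _, by simp, fun C hC => absurd ⟨C, hC⟩ hex, by simp⟩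
  obtain ⟨x, y, hL⟩ := hLIFT (MM G n) w (r + 1) (Nat.succ_pos r)
  obtain ⟨v₀, W₀, hv00, hWg, hD₀⟩ := RVAN.wtG_mono hMONO hr₁ hW₁ n hn
  obtain ⟨i, hinj, -, hi3⟩ := hNEQ M p hM hpd
  have hWK : WtAtA (clF G n) (some K) v₀ W₀ := by rw [← hg']; exact hWg
  have hW := hi3 (FreeMonoid (MM G n)) (Option (ConjClasses G)) (clF G n) (some K) v₀ W₀ hWK
  have hD := (hPSH (FreeMonoid (MM G n)) (MM G n) (Option (ConjClasses G)) (ZM M) ℤ_[p]
    (th (MM G n)) (i : ZM M →+ ℤ_[p]) W₀).1 r hD₀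
  have hz1 : bil W₀ y x = 0 :=
    hQZERO G M r hM hPR g hginf (fun q hq h => RVAN.wtG_mono hMONO hr₁ (hP₁ q hq h)) n hn w x y hL
      v₀ W₀ hv00 hWg hD₀
  set W : FreeMonoid (MM G n) → FreeMonoid (MM G n) → ℤ_[p] := fun a b => i (W₀ a b) with hWdef
  have hD' : DegV (th (MM G n)) r W := hD
  have hv0 : i v₀ ≠ 0 := fun h0 => hv00 (hinj (by rw [h0, map_zero]))
  set j := (i v₀).valuation
  have hspec : i v₀ = (PadicInt.unitCoeff hv0 : ℤ_[p]) * (p : ℤ_[p]) ^ j :=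
    PadicInt.unitCoeff_spec hv0
  have hb1 : bil W y x = 0 := by
    have h := map_bil (i : ZM M →+ ℤ_[p]) W₀ y x
    rw [hz1, map_zero] at h
    exact h.symm
  obtain ⟨-, -, h4, -⟩ := hRES G n p r K (i v₀) W hn hW hD'
  have hb2 : bil (pwA W p) y x = 0 := by
    rw [h4 S _ _ hS (fun a ha b hb C hC hCK => hS' C hCK)]
    refine Finset.sum_eq_zero fun C hC => ?_
    obtain ⟨c, hc, hcinf, hcP⟩ := hSc C hC
    obtain ⟨v', hv', hR, hRD⟩ := RVAN.res hRES hPSH hn hv00 i hinj hW hD₀ (hS C hC)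
    rw [← hc] at hR hRD ⊢
    have hz := hQZERO G M r hM hPR c hcinf hcP n hn w x y hL v' _ hv' hR hRD
    have hmap : resWA (clF G n) W p (some (ConjClasses.mk c)) =
        fun a b => (i : ZM M →+ ℤ_[p]) (resWA (clF G n) W₀ p (some (ConjClasses.mk c)) a b) :=
      RVAN.map_resWA (clF G n) W₀ (i : ZM M →+ ℤ_[p]) p (some (ConjClasses.mk c))
    rw [hmap, ← map_bil (i : ZM M →+ ℤ_[p]), hz, map_zero]
  have he := hREF G n p (m + j) r hp2 w x y hL K (i v₀) W hW hD'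
  rw [hb1, hb2, sub_zero, map_zero, hspec, map_mul, map_pow, map_natCast, mul_assoc] at he
  have hu : IsUnit (PadicInt.toZModPow (m + j + 1) (PadicInt.unitCoeff hv0 : ℤ_[p])) :=
    (PadicInt.unitCoeff hv0).isUnit.map (PadicInt.toZModPow (m + j + 1))
  have he2 := (IsUnit.mul_right_eq_zero hu).1 he
  have hj : p ^ (m + 1) ∣ p ^ (m + j + 1) := pow_dvd_pow p (by omega)
  have hone : ¬(p : ℤ) ∣ 1 := by
    intro h1
    have h2 := Int.natCast_dvd_natCast.1 (by simpa using h1 : (p : ℤ) ∣ ((1 : ℕ) : ℤ))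
    exact hpp.one_lt.ne' (Nat.dvd_one.1 h2)
  rw [← VANCx.coh_iter hCOH (MM G n) (Option (ConjClasses G)) MM.cl MM.cl_comm p m hp2 w (some K) j
    hj]
  refine VANCx.cast_eq_zero p m j 1 hone _ ?_ hj
  rw [mul_one]
  push_cast
  exact he2

end Pool.Agent.SUR
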