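import Pool.Agent.SUR.StL

/-!
# LWT: weights for groups whose centralisers have linear representations
-/

set_option autoImplicit false

universe u

namespace Pool.Agent.SUR

open Pool.Agent.WhK Finset

namespace LWTx

/-- matrices with entries in a subring as matrices over the field -/
def inc {F : Type*} [Field F] (A : Subring F) (n : ℕ) :
    Matrix (Fin n) (Fin n) A →+* Matrix (Fin n) (Fin n) F :=
  A.subtype.mapMatrix

theorem inc_injective {F : Type*} [Field F] (A : Subring F) (n : ℕ) :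
    Function.Injective (inc A n) := by
  intro x y h
  ext i j
  have h1 := congrFun (congrFun h i) j
  exact h1

/-- a matrix with a unipotent power has finite order in positive characteristic -/
theorem pow_eq_one {F : Type*} [Field F] (p : ℕ) (hp : p.Prime) [CharP F p] (n : ℕ)
    (A : Matrix (Fin n) (Fin n) F) (h : IsNilpotent (A - 1)) : ∃ k : ℕ, 0 < k ∧ A ^ k = 1 := by
  obtain ⟨k, hk⟩ := h
  refine ⟨p ^ k, pow_pos hp.pos k, ?_⟩
  have hc : Commute (A - 1) (1 : Matrix (Fin n) (Fin n) F) := Commute.one_right _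
  obtain ⟨r, hr⟩ := hc.exists_add_pow_prime_pow_eq hp k
  have h0 : (p : Matrix (Fin n) (Fin n) F) = 0 := by
    have h1 : (p : Matrix (Fin n) (Fin n) F) = algebraMap F (Matrix (Fin n) (Fin n) F) (p : F) :=
      (map_natCast _ p).symm
    rw [h1, CharP.cast_eq_zero F p, map_zero]
  have h2 : (A - 1) ^ p ^ k = 0 := by
    have h3 : k ≤ p ^ k := (Nat.lt_pow_self hp.one_lt).le
    rw [← Nat.sub_add_cancel h3, pow_add, hk, mul_zero]
  rw [sub_add_cancel, h2, h0, zero_mul, zero_mul, zero_mul, add_zero, zero_add, one_pow] at hr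
  exact hr

theorem isB_hom {Z : Type*} [Group Z] {M : ℕ} (c : Z) (f : Z →* Multiplicative ℤ) :
    IsB c (((f c).toAdd : ℤ) : ZM M) (fun _ t => (((f t).toAdd : ℤ) : ZM M)) where
  mul w t s := by
    show (((f (t * s)).toAdd : ℤ) : ZM M) = _
    rw [map_mul, toAdd_mul, Int.cast_add]
  val w := rfl
  inv w t := rfl

end LWTx

open LWTx in
/-- the weights for one element: the integer `M` depends only on the finite set `S` -/
theorem wt_of_rep (hCORE : s_LCORE.{u, u}) (hCORE0 : s_LCORE.{u, 0}) (hPSH : s_LPSH.{u, u})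
    (hPOW : s_LPOW.{u}) (hTRA : s_LTRA.{u}) (hALG : s_LALG.{u, u}) (hEIG : s_LEIG.{u})
    (hNNF : s_NNF.{u}) (F : Type u) [Field F] (S : Set F) (hS : S.Finite) :
    ∃ M : ℕ, 0 < M ∧ ∀ (G : Type u) [Group G] (n : ℕ) (g : G)
      (ρ : Subgroup.centralizer {g} →* Matrix (Fin n) (Fin n) (Subring.closure S)),
      ¬IsOfFinOrder (ρ ⟨g, Subgroup.mem_centralizer_singleton_iff.2 rfl⟩) → ∀ N : ℕ,
      ∃ (v : ZM M) (W : FreeMonoid (MM G N) → FreeMonoid (MM G N) → ZM M), v ≠ 0 ∧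
        WtAtA (clF G N) (some (ConjClasses.mk g)) v W ∧ DegV (th (MM G N)) (n * n + 2) W := by
  obtain ⟨M, hM, hψ⟩ : ∃ M : ℕ, 0 < M ∧ (CharZero F → ∀ ν ∈ Subring.closure S, ν ≠ 0 →
      ∃ ψ : Subring.closure S →+ ZM M, ∀ h : ν ∈ Subring.closure S, ψ ⟨ν, h⟩ ≠ 0) := by
    by_cases hc : CharZero F
    · obtain ⟨M, hM, h⟩ := hNNF F S hS
      exact ⟨M, hM, fun _ => h⟩
    · exact ⟨1, one_pos, fun h => absurd h hc⟩
  refine ⟨M, hM, fun G _ n g ρ hρg N => ?_⟩
  set c : Subgroup.centralizer {g} := ⟨g, Subgroup.mem_centralizer_singleton_iff.2 rfl⟩ with hcdef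
  have hcen : ∀ z : Subgroup.centralizer {g}, c * z = z * c := fun z =>
    Subtype.ext (Subgroup.mem_centralizer_singleton_iff.1 z.2).symm
  let ρF : Subgroup.centralizer {g} →* Matrix (Fin n) (Fin n) F :=
    (inc (Subring.closure S) n).toMonoidHom.comp ρ
  have hρF : ∀ z, ρF z = inc (Subring.closure S) n (ρ z) := fun z => rfl
  by_cases h : ∀ k : ℕ, 0 < k → ¬IsNilpotent (ρF c ^ k - 1)
  · -- a homomorphism to the integers
    obtain ⟨f, hf⟩ := hEIG F S hS n (Subgroup.centralizer {g}) c hcen ρF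
      (fun z i j => (ρ z i j).2) h
    obtain ⟨W, hW, hD⟩ := hCORE0 (Subgroup.centralizer {g}) (ZM M) c hcen _ _
      (isB_hom (M := M) c f) (n * n + 1) Unit (fun _ _ => 1) (fun _ t => (((f t).toAdd : ℤ) : ZM M))
      (by simp) (fun w t => by simp)
    obtain ⟨W', hW', hD'⟩ := hTRA G (ZM M) N (n * n + 1 + 1) g _ W hW hD
    refine ⟨_, W', ?_, hW', hD'⟩
    have h1 : (((f c).toAdd : ℤ) : ZM M) ≠ 0 := Int.cast_ne_zero.2 hf
    exact mul_ne_zero (Nat.cast_ne_zero.2 (Nat.factorial_ne_zero _)) (pow_ne_zero _ h1)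
  · -- a power is unipotent
    push Not at h
    obtain ⟨k, hk, hnil⟩ := h
    have hinf : ∀ j : ℕ, 0 < j → ρ c ^ j ≠ 1 := fun j hj h1 =>
      hρg (isOfFinOrder_iff_pow_eq_one.2 ⟨j, hj, h1⟩)
    have hchar : CharZero F := by
      by_contra hc
      obtain ⟨p, hp⟩ := CharP.exists F
      have hp0 : p ≠ 0 := fun h0 => hc (by
        rw [h0] at hp
        exact CharP.charP_to_charZero F)
      have hpp : p.Prime := (CharP.char_is_prime_or_zero F p).resolve_right hp0
      obtain ⟨j, hj, hj1⟩ := pow_eq_one p hpp n (ρF c ^ k) hnil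
      refine hinf (k * j) (Nat.mul_pos hk hj) (inc_injective (Subring.closure S) n ?_)
      rw [map_pow, map_one, pow_mul]
      exact hj1
    have hcen' : ∀ z, c ^ k * z = z * c ^ k := fun z =>
      (Commute.pow_left (hcen z : Commute c z) k).eq
    have hnil' : IsNilpotent (ρ (c ^ k) - 1) := by
      obtain ⟨j, hj⟩ := hnil
      refine ⟨j, inc_injective (Subring.closure S) n ?_⟩
      rw [map_pow, map_sub, map_one, map_zero, map_pow, map_pow]
      exact hj
    have hne : ρ (c ^ k) ≠ 1 := by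
      rw [map_pow]
      exact hinf k hk
    obtain ⟨v, B, X, Y, hv, hB, hXY⟩ := hALG (Subring.closure S) n (Subgroup.centralizer {g}) (c ^ k)
      hcen' ρ hnil' hne
    obtain ⟨W, hW, hD⟩ := hCORE (Subgroup.centralizer {g}) (Subring.closure S) (c ^ k) hcen' v B hB
      (n * n + 1) (Fin n × Fin n) X Y (by simp) hXY
    have hchar' : CharZero (Subring.closure S) := by
      refine ⟨fun a b hab => ?_⟩
      have h1 := congrArg (Subring.closure S).subtype hab
      rw [map_natCast, map_natCast] at h1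
      exact Nat.cast_injective h1
    set v₁ : Subring.closure S := ((n * n + 1 + 1).factorial : Subring.closure S) *
      v ^ (n * n + 1 + 1) with hv₁
    have hv₁0 : v₁ ≠ 0 :=
      mul_ne_zero (Nat.cast_ne_zero.2 (Nat.factorial_ne_zero _)) (pow_ne_zero _ hv)
    obtain ⟨ψ, hψv⟩ := hψ hchar v₁.1 v₁.2 fun h0 => hv₁0 (Subtype.ext h0)
    have hψ0 : ψ v₁ ≠ 0 := hψv v₁.2
    have hP := hPSH (FreeMonoid (Subgroup.centralizer {g})) (Subgroup.centralizer {g})
      (Subgroup.centralizer {g}) (Subring.closure S) (ZM M) (th (Subgroup.centralizer {g})) ψ W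
    have htors : ∀ (j : ℕ) (a : ZM M), 0 < j → j • a = 0 → a = 0 := fun j a hj h0 =>
      (smul_eq_zero.1 h0).resolve_left hj.ne'
    obtain ⟨v', W', hv', hW', hD'⟩ := hPOW (Subgroup.centralizer {g}) (ZM M) c hcen htors k
      (n * n + 1 + 1) hk (ψ v₁) _ (hP.2 _ _ _ hW) (hP.1 _ hD)
    obtain ⟨W'', hW'', hD''⟩ := hTRA G (ZM M) N (n * n + 1 + 1) g v' W' hW' hD'
    refine ⟨v', W'', fun h0 => hψ0 ?_, hW'', hD''⟩
    rw [← hv', h0, smul_zero]

/-- LWT -/
theorem t_LWT (hCORE : s_LCORE.{u, u}) (hCORE0 : s_LCORE.{u, 0}) (hPSH : s_LPSH.{u, u})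
    (hPOW : s_LPOW.{u}) (hTRA : s_LTRA.{u}) (hALG : s_LALG.{u, u}) (hEIG : s_LEIG.{u})
    (hNNF : s_NNF.{u}) : s_LWT.{u} := by
  rintro G _ ⟨F, _, S, n, hS, hρ⟩
  obtain ⟨M, hM, h⟩ := wt_of_rep hCORE hCORE0 hPSH hPOW hTRA hALG hEIG hNNF F S hS
  refine ⟨M, n * n + 2, hM, fun N _ g hg => ?_⟩
  obtain ⟨ρ, hρg⟩ := hρ g hg
  exact h G n g ρ hρg N

end Pool.Agent.SUR
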