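import Pool.Agent.SUR.StR
import Pool.Agent.SUR.LWE

/-!
# RWT: weights at `g` and at the `g ^ p`, with a degree which depends on `g`
-/

set_option autoImplicit false

universe u

namespace Pool.Agent.SUR

open Pool.Agent.WhK Finset

namespace RWTx

/-- the weights for one element with a nilpotent Euler class, for a given `M` -/
theorem of_eul (hEUL : s_LEUL.{u, u}) (hPSH : s_LPSH.{u, u}) (hPOW : s_LPOW.{u})
    (hTRA : s_LTRA.{u}) (F : Type u) [Field F] (S : Set F) (M : ℕ) (hchar : CharZero F)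
    (hψ : CharZero F → ∀ ν ∈ Subring.closure S, ν ≠ 0 →
      ∃ ψ : Subring.closure S →+ ZM M, ∀ h : ν ∈ Subring.closure S, ψ ⟨ν, h⟩ ≠ 0)
    (G : Type u) [Group G] (n : ℕ) (hn : 0 < n) (g : G) (j : ℕ) (v : Subring.closure S)
    (s : Subgroup.centralizer {g} → Subring.closure S)
    (φ : List (Subgroup.centralizer {g}) → Subring.closure S) (hj : 0 < j) (hv : v ≠ 0)
    (hE : NilEuler ((⟨g, Subgroup.mem_centralizer_singleton_iff.2 rfl⟩ :
      Subgroup.centralizer {g}) ^ j) n v s φ) (N : ℕ) :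
    ∃ (v : ZM M) (W : FreeMonoid (MM G N) → FreeMonoid (MM G N) → ZM M), v ≠ 0 ∧
      WtAtA (clF G N) (some (ConjClasses.mk g)) v W ∧ DegV (th (MM G N)) n W := by
  set c : Subgroup.centralizer {g} := ⟨g, Subgroup.mem_centralizer_singleton_iff.2 rfl⟩ with hcdef
  have hcen : ∀ z : Subgroup.centralizer {g}, c * z = z * c := fun z =>
    Subtype.ext (Subgroup.mem_centralizer_singleton_iff.1 z.2).symm
  have hcen' : ∀ z, c ^ j * z = z * c ^ j := fun z =>
    (Commute.pow_left (hcen z : Commute c z) j).eq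
  obtain ⟨W, hW, hD⟩ := hEUL (Subgroup.centralizer {g}) (Subring.closure S) (c ^ j) hcen' n v s φ
    hn hE
  set v₁ : Subring.closure S := v ^ n with hv₁
  have hv₁0 : v₁ ≠ 0 := pow_ne_zero _ hv
  obtain ⟨ψ, hψv⟩ := hψ hchar v₁.1 v₁.2 fun h0 => hv₁0 (Subtype.ext h0)
  have hψ0 : ψ v₁ ≠ 0 := hψv v₁.2
  have hP := hPSH (FreeMonoid (Subgroup.centralizer {g})) (Subgroup.centralizer {g})
    (Subgroup.centralizer {g}) (Subring.closure S) (ZM M) (th (Subgroup.centralizer {g})) ψ W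
  have htors : ∀ (j : ℕ) (a : ZM M), 0 < j → j • a = 0 → a = 0 := fun j a hj h0 =>
    (smul_eq_zero.1 h0).resolve_left hj.ne'
  obtain ⟨v', W', hv', hW', hD'⟩ := hPOW (Subgroup.centralizer {g}) (ZM M) c hcen htors j
    n hj (ψ v₁) _ (hP.2 _ _ _ hW) (hP.1 _ hD)
  obtain ⟨W'', hW'', hD''⟩ := hTRA G (ZM M) N n g v' W' hW' hD'
  refine ⟨v', W'', fun h0 => hψ0 ?_, hW'', hD''⟩
  rw [← hv', h0, smul_zero]

theorem cobL_res {Z Z' R : Type*} [Group Z] [Group Z'] [CommRing R] (ι : Z' → Z) (φ : List Z → R)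
    (l : List Z') : cobL (fun l => φ (l.map ι)) l = cobL φ (l.map ι) := by
  unfold cobL
  rw [List.length_map]
  refine Finset.sum_congr rfl fun i _ => ?_
  rw [List.eraseIdx_map]

theorem cupE_res {Z Z' R : Type*} [Group Z] [Group Z'] [CommRing R] (ι : Z' →* Z) (s : Z → R) :
    ∀ l : List Z', cupE (fun z => s (ι z)) l = cupE s (l.map ι)
  | x :: y :: w :: l => by
    have h := cupE_res ι s (w :: l)
    rw [List.map_cons] at h
    rw [cupE, List.map_cons, List.map_cons, List.map_cons, cupE, h]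
    congr 1
    unfold eu
    simp only [map_mul, map_inv]
  | [] => by
    rw [List.map_nil, cupE, cupE] <;> simp
  | [x] => by
    rw [List.map_cons, List.map_nil, cupE, cupE] <;> simp
  | [x, y] => by
    rw [List.map_cons, List.map_cons, List.map_nil, cupE, cupE] <;> simp

theorem nil_res {Z Z' R : Type*} [Group Z] [Group Z'] [CommRing R] (ι : Z' →* Z) {c : Z} {c' : Z'}
    {p : ℕ} (hc : ι c' = c ^ p) {r : ℕ} {v : R} {s : Z → R} {φ : List Z → R}
    (h : NilEuler c r v s φ) :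
    NilEuler c' r ((p : R) * v) (fun z => s (ι z)) (fun l => φ (l.map ι)) := by
  refine ⟨fun z => ?_, fun w l => ?_, fun l₁ x l₂ => ?_, fun l hl => ?_⟩
  · show s (ι (c' * z)) = s (ι z) + (p : R) * v
    rw [map_mul, hc]
    clear hc
    induction p with
    | zero => simp
    | succ k ih =>
      rw [pow_succ', mul_assoc, h.shift, ih]
      push_cast
      ring
  · show φ ((l.map fun x => w * x).map ι) = φ (l.map ι)
    have h1 : (l.map fun x => w * x).map ι = (l.map ι).map fun x => ι w * x := by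
      rw [List.map_map, List.map_map]
      refine List.map_congr_left fun x _ => ?_
      simp
    rw [h1, h.inv]
  · show φ ((l₁ ++ c' * x :: l₂).map ι) = φ ((l₁ ++ x :: l₂).map ι)
    rw [List.map_append, List.map_cons, List.map_append, List.map_cons, map_mul, hc]
    clear hc
    induction p with
    | zero => simp
    | succ k ih => rw [pow_succ', mul_assoc, h.per, ih]
  · have h1 := h.cob (l.map ι) (by rw [List.length_map]; exact hl)
    rw [cobL_res ι φ l, cupE_res ι s l, h1]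

end RWTx

/-- RWT -/
theorem t_RWT (hEUL : s_LEUL.{u, u}) (_hMONO : s_LMONO.{u}) (hCORE : s_LCORE.{u, u})
    (hCORE0 : s_LCORE.{u, 0}) (hPSH : s_LPSH.{u, u}) (hPOW : s_LPOW.{u}) (hTRA : s_LTRA.{u})
    (hALG : s_LALG.{u, u}) (hEIG : s_LEIG.{u}) (hNNF : s_NNF.{u}) : s_RWT.{u} := by
  rintro G _ ⟨F, _, S, hS, hG⟩
  obtain ⟨M, hM, hψ⟩ : ∃ M : ℕ, 0 < M ∧ (CharZero F → ∀ ν ∈ Subring.closure S, ν ≠ 0 →
      ∃ ψ : Subring.closure S →+ ZM M, ∀ h : ν ∈ Subring.closure S, ψ ⟨ν, h⟩ ≠ 0) := by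
    by_cases hc : CharZero F
    · obtain ⟨M, hM, h⟩ := hNNF F S hS
      exact ⟨M, hM, fun _ => h⟩
    · exact ⟨1, one_pos, fun h => absurd h hc⟩
  refine ⟨M, hM, fun g hg => ?_⟩
  obtain ⟨n, hn, hgn⟩ := hG g hg
  have hle : ∀ p : ℕ, (∀ h : G, h * g ^ p = g ^ p * h → h * g = g * h) →
      Subgroup.centralizer {g ^ p} ≤ Subgroup.centralizer {g} := fun p hp z hz =>
    Subgroup.mem_centralizer_singleton_iff.2 (hp z (Subgroup.mem_centralizer_singleton_iff.1 hz))
  rcases hgn with ⟨ρ, hρg⟩ | ⟨hchar, j, v, s, φ, hj, hv, hE⟩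
  · refine ⟨n * n + 2, fun N _ => ?_, fun p hp hcomm N _ => ?_⟩
    · exact LWEx.of_rep hCORE hCORE0 hPSH hPOW hTRA hALG hEIG F S hS M hψ G n g ρ hρg N
    · refine LWEx.of_rep hCORE hCORE0 hPSH hPOW hTRA hALG hEIG F S hS M hψ G n (g ^ p)
        (ρ.comp (Subgroup.inclusion (hle p hcomm))) (fun hf => hρg ?_) N
      obtain ⟨m, hm, hm1⟩ := isOfFinOrder_iff_pow_eq_one.1 hf
      refine isOfFinOrder_iff_pow_eq_one.2 ⟨p * m, Nat.mul_pos hp.pos hm, ?_⟩
      rw [pow_mul, ← map_pow]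
      exact hm1
  · refine ⟨n, fun N _ => ?_, fun p hp hcomm N _ => ?_⟩
    · exact RWTx.of_eul hEUL hPSH hPOW hTRA F S M hchar hψ G n hn g j v s φ hj hv hE N
    · have hι : (Subgroup.inclusion (hle p hcomm))
          ((⟨g ^ p, Subgroup.mem_centralizer_singleton_iff.2 rfl⟩ :
            Subgroup.centralizer {g ^ p}) ^ j) =
          ((⟨g, Subgroup.mem_centralizer_singleton_iff.2 rfl⟩ :
            Subgroup.centralizer {g}) ^ j) ^ p := by
        refine Subtype.ext ?_
        show (g ^ p) ^ j = (g ^ j) ^ p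
        rw [← pow_mul, ← pow_mul, mul_comm]
      have hchar' : CharZero (Subring.closure S) := by
        refine ⟨fun a b hab => ?_⟩
        have h1 := congrArg (Subring.closure S).subtype hab
        rw [map_natCast, map_natCast] at h1
        exact Nat.cast_injective h1
      exact RWTx.of_eul hEUL hPSH hPOW hTRA F S M hchar hψ G n hn (g ^ p) j
        ((p : Subring.closure S) * v) _ _ hj
        (mul_ne_zero (Nat.cast_ne_zero.2 hp.ne_zero) hv) (RWTx.nil_res _ hι hE) N

end Pool.Agent.SUR
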