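import Pool.Agent.SUR.FinalL
import Pool.Agent.SUR.StR
import Pool.Agent.SUR.PPRT
import Pool.Agent.SUR.PJ2
import Pool.Agent.SUR.PAUT
import Pool.Agent.SUR.PFREE
import Pool.Agent.SUR.QZERO
import Pool.Agent.SUR.RWT
import Pool.Agent.SUR.RFEW
import Pool.Agent.SUR.RVAN
import Pool.Agent.SUR.RARI
import Pool.Agent.SUR.RLZ
import Pool.Agent.SUR.RGRF
import Pool.Agent.SUR.RLSZ

/-!
# Surjectivity in degree one, seen in arbitrary targets: groups with unique roots
-/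

set_option autoImplicit false

universe u

namespace Pool.Agent.SUR

open Pool.Agent.WhK

theorem locE_of_locCentEul (G : Type u) [Group G] (h : LocCentEul G) : LocE G :=
  fun G₀ h₀ => Or.inl (h G₀ h₀)

theorem uniqExp_of_injective {G H : Type u} [Group G] [Group H] (f : G →* H)
    (hf : Function.Injective f) (h : UniqExp H) : UniqExp G := by
  obtain ⟨N, hN⟩ := h
  refine ⟨N, fun p hp hNp x y hxy => hf (hN p hp hNp _ _ ?_)⟩
  rw [← map_pow, hxy, map_pow]

theorem linSepZ_of_injective {G H : Type u} [Group G] [Group H] (f : G →* H)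
    (hf : Function.Injective f) (h : LinSepZ H) : LinSepZ G := by
  intro x hx
  obtain ⟨n, ρ, hρ⟩ := h (f x) fun h1 => by
    obtain ⟨k, hk, h2⟩ := isOfFinOrder_iff_pow_eq_one.1 h1
    refine hx (isOfFinOrder_iff_pow_eq_one.2 ⟨k, hk, hf ?_⟩)
    rw [map_pow, h2, map_one]
  exact ⟨n, ρ.comp f, hρ⟩

theorem rtn_of_injective {G H : Type u} [Group G] [Group H] (f : G →* H)
    (hf : Function.Injective f) (h : RTN H) : RTN G := by
  intro g hg
  obtain ⟨m, ρ, h1, h2⟩ := h (f g) fun h3 => hg (hf (h3.trans (map_one f).symm))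
  exact ⟨m, ρ.comp f, fun x i j hij => h1 (f x) i j hij, h2⟩

theorem t_QZERO' : s_QZERO.{u} :=
  t_QZERO (t_LVAL t_LREF (t_LRES t_LIK)) (t_LRES t_LIK) t_ANEQ t_LPSH

theorem t_RWT' : s_RWT.{u} :=
  t_RWT t_LEUL' t_LMONO t_LCORE' t_LCORE0' t_LPSH t_LPOW t_LTRA t_LALG t_LEIG' t_NNF

theorem t_RFEW' : s_RFEW.{u} := t_RFEW (t_LRES t_LIK) t_ANEQ t_LPSH

theorem t_RARI' : s_RARI.{u} :=
  t_RARI (t_RVAN t_QZERO' t_LREF (t_LRES t_LIK) t_ANEQ t_LPSH t_LLIFT t_LMONO t_COH)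

/-- subgroups of automorphism groups of finitely generated residually torsion-free nilpotent groups -/
theorem locE_aut (π : Type u) [Group π]
    (hfg : Group.FG π) (hπ : RTN π) (G : Subgroup (MulAut π)) : LocE G := by
  intro G₀ _
  let f : G₀ →* MulAut π := G.subtype.comp G₀.subtype
  have hf : Function.Injective f := G.subtype_injective.comp G₀.subtype_injective
  exact Or.inr ⟨uniqExp_of_injective f hf ((t_PAUT t_PJ2).2 π hfg hπ),
    t_RLZ _ (linSepZ_of_injective f hf ((t_RLSZ t_RGRF).2 π hfg hπ))⟩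

/-- groups whose finitely generated subgroups are residually torsion-free nilpotent -/
theorem locE_rtn (G : Type u) [Group G]
    (h : ∀ G₀ : Subgroup G, G₀.FG → RTN G₀) : LocE G :=
  fun G₀ h₀ => Or.inr ⟨(t_PAUT t_PJ2).1 G₀ (h G₀ h₀), t_RLZ _ ((t_RLSZ t_RGRF).1 _ (h G₀ h₀))⟩

/-- surjectivity -/
theorem surjW_N (G : Type u) [Group G]
    (h : LocE G) : SurjW G :=
  surjW_of_arithR G fun G₀ h₀ => by
    rcases h G₀ h₀ with h1 | ⟨h1, h2⟩
    · obtain ⟨M, r, hM, hc⟩ := t_LWE' G₀ h1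
      exact t_LARI' G₀ M r hM hc
    · obtain ⟨M, hM, hW⟩ := t_RWT' G₀ h2
      exact t_RARI' G₀ M hM h1 (t_PPRT G₀ h1 (t_RFEW' G₀ M hM hW)) hW

end Pool.Agent.SUR
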