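import Pool.Agent.SUR.StD

/-!
# DFG: finitely generated domains have finite residue fields
-/

set_option autoImplicit false

universe u v

namespace Pool.Agent.SUR

namespace DFGx

theorem jacobson_int : IsJacobsonRing ℤ := by
  rw [isJacobsonRing_iff_prime_eq]
  intro P hP
  by_cases h : P = ⊥
  · subst h
    rw [eq_bot_iff]
    intro x hx
    rw [Ideal.mem_jacobson_bot] at hx
    have h1 := hx x
    rw [Int.isUnit_iff] at h1
    have h2 : x = 0 := by
      rcases h1 with h1 | h1 <;> nlinarith [sq_nonneg x]
    rw [h2]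
    exact Submodule.zero_mem _
  · have hmax : P.IsMaximal := Ideal.IsPrime.isMaximal hP h
    exact Ideal.jacobson_eq_self_of_isMaximal

/-- the residue fields of a ring of finite type over the integers are finite -/
theorem residue (A : Type u) [CommRing A] [Algebra.FiniteType ℤ A] (m : Ideal A)
    (hm : m.IsMaximal) : Finite (A ⧸ m) := by
  have := hm
  let : Field (A ⧸ m) := Ideal.Quotient.field m
  have : Algebra.FiniteType ℤ (A ⧸ m) :=
    Algebra.FiniteType.of_surjective (Ideal.Quotient.mkₐ ℤ m) (Ideal.Quotient.mkₐ_surjective ℤ m)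
  have := jacobson_int
  have : Module.Finite ℤ (A ⧸ m) := finite_of_finite_type_of_isJacobsonRing ℤ (A ⧸ m)
  obtain ⟨p, hp⟩ := CharP.exists (A ⧸ m)
  have hp0 : p ≠ 0 := by
    rintro rfl
    have : CharZero (A ⧸ m) := CharP.charP_to_charZero (A ⧸ m)
    have hinj : Function.Injective (algebraMap ℤ (A ⧸ m)) := by
      intro a b hab
      simpa using hab
    have : IsField ℤ :=
      isField_of_isIntegral_of_isField hinj (Field.toIsField (A ⧸ m))
    exact Int.not_isField this
  let : Algebra (ZMod p) (A ⧸ m) := ZMod.algebra (A ⧸ m) p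
  have : Module.Finite (ZMod p) (A ⧸ m) := by
    have : IsScalarTower ℤ (ZMod p) (A ⧸ m) := by
      refine IsScalarTower.of_algebraMap_eq fun x => ?_
      simp
    exact Module.Finite.of_restrictScalars_finite ℤ (ZMod p) (A ⧸ m)
  have : NeZero p := ⟨hp0⟩
  exact Module.finite_of_finite (ZMod p)

/-- a finitely generated ring is of finite type over the integers -/
theorem ft (F : Type u) [Field F] (S : Set F) (hS : S.Finite) :
    Algebra.FiniteType ℤ (Subring.closure S) := by
  have h1 : Algebra.FiniteType ℤ (Algebra.adjoin ℤ S) := .adjoin_of_finite hS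
  have hmem : ∀ x : F, x ∈ Algebra.adjoin ℤ S ↔ x ∈ Subring.closure S := by
    intro x
    rw [Algebra.adjoin_int]
    exact mem_subalgebraOfSubring
  let f : Algebra.adjoin ℤ S →+* Subring.closure S :=
    { toFun := fun x => ⟨x, (hmem x).1 x.2⟩
      map_one' := rfl
      map_mul' := fun _ _ => rfl
      map_zero' := rfl
      map_add' := fun _ _ => rfl }
  exact Algebra.FiniteType.of_surjective f.toIntAlgHom
    fun y => ⟨⟨y, (hmem y).2 y.2⟩, rfl⟩

end DFGx

theorem t_DFG : s_DFG.{u} := by
  intro F _ S hS
  have := DFGx.ft F S hS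
  have : IsNoetherianRing (Subring.closure S) := Algebra.FiniteType.isNoetherianRing ℤ _
  obtain ⟨m, hm⟩ := Ideal.exists_maximal (Subring.closure S)
  have := DFGx.residue _ m hm
  exact ⟨m, hm, fun i => Ideal.finite_quotient_pow (IsNoetherian.noetherian m) i,
    Ideal.iInf_pow_eq_bot_of_isDomain m hm.ne_top⟩

end Pool.Agent.SUR
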