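import Pool.Agent.SUR.StR

/-!
# Automorphisms of algebras which fix an augmentation; representations with bounded denominators

Statements of the modules `DTV_XXX`, `theorem Pool.Agent.SUR.t_VXXX : s_VXXX` in
`Pool/Agent/SUR/VXXX.lean`. In the condition `EulD` the representation of the centraliser of `g` has
matrices over a field, whose entries become elements of the finitely generated ring `A` after
multiplication by one `d ≠ 0`, which may depend on `g`. This occurs for the automorphisms of finitely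
generated algebras `B` over a field of characteristic `0` which preserve an augmentation `B → K` whose
kernel `I` satisfies `⨅ k, I ^ k = 0`, for example of affine varieties with a fixed point.
-/

set_option autoImplicit false

universe u v

namespace Pool.Agent.SUR

open Pool.Agent.WhK Finset

/-! ### Definitions -/

/-- the condition at one element `g`, with centraliser `Z`: (a) `Z` has a homomorphism to `GL_n F` which maps
`g` to an element of infinite order, with entries in `d⁻¹ A` for some `d ≠ 0`, `A` the subring generated by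
`S`, or (b) the `n`-th power of the Euler class of `Z/⟨g ^ j⟩` with coefficients in `A` vanishes and the
characteristic is `0` -/
def EulD (G : Type u) [Group G] (F : Type u) [Field F] (S : Set F) (n : ℕ) (g : G) : Prop :=
  (∃ (ρ : Subgroup.centralizer {g} →* Matrix (Fin n) (Fin n) F) (d : F), d ≠ 0 ∧
    (∀ z i j, d * ρ z i j ∈ Subring.closure S) ∧
    ¬IsOfFinOrder (ρ ⟨g, Subgroup.mem_centralizer_singleton_iff.2 rfl⟩)) ∨
  (CharZero F ∧ ∃ (j : ℕ) (v : Subring.closure S)
    (s : Subgroup.centralizer {g} → Subring.closure S)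
    (φ : List (Subgroup.centralizer {g}) → Subring.closure S), 0 < j ∧ v ≠ 0 ∧
    NilEuler ((⟨g, Subgroup.mem_centralizer_singleton_iff.2 rfl⟩ :
      Subgroup.centralizer {g}) ^ j) n v s φ)

/-- `EulD` for all elements of infinite order, with one `n` -/
def CentEulD (G : Type u) [Group G] : Prop :=
  ∃ (F : Type u) (_ : Field F) (S : Set F) (n : ℕ), S.Finite ∧ 0 < n ∧
    ∀ g : G, ¬IsOfFinOrder g → EulD G F S n g

/-- `EulD` for all elements of infinite order, `n` may depend on the element -/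
def CentEulDN (G : Type u) [Group G] : Prop :=
  ∃ (F : Type u) (_ : Field F) (S : Set F), S.Finite ∧
    ∀ g : G, ¬IsOfFinOrder g → ∃ n : ℕ, 0 < n ∧ EulD G F S n g

/-- `EulD` for one element -/
def EulAtD (G : Type u) [Group G] (g : G) : Prop :=
  ∃ (F : Type u) (_ : Field F) (S : Set F) (n : ℕ), S.Finite ∧ 0 < n ∧ EulD G F S n g

/-- the condition (E): every finitely generated subgroup satisfies `CentEulD`, or it satisfies `CentEulDN`
and its `p`-th roots are unique for all large primes `p` -/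
def LocED (G : Type u) [Group G] : Prop :=
  ∀ G₀ : Subgroup G, G₀.FG → CentEulD G₀ ∨ (UniqExp G₀ ∧ CentEulDN G₀)

/-- the kernel of an augmentation, as a submodule; its powers are products of submodules -/
def augI {A R : Type*} [CommRing A] [Ring R] [Algebra A R] (ε : R →ₐ[A] A) : Submodule A R :=
  LinearMap.ker ε.toLinearMap

/-- the automorphisms which preserve the augmentation -/
def AugAut {A R : Type*} [CommRing A] [Ring R] [Algebra A R] (ε : R →ₐ[A] A) :
    Subgroup (R ≃ₐ[A] R) where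
  carrier := {θ | ∀ x, ε (θ x) = ε x}
  one_mem' := fun _ => rfl
  mul_mem' := fun {a b} ha hb x => (ha (b x)).trans (hb x)
  inv_mem' := fun {a} ha x => by
    have h := ha (a⁻¹ x)
    have h1 : a (a⁻¹ x) = x := a.apply_symm_apply x
    rw [h1] at h
    exact h.symm

/-- the data over a subring `A` of a field: an `A`-algebra of finite type with an augmentation, such that
an element `x` which has a nonzero multiple in every power of the augmentation ideal is `0`, and an
injective homomorphism from a group to the automorphisms which preserve the augmentation -/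
structure VD {K : Type u} [Field K] (A : Subring K) (R : Type u) [Ring R] [Algebra A R]
    (ε : R →ₐ[A] A) (G : Type u) [Group G] (φ : G →* (R ≃ₐ[A] R)) : Prop where
  ft : Algebra.FiniteType A R
  sat : ∀ x : R, (∀ k : ℕ, 1 ≤ k → ∃ a : A, a ≠ 0 ∧ a • x ∈ augI ε ^ k) → x = 0
  inj : Function.Injective φ
  aug : ∀ g x, ε (φ g x) = ε x

/-! ### The weights -/

/-- VALD (200 lines; copy of `Pool/Agent/SUR/LALG.lean`, with denominators).
Proof. As `LALG`, computing over the field `F`. `N = ρ c - 1` has entries with `d * N i j ∈ A` (`d ∈ A` if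
`0 < n`: `d * ρ 1 i i`; `n = 0` is excluded by `ρ c ≠ 1`). Let `N ^ (s + 1) ≠ 0 = N ^ (s + 2)`,
`(N ^ (s + 1)) i₀ k ≠ 0`, `u = d ^ s •` the column `k` of `N ^ s`, a vector over `A`, `N ^ 2 u = 0`,
`(N u) i₀ ≠ 0`. Apply the lemma `lalg_proj` (copy it, it is private) to the matrix `d • N` over `A`: `d₁ ≠ 0`
and a matrix `p` over `A` with `N p = 0` and `p x = d₁ x` for the vectors `x` over `A` with `N x = 0`, so also
for the vectors `x` over `F` with `N x = 0` for which `e • x` is over `A` for some `e ≠ 0`.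
`B₀ w t = -(ρ w⁻¹ (ρ t p ρ t⁻¹ - p) ρ w u) i₀` satisfies `IsB c (d₁ * (N u) i₀) B₀` over `F` (proof of
`LALG`; the vectors to which `p` is applied are multiples of vectors over `A`). Put
`Y (a, b) t = d ^ 2 (ρ t p ρ t⁻¹ - p) a b`, `X (a, b) w = -d ^ 2 (ρ w⁻¹ i₀ a) (ρ w u) b`,
`B = d ^ 4 B₀`, `v = d ^ 4 * d₁ * (N u) i₀`, all in `A`, and use that `A → F` is injective. -/
def s_VALD : Prop := ∀ (F : Type u) [Field F] (A : Subring F) (n : ℕ) (Z : Type u) [Group Z] (c : Z),
  (∀ z, c * z = z * c) → ∀ (ρ : Z →* Matrix (Fin n) (Fin n) F) (d : F), d ≠ 0 →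
  (∀ z i j, d * ρ z i j ∈ A) → IsNilpotent (ρ c - 1) → ρ c ≠ 1 →
  ∃ (v : A) (B : Z → Z → A) (X Y : Fin n × Fin n → Z → A), v ≠ 0 ∧ IsB c v B ∧
    ∀ w t, B w t = ∑ i, X i w * Y i t

/-- VREP (100 lines; copy of `LWEx.of_rep`, `Pool/Agent/SUR/LWE.lean`). Hypotheses `s_LCORE.{u, u}`,
`s_LCORE.{u, 0}`, `s_LPSH.{u, u}`, `s_LPOW`, `s_LTRA`, `s_VALD`, `s_LEIG`.
Proof. As there, `ρ` for `ρF`. Case 1: `LEIG` for the set `insert d⁻¹ S` (all `ρ z i j = d⁻¹ * (d * ρ z i j)` are
in the subring generated by it). Case 2: `VALD` instead of `LALG`. -/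
def s_VREP : Prop := ∀ (F : Type u) [Field F] (S : Set F), S.Finite → ∀ M : ℕ,
  (CharZero F → ∀ ν ∈ Subring.closure S, ν ≠ 0 →
    ∃ ψ : Subring.closure S →+ ZM M, ∀ h : ν ∈ Subring.closure S, ψ ⟨ν, h⟩ ≠ 0) →
  ∀ (G : Type u) [Group G] (n : ℕ) (g : G)
    (ρ : Subgroup.centralizer {g} →* Matrix (Fin n) (Fin n) F) (d : F), d ≠ 0 →
    (∀ z i j, d * ρ z i j ∈ Subring.closure S) →
    ¬IsOfFinOrder (ρ ⟨g, Subgroup.mem_centralizer_singleton_iff.2 rfl⟩) → ∀ N : ℕ,
    ∃ (v : ZM M) (W : FreeMonoid (MM G N) → FreeMonoid (MM G N) → ZM M), v ≠ 0 ∧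
      WtAtA (clF G N) (some (ConjClasses.mk g)) v W ∧ DegV (th (MM G N)) (n * n + 2) W

/-- VWT (120 lines; copies of `t_LWE`, `t_RWT`, `t_QWT` in `LWE.lean`, `RWT.lean`, `QWT.lean`). Hypotheses
`s_VREP`, `s_LEUL.{u, u}`, `s_LMONO`, `s_LPSH.{u, u}`, `s_LPOW`, `s_LTRA`, `s_NNF`.
Proof. As there, with `s_VREP` instead of `LWEx.of_rep`, `RWTx.of_eul` and `RWTx.nil_res` for case (b). (2) is
the proof of `t_RWT`; (1), (3) with the degree `n * n + n + 2` (`LMONO`). -/
def s_VWT : Prop := ∀ (G : Type u) [Group G],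
  (CentEulD G → ∃ M r : ℕ, 0 < M ∧ CentWt G M r) ∧
  (CentEulDN G → ∃ M : ℕ, 0 < M ∧ WtN G M) ∧
  (∀ g : G, ¬IsOfFinOrder g → EulAtD G g → ∃ M r : ℕ, 0 < M ∧ WtG G M r g ∧
    ∀ p : ℕ, p.Prime → (∀ h : G, h * g ^ p = g ^ p * h → h * g = g * h) → WtG G M r (g ^ p))

/-! ### Algebras with an augmentation -/

/-- VLAT (150 lines), no hypotheses. Lattices.
Proof. Let `T` be a finite set of generators of `L`, `k₀ = FractionRing A`, `V = k₀ ⊗[A] L` (or the localised
module), `ι : L → V`, `x ↦ 1 ⊗ x`, injective since `L` is torsion free. The `ι t` span `V`, so there is a basis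
`b i = ι (t i)`, `t i ∈ T`, `i : Fin n`. Let `d₀ ≠ 0` be a common denominator of the coordinates of the
`ι t`, `t ∈ T`; all `ι x`, `x ∈ L`, have coordinates in `d₀⁻¹ A`. The matrix of the endomorphism
`1 ⊗ α z` has the entries: coordinates of `ι (α z (t i))`. Map `k₀` to `K` (the lift of the inclusion
`A → K`, injective). If the matrix is `1`, then `ι (α z x) = ι x` for all `x`. -/
def s_VLAT : Prop := ∀ (K : Type u) [Field K] (A : Subring K) (L : Type u) [AddCommGroup L]
  [Module A L], Module.Finite A L → (∀ (a : A) (x : L), a • x = 0 → a = 0 ∨ x = 0) →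
  ∀ (Z : Type u) [Group Z] (α : Z →* Module.End A L),
  ∃ (n : ℕ) (ρ : Z →* Matrix (Fin n) (Fin n) K) (d : K), d ≠ 0 ∧ (∀ z i j, d * ρ z i j ∈ A) ∧
    ∀ z, ρ z = 1 → α z = 1

/-- VGRF (120 lines; see `Pool/Agent/SUR/RGRF.lean`), no hypotheses. `I = augI ε`.
Proof. (1) `I` is a two-sided ideal; induction. (2) `ε` is preserved. (3) Let `R` be generated by a finite
set; subtracting the constants `ε t` we may assume that the generators `t` are in `I`. `V` = their span, `V ≤ I`,
`⊤ = 1 ⊔ V * ⊤` (`1` = span of the unit element), so `I = V * ⊤ = V ⊔ V * I ≤ V ⊔ I ^ 2`,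
`I ^ k ≤ V ^ k ⊔ I ^ (k + 1)` and `⊤ = 1 ⊔ I = 1 ⊔ V ⊔ ⋯ ⊔ V ^ (k - 1) ⊔ I ^ k` (compare `RGRF.lean`). -/
def s_VGRF : Prop := ∀ (A : Type u) (R : Type v) [CommRing A] [Ring R] [Algebra A R] (ε : R →ₐ[A] A),
  (∀ (k : ℕ) (a : R), 1 ≤ k → ∀ x ∈ augI ε ^ k, a * x ∈ augI ε ^ k ∧ x * a ∈ augI ε ^ k) ∧
  (∀ k : ℕ, 1 ≤ k → augI ε ^ (k + 1) ≤ augI ε ^ k) ∧
  (∀ θ ∈ AugAut ε, ∀ k : ℕ, ∀ x ∈ augI ε ^ k, θ x ∈ augI ε ^ k) ∧
  (Algebra.FiniteType A R → ∀ k : ℕ, 1 ≤ k → Module.Finite A (R ⧸ augI ε ^ k))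

/-- VSEP (220 lines; see `Pool/Agent/SUR/RLSZ.lean`, part (2)). Hypotheses `s_VGRF`, `s_VLAT`.
Proof. `I = augI ε`, `k ≥ 1`, `N k = {x | ∃ a : A, a ≠ 0 ∧ a • x ∈ I ^ k}`, a submodule (`A` is a domain) and a
two-sided ideal, `L k = R ⧸ N k`, finitely generated (`VGRF`) and torsion free. `G` acts on it through `φ`.
`VLAT` gives `ρ k : G →* Matrix (Fin n) (Fin n) K` with denominator `d`, such that `ρ k g = 1` implies that `g` acts
trivially on `L k`. Let `g` have infinite order, and suppose that `ρ k g` has finite order for all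
`k ≥ 1`. Let `g ^ e`, `e > 0`, act trivially on `L 2`, `η = φ (g ^ e)`. So for all `x : R` a nonzero multiple
(by an element of `A`) of `η x - x` is in `I ^ 2`, and for `x ∈ I ^ k` a nonzero multiple of `η x - x` is in
`I ^ (k + 1)` (`η (x y) - x y = (η x - x) η y + x (η y - y)`, sums of products: common multiples). So
`(η - 1) ^ k = 0` on `L k`, and `η` has finite order on `L k`, which is torsion free and of characteristic
`0`, so `η = 1` on `L k` (see `RLSZ`). So `η x - x ∈ N k` for all `x`, `k`, `η x = x` by `VD.sat`, and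
`g ^ e = 1` by `VD.inj`, a contradiction. So some `ρ k g` has infinite order (`n > 0`); restrict it to the
centraliser. -/
def s_VSEP : Prop := ∀ (K : Type u) [Field K] [CharZero K] (S : Set K), S.Finite →
  ∀ (R : Type u) [Ring R] [Algebra (Subring.closure S) R] (ε : R →ₐ[Subring.closure S] Subring.closure S)
    (G : Type u) [Group G] (φ : G →* (R ≃ₐ[Subring.closure S] R)), VD (Subring.closure S) R ε G φ →
  CentEulDN G

/-- VKRU (120 lines). Hypothesis `s_VGRF`.
Proof. Let `J ≤ R` be the submodule of the `x` with `ε x ∈ 𝔪`; `J = 𝔪 • 1 ⊔ I`, `I = augI ε`. Fix `j ≥ 1`,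
`N j` and `L j = R ⧸ N j` as in `VSEP`. `J ^ k ≤ ⨆ i ≤ k, 𝔪 ^ (k - i) • I ^ i` (with `I ^ 0 = 1`; induction, the
elements of `𝔪` are central), so for `k ≥ j` `J ^ k ≤ 𝔪 ^ (k - j) • ⊤ ⊔ I ^ j` and the image of `x` in `L j` is
in `𝔪 ^ (k - j) • ⊤` for all `k ≥ j`. `L j` is finitely generated and torsion free over the Noetherian domain
`A`, so `⨅ i, 𝔪 ^ i • (⊤ : Submodule A (L j)) = ⊥` (Mathlib: Krull's intersection theorem,
`Ideal.iInf_pow_smul_eq_bot_of_noZeroSMulDivisors` or `..of_isTorsionFree`). So `x ∈ N j` for all `j`. -/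
def s_VKRU : Prop := ∀ (A R : Type u) [CommRing A] [IsDomain A] [IsNoetherianRing A] [Ring R]
  [Algebra A R] (ε : R →ₐ[A] A), Algebra.FiniteType A R →
  (∀ x : R, (∀ k : ℕ, 1 ≤ k → ∃ a : A, a ≠ 0 ∧ a • x ∈ augI ε ^ k) → x = 0) →
  ∀ 𝔪 : Ideal A, 𝔪 ≠ ⊤ → ∀ x : R,
  (∀ k : ℕ, 1 ≤ k → x ∈ (Submodule.comap ε.toLinearMap 𝔪 : Submodule A R) ^ k) → x = 0

/-- VUNI (220 lines; see `Pool/Agent/SUR/PAUT.lean`, part (2)). Hypotheses `s_DFG`, `s_VGRF`, `s_VKRU`.
Proof. `A = Subring.closure S` is Noetherian (finitely generated as a ring, see `DFG.lean`), `𝔪` from `DFG`,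
`ℓ` the characteristic of the finite field `A ⧸ 𝔪`. `J = {x | ε x ∈ 𝔪}`, a two-sided ideal, `(ℓ : R) ∈ J`,
the `φ g` preserve `J` and its powers; for `k ≥ 1`: `R J ^ k ⊆ J ^ k`, `J ^ k R ⊆ J ^ k`,
`J ^ (k + 1) ≤ J ^ k`. `R ⧸ J ^ 2` is finite: `augI ε ^ 2 ≤ J ^ 2` and `𝔪 ^ 2 • ⊤ ≤ J ^ 2`, so it is a finitely
generated module (`VGRF`) over the finite ring `A ⧸ 𝔪 ^ 2`. Let `e = (card (R ⧸ J ^ 2))!`, then `θ ^ e` acts
trivially on `R ⧸ J ^ 2` for all `θ = φ g`. A ring automorphism `ζ` has level `s ≥ 1` if `ζ x - x ∈ J ^ s` for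
all `x : R` and `ζ x - x ∈ J ^ (k + s)` for `x ∈ J ^ k`, `k ≥ 1`. `θ ^ e` has level `1`
(`η (x y) - x y = (η x - x) η y + x (η y - y)`). If `ζ` has level `s`, then `ζ ^ ℓ` has level `s + 1`:
`ζ ^ ℓ x - x = ∑_{i ≥ 1} binom(ℓ, i) (ζ - 1) ^ i x`, for `0 < i < ℓ` the binomial coefficient is divisible by
`ℓ`, and `(ζ - 1) ^ ℓ x ∈ J ^ (k + ℓ s)`; the powers `ζ ^ t` have level `s`. So `θ ^ (e ℓ ^ s t)` has level
`s + 1`. Let `p > max ℓ e` be a prime, `x ^ p = y ^ p` in `G`. For `s` choose `u, t` with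
`p u = 1 + e ℓ ^ s t`; for `r : R`, modulo `J ^ (s + 1)`: `φ x r ≡ φ x (φ (x ^ (e ℓ ^ s t)) r) =
φ (x ^ (p u)) r = φ (y ^ (p u)) r ≡ φ y r`. So `φ x r = φ y r` by `VKRU`, and `x = y` by `VD.inj`. -/
def s_VUNI : Prop := ∀ (K : Type u) [Field K] (S : Set K), S.Finite →
  ∀ (R : Type u) [Ring R] [Algebra (Subring.closure S) R] (ε : R →ₐ[Subring.closure S] Subring.closure S)
    (G : Type u) [Group G] (φ : G →* (R ≃ₐ[Subring.closure S] R)), VD (Subring.closure S) R ε G φ →
  UniqExp G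

/-- VDES (150 lines), no hypotheses. Descent to a finitely generated subring.
Proof. Let `b i` be finitely many generators of the `K`-algebra `B`; subtracting constants, `ε (b i) = 0`. Let
`T` be a finite set of generators of `G`, closed under inverses. Every element of `B` is a finite sum of
elements `c • w`, `c : K`, `w` a product of elements `b i`. Let `S` be the finite set of the coefficients `c`
in such expressions of the `φ t (b i)`, `t ∈ T`, `A = Subring.closure S`, `R = Algebra.adjoin A (range b)`.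
All `φ g` map `R` to itself (`φ t` does, since `φ t (b i) ∈ R`; closure induction), `φ g⁻¹` as well, so they
restrict to automorphisms of the `A`-algebra `R`. `ε` maps `R` to `A` since `ε (b i) = 0`. `VD.inj`: an
automorphism of the `K`-algebra `B` which fixes all `b i` is `1`. `VD.sat`: if `a ≠ 0` and
`a • x ∈ augI ε' ^ k` (powers over `A` in `R`), then `a • x ∈ augI ε ^ k` (over `K` in `B`), so
`x ∈ augI ε ^ k`. -/
def s_VDES : Prop := ∀ (K B : Type u) [Field K] [Ring B] [Algebra K B] (ε : B →ₐ[K] K),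
  Algebra.FiniteType K B → (∀ x : B, (∀ k : ℕ, 1 ≤ k → x ∈ augI ε ^ k) → x = 0) →
  ∀ (G : Type u) [Group G] (φ : G →* (B ≃ₐ[K] B)), Group.FG G → Function.Injective φ →
  (∀ g x, ε (φ g x) = ε x) →
  ∃ (S : Set K) (_ : S.Finite) (R : Type u) (_ : Ring R) (_ : Algebra (Subring.closure S) R)
    (ε' : R →ₐ[Subring.closure S] Subring.closure S)
    (φ' : G →* (R ≃ₐ[Subring.closure S] R)), VD (Subring.closure S) R ε' G φ'

/-- VDOM (40 lines), no hypotheses. Krull's intersection theorem.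
Proof. `B` is Noetherian, `augI ε ^ k` is contained in the `k`-th power of the ideal `RingHom.ker ε`, which is
not `⊤`; `Ideal.iInf_pow_eq_bot_of_isDomain`. -/
def s_VDOM : Prop := ∀ (K B : Type u) [Field K] [CommRing B] [IsDomain B] [Algebra K B]
  (ε : B →ₐ[K] K), Algebra.FiniteType K B →
  ∀ x : B, (∀ k : ℕ, 1 ≤ k → x ∈ augI ε ^ k) → x = 0

end Pool.Agent.SUR
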