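import Pool.Agent.SUR.StV

/-! DTV_ALD: the data of a unipotent matrix with bounded denominators (`MP_e40716_gt`). -/

set_option autoImplicit false

universe u v

namespace Pool.Agent.SUR

namespace VALDx

open Matrix

lemma proj {A : Type v} [CommRing A] [IsDomain A] (n : ℕ)
    (N : Matrix (Fin n) (Fin n) A) :
    ∃ (d : A) (p : Matrix (Fin n) (Fin n) A), d ≠ 0 ∧ N * p = 0 ∧
      ∀ x : Fin n → A, N *ᵥ x = 0 → p *ᵥ x = d • x := by
  classical
  let K := FractionRing A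
  let φ : A →+* K := algebraMap A K
  have hφ : Function.Injective φ := IsFractionRing.injective A K
  let NK : Matrix (Fin n) (Fin n) K := N.map φ
  obtain ⟨f, hf1, hf2⟩ : ∃ f : (Fin n → K) →ₗ[K] (Fin n → K),
      (∀ x, NK *ᵥ (f x) = 0) ∧ ∀ x, NK *ᵥ x = 0 → f x = x := by
    obtain ⟨g, hg⟩ := (LinearMap.ker (Matrix.toLin' NK)).subtype.exists_leftInverse_of_injective
      (by simp)
    refine ⟨(LinearMap.ker (Matrix.toLin' NK)).subtype ∘ₗ g, ?_, ?_⟩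
    · intro x
      have := (g x).2
      rw [LinearMap.mem_ker, Matrix.toLin'_apply] at this
      exact this
    · intro x hx
      have hx' : x ∈ LinearMap.ker (Matrix.toLin' NK) := by
        rw [LinearMap.mem_ker, Matrix.toLin'_apply]; exact hx
      have := congrArg (fun h => h ⟨x, hx'⟩) hg
      simp only [LinearMap.comp_apply, Submodule.subtype_apply, LinearMap.id_apply] at this
      show ((g x : LinearMap.ker (Matrix.toLin' NK)) : Fin n → K) = x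
      rw [this]
  let P : Matrix (Fin n) (Fin n) K := LinearMap.toMatrix' f
  have hP : ∀ x, P *ᵥ x = f x := fun x => by
    show (LinearMap.toMatrix' f) *ᵥ x = f x
    rw [LinearMap.toMatrix'_mulVec]
  obtain ⟨b, hb⟩ := IsLocalization.exist_integer_multiples_of_finite (nonZeroDivisors A)
    (fun q : Fin n × Fin n => P q.1 q.2)
  choose p hp using hb
  set pm : Matrix (Fin n) (Fin n) A := Matrix.of fun i j => p (i, j) with hpm
  have h2 : pm.map φ = φ b • P := by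
    ext i j
    have := hp (i, j)
    simp only [hpm, Matrix.map_apply, Matrix.of_apply, Matrix.smul_apply, smul_eq_mul]
    rw [Algebra.smul_def] at this
    exact this
  refine ⟨b, pm, nonZeroDivisors.coe_ne_zero b, ?_, ?_⟩
  · have h1 : (N * pm).map φ = 0 := by
      rw [Matrix.map_mul]
      rw [h2, Matrix.mul_smul]
      have h3 : N.map φ * P = 0 := by
        ext i j
        have h4 := congrFun (hf1 (Pi.single j 1)) i
        rw [← hP] at h4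
        rw [Matrix.mulVec_mulVec, Matrix.mulVec_single_one] at h4
        exact h4
      rw [h3, smul_zero]
    ext i j
    have := congrFun (congrFun h1 i) j
    rw [Matrix.map_apply, Matrix.zero_apply] at this
    exact hφ (by rw [this]; simp)
  · intro x hx
    have h1 : NK *ᵥ (φ ∘ x) = 0 := by
      ext i
      show ((N.map φ) *ᵥ (φ ∘ x)) i = 0
      rw [← RingHom.map_mulVec, hx]; simp
    have h4 := hf2 _ h1
    ext i
    apply hφ
    rw [RingHom.map_mulVec]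
    rw [h2, Matrix.smul_mulVec, hP, h4]
    simp

/-- vectors with a multiple over `A` -/
def QV {F : Type u} [Field F] (A : Subring F) {n : ℕ} (x : Fin n → F) : Prop :=
  ∃ e : F, e ≠ 0 ∧ ∀ i, e * x i ∈ A

lemma QV.mul {F : Type u} [Field F] {A : Subring F} {n : ℕ} {x : Fin n → F} (h : QV A x)
    {M : Matrix (Fin n) (Fin n) F} {d : F} (hd : d ≠ 0) (hM : ∀ i j, d * M i j ∈ A) :
    QV A (M *ᵥ x) := by
  obtain ⟨e, he, hx⟩ := h
  refine ⟨d * e, mul_ne_zero hd he, fun i => ?_⟩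
  have h1 : d * e * (M *ᵥ x) i = ∑ j, (d * M i j) * (e * x j) := by
    simp only [Matrix.mulVec, dotProduct, Finset.mul_sum]
    exact Finset.sum_congr rfl fun j _ => by ring
  rw [h1]
  exact sum_mem fun j _ => A.mul_mem (hM i j) (hx j)

lemma projF {F : Type u} [Field F] (A : Subring F) (n : ℕ) (N : Matrix (Fin n) (Fin n) F)
    (d : F) (hd : d ≠ 0) (hN : ∀ i j, d * N i j ∈ A) :
    ∃ (d₁ : F) (p : Matrix (Fin n) (Fin n) F), d₁ ≠ 0 ∧ (∀ i j, p i j ∈ A) ∧ N * p = 0 ∧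
      ∀ x : Fin n → F, QV A x → N *ᵥ x = 0 → p *ᵥ x = d₁ • x := by
  set N' : Matrix (Fin n) (Fin n) A := Matrix.of fun i j => (⟨d * N i j, hN i j⟩ : A) with hN'
  obtain ⟨d₁, p, h1, h2, h3⟩ := proj n N'
  have h5 : N'.map A.subtype = d • N := by
    ext i j
    rfl
  refine ⟨d₁, p.map A.subtype, fun h => h1 (Subtype.ext h), fun i j => (p i j).2, ?_, ?_⟩
  · have h4 : (N' * p).map A.subtype = 0 := by
      rw [h2]
      ext i j
      rfl
    rw [Matrix.map_mul, h5, Matrix.smul_mul] at h4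
    exact (smul_eq_zero.1 h4).resolve_left hd
  · rintro x ⟨e, he, hx⟩ hNx
    set y : Fin n → A := fun i => ⟨e * x i, hx i⟩ with hy
    have h6 : A.subtype ∘ y = e • x := by
      ext i
      rfl
    have h7 : N' *ᵥ y = 0 := by
      funext i
      apply A.subtype_injective
      rw [RingHom.map_mulVec, h5, h6, Matrix.smul_mulVec, Matrix.mulVec_smul, hNx]
      simp
    have h8 := h3 y h7
    have h9 : e • (p.map A.subtype *ᵥ x) = e • ((d₁ : F) • x) := by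
      rw [← Matrix.mulVec_smul, ← h6]
      funext i
      rw [← RingHom.map_mulVec, h8, smul_comm, ← h6]
      rfl
    exact smul_right_injective _ he h9

end VALDx

open Matrix VALDx in
theorem t_VALD : s_VALD.{u} := by
  intro F _ A n Z _ c hc ρ d hd hρ hN h1
  classical
  set N : Matrix (Fin n) (Fin n) F := ρ c - 1 with hNdef
  have hN0 : N ≠ 0 := by
    rw [hNdef]; exact sub_ne_zero.2 h1
  -- the maximal power which is not zero
  obtain ⟨s, hs0, hs1⟩ : ∃ s : ℕ, N ^ (s + 1) ≠ 0 ∧ N ^ (s + 2) = 0 := by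
    have hex : ∃ k, N ^ k = 0 := hN
    have h3 := Nat.find_spec hex
    have h4 : 2 ≤ Nat.find hex := by
      by_contra h
      push Not at h
      interval_cases h5 : Nat.find hex
      · apply hN0
        rw [← mul_one N, ← pow_zero N, h3, mul_zero]
      · rw [pow_one] at h3; exact hN0 h3
    obtain ⟨s, hs⟩ := Nat.exists_eq_add_of_le h4
    refine ⟨s, ?_, ?_⟩
    · apply Nat.find_min hex; omega
    · rw [add_comm s 2, ← hs]; exact h3
  obtain ⟨i₀, k, hik⟩ : ∃ i₀ k, (N ^ (s + 1)) i₀ k ≠ 0 := by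
    by_contra h
    push Not at h
    exact hs0 (by ext i j; exact h i j)
  have hNA : ∀ i j, d * N i j ∈ A := by
    intro i j
    have h2 := A.sub_mem (hρ c i j) (hρ 1 i j)
    rw [map_one, ← mul_sub] at h2
    exact h2
  have hdA : d ∈ A := by
    have h2 := hρ 1 i₀ i₀
    rw [map_one, Matrix.one_apply_eq, mul_one] at h2
    exact h2
  obtain ⟨d₁, p, hd₁, hpA, hp1, hp2⟩ := projF A n N d hd hNA
  have hqs : ∀ r : ℕ, QV A ((N ^ r) *ᵥ (Pi.single k 1 : Fin n → F)) := by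
    intro r
    induction r with
    | zero =>
      refine ⟨1, one_ne_zero, fun i => ?_⟩
      rw [pow_zero, Matrix.one_mulVec, one_mul]
      by_cases hik' : i = k
      · subst hik'
        rw [Pi.single_eq_same]
        exact A.one_mem
      · rw [Pi.single_eq_of_ne hik']
        exact A.zero_mem
    | succ r ih =>
      rw [pow_succ', ← Matrix.mulVec_mulVec]
      exact ih.mul hd hNA
  obtain ⟨e, he, heA⟩ := hqs s
  set u : Fin n → F := e • ((N ^ s) *ᵥ (Pi.single k 1)) with hu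
  have huA : ∀ i, u i ∈ A := heA
  have hqu : QV A u := ⟨1, one_ne_zero, fun i => by rw [one_mul]; exact huA i⟩
  have hNu : N *ᵥ u = e • ((N ^ (s + 1)) *ᵥ (Pi.single k 1)) := by
    rw [hu, Matrix.mulVec_smul, Matrix.mulVec_mulVec, ← pow_succ']
  have hNu0 : (N *ᵥ u) i₀ ≠ 0 := by
    rw [hNu, Matrix.mulVec_single_one]; exact mul_ne_zero he hik
  have hNNu : N *ᵥ (N *ᵥ u) = 0 := by
    rw [hNu, Matrix.mulVec_smul, Matrix.mulVec_mulVec, ← pow_succ', hs1, Matrix.zero_mulVec,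
      smul_zero]
  have hcw : ∀ w, ρ c * ρ w = ρ w * ρ c := fun w => by rw [← map_mul, ← map_mul, hc]
  have hNw : ∀ w, N * ρ w = ρ w * N := fun w => by
    rw [hNdef, sub_mul, mul_sub, one_mul, mul_one, hcw]
  have hinv : ∀ w, ρ w⁻¹ * ρ w = 1 := fun w => by rw [← map_mul, inv_mul_cancel, map_one]
  have hinv' : ∀ w, ρ w * ρ w⁻¹ = 1 := fun w => by rw [← map_mul, mul_inv_cancel, map_one]
  let ξ : Z → Matrix (Fin n) (Fin n) F := fun t => ρ t * p * ρ t⁻¹ - p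
  -- `N ξ = 0`
  have hNξ : ∀ t, N * ξ t = 0 := fun t => by
    show N * (ρ t * p * ρ t⁻¹ - p) = 0
    rw [mul_sub, ← mul_assoc, ← mul_assoc, hNw, mul_assoc (ρ t), hp1]; simp
  have hcdef : ρ c = 1 + N := by rw [hNdef]; abel
  have hcξ : ∀ t, ρ c * ξ t = ξ t := fun t => by
    rw [hcdef, add_mul, one_mul, hNξ, add_zero]
  have hcξ' : ∀ t, ρ c⁻¹ * ξ t = ξ t := fun t => by
    conv_lhs => rw [← hcξ t]
    rw [← mul_assoc, hinv, one_mul]
  -- `ξ N x = 0` for `N N x = 0`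
  have hξN : ∀ t (x : Fin n → F), QV A x → N *ᵥ (N *ᵥ x) = 0 → ξ t *ᵥ (N *ᵥ x) = 0 := by
    intro t x hqx hx
    show (ρ t * p * ρ t⁻¹ - p) *ᵥ (N *ᵥ x) = 0
    rw [Matrix.sub_mulVec, hp2 _ (hqx.mul hd hNA) hx]
    have h5 : (ρ t * p * ρ t⁻¹) *ᵥ (N *ᵥ x) = ρ t *ᵥ (p *ᵥ (N *ᵥ (ρ t⁻¹ *ᵥ x))) := by
      rw [← Matrix.mulVec_mulVec, ← Matrix.mulVec_mulVec, Matrix.mulVec_mulVec x (ρ t⁻¹) N,
        ← hNw, ← Matrix.mulVec_mulVec]
    have h6 : N *ᵥ (N *ᵥ (ρ t⁻¹ *ᵥ x)) = 0 := by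
      rw [Matrix.mulVec_mulVec x N (ρ t⁻¹), hNw, ← Matrix.mulVec_mulVec,
        Matrix.mulVec_mulVec _ N (ρ t⁻¹), hNw, ← Matrix.mulVec_mulVec, hx, Matrix.mulVec_zero]
    rw [h5, hp2 _ ((hqx.mul hd (hρ t⁻¹)).mul hd hNA) h6, Matrix.mulVec_smul,
      Matrix.mulVec_mulVec x N (ρ t⁻¹), hNw,
      Matrix.mulVec_mulVec, ← mul_assoc, hinv', one_mul, sub_self]
  have hNNw : ∀ w, N *ᵥ (N *ᵥ (ρ w *ᵥ u)) = 0 := fun w => by
    rw [Matrix.mulVec_mulVec u N (ρ w), hNw, ← Matrix.mulVec_mulVec,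
      Matrix.mulVec_mulVec _ N (ρ w), hNw, ← Matrix.mulVec_mulVec, hNNu, Matrix.mulVec_zero]
  have hqw : ∀ w, QV A (ρ w *ᵥ u) := fun w => hqu.mul hd (hρ w)
  -- the data over the field
  obtain ⟨B₀, hB₀⟩ : ∃ B₀ : Z → Z → F, B₀ = fun w t => -((ρ w⁻¹ *ᵥ (ξ t *ᵥ (ρ w *ᵥ u))) i₀) :=
    ⟨_, rfl⟩
  have hm : ∀ w t s', B₀ w (t * s') = B₀ w t + B₀ (t⁻¹ * w) s' := by
    intro w t s'
    have h5 : ξ (t * s') = ξ t + ρ t * ξ s' * ρ t⁻¹ := by
      show ρ (t * s') * p * ρ (t * s')⁻¹ - p =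
        (ρ t * p * ρ t⁻¹ - p) + ρ t * (ρ s' * p * ρ s'⁻¹ - p) * ρ t⁻¹
      rw [_root_.mul_inv_rev, map_mul, map_mul, mul_sub, sub_mul]
      simp only [mul_assoc]
      abel
    have h6 : ρ (t⁻¹ * w)⁻¹ *ᵥ (ξ s' *ᵥ (ρ (t⁻¹ * w) *ᵥ u)) =
        ρ w⁻¹ *ᵥ ((ρ t * ξ s' * ρ t⁻¹) *ᵥ (ρ w *ᵥ u)) := by
      rw [_root_.mul_inv_rev, inv_inv, map_mul, map_mul]
      simp only [Matrix.mulVec_mulVec, mul_assoc]
    rw [hB₀]
    show -((ρ w⁻¹ *ᵥ (ξ (t * s') *ᵥ (ρ w *ᵥ u))) i₀) = -((ρ w⁻¹ *ᵥ (ξ t *ᵥ (ρ w *ᵥ u))) i₀) +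
      -((ρ (t⁻¹ * w)⁻¹ *ᵥ (ξ s' *ᵥ (ρ (t⁻¹ * w) *ᵥ u))) i₀)
    rw [h6, h5, Matrix.add_mulVec, Matrix.mulVec_add, Pi.add_apply]
    ring
  have hv : ∀ w, B₀ w c = d₁ * (N *ᵥ u) i₀ := by
    intro w
    rw [hB₀]
    show -((ρ w⁻¹ *ᵥ (ξ c *ᵥ (ρ w *ᵥ u))) i₀) = d₁ * (N *ᵥ u) i₀
    set u' := ρ w *ᵥ u with hu'
    have h7 : ρ c⁻¹ *ᵥ u' = u' - N *ᵥ u' := by
      have h8 : ρ c *ᵥ (u' - N *ᵥ u') = u' := by
        rw [hcdef, Matrix.add_mulVec, Matrix.one_mulVec, Matrix.mulVec_sub, hNNw w]; simp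
      conv_lhs => rw [← h8]
      rw [Matrix.mulVec_mulVec, hinv, Matrix.one_mulVec]
    have h8 : ξ c *ᵥ u' = -(d₁ • (N *ᵥ u')) := by
      show (ρ c * p * ρ c⁻¹ - p) *ᵥ u' = _
      rw [Matrix.sub_mulVec, ← Matrix.mulVec_mulVec, ← Matrix.mulVec_mulVec, h7,
        Matrix.mulVec_sub p, hp2 _ ((hqw w).mul hd hNA) (hNNw w), hcdef, Matrix.add_mulVec,
        Matrix.one_mulVec,
        Matrix.mulVec_sub N, Matrix.mulVec_smul N, hNNw w, Matrix.mulVec_mulVec u' N p, hp1,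
        Matrix.zero_mulVec, smul_zero]
      abel
    rw [h8, Matrix.mulVec_neg, Matrix.mulVec_smul, hu', Matrix.mulVec_mulVec _ N (ρ w), hNw,
      Matrix.mulVec_mulVec, ← mul_assoc, hinv, one_mul]
    simp
  have hi : ∀ w t, B₀ (c * w) t = B₀ w t := by
    intro w t
    rw [hB₀]
    show -((ρ (c * w)⁻¹ *ᵥ (ξ t *ᵥ (ρ (c * w) *ᵥ u))) i₀) = -((ρ w⁻¹ *ᵥ (ξ t *ᵥ (ρ w *ᵥ u))) i₀)
    have h9 : ρ (c * w) *ᵥ u = ρ w *ᵥ u + N *ᵥ (ρ w *ᵥ u) := by
      rw [map_mul, ← Matrix.mulVec_mulVec, hcdef, Matrix.add_mulVec, Matrix.one_mulVec]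
    rw [h9, Matrix.mulVec_add, hξN t _ (hqw w) (hNNw w), add_zero, _root_.mul_inv_rev, map_mul,
      ← Matrix.mulVec_mulVec, Matrix.mulVec_mulVec _ (ρ c⁻¹) (ξ t), hcξ']
  have hsum : ∀ w t, B₀ w t =
      ∑ q : Fin n × Fin n, -(ρ w⁻¹ i₀ q.1 * (ρ w *ᵥ u) q.2) * ξ t q.1 q.2 := by
    intro w t
    rw [hB₀]
    show -((ρ w⁻¹ *ᵥ (ξ t *ᵥ (ρ w *ᵥ u))) i₀) =
      ∑ q : Fin n × Fin n, -(ρ w⁻¹ i₀ q.1 * (ρ w *ᵥ u) q.2) * ξ t q.1 q.2
    rw [Fintype.sum_prod_type]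
    simp only [Matrix.mulVec, dotProduct, Finset.mul_sum, ← Finset.sum_neg_distrib]
    refine Finset.sum_congr rfl fun a _ => Finset.sum_congr rfl fun b _ => ?_
    simp only [Finset.sum_mul]
    refine Finset.sum_congr rfl fun e _ => ?_
    ring
  -- everything is over `A` after multiplication by `d ^ 4`
  have hYA : ∀ (q : Fin n × Fin n) (t : Z), d ^ 2 * ξ t q.1 q.2 ∈ A := by
    intro q t
    have h2 : d ^ 2 * ξ t q.1 q.2 = ∑ l, (∑ m, (d * ρ t q.1 m) * p m l) * (d * ρ t⁻¹ l q.2) -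
        d ^ 2 * p q.1 q.2 := by
      show d ^ 2 * ((ρ t * p * ρ t⁻¹ - p) q.1 q.2) = _
      rw [Matrix.sub_apply, mul_sub]
      congr 1
      rw [Matrix.mul_apply, Finset.mul_sum]
      refine Finset.sum_congr rfl fun l _ => ?_
      rw [Matrix.mul_apply, Finset.sum_mul, Finset.mul_sum, Finset.sum_mul]
      refine Finset.sum_congr rfl fun m _ => ?_
      ring
    rw [h2]
    exact A.sub_mem (sum_mem fun l _ => A.mul_mem (sum_mem fun m _ =>
      A.mul_mem (hρ t _ _) (hpA _ _)) (hρ _ _ _)) (A.mul_mem (A.pow_mem hdA 2) (hpA _ _))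
  have hXA : ∀ (q : Fin n × Fin n) (w : Z),
      d ^ 2 * -(ρ w⁻¹ i₀ q.1 * (ρ w *ᵥ u) q.2) ∈ A := by
    intro q w
    have h2 : d ^ 2 * -(ρ w⁻¹ i₀ q.1 * (ρ w *ᵥ u) q.2) =
        -((d * ρ w⁻¹ i₀ q.1) * ∑ j, (d * ρ w q.2 j) * u j) := by
      simp only [Matrix.mulVec, dotProduct, mul_neg, neg_inj]
      rw [pow_two, mul_mul_mul_comm, Finset.mul_sum]
      congr 1
      exact Finset.sum_congr rfl fun j _ => by ring
    rw [h2]
    exact A.neg_mem (A.mul_mem (hρ _ _ _) (sum_mem fun j _ => A.mul_mem (hρ _ _ _) (huA j)))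
  set X : Fin n × Fin n → Z → A := fun q w => ⟨_, hXA q w⟩ with hX
  set Y : Fin n × Fin n → Z → A := fun q t => ⟨_, hYA q t⟩ with hY
  have hB : ∀ w t, ((∑ q, X q w * Y q t : A) : F) = d ^ 4 * B₀ w t := by
    intro w t
    rw [hsum, Finset.mul_sum]
    push_cast
    refine Finset.sum_congr rfl fun q _ => ?_
    show (d ^ 2 * -(ρ w⁻¹ i₀ q.1 * (ρ w *ᵥ u) q.2)) * (d ^ 2 * ξ t q.1 q.2) = _
    ring
  refine ⟨∑ q, X q 1 * Y q c, fun w t => ∑ q, X q w * Y q t, X, Y, ?_, ⟨?_, ?_, ?_⟩,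
    fun w t => rfl⟩
  · intro h
    have h2 := hB 1 c
    rw [h, hv] at h2
    exact mul_ne_zero (pow_ne_zero 4 hd) (mul_ne_zero hd₁ hNu0) h2.symm
  · intro w t s'
    apply Subtype.ext
    show ((∑ q, X q w * Y q (t * s') : A) : F) =
      ((∑ q, X q w * Y q t : A) : F) + ((∑ q, X q (t⁻¹ * w) * Y q s' : A) : F)
    rw [hB, hB, hB, hm]
    ring
  · intro w
    apply Subtype.ext
    show ((∑ q, X q w * Y q c : A) : F) = ((∑ q, X q 1 * Y q c : A) : F)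
    rw [hB, hB, hv, hv]
  · intro w t
    apply Subtype.ext
    show ((∑ q, X q (c * w) * Y q t : A) : F) = ((∑ q, X q w * Y q t : A) : F)
    rw [hB, hB, hi]

end Pool.Agent.SUR
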