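import Pool.Agent.SUR.StV

/-!
# Module VDES: descent to a finitely generated subring
-/

set_option autoImplicit false

universe u v

namespace Pool.Agent.SUR

open Pool.Agent.WhK Finset

namespace VDESx

section

variable {K B : Type u} [Field K] [Ring B] [Algebra K B]

/-- every element of the algebra generated by `b` over `K` is in the algebra generated by `b` over every
subring which contains finitely many coefficients -/
lemma coef (b : Set B) (hb : Algebra.adjoin K b = ⊤) (x : B) :
    ∃ s : Set K, s.Finite ∧ ∀ A : Subring K, s ⊆ (A : Set K) → x ∈ Algebra.adjoin A b := by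
  have hx : x ∈ Algebra.adjoin K b := by rw [hb]; exact Algebra.mem_top
  induction hx using Algebra.adjoin_induction with
  | mem x hx => exact ⟨∅, Set.finite_empty, fun A _ => Algebra.subset_adjoin hx⟩
  | algebraMap r =>
    refine ⟨{r}, Set.finite_singleton r, fun A hA => ?_⟩
    have hr : r ∈ A := hA (Set.mem_singleton r)
    exact (Algebra.adjoin A b).algebraMap_mem ⟨r, hr⟩
  | add x y _ _ hx hy =>
    obtain ⟨s, hs, h1⟩ := hx
    obtain ⟨s', hs', h1'⟩ := hy
    exact ⟨s ∪ s', hs.union hs', fun A hA => add_mem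
      (h1 A (Set.subset_union_left.trans hA)) (h1' A (Set.subset_union_right.trans hA))⟩
  | mul x y _ _ hx hy =>
    obtain ⟨s, hs, h1⟩ := hx
    obtain ⟨s', hs', h1'⟩ := hy
    exact ⟨s ∪ s', hs.union hs', fun A hA => mul_mem
      (h1 A (Set.subset_union_left.trans hA)) (h1' A (Set.subset_union_right.trans hA))⟩

/-- an automorphism which maps the generators to the subalgebra preserves it -/
lemma map_adjoin (A : Subring K) (b : Set B) (θ : B ≃ₐ[K] B)
    (h : ∀ x ∈ b, θ x ∈ Algebra.adjoin A b) : ∀ x ∈ Algebra.adjoin A b, θ x ∈ Algebra.adjoin A b := by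
  intro x hx
  induction hx using Algebra.adjoin_induction with
  | mem x hx => exact h x hx
  | algebraMap r =>
    have h1 : algebraMap A B r = algebraMap K B (r : K) := rfl
    rw [h1, θ.commutes, ← h1]
    exact (Algebra.adjoin A b).algebraMap_mem r
  | add x y _ _ hx hy => rw [map_add]; exact add_mem hx hy
  | mul x y _ _ hx hy => rw [map_mul]; exact mul_mem hx hy

/-- the augmentation maps the subalgebra to the subring -/
lemma eps_mem (ε : B →ₐ[K] K) (A : Subring K) (b : Set B) (h : ∀ x ∈ b, ε x = 0) :
    ∀ x ∈ Algebra.adjoin A b, ε x ∈ A := by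
  intro x hx
  induction hx using Algebra.adjoin_induction with
  | mem x hx => rw [h x hx]; exact A.zero_mem
  | algebraMap r =>
    have h1 : algebraMap A B r = algebraMap K B (r : K) := rfl
    rw [h1, ε.commutes]
    exact r.2
  | add x y _ _ hx hy => rw [map_add]; exact add_mem hx hy
  | mul x y _ _ hx hy => rw [map_mul]; exact mul_mem hx hy

/-- the restricted augmentation -/
noncomputable def eps (ε : B →ₐ[K] K) (A : Subring K) (b : Set B) (h : ∀ x ∈ b, ε x = 0) :
    Algebra.adjoin A b →ₐ[A] A where
  toFun x := ⟨ε (x : B), eps_mem ε A b h x x.2⟩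
  map_one' := Subtype.ext (map_one ε)
  map_mul' x y := Subtype.ext (map_mul ε (x : B) (y : B))
  map_zero' := Subtype.ext (map_zero ε)
  map_add' x y := Subtype.ext (map_add ε (x : B) (y : B))
  commutes' r := Subtype.ext (ε.commutes (r : K))

/-- powers of the augmentation ideals -/
lemma pow_mem (ε : B →ₐ[K] K) (A : Subring K) (b : Set B) (h : ∀ x ∈ b, ε x = 0) (k : ℕ) :
    ∀ y ∈ augI (eps ε A b h) ^ k, (y : B) ∈ augI ε ^ k := by
  induction k with
  | zero =>
    intro y hy
    rw [pow_zero, Submodule.mem_one] at hy ⊢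
    obtain ⟨a, rfl⟩ := hy
    exact ⟨(a : K), rfl⟩
  | succ k ih =>
    intro y hy
    rw [pow_succ] at hy ⊢
    induction hy using Submodule.mul_induction_on' with
    | mem_mul_mem m hm n hn =>
      have h1 : ((n : Algebra.adjoin A b) : B) ∈ augI ε := by
        have h2 : eps ε A b h n = 0 := hn
        have h3 := congrArg (fun z : A => (z : K)) h2
        exact h3
      exact Submodule.mul_mem_mul (ih m hm) h1
    | add x _ y _ hx hy =>
      exact Submodule.add_mem _ hx hy

/-- the restriction of an automorphism as an algebra homomorphism -/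
noncomputable def res (A : Subring K) (b : Set B) (θ : B ≃ₐ[K] B)
    (h : ∀ x ∈ Algebra.adjoin A b, θ x ∈ Algebra.adjoin A b) :
    Algebra.adjoin A b →ₐ[A] Algebra.adjoin A b where
  toFun x := ⟨θ (x : B), h x x.2⟩
  map_one' := Subtype.ext (map_one θ)
  map_mul' x y := Subtype.ext (map_mul θ (x : B) (y : B))
  map_zero' := Subtype.ext (map_zero θ)
  map_add' x y := Subtype.ext (map_add θ (x : B) (y : B))
  commutes' r := Subtype.ext (θ.commutes (r : K))

/-- the restricted action -/
noncomputable def act {G : Type u} [Group G] (φ : G →* (B ≃ₐ[K] B)) (A : Subring K) (b : Set B)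
    (h : ∀ g, ∀ x ∈ Algebra.adjoin A b, φ g x ∈ Algebra.adjoin A b) :
    G →* (Algebra.adjoin A b ≃ₐ[A] Algebra.adjoin A b) where
  toFun g := AlgEquiv.ofAlgHom (res A b (φ g) (h g)) (res A b (φ g⁻¹) (h g⁻¹))
    (by
      apply AlgHom.ext
      intro x
      apply Subtype.ext
      show φ g (φ g⁻¹ (x : B)) = (x : B)
      rw [← AlgEquiv.mul_apply, ← map_mul, mul_inv_cancel, map_one, AlgEquiv.one_apply])
    (by
      apply AlgHom.ext
      intro x
      apply Subtype.ext
      show φ g⁻¹ (φ g (x : B)) = (x : B)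
      rw [← AlgEquiv.mul_apply, ← map_mul, inv_mul_cancel, map_one, AlgEquiv.one_apply])
  map_one' := by
    apply AlgEquiv.ext
    intro x
    apply Subtype.ext
    show φ 1 (x : B) = (x : B)
    rw [map_one, AlgEquiv.one_apply]
  map_mul' g g' := by
    apply AlgEquiv.ext
    intro x
    apply Subtype.ext
    show φ (g * g') (x : B) = φ g (φ g' (x : B))
    rw [map_mul, AlgEquiv.mul_apply]

lemma act_apply {G : Type u} [Group G] (φ : G →* (B ≃ₐ[K] B)) (A : Subring K) (b : Set B)
    (h : ∀ g, ∀ x ∈ Algebra.adjoin A b, φ g x ∈ Algebra.adjoin A b) (g : G)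
    (x : Algebra.adjoin A b) : ((act φ A b h g x : Algebra.adjoin A b) : B) = φ g (x : B) := rfl

end

end VDESx

open VDESx in
theorem t_VDES : s_VDES.{u} := by
  classical
  intro K B _ _ _ ε hft hsat G _ φ hG hφ haug
  obtain ⟨t, ht⟩ := hft.out
  -- generators with augmentation zero
  set b : Set B := (fun x => x - algebraMap K B (ε x)) '' (t : Set B) with hbdef
  have hbfin : b.Finite := t.finite_toSet.image _
  have hb0 : ∀ x ∈ b, ε x = 0 := by
    rintro _ ⟨x, -, rfl⟩
    simp only [map_sub, ε.commutes, Algebra.algebraMap_self, RingHom.id_apply, sub_self]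
  have hb : Algebra.adjoin K b = ⊤ := by
    rw [eq_top_iff, ← ht]
    apply Algebra.adjoin_le
    intro x hx
    have h1 : x - algebraMap K B (ε x) ∈ Algebra.adjoin K b :=
      Algebra.subset_adjoin ⟨x, hx, rfl⟩
    have h2 := add_mem h1 ((Algebra.adjoin K b).algebraMap_mem (ε x))
    rwa [sub_add_cancel] at h2
  -- generators of the group
  obtain ⟨T, hT⟩ := Monoid.fg_def.1 (Group.fg_iff_monoid_fg.1 hG)
  -- the coefficients
  choose s hs hsA using fun x : B => coef (K := K) b hb x
  set S : Set K := ⋃ g ∈ T, ⋃ x ∈ hbfin.toFinset, s (φ g x) with hS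
  have hSfin : S.Finite := T.finite_toSet.biUnion fun g _ =>
    (Finset.finite_toSet _).biUnion fun x _ => hs _
  set A := Subring.closure S with hA
  have hmem : ∀ g ∈ T, ∀ x ∈ b, φ g x ∈ Algebra.adjoin A b := by
    intro g hg x hx
    apply hsA
    refine Set.Subset.trans ?_ Subring.subset_closure
    intro z hz
    rw [hS]
    refine Set.mem_biUnion hg (Set.mem_biUnion (hbfin.mem_toFinset.2 hx) hz)
  have hall : ∀ g, ∀ x ∈ Algebra.adjoin A b, φ g x ∈ Algebra.adjoin A b := by
    intro g
    have hg : g ∈ Submonoid.closure (T : Set G) := by rw [hT]; exact Submonoid.mem_top g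
    induction hg using Submonoid.closure_induction with
    | mem g hg => exact map_adjoin A b (φ g) (hmem g hg)
    | one => intro x hx; rw [map_one, AlgEquiv.one_apply]; exact hx
    | mul g g' _ _ h h' =>
      intro x hx
      rw [map_mul, AlgEquiv.mul_apply]
      exact h _ (h' x hx)
  refine ⟨S, hSfin, Algebra.adjoin A b, inferInstance, inferInstance, eps ε A b hb0,
    act φ A b hall, ?_, ?_, ?_, ?_⟩
  · -- finite type
    refine (Subalgebra.fg_iff_finiteType _).1 ?_
    exact ⟨hbfin.toFinset, by rw [hbfin.coe_toFinset]⟩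
  · -- the intersection
    intro x hx
    apply Subtype.ext
    apply hsat
    intro k hk
    obtain ⟨a, ha, hax⟩ := hx k hk
    have h1 := pow_mem ε A b hb0 k _ hax
    have h2 : ((a • x : Algebra.adjoin A b) : B) = (a : K) • (x : B) := rfl
    rw [h2] at h1
    have ha' : (a : K) ≠ 0 := fun h => ha (Subtype.ext h)
    have h3 := (augI ε ^ k).smul_mem (a : K)⁻¹ h1
    rwa [smul_smul, inv_mul_cancel₀ ha', one_smul] at h3
  · -- injectivity
    intro g g' hgg
    apply hφ
    have h1 : ((φ g : B ≃ₐ[K] B) : B →ₐ[K] B) = ((φ g' : B ≃ₐ[K] B) : B →ₐ[K] B) := by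
      apply AlgHom.ext_of_adjoin_eq_top hb
      intro x hx
      have h2 := congrArg (fun θ : Algebra.adjoin A b ≃ₐ[A] Algebra.adjoin A b =>
        ((θ ⟨x, Algebra.subset_adjoin hx⟩ : Algebra.adjoin A b) : B)) hgg
      exact h2
    apply AlgEquiv.ext
    intro x
    exact DFunLike.congr_fun h1 x
  · -- the augmentation
    intro g x
    apply Subtype.ext
    exact haug g (x : B)

end Pool.Agent.SUR
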