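import Pool.Agent.SUR.StV

/-!
# Module VDOM: the intersection theorem of Krull for powers of submodules
-/

set_option autoImplicit false

universe u v

namespace Pool.Agent.SUR

theorem t_VDOM : s_VDOM.{u} := by
  intro K B _ _ _ _ ε hft x hx
  have : IsNoetherianRing B := Algebra.FiniteType.isNoetherianRing K B
  have hle : ∀ k : ℕ, augI ε ^ k ≤ (RingHom.ker ε ^ k).restrictScalars K := by
    intro k
    induction k with
    | zero =>
      intro y _
      rw [Submodule.restrictScalars_mem, pow_zero, Ideal.one_eq_top]
      exact Submodule.mem_top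
    | succ k ih =>
      rw [pow_succ]
      refine Submodule.mul_le.2 fun m hm n hn => ?_
      rw [Submodule.restrictScalars_mem, pow_succ]
      refine Ideal.mul_mem_mul (ih hm) ?_
      rw [RingHom.mem_ker]
      have : ε.toLinearMap n = 0 := hn
      exact this
  have htop : RingHom.ker ε ≠ ⊤ := RingHom.ker_ne_top _
  have hb := Ideal.iInf_pow_eq_bot_of_isDomain (RingHom.ker ε) htop
  have hm : x ∈ ⨅ i : ℕ, RingHom.ker ε ^ i := by
    rw [Submodule.mem_iInf]
    intro k
    rcases Nat.eq_zero_or_pos k with rfl | hk
    · rw [pow_zero, Ideal.one_eq_top]; exact Submodule.mem_top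
    · exact hle k (hx k hk)
  rw [hb] at hm
  exact (Submodule.mem_bot B).1 hm

end Pool.Agent.SUR
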