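import Pool.Agent.SUR.StV

/-!
# Algebras with an augmentation: powers of the augmentation ideal

`t_VGRF : s_VGRF`.
-/

set_option autoImplicit false

universe u v

namespace Pool.Agent.SUR.VGRFx

open Finset

variable {A : Type u} {R : Type v} [CommRing A] [Ring R] [Algebra A R] (ε : R →ₐ[A] A)

lemma mem_augI (x : R) : x ∈ augI ε ↔ ε x = 0 := Iff.rfl

lemma sub_mem (x : R) : x - algebraMap A R (ε x) ∈ augI ε := by
  rw [mem_augI, map_sub, AlgHom.commutes, Algebra.algebraMap_self, RingHom.id_apply, sub_self]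

lemma top_mul_le : (⊤ : Submodule A R) * augI ε ≤ augI ε := by
  refine Submodule.mul_le.2 fun m _ x hx => ?_
  rw [mem_augI] at hx ⊢
  rw [map_mul, hx, mul_zero]

lemma mul_top_le : augI ε * (⊤ : Submodule A R) ≤ augI ε := by
  refine Submodule.mul_le.2 fun x hx m _ => ?_
  rw [mem_augI] at hx ⊢
  rw [map_mul, hx, zero_mul]

lemma top_mul_pow (k : ℕ) (hk : 1 ≤ k) : (⊤ : Submodule A R) * augI ε ^ k ≤ augI ε ^ k := by
  obtain ⟨j, rfl⟩ : ∃ j, k = j + 1 := ⟨k - 1, by omega⟩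
  rw [pow_succ', ← mul_assoc]
  exact mul_le_mul' (top_mul_le ε) le_rfl

lemma pow_mul_top (k : ℕ) (hk : 1 ≤ k) : augI ε ^ k * (⊤ : Submodule A R) ≤ augI ε ^ k := by
  obtain ⟨j, rfl⟩ : ∃ j, k = j + 1 := ⟨k - 1, by omega⟩
  rw [pow_succ, mul_assoc]
  exact mul_le_mul' le_rfl (mul_top_le ε)

/-- the span of the `t - ε t`, `t ∈ T` -/
def VZ (T : Finset R) : Submodule A R :=
  Submodule.span A {x | ∃ t ∈ T, x = t - algebraMap A R (ε t)}

lemma VZ_le (T : Finset R) : VZ ε T ≤ augI ε := by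
  refine Submodule.span_le.2 ?_
  rintro x ⟨t, _, rfl⟩
  exact sub_mem ε t

lemma VZ_fg (T : Finset R) : (VZ ε T).FG := by
  refine Submodule.fg_span ?_
  exact (T.finite_toSet.image (fun t => t - algebraMap A R (ε t))).subset
    (by rintro x ⟨t, ht, rfl⟩; exact ⟨t, ht, rfl⟩)

lemma mul_sub' (x y : R) : x * y - algebraMap A R (ε (x * y)) =
    (x - algebraMap A R (ε x)) * (y - algebraMap A R (ε y)) +
      ε x • (y - algebraMap A R (ε y)) + ε y • (x - algebraMap A R (ε x)) := by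
  have h1 := Algebra.commutes (ε y) x
  have h2 := Algebra.commutes (ε x) (algebraMap A R (ε y))
  rw [map_mul, map_mul, Algebra.smul_def, Algebra.smul_def]
  simp only [sub_mul, mul_sub]
  rw [h1, h2]
  abel

lemma augI_le (T : Finset R) (hT : Algebra.adjoin A (T : Set R) = ⊤) :
    augI ε ≤ VZ ε T ⊔ augI ε ^ 2 := by
  have key : ∀ x : R, x - algebraMap A R (ε x) ∈ VZ ε T ⊔ augI ε ^ 2 := by
    intro x
    have hx : x ∈ Algebra.adjoin A (T : Set R) := by rw [hT]; trivial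
    induction hx using Algebra.adjoin_induction with
    | mem t ht => exact (le_sup_left : VZ ε T ≤ _) (Submodule.subset_span ⟨t, ht, rfl⟩)
    | algebraMap r =>
      rw [AlgHom.commutes, Algebra.algebraMap_self, RingHom.id_apply, sub_self]
      exact Submodule.zero_mem _
    | add a b _ _ ha hb =>
      have h : a + b - algebraMap A R (ε (a + b)) =
          (a - algebraMap A R (ε a)) + (b - algebraMap A R (ε b)) := by
        rw [map_add, map_add]
        abel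
      rw [h]
      exact Submodule.add_mem _ ha hb
    | mul a b _ _ ha hb =>
      rw [mul_sub']
      refine Submodule.add_mem _ (Submodule.add_mem _ ?_ (Submodule.smul_mem _ _ hb))
        (Submodule.smul_mem _ _ ha)
      refine (le_sup_right : augI ε ^ 2 ≤ _) ?_
      rw [pow_two]
      exact Submodule.mul_mem_mul (sub_mem ε a) (sub_mem ε b)
  intro x hx
  have h := key x
  rw [(mem_augI ε x).1 hx, map_zero, sub_zero] at h
  exact h

lemma pow_le (T : Finset R) (hT : Algebra.adjoin A (T : Set R) = ⊤) (k : ℕ) :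
    augI ε ^ k ≤ VZ ε T ^ k ⊔ augI ε ^ (k + 1) := by
  induction k with
  | zero => simp
  | succ k ih =>
    have h1 : VZ ε T ^ k * augI ε ≤ VZ ε T ^ (k + 1) ⊔ augI ε ^ (k + 1 + 1) := by
      calc VZ ε T ^ k * augI ε ≤ VZ ε T ^ k * (VZ ε T ⊔ augI ε ^ 2) :=
            mul_le_mul' le_rfl (augI_le ε T hT)
        _ = VZ ε T ^ (k + 1) ⊔ VZ ε T ^ k * augI ε ^ 2 := by rw [Submodule.mul_sup, ← pow_succ]
        _ ≤ VZ ε T ^ (k + 1) ⊔ augI ε ^ k * augI ε ^ 2 :=
            sup_le_sup le_rfl (mul_le_mul' (pow_le_pow_left' (VZ_le ε T) k) le_rfl)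
        _ = VZ ε T ^ (k + 1) ⊔ augI ε ^ (k + 1 + 1) := by rw [← pow_add]
    calc augI ε ^ (k + 1) = augI ε ^ k * augI ε := pow_succ _ _
      _ ≤ (VZ ε T ^ k ⊔ augI ε ^ (k + 1)) * augI ε := mul_le_mul' ih le_rfl
      _ = VZ ε T ^ k * augI ε ⊔ augI ε ^ (k + 1 + 1) := by rw [Submodule.sup_mul, ← pow_succ]
      _ ≤ VZ ε T ^ (k + 1) ⊔ augI ε ^ (k + 1 + 1) := sup_le h1 le_sup_right

lemma top_le_one : (⊤ : Submodule A R) ≤ 1 ⊔ augI ε := by
  intro x _
  have h : x = algebraMap A R (ε x) + (x - algebraMap A R (ε x)) := by abel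
  rw [h]
  refine Submodule.add_mem _ ((le_sup_left : (1 : Submodule A R) ≤ _) ?_)
    ((le_sup_right : augI ε ≤ _) (sub_mem ε x))
  rw [Submodule.mem_one]
  exact ⟨_, rfl⟩

lemma exists_W (T : Finset R) (hT : Algebra.adjoin A (T : Set R) = ⊤) (k : ℕ) :
    ∃ W : Submodule A R, W.FG ∧ W ⊔ augI ε ^ (k + 1) = ⊤ := by
  induction k with
  | zero =>
    refine ⟨1, ?_, ?_⟩
    · simpa using (VZ_fg ε T).pow 0
    · rw [zero_add, pow_one]
      exact top_le_iff.1 (top_le_one ε)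
  | succ k ih =>
    obtain ⟨W, hW, h⟩ := ih
    refine ⟨W ⊔ VZ ε T ^ (k + 1), hW.sup ((VZ_fg ε T).pow _), top_le_iff.1 ?_⟩
    calc (⊤ : Submodule A R) = W ⊔ augI ε ^ (k + 1) := h.symm
      _ ≤ W ⊔ (VZ ε T ^ (k + 1) ⊔ augI ε ^ (k + 1 + 1)) := sup_le_sup le_rfl (pow_le ε T hT _)
      _ = W ⊔ VZ ε T ^ (k + 1) ⊔ augI ε ^ (k + 1 + 1) := (sup_assoc _ _ _).symm

lemma finite_quot {B : Type u} {M : Type v} [Ring B] [AddCommGroup M] [Module B M]
    (W N : Submodule B M) (hW : W.FG) (h : W ⊔ N = ⊤) : Module.Finite B (M ⧸ N) := by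
  rw [Module.finite_def]
  have h1 : Submodule.map N.mkQ W = ⊤ := by
    have h2 : Submodule.map N.mkQ (W ⊔ N) = ⊤ := by
      rw [h, Submodule.map_top, Submodule.range_mkQ]
    rwa [Submodule.map_sup, Submodule.mkQ_map_self, sup_bot_eq] at h2
  rw [← h1]
  exact hW.map _

end Pool.Agent.SUR.VGRFx

namespace Pool.Agent.SUR

theorem t_VGRF : s_VGRF.{u, v} := by
  intro A R _ _ _ ε
  refine ⟨fun k a hk x hx => ⟨?_, ?_⟩, fun k hk => ?_, fun θ hθ k x hx => ?_, fun hft k hk => ?_⟩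
  · exact VGRFx.top_mul_pow ε k hk (Submodule.mul_mem_mul trivial hx)
  · exact VGRFx.pow_mul_top ε k hk (Submodule.mul_mem_mul hx trivial)
  · rw [pow_succ]
    exact (mul_le_mul' le_rfl le_top).trans (VGRFx.pow_mul_top ε k hk)
  · have h1 : Submodule.map θ.toAlgHom.toLinearMap (augI ε) ≤ augI ε := by
      rintro _ ⟨y, hy, rfl⟩
      change ε (θ y) = 0
      rw [hθ y]
      exact hy
    have h2 : Submodule.map θ.toAlgHom.toLinearMap (augI ε ^ k) ≤ augI ε ^ k := by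
      rw [Submodule.map_pow]
      exact pow_le_pow_left' h1 k
    exact h2 ⟨x, hx, rfl⟩
  · obtain ⟨T, hT⟩ := hft.out
    obtain ⟨m, rfl⟩ : ∃ m, k = m + 1 := ⟨k - 1, by omega⟩
    obtain ⟨W, hW, h⟩ := VGRFx.exists_W ε T hT m
    exact VGRFx.finite_quot W _ hW h

end Pool.Agent.SUR
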