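import Pool.Agent.SUR.StV

/-!
# Krull intersection for the powers of a preimage of an ideal

`t_VKRU : s_VGRF → s_VKRU`.
-/

set_option autoImplicit false

universe u

namespace Pool.Agent.SUR.VKRUx

open Pool.Agent.SUR

section

variable {A R : Type u} [CommRing A] [Ring R] [Algebra A R] (ε : R →ₐ[A] A)

/-- the powers of the augmentation ideal, with `⊤` for the exponent `0` -/
def F (j : ℕ) : Submodule A R := if j = 0 then ⊤ else augI ε ^ j

lemma mem_augI {x : R} : x ∈ augI ε ↔ ε x = 0 := by
  unfold augI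
  rw [LinearMap.mem_ker]
  rfl

lemma F_mul (j : ℕ) {x z : R} (hx : x ∈ F ε j) (hz : z ∈ augI ε) : x * z ∈ F ε (j + 1) := by
  unfold F at hx ⊢
  rw [if_neg (Nat.succ_ne_zero j)]
  by_cases hj : j = 0
  · subst hj
    rw [zero_add, pow_one, mem_augI, map_mul, (mem_augI ε).1 hz, mul_zero]
  · rw [if_neg hj] at hx
    rw [pow_succ]
    exact Submodule.mul_mem_mul hx hz

lemma key (𝔪 : Ideal A) : ∀ k j : ℕ,
    (Submodule.comap ε.toLinearMap 𝔪 : Submodule A R) ^ (k + j) ≤
      𝔪 ^ k • (⊤ : Submodule A R) ⊔ F ε j := by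
  intro k
  induction k with
  | zero =>
    intro j
    rw [pow_zero, Ideal.one_eq_top, Submodule.top_smul, top_sup_eq]
    exact le_top
  | succ k ihk =>
    intro j
    induction j with
    | zero =>
      have : F ε 0 = (⊤ : Submodule A R) := by
        unfold F
        rw [if_pos rfl]
      rw [this, sup_top_eq]
      exact le_top
    | succ j ihj =>
      rw [show k + 1 + (j + 1) = (k + 1 + j) + 1 by ring, pow_succ]
      refine Submodule.mul_le.2 fun m hm y hy => ?_
      have hy' : ε y ∈ 𝔪 := hy
      have hsplit : m * y = ε y • m + m * (y - algebraMap A R (ε y)) := by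
        rw [mul_sub, ← Algebra.commutes, ← Algebra.smul_def]
        abel
      rw [hsplit]
      refine Submodule.add_mem _ ?_ ?_
      · have h1 : m ∈ 𝔪 ^ k • (⊤ : Submodule A R) ⊔ F ε (j + 1) := by
          refine ihk (j + 1) ?_
          rw [show k + (j + 1) = k + 1 + j by ring]
          exact hm
        have h2 : 𝔪 ^ k • (⊤ : Submodule A R) ⊔ F ε (j + 1) ≤
            Submodule.comap (LinearMap.lsmul A R (ε y))
              (𝔪 ^ (k + 1) • (⊤ : Submodule A R) ⊔ F ε (j + 1)) := by
          refine sup_le ?_ ?_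
          · refine Submodule.smul_le.2 fun a ha n _ => ?_
            refine Submodule.mem_comap.2 (Submodule.mem_sup_left ?_)
            rw [LinearMap.lsmul_apply, ← mul_smul]
            refine Submodule.smul_mem_smul ?_ trivial
            rw [pow_succ, mul_comm (ε y) a]
            exact Ideal.mul_mem_mul ha hy'
          · intro n hn
            refine Submodule.mem_comap.2 (Submodule.mem_sup_right ?_)
            exact Submodule.smul_mem _ _ hn
        exact h2 h1
      · have hz : y - algebraMap A R (ε y) ∈ augI ε := by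
          rw [mem_augI, map_sub, AlgHom.commutes]
          exact sub_self _
        have h2 : 𝔪 ^ (k + 1) • (⊤ : Submodule A R) ⊔ F ε j ≤
            Submodule.comap (LinearMap.mulRight A (y - algebraMap A R (ε y)))
              (𝔪 ^ (k + 1) • (⊤ : Submodule A R) ⊔ F ε (j + 1)) := by
          refine sup_le ?_ ?_
          · refine Submodule.smul_le.2 fun a ha n _ => ?_
            refine Submodule.mem_comap.2 (Submodule.mem_sup_left ?_)
            rw [LinearMap.mulRight_apply, smul_mul_assoc]
            exact Submodule.smul_mem_smul ha trivial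
          · intro n hn
            refine Submodule.mem_comap.2 (Submodule.mem_sup_right ?_)
            rw [LinearMap.mulRight_apply]
            exact F_mul ε j hn hz
        exact h2 (ihj hm)

/-- the elements which have a nonzero multiple in a submodule -/
def sat [IsDomain A] (P : Submodule A R) : Submodule A R where
  carrier := {x | ∃ a : A, a ≠ 0 ∧ a • x ∈ P}
  zero_mem' := ⟨1, one_ne_zero, by rw [smul_zero]; exact P.zero_mem⟩
  add_mem' := by
    rintro x y ⟨a, ha, hx⟩ ⟨b, hb, hy⟩
    refine ⟨a * b, mul_ne_zero ha hb, ?_⟩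
    rw [smul_add]
    refine P.add_mem ?_ ?_
    · rw [mul_comm, mul_smul]
      exact P.smul_mem _ hx
    · rw [mul_smul]
      exact P.smul_mem _ hy
  smul_mem' := by
    rintro c x ⟨a, ha, hx⟩
    refine ⟨a, ha, ?_⟩
    rw [smul_comm]
    exact P.smul_mem _ hx

lemma le_sat [IsDomain A] (P : Submodule A R) : P ≤ sat P := fun x hx =>
  ⟨1, one_ne_zero, by rw [one_smul]; exact hx⟩

lemma sat_tf [IsDomain A] (P : Submodule A R) : Module.IsTorsionFree A (R ⧸ sat P) := by
  refine Module.IsTorsionFree.of_smul_eq_zero fun a x hax => ?_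
  obtain ⟨x, rfl⟩ := Submodule.Quotient.mk_surjective _ x
  by_cases ha : a = 0
  · exact Or.inl ha
  · right
    rw [← Submodule.Quotient.mk_smul, Submodule.Quotient.mk_eq_zero] at hax
    obtain ⟨b, hb, hbx⟩ := hax
    rw [Submodule.Quotient.mk_eq_zero]
    refine ⟨b * a, mul_ne_zero hb ha, ?_⟩
    rw [mul_smul]
    exact hbx

lemma sat_fin [IsDomain A] (P : Submodule A R) (h : Module.Finite A (R ⧸ P)) :
    Module.Finite A (R ⧸ sat P) :=
  Module.Finite.of_surjective (Submodule.factor (le_sat P))
    (Submodule.factor_surjective (le_sat P))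

end

end Pool.Agent.SUR.VKRUx

open Pool.Agent.SUR Pool.Agent.SUR.VKRUx in
theorem Pool.Agent.SUR.t_VKRU (hVGRF : s_VGRF.{u, u}) : s_VKRU.{u} := by
  intro A R _ _ _ _ _ ε hft hsat 𝔪 h𝔪 x hx
  refine hsat x fun j hj => ?_
  have hfin : Module.Finite A (R ⧸ augI ε ^ j) := (hVGRF A R ε).2.2.2 hft j hj
  have := sat_fin _ hfin
  have := sat_tf (augI ε ^ j)
  have hbot := Ideal.iInf_pow_smul_eq_bot_of_isTorsionFree (M := R ⧸ sat (augI ε ^ j)) 𝔪 h𝔪
  have hmem : (sat (augI ε ^ j)).mkQ x ∈
      (⨅ i : ℕ, 𝔪 ^ i • (⊤ : Submodule A (R ⧸ sat (augI ε ^ j)))) := by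
    refine (Submodule.mem_iInf _).2 fun i => ?_
    have h1 : x ∈ 𝔪 ^ i • (⊤ : Submodule A R) ⊔ F ε j := key ε 𝔪 i j (hx (i + j) (by omega))
    have h2 : 𝔪 ^ i • (⊤ : Submodule A R) ⊔ F ε j ≤
        Submodule.comap (sat (augI ε ^ j)).mkQ
          (𝔪 ^ i • (⊤ : Submodule A (R ⧸ sat (augI ε ^ j)))) := by
      refine sup_le ?_ ?_
      · refine Submodule.smul_le.2 fun a ha n _ => ?_
        refine Submodule.mem_comap.2 ?_
        rw [map_smul]
        exact Submodule.smul_mem_smul ha trivial
      · intro n hn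
        refine Submodule.mem_comap.2 ?_
        have hn' : n ∈ augI ε ^ j := by
          unfold F at hn
          rwa [if_neg (by omega)] at hn
        have : (sat (augI ε ^ j)).mkQ n = 0 := by
          rw [Submodule.mkQ_apply, Submodule.Quotient.mk_eq_zero]
          exact le_sat _ hn'
        rw [this]
        exact Submodule.zero_mem _
    exact h2 h1
  rw [hbot, Submodule.mem_bot, Submodule.mkQ_apply, Submodule.Quotient.mk_eq_zero] at hmem
  exact hmem
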