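import Pool.Agent.SUR.StV

/-!
# VLAT: lattices
-/

set_option autoImplicit false

universe u

namespace Pool.Agent.SUR

namespace VLATx

open TensorProduct

section
variable {K : Type u} [Field K] (A : Subring K) (L : Type u) [AddCommGroup L] [Module A L]

/-- the map to the vector space over the field of fractions -/
noncomputable def tio : L →ₗ[A] (FractionRing A) ⊗[A] L := TensorProduct.mk A (FractionRing A) L 1

lemma tio_loc : IsLocalizedModule (nonZeroDivisors A) (tio A L) :=
  (isLocalizedModule_iff_isBaseChange (nonZeroDivisors A) (FractionRing A) (tio A L)).2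
    (TensorProduct.isBaseChange A L (FractionRing A))

lemma tio_inj (htf : ∀ (a : A) (x : L), a • x = 0 → a = 0 ∨ x = 0) :
    Function.Injective (tio A L) := by
  have := tio_loc A L
  intro x y h
  obtain ⟨c, hc⟩ := (IsLocalizedModule.eq_iff_exists (nonZeroDivisors A) (tio A L)).1 h
  have h1 : (c : A) • (x - y) = 0 := by
    rw [smul_sub, sub_eq_zero]
    exact hc
  rcases htf _ _ h1 with h2 | h2
  · exact absurd h2 (nonZeroDivisors.coe_ne_zero c)
  · exact sub_eq_zero.1 h2

lemma tio_surj {m : ℕ} (v : Fin m → (FractionRing A) ⊗[A] L) :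
    ∃ e : A, e ≠ 0 ∧ ∀ i, ∃ x : L, e • v i = tio A L x := by
  have := tio_loc A L
  have h : ∀ i, ∃ x : L × nonZeroDivisors A, x.2 • v i = tio A L x.1 := fun i =>
    IsLocalizedModule.surj (nonZeroDivisors A) (tio A L) (v i)
  choose x hx using h
  refine ⟨∏ i, ((x i).2 : A), ?_, fun i => ?_⟩
  · rw [Finset.prod_ne_zero_iff]
    exact fun i _ => nonZeroDivisors.coe_ne_zero _
  · refine ⟨(∏ j ∈ Finset.univ.erase i, ((x j).2 : A)) • (x i).1, ?_⟩
    rw [map_smul, ← hx i, ← Finset.prod_erase_mul Finset.univ _ (Finset.mem_univ i), mul_smul]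
    rfl

/-- coordinates of the lattice have bounded denominators -/
lemma denom (hfin : Module.Finite A L) {n : ℕ}
    (b : Module.Basis (Fin n) (FractionRing A) ((FractionRing A) ⊗[A] L)) :
    ∃ d : A, d ≠ 0 ∧ ∀ (x : L) (j : Fin n), ∃ a : A,
      algebraMap A (FractionRing A) d * b.repr (tio A L x) j = algebraMap A (FractionRing A) a := by
  obtain ⟨T, hT⟩ := hfin.fg_top
  obtain ⟨d, hd⟩ := IsLocalization.exist_integer_multiples_of_finite (nonZeroDivisors A)
    (fun q : T × Fin n => b.repr (tio A L q.1) q.2)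
  refine ⟨d, nonZeroDivisors.coe_ne_zero d, fun x => ?_⟩
  have hx : x ∈ Submodule.span A (T : Set L) := by rw [hT]; trivial
  induction hx using Submodule.span_induction with
  | mem x hx =>
    intro j
    obtain ⟨a, ha⟩ := hd (⟨x, hx⟩, j)
    refine ⟨a, ?_⟩
    rw [ha, Algebra.smul_def]
  | zero => exact fun j => ⟨0, by simp⟩
  | add x y _ _ hx hy =>
    intro j
    obtain ⟨a, ha⟩ := hx j
    obtain ⟨a', ha'⟩ := hy j
    refine ⟨a + a', ?_⟩
    rw [map_add, map_add, Finsupp.add_apply, mul_add, ha, ha', map_add]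
  | smul c x _ hx =>
    intro j
    obtain ⟨a, ha⟩ := hx j
    refine ⟨c * a, ?_⟩
    have h1 : (c • tio A L x) = (algebraMap A (FractionRing A) c) • tio A L x :=
      (algebraMap_smul (FractionRing A) c (tio A L x)).symm
    rw [map_smul, h1, map_smul, Finsupp.smul_apply, smul_eq_mul, mul_left_comm, ha, map_mul]

/-- the embedding of the field of fractions -/
noncomputable def emb : FractionRing A →+* K :=
  IsFractionRing.lift (A := A) (K := FractionRing A) (L := K) (g := A.subtype)
    Subtype.coe_injective

lemma emb_alg (a : A) : emb A (algebraMap A (FractionRing A) a) = a :=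
  IsFractionRing.lift_algebraMap _ _

/-- the action on the vector space -/
noncomputable def ext : Module.End A L →* Module.End (FractionRing A) ((FractionRing A) ⊗[A] L) where
  toFun f := f.baseChange (FractionRing A)
  map_one' := by
    ext x
    simp
  map_mul' f g := by
    ext x
    simp

lemma ext_tio (f : Module.End A L) (x : L) : ext A L f (tio A L x) = tio A L (f x) := by
  simp [ext, tio]

end

end VLATx

open VLATx in
theorem t_VLAT : s_VLAT.{u} := by
  classical
  intro K _ A L _ _ hfin htf Z _ α
  have : Module.Finite (FractionRing A) (TensorProduct A (FractionRing A) L) :=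
    Module.Finite.base_change A (FractionRing A) L
  let b := Module.finBasis (FractionRing A) (TensorProduct A (FractionRing A) L)
  obtain ⟨e, he, hex⟩ := tio_surj A L b
  choose y hy using hex
  obtain ⟨d, hd, hdx⟩ := denom A L hfin b
  let ρ₀ : Z →* Matrix _ _ (FractionRing A) :=
    ((LinearMap.toMatrixAlgEquiv b).toAlgHom.toRingHom.toMonoidHom).comp ((ext A L).comp α)
  let ρ : Z →* Matrix (Fin _) (Fin _) K := ((emb A).mapMatrix.toMonoidHom).comp ρ₀
  have hρ₀ : ∀ z, ρ₀ z = LinearMap.toMatrixAlgEquiv b (ext A L (α z)) := fun z => rfl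
  have hρ : ∀ z i j, ρ z i j = emb A (ρ₀ z i j) := fun z i j => rfl
  refine ⟨_, ρ, ((e * d : A) : K), ?_, ?_, ?_⟩
  · intro h
    exact mul_ne_zero he hd (Subtype.ext h)
  · intro z i j
    have h1 : ρ₀ z i j = b.repr (ext A L (α z) (b j)) i := by
      rw [hρ₀, LinearMap.toMatrixAlgEquiv_apply]
    have h2 : algebraMap A (FractionRing A) e • (ext A L (α z) (b j)) = tio A L (α z (y j)) := by
      rw [← ext_tio, ← hy j, ← map_smul, algebraMap_smul]
    obtain ⟨a, ha⟩ := hdx (α z (y j)) i
    have h3 : algebraMap A (FractionRing A) (e * d) * ρ₀ z i j = algebraMap A (FractionRing A) a := by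
      rw [h1, ← ha, ← h2, map_smul, Finsupp.smul_apply, smul_eq_mul, map_mul]
      ring
    have h4 : ((e * d : A) : K) * ρ z i j = (a : K) := by
      rw [hρ, ← emb_alg A (e * d), ← map_mul, h3, emb_alg]
    rw [h4]
    exact a.2
  · intro z hz
    have h1 : ρ₀ z = 1 := by
      ext i j
      have h2 : emb A (ρ₀ z i j) = emb A ((1 : Matrix _ _ (FractionRing A)) i j) := by
        rw [← hρ, hz, Matrix.one_apply, Matrix.one_apply]
        split_ifs <;> simp
      exact (emb A).injective h2
    have h2 : ext A L (α z) = 1 := by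
      apply (LinearMap.toMatrixAlgEquiv b).injective
      rw [← hρ₀, h1, map_one]
    ext x
    apply tio_inj A L htf
    rw [← ext_tio, h2]
    rfl

end Pool.Agent.SUR
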