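import Pool.Agent.SUR.StV
import Pool.Agent.SUR.LWT

/-!
# VREP: weights for one element with a representation with bounded denominators
-/

set_option autoImplicit false

universe u

namespace Pool.Agent.SUR

open Pool.Agent.WhK Finset

open LWTx in
/-- VREP -/
theorem t_VREP (hCORE : s_LCORE.{u, u}) (hCORE0 : s_LCORE.{u, 0}) (hPSH : s_LPSH.{u, u})
    (hPOW : s_LPOW.{u}) (hTRA : s_LTRA.{u}) (hVALD : s_VALD.{u}) (hEIG : s_LEIG.{u}) :
    s_VREP.{u} := by
  intro F _ S hS M hψ G _ n g ρ d hd hdA hρg N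
  set c : Subgroup.centralizer {g} := ⟨g, Subgroup.mem_centralizer_singleton_iff.2 rfl⟩ with hcdef
  have hcen : ∀ z : Subgroup.centralizer {g}, c * z = z * c := fun z =>
    Subtype.ext (Subgroup.mem_centralizer_singleton_iff.1 z.2).symm
  by_cases h : ∀ k : ℕ, 0 < k → ¬IsNilpotent (ρ c ^ k - 1)
  · -- a homomorphism to the integers
    have hmem : ∀ z i j, ρ z i j ∈ Subring.closure (insert d⁻¹ S) := by
      intro z i j
      have h1 : ρ z i j = d⁻¹ * (d * ρ z i j) := by
        rw [← mul_assoc, inv_mul_cancel₀ hd, one_mul]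
      rw [h1]
      exact mul_mem (Subring.subset_closure (Set.mem_insert _ _))
        (Subring.closure_mono (Set.subset_insert _ _) (hdA z i j))
    obtain ⟨f, hf⟩ := hEIG F (insert d⁻¹ S) (hS.insert _) n (Subgroup.centralizer {g}) c hcen ρ
      hmem h
    obtain ⟨W, hW, hD⟩ := hCORE0 (Subgroup.centralizer {g}) (ZM M) c hcen _ _
      (isB_hom (M := M) c f) (n * n + 1) Unit (fun _ _ => 1) (fun _ t => (((f t).toAdd : ℤ) : ZM M))
      (by simp) (fun w t => by simp)
    obtain ⟨W', hW', hD'⟩ := hTRA G (ZM M) N (n * n + 1 + 1) g _ W hW hD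
    refine ⟨_, W', ?_, hW', hD'⟩
    have h1 : (((f c).toAdd : ℤ) : ZM M) ≠ 0 := Int.cast_ne_zero.2 hf
    exact mul_ne_zero (Nat.cast_ne_zero.2 (Nat.factorial_ne_zero _)) (pow_ne_zero _ h1)
  · -- a power is unipotent
    push Not at h
    obtain ⟨k, hk, hnil⟩ := h
    have hinf : ∀ j : ℕ, 0 < j → ρ c ^ j ≠ 1 := fun j hj h1 =>
      hρg (isOfFinOrder_iff_pow_eq_one.2 ⟨j, hj, h1⟩)
    have hchar : CharZero F := by
      by_contra hc
      obtain ⟨p, hp⟩ := CharP.exists F
      have hp0 : p ≠ 0 := fun h0 => hc (by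
        rw [h0] at hp
        exact CharP.charP_to_charZero F)
      have hpp : p.Prime := (CharP.char_is_prime_or_zero F p).resolve_right hp0
      obtain ⟨j, hj, hj1⟩ := pow_eq_one p hpp n (ρ c ^ k) hnil
      refine hinf (k * j) (Nat.mul_pos hk hj) ?_
      rw [pow_mul]
      exact hj1
    have hcen' : ∀ z, c ^ k * z = z * c ^ k := fun z =>
      (Commute.pow_left (hcen z : Commute c z) k).eq
    have hnil' : IsNilpotent (ρ (c ^ k) - 1) := by
      rw [map_pow]
      exact hnil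
    have hne : ρ (c ^ k) ≠ 1 := by
      rw [map_pow]
      exact hinf k hk
    obtain ⟨v, B, X, Y, hv, hB, hXY⟩ := hVALD F (Subring.closure S) n (Subgroup.centralizer {g})
      (c ^ k) hcen' ρ d hd hdA hnil' hne
    obtain ⟨W, hW, hD⟩ := hCORE (Subgroup.centralizer {g}) (Subring.closure S) (c ^ k) hcen' v B hB
      (n * n + 1) (Fin n × Fin n) X Y (by simp) hXY
    have hchar' : CharZero (Subring.closure S) := by
      refine ⟨fun a b hab => ?_⟩
      have h1 := congrArg (Subring.closure S).subtype hab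
      rw [map_natCast, map_natCast] at h1
      exact Nat.cast_injective h1
    set v₁ : Subring.closure S := ((n * n + 1 + 1).factorial : Subring.closure S) *
      v ^ (n * n + 1 + 1) with hv₁
    have hv₁0 : v₁ ≠ 0 :=
      mul_ne_zero (Nat.cast_ne_zero.2 (Nat.factorial_ne_zero _)) (pow_ne_zero _ hv)
    obtain ⟨ψ, hψv⟩ := hψ hchar v₁.1 v₁.2 fun h0 => hv₁0 (Subtype.ext h0)
    have hψ0 : ψ v₁ ≠ 0 := hψv v₁.2
    have hP := hPSH (FreeMonoid (Subgroup.centralizer {g})) (Subgroup.centralizer {g})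
      (Subgroup.centralizer {g}) (Subring.closure S) (ZM M) (th (Subgroup.centralizer {g})) ψ W
    have htors : ∀ (j : ℕ) (a : ZM M), 0 < j → j • a = 0 → a = 0 := fun j a hj h0 =>
      (smul_eq_zero.1 h0).resolve_left hj.ne'
    obtain ⟨v', W', hv', hW', hD'⟩ := hPOW (Subgroup.centralizer {g}) (ZM M) c hcen htors k
      (n * n + 1 + 1) hk (ψ v₁) _ (hP.2 _ _ _ hW) (hP.1 _ hD)
    obtain ⟨W'', hW'', hD''⟩ := hTRA G (ZM M) N (n * n + 1 + 1) g v' W' hW' hD'
    refine ⟨v', W'', fun h0 => hψ0 ?_, hW'', hD''⟩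
    rw [← hv', h0, smul_zero]

end Pool.Agent.SUR
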