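import Pool.Agent.SUR.StV

/-!
# Automorphisms of algebras with an augmentation: representations with bounded denominators

`t_VSEP : s_VGRF → s_VLAT → s_VSEP`.
-/

set_option autoImplicit false

universe u

namespace Pool.Agent.SUR.VSEPx

open Pool.Agent.WhK Finset

/-! ### Unipotent elements of finite order -/

lemma binom2 {R : Type*} [Ring R] (N : R) (f : ℕ) :
    ∃ q : R, (1 + N) ^ f = 1 + (f : R) * N + N * N * q := by
  induction f with
  | zero => exact ⟨0, by simp⟩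
  | succ f ih =>
    obtain ⟨q, hq⟩ := ih
    refine ⟨q + (f : R) + q * N, ?_⟩
    rw [pow_succ, hq]
    have hc : (f : R) * N = N * (f : R) := (Nat.cast_commute f N).eq
    push_cast
    have h1 : (f : R) * N * N = N * N * (f : R) := by
      rw [hc, mul_assoc, hc, ← mul_assoc]
    noncomm_ring
    have h2 : (f : R) * (N * N) = N * (N * (f : R)) := by
      rw [← mul_assoc, h1, mul_assoc]
    rw [h2]
    abel

lemma nil_tors {R : Type*} [Ring R] (htf : ∀ (f : ℕ) (a : R), f ≠ 0 → (f : R) * a = 0 → a = 0)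
    {N : R} (hN : IsNilpotent N) {f : ℕ} (hf : f ≠ 0) (h : (1 + N) ^ f = 1) : N = 0 := by
  classical
  by_contra hne
  have hex : ∃ k, N ^ k = 0 := hN
  have hk := Nat.find_spec hex
  have hk2 : 2 ≤ Nat.find hex := by
    by_contra h2
    have h3 : Nat.find hex = 0 ∨ Nat.find hex = 1 := by omega
    rcases h3 with h3 | h3
    · rw [h3, pow_zero] at hk
      exact hne (by rw [← mul_one N, hk, mul_zero])
    · rw [h3, pow_one] at hk
      exact hne hk
  obtain ⟨i, hi⟩ : ∃ i, Nat.find hex = i + 2 := ⟨Nat.find hex - 2, by omega⟩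
  have hmin : N ^ (i + 1) ≠ 0 := Nat.find_min hex (by omega)
  rw [hi] at hk
  obtain ⟨q, hq⟩ := binom2 N f
  rw [h] at hq
  have h1 : (f : R) * N + N * N * q = 0 := by
    have := hq.symm
    rw [add_assoc] at this
    exact left_eq_add.1 this.symm
  have h2 : (f : R) * N ^ (i + 1) = 0 := by
    have h3 : N ^ i * ((f : R) * N + N * N * q) = 0 := by rw [h1, mul_zero]
    have h4 : N ^ i * ((f : R) * N) = (f : R) * N ^ (i + 1) := by
      rw [← mul_assoc, (Nat.cast_commute f (N ^ i)).eq.symm, mul_assoc, ← pow_succ]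
    have h5 : N ^ i * (N * N * q) = 0 := by
      rw [← mul_assoc, ← mul_assoc, ← pow_succ, ← pow_succ, show i + 1 + 1 = i + 2 by ring, hk,
        zero_mul]
    rw [mul_add, h4, h5, add_zero] at h3
    exact h3
  exact hmin (htf f _ hf h2)

/-! ### The lattices -/

section

variable {K : Type u} [Field K] {A : Subring K} {R : Type u} [Ring R] [Algebra A R]
  (ε : R →ₐ[A] A)

/-- the elements with a nonzero multiple in the power of the augmentation ideal -/
def NN (k : ℕ) : Submodule A R where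
  carrier := {x | ∃ a : A, a ≠ 0 ∧ a • x ∈ augI ε ^ k}
  zero_mem' := ⟨1, one_ne_zero, by simp⟩
  add_mem' := by
    rintro x y ⟨a, ha, hx⟩ ⟨b, hb, hy⟩
    refine ⟨a * b, mul_ne_zero ha hb, ?_⟩
    rw [smul_add]
    refine Submodule.add_mem _ ?_ ?_
    · rw [mul_comm, mul_smul]
      exact Submodule.smul_mem _ b hx
    · rw [mul_smul]
      exact Submodule.smul_mem _ a hy
  smul_mem' := by
    rintro r x ⟨a, ha, hx⟩
    refine ⟨a, ha, ?_⟩
    rw [smul_comm]
    exact Submodule.smul_mem _ r hx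

variable {ε}

lemma le_NN (k : ℕ) : augI ε ^ k ≤ NN ε k := fun x hx => ⟨1, one_ne_zero, by rwa [one_smul]⟩

lemma NN_pure {k : ℕ} {x : R} {a : A} (ha : a ≠ 0) (h : a • x ∈ NN ε k) : x ∈ NN ε k := by
  obtain ⟨b, hb, h1⟩ := h
  exact ⟨b * a, mul_ne_zero hb ha, by rwa [mul_smul]⟩

lemma NN_mul {k l : ℕ} {x y : R} (hx : x ∈ NN ε k) (hy : y ∈ augI ε ^ l) :
    x * y ∈ NN ε (k + l) := by
  obtain ⟨a, ha, h1⟩ := hx
  refine ⟨a, ha, ?_⟩
  rw [← smul_mul_assoc, pow_add]
  exact Submodule.mul_mem_mul h1 hy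

lemma mul_NN {k l : ℕ} {x y : R} (hx : x ∈ augI ε ^ k) (hy : y ∈ NN ε l) :
    x * y ∈ NN ε (k + l) := by
  obtain ⟨a, ha, h1⟩ := hy
  refine ⟨a, ha, ?_⟩
  rw [← mul_smul_comm, pow_add]
  exact Submodule.mul_mem_mul hx h1

variable (ε)

/-- the lattices -/
abbrev LL (k : ℕ) : Type u := R ⧸ NN ε k

variable {ε}

lemma LL_finite (hG : s_VGRF.{u, u}) (hft : Algebra.FiniteType A R) {k : ℕ} (hk : 1 ≤ k) :
    Module.Finite A (LL ε k) := by
  have := (hG A R ε).2.2.2 hft k hk
  exact Module.Finite.of_surjective (Submodule.factor (le_NN k)) (Submodule.factor_surjective _)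

lemma LL_tf {k : ℕ} (a : A) (x : LL ε k) (h : a • x = 0) : a = 0 ∨ x = 0 := by
  by_cases ha : a = 0
  · exact Or.inl ha
  right
  obtain ⟨x, rfl⟩ := Submodule.Quotient.mk_surjective _ x
  rw [← Submodule.Quotient.mk_smul, Submodule.Quotient.mk_eq_zero] at h
  rw [Submodule.Quotient.mk_eq_zero]
  exact NN_pure ha h

section

variable {G : Type u} [Group G] {φ : G →* (R ≃ₐ[A] R)} (hG : s_VGRF.{u, u})
  (haug : ∀ g x, ε (φ g x) = ε x)

include hG haug

lemma phi_mem (g : G) {k : ℕ} {x : R} (hx : x ∈ augI ε ^ k) : φ g x ∈ augI ε ^ k :=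
  (hG A R ε).2.2.1 (φ g) (haug g) k x hx

lemma phi_mem_NN (g : G) {k : ℕ} {x : R} (hx : x ∈ NN ε k) : φ g x ∈ NN ε k := by
  obtain ⟨a, ha, h1⟩ := hx
  exact ⟨a, ha, by rw [← map_smul]; exact phi_mem hG haug g h1⟩

/-- the action on the lattices -/
noncomputable def act (k : ℕ) : G →* Module.End A (LL ε k) where
  toFun g := Submodule.mapQ _ _ (φ g).toLinearMap (fun _ hx => phi_mem_NN hG haug g hx)
  map_one' := by
    refine Submodule.linearMap_qext _ (LinearMap.ext fun x => ?_)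
    show Submodule.Quotient.mk (φ 1 x) = Submodule.Quotient.mk x
    rw [map_one]
    rfl
  map_mul' g h := by
    refine Submodule.linearMap_qext _ (LinearMap.ext fun x => ?_)
    show Submodule.Quotient.mk (φ (g * h) x) = Submodule.Quotient.mk (φ g (φ h x))
    rw [map_mul]
    rfl

lemma act_mk (k : ℕ) (g : G) (x : R) :
    act hG haug k g (Submodule.Quotient.mk x) = Submodule.Quotient.mk (φ g x) := rfl

lemma act_pow_sub {g : G} (h2 : ∀ x : R, φ g x - x ∈ NN ε 2) (k : ℕ) :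
    ∀ x ∈ augI ε ^ k, φ g x - x ∈ NN ε (k + 1) := by
  induction k with
  | zero =>
    intro x hx
    rw [pow_zero, Submodule.one_eq_span, Submodule.mem_span_singleton] at hx
    obtain ⟨r, rfl⟩ := hx
    rw [map_smul, map_one, sub_self]
    exact Submodule.zero_mem _
  | succ k ih =>
    intro x hx
    rw [pow_succ] at hx
    refine Submodule.mul_induction_on hx ?_ ?_
    · intro a ha b hb
      have h : φ g (a * b) - a * b = (φ g a - a) * φ g b + a * (φ g b - b) := by
        rw [map_mul]; noncomm_ring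
      rw [h]
      refine Submodule.add_mem _ ?_ ?_
      · have h3 := phi_mem hG haug g (k := 1) (x := b) (by rwa [pow_one])
        exact NN_mul (ih a ha) h3
      · have h4 := mul_NN ha (h2 b)
        exact h4
    · intro a b ha hb
      have h : φ g (a + b) - (a + b) = (φ g a - a) + (φ g b - b) := by
        rw [map_add]; abel
      rw [h]
      exact Submodule.add_mem _ ha hb

lemma act_sub_NN {g : G} (h2 : ∀ x : R, φ g x - x ∈ NN ε 2) {k : ℕ}
    {x : R} (hx : x ∈ NN ε k) : φ g x - x ∈ NN ε (k + 1) := by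
  obtain ⟨a, ha, h⟩ := hx
  refine NN_pure ha ?_
  rw [smul_sub, ← map_smul]
  exact act_pow_sub hG haug h2 k _ h

lemma nil_act {g : G} (h2 : ∀ x : R, φ g x - x ∈ NN ε 2) (k : ℕ) :
    IsNilpotent (act hG haug (k + 2) g - 1) := by
  refine ⟨k + 1, ?_⟩
  have key : ∀ (i : ℕ) (x : R), ∃ b ∈ NN ε (i + 2),
      ((act hG haug (k + 2) g - 1) ^ (i + 1)) (Submodule.Quotient.mk x) =
        Submodule.Quotient.mk b := by
    intro i
    induction i with
    | zero =>
      intro x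
      refine ⟨φ g x - x, h2 x, ?_⟩
      rw [zero_add, pow_one, LinearMap.sub_apply, act_mk, Module.End.one_apply]
      rfl
    | succ i ih =>
      intro x
      obtain ⟨b, hb, h⟩ := ih x
      refine ⟨φ g b - b, act_sub_NN hG haug h2 hb, ?_⟩
      rw [pow_succ', Module.End.mul_apply, h, LinearMap.sub_apply, act_mk, Module.End.one_apply]
      rfl
  refine LinearMap.ext fun v => ?_
  obtain ⟨x, rfl⟩ := Submodule.Quotient.mk_surjective _ v
  obtain ⟨b, hb, h⟩ := key k x
  rw [h, LinearMap.zero_apply, Submodule.Quotient.mk_eq_zero]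
  exact hb

end

lemma end_tf [CharZero K] {k : ℕ} (f : ℕ) (a : Module.End A (LL ε k)) (hf : f ≠ 0)
    (h : (f : Module.End A (LL ε k)) * a = 0) : a = 0 := by
  rw [← nsmul_eq_mul] at h
  refine LinearMap.ext fun v => ?_
  have h1 := LinearMap.congr_fun h v
  rw [LinearMap.smul_apply, LinearMap.zero_apply, ← Nat.cast_smul_eq_nsmul A] at h1
  refine (LL_tf _ _ h1).resolve_left ?_
  intro h2
  have h3 := congrArg (A.subtype) h2
  rw [map_natCast, map_zero] at h3
  exact hf (Nat.cast_eq_zero.1 h3)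

end

/-- if all matrices have finite order then so do all the actions -/
lemma fin_act (hG : s_VGRF.{u, u}) (hL : s_VLAT.{u}) {K : Type u} [Field K] {A : Subring K}
    {R : Type u} [Ring R] [Algebra A R] {ε : R →ₐ[A] A} {G : Type u} [Group G]
    {φ : G →* (R ≃ₐ[A] R)} (haug : ∀ g x, ε (φ g x) = ε x) (hft : Algebra.FiniteType A R) (g : G)
    (hg : ∀ (n : ℕ) (ρ : G →* Matrix (Fin n) (Fin n) K) (d : K), d ≠ 0 →
      (∀ z i j, d * ρ z i j ∈ A) → IsOfFinOrder (ρ g)) {k : ℕ} (hk : 1 ≤ k) :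
    ∃ e : ℕ, 0 < e ∧ (act hG haug k g) ^ e = 1 := by
  obtain ⟨n, ρ, d, hd, hρ, h1⟩ := hL K A (LL ε k) (LL_finite hG hft hk) LL_tf G
    (act hG haug k)
  obtain ⟨e, he, he1⟩ := isOfFinOrder_iff_pow_eq_one.1 (hg n ρ d hd hρ)
  refine ⟨e, he, ?_⟩
  rw [← map_pow] at he1 ⊢
  exact h1 _ he1

lemma main (hG : s_VGRF.{u, u}) (hL : s_VLAT.{u}) {K : Type u} [Field K] [CharZero K]
    {A : Subring K} {R : Type u} [Ring R] [Algebra A R] {ε : R →ₐ[A] A} {G : Type u} [Group G]
    {φ : G →* (R ≃ₐ[A] R)} (h : VD A R ε G φ) (g : G) (hg : ¬IsOfFinOrder g) :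
    ∃ (n : ℕ) (ρ : G →* Matrix (Fin n) (Fin n) K) (d : K), d ≠ 0 ∧
      (∀ z i j, d * ρ z i j ∈ A) ∧ ¬IsOfFinOrder (ρ g) := by
  by_contra hcon
  push Not at hcon
  obtain ⟨e, he, he1⟩ := fin_act hG hL h.aug h.ft g hcon (k := 2) (by norm_num)
  have h2 : ∀ x : R, φ (g ^ e) x - x ∈ NN ε 2 := by
    intro x
    have h3 := LinearMap.congr_fun he1 (Submodule.Quotient.mk x)
    rw [← map_pow, act_mk, Module.End.one_apply] at h3
    exact (Submodule.Quotient.eq _).1 h3
  have h3 : ∀ (k : ℕ) (x : R), φ (g ^ e) x - x ∈ NN ε (k + 2) := by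
    intro k x
    obtain ⟨f, hf0, hf1⟩ := fin_act hG hL h.aug h.ft g hcon (k := k + 2) (by omega)
    have hf2 : (act hG h.aug (k + 2) (g ^ e)) ^ f = 1 := by
      rw [map_pow, ← pow_mul, mul_comm, pow_mul, hf1, one_pow]
    have h4 := nil_tors end_tf (nil_act hG h.aug h2 k) hf0.ne' (by rw [add_sub_cancel]; exact hf2)
    have h5 := LinearMap.congr_fun h4 (Submodule.Quotient.mk x)
    rw [LinearMap.sub_apply, act_mk, Module.End.one_apply, LinearMap.zero_apply, sub_eq_zero] at h5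
    exact (Submodule.Quotient.eq _).1 h5
  refine hg (isOfFinOrder_iff_pow_eq_one.2 ⟨e, he, ?_⟩)
  apply h.inj
  rw [map_one]
  refine AlgEquiv.ext fun x => ?_
  rw [AlgEquiv.one_apply]
  refine sub_eq_zero.1 (h.sat _ fun k hk => ?_)
  obtain ⟨a, ha, h4⟩ := h3 k x
  refine ⟨a, ha, ?_⟩
  have h5 := (hG A R ε).2.1
  exact h5 k hk (h5 (k + 1) (by omega) h4)

end Pool.Agent.SUR.VSEPx

namespace Pool.Agent.SUR

theorem t_VSEP (hG : s_VGRF.{u, u}) (hL : s_VLAT.{u}) : s_VSEP.{u} := by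
  intro K _ _ S hS R _ _ ε G _ φ h
  refine ⟨K, inferInstance, S, hS, fun g hg => ?_⟩
  obtain ⟨n, ρ, d, hd, hρ, h1⟩ := VSEPx.main hG hL h g hg
  refine ⟨n, ?_, Or.inl ⟨ρ.comp (Subgroup.centralizer {g}).subtype, d, hd, fun z i j => hρ z i j,
    h1⟩⟩
  rcases Nat.eq_zero_or_pos n with rfl | hn
  · exact absurd (isOfFinOrder_iff_pow_eq_one.2 ⟨1, one_pos, Subsingleton.elim _ _⟩) h1
  · exact hn

end Pool.Agent.SUR
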