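import Pool.Agent.SUR.StV
import Pool.Agent.SUR.DFG

/-!
# DTV: roots in groups of automorphisms which preserve an augmentation
-/

set_option autoImplicit false

universe u

namespace Pool.Agent.SUR

namespace VUNIx

variable {A R : Type u} [CommRing A] [Ring R] [Algebra A R]

/-- the properties of the ideal `J` and of the group of automorphisms -/
structure Hyp (J : Submodule A R) (Γ : Subgroup (R ≃ₐ[A] R)) : Prop where
  ideal : ∀ (k : ℕ) (a : R), 1 ≤ k → ∀ x ∈ J ^ k, a * x ∈ J ^ k ∧ x * a ∈ J ^ k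
  step : ∀ k : ℕ, 1 ≤ k → J ^ (k + 1) ≤ J ^ k
  inv : ∀ θ ∈ Γ, ∀ k : ℕ, 1 ≤ k → ∀ x ∈ J ^ k, θ x ∈ J ^ k

variable {J : Submodule A R} {Γ : Subgroup (R ≃ₐ[A] R)}

theorem Hyp.mono (H : Hyp J Γ) {k l : ℕ} (hk : 1 ≤ k) (hl : k ≤ l) : J ^ l ≤ J ^ k := by
  induction l, hl using Nat.le_induction with
  | base => exact le_rfl
  | succ l hl ih => exact (H.step l (hk.trans hl)).trans ih

theorem mul_mem_add {k l : ℕ} {x y : R} (hx : x ∈ J ^ k) (hy : y ∈ J ^ l) :
    x * y ∈ J ^ (k + l) := by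
  rw [pow_add]
  exact Submodule.mul_mem_mul hx hy

/-- the level of an automorphism -/
def Lev (J : Submodule A R) (ζ : R ≃ₐ[A] R) (s : ℕ) : Prop :=
  (∀ x : R, ζ x - x ∈ J ^ s) ∧ ∀ k : ℕ, 1 ≤ k → ∀ x ∈ J ^ k, ζ x - x ∈ J ^ (k + s)

theorem lev_one (H : Hyp J Γ) {η : R ≃ₐ[A] R} (hη : η ∈ Γ)
    (h : ∀ x : R, η x - x ∈ J ^ 2) : Lev J η 1 := by
  refine ⟨fun x => H.step 1 le_rfl (h x), fun k hk => ?_⟩
  induction k, hk using Nat.le_induction with
  | base => exact fun x _ => h x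
  | succ k hk ih =>
    intro x hx
    rw [pow_succ] at hx
    refine Submodule.mul_induction_on (C := fun z => η z - z ∈ J ^ (k + 1 + 1)) hx ?_ ?_
    · intro a ha b hb
      have h1 : η (a * b) - a * b = (η a - a) * η b + a * (η b - b) := by
        rw [map_mul]
        noncomm_ring
      rw [h1]
      have hb1 : b ∈ J ^ 1 := by rwa [pow_one]
      refine Submodule.add_mem _ (mul_mem_add (ih a ha) (H.inv η hη 1 le_rfl b hb1)) ?_
      exact (mul_mem_add ha (h b) : a * (η b - b) ∈ J ^ (k + 2))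
    · intro a b ha hb
      have h1 : η (a + b) - (a + b) = (η a - a) + (η b - b) := by
        rw [map_add]
        abel
      rw [h1]
      exact Submodule.add_mem _ ha hb

theorem lev_pow (H : Hyp J Γ) {ζ : R ≃ₐ[A] R} (hζ : ζ ∈ Γ) {s : ℕ} (hs : 1 ≤ s)
    (h : Lev J ζ s) (t : ℕ) : Lev J (ζ ^ t) s := by
  induction t with
  | zero =>
    rw [pow_zero]
    refine ⟨fun x => ?_, fun k _ x _ => ?_⟩
    · rw [AlgEquiv.one_apply, sub_self]
      exact Submodule.zero_mem _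
    · rw [AlgEquiv.one_apply, sub_self]
      exact Submodule.zero_mem _
  | succ t ih =>
    have key : ∀ x : R, (ζ ^ (t + 1)) x - x = (ζ ^ t) (ζ x - x) + ((ζ ^ t) x - x) := by
      intro x
      rw [pow_succ, AlgEquiv.mul_apply, map_sub]
      abel
    refine ⟨fun x => ?_, fun k hk x hx => ?_⟩
    · rw [key]
      exact Submodule.add_mem _ (H.inv _ (Γ.pow_mem hζ t) s hs _ (h.1 x)) (ih.1 x)
    · rw [key]
      exact Submodule.add_mem _ (H.inv _ (Γ.pow_mem hζ t) (k + s) (by omega) _ (h.2 k hk x hx))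
        (ih.2 k hk x hx)

/-- `ζ ^ t x - x = t (ζ x - x)` up to terms of higher level -/
theorem lev_lin (H : Hyp J Γ) {ζ : R ≃ₐ[A] R} (hζ : ζ ∈ Γ) {s : ℕ} (hs : 1 ≤ s)
    (h : Lev J ζ s) {k : ℕ} (hk : s ≤ k) (x : R) (hx : ζ x - x ∈ J ^ k) (t : ℕ) :
    (ζ ^ t) x - x - (t : R) * (ζ x - x) ∈ J ^ (k + 1) := by
  induction t with
  | zero =>
    have : (ζ ^ 0) x - x - ((0 : ℕ) : R) * (ζ x - x) = 0 := by
      rw [pow_zero, AlgEquiv.one_apply]
      simp
    rw [this]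
    exact Submodule.zero_mem _
  | succ t ih =>
    have key : (ζ ^ (t + 1)) x - x - ((t + 1 : ℕ) : R) * (ζ x - x) =
        ((ζ ^ t) (ζ x - x) - (ζ x - x)) + ((ζ ^ t) x - x - (t : R) * (ζ x - x)) := by
      rw [pow_succ, AlgEquiv.mul_apply, map_sub, Nat.cast_add, Nat.cast_one]
      noncomm_ring
    rw [key]
    refine Submodule.add_mem _ ?_ ih
    have h1 := (lev_pow H hζ hs h t).2 k (hs.trans hk) _ hx
    exact H.mono (by omega) (by omega) h1

theorem lev_pow_ell (H : Hyp J Γ) {ℓ : ℕ} (hℓ : (ℓ : R) ∈ J) {ζ : R ≃ₐ[A] R} (hζ : ζ ∈ Γ)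
    {s : ℕ} (hs : 1 ≤ s) (h : Lev J ζ s) : Lev J (ζ ^ ℓ) (s + 1) := by
  have key : ∀ (k : ℕ) (x : R), s ≤ k → ζ x - x ∈ J ^ k → (ζ ^ ℓ) x - x ∈ J ^ (k + 1) := by
    intro k x hk hx
    have h1 := lev_lin H hζ hs h hk x hx ℓ
    have h2 : (ℓ : R) * (ζ x - x) ∈ J ^ (k + 1) := by
      rw [pow_succ']
      exact Submodule.mul_mem_mul hℓ hx
    have h3 := Submodule.add_mem _ h1 h2
    rwa [sub_add_cancel] at h3
  refine ⟨fun x => key s x le_rfl (h.1 x), fun k hk x hx => ?_⟩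
  exact key (k + s) x (by omega) (h.2 k hk x hx)

theorem lev_ell_pow (H : Hyp J Γ) {ℓ : ℕ} (hℓ : (ℓ : R) ∈ J) {ζ : R ≃ₐ[A] R} (hζ : ζ ∈ Γ)
    (h : Lev J ζ 1) (s : ℕ) : Lev J (ζ ^ ℓ ^ s) (s + 1) := by
  induction s with
  | zero =>
    rw [pow_zero, pow_one]
    exact h
  | succ s ih =>
    rw [pow_succ ℓ s, pow_mul]
    exact lev_pow_ell H hℓ (Γ.pow_mem hζ _) (by omega) ih

/-! ### The power which acts trivially on the quotient by `J ^ 2` -/

/-- the action on the quotient -/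
noncomputable def act (H : Hyp J Γ) (θ : R ≃ₐ[A] R) (hθ : θ ∈ Γ) :
    (R ⧸ (J ^ 2)) →ₗ[A] (R ⧸ (J ^ 2)) :=
  Submodule.mapQ (J ^ 2) (J ^ 2) θ.toLinearMap (fun x hx => H.inv θ hθ 2 (by omega) x hx)

theorem act_mk (H : Hyp J Γ) (θ : R ≃ₐ[A] R) (hθ : θ ∈ Γ) (x : R) :
    act H θ hθ (Submodule.Quotient.mk x) = Submodule.Quotient.mk (θ x) := rfl

/-- the action as a homomorphism -/
noncomputable def actHom (H : Hyp J Γ) : Γ →* Module.End A (R ⧸ (J ^ 2)) where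
  toFun θ := act H θ.1 θ.2
  map_one' := by
    refine LinearMap.ext fun x => ?_
    obtain ⟨a, rfl⟩ := Submodule.Quotient.mk_surjective _ x
    rw [act_mk]
    rfl
  map_mul' θ ζ := by
    refine LinearMap.ext fun x => ?_
    obtain ⟨a, rfl⟩ := Submodule.Quotient.mk_surjective _ x
    rw [act_mk]
    rfl

theorem exists_power (H : Hyp J Γ) (hf : Finite (R ⧸ (J ^ 2))) :
    ∃ m : ℕ, 0 < m ∧ ∀ θ ∈ Γ, Lev J (θ ^ m) 1 := by
  have hE : Finite (Module.End A (R ⧸ (J ^ 2))) :=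
    Finite.of_injective (fun f => (f : (R ⧸ (J ^ 2)) → (R ⧸ (J ^ 2)))) DFunLike.coe_injective
  have hU : Finite (Module.End A (R ⧸ (J ^ 2)))ˣ := Finite.of_injective _ Units.val_injective
  refine ⟨Nat.card (Module.End A (R ⧸ (J ^ 2)))ˣ, Nat.card_pos, fun θ hθ => ?_⟩
  refine lev_one H (Γ.pow_mem hθ _) fun x => ?_
  have h1 : (actHom H).toHomUnits ((⟨θ, hθ⟩ : Γ) ^ Nat.card (Module.End A (R ⧸ (J ^ 2)))ˣ) =
      1 := by
    rw [map_pow, pow_card_eq_one']
  have h2 : act H (θ ^ Nat.card (Module.End A (R ⧸ (J ^ 2)))ˣ) (Γ.pow_mem hθ _) =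
      LinearMap.id := by
    have := congrArg Units.val h1
    exact this
  have h3 := act_mk H (θ ^ Nat.card (Module.End A (R ⧸ (J ^ 2)))ˣ) (Γ.pow_mem hθ _) x
  rw [h2, LinearMap.id_apply] at h3
  exact (Submodule.Quotient.eq _).1 h3.symm

theorem bezout {p b : ℕ} (hp : 0 < p) (hb : 0 < b) (h : Nat.Coprime p b) :
    ∃ u t : ℕ, p * u = 1 + b * t := by
  rcases Nat.lt_or_ge 1 b with h1 | h1
  · obtain ⟨u, hu⟩ := Nat.exists_mul_mod_eq_one_of_coprime h h1
    refine ⟨u, p * u / b, ?_⟩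
    have := Nat.mod_add_div (p * u) b
    omega
  · have hb1 : b = 1 := by omega
    subst hb1
    exact ⟨1, p - 1, by omega⟩

/-- roots are unique -/
theorem roots (H : Hyp J Γ) {ℓ : ℕ} (hℓ0 : 0 < ℓ) (hℓ : (ℓ : R) ∈ J)
    (hf : Finite (R ⧸ (J ^ 2))) (hres : ∀ x : R, (∀ k : ℕ, 1 ≤ k → x ∈ J ^ k) → x = 0) :
    ∃ N : ℕ, ∀ p : ℕ, p.Prime → N < p → ∀ x ∈ Γ, ∀ y ∈ Γ, x ^ p = y ^ p → x = y := by
  obtain ⟨m, hm, hlev⟩ := exists_power H hf
  refine ⟨max ℓ m, fun p hp hp2 x hx y hy hxy => ?_⟩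
  have hp2' : ℓ < p := (le_max_left ℓ m).trans_lt hp2
  have hpm : m < p := (le_max_right ℓ m).trans_lt hp2
  refine AlgEquiv.ext fun r => ?_
  refine sub_eq_zero.1 (hres _ fun k hk => ?_)
  have hco : Nat.Coprime p (m * ℓ ^ k) := by
    refine Nat.Coprime.mul_right ?_ (Nat.Coprime.pow_right k ?_)
    · exact Nat.coprime_of_lt_prime hm.ne' hpm hp
    · exact Nat.coprime_of_lt_prime hℓ0.ne' hp2' hp
  obtain ⟨u, t, hut⟩ := bezout hp.pos (Nat.mul_pos hm (Nat.pow_pos hℓ0)) hco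
  have hl : ∀ z ∈ Γ, Lev J (z ^ (m * ℓ ^ k * t)) (k + 1) := by
    intro z hz
    rw [pow_mul, pow_mul]
    exact lev_pow H (Γ.pow_mem (Γ.pow_mem hz _) _) (by omega)
      (lev_ell_pow H hℓ (Γ.pow_mem hz _) (hlev z hz) k) t
  have h1 : x * x ^ (m * ℓ ^ k * t) = y * y ^ (m * ℓ ^ k * t) := by
    have i1 : x * x ^ (m * ℓ ^ k * t) = (x ^ p) ^ u := by
      rw [← pow_mul, hut, pow_add, pow_one]
    have i2 : y * y ^ (m * ℓ ^ k * t) = (y ^ p) ^ u := by
      rw [← pow_mul, hut, pow_add, pow_one]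
    rw [i1, i2, hxy]
  have hz : ∀ z ∈ Γ, (z * z ^ (m * ℓ ^ k * t)) r - z r ∈ J ^ (k + 1) := by
    intro z hz
    have h2 := H.inv z hz (k + 1) (by omega) _ ((hl z hz).1 r)
    rw [map_sub, ← AlgEquiv.mul_apply] at h2
    exact h2
  have h5 : x r - y r = ((y * y ^ (m * ℓ ^ k * t)) r - y r) -
      ((x * x ^ (m * ℓ ^ k * t)) r - x r) := by
    rw [h1]
    abel
  rw [h5]
  exact H.step k hk (Submodule.sub_mem _ (hz y hy) (hz x hx))

/-! ### The ideal of an augmentation -/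

/-- the ideal `J` -/
def JJ (ε : R →ₐ[A] A) (m : Ideal A) : Submodule A R := Submodule.comap ε.toLinearMap m

theorem mem_JJ (ε : R →ₐ[A] A) (m : Ideal A) (x : R) : x ∈ JJ ε m ↔ ε x ∈ m := Iff.rfl

theorem hyp (ε : R →ₐ[A] A) (m : Ideal A) : Hyp (JJ ε m) (AugAut ε) := by
  have hid : ∀ (k : ℕ) (a : R), 1 ≤ k → ∀ x ∈ JJ ε m ^ k,
      a * x ∈ JJ ε m ^ k ∧ x * a ∈ JJ ε m ^ k := by
    intro k a hk
    induction k, hk using Nat.le_induction generalizing a with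
    | base =>
      intro x hx
      rw [pow_one] at hx ⊢
      rw [mem_JJ] at hx
      refine ⟨?_, ?_⟩
      · rw [mem_JJ, map_mul]
        exact m.mul_mem_left _ hx
      · rw [mem_JJ, map_mul]
        exact m.mul_mem_right _ hx
    | succ k hk ih =>
      intro x hx
      rw [pow_succ] at hx ⊢
      refine Submodule.mul_induction_on
        (C := fun z => a * z ∈ JJ ε m ^ k * JJ ε m ∧ z * a ∈ JJ ε m ^ k * JJ ε m) hx ?_ ?_
      · intro y hy z hz
        refine ⟨?_, ?_⟩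
        · rw [← mul_assoc]
          exact Submodule.mul_mem_mul (ih a y hy).1 hz
        · rw [mul_assoc]
          refine Submodule.mul_mem_mul hy ?_
          rw [mem_JJ] at hz
          rw [mem_JJ, map_mul]
          exact m.mul_mem_right _ hz
      · intro y z hy hz
        rw [mul_add, add_mul]
        exact ⟨Submodule.add_mem _ hy.1 hz.1, Submodule.add_mem _ hy.2 hz.2⟩
  refine ⟨hid, ?_, ?_⟩
  · intro k hk
    rw [pow_succ, Submodule.mul_le]
    intro y hy z _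
    exact (hid k z hk y hy).2
  · intro θ hθ k hk
    induction k, hk using Nat.le_induction with
    | base =>
      intro x hx
      rw [pow_one, mem_JJ] at hx ⊢
      rw [hθ x]
      exact hx
    | succ k hk ih =>
      intro x hx
      rw [pow_succ] at hx ⊢
      refine Submodule.mul_induction_on (C := fun z => θ z ∈ JJ ε m ^ k * JJ ε m) hx ?_ ?_
      · intro y hy z hz
        rw [map_mul]
        refine Submodule.mul_mem_mul (ih y hy) ?_
        rw [mem_JJ, hθ z]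
        exact hz
      · intro y z hy hz
        rw [map_add]
        exact Submodule.add_mem _ hy hz

theorem smul_mem_sq (ε : R →ₐ[A] A) (m : Ideal A) (a : A) (ha : a ∈ m ^ 2) (x : R) :
    a • x ∈ JJ ε m ^ 2 := by
  have hsm : ∀ b ∈ m, ∀ y : R, b • y ∈ JJ ε m := by
    intro b hb y
    rw [mem_JJ, map_smul, smul_eq_mul]
    exact m.mul_mem_right _ hb
  rw [sq] at ha
  refine Submodule.mul_induction_on (C := fun a => a • x ∈ JJ ε m ^ 2) ha ?_ ?_
  · intro b hb c hc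
    have h : (b * c) • x = (b • (1 : R)) * (c • x) := by
      rw [smul_mul_assoc, one_mul, smul_smul]
    rw [h, sq]
    exact Submodule.mul_mem_mul (hsm b hb 1) (hsm c hc x)
  · intro b c hb hc
    rw [add_smul]
    exact Submodule.add_mem _ hb hc

theorem finite_quot (ε : R →ₐ[A] A) (m : Ideal A) (hm : Finite (A ⧸ m ^ 2))
    (hfin : Module.Finite A (R ⧸ augI ε ^ 2)) : Finite (R ⧸ JJ ε m ^ 2) := by
  have hle : augI ε ^ 2 ≤ JJ ε m ^ 2 := by
    have h1 : augI ε ≤ JJ ε m := by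
      intro x hx
      have h0 : ε x = 0 := hx
      rw [mem_JJ, h0]
      exact m.zero_mem
    rw [sq, sq, Submodule.mul_le]
    intro y hy z hz
    exact Submodule.mul_mem_mul (h1 hy) (h1 hz)
  have hfin2 : Module.Finite A (R ⧸ JJ ε m ^ 2) := by
    refine Module.Finite.of_surjective (Submodule.factor hle) (Submodule.factor_surjective hle)
  have htor : Module.IsTorsionBySet A (R ⧸ JJ ε m ^ 2) (m ^ 2 : Ideal A) := by
    rintro x ⟨a, ha⟩
    obtain ⟨r, rfl⟩ := Submodule.Quotient.mk_surjective _ x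
    change a • (Submodule.Quotient.mk r : R ⧸ JJ ε m ^ 2) = 0
    rw [← Submodule.Quotient.mk_smul, Submodule.Quotient.mk_eq_zero]
    exact smul_mem_sq ε m a ha r
  let _ := htor.module
  have : IsScalarTower A (A ⧸ m ^ 2) (R ⧸ JJ ε m ^ 2) := htor.isScalarTower
  have : Module.Finite (A ⧸ m ^ 2) (R ⧸ JJ ε m ^ 2) :=
    Module.Finite.of_restrictScalars_finite A (A ⧸ m ^ 2) (R ⧸ JJ ε m ^ 2)
  exact Module.finite_of_finite (A ⧸ m ^ 2)

end VUNIx

open VUNIx in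
theorem t_VUNI (hDFG : s_DFG.{u}) (hVGRF : s_VGRF.{u, u}) (hVKRU : s_VKRU.{u}) : s_VUNI.{u} := by
  intro K _ S hS R _ _ ε G _ φ hV
  obtain ⟨m, hm, hfin, hbot⟩ := hDFG K S hS
  have hNoeth : IsNoetherianRing (Subring.closure S) := by
    have := DFGx.ft K S hS
    exact Algebra.FiniteType.isNoetherianRing ℤ (Subring.closure S)
  obtain ⟨g1, g2, g3, g4⟩ := hVGRF (Subring.closure S) R ε
  have hft := hV.ft
  have hq : Finite (R ⧸ JJ ε m ^ 2) := finite_quot ε m (hfin 2) (g4 hft 2 (by omega))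
  -- a positive integer in `m`
  have hfin1 : Finite (Subring.closure S ⧸ m) := by
    have := hfin 1
    rwa [pow_one] at this
  set ℓ : ℕ := Nat.card (Subring.closure S ⧸ m) with hℓ
  have hℓ0 : 0 < ℓ := Nat.card_pos
  have hℓm : (ℓ : Subring.closure S) ∈ m := by
    rw [← Ideal.Quotient.eq_zero_iff_mem, map_natCast]
    have h1 := card_nsmul_eq_zero' (G := Subring.closure S ⧸ m) (x := 1)
    rw [nsmul_eq_mul, mul_one] at h1
    exact h1
  have hℓJ : (ℓ : R) ∈ JJ ε m := by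
    rw [mem_JJ, map_natCast]
    exact hℓm
  have hres : ∀ x : R, (∀ k : ℕ, 1 ≤ k → x ∈ JJ ε m ^ k) → x = 0 :=
    hVKRU (Subring.closure S) R ε hft hV.sat m hm.ne_top
  obtain ⟨N, hN⟩ := roots (hyp ε m) hℓ0 hℓJ hq hres
  refine ⟨N, fun p hp hpN x y hxy => hV.inj ?_⟩
  refine hN p hp hpN (φ x) (fun r => hV.aug x r) (φ y) (fun r => hV.aug y r) ?_
  rw [← map_pow, ← map_pow, hxy]

end Pool.Agent.SUR
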