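import Pool.Agent.SUR.StV
import Pool.Agent.SUR.RWT

/-!
# VWT: weights at one element and at its powers, representations with bounded denominators
-/

set_option autoImplicit false

universe u

namespace Pool.Agent.SUR

open Pool.Agent.WhK Finset

namespace VWTx

/-- the weights for one element with the condition `EulD`, for a given `M` -/
theorem one (hREP : s_VREP.{u}) (hEUL : s_LEUL.{u, u}) (hMONO : s_LMONO.{u})
    (hPSH : s_LPSH.{u, u}) (hPOW : s_LPOW.{u}) (hTRA : s_LTRA.{u})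
    (F : Type u) [Field F] (S : Set F) (hS : S.Finite) (M : ℕ)
    (hψ : CharZero F → ∀ ν ∈ Subring.closure S, ν ≠ 0 →
      ∃ ψ : Subring.closure S →+ ZM M, ∀ h : ν ∈ Subring.closure S, ψ ⟨ν, h⟩ ≠ 0)
    (G : Type u) [Group G] (n : ℕ) (hn : 0 < n) (g : G) (hE : EulD G F S n g) :
    WtG G M (n * n + n + 2) g := by
  intro N _
  rcases hE with ⟨ρ, d, hd, hρ, hρg⟩ | ⟨hchar, j, v, s, φ, hj, hv, hE⟩
  · obtain ⟨v, W, hv, hW, hD⟩ := hREP F S hS M hψ G n g ρ d hd hρ hρg N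
    exact ⟨v, W, hv, hW, hMONO _ _ _ _ _ _ _ (by omega) hD⟩
  · obtain ⟨v, W, hv, hW, hD⟩ := RWTx.of_eul hEUL hPSH hPOW hTRA F S M hchar hψ G n hn g j v s φ
      hj hv hE N
    exact ⟨v, W, hv, hW, hMONO _ _ _ _ _ _ _ (by omega) hD⟩

/-- the condition `EulD` for a power -/
theorem powp (G : Type u) [Group G] (F : Type u) [Field F] (S : Set F) (n : ℕ) (g : G)
    (hE : EulD G F S n g) (p : ℕ) (hp : p.Prime)
    (hcomm : ∀ h : G, h * g ^ p = g ^ p * h → h * g = g * h) : EulD G F S n (g ^ p) := by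
  have hle : Subgroup.centralizer {g ^ p} ≤ Subgroup.centralizer {g} := fun z hz =>
    Subgroup.mem_centralizer_singleton_iff.2 (hcomm z (Subgroup.mem_centralizer_singleton_iff.1 hz))
  rcases hE with ⟨ρ, d, hd, hρ, hρg⟩ | ⟨hchar, j, v, s, φ, hj, hv, hE⟩
  · refine Or.inl ⟨ρ.comp (Subgroup.inclusion hle), d, hd, fun z i k => hρ _ i k, fun hf => hρg ?_⟩
    obtain ⟨m, hm, hm1⟩ := isOfFinOrder_iff_pow_eq_one.1 hf
    refine isOfFinOrder_iff_pow_eq_one.2 ⟨p * m, Nat.mul_pos hp.pos hm, ?_⟩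
    rw [pow_mul, ← map_pow]
    exact hm1
  · have hι : (Subgroup.inclusion hle)
        ((⟨g ^ p, Subgroup.mem_centralizer_singleton_iff.2 rfl⟩ :
          Subgroup.centralizer {g ^ p}) ^ j) =
        ((⟨g, Subgroup.mem_centralizer_singleton_iff.2 rfl⟩ :
          Subgroup.centralizer {g}) ^ j) ^ p := by
      refine Subtype.ext ?_
      show (g ^ p) ^ j = (g ^ j) ^ p
      rw [← pow_mul, ← pow_mul, mul_comm]
    have hchar' : CharZero (Subring.closure S) := by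
      refine ⟨fun a b hab => ?_⟩
      have h1 := congrArg (Subring.closure S).subtype hab
      rw [map_natCast, map_natCast] at h1
      exact Nat.cast_injective h1
    exact Or.inr ⟨hchar, j, (p : Subring.closure S) * v, _, _, hj,
      mul_ne_zero (Nat.cast_ne_zero.2 hp.ne_zero) hv, RWTx.nil_res _ hι hE⟩

/-- the number `M` -/
theorem getM (hNNF : s_NNF.{u}) (F : Type u) [Field F] (S : Set F) (hS : S.Finite) :
    ∃ M : ℕ, 0 < M ∧ (CharZero F → ∀ ν ∈ Subring.closure S, ν ≠ 0 →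
      ∃ ψ : Subring.closure S →+ ZM M, ∀ h : ν ∈ Subring.closure S, ψ ⟨ν, h⟩ ≠ 0) := by
  by_cases hc : CharZero F
  · obtain ⟨M, hM, h⟩ := hNNF F S hS
    exact ⟨M, hM, fun _ => h⟩
  · exact ⟨1, one_pos, fun h => absurd h hc⟩

end VWTx

/-- VWT -/
theorem t_VWT (hREP : s_VREP.{u}) (hEUL : s_LEUL.{u, u}) (hMONO : s_LMONO.{u})
    (hPSH : s_LPSH.{u, u}) (hPOW : s_LPOW.{u}) (hTRA : s_LTRA.{u}) (hNNF : s_NNF.{u}) :
    s_VWT.{u} := by
  intro G _
  refine ⟨?_, ?_, ?_⟩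
  · rintro ⟨F, _, S, n, hS, hn, hG⟩
    obtain ⟨M, hM, hψ⟩ := VWTx.getM hNNF F S hS
    exact ⟨M, n * n + n + 2, hM, fun N hN g hg =>
      VWTx.one hREP hEUL hMONO hPSH hPOW hTRA F S hS M hψ G n hn g (hG g hg) N hN⟩
  · rintro ⟨F, _, S, hS, hG⟩
    obtain ⟨M, hM, hψ⟩ := VWTx.getM hNNF F S hS
    refine ⟨M, hM, fun g hg => ?_⟩
    obtain ⟨n, hn, hE⟩ := hG g hg
    exact ⟨n * n + n + 2, VWTx.one hREP hEUL hMONO hPSH hPOW hTRA F S hS M hψ G n hn g hE,
      fun p hp hcomm => VWTx.one hREP hEUL hMONO hPSH hPOW hTRA F S hS M hψ G n hn (g ^ p)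
        (VWTx.powp G F S n g hE p hp hcomm)⟩
  · rintro g hg ⟨F, _, S, n, hS, hn, hE⟩
    obtain ⟨M, hM, hψ⟩ := VWTx.getM hNNF F S hS
    exact ⟨M, n * n + n + 2, hM, VWTx.one hREP hEUL hMONO hPSH hPOW hTRA F S hS M hψ G n hn g hE,
      fun p hp hcomm => VWTx.one hREP hEUL hMONO hPSH hPOW hTRA F S hS M hψ G n hn (g ^ p)
        (VWTx.powp G F S n g hE p hp hcomm)⟩

end Pool.Agent.SUR
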