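import Pool.Agent.SUR.FinalO
import Pool.Agent.SUR.StV
import Pool.Agent.SUR.VALD
import Pool.Agent.SUR.VREP
import Pool.Agent.SUR.VWT
import Pool.Agent.SUR.VLAT
import Pool.Agent.SUR.VGRF
import Pool.Agent.SUR.VSEP
import Pool.Agent.SUR.VKRU
import Pool.Agent.SUR.VUNI
import Pool.Agent.SUR.VDES
import Pool.Agent.SUR.VDOM
import Pool.Agent.SUR.DFG

/-!
# Surjectivity in degree one, seen in arbitrary targets: representations with bounded denominators
-/

set_option autoImplicit false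

universe u

namespace Pool.Agent.SUR

open Pool.Agent.WhK

theorem t_VREP' : s_VREP.{u} := t_VREP t_LCORE' t_LCORE0' t_LPSH t_LPOW t_LTRA t_VALD t_LEIG'

theorem t_VWT' : s_VWT.{u} := t_VWT t_VREP' t_LEUL' t_LMONO t_LPSH t_LPOW t_LTRA t_NNF

theorem t_VSEP' : s_VSEP.{u} := t_VSEP t_VGRF t_VLAT

theorem t_VUNI' : s_VUNI.{u} := t_VUNI t_DFG t_VGRF (t_VKRU t_VGRF)

/-- matrices over the subring as matrices over the field -/
theorem eulD_of_eul (G : Type u) [Group G] (F : Type u) [Field F] (S : Set F) (n : ℕ) (g : G)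
    (h : (∃ ρ : Subgroup.centralizer {g} →* Matrix (Fin n) (Fin n) (Subring.closure S),
        ¬IsOfFinOrder (ρ ⟨g, Subgroup.mem_centralizer_singleton_iff.2 rfl⟩)) ∨
      (CharZero F ∧ ∃ (j : ℕ) (v : Subring.closure S)
        (s : Subgroup.centralizer {g} → Subring.closure S)
        (φ : List (Subgroup.centralizer {g}) → Subring.closure S), 0 < j ∧ v ≠ 0 ∧
        NilEuler ((⟨g, Subgroup.mem_centralizer_singleton_iff.2 rfl⟩ :
          Subgroup.centralizer {g}) ^ j) n v s φ)) : EulD G F S n g := by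
  rcases h with ⟨ρ, hρ⟩ | h
  · refine Or.inl ⟨(LWTx.inc (Subring.closure S) n).toMonoidHom.comp ρ, 1, one_ne_zero,
      fun z i j => ?_, fun hf => hρ ?_⟩
    · rw [one_mul]
      exact (ρ z i j).2
    · obtain ⟨k, hk, h1⟩ := isOfFinOrder_iff_pow_eq_one.1 hf
      refine isOfFinOrder_iff_pow_eq_one.2 ⟨k, hk, LWTx.inc_injective (Subring.closure S) n ?_⟩
      rw [map_pow, map_one]
      exact h1
  · exact Or.inr h

theorem centEulD_of_centEul (G : Type u) [Group G] (h : CentEul G) : CentEulD G := by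
  obtain ⟨F, hF, S, n, hS, hn, h1⟩ := h
  exact ⟨F, hF, S, n, hS, hn, fun g hg => eulD_of_eul G F S n g (h1 g hg)⟩

theorem centEulDN_of_centEulN (G : Type u) [Group G] (h : CentEulN G) : CentEulDN G := by
  obtain ⟨F, hF, S, hS, h1⟩ := h
  refine ⟨F, hF, S, hS, fun g hg => ?_⟩
  obtain ⟨n, hn, h2⟩ := h1 g hg
  exact ⟨n, hn, eulD_of_eul G F S n g h2⟩

theorem centEulDN_of_centEulD (G : Type u) [Group G] (h : CentEulD G) : CentEulDN G := by
  obtain ⟨F, hF, S, n, hS, hn, h1⟩ := h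
  exact ⟨F, hF, S, hS, fun g hg => ⟨n, hn, h1 g hg⟩⟩

theorem locED_of_locE (G : Type u) [Group G] (h : LocE G) : LocED G := fun G₀ h₀ =>
  (h G₀ h₀).imp (centEulD_of_centEul G₀) fun h1 => ⟨h1.1, centEulDN_of_centEulN G₀ h1.2⟩

/-- surjectivity -/
theorem surjW_D (G : Type u) [Group G] (h : LocED G) : SurjW G :=
  surjW_of_arithR G fun G₀ h₀ => by
    rcases h G₀ h₀ with h1 | ⟨h1, h2⟩
    · obtain ⟨M, r, hM, hc⟩ := (t_VWT' G₀).1 h1
      exact t_LARI' G₀ M r hM hc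
    · obtain ⟨M, hM, hW⟩ := (t_VWT' G₀).2.1 h2
      exact t_RARI' G₀ M hM h1 (t_PPRT G₀ h1 (t_RFEW' G₀ M hM hW)) hW

/-- finitely generated groups of automorphisms of an augmented algebra -/
theorem uniq_sep_alg (K B : Type u) [Field K] [CharZero K] [Ring B] [Algebra K B] (ε : B →ₐ[K] K)
    (hft : Algebra.FiniteType K B) (h : ∀ x : B, (∀ k : ℕ, 1 ≤ k → x ∈ augI ε ^ k) → x = 0)
    (G : Type u) [Group G] (hG : Group.FG G) (φ : G →* (B ≃ₐ[K] B)) (hφ : Function.Injective φ)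
    (hε : ∀ g x, ε (φ g x) = ε x) : UniqExp G ∧ CentEulDN G := by
  obtain ⟨S, hS, R, hR, hA, ε', φ', hV⟩ := t_VDES K B ε hft h G φ hG hφ hε
  exact ⟨t_VUNI' K S hS R ε' G φ' hV, t_VSEP' K S hS R ε' G φ' hV⟩

/-- groups of automorphisms of an augmented algebra -/
theorem locED_alg (K B : Type u) [Field K] [CharZero K] [Ring B] [Algebra K B] (ε : B →ₐ[K] K)
    (hft : Algebra.FiniteType K B) (h : ∀ x : B, (∀ k : ℕ, 1 ≤ k → x ∈ augI ε ^ k) → x = 0)
    (G : Subgroup (B ≃ₐ[K] B)) (hG : G ≤ AugAut ε) : LocED G := by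
  intro G₀ h₀
  refine Or.inr (uniq_sep_alg K B ε hft h G₀ ((Group.fg_iff_subgroup_fg G₀).2 h₀)
    (G.subtype.comp G₀.subtype) (G.subtype_injective.comp G₀.subtype_injective) fun g x => ?_)
  exact hG (g : G).2 x

end Pool.Agent.SUR
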