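import Pool.Agent.SUR.XUNF

/-!
# One unit for all finite quotients
-/

set_option autoImplicit false

universe u

namespace Pool.Agent.SUR

open Pool.Agent.WhK FINCx

/-- the subgroup of the units of `ℤ[G]` generated by the units of the rings `ℤ[C]`, `C` a finite cyclic
subgroup of `G` -/
noncomputable def cycUnits (G : Type u) [Group G] : Subgroup (MonoidAlgebra ℤ G)ˣ :=
  Subgroup.closure {w | ∃ (C : Subgroup G) (_ : Finite C) (_ : IsCyclic C)
    (v : (MonoidAlgebra ℤ C)ˣ), w = unitsMap C.subtype v}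

open XUNFx in
/-- one unit for all finite quotients -/
theorem uniform_cyc (G : Type u) [Group G] (hG : SurjW G)
    (hc : {K : ConjClasses G | ∃ g : G, IsOfFinOrder g ∧ ConjClasses.mk g = K}.Finite)
    (x : Wh G) : ∃ n : ℕ, 0 < n ∧ ∃ w ∈ cycUnits G,
    ∀ (Γ : Type u) [Group Γ] [Finite Γ] (π : G →* Γ),
      ∃ m : ℕ, 0 < m ∧ m • Wh.map π (n • x - Wh.mk (K1.ofUnit w)) = 0 := by
  classical
  -- representatives
  let ι := {K : ConjClasses G // ∃ g : G, IsOfFinOrder g ∧ ConjClasses.mk g = K}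
  have hι : Finite ι := hc
  let _ : Fintype ι := Fintype.ofFinite ι
  choose g hgf hgK using fun i : ι => i.2
  have hg : ∀ c : G, IsOfFinOrder c → ∃ i, IsConj (g i) c := fun c hcf =>
    ⟨⟨ConjClasses.mk c, c, hcf, rfl⟩, ConjClasses.mk_eq_mk_iff_isConj.1 (hgK _)⟩
  have hfin : ∀ i, Finite (Subgroup.zpowers (g i)) := fun i => finite_zpowers.2 (hgf i)
  choose Lc hL1 hL2 fc hfc using fun i : ι => by
    have := hfin i
    exact units_param (Subgroup.zpowers (g i)) fun a b => by
      obtain ⟨k, hk⟩ := Subgroup.mem_zpowers_iff.1 a.2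
      obtain ⟨l, hl⟩ := Subgroup.mem_zpowers_iff.1 b.2
      apply Subtype.ext
      show (a : G) * b = b * a
      rw [← hk, ← hl, ← zpow_add, ← zpow_add, add_comm]
  let φ : (∀ i : ι, Lc i) →+ Wh G := ∑ i, ((cls (Subgroup.zpowers (g i)).subtype).comp (fc i)).comp
    (Pi.evalAddMonoidHom _ i)
  have hφ : ∀ l : (∀ i : ι, Lc i),
      φ l = ∑ i, cls (Subgroup.zpowers (g i)).subtype (fc i (l i)) := fun l => by
    show (∑ i, ((cls (Subgroup.zpowers (g i)).subtype).comp (fc i)).comp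
      (Pi.evalAddMonoidHom _ i)) l = _
    rw [AddMonoidHom.finsetSum_apply]
    rfl
  let B : AddSubgroup (Wh G) := AddSubgroup.closure
    {y | ∃ (H : Subgroup G) (_ : Finite H) (z : Wh H), y = Wh.map H.subtype z}
  have hφU : ∀ l, ∃ w ∈ cycUnits G, φ l = Wh.mk (K1.ofUnit w) := fun l => by
    rw [hφ]
    have h : ∀ s : Finset ι, ∃ w ∈ cycUnits G,
        ∑ i ∈ s, cls (Subgroup.zpowers (g i)).subtype (fc i (l i)) = Wh.mk (K1.ofUnit w) := by
      intro s
      induction s using Finset.induction_on with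
      | empty =>
        refine ⟨1, (cycUnits G).one_mem, ?_⟩
        rw [Finset.sum_empty]
        have h : K1.ofUnit (1 : (MonoidAlgebra ℤ G)ˣ) = 0 :=
          congrArg Multiplicative.toAdd (map_one (K1.unitHom (MonoidAlgebra ℤ G)))
        rw [h]
        rfl
      | insert a s ha ih =>
        obtain ⟨w, hw, h1⟩ := ih
        refine ⟨unitsMap (Subgroup.zpowers (g a)).subtype (fc a (l a)).toMul * w,
          (cycUnits G).mul_mem (Subgroup.subset_closure ⟨Subgroup.zpowers (g a), hfin a,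
            inferInstance, _, rfl⟩) hw, ?_⟩
        rw [Finset.sum_insert ha, h1, K1.ofUnit_mul]
        rfl
    exact h Finset.univ
  have hR : ∀ (i : ι) (w : (MonoidAlgebra ℤ (Subgroup.zpowers (g i)))ˣ),
      cls (Subgroup.zpowers (g i)).subtype (Additive.ofMul w) ∈ φ.range := fun i w => by
    obtain ⟨l, hl⟩ := hfc i (Additive.ofMul w)
    refine ⟨Pi.single i l, ?_⟩
    rw [hφ, Finset.sum_eq_single i, Pi.single_eq_same, hl]
    · intro j _ hj
      rw [Pi.single_eq_of_ne hj, map_zero, map_zero]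
    · intro h
      exact absurd (Finset.mem_univ i) h
  have hB : ∀ b ∈ B, b ∈ sat φ.range := fun b hb =>
    fin_mem φ.range (cls_mem g hg φ.range hR) b hb
  have : Nonempty (FQuot G) := ⟨⟨PUnit, inferInstance, inferInstance, 1⟩⟩
  obtain ⟨n, l, hn, h⟩ := exists_uniform φ
    (fun i : FQuot G => (sat (⊥ : AddSubgroup (Wh i.Γ))).comap (Wh.map i.π))
    (fun i m a hm h => by
      rw [AddSubgroup.mem_comap, map_nsmul] at h
      exact mem_sat_of_nsmul hm h)
    (fun i j => by
      refine ⟨⟨i.Γ × j.Γ, inferInstance, inferInstance, i.π.prod j.π⟩, fun a ha => ?_, fun a ha => ?_⟩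
      · obtain ⟨m, hm, h1⟩ := ha
        have e : i.π = (MonoidHom.fst i.Γ j.Γ).comp (i.π.prod j.π) := by
          ext
          rfl
        refine ⟨m, hm, ?_⟩
        rw [AddSubgroup.mem_bot] at h1 ⊢
        have h2 := congrArg (Wh.map (MonoidHom.fst i.Γ j.Γ)) h1
        rw [map_zero, map_nsmul, Wh.map_comp, ← e] at h2
        exact h2
      · obtain ⟨m, hm, h1⟩ := ha
        have e : j.π = (MonoidHom.snd i.Γ j.Γ).comp (i.π.prod j.π) := by
          ext
          rfl
        refine ⟨m, hm, ?_⟩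
        rw [AddSubgroup.mem_bot] at h1 ⊢
        have h2 := congrArg (Wh.map (MonoidHom.snd i.Γ j.Γ)) h1
        rw [map_zero, map_nsmul, Wh.map_comp, ← e] at h2
        exact h2) x
    (fun i => by
      obtain ⟨n, hn, h1⟩ := hG i.Γ i.π x ⟨1, one_pos, by
        rw [one_smul]
        exact t_FINITE.1 i.Γ _⟩
      have h2 : AddSubgroup.closure
          {y | ∃ (H : Subgroup G) (_ : Finite H) (z : Wh H), y = Wh.map (i.π.comp H.subtype) z} ≤
          B.map (Wh.map i.π) := by
        rw [AddSubgroup.closure_le]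
        rintro _ ⟨H, hH, z, rfl⟩
        refine ⟨Wh.map H.subtype z, AddSubgroup.subset_closure ⟨H, hH, z, rfl⟩, ?_⟩
        rw [Wh.map_comp]
      obtain ⟨b, hb, h3⟩ := h2 h1
      obtain ⟨m, hm, l, hl⟩ := hB b hb
      refine ⟨m * n, l, Nat.mul_pos hm hn, ?_⟩
      rw [AddSubgroup.mem_comap, map_sub, hl, map_nsmul, map_nsmul, mul_smul, h3, sub_self]
      exact (sat (⊥ : AddSubgroup (Wh i.Γ))).zero_mem)
  obtain ⟨w, hw, hlw⟩ := hφU l
  refine ⟨n, hn, w, hw, fun Γ _ _ π => ?_⟩
  obtain ⟨m, hm, h1⟩ := h ⟨Γ, inferInstance, inferInstance, π⟩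
  rw [← hlw]
  exact ⟨m, hm, h1⟩

end Pool.Agent.SUR
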