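import Pool.Agent.SUR.St2

/-!
# Module FINC: the general form of the last step
-/

set_option autoImplicit false

universe u

namespace Pool.Agent.SUR

open Pool.Agent.WhK

namespace FINCx

variable {G Q : Type u} [Group G] [Group Q]

/-- the elements conjugate to images of elements of finite order -/
def PP (π : G →* Q) (c : Q) : Prop := ∃ g : G, IsOfFinOrder g ∧ IsConj (π g) c

theorem PP_conj (π : G →* Q) (c d : Q) (h : IsConj c d) (hc : PP π c) : PP π d := by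
  obtain ⟨g, hg, hgc⟩ := hc
  exact ⟨g, hg, hgc.trans h⟩

theorem PP_pow (π : G →* Q) (c : Q) (i : ℕ) (hc : PP π c) : PP π (c ^ i) := by
  obtain ⟨g, hg, hgc⟩ := hc
  refine ⟨g ^ i, hg.pow, ?_⟩
  rw [map_pow]
  exact hgc.pow i

/-- the subgroup of the statement -/
noncomputable def SS (π : G →* Q) : AddSubgroup (K1 (MonoidAlgebra ℤ Q)) :=
  AddSubgroup.closure {y | ∃ (H : Subgroup G) (_ : Finite H) (z : K1 (MonoidAlgebra ℤ H)),
    y = K1.map (ringMap (π.comp H.subtype)) z}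

/-- classes of units are invariant under conjugation -/
theorem ofUnit_conj {R : Type u} [Ring R] (a b : Rˣ) :
    K1.ofUnit (a * b * a⁻¹) = K1.ofUnit b := by
  have h := congrArg Multiplicative.toAdd (show K1.unitHom R (a * b * a⁻¹) = K1.unitHom R b by
    rw [map_mul, map_mul, map_inv, mul_inv_cancel_comm])
  exact h

theorem ofUnit_pow {R : Type u} [Ring R] (a : Rˣ) (n : ℕ) :
    K1.ofUnit (a ^ n) = n • K1.ofUnit a := by
  have h := congrArg Multiplicative.toAdd (map_pow (K1.unitHom R) a n)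
  rw [toAdd_pow] at h
  exact h

theorem unitsMap_twist {H : Type u} [Group H] (f f' : H →* Q) (q : Q)
    (h : ∀ x, f x = q * f' x * q⁻¹) (u : (MonoidAlgebra ℤ H)ˣ) :
    unitsMap f u = gUnit q * unitsMap f' u * (gUnit q)⁻¹ := by
  have key : ∀ x : MonoidAlgebra ℤ H,
      MonoidAlgebra.mapDomainRingHom ℤ f x =
      MonoidAlgebra.single q 1 * MonoidAlgebra.mapDomainRingHom ℤ f' x *
        MonoidAlgebra.single q⁻¹ 1 := by
    intro x
    induction x using MonoidAlgebra.induction_linear with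
    | zero => simp
    | add x y hx hy => rw [map_add, hx, hy, map_add, mul_add, add_mul]
    | single c r =>
      simp only [MonoidAlgebra.mapDomainRingHom_apply, MonoidAlgebra.mapDomain_single,
        MonoidAlgebra.single_mul_single, one_mul, mul_one, h]
  ext1
  exact key u.val

theorem mk_mem_sat (hLIF : s_LIF.{u}) (π : G →* Q) (C : Cyc Q) (w : (MonoidAlgebra ℤ C.1)ˣ)
    (hC : ∀ c ∈ C.1, PP π c) : K1.ofUnit (unitsMap C.1.subtype w) ∈ sat (SS π) := by
  obtain ⟨c0, hc0⟩ := C.cyc.exists_generator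
  obtain ⟨g, hg, hgc⟩ := hC c0.1 c0.2
  obtain ⟨q, hq⟩ := isConj_iff.1 hgc
  have hfin : Finite (Subgroup.zpowers g) := finite_zpowers.2 hg
  have hk : ∀ k : ℤ, q * π (g ^ k) * q⁻¹ = ((c0 ^ k : C.1) : Q) := by
    intro k
    rw [map_zpow, Subgroup.coe_zpow, ← hq, conj_zpow]
  have hmem : ∀ h : Subgroup.zpowers g, q * π h.1 * q⁻¹ ∈ C.1 := by
    rintro ⟨_, k, rfl⟩
    show q * π (g ^ k) * q⁻¹ ∈ C.1
    rw [hk]
    exact (c0 ^ k).2
  let φ : Subgroup.zpowers g →* C.1 :=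
    MonoidHom.mk' (fun h => ⟨q * π h.1 * q⁻¹, hmem h⟩) fun a b => Subtype.ext (by
      show q * π (a.1 * b.1) * q⁻¹ = (q * π a.1 * q⁻¹) * (q * π b.1 * q⁻¹)
      rw [map_mul]
      group)
  have hφ : Function.Surjective φ := by
    intro c
    obtain ⟨k, hck⟩ := Subgroup.mem_zpowers_iff.1 (hc0 c)
    refine ⟨⟨g ^ k, k, rfl⟩, Subtype.ext ?_⟩
    show q * π (g ^ k) * q⁻¹ = c
    rw [hk, hck]
  obtain ⟨n, w', hn, hw'⟩ := hLIF (Subgroup.zpowers g) C.1 φ hφ w
  refine ⟨n, hn, ?_⟩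
  have e1 : n • K1.ofUnit (unitsMap C.1.subtype w) =
      K1.ofUnit (unitsMap (π.comp (Subgroup.zpowers g).subtype) w') := by
    rw [← ofUnit_pow, ← map_pow, ← hw', unitsMap_comp,
      unitsMap_twist (C.1.subtype.comp φ) (π.comp (Subgroup.zpowers g).subtype) q
        (fun _ => rfl), ofUnit_conj]
  rw [e1]
  refine AddSubgroup.subset_closure ⟨Subgroup.zpowers g, hfin, K1.ofUnit w', ?_⟩
  rw [K1.map_ofUnit]
  rfl

theorem lift_mem_sat (hLIF : s_LIF.{u}) (π : G →* Q) (x : ColimK1 Q)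
    (hx : x ∈ AddSubgroup.closure
      {x | ∃ (C : Cyc Q) (w : (MonoidAlgebra ℤ C.1)ˣ), (∀ c ∈ C.1, PP π c) ∧
        x = ColimK1.mk C w}) :
    liftColim (K1.unitHom (MonoidAlgebra ℤ Q)) x ∈ sat (SS π) := by
  have h : AddSubgroup.closure
      {x | ∃ (C : Cyc Q) (w : (MonoidAlgebra ℤ C.1)ˣ), (∀ c ∈ C.1, PP π c) ∧
        x = ColimK1.mk C w} ≤
      (sat (SS π)).comap (liftColim (K1.unitHom (MonoidAlgebra ℤ Q))) := by
    rw [AddSubgroup.closure_le]
    rintro _ ⟨C, w, hC, rfl⟩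
    show liftColim (K1.unitHom (MonoidAlgebra ℤ Q)) (ColimK1.mk C w) ∈ sat (SS π)
    rw [liftColim_mk]
    exact mk_mem_sat hLIF π C w hC
  exact h hx

end FINCx

open FINCx in
theorem t_FINC (hEND : s_END.{u}) (hKCO : s_KCO.{u}) (hLIF : s_LIF.{u}) (hNTG : s_NTG.{u}) :
    s_FINC.{u} := by
  intro G _ hG Q _ _ π x
  obtain ⟨n, X, rfl⟩ := K1.exists_mk x
  rw [K1.map_mk]
  obtain ⟨n0, ξ, k, hk, hn0, hξ, hL⟩ := hKCO Q n (GLn.map (ringMap π) n X)
  have hst : stabGL (MonoidAlgebra ℤ Q) n (k + 1) hk (GLn.map (ringMap π) n X) =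
      GLn.map (ringMap π) (k + 1) (stabGL (MonoidAlgebra ℤ G) n (k + 1) hk X) :=
    Units.ext (stabMat_map (ringMap π) n (k + 1) X.val)
  let X' : (Matrix (Fin (k + 1)) (Fin (k + 1)) (MonoidAlgebra ℤ G))ˣ :=
    stabGL (MonoidAlgebra ℤ G) n (k + 1) hk X
  obtain ⟨p, hp, hp2, hcard, D, hD, hvan⟩ := hG (k + 1) k.succ_pos
    (Units.map (Fhom G (k + 1)) X') Q π (Nat.card Q) Nat.card_pos
  obtain ⟨n1, hn1, hmem⟩ := hEND Q p hp2 hcard (PP π) (PP_conj π) (PP_pow π) k (D • ξ) (by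
    intro m c hc
    rw [map_nsmul, Finsupp.smul_apply, hL p m hp2, hst, hNTG G Q π (k + 1) p m hp2]
    have h1 := hvan m c fun g hgc hg => hc ⟨g, hg, hgc⟩
    rw [smul_comm]
    have h2 : D • (Finsupp.mapDomain (Option.map (ConjClasses.map π))
        (GamGL G (k + 1) p m hp2 (stabGL (MonoidAlgebra ℤ G) n (k + 1) hk X)).toAdd)
          (some (ConjClasses.mk c)) = 0 := h1
    rw [h2, smul_zero])
  have h3 := lift_mem_sat hLIF π _ hmem
  rw [map_nsmul, map_nsmul, hξ] at h3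
  obtain ⟨N, hN, h4⟩ := h3
  refine ⟨N * (n1 * (D * n0)), by positivity, ?_⟩
  rw [mul_smul, mul_smul, mul_smul]
  exact h4

end Pool.Agent.SUR
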