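import Pool.Agent.SUR.St

/-!
# Project SUR, module KCO: from `K₁(ℤ[Q])` to the colimit
-/

set_option autoImplicit false

universe u

namespace Pool.Agent.SUR

open Pool.Agent.WhK

namespace KCOx

variable {Q : Type u} [Group Q]

/-- The classes of powers. -/
theorem mk_pow {R : Type u} [Ring R] (n : ℕ) (X : GLn R n) (k : ℕ) :
    K1.mk n (X ^ k) = k • K1.mk n X := by
  induction k with
  | zero => rw [pow_zero, zero_smul, K1.mk_one]
  | succ k ih => rw [pow_succ, K1.mk_mul, ih, succ_nsmul]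

/-- The classes of inverses. -/
theorem mk_inv {R : Type u} [Ring R] (n : ℕ) (X : GLn R n) :
    K1.mk n X⁻¹ = -K1.mk n X := by
  have h1 : K1.mk n X⁻¹ + K1.mk n X = 0 := by
    rw [← K1.mk_mul, inv_mul_cancel, K1.mk_one]
  exact eq_neg_of_add_eq_zero_left h1

/-- The subgroup generated by the units of the cyclic subgroups is in the image of the colimit. -/
theorem cyc_le [Finite Q] :
    cycUnits Q ≤ (liftColim (K1.unitHom (MonoidAlgebra ℤ Q))).range := by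
  unfold cycUnits
  rw [AddSubgroup.closure_le]
  rintro y ⟨C, hC, u, rfl⟩
  exact ⟨ColimK1.mk ⟨C, inferInstance, hC⟩ u, liftColim_mk _ _ _⟩

end KCOx

theorem t_KCO : s_KCO.{u} := by
  intro Q _ _ n X
  letI := Fintype.ofFinite Q
  obtain ⟨n0, hn0, hX⟩ := artin_K1 (K1.mk n X)
  obtain ⟨ξ, hξ⟩ := KCOx.cyc_le hX
  obtain ⟨v, hv⟩ := exists_total ξ
  have h1 : K1.ofUnit v = K1.mk n (X ^ n0) := by
    rw [KCOx.mk_pow, ← hξ, hv (K1 (MonoidAlgebra ℤ Q)) (K1.unitHom (MonoidAlgebra ℤ Q))]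
    rfl
  set V : GLn (MonoidAlgebra ℤ Q) 1 := Units.map (Matrix.scalar (Fin 1)).toMonoidHom v with hV
  have h2 : K1.mk 1 V = K1.mk n (X ^ n0) := h1
  set Z : GLn (MonoidAlgebra ℤ Q) (max n 1) :=
    stabGL (MonoidAlgebra ℤ Q) n (max n 1) (le_max_left n 1) (X ^ n0) *
      (stabGL (MonoidAlgebra ℤ Q) 1 (max n 1) (le_max_right n 1) V)⁻¹ with hZ
  have h3 : K1.mk (max n 1) Z = 0 := by
    rw [hZ, K1.mk_mul, KCOx.mk_inv, K1.mk_stab, K1.mk_stab, h2, add_neg_cancel]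
  obtain ⟨k, hk, hk0, hc⟩ := exists_stab_mem_commutator h3
  obtain ⟨k, rfl⟩ : ∃ k', k = k' + 1 := ⟨k - 1, by omega⟩
  have hnk : n ≤ k + 1 := (le_max_left n 1).trans hk
  have h1k : 1 ≤ k + 1 := (le_max_right n 1).trans hk
  refine ⟨n0, ξ, k, hnk, hn0, hξ, fun p m _ hp κ => ?_⟩
  have e1 : stabGL (MonoidAlgebra ℤ Q) (max n 1) (k + 1) hk Z =
      stabGL (MonoidAlgebra ℤ Q) n (k + 1) hnk X ^ n0 *
        (stabGL (MonoidAlgebra ℤ Q) 1 (k + 1) h1k V)⁻¹ := by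
    rw [hZ, map_mul, map_inv, ← map_pow]
    congr 1
    · exact Units.ext (stabMat_stabMat (MonoidAlgebra ℤ Q) (le_max_left n 1) (X ^ n0).val)
    · congr 1
      exact Units.ext (stabMat_stabMat (MonoidAlgebra ℤ Q) (le_max_right n 1) V.val)
  have e2 : stabGL (MonoidAlgebra ℤ Q) 1 (k + 1) h1k V =
      (Units.map (dg (G := Q) (0 : Fin (k + 1))) v :
        (Matrix (Fin (k + 1)) (Fin (k + 1)) (MonoidAlgebra ℤ Q))ˣ) := stabGL_scalar k h1k v
  let g : GLn (MonoidAlgebra ℤ Q) (k + 1) →*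
    Multiplicative (Option (ConjClasses Q) →₀ ZMod (p ^ (m + 1))) := GamGL Q (k + 1) p m hp
  have h4 : g (stabGL (MonoidAlgebra ℤ Q) (max n 1) (k + 1) hk Z) = 1 :=
    Abelianization.commutator_subset_ker g hc
  rw [e1, map_mul, map_pow, map_inv, mul_inv_eq_one] at h4
  have h5 : (g (stabGL (MonoidAlgebra ℤ Q) 1 (k + 1) h1k V)).toAdd (some κ) =
      n0 • (g (stabGL (MonoidAlgebra ℤ Q) n (k + 1) hnk X)).toAdd (some κ) := by
    rw [← h4, toAdd_pow, Finsupp.smul_apply]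
  show liftColim ((GamGL Q (k + 1) p m hp).comp (Units.map (dg 0))) ξ (some κ) = _
  rw [hv]
  rw [e2] at h5
  exact h5

end Pool.Agent.SUR
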