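import Pool.Agent.SUR.St5
import Pool.Agent.SUR.KCO

/-!
# Project SUR, module KCG: from `K₁(ℤ[Γ])` to the colimit, arbitrary groups
-/

set_option autoImplicit false

universe u

namespace Pool.Agent.SUR

open Pool.Agent.WhK

namespace KCGx

variable {Γ : Type u} [Group Γ]

/-- The classes of units of the cyclic subgroups of a finite subgroup are in the image of the
colimit. -/
theorem unit_mem (H : Subgroup Γ) [Finite H] (C : Subgroup H) (hC : IsCyclic C)
    (u : (MonoidAlgebra ℤ C)ˣ) :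
    K1.map (ringMap H.subtype) (K1.ofUnit (Units.map (zmap C.subtype).toMonoidHom u)) ∈
      (liftColim (K1.unitHom (MonoidAlgebra ℤ Γ))).range := by
  let e : C ≃* C.map H.subtype := C.equivMapOfInjective H.subtype H.subtype_injective
  have : Finite (C.map H.subtype) := Finite.of_equiv _ e.toEquiv
  have : IsCyclic (C.map H.subtype) := isCyclic_of_surjective e.toMonoidHom e.surjective
  let D' : Cyc Γ := ⟨C.map H.subtype, inferInstance, inferInstance⟩
  refine ⟨ColimK1.mk D' (unitsMap e.toMonoidHom u), ?_⟩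
  rw [liftColim_mk, K1.map_ofUnit]
  refine congrArg K1.ofUnit (Units.ext ?_)
  have h1 : (ringMap D'.1.subtype).comp (ringMap e.toMonoidHom) =
      (ringMap H.subtype).comp (ringMap C.subtype) := by
    rw [ringMap_comp, ringMap_comp]
    rfl
  exact RingHom.congr_fun h1 u.val

/-- The subgroup generated by the images of the finite subgroups is, up to multiples, in the image
of the colimit. -/
theorem finPart_le : FinPart Γ ≤ sat (liftColim (K1.unitHom (MonoidAlgebra ℤ Γ))).range := by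
  unfold FinPart
  rw [AddSubgroup.closure_le]
  rintro y ⟨H, hH, z, rfl⟩
  letI := Fintype.ofFinite H
  obtain ⟨N, hN, hk⟩ := artin_K1 z
  refine ⟨N, hN, ?_⟩
  have h1 : cycUnits H ≤ (liftColim (K1.unitHom (MonoidAlgebra ℤ Γ))).range.comap
      (K1.map (ringMap H.subtype)) := by
    unfold cycUnits
    rw [AddSubgroup.closure_le]
    rintro y ⟨C, hC, u, rfl⟩
    exact unit_mem H C hC u
  have h2 := h1 hk
  rw [AddSubgroup.mem_comap, map_nsmul] at h2
  exact h2

end KCGx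

theorem t_KCG : s_KCG.{u} := by
  rintro Q _ n X ⟨n1, hn1, hX1⟩
  obtain ⟨n2, hn2, hX⟩ := KCGx.finPart_le hX1
  obtain ⟨ξ, hξ2⟩ := hX
  obtain ⟨n0, hn0, hξ⟩ : ∃ n0 : ℕ, 0 < n0 ∧
      liftColim (K1.unitHom (MonoidAlgebra ℤ Q)) ξ = n0 • K1.mk n X :=
    ⟨n2 * n1, Nat.mul_pos hn2 hn1, by rw [hξ2, mul_smul]⟩
  obtain ⟨v, hv⟩ := exists_total ξ
  have h1 : K1.ofUnit v = K1.mk n (X ^ n0) := by
    rw [KCOx.mk_pow, ← hξ, hv (K1 (MonoidAlgebra ℤ Q)) (K1.unitHom (MonoidAlgebra ℤ Q))]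
    rfl
  set V : GLn (MonoidAlgebra ℤ Q) 1 := Units.map (Matrix.scalar (Fin 1)).toMonoidHom v with hV
  have h2 : K1.mk 1 V = K1.mk n (X ^ n0) := h1
  set Z : GLn (MonoidAlgebra ℤ Q) (max n 1) :=
    stabGL (MonoidAlgebra ℤ Q) n (max n 1) (le_max_left n 1) (X ^ n0) *
      (stabGL (MonoidAlgebra ℤ Q) 1 (max n 1) (le_max_right n 1) V)⁻¹ with hZ
  have h3 : K1.mk (max n 1) Z = 0 := by
    rw [hZ, K1.mk_mul, KCOx.mk_inv, K1.mk_stab, K1.mk_stab, h2, add_neg_cancel]
  obtain ⟨k, hk, hk0, hc⟩ := exists_stab_mem_commutator h3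
  obtain ⟨k, rfl⟩ : ∃ k', k = k' + 1 := ⟨k - 1, by omega⟩
  have hnk : n ≤ k + 1 := (le_max_left n 1).trans hk
  have h1k : 1 ≤ k + 1 := (le_max_right n 1).trans hk
  refine ⟨n0, ξ, k, hnk, hn0, hξ, fun p m _ hp κ => ?_⟩
  have e1 : stabGL (MonoidAlgebra ℤ Q) (max n 1) (k + 1) hk Z =
      stabGL (MonoidAlgebra ℤ Q) n (k + 1) hnk X ^ n0 *
        (stabGL (MonoidAlgebra ℤ Q) 1 (k + 1) h1k V)⁻¹ := by
    rw [hZ, map_mul, map_inv, ← map_pow]
    congr 1
    · exact Units.ext (stabMat_stabMat (MonoidAlgebra ℤ Q) (le_max_left n 1) (X ^ n0).val)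
    · congr 1
      exact Units.ext (stabMat_stabMat (MonoidAlgebra ℤ Q) (le_max_right n 1) V.val)
  have e2 : stabGL (MonoidAlgebra ℤ Q) 1 (k + 1) h1k V =
      (Units.map (dg (G := Q) (0 : Fin (k + 1))) v :
        (Matrix (Fin (k + 1)) (Fin (k + 1)) (MonoidAlgebra ℤ Q))ˣ) := stabGL_scalar k h1k v
  let g : GLn (MonoidAlgebra ℤ Q) (k + 1) →*
    Multiplicative (Option (ConjClasses Q) →₀ ZMod (p ^ (m + 1))) := GamGL Q (k + 1) p m hp
  have h4 : g (stabGL (MonoidAlgebra ℤ Q) (max n 1) (k + 1) hk Z) = 1 :=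
    Abelianization.commutator_subset_ker g hc
  rw [e1, map_mul, map_pow, map_inv, mul_inv_eq_one] at h4
  have h5 : (g (stabGL (MonoidAlgebra ℤ Q) 1 (k + 1) h1k V)).toAdd (some κ) =
      n0 • (g (stabGL (MonoidAlgebra ℤ Q) n (k + 1) hnk X)).toAdd (some κ) := by
    rw [← h4, toAdd_pow, Finsupp.smul_apply]
  show liftColim ((GamGL Q (k + 1) p m hp).comp (Units.map (dg 0))) ξ (some κ) = _
  rw [hv]
  rw [e2] at h5
  exact h5

end Pool.Agent.SUR
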