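import Pool.Agent.SUR.XUNI
import Pool.Agent.SUR.XCMP
import Pool.Agent.SUR.FINC
import Pool.Agent.SUR.KCG
import Pool.Agent.SUR.FINITE

/-!
# One element for all finite quotients

If the elements of finite order of `G` are in finitely many conjugacy classes and the conclusion `SurjW` holds
for `G`, then for every `x` in `Wh G` there is one sum of elements which come from finite subgroups of `G`
which agrees, up to torsion, with one multiple of `x` in the Whitehead groups of all finite quotients of `G`.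
-/

set_option autoImplicit false

universe u

namespace Pool.Agent.SUR

open Pool.Agent.WhK FINCx

namespace XUNFx

variable {G : Type u} [Group G]

/-- the class in `Wh G` of the image of a unit of `ℤ[C]` -/
noncomputable def cls {C : Type u} [Group C] (f : C →* G) :
    Additive (MonoidAlgebra ℤ C)ˣ →+ Wh G :=
  { toFun := fun w => Wh.mk (K1.ofUnit (unitsMap f w.toMul))
    map_zero' := by
      show Wh.mk (K1.ofUnit (unitsMap f 1)) = 0
      rw [map_one]
      have h : K1.ofUnit (1 : (MonoidAlgebra ℤ G)ˣ) = 0 :=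
        congrArg Multiplicative.toAdd (map_one (K1.unitHom (MonoidAlgebra ℤ G)))
      rw [h]
      rfl
    map_add' := fun a b => by
      show Wh.mk (K1.ofUnit (unitsMap f (a.toMul * b.toMul))) = _
      rw [map_mul]
      have h : ∀ u v : (MonoidAlgebra ℤ G)ˣ, K1.ofUnit (u * v) = K1.ofUnit u + K1.ofUnit v :=
        fun u v => congrArg Multiplicative.toAdd (map_mul (K1.unitHom (MonoidAlgebra ℤ G)) u v)
      rw [h]
      rfl }

theorem cls_apply {C : Type u} [Group C] (f : C →* G) (w : (MonoidAlgebra ℤ C)ˣ) :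
    cls f (Additive.ofMul w) = Wh.mk (K1.ofUnit (unitsMap f w)) := rfl

/-- a finite cyclic subgroup is conjugate to one of finitely many -/
theorem cls_mem {ι : Type u} (g : ι → G)
    (hg : ∀ c : G, IsOfFinOrder c → ∃ i, IsConj (g i) c)
    (R : AddSubgroup (Wh G))
    (hR : ∀ (i : ι) (w : (MonoidAlgebra ℤ (Subgroup.zpowers (g i)))ˣ),
      cls (Subgroup.zpowers (g i)).subtype (Additive.ofMul w) ∈ R)
    (C : Cyc G) (w : (MonoidAlgebra ℤ C.1)ˣ) : cls C.1.subtype (Additive.ofMul w) ∈ R := by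
  have := C.fin
  obtain ⟨c0, hc0⟩ := C.cyc.exists_generator
  have hfo : IsOfFinOrder (c0 : G) := C.1.subtype.isOfFinOrder (isOfFinOrder_of_finite c0)
  obtain ⟨i, hi⟩ := hg c0 hfo
  obtain ⟨q, hq⟩ := isConj_iff.1 hi
  have hk : ∀ k : ℤ, q⁻¹ * ((c0 ^ k : C.1) : G) * q = g i ^ k := by
    intro k
    rw [Subgroup.coe_zpow, ← hq, conj_zpow]
    group
  have hmem : ∀ c : C.1, q⁻¹ * (c : G) * q ∈ Subgroup.zpowers (g i) := by
    intro c
    obtain ⟨k, hck⟩ := Subgroup.mem_zpowers_iff.1 (hc0 c)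
    rw [← hck, hk]
    exact ⟨k, rfl⟩
  let ψ : C.1 →* Subgroup.zpowers (g i) :=
    MonoidHom.mk' (fun c => ⟨q⁻¹ * (c : G) * q, hmem c⟩) fun a b => Subtype.ext (by
      show q⁻¹ * ((a : G) * (b : G)) * q = (q⁻¹ * (a : G) * q) * (q⁻¹ * (b : G) * q)
      group)
  have e1 : cls C.1.subtype (Additive.ofMul w) =
      cls (Subgroup.zpowers (g i)).subtype (Additive.ofMul (unitsMap ψ w)) := by
    rw [cls_apply, cls_apply, unitsMap_comp,
      unitsMap_twist C.1.subtype ((Subgroup.zpowers (g i)).subtype.comp ψ) q (fun x => by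
        show (x : G) = q * (q⁻¹ * (x : G) * q) * q⁻¹
        group), ofUnit_conj]
  rw [e1]
  exact hR i _

theorem assembly_mem (R : AddSubgroup (Wh G))
    (hR : ∀ (C : Cyc G) (w : (MonoidAlgebra ℤ C.1)ˣ), cls C.1.subtype (Additive.ofMul w) ∈ R)
    (ξ : ColimK1 G) : Wh.mk (liftColim (K1.unitHom (MonoidAlgebra ℤ G)) ξ) ∈ R := by
  obtain ⟨ξ, rfl⟩ := QuotientAddGroup.mk_surjective ξ
  let F : FreeAbelianGroup (Pairs G) →+ Wh G :=
    (QuotientAddGroup.mk' (trivUnits G)).comp
      ((liftColim (K1.unitHom (MonoidAlgebra ℤ G))).comp (QuotientAddGroup.mk' _))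
  have h : ∀ y, F y ∈ R := by
    intro y
    induction y using FreeAbelianGroup.induction_on with
    | zero =>
      rw [map_zero]
      exact R.zero_mem
    | of x =>
      have e : F (FreeAbelianGroup.of x) = cls x.C.1.subtype (Additive.ofMul x.u) :=
        congrArg Wh.mk (liftColim_mk (K1.unitHom (MonoidAlgebra ℤ G)) x.C x.u)
      rw [e]
      exact hR x.C x.u
    | neg x hx =>
      rw [map_neg]
      exact R.neg_mem hx
    | add x y hx hy =>
      rw [map_add]
      exact R.add_mem hx hy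
  exact h ξ

/-- the classes from finite subgroups, up to multiples -/
theorem fin_mem (R : AddSubgroup (Wh G))
    (hR : ∀ (C : Cyc G) (w : (MonoidAlgebra ℤ C.1)ˣ), cls C.1.subtype (Additive.ofMul w) ∈ R)
    (b : Wh G) (hb : b ∈ AddSubgroup.closure {y | ∃ (H : Subgroup G) (_ : Finite H) (z : Wh H),
      y = Wh.map H.subtype z}) : b ∈ sat R := by
  refine (AddSubgroup.closure_le (sat R)).2 ?_ hb
  rintro _ ⟨H, hH, z, rfl⟩
  obtain ⟨z, rfl⟩ := Wh.exists_mk z
  have h1 : K1.map (ringMap H.subtype) z ∈ FinPart G :=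
    AddSubgroup.subset_closure ⟨H, hH, z, rfl⟩
  obtain ⟨N, hN, ξ, hξ⟩ := KCGx.finPart_le h1
  refine ⟨N, hN, ?_⟩
  have h2 : N • Wh.map H.subtype (Wh.mk z) = Wh.mk (N • K1.map (ringMap H.subtype) z) := rfl
  rw [h2, ← hξ]
  exact assembly_mem R hR ξ

end XUNFx

/-- a finite quotient -/
structure FQuot (G : Type u) [Group G] where
  Γ : Type u
  grp : Group Γ
  fin : Finite Γ
  π : G →* Γ

attribute [instance] FQuot.grp FQuot.fin

open XUNFx in
/-- **One element for all finite quotients** -/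
theorem uniform (G : Type u) [Group G] (hG : SurjW G)
    (hc : {K : ConjClasses G | ∃ g : G, IsOfFinOrder g ∧ ConjClasses.mk g = K}.Finite)
    (x : Wh G) : ∃ n : ℕ, 0 < n ∧ ∃ y ∈ AddSubgroup.closure
      {y | ∃ (H : Subgroup G) (_ : Finite H) (z : Wh H), y = Wh.map H.subtype z},
    ∀ (Γ : Type u) [Group Γ] [Finite Γ] (π : G →* Γ),
      ∃ m : ℕ, 0 < m ∧ m • Wh.map π (n • x - y) = 0 := by
  classical
  -- representatives
  let ι := {K : ConjClasses G // ∃ g : G, IsOfFinOrder g ∧ ConjClasses.mk g = K}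
  have hι : Finite ι := hc
  let _ : Fintype ι := Fintype.ofFinite ι
  choose g hgf hgK using fun i : ι => i.2
  have hg : ∀ c : G, IsOfFinOrder c → ∃ i, IsConj (g i) c := fun c hcf =>
    ⟨⟨ConjClasses.mk c, c, hcf, rfl⟩, ConjClasses.mk_eq_mk_iff_isConj.1 (hgK _)⟩
  have hfin : ∀ i, Finite (Subgroup.zpowers (g i)) := fun i => finite_zpowers.2 (hgf i)
  choose Lc hL1 hL2 fc hfc using fun i : ι => by
    have := hfin i
    exact units_param (Subgroup.zpowers (g i)) fun a b => by
      obtain ⟨k, hk⟩ := Subgroup.mem_zpowers_iff.1 a.2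
      obtain ⟨l, hl⟩ := Subgroup.mem_zpowers_iff.1 b.2
      apply Subtype.ext
      show (a : G) * b = b * a
      rw [← hk, ← hl, ← zpow_add, ← zpow_add, add_comm]
  let φ : (∀ i : ι, Lc i) →+ Wh G := ∑ i, ((cls (Subgroup.zpowers (g i)).subtype).comp (fc i)).comp
    (Pi.evalAddMonoidHom _ i)
  have hφ : ∀ l : (∀ i : ι, Lc i),
      φ l = ∑ i, cls (Subgroup.zpowers (g i)).subtype (fc i (l i)) := fun l => by
    show (∑ i, ((cls (Subgroup.zpowers (g i)).subtype).comp (fc i)).comp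
      (Pi.evalAddMonoidHom _ i)) l = _
    rw [AddMonoidHom.finsetSum_apply]
    rfl
  let B : AddSubgroup (Wh G) := AddSubgroup.closure
    {y | ∃ (H : Subgroup G) (_ : Finite H) (z : Wh H), y = Wh.map H.subtype z}
  have hφB : ∀ l, φ l ∈ B := fun l => by
    rw [hφ]
    refine AddSubgroup.sum_mem _ fun i _ => AddSubgroup.subset_closure
      ⟨Subgroup.zpowers (g i), hfin i, Wh.mk (K1.ofUnit (fc i (l i)).toMul), ?_⟩
    rw [Wh.map_unit]
    rfl
  have hR : ∀ (i : ι) (w : (MonoidAlgebra ℤ (Subgroup.zpowers (g i)))ˣ),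
      cls (Subgroup.zpowers (g i)).subtype (Additive.ofMul w) ∈ φ.range := fun i w => by
    obtain ⟨l, hl⟩ := hfc i (Additive.ofMul w)
    refine ⟨Pi.single i l, ?_⟩
    rw [hφ, Finset.sum_eq_single i, Pi.single_eq_same, hl]
    · intro j _ hj
      rw [Pi.single_eq_of_ne hj, map_zero, map_zero]
    · intro h
      exact absurd (Finset.mem_univ i) h
  have hB : ∀ b ∈ B, b ∈ sat φ.range := fun b hb =>
    fin_mem φ.range (cls_mem g hg φ.range hR) b hb
  have : Nonempty (FQuot G) := ⟨⟨PUnit, inferInstance, inferInstance, 1⟩⟩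
  obtain ⟨n, l, hn, h⟩ := exists_uniform φ
    (fun i : FQuot G => (sat (⊥ : AddSubgroup (Wh i.Γ))).comap (Wh.map i.π))
    (fun i m a hm h => by
      rw [AddSubgroup.mem_comap, map_nsmul] at h
      exact mem_sat_of_nsmul hm h)
    (fun i j => by
      refine ⟨⟨i.Γ × j.Γ, inferInstance, inferInstance, i.π.prod j.π⟩, fun a ha => ?_, fun a ha => ?_⟩
      · obtain ⟨m, hm, h1⟩ := ha
        have e : i.π = (MonoidHom.fst i.Γ j.Γ).comp (i.π.prod j.π) := by
          ext
          rfl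
        refine ⟨m, hm, ?_⟩
        rw [AddSubgroup.mem_bot] at h1 ⊢
        have h2 := congrArg (Wh.map (MonoidHom.fst i.Γ j.Γ)) h1
        rw [map_zero, map_nsmul, Wh.map_comp, ← e] at h2
        exact h2
      · obtain ⟨m, hm, h1⟩ := ha
        have e : j.π = (MonoidHom.snd i.Γ j.Γ).comp (i.π.prod j.π) := by
          ext
          rfl
        refine ⟨m, hm, ?_⟩
        rw [AddSubgroup.mem_bot] at h1 ⊢
        have h2 := congrArg (Wh.map (MonoidHom.snd i.Γ j.Γ)) h1
        rw [map_zero, map_nsmul, Wh.map_comp, ← e] at h2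
        exact h2) x
    (fun i => by
      obtain ⟨n, hn, h1⟩ := hG i.Γ i.π x ⟨1, one_pos, by
        rw [one_smul]
        exact t_FINITE.1 i.Γ _⟩
      have h2 : AddSubgroup.closure
          {y | ∃ (H : Subgroup G) (_ : Finite H) (z : Wh H), y = Wh.map (i.π.comp H.subtype) z} ≤
          B.map (Wh.map i.π) := by
        rw [AddSubgroup.closure_le]
        rintro _ ⟨H, hH, z, rfl⟩
        refine ⟨Wh.map H.subtype z, AddSubgroup.subset_closure ⟨H, hH, z, rfl⟩, ?_⟩
        rw [Wh.map_comp]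
      obtain ⟨b, hb, h3⟩ := h2 h1
      obtain ⟨m, hm, l, hl⟩ := hB b hb
      refine ⟨m * n, l, Nat.mul_pos hm hn, ?_⟩
      rw [AddSubgroup.mem_comap, map_sub, hl, map_nsmul, map_nsmul, mul_smul, h3, sub_self]
      exact (sat (⊥ : AddSubgroup (Wh i.Γ))).zero_mem)
  refine ⟨n, hn, φ l, hφB l, fun Γ _ _ π => ?_⟩
  obtain ⟨m, hm, h1⟩ := h ⟨Γ, inferInstance, inferInstance, π⟩
  exact ⟨m, hm, h1⟩

end Pool.Agent.SUR
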