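import Pool.Agent.SUR.FinalX
import Pool.Agent.SUR.XUNF

/-!
# Representations of centralisers
-/

set_option autoImplicit false

universe u

namespace Pool.Agent.SUR

/-- there are a field `F` and a finitely generated subring `A` such that for each `g` of infinite order the
centraliser of `g` has a homomorphism to some `GL_n F` with entries in `d⁻¹ A`, `d ≠ 0`, which maps `g` to an
element of infinite order -/
def CentRep (G : Type u) [Group G] : Prop :=
  ∃ (F : Type u) (_ : Field F) (S : Set F), S.Finite ∧ ∀ g : G, ¬IsOfFinOrder g →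
    ∃ (n : ℕ) (ρ : Subgroup.centralizer {g} →* Matrix (Fin n) (Fin n) F) (d : F), d ≠ 0 ∧
      (∀ z i j, d * ρ z i j ∈ Subring.closure S) ∧
      ¬IsOfFinOrder (ρ ⟨g, Subgroup.mem_centralizer_singleton_iff.2 rfl⟩)

/-- every finitely generated subgroup satisfies `CentRep`, and its `p`-th roots are unique for all large
primes `p` -/
def LocRep (G : Type u) [Group G] : Prop :=
  ∀ G₀ : Subgroup G, G₀.FG → UniqExp G₀ ∧ CentRep G₀

theorem locU_of_locRep (G : Type u) [Group G] (h : LocRep G) : LocU G := by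
  intro G₀ h₀
  have h' : UniqExp G₀ ∧ CentRep G₀ := h G₀ h₀
  obtain ⟨h1, F, hF, S, hS, h2⟩ := h'
  refine ⟨h1, F, hF, S, hS, fun g hg => ?_⟩
  obtain ⟨n, ρ, d, hd, h3, h4⟩ := h2 g hg
  refine ⟨n, ?_, Or.inl ⟨ρ, d, hd, h3, h4⟩⟩
  rcases Nat.eq_zero_or_pos n with rfl | h5
  · refine absurd ?_ h4
    have h6 : ρ ⟨g, Subgroup.mem_centralizer_singleton_iff.2 rfl⟩ = 1 :=
      Matrix.ext fun i => i.elim0
    rw [h6]
    exact IsOfFinOrder.one
  · exact h5

end Pool.Agent.SUR
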