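import Pool.Agent.SUR.St3

/-!
# EIG: the determinant on a generalised eigenspace
-/

set_option autoImplicit false

universe u

namespace Pool.Agent.SUR

open Pool.Agent.WhK

namespace EIG_aux

open Polynomial in
/-- a matrix all of whose eigenvalues are roots of unity has finite order in characteristic `p` -/
theorem fin_order {L : Type u} [Field L] [IsAlgClosed L] (p : ℕ) [Fact p.Prime] [CharP L p] (n : ℕ)
    (M : Matrix (Fin n) (Fin n) L) (h : ∀ t ∈ M.charpoly.roots, ∃ k : ℕ, 0 < k ∧ t ^ k = 1) :
    ∃ k : ℕ, 0 < k ∧ M ^ k = 1 := by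
  classical
  obtain ⟨k, hk, hk1⟩ : ∃ k : ℕ, 0 < k ∧ ∀ t ∈ M.charpoly.roots, t ^ k = 1 := by
    choose! e he using h
    refine ⟨∏ t ∈ M.charpoly.roots.toFinset, e t,
      Finset.prod_pos (fun t ht => (he t (Multiset.mem_toFinset.1 ht)).1), fun t ht => ?_⟩
    obtain ⟨c, hc⟩ := Finset.dvd_prod_of_mem e (Multiset.mem_toFinset.2 ht)
    rw [hc, pow_mul, (he t ht).2, one_pow]
  have hcard : M.charpoly.roots.card = M.charpoly.natDegree :=
    (splits_iff_card_roots.1 (IsAlgClosed.splits M.charpoly))
  have hsplit : (M.charpoly.roots.map (fun a => X - C a)).prod = M.charpoly :=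
    prod_multiset_X_sub_C_of_monic_of_roots_card_eq M.charpoly_monic hcard
  have hdvd : M.charpoly ∣ (X ^ k - 1) ^ n := by
    have h1 : (M.charpoly.roots.map (fun a => X - C a)).prod ∣
        (M.charpoly.roots.map (fun _ => (X ^ k - 1 : L[X]))).prod := by
      apply Multiset.prod_dvd_prod_of_dvd
      intro a ha
      rw [dvd_iff_isRoot]
      simp [hk1 a ha]
    rw [hsplit, Multiset.map_const', Multiset.prod_replicate, hcard,
      Matrix.charpoly_natDegree_eq_dim, Fintype.card_fin] at h1
    exact h1
  have h0 : (M ^ k - 1) ^ n = 0 := by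
    obtain ⟨q, hq⟩ := hdvd
    have h2 := congrArg (aeval M) hq
    rw [map_mul, Matrix.aeval_self_charpoly, zero_mul, map_pow, map_sub, map_pow, aeval_X,
      map_one] at h2
    exact h2
  refine ⟨k * p ^ n, Nat.mul_pos hk (pow_pos (Fact.out (p := p.Prime)).pos n), ?_⟩
  rcases Nat.eq_zero_or_pos n with hn | hn
  · subst hn
    exact Subsingleton.elim _ _
  · have : Nonempty (Fin n) := ⟨⟨0, hn⟩⟩
    have hle : n ≤ p ^ n := (Nat.lt_pow_self (Fact.out (p := p.Prime)).one_lt).le
    have h3 : (M ^ k - 1) ^ (p ^ n) = 0 := pow_eq_zero_of_le hle h0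
    rw [sub_pow_char_pow_of_commute p n (Commute.one_right _), one_pow, ← pow_mul,
      sub_eq_zero] at h3
    exact h3

/-- the determinant of a scalar plus a nilpotent endomorphism -/
theorem det_add_nil {E V : Type u} [Field E] [AddCommGroup V] [Module E V] [FiniteDimensional E V]
    (t : E) (N : Module.End E V) (hN : IsNilpotent N) :
    LinearMap.det (algebraMap E (Module.End E V) t + N) = t ^ Module.finrank E V := by
  have h1 := LinearMap.eval_charpoly (-N) t
  rw [IsNilpotent.charpoly_eq_X_pow_finrank hN.neg, Polynomial.eval_pow, Polynomial.eval_X,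
    sub_neg_eq_add] at h1
  exact h1.symm

section field

variable {F : Type u} [Field F] {L : Type u} [Field L] [Algebra F L] {n : ℕ}

/-- the entries of a matrix and of its inverse, in `L` -/
def ent (L : Type u) [Field L] [Algebra F L] (a : GL (Fin n) F) : Set L :=
  Set.range (fun q : Fin n × Fin n => algebraMap F L ((a : Matrix (Fin n) (Fin n) F) q.1 q.2)) ∪
  Set.range (fun q : Fin n × Fin n =>
    algebraMap F L (((a⁻¹ : GL (Fin n) F) : Matrix (Fin n) (Fin n) F) q.1 q.2))

theorem ent_finite (a : GL (Fin n) F) : (ent L a).Finite :=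
  (Set.finite_range _).union (Set.finite_range _)

/-- the matrices with entries in a subfield -/
def HE (E : Subfield L) : Subgroup (GL (Fin n) F) where
  carrier := {z | (∀ i j, algebraMap F L ((z : Matrix (Fin n) (Fin n) F) i j) ∈ E) ∧
    ∀ i j, algebraMap F L (((z⁻¹ : GL (Fin n) F) : Matrix (Fin n) (Fin n) F) i j) ∈ E}
  one_mem' := by
    have h : ∀ i j, algebraMap F L ((1 : Matrix (Fin n) (Fin n) F) i j) ∈ E := by
      intro i j
      rw [Matrix.one_apply]
      split_ifs
      · rw [map_one]; exact E.one_mem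
      · rw [map_zero]; exact E.zero_mem
    refine ⟨fun i j => h i j, fun i j => ?_⟩
    rw [inv_one]
    exact h i j
  mul_mem' := by
    intro a b ha hb
    refine ⟨fun i j => ?_, fun i j => ?_⟩
    · rw [Units.val_mul, Matrix.mul_apply, map_sum]
      refine E.sum_mem fun k _ => ?_
      rw [map_mul]
      exact E.mul_mem (ha.1 i k) (hb.1 k j)
    · rw [mul_inv_rev, Units.val_mul, Matrix.mul_apply, map_sum]
      refine E.sum_mem fun k _ => ?_
      rw [map_mul]
      exact E.mul_mem (hb.2 i k) (ha.2 k j)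
  inv_mem' := by
    intro a ha
    refine ⟨ha.2, ?_⟩
    rw [inv_inv]
    exact ha.1

/-- the matrices over the subfield -/
noncomputable def jm (E : Subfield L) (G₀ : Subgroup (GL (Fin n) F)) (h : G₀ ≤ HE E) :
    G₀ →* Matrix (Fin n) (Fin n) E where
  toFun z := Matrix.of fun i j => ⟨algebraMap F L ((z.1 : Matrix (Fin n) (Fin n) F) i j),
    (h z.2).1 i j⟩
  map_one' := by
    ext i j
    change algebraMap F L ((1 : Matrix (Fin n) (Fin n) F) i j) =
      (((1 : Matrix (Fin n) (Fin n) E) i j : E) : L)
    rw [Matrix.one_apply, Matrix.one_apply]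
    split_ifs
    · rw [map_one]; rfl
    · rw [map_zero]; rfl
  map_mul' a b := by
    ext i j
    rw [Matrix.mul_apply]
    change algebraMap F L (((a.1 * b.1 : GL (Fin n) F) : Matrix (Fin n) (Fin n) F) i j) = _
    rw [Units.val_mul, Matrix.mul_apply, map_sum]
    change _ = E.subtype _
    rw [map_sum]
    refine Finset.sum_congr rfl fun k _ => ?_
    rw [map_mul, map_mul]
    rfl

theorem jm_map (E : Subfield L) (G₀ : Subgroup (GL (Fin n) F)) (h : G₀ ≤ HE E) (z : G₀) :
    (jm E G₀ h z).map E.subtype = (z.1 : Matrix (Fin n) (Fin n) F).map (algebraMap F L) := by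
  ext i j
  rfl

theorem closure_top (S0 : Set L) :
    Subfield.closure ((fun x : Subfield.closure S0 => (x : L)) ⁻¹' S0) = ⊤ := by
  rw [eq_top_iff]
  rintro x -
  have h1 : Subfield.closure S0 ≤
      (Subfield.closure ((fun x : Subfield.closure S0 => (x : L)) ⁻¹' S0)).map
        (Subfield.closure S0).subtype := by
    rw [Subfield.closure_le]
    intro s hs
    exact ⟨⟨s, Subfield.subset_closure hs⟩, Subfield.subset_closure hs, rfl⟩
  obtain ⟨y, hy, hyx⟩ := h1 x.2
  have : y = x := Subtype.ext hyx
  rw [← this]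
  exact hy

end field

end EIG_aux

open EIG_aux in
/-- EIG -/
theorem t_EIG : s_EIG.{u} := by
  intro F _ p _ _ n G₀ hfg g hg
  classical
  let L : Type u := AlgebraicClosure F
  have hchL : CharP L p := charP_of_injective_algebraMap (algebraMap F L).injective p
  let M : Matrix (Fin n) (Fin n) L := (g.1 : Matrix (Fin n) (Fin n) F).map (algebraMap F L)
  -- an eigenvalue which is not a root of unity
  obtain ⟨t, ht, hroot⟩ : ∃ t ∈ M.charpoly.roots, ∀ k : ℕ, 0 < k → t ^ k ≠ 1 := by
    by_contra hcon
    push Not at hcon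
    obtain ⟨k, hk, hMk⟩ := fin_order p n M hcon
    apply hg
    rw [isOfFinOrder_iff_pow_eq_one]
    refine ⟨k, hk, ?_⟩
    apply Subtype.ext
    apply Units.ext
    have h1 : ((g.1 : Matrix (Fin n) (Fin n) F) ^ k).map (algebraMap F L) = M ^ k := by
      rw [← RingHom.mapMatrix_apply, map_pow]
      rfl
    have hinj : Function.Injective (fun A : Matrix (Fin n) (Fin n) F => A.map (algebraMap F L)) :=
      Matrix.map_injective (algebraMap F L).injective
    apply hinj
    change (((g ^ k : G₀) : GL (Fin n) F) : Matrix (Fin n) (Fin n) F).map (algebraMap F L) =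
      (1 : Matrix (Fin n) (Fin n) F).map (algebraMap F L)
    rw [Subgroup.coe_pow, Units.val_pow_eq_pow_val, h1, hMk, Matrix.map_one _ (map_zero _) (map_one _)]
  obtain ⟨T, hT⟩ := hfg
  let S0 : Set L := {t} ∪ ⋃ a ∈ T, ent L a
  have hS0 : S0.Finite :=
    (Set.finite_singleton t).union (T.finite_toSet.biUnion fun a _ => ent_finite a)
  let E0 : Subfield L := Subfield.closure S0
  have hG : G₀ ≤ HE E0 := by
    rw [← hT, Subgroup.closure_le]
    intro a ha
    have hsub : ent L a ⊆ S0 := fun x hx => Or.inr (Set.mem_biUnion ha hx)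
    exact ⟨fun i j => Subfield.subset_closure (hsub (Or.inl ⟨(i, j), rfl⟩)),
      fun i j => Subfield.subset_closure (hsub (Or.inr ⟨(i, j), rfl⟩))⟩
  have htE : t ∈ E0 := Subfield.subset_closure (Or.inl rfl)
  let tE : E0 := ⟨t, htE⟩
  let rep : G₀ →* Module.End E0 (Fin n → E0) :=
    (Matrix.toLinAlgEquiv' : Matrix (Fin n) (Fin n) E0 ≃ₐ[E0] _).toMulEquiv.toMonoidHom.comp
      (jm E0 G₀ hG)
  have hrep : ∀ z, rep z = Matrix.toLin' (jm E0 G₀ hG z) := fun z => rfl
  -- `tE` is an eigenvalue
  have hroot2 : (jm E0 G₀ hG g).charpoly.IsRoot tE := by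
    have h1 := (Polynomial.mem_roots'.1 ht).2
    have h2 : M.charpoly = ((jm E0 G₀ hG g).charpoly).map E0.subtype := by
      rw [← Matrix.charpoly_map]
      rfl
    rw [h2, Polynomial.IsRoot.def, Polynomial.eval_map] at h1
    have h3 : Polynomial.eval₂ E0.subtype (E0.subtype tE) (jm E0 G₀ hG g).charpoly = 0 := h1
    rw [Polynomial.eval₂_at_apply] at h3
    rw [Polynomial.IsRoot.def]
    exact (map_eq_zero_iff _ E0.subtype.injective).1 h3
  have heig : Module.End.HasEigenvalue (rep g) tE := by
    rw [Module.End.hasEigenvalue_iff_isRoot_charpoly, hrep, Matrix.charpoly_toLin']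
    exact hroot2
  let V : Submodule E0 (Fin n → E0) := (rep g).maxGenEigenspace tE
  have hV : V ≠ ⊥ := by
    intro h0
    refine heig ?_
    rw [eq_bot_iff, ← h0]
    exact Module.End.genEigenspace_le_maximal _ _ _
  have hcomm : ∀ z : Subgroup.centralizer {g}, Commute (rep g) (rep z.1) := by
    intro z
    have h1 : Commute g z.1 := (Subgroup.mem_centralizer_singleton_iff.1 z.2).symm
    exact h1.map rep
  have hmaps : ∀ z : Subgroup.centralizer {g}, ∀ v ∈ V, rep z.1 v ∈ V := fun z v hv =>
    Module.End.mapsTo_maxGenEigenspace_of_comm (hcomm z) tE hv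
  let dV : Subgroup.centralizer {g} →* E0 :=
    { toFun := fun z => LinearMap.det ((rep z.1).restrict (hmaps z))
      map_one' := by
        have h1 : (rep (1 : Subgroup.centralizer {g}).1).restrict (hmaps 1) =
            (LinearMap.id : V →ₗ[E0] V) := by
          ext1 v
          apply Subtype.ext
          change rep 1 (v : Fin n → E0) = v
          rw [map_one]
          rfl
        rw [h1]
        exact LinearMap.det_id
      map_mul' := by
        intro a b
        rw [← LinearMap.det_comp]
        congr 1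
        ext1 v
        apply Subtype.ext
        change rep (a.1 * b.1) (v : Fin n → E0) = rep a.1 (rep b.1 v)
        rw [map_mul]
        rfl }
  have hdet : dV ⟨g, Subgroup.mem_centralizer_singleton_iff.2 rfl⟩ = tE ^ Module.finrank E0 V := by
    have hN := Module.End.isNilpotent_restrict_maxGenEigenspace_sub_algebraMap (rep g) tE
    rw [← det_add_nil tE _ hN]
    change LinearMap.det _ = _
    congr 1
    ext1 v
    apply Subtype.ext
    change rep g (v : Fin n → E0) = tE • (v : Fin n → E0) + (rep g v - tE • (v : Fin n → E0))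
    abel
  have hpos : 0 < Module.finrank E0 V := by
    rw [Module.finrank_pos_iff]
    exact Submodule.nontrivial_iff_ne_bot.2 hV
  have hchE : CharP E0 p := (RingHom.charP_iff E0.subtype E0.subtype.injective p).2 hchL
  refine ⟨E0, inferInstance, hchE, (fun x : E0 => (x : L)) ⁻¹' S0,
    hS0.preimage Subtype.val_injective.injOn, closure_top S0, dV.toHomUnits, ?_⟩
  intro hfin
  obtain ⟨m, hm, h1⟩ := isOfFinOrder_iff_pow_eq_one.1 hfin
  have h2 := congrArg (fun x : E0ˣ => (x : E0)) h1
  simp only [Units.val_pow_eq_pow_val, MonoidHom.coe_toHomUnits, Units.val_one] at h2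
  rw [hdet, ← pow_mul] at h2
  apply hroot (Module.finrank E0 V * m) (Nat.mul_pos hpos hm)
  have h3 := congrArg (fun x : E0 => (x : L)) h2
  simpa using h3

end Pool.Agent.SUR
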