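import Pool.Agent.SUR.St4
import Pool.Agent.SUR.EIG

/-!
# EIGG: the determinant on a generalised eigenspace, arbitrary fields
-/

set_option autoImplicit false

universe u

namespace Pool.Agent.SUR

open Pool.Agent.WhK

namespace EIGG_aux

open Polynomial in
/-- a power of a matrix all of whose eigenvalues are roots of unity is unipotent -/
theorem unipotent {L : Type u} [Field L] [IsAlgClosed L] (n : ℕ)
    (M : Matrix (Fin n) (Fin n) L) (h : ∀ t ∈ M.charpoly.roots, ∃ k : ℕ, 0 < k ∧ t ^ k = 1) :
    ∃ k : ℕ, 0 < k ∧ (M ^ k - 1) ^ n = 0 := by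
  classical
  obtain ⟨k, hk, hk1⟩ : ∃ k : ℕ, 0 < k ∧ ∀ t ∈ M.charpoly.roots, t ^ k = 1 := by
    choose! e he using h
    refine ⟨∏ t ∈ M.charpoly.roots.toFinset, e t,
      Finset.prod_pos (fun t ht => (he t (Multiset.mem_toFinset.1 ht)).1), fun t ht => ?_⟩
    obtain ⟨c, hc⟩ := Finset.dvd_prod_of_mem e (Multiset.mem_toFinset.2 ht)
    rw [hc, pow_mul, (he t ht).2, one_pow]
  have hcard : M.charpoly.roots.card = M.charpoly.natDegree :=
    (splits_iff_card_roots.1 (IsAlgClosed.splits M.charpoly))
  have hsplit : (M.charpoly.roots.map (fun a => X - C a)).prod = M.charpoly :=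
    prod_multiset_X_sub_C_of_monic_of_roots_card_eq M.charpoly_monic hcard
  have hdvd : M.charpoly ∣ (X ^ k - 1) ^ n := by
    have h1 : (M.charpoly.roots.map (fun a => X - C a)).prod ∣
        (M.charpoly.roots.map (fun _ => (X ^ k - 1 : L[X]))).prod := by
      apply Multiset.prod_dvd_prod_of_dvd
      intro a ha
      rw [dvd_iff_isRoot]
      simp [hk1 a ha]
    rw [hsplit, Multiset.map_const', Multiset.prod_replicate, hcard,
      Matrix.charpoly_natDegree_eq_dim, Fintype.card_fin] at h1
    exact h1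
  refine ⟨k, hk, ?_⟩
  obtain ⟨q, hq⟩ := hdvd
  have h2 := congrArg (aeval M) hq
  rw [map_mul, Matrix.aeval_self_charpoly, zero_mul, map_pow, map_sub, map_pow, aeval_X,
    map_one] at h2
  exact h2

end EIGG_aux

open EIG_aux EIGG_aux in
/-- EIGG -/
theorem t_EIGG : s_EIGG.{u} := by
  intro F _ n G₀ hfg hun g hg
  classical
  let L : Type u := AlgebraicClosure F
  let M : Matrix (Fin n) (Fin n) L := (g.1 : Matrix (Fin n) (Fin n) F).map (algebraMap F L)
  -- an eigenvalue which is not a root of unity
  obtain ⟨t, ht, hroot⟩ : ∃ t ∈ M.charpoly.roots, ∀ k : ℕ, 0 < k → t ^ k ≠ 1 := by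
    by_contra hcon
    push Not at hcon
    obtain ⟨k, hk, hMk⟩ := unipotent n M hcon
    apply hg
    have hinj : Function.Injective (fun A : Matrix (Fin n) (Fin n) F => A.map (algebraMap F L)) :=
      Matrix.map_injective (algebraMap F L).injective
    have h1 : ((((g.1 : Matrix (Fin n) (Fin n) F) ^ k) - 1) ^ n) = 0 := by
      apply hinj
      change (algebraMap F L).mapMatrix ((((g.1 : Matrix (Fin n) (Fin n) F) ^ k) - 1) ^ n) =
        (algebraMap F L).mapMatrix 0
      rw [map_pow, map_sub, map_pow, map_one, map_zero]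
      exact hMk
    have h2 : IsOfFinOrder (g.1 ^ k) := by
      refine hun _ (G₀.pow_mem g.2 k) ⟨n, ?_⟩
      rw [Units.val_pow_eq_pow_val]
      exact h1
    have h3 : IsOfFinOrder g.1 := h2.of_pow hk.ne'
    exact Submonoid.isOfFinOrder_coe.1 h3
  obtain ⟨T, hT⟩ := hfg
  let S0 : Set L := {t} ∪ ⋃ a ∈ T, ent L a
  have hS0 : S0.Finite :=
    (Set.finite_singleton t).union (T.finite_toSet.biUnion fun a _ => ent_finite a)
  let E0 : Subfield L := Subfield.closure S0
  have hG : G₀ ≤ HE E0 := by
    rw [← hT, Subgroup.closure_le]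
    intro a ha
    have hsub : ent L a ⊆ S0 := fun x hx => Or.inr (Set.mem_biUnion ha hx)
    exact ⟨fun i j => Subfield.subset_closure (hsub (Or.inl ⟨(i, j), rfl⟩)),
      fun i j => Subfield.subset_closure (hsub (Or.inr ⟨(i, j), rfl⟩))⟩
  have htE : t ∈ E0 := Subfield.subset_closure (Or.inl rfl)
  let tE : E0 := ⟨t, htE⟩
  let rep : G₀ →* Module.End E0 (Fin n → E0) :=
    (Matrix.toLinAlgEquiv' : Matrix (Fin n) (Fin n) E0 ≃ₐ[E0] _).toMulEquiv.toMonoidHom.comp
      (jm E0 G₀ hG)
  have hrep : ∀ z, rep z = Matrix.toLin' (jm E0 G₀ hG z) := fun z => rfl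
  -- `tE` is an eigenvalue
  have hroot2 : (jm E0 G₀ hG g).charpoly.IsRoot tE := by
    have h1 := (Polynomial.mem_roots'.1 ht).2
    have h2 : M.charpoly = ((jm E0 G₀ hG g).charpoly).map E0.subtype := by
      rw [← Matrix.charpoly_map]
      rfl
    rw [h2, Polynomial.IsRoot.def, Polynomial.eval_map] at h1
    have h3 : Polynomial.eval₂ E0.subtype (E0.subtype tE) (jm E0 G₀ hG g).charpoly = 0 := h1
    rw [Polynomial.eval₂_at_apply] at h3
    rw [Polynomial.IsRoot.def]
    exact (map_eq_zero_iff _ E0.subtype.injective).1 h3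
  have heig : Module.End.HasEigenvalue (rep g) tE := by
    rw [Module.End.hasEigenvalue_iff_isRoot_charpoly, hrep, Matrix.charpoly_toLin']
    exact hroot2
  let V : Submodule E0 (Fin n → E0) := (rep g).maxGenEigenspace tE
  have hV : V ≠ ⊥ := by
    intro h0
    refine heig ?_
    rw [eq_bot_iff, ← h0]
    exact Module.End.genEigenspace_le_maximal _ _ _
  have hcomm : ∀ z : Subgroup.centralizer {g}, Commute (rep g) (rep z.1) := by
    intro z
    have h1 : Commute g z.1 := (Subgroup.mem_centralizer_singleton_iff.1 z.2).symm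
    exact h1.map rep
  have hmaps : ∀ z : Subgroup.centralizer {g}, ∀ v ∈ V, rep z.1 v ∈ V := fun z v hv =>
    Module.End.mapsTo_maxGenEigenspace_of_comm (hcomm z) tE hv
  let dV : Subgroup.centralizer {g} →* E0 :=
    { toFun := fun z => LinearMap.det ((rep z.1).restrict (hmaps z))
      map_one' := by
        have h1 : (rep (1 : Subgroup.centralizer {g}).1).restrict (hmaps 1) =
            (LinearMap.id : V →ₗ[E0] V) := by
          ext1 v
          apply Subtype.ext
          change rep 1 (v : Fin n → E0) = v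
          rw [map_one]
          rfl
        rw [h1]
        exact LinearMap.det_id
      map_mul' := by
        intro a b
        rw [← LinearMap.det_comp]
        congr 1
        ext1 v
        apply Subtype.ext
        change rep (a.1 * b.1) (v : Fin n → E0) = rep a.1 (rep b.1 v)
        rw [map_mul]
        rfl }
  have hdet : dV ⟨g, Subgroup.mem_centralizer_singleton_iff.2 rfl⟩ = tE ^ Module.finrank E0 V := by
    have hN := Module.End.isNilpotent_restrict_maxGenEigenspace_sub_algebraMap (rep g) tE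
    rw [← det_add_nil tE _ hN]
    change LinearMap.det _ = _
    congr 1
    ext1 v
    apply Subtype.ext
    change rep g (v : Fin n → E0) = tE • (v : Fin n → E0) + (rep g v - tE • (v : Fin n → E0))
    abel
  have hpos : 0 < Module.finrank E0 V := by
    rw [Module.finrank_pos_iff]
    exact Submodule.nontrivial_iff_ne_bot.2 hV
  refine ⟨E0, inferInstance, (fun x : E0 => (x : L)) ⁻¹' S0,
    hS0.preimage Subtype.val_injective.injOn, closure_top S0, dV.toHomUnits, ?_⟩
  intro hfin
  obtain ⟨m, hm, h1⟩ := isOfFinOrder_iff_pow_eq_one.1 hfin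
  have h2 := congrArg (fun x : E0ˣ => (x : E0)) h1
  simp only [Units.val_pow_eq_pow_val, MonoidHom.coe_toHomUnits, Units.val_one] at h2
  rw [hdet, ← pow_mul] at h2
  apply hroot (Module.finrank E0 V * m) (Nat.mul_pos hpos hm)
  have h3 := congrArg (fun x : E0 => (x : L)) h2
  simpa using h3

end Pool.Agent.SUR
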