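import Pool.Agent.SUR.St4

/-!
# LCO: the leading coefficient of the norm
-/

set_option autoImplicit false

universe u

namespace Pool.Agent.SUR

namespace LCO

open IntermediateField

/-- the leading coefficient of a polynomial -/
noncomputable def lc0 (K : Type u) [Field K] : Polynomial K →*₀ K where
  toFun := Polynomial.leadingCoeff
  map_zero' := Polynomial.leadingCoeff_zero
  map_one' := Polynomial.leadingCoeff_one
  map_mul' := Polynomial.leadingCoeff_mul

/-- the leading coefficient of a rational function -/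
noncomputable def lc (K : Type u) [Field K] : RatFunc K →*₀ K :=
  RatFunc.liftMonoidWithZeroHom (lc0 K) (by
    intro p hp
    rw [Submonoid.mem_comap, mem_nonZeroDivisors_iff_ne_zero]
    exact Polynomial.leadingCoeff_ne_zero.2 (nonZeroDivisors.ne_zero hp))

theorem lc_algebraMap {K : Type u} [Field K] (a : K) : lc K (algebraMap K (RatFunc K) a) = a := by
  rw [RatFunc.algebraMap_eq_C]
  unfold lc
  rw [RatFunc.liftMonoidWithZeroHom_apply, RatFunc.num_C, RatFunc.denom_C]
  show (Polynomial.C a).leadingCoeff / (1 : Polynomial K).leadingCoeff = a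
  rw [Polynomial.leadingCoeff_C, Polynomial.leadingCoeff_one, div_one]

end LCO

open LCO IntermediateField in
theorem t_LCO : s_LCO.{u} := by
  intro K E _ _ _ x hx hfin
  let e := RatFunc.algEquivOfTranscendental x hx
  let N : Eˣ →* K⟮x⟯ˣ := Units.map (Algebra.norm K⟮x⟯ (S := E))
  let s : K⟮x⟯ˣ →* (RatFunc K)ˣ := Units.map (e.symm : K⟮x⟯ →* RatFunc K)
  let l : (RatFunc K)ˣ →* Kˣ := Units.map ((lc K : RatFunc K →*₀ K) : RatFunc K →* K)
  refine ⟨l.comp (s.comp N), Module.finrank K⟮x⟯ E, Module.finrank_pos, fun a => ?_⟩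
  apply Units.ext
  rw [Units.val_pow_eq_pow_val]
  change lc K (e.symm (Algebra.norm K⟮x⟯ (algebraMap K E a))) = _
  rw [IsScalarTower.algebraMap_apply K K⟮x⟯ E, Algebra.norm_algebraMap, map_pow, map_pow,
    AlgEquiv.commutes, lc_algebraMap]

end Pool.Agent.SUR
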