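import Pool.Agent.SUR.St3

/-!
# Subgroups of linear groups in positive characteristic satisfy `LocCentHom` (module LINP)
-/

set_option autoImplicit false

universe u

namespace Pool.Agent.SUR

open Pool.Agent.WhK

/-- the homomorphism between the centralisers of `g` and of `e g` induced by an injective (or any)
homomorphism `e` -/
def centMap {A B : Type*} [Group A] [Group B] (e : A →* B) (g : A) :
    Subgroup.centralizer {g} →* Subgroup.centralizer {e g} where
  toFun z := ⟨e z.1, by
    have hz := Subgroup.mem_centralizer_singleton_iff.1 z.2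
    rw [Subgroup.mem_centralizer_singleton_iff, ← map_mul, hz, map_mul]⟩
  map_one' := by
    apply Subtype.ext
    simp
  map_mul' a b := by
    apply Subtype.ext
    simp

/-- `CentHom` for an element is transported along a homomorphism -/
theorem centHom_of_hom {A B : Type*} [Group A] [Group B] (e : A →* B) (g : A)
    (h : ∃ f : Subgroup.centralizer {e g} →* Multiplicative ℤ,
      (f ⟨e g, Subgroup.mem_centralizer_singleton_iff.2 rfl⟩).toAdd ≠ 0) :
    ∃ f : Subgroup.centralizer {g} →* Multiplicative ℤ,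
      (f ⟨g, Subgroup.mem_centralizer_singleton_iff.2 rfl⟩).toAdd ≠ 0 := by
  obtain ⟨f, hf⟩ := h
  exact ⟨f.comp (centMap e g), hf⟩

/-- finitely generated subgroups of `GL n F` in positive characteristic -/
theorem centHom_gl (hVALF : s_VALF.{u}) (hEIG : s_EIG.{u}) (F : Type u) [Field F] (p : ℕ)
    [Fact p.Prime] [CharP F p] (n : ℕ) (G₀ : Subgroup (GL (Fin n) F)) (hG : G₀.FG) :
    CentHom G₀ := by
  intro g hg
  obtain ⟨E, iF, iC, S, hS, hc, d, hd⟩ := hEIG F p n G₀ hG g hg
  obtain ⟨f, hf⟩ := hVALF E p S hS hc _ hd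
  exact ⟨f.comp d, hf⟩

/-- LINP -/
theorem t_LINP (hVALF : s_VALF.{u}) (hEIG : s_EIG.{u}) : s_LINP.{u} := by
  intro F _ p _ _ n G G₁ hG₁ g hg
  let e : G₁ ≃* G₁.map G.subtype := G₁.equivMapOfInjective G.subtype G.subtype_injective
  have h1 : Group.FG G₁ := (Group.fg_iff_subgroup_fg G₁).2 hG₁
  have h2 : Group.FG (G₁.map G.subtype) :=
    Group.fg_of_surjective (f := e.toMonoidHom) e.surjective
  have hfg : (G₁.map G.subtype).FG := (Group.fg_iff_subgroup_fg _).1 h2
  have key := centHom_gl hVALF hEIG F p n (G₁.map G.subtype) hfg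
  refine centHom_of_hom e.toMonoidHom g (key (e.toMonoidHom g) ?_)
  intro h
  obtain ⟨k, hk, hk1⟩ := isOfFinOrder_iff_pow_eq_one.1 h
  refine hg (isOfFinOrder_iff_pow_eq_one.2 ⟨k, hk, e.injective ?_⟩)
  rw [map_pow, map_one]
  exact hk1

end Pool.Agent.SUR
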