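import Pool.Agent.SUR.St4
import Pool.Agent.SUR.LINP

/-!
# Linear groups over arbitrary fields satisfy `LocCentHom` (module LING)
-/

set_option autoImplicit false

universe u

namespace Pool.Agent.SUR

open Pool.Agent.WhK

/-- unipotent elements have finite order in positive characteristic -/
theorem LING.finOrder (F : Type u) [Field F] (p : ℕ) [Fact p.Prime] [CharP F p] (n : ℕ)
    (g : GL (Fin n) F) (h : IsNilpotent ((g : Matrix (Fin n) (Fin n) F) - 1)) :
    IsOfFinOrder g := by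
  obtain ⟨k, hk⟩ := h
  have hp : p.Prime := Fact.out
  refine isOfFinOrder_iff_pow_eq_one.2 ⟨p ^ k, pow_pos hp.pos k, Units.ext ?_⟩
  rw [Units.val_pow_eq_pow_val, Units.val_one]
  set A : Matrix (Fin n) (Fin n) F := (g : Matrix (Fin n) (Fin n) F) with hA
  have hc : Commute (A - 1) (1 : Matrix (Fin n) (Fin n) F) := Commute.one_right _
  obtain ⟨r, hr⟩ := hc.exists_add_pow_prime_pow_eq hp k
  have h0 : (p : Matrix (Fin n) (Fin n) F) = 0 := by
    have h1 : (p : Matrix (Fin n) (Fin n) F) = algebraMap F (Matrix (Fin n) (Fin n) F) (p : F) :=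
      (map_natCast _ p).symm
    rw [h1, CharP.cast_eq_zero F p, map_zero]
  have h2 : (A - 1) ^ p ^ k = 0 := by
    have h3 : k ≤ p ^ k := (Nat.lt_pow_self hp.one_lt).le
    rw [← Nat.sub_add_cancel h3, pow_add, hk, mul_zero]
  rw [sub_add_cancel, h2, h0, zero_mul, zero_mul, zero_mul, add_zero, zero_add, one_pow] at hr
  exact hr

/-- LING -/
theorem t_LING (hVALG : s_VALG.{u}) (hEIGG : s_EIGG.{u}) : s_LING.{u} := by
  refine ⟨?_, fun F _ p _ _ n g h => LING.finOrder F p n g h⟩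
  intro F _ n G hu G₁ hG₁ g hg
  let e : G₁ ≃* G₁.map G.subtype := G₁.equivMapOfInjective G.subtype G.subtype_injective
  have h1 : Group.FG G₁ := (Group.fg_iff_subgroup_fg G₁).2 hG₁
  have h2 : Group.FG (G₁.map G.subtype) :=
    Group.fg_of_surjective (f := e.toMonoidHom) e.surjective
  have hfg : (G₁.map G.subtype).FG := (Group.fg_iff_subgroup_fg _).1 h2
  have hle : ∀ x ∈ G₁.map G.subtype, x ∈ G := by
    rintro _ ⟨x, -, rfl⟩
    exact x.2
  have key : CentHom (G₁.map G.subtype) := by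
    intro x hx
    obtain ⟨E, iF, S, hS, hc, d, hd⟩ :=
      hEIGG F n (G₁.map G.subtype) hfg (fun y hy hn => hu y (hle y hy) hn) x hx
    obtain ⟨f, hf⟩ := hVALG E S hS hc _ hd
    exact ⟨f.comp d, hf⟩
  refine centHom_of_hom e.toMonoidHom g (key (e.toMonoidHom g) ?_)
  intro h
  obtain ⟨k, hk, hk1⟩ := isOfFinOrder_iff_pow_eq_one.1 h
  refine hg (isOfFinOrder_iff_pow_eq_one.2 ⟨k, hk, e.injective ?_⟩)
  rw [map_pow, map_one]
  exact hk1

end Pool.Agent.SUR
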