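import Pool.Agent.SUR.St4

/-!
# NFH: homomorphisms from the units of a number field to the integers
-/

set_option autoImplicit false

universe u

namespace Pool.Agent.SUR

open Pool.Agent.WhK

namespace NFH_aux

open NumberField nonZeroDivisors FractionalIdeal IsDedekindDomain

noncomputable section

variable (L : Type u) [Field L] [NumberField L]

/-- the order at a prime -/
def cnt (v : HeightOneSpectrum (𝓞 L)) : Additive Lˣ →+ ℤ where
  toFun x := count L v (spanSingleton (𝓞 L)⁰ ((Additive.toMul x : Lˣ) : L))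
  map_zero' := by
    change count L v (spanSingleton (𝓞 L)⁰ (1 : L)) = 0
    rw [spanSingleton_one, count_one]
  map_add' x y := by
    change count L v (spanSingleton (𝓞 L)⁰ (((Additive.toMul x : Lˣ) : L) *
      ((Additive.toMul y : Lˣ) : L))) = _
    rw [← spanSingleton_mul_spanSingleton, count_mul]
    · exact spanSingleton_ne_zero_iff.2 (Units.ne_zero _)
    · exact spanSingleton_ne_zero_iff.2 (Units.ne_zero _)

theorem cnt_finite (x : Additive Lˣ) : (Function.support fun v => cnt L v x).Finite := by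
  have h := finite_factors (K := L) (spanSingleton (𝓞 L)⁰ ((Additive.toMul x : Lˣ) : L))
  rw [Filter.eventually_cofinite] at h
  exact h

/-- the divisor -/
def D : Additive Lˣ →+ (HeightOneSpectrum (𝓞 L) →₀ ℤ) where
  toFun x := Finsupp.ofSupportFinite (fun v => cnt L v x) (cnt_finite L x)
  map_zero' := by
    ext v
    exact map_zero (cnt L v)
  map_add' x y := by
    ext v
    exact map_add (cnt L v) x y

theorem D_apply (x : Additive Lˣ) (v : HeightOneSpectrum (𝓞 L)) : D L x v = cnt L v x := rfl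

/-- the inclusion of the units -/
def io' : Additive (𝓞 L)ˣ →+ Additive Lˣ :=
  (Units.map (algebraMap (𝓞 L) L).toMonoidHom).toAdditive

omit [NumberField L] in
theorem io'_injective : Function.Injective (io' L) := by
  intro a b h
  have h1 := congrArg (fun x : Additive Lˣ => ((Additive.toMul x : Lˣ) : L)) h
  have h2 : algebraMap (𝓞 L) L ((Additive.toMul a : (𝓞 L)ˣ) : 𝓞 L) =
      algebraMap (𝓞 L) L ((Additive.toMul b : (𝓞 L)ˣ) : 𝓞 L) := h1
  exact Units.ext (FaithfulSMul.algebraMap_injective (𝓞 L) L h2)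

theorem mem_range (x : Additive Lˣ) (hx : ∀ v, cnt L v x = 0) : x ∈ (io' L).range := by
  set y : Lˣ := Additive.toMul x with hy
  have h1 : spanSingleton (𝓞 L)⁰ (y : L) = 1 := by
    have h := finprod_heightOneSpectrum_factorization' (R := 𝓞 L) L
      (spanSingleton_ne_zero_iff.2 y.ne_zero : spanSingleton (𝓞 L)⁰ (y : L) ≠ 0)
    rw [← h]
    apply finprod_eq_one_of_forall_eq_one
    intro v
    have h2 : count L v (spanSingleton (𝓞 L)⁰ (y : L)) = 0 := hx v
    rw [h2, zpow_zero]
  have h2 : spanSingleton (𝓞 L)⁰ ((y⁻¹ : Lˣ) : L) = 1 := by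
    rw [Units.val_inv_eq_inv_val, ← spanSingleton_inv, h1, inv_one]
  have h3 : (y : L) ∈ (1 : FractionalIdeal (𝓞 L)⁰ L) := by
    rw [← h1]
    exact mem_spanSingleton_self _ _
  have h4 : ((y⁻¹ : Lˣ) : L) ∈ (1 : FractionalIdeal (𝓞 L)⁰ L) := by
    rw [← h2]
    exact mem_spanSingleton_self _ _
  obtain ⟨a, ha⟩ := (mem_one_iff _).1 h3
  obtain ⟨b, hb⟩ := (mem_one_iff _).1 h4
  have hab : a * b = 1 := by
    apply FaithfulSMul.algebraMap_injective (𝓞 L) L
    rw [map_mul, ha, hb, map_one]
    exact Units.mul_inv y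
  refine ⟨Additive.ofMul (Units.mkOfMulEqOne a b hab), ?_⟩
  change Additive.ofMul (Units.map (algebraMap (𝓞 L) L).toMonoidHom (Units.mkOfMulEqOne a b hab)) = x
  have h5 : Units.map (algebraMap (𝓞 L) L).toMonoidHom (Units.mkOfMulEqOne a b hab) = y := by
    apply Units.ext
    exact ha
  rw [h5]
  rfl

/-- a generator of a power of a prime ideal -/
theorem exists_gen (v : HeightOneSpectrum (𝓞 L)) : ∃ y : Additive Lˣ, ∀ w, 
    cnt L w y = (Nat.card (ClassGroup (𝓞 L)) : ℤ) * (Finsupp.single v (1 : ℤ) w) := by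
  classical
  set h := Nat.card (ClassGroup (𝓞 L)) with hh
  have hne : v.asIdeal ∈ (Ideal (𝓞 L))⁰ := mem_nonZeroDivisors_of_ne_zero v.ne_bot
  have h1 : (ClassGroup.mk0 ⟨v.asIdeal, hne⟩) ^ h = 1 := pow_card_eq_one'
  rw [← map_pow, SubmonoidClass.mk_pow, ClassGroup.mk0_eq_one_iff] at h1
  obtain ⟨a, ha⟩ := h1
  have ha' : v.asIdeal ^ h = Ideal.span {a} := ha
  have ha0 : a ≠ 0 := by
    rintro rfl
    rw [Ideal.span_singleton_eq_bot.2 rfl] at ha'
    exact pow_ne_zero h v.ne_bot ha'
  have ha1 : algebraMap (𝓞 L) L a ≠ 0 := by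
    rw [Ne, map_eq_zero_iff _ (FaithfulSMul.algebraMap_injective (𝓞 L) L)]
    exact ha0
  refine ⟨Additive.ofMul (Units.mk0 _ ha1), fun w => ?_⟩
  change count L w (spanSingleton (𝓞 L)⁰ (algebraMap (𝓞 L) L a)) = _
  rw [← coeIdeal_span_singleton, ← ha', coeIdeal_pow, count_pow, count_maximal,
    Finsupp.single_apply]

/-- chosen generators -/
def pp (v : HeightOneSpectrum (𝓞 L)) : Additive Lˣ := (exists_gen L v).choose

theorem pp_spec (v w : HeightOneSpectrum (𝓞 L)) :
    cnt L w (pp L v) = (Nat.card (ClassGroup (𝓞 L)) : ℤ) * (Finsupp.single v (1 : ℤ) w) :=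
  (exists_gen L v).choose_spec w

/-- the homomorphism given by the chosen generators -/
def S : (HeightOneSpectrum (𝓞 L) →₀ ℤ) →+ Additive Lˣ :=
  Finsupp.liftAddHom fun v => (zmultiplesHom _) (pp L v)

theorem cnt_S (w : HeightOneSpectrum (𝓞 L)) (c : HeightOneSpectrum (𝓞 L) →₀ ℤ) :
    cnt L w (S L c) = (Nat.card (ClassGroup (𝓞 L)) : ℤ) * c w := by
  have h : (cnt L w).comp (S L) =
      (AddMonoidHom.mulLeft (Nat.card (ClassGroup (𝓞 L)) : ℤ)).comp (Finsupp.applyAddHom w) := by
    apply Finsupp.addHom_ext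
    intro v n
    change cnt L w (S L (Finsupp.single v n)) = (Nat.card (ClassGroup (𝓞 L)) : ℤ) *
      (Finsupp.single v n w)
    have h1 : S L (Finsupp.single v n) = n • pp L v := by
      unfold S
      rw [Finsupp.liftAddHom_apply_single]
      rfl
    rw [h1, map_zsmul, pp_spec]
    classical
    rw [Finsupp.single_apply, Finsupp.single_apply]
    split_ifs
    · simp [mul_comm]
    · simp
  exact DFunLike.congr_fun h c

/-- the projection to the units -/
def R : Additive Lˣ →+ Additive Lˣ :=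
  Nat.card (ClassGroup (𝓞 L)) • AddMonoidHom.id _ - (S L).comp (D L)

theorem R_apply (x : Additive Lˣ) :
    R L x = Nat.card (ClassGroup (𝓞 L)) • x - S L (D L x) := rfl

theorem R_mem (x : Additive Lˣ) : R L x ∈ (io' L).range := by
  apply mem_range
  intro w
  rw [R_apply, map_sub, map_nsmul, cnt_S, D_apply]
  simp

/-- the projection to the units -/
def R' : Additive Lˣ →+ Additive (𝓞 L)ˣ :=
  ((AddMonoidHom.ofInjective (io'_injective L)).symm : (io' L).range →+ Additive (𝓞 L)ˣ).comp
    ((R L).codRestrict (io' L).range (R_mem L))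

theorem io_R' (x : Additive Lˣ) : io' L (R' L x) = R L x := by
  have h := (AddMonoidHom.ofInjective (io'_injective L)).apply_symm_apply
    ((R L).codRestrict (io' L).range (R_mem L) x)
  exact congrArg Subtype.val h

theorem R'_unit (x : Additive (𝓞 L)ˣ) (hx : ∀ v, cnt L v (io' L x) = 0) :
    R' L (io' L x) = Nat.card (ClassGroup (𝓞 L)) • x := by
  apply io'_injective L
  rw [io_R', R_apply, map_nsmul]
  have h : D L (io' L x) = 0 := by
    ext v
    exact hx v
  rw [h, map_zero, sub_zero]

/-- Dirichlet -/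
theorem dir (u : (𝓞 L)ˣ) (hu : ¬IsOfFinOrder u) :
    ∃ g : Additive (𝓞 L)ˣ →+ ℤ, g (Additive.ofMul u) ≠ 0 := by
  have hmem : ∀ x : Additive (𝓞 L)ˣ, NumberField.Units.logEmbedding L x ∈
      (NumberField.Units.unitLattice L).toAddSubgroup := by
    intro x
    exact Submodule.mem_map_of_mem (Submodule.mem_top : x ∈ (⊤ : Submodule ℤ (Additive (𝓞 L)ˣ)))
  have h1 : NumberField.Units.logEmbedding L (Additive.ofMul u) ≠ 0 := by
    rw [Ne, NumberField.Units.dirichletUnitTheorem.logEmbedding_eq_zero_iff]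
    intro h
    exact hu ((CommGroup.mem_torsion _).1 h)
  have h2 : (⟨NumberField.Units.logEmbedding L (Additive.ofMul u), hmem _⟩ :
      NumberField.Units.unitLattice L) ≠ 0 := by
    intro h
    exact h1 (congrArg Subtype.val h)
  obtain ⟨i, hi⟩ : ∃ i, (NumberField.Units.basisUnitLattice L).coord i
      ⟨NumberField.Units.logEmbedding L (Additive.ofMul u), hmem _⟩ ≠ 0 := by
    by_contra hcon
    push Not at hcon
    exact h2 ((NumberField.Units.basisUnitLattice L).forall_coord_eq_zero_iff.1 hcon)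
  exact ⟨((NumberField.Units.basisUnitLattice L).coord i).toAddMonoidHom.comp
    ((NumberField.Units.logEmbedding L).codRestrict _ hmem), hi⟩

end

end NFH_aux

open NFH_aux NumberField in
/-- NFH -/
theorem t_NFH : s_NFH.{u} := by
  intro L _ _ t ht
  suffices h : ∃ f : Additive Lˣ →+ ℤ, f (Additive.ofMul t) ≠ 0 by
    obtain ⟨f, hf⟩ := h
    exact ⟨{ toFun := fun x => Multiplicative.ofAdd (f (Additive.ofMul x))
             map_one' := by
               change Multiplicative.ofAdd (f 0) = 1
               rw [map_zero]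
               rfl
             map_mul' := fun x y => by
               change Multiplicative.ofAdd (f (Additive.ofMul x + Additive.ofMul y)) = _
               rw [map_add]
               rfl }, hf⟩
  by_cases hv : ∃ v, cnt L v (Additive.ofMul t) ≠ 0
  · obtain ⟨v, hv⟩ := hv
    exact ⟨cnt L v, hv⟩
  · push Not at hv
    obtain ⟨u, hu⟩ := mem_range L _ hv
    have hu0 : ¬IsOfFinOrder (Additive.toMul u) := by
      intro h
      apply ht
      have h1 : t = Units.map (algebraMap (𝓞 L) L).toMonoidHom (Additive.toMul u) := by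
        exact (congrArg Additive.toMul hu).symm
      rw [h1]
      exact MonoidHom.isOfFinOrder _ h
    obtain ⟨g, hg⟩ := dir L _ hu0
    refine ⟨g.comp (R' L), ?_⟩
    rw [← hu]
    change g (R' L (io' L u)) ≠ 0
    rw [R'_unit L u (by rw [hu]; exact hv), map_nsmul, smul_ne_zero_iff]
    exact ⟨Nat.card_pos.ne', hg⟩

end Pool.Agent.SUR
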