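import Pool.Agent.SUR.St4
import Pool.Agent.SUR.VALF

/-!
# VALG: a homomorphism to `ℤ` from the units of a finitely generated field
-/

set_option autoImplicit false

universe u

namespace Pool.Agent.SUR

namespace VALGaux

open IntermediateField

theorem top_of_closure {F : Type*} {E : Type*} [Field F] [Field E] [Algebra F E] (S : Set E)
    (hS : Subfield.closure S = ⊤) : IntermediateField.adjoin F S = ⊤ := by
  rw [eq_top_iff]
  intro x _
  have h1 : Subfield.closure S ≤ (IntermediateField.adjoin F S).toSubfield :=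
    Subfield.closure_le.2 fun y hy => subset_adjoin _ _ hy
  rw [hS] at h1
  exact h1 (Subfield.mem_top x)

theorem findim_of_top {K E : Type*} [Field K] [Field E] [Algebra K E] (x : E)
    (htop : K⟮x⟯ = ⊤) (hx : IsIntegral K x) : FiniteDimensional K E := by
  have h1 : FiniteDimensional K K⟮x⟯ := IntermediateField.adjoin.finiteDimensional hx
  rw [htop] at h1
  exact LinearEquiv.finiteDimensional (IntermediateField.topEquiv (F := K) (E := E)).toLinearEquiv

theorem findim_over_top {K E : Type*} [Field K] [Field E] [Algebra K E] (M : IntermediateField K E)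
    (htop : M = ⊤) : FiniteDimensional M E := by
  subst htop
  exact Module.finite_of_finrank_pos (by rw [IntermediateField.finrank_top]; exact one_pos)

/-- a homomorphism to `Kˣ` which is a power map on `Kˣ` -/
theorem exists_ret (hLCO : s_LCO.{u}) (K E : Type u) [Field K] [Field E] [Algebra K E] (x : E)
    (htop : K⟮x⟯ = ⊤) : ∃ (r : Eˣ →* Kˣ) (d : ℕ), 0 < d ∧
      ∀ a : Kˣ, r (Units.map (algebraMap K E).toMonoidHom a) = a ^ d := by
  by_cases hx : Transcendental K x
  · exact hLCO K E x hx (findim_over_top _ htop)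
  · have hx' : IsAlgebraic K x := by
      by_contra h
      exact hx h
    have hfin : FiniteDimensional K E := findim_of_top x htop hx'.isIntegral
    refine ⟨Units.map (Algebra.norm K (S := E)), Module.finrank K E, Module.finrank_pos,
      fun a => Units.ext ?_⟩
    exact Algebra.norm_algebraMap (a : K)

theorem extend (hLCO : s_LCO.{u}) (L0 : Type u) [Field L0] (a : L0ˣ)
    (f0 : L0ˣ →* Multiplicative ℤ) (h0 : (f0 a).toAdd ≠ 0) : ∀ (n : ℕ) (E : Type u) [Field E]
    [Algebra L0 E] (s : Fin n → E), IntermediateField.adjoin L0 (Set.range s) = ⊤ →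
    ∃ f : Eˣ →* Multiplicative ℤ, (f (Units.map (algebraMap L0 E).toMonoidHom a)).toAdd ≠ 0 := by
  intro n
  induction n with
  | zero =>
    intro E _ _ s hs
    rw [Set.range_eq_empty, IntermediateField.adjoin_empty] at hs
    have hsurj : Function.Surjective (algebraMap L0 E) := by
      intro x
      have hx : x ∈ (⊥ : IntermediateField L0 E) := by
        rw [hs]
        exact IntermediateField.mem_top
      exact IntermediateField.mem_bot.1 hx
    let e : L0 ≃+* E := RingEquiv.ofBijective (algebraMap L0 E)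
      ⟨(algebraMap L0 E).injective, hsurj⟩
    refine ⟨f0.comp (Units.map (e.symm : E →* L0)), ?_⟩
    have h1 : Units.map (e.symm : E →* L0) (Units.map (algebraMap L0 E).toMonoidHom a) = a :=
      Units.ext (e.symm_apply_apply (a : L0))
    rw [MonoidHom.comp_apply, h1]
    exact h0
  | succ n ih =>
    intro E _ _ s hs
    let K : IntermediateField L0 E :=
      IntermediateField.adjoin L0 (Set.range fun i : Fin n => s i.castSucc)
    let s' : Fin n → K := fun i => ⟨s i.castSucc, subset_adjoin _ _ ⟨i, rfl⟩⟩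
    have hs' : IntermediateField.adjoin L0 (Set.range s') = ⊤ := by
      apply IntermediateField.map_injective K.val
      rw [IntermediateField.adjoin_map, ← Set.range_comp]
      show IntermediateField.adjoin L0 (Set.range fun i : Fin n => s i.castSucc) = _
      rw [← AlgHom.fieldRange_eq_map, IntermediateField.fieldRange_val]
    obtain ⟨fK, hfK⟩ := ih K s' hs'
    have htop : K⟮s (Fin.last n)⟯ = ⊤ := by
      rw [eq_top_iff]
      intro x _
      have h1 : IntermediateField.adjoin L0 (Set.range s) ≤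
          IntermediateField.restrictScalars L0 K⟮s (Fin.last n)⟯ := by
        rw [IntermediateField.adjoin_le_iff]
        rintro _ ⟨i, rfl⟩
        show s i ∈ K⟮s (Fin.last n)⟯
        refine Fin.lastCases ?_ (fun j => ?_) i
        · exact mem_adjoin_simple_self K (s (Fin.last n))
        · exact (K⟮s (Fin.last n)⟯).algebraMap_mem (s' j)
      rw [hs] at h1
      exact h1 IntermediateField.mem_top
    obtain ⟨r, d, hd, hr⟩ := exists_ret hLCO K E (s (Fin.last n)) htop
    refine ⟨fK.comp r, ?_⟩
    have h1 : Units.map (algebraMap L0 E).toMonoidHom a =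
        Units.map (algebraMap K E).toMonoidHom (Units.map (algebraMap L0 K).toMonoidHom a) :=
      Units.ext (IsScalarTower.algebraMap_apply L0 K E (a : L0))
    rw [MonoidHom.comp_apply, h1, hr, map_pow, toAdd_pow, nsmul_eq_mul]
    exact mul_ne_zero (Int.natCast_ne_zero.2 hd.ne') hfK

/-- a homomorphism for the field generated by a transcendental element -/
theorem trans_case (k E : Type*) [Field k] [Field E] [Algebra k E] (t : E)
    (ht : Transcendental k t) : ∃ f0 : k⟮t⟯ˣ →* Multiplicative ℤ,
      ∀ a : k⟮t⟯ˣ, (a : k⟮t⟯) = AdjoinSimple.gen k t → (f0 a).toAdd ≠ 0 := by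
  let e := RatFunc.algEquivOfTranscendental t ht
  refine ⟨(VALF.degHom k).comp (Units.map (e.symm : k⟮t⟯ →* RatFunc k)), fun a ha => ?_⟩
  change RatFunc.intDegree (e.symm (a : k⟮t⟯)) ≠ 0
  rw [ha, RatFunc.algEquivOfTranscendental_symm_gen, RatFunc.intDegree_X]
  exact one_ne_zero

/-- a homomorphism for the field generated by the element, characteristic `0` -/
theorem base (hNFH : s_NFH.{u}) (E : Type u) [Field E] [CharZero E] (t : Eˣ)
    (ht : ¬IsOfFinOrder t) : ∃ (a : ℚ⟮(t : E)⟯ˣ) (f0 : ℚ⟮(t : E)⟯ˣ →* Multiplicative ℤ),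
      Units.map (algebraMap ℚ⟮(t : E)⟯ E).toMonoidHom a = t ∧ (f0 a).toAdd ≠ 0 := by
  have hg : AdjoinSimple.gen ℚ (t : E) ≠ 0 := by
    intro h0
    have := congrArg (algebraMap ℚ⟮(t : E)⟯ E) h0
    rw [AdjoinSimple.algebraMap_gen, map_zero] at this
    exact t.ne_zero this
  have ha : Units.map (algebraMap ℚ⟮(t : E)⟯ E).toMonoidHom (Units.mk0 _ hg) = t :=
    Units.ext (AdjoinSimple.algebraMap_gen ℚ (t : E))
  by_cases htr : Transcendental ℚ (t : E)
  · obtain ⟨f0, hf0⟩ := trans_case ℚ E (t : E) htr
    exact ⟨Units.mk0 _ hg, f0, ha, hf0 _ rfl⟩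
  · have halg : IsAlgebraic ℚ (t : E) := by
      by_contra h
      exact htr h
    have hfin : FiniteDimensional ℚ ℚ⟮(t : E)⟯ :=
      IntermediateField.adjoin.finiteDimensional halg.isIntegral
    have hnf : NumberField ℚ⟮(t : E)⟯ :=
      { to_charZero := inferInstance, to_finiteDimensional := hfin }
    have hfo : ¬IsOfFinOrder (Units.mk0 _ hg : ℚ⟮(t : E)⟯ˣ) := by
      intro h
      have h2 := (Units.map (algebraMap ℚ⟮(t : E)⟯ E).toMonoidHom).isOfFinOrder h
      rw [ha] at h2
      exact ht h2
    obtain ⟨f, hf⟩ := hNFH ℚ⟮(t : E)⟯ (Units.mk0 _ hg) hfo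
    exact ⟨_, f, ha, hf⟩

end VALGaux

open VALGaux IntermediateField in
theorem t_VALG (hVALF : s_VALF.{u}) (hNFH : s_NFH.{u}) (hLCO : s_LCO.{u}) : s_VALG.{u} := by
  intro E _ S hS hSt t ht
  obtain ⟨p, hp⟩ := CharP.exists E
  rcases CharP.char_is_prime_or_zero E p with hpr | rfl
  · have : Fact p.Prime := ⟨hpr⟩
    exact hVALF E p S hS hSt t ht
  · have : CharZero E := CharP.charP_to_charZero E
    obtain ⟨a, f0, ha, hf0⟩ := base hNFH E t ht
    obtain ⟨n, s, -, hs⟩ := hS.fin_param
    obtain ⟨f, hf⟩ := extend hLCO ℚ⟮(t : E)⟯ a f0 hf0 n E s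
      (by rw [hs]; exact top_of_closure S hSt)
    rw [ha] at hf
    exact ⟨f, hf⟩

end Pool.Agent.SUR
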