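import Pool.Agent.SUR.St

/-!
# Groups acting on spaces with walls satisfy the length bound
-/

set_option autoImplicit false

universe u

namespace Pool.Agent.SUR

namespace WAL

open scoped Pointwise

section Transfer

variable {C X : Type u} [Group C] [MulAction C X] (z : C)

/-- the orbits of the powers of `z` -/
def rel : Setoid X where
  r x y := ∃ k : ℤ, z ^ k • x = y
  iseqv :=
    { refl := fun x => ⟨0, by rw [zpow_zero, one_smul]⟩
      symm := by
        rintro x y ⟨k, rfl⟩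
        exact ⟨-k, by rw [smul_smul, ← zpow_add, neg_add_cancel, zpow_zero, one_smul]⟩
      trans := by
        rintro x y w ⟨k, rfl⟩ ⟨l, rfl⟩
        exact ⟨l + k, by rw [zpow_add, mul_smul]⟩ }

theorem transfer (hz : ∀ c : C, c * z = z * c) (hf : ∀ (x : X) (k : ℤ), z ^ k • x = x → k = 0)
    (T : Set X) (hT : T.Finite) (hX : Nonempty X) (hm : ∀ x : X, ∃ j : ℤ, z ^ j • x ∈ T) :
    ∃ f : C →* Multiplicative ℤ, (f z).toAdd ≠ 0 ∧ (f z).toAdd.natAbs ≤ T.ncard := by
  classical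
  let Q := Quotient (rel (X := X) z)
  let mk : X → Q := fun x => Quotient.mk (rel z) x
  have mk_eq : ∀ x y : X, mk x = mk y ↔ ∃ k : ℤ, z ^ k • x = y := fun x y => Quotient.eq
  have hout : ∀ q : Q, mk (Quotient.out q) = q := fun q => Quotient.out_eq q
  -- finiteness
  have hsurj : Function.Surjective fun t : T => mk (t : X) := by
    intro q
    obtain ⟨j, hj⟩ := hm (Quotient.out q)
    refine ⟨⟨_, hj⟩, ?_⟩
    show mk (z ^ j • Quotient.out q) = q
    rw [← (mk_eq (Quotient.out q) (z ^ j • Quotient.out q)).2 ⟨j, rfl⟩]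
    exact hout q
  have hTf : Finite T := hT
  have hQ : Finite Q := Finite.of_surjective _ hsurj
  have hcard : Nat.card Q ≤ T.ncard := by
    have := Nat.card_le_card_of_surjective _ hsurj
    rwa [Nat.card_coe_set_eq] at this
  have : Fintype Q := Fintype.ofFinite Q
  -- commutation
  have hcomm : ∀ (c : C) (k : ℤ) (x : X), c • (z ^ k • x) = z ^ k • (c • x) := by
    intro c k x
    have h1 : Commute c z := hz c
    rw [smul_smul, smul_smul, (h1.zpow_right k).eq]
  have hinj : ∀ (x : X) (a b : ℤ), z ^ a • x = z ^ b • x → a = b := by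
    intro x a b h
    have h1 : z ^ (-b + a) • x = x := by
      rw [zpow_add, mul_smul, h, smul_smul, ← zpow_add, neg_add_cancel, zpow_zero, one_smul]
    have := hf x _ h1
    omega
  -- the height
  have hτ : ∀ x : X, ∃ k : ℤ, z ^ k • (Quotient.out (mk x)) = x := fun x =>
    (mk_eq _ _).1 (hout (mk x))
  choose τ hτ using hτ
  have hτk : ∀ (k : ℤ) (x : X), τ (z ^ k • x) = k + τ x := by
    intro k x
    have h1 : mk (z ^ k • x) = mk x := ((mk_eq _ _).2 ⟨k, rfl⟩).symm
    have h2 := hτ (z ^ k • x)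
    rw [h1] at h2
    apply hinj (Quotient.out (mk x))
    rw [h2, zpow_add, mul_smul, hτ x]
  have hn : ∀ (c : C) (x : X), τ (c • x) - τ x =
      τ (c • (Quotient.out (mk x))) - τ (Quotient.out (mk x)) := by
    intro c x
    have h1 := hτ x
    have h2 : τ (c • x) = τ x + τ (c • (Quotient.out (mk x))) := by
      rw [← hτk, ← hcomm, h1]
    have h3 : τ x = τ x + τ (Quotient.out (mk x)) := by
      rw [← hτk, h1]
    omega
  -- the permutation of the orbits
  have hact : ∀ (c : C) (x y : X), mk x = mk y → mk (c • x) = mk (c • y) := by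
    intro c x y h
    obtain ⟨k, rfl⟩ := (mk_eq _ _).1 h
    rw [hcomm]
    exact (mk_eq _ _).2 ⟨k, rfl⟩
  let π : C → Q → Q := fun c q => mk (c • Quotient.out q)
  have hπ : ∀ (c : C) (x : X), π c (mk x) = mk (c • x) := fun c x => hact c _ _ (hout (mk x))
  have hππ : ∀ (c d : C) (q : Q), π c (π d q) = π (c * d) q := by
    intro c d q
    show π c (mk (d • Quotient.out q)) = mk ((c * d) • Quotient.out q)
    rw [hπ, smul_smul]
  have hπ1 : ∀ q : Q, π 1 q = q := by
    intro q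
    show mk ((1 : C) • Quotient.out q) = q
    rw [one_smul]
    exact hout q
  let e : C → (Q ≃ Q) := fun c =>
    { toFun := π c
      invFun := π c⁻¹
      left_inv := fun q => by rw [hππ, inv_mul_cancel, hπ1]
      right_inv := fun q => by rw [hππ, mul_inv_cancel, hπ1] }
  let N : C → Q → ℤ := fun c q => τ (c • Quotient.out q) - τ (Quotient.out q)
  have hN : ∀ (c d : C) (q : Q), N (c * d) q = N c (e d q) + N d q := by
    intro c d q
    have h1 := hn c (d • Quotient.out q)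
    show τ ((c * d) • Quotient.out q) - τ (Quotient.out q) =
      (τ (c • Quotient.out (mk (d • Quotient.out q))) - τ (Quotient.out (mk (d • Quotient.out q)))) +
        (τ (d • Quotient.out q) - τ (Quotient.out q))
    rw [← h1, smul_smul]
    ring
  let F : C → ℤ := fun c => ∑ q : Q, N c q
  have hF : ∀ c d : C, F (c * d) = F c + F d := by
    intro c d
    show ∑ q : Q, N (c * d) q = ∑ q : Q, N c q + ∑ q : Q, N d q
    rw [Finset.sum_congr rfl fun q _ => hN c d q, Finset.sum_add_distrib]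
    rw [Equiv.sum_comp (e d) (N c)]
  have hFz : F z = Nat.card Q := by
    show ∑ q : Q, (τ (z • Quotient.out q) - τ (Quotient.out q)) = _
    rw [Finset.sum_congr rfl fun q _ => show τ (z • Quotient.out q) - τ (Quotient.out q) = 1 by
      have := hτk 1 (Quotient.out q)
      rw [zpow_one] at this
      rw [this]
      ring]
    rw [Finset.sum_const, Finset.card_univ, Nat.card_eq_fintype_card, nsmul_eq_mul, mul_one]
  have hF1 : F 1 = 0 := by
    have := hF 1 1
    rw [one_mul] at this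
    omega
  let f : C →* Multiplicative ℤ :=
    { toFun := fun c => Multiplicative.ofAdd (F c)
      map_one' := by rw [hF1]; rfl
      map_mul' := fun c d => by rw [hF]; rfl }
  refine ⟨f, ?_, ?_⟩
  · show F z ≠ 0
    rw [hFz]
    have : Nonempty Q := ⟨mk hX.some⟩
    have := Nat.card_pos (α := Q)
    omega
  · show (F z).natAbs ≤ T.ncard
    rw [hFz]
    simpa using hcard

end Transfer

section Walls

variable {G V : Type u} [Group G] [MulAction G V] (ℋ : Set (Set V))

/-- the half-spaces which contain `x` and not `y` -/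
def Sep (x y : V) : Set (Set V) := {h ∈ ℋ | x ∈ h ∧ y ∉ h}

variable {ℋ}

theorem smul_mem (hG : ∀ (g : G), ∀ h ∈ ℋ, (fun x => g • x) '' h ∈ ℋ) (g : G) {h : Set V}
    (hh : h ∈ ℋ) : g • h ∈ ℋ := hG g h hh

theorem sep_smul (hG : ∀ (g : G), ∀ h ∈ ℋ, (fun x => g • x) '' h ∈ ℋ) (g : G) (x y : V) :
    Sep ℋ (g • x) (g • y) = (fun h : Set V => g • h) '' Sep ℋ x y := by
  ext h
  constructor
  · rintro ⟨h1, h2, h3⟩
    refine ⟨g⁻¹ • h, ⟨smul_mem hG g⁻¹ h1, ?_, ?_⟩, smul_inv_smul g h⟩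
    · rw [Set.mem_smul_set_iff_inv_smul_mem, inv_inv]
      exact h2
    · rw [Set.mem_smul_set_iff_inv_smul_mem, inv_inv]
      exact h3
  · rintro ⟨k, ⟨h1, h2, h3⟩, rfl⟩
    refine ⟨smul_mem hG g h1, ?_, ?_⟩
    · exact Set.smul_mem_smul_set h2
    · show g • y ∉ g • k
      rw [Set.smul_mem_smul_set_iff]
      exact h3

theorem ncard_sep_smul (hG : ∀ (g : G), ∀ h ∈ ℋ, (fun x => g • x) '' h ∈ ℋ) (g : G) (x y : V) :
    (Sep ℋ (g • x) (g • y)).ncard = (Sep ℋ x y).ncard := by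
  rw [sep_smul hG]
  exact Set.ncard_image_of_injective _ (MulAction.injective g)

variable (ℋ)

/-- the half-spaces crossed by `g` -/
def Cross (g : G) : Set (Set V) :=
  {h | h ∈ ℋ ∧ ∃ (x : V) (n : ℕ), ∀ i : ℕ, n ≤ i → (g⁻¹) ^ i • x ∈ h ∧ g ^ i • x ∉ h}

variable {ℋ}

theorem cross_smul (hG : ∀ (g : G), ∀ h ∈ ℋ, (fun x => g • x) '' h ∈ ℋ) (g : G)
    (c : Subgroup.centralizer ({g} : Set G)) {h : Set V} (hh : h ∈ Cross ℋ g) :
    (c : G) • h ∈ Cross ℋ g := by
  obtain ⟨h1, x, n, h2⟩ := hh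
  have hc : Commute (c : G) g := (Subgroup.mem_centralizer_singleton_iff.1 c.2)
  refine ⟨smul_mem hG _ h1, (c : G) • x, n, fun i hi => ?_⟩
  obtain ⟨h3, h4⟩ := h2 i hi
  constructor
  · rw [smul_smul, ← (hc.inv_right.pow_right i).eq, mul_smul]
    exact Set.smul_mem_smul_set h3
  · rw [smul_smul, ← (hc.pow_right i).eq, mul_smul, Set.smul_mem_smul_set_iff]
    exact h4

/-- no power of `g` fixes a half-space crossed by `g` -/
theorem cross_free (g : G) {h : Set V} (hh : h ∈ Cross ℋ g) (M : ℕ) (hM : 0 < M)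
    (hf : g ^ M • h = h) : False := by
  obtain ⟨-, x, n, h2⟩ := hh
  have hpow : ∀ t : ℕ, (g ^ M) ^ t • h = h := by
    intro t
    induction t with
    | zero => rw [pow_zero, one_smul]
    | succ t ih => rw [pow_succ, mul_smul, hf, ih]
  obtain ⟨h3, h4⟩ := h2 (M * n) (Nat.le_mul_of_pos_left n hM)
  apply h4
  have h5 := hpow (2 * n)
  rw [← h5]
  have h6 : g ^ (M * n) • x = (g ^ M) ^ (2 * n) • ((g⁻¹) ^ (M * n) • x) := by
    rw [smul_smul]
    congr 1
    rw [← pow_mul, show M * (2 * n) = M * n + M * n by ring, pow_add, inv_pow, mul_assoc,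
      mul_inv_cancel, mul_one]
  rw [h6]
  exact Set.smul_mem_smul_set h3

theorem cross_zfree (g : G) {h : Set V} (hh : h ∈ Cross ℋ g) (k : ℤ) (hf : g ^ k • h = h) :
    k = 0 := by
  by_contra hk
  rcases lt_or_gt_of_ne hk with hk | hk
  · refine cross_free g hh k.natAbs (by omega) ?_
    have h1 : g ^ k.natAbs = (g ^ k)⁻¹ := by
      rw [← zpow_natCast, ← zpow_neg]
      congr 1
      omega
    rw [h1, inv_smul_eq_iff, hf]
  · refine cross_free g hh k.natAbs (by omega) ?_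
    have h1 : g ^ k.natAbs = g ^ k := by
      rw [← zpow_natCast]
      congr 1
      omega
    rw [h1, hf]

theorem cross_inj (g : G) {h : Set V} (hh : h ∈ Cross ℋ g) :
    Function.Injective fun k : ℤ => g ^ k • h := by
  intro a b hab
  have hab' : g ^ a • h = g ^ b • h := hab
  have h1 : g ^ (-b + a) • h = h := by
    rw [zpow_add, mul_smul, hab', smul_smul, ← zpow_add, neg_add_cancel, zpow_zero, one_smul]
  have := cross_zfree g hh _ h1
  omega

/-- every half-space crossed by `g` has a translate which separates `x₀` and `g x₀` -/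
theorem cross_meet (hG : ∀ (g : G), ∀ h ∈ ℋ, (fun x => g • x) '' h ∈ ℋ)
    (hfin : ∀ x y : V, {h ∈ ℋ | x ∈ h ∧ y ∉ h}.Finite) (g : G) (x₀ : V) {h : Set V}
    (hh : h ∈ Cross ℋ g) : ∃ j : ℤ, g ^ j • h ∈ Sep ℋ x₀ (g • x₀) := by
  obtain ⟨hℋ, x, n, h2⟩ := id hh
  have hzℋ : ∀ k : ℤ, g ^ k • h ∈ ℋ := fun k => smul_mem hG _ hℋ
  -- the exceptional exponents
  have hE : {k : ℤ | ¬ (x ∈ g ^ k • h ↔ x₀ ∈ g ^ k • h)}.Finite := by
    have h3 : ((fun k : ℤ => g ^ k • h) ⁻¹' (Sep ℋ x x₀ ∪ Sep ℋ x₀ x)).Finite :=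
      ((hfin x x₀).union (hfin x₀ x)).preimage ((cross_inj g hh).injOn)
    refine h3.subset fun k hk => ?_
    have hk' : ¬ (x ∈ g ^ k • h ↔ x₀ ∈ g ^ k • h) := hk
    by_cases h5 : x ∈ g ^ k • h
    · left
      exact ⟨hzℋ k, h5, fun h6 => hk' ⟨fun _ => h6, fun _ => h5⟩⟩
    · right
      refine ⟨hzℋ k, ?_, h5⟩
      by_contra h6
      exact hk' ⟨fun h7 => absurd h7 h5, fun h7 => absurd h7 h6⟩
  obtain ⟨B, hB⟩ : ∃ B : ℕ, ∀ k : ℤ, B < k.natAbs → (x ∈ g ^ k • h ↔ x₀ ∈ g ^ k • h) := by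
    obtain ⟨B, hB⟩ := (hE.image Int.natAbs).bddAbove
    refine ⟨B, fun k hk => ?_⟩
    by_contra h5
    have := hB ⟨k, h5, rfl⟩
    omega
  have hmem : ∀ (k : ℤ) (y : V), y ∈ g ^ k • h ↔ g ^ (-k) • y ∈ h := by
    intro k y
    rw [Set.mem_smul_set_iff_inv_smul_mem, zpow_neg]
  set i : ℕ := max n (B + 1) with hi
  obtain ⟨h3, h4⟩ := h2 i (le_max_left _ _)
  have hiB : B < i := lt_of_lt_of_le (Nat.lt_succ_self B) (le_max_right _ _)
  have h5 : g ^ (-(i : ℤ)) • x₀ ∈ h := by
    have h6 := hB (i : ℤ) (by simpa using hiB)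
    rw [hmem, hmem] at h6
    apply h6.1
    rw [zpow_neg, zpow_natCast, ← inv_pow]
    exact h3
  have h7 : g ^ (i : ℤ) • x₀ ∉ h := by
    have h6 := hB (-(i : ℤ)) (by simpa using hiB)
    rw [hmem, hmem, neg_neg] at h6
    intro h8
    apply h4
    have := h6.2 h8
    rwa [zpow_natCast] at this
  -- the last index
  have h8 : ∃ m : ℕ, g ^ (-(i : ℤ) + m) • x₀ ∈ h ∧ g ^ (-(i : ℤ) + (m + 1 : ℕ)) • x₀ ∉ h := by
    by_contra hcon
    push Not at hcon
    have h9 : ∀ m : ℕ, g ^ (-(i : ℤ) + m) • x₀ ∈ h := by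
      intro m
      induction m with
      | zero => simpa using h5
      | succ m ih => exact hcon m ih
    apply h7
    have := h9 (2 * i)
    rwa [show (-(i : ℤ) + ((2 * i : ℕ) : ℤ)) = (i : ℤ) by push_cast; ring] at this
  obtain ⟨m, h9, h10⟩ := h8
  refine ⟨-(-(i : ℤ) + m), smul_mem hG _ hℋ, ?_, ?_⟩
  · rw [hmem, neg_neg]
    exact h9
  · rw [hmem, neg_neg, smul_smul]
    have h11 : g ^ (-(i : ℤ) + m) * g = g ^ (-(i : ℤ) + (m + 1 : ℕ)) := by
      rw [← zpow_add_one]
      congr 1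
      push_cast
      ring
    rw [h11]
    exact h10

end Walls

end WAL

open WAL in
open scoped Pointwise in
theorem t_WAL : s_WAL.{u} := by
  intro G V _ _ ℋ hV hG hfin hcross
  obtain ⟨x₀⟩ := hV
  refine ⟨fun g => (Sep ℋ x₀ (g • x₀)).ncard, fun a b => ?_, fun g hg => ?_⟩
  · show (Sep ℋ x₀ ((a * b) • x₀)).ncard ≤ (Sep ℋ x₀ (a • x₀)).ncard + (Sep ℋ x₀ (b • x₀)).ncard
    rw [← ncard_sep_smul hG a x₀ (b • x₀), mul_smul]
    refine (Set.ncard_le_ncard ?_ ((hfin _ _).union (hfin _ _))).trans (Set.ncard_union_le _ _)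
    rintro h ⟨h1, h2, h3⟩
    by_cases h4 : a • x₀ ∈ h
    · exact Or.inr ⟨h1, h4, h3⟩
    · exact Or.inl ⟨h1, h2, h4⟩
  · let C := Subgroup.centralizer ({g} : Set G)
    let X := {h : Set V // h ∈ Cross ℋ g}
    let _ : MulAction C X :=
      { smul := fun c h => ⟨(c : G) • h.1, cross_smul hG g c h.2⟩
        one_smul := fun h => Subtype.ext (one_smul G h.1)
        mul_smul := fun c d h => Subtype.ext (mul_smul (c : G) (d : G) h.1) }
    let z : C := ⟨g, Subgroup.mem_centralizer_singleton_iff.2 rfl⟩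
    have hsmul : ∀ (c : C) (h : X), (c • h).1 = (c : G) • h.1 := fun c h => rfl
    have hzk : ∀ (k : ℤ) (h : X), (z ^ k • h).1 = g ^ k • h.1 := fun k h => by
      rw [hsmul, Subgroup.coe_zpow]
    have hfin' : (Sep ℋ x₀ (g • x₀)).Finite := hfin _ _
    obtain ⟨f, hf1, hf2⟩ := transfer (C := C) (X := X) z
      (fun c => Subtype.ext (Subgroup.mem_centralizer_singleton_iff.1 c.2))
      (fun x k hk => cross_zfree g x.2 k (by rw [← hzk, hk]))
      (Subtype.val ⁻¹' (Sep ℋ x₀ (g • x₀)))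
      (hfin'.preimage Subtype.val_injective.injOn)
      (by
        obtain ⟨h, h1, x, n, h2⟩ := hcross g hg
        exact ⟨⟨h, h1, x, n, h2⟩⟩)
      (fun x => by
        obtain ⟨j, hj⟩ := cross_meet hG hfin g x₀ x.2
        refine ⟨j, ?_⟩
        show (z ^ j • x).1 ∈ Sep ℋ x₀ (g • x₀)
        rw [hzk]
        exact hj)
    refine ⟨f, hf1, hf2.trans ?_⟩
    show ((Subtype.val : X → Set V) ⁻¹' (Sep ℋ x₀ (g • x₀))).ncard ≤ (Sep ℋ x₀ (g • x₀)).ncard
    rw [← Set.ncard_image_of_injective _ (Subtype.val_injective (p := fun h => h ∈ Cross ℋ g))]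
    exact Set.ncard_le_ncard (Set.image_preimage_subset _ _) hfin'

end Pool.Agent.SUR
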