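import Pool.Agent.SUR.St3

/-!
# Groups acting on spaces with walls (SUR, module WALC)
-/

set_option autoImplicit false

universe u

namespace Pool.Agent.SUR

open Pool.Agent.WhK

theorem t_WALC (hWAL : s_WAL.{u}) : s_WALC.{u} := by
  intro G V _ _ ℋ hne hinv hfin hax G₀ hG₀
  obtain ⟨ℓ, hℓ⟩ := hWAL G₀ V ℋ hne (fun g h hh => hinv (g : G) h hh) hfin (fun g hg => by
    have hg' : ¬IsOfFinOrder (g : G) := fun h => hg (Submonoid.isOfFinOrder_coe.1 h)
    obtain ⟨h, hh, x, n, hi⟩ := hax (g : G) hg'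
    exact ⟨h, hh, x, n, hi⟩)
  intro g hg
  obtain ⟨f, hf, -⟩ := hℓ.2 g hg
  exact ⟨f, hf⟩

end Pool.Agent.SUR
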