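import Pool.Agent.SUR.StL

/-!
# LLIN: linear groups, and groups with homomorphisms to `ℤ[1/M]`
-/

set_option autoImplicit false

universe u

namespace Pool.Agent.SUR

open Pool.Agent.WhK Finset

namespace LLINx

/-- the invertible matrices with entries in a subring, together with those of the inverse -/
def HR {F : Type*} [Field F] (n : ℕ) (A : Subring F) : Subgroup (GL (Fin n) F) where
  carrier := {x | ∀ i j, (x : Matrix (Fin n) (Fin n) F) i j ∈ A ∧
    ((x⁻¹ : GL (Fin n) F) : Matrix (Fin n) (Fin n) F) i j ∈ A}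
  one_mem' := by
    intro i j
    have h : (1 : Matrix (Fin n) (Fin n) F) i j ∈ A := by
      rw [Matrix.one_apply]
      split_ifs
      · exact A.one_mem
      · exact A.zero_mem
    refine ⟨by rw [Units.val_one]; exact h, ?_⟩
    rw [inv_one, Units.val_one]
    exact h
  mul_mem' := by
    intro x y hx hy i j
    constructor
    · rw [Units.val_mul, Matrix.mul_apply]
      exact A.sum_mem fun k _ => A.mul_mem (hx i k).1 (hy k j).1
    · rw [mul_inv_rev, Units.val_mul, Matrix.mul_apply]
      exact A.sum_mem fun k _ => A.mul_mem (hy i k).2 (hx k j).2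
  inv_mem' := by
    intro x hx i j
    refine ⟨(hx i j).2, ?_⟩
    rw [inv_inv]
    exact (hx i j).1

/-- the entries of a matrix and of its inverse -/
def ents {F : Type*} [Field F] {n : ℕ} (x : GL (Fin n) F) : Set F :=
  Set.range (fun ij : Fin n × Fin n => (x : Matrix (Fin n) (Fin n) F) ij.1 ij.2) ∪
  Set.range (fun ij : Fin n × Fin n => ((x⁻¹ : GL (Fin n) F) : Matrix (Fin n) (Fin n) F) ij.1 ij.2)

theorem ents_finite {F : Type*} [Field F] {n : ℕ} (x : GL (Fin n) F) : (ents x).Finite :=
  (Set.finite_range _).union (Set.finite_range _)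

/-- the inclusion of a group of matrices with entries in a subring in the matrices over the subring -/
def toM {F : Type*} [Field F] {n : ℕ} (A : Subring F) {G : Type*} [Group G] (φ : G →* GL (Fin n) F)
    (h : ∀ x, φ x ∈ HR n A) : G →* Matrix (Fin n) (Fin n) A where
  toFun x := Matrix.of fun i j => ⟨(φ x : Matrix (Fin n) (Fin n) F) i j, (h x i j).1⟩
  map_one' := by
    ext i j
    show (φ 1 : Matrix (Fin n) (Fin n) F) i j = ((1 : Matrix (Fin n) (Fin n) A) i j : F)
    rw [map_one, Units.val_one, Matrix.one_apply, Matrix.one_apply]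
    split_ifs <;> rfl
  map_mul' x y := by
    ext i j
    show (φ (x * y) : Matrix (Fin n) (Fin n) F) i j = _
    rw [map_mul, Units.val_mul, Matrix.mul_apply, Matrix.mul_apply]
    push_cast
    rfl

theorem toM_injective {F : Type*} [Field F] {n : ℕ} (A : Subring F) {G : Type*} [Group G]
    (φ : G →* GL (Fin n) F) (h : ∀ x, φ x ∈ HR n A) (hφ : Function.Injective φ) :
    Function.Injective (toM A φ h) := by
  intro x y hxy
  refine hφ (Units.ext ?_)
  ext i j
  exact congrArg Subtype.val (congrFun (congrFun hxy i) j)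

/-- upper triangular two by two matrices -/
def uni {A G : Type*} [CommRing A] [Group G] (f : G →* Multiplicative A) :
    G →* Matrix (Fin 2) (Fin 2) A where
  toFun z := !![1, (f z).toAdd; 0, 1]
  map_one' := by
    rw [map_one, toAdd_one, Matrix.one_fin_two]
  map_mul' x y := by
    rw [map_mul, toAdd_mul, Matrix.mul_fin_two]
    simp [add_comm]

/-- `ℤ[1/M]` in the ring generated by `1/M` -/
theorem mem_closure {M : ℕ} (hM : 0 < M) (x : ZM M) :
    (ULift.up (x : ℚ) : ULift.{u} ℚ) ∈ Subring.closure {(ULift.up (1 / (M : ℚ)) : ULift.{u} ℚ)} := by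
  obtain ⟨k, a, ha⟩ := x.2
  have hM0 : (M : ℚ) ≠ 0 := Nat.cast_ne_zero.2 hM.ne'
  have h1 : (ULift.up (x : ℚ) : ULift.{u} ℚ) = (a : ULift.{u} ℚ) *
      (ULift.up (1 / (M : ℚ)) : ULift.{u} ℚ) ^ k := by
    apply ULift.down_injective
    rw [ULift.mul_down, ULift.pow_down, ULift.down_intCast]
    show (x : ℚ) = a * (1 / (M : ℚ)) ^ k
    rw [← ha, one_div, inv_pow]
    field_simp
  rw [h1]
  exact mul_mem (intCast_mem _ a)
    (pow_mem (Subring.subset_closure (Set.mem_singleton _)) k)

/-- the inclusion of `ℤ[1/M]` -/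
def incZ {M : ℕ} (hM : 0 < M) :
    ZM M →+ Subring.closure {(ULift.up (1 / (M : ℚ)) : ULift.{u} ℚ)} where
  toFun x := ⟨ULift.up (x : ℚ), mem_closure hM x⟩
  map_zero' := rfl
  map_add' _ _ := rfl

theorem incZ_injective {M : ℕ} (hM : 0 < M) : Function.Injective (incZ.{u} hM) := by
  intro x y h
  have h1 : (ULift.up (x : ℚ) : ULift.{u} ℚ) = ULift.up (y : ℚ) := congrArg Subtype.val h
  exact Subtype.ext (congrArg ULift.down h1)

end LLINx

open LLINx in
/-- LLIN -/
theorem t_LLIN : s_LLIN.{u} := by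
  constructor
  · intro F _ n G G₁ hG₁
    obtain ⟨T, hT⟩ := hG₁
    let S : Set F := ⋃ a ∈ T, ents (a : GL (Fin n) F)
    have hS : S.Finite := T.finite_toSet.biUnion fun a _ => ents_finite a.1
    let φ : G₁ →* GL (Fin n) F := G.subtype.comp G₁.subtype
    have hφ : Function.Injective φ := fun x y h => Subtype.ext (Subtype.ext h)
    have hle : G₁ ≤ (HR n (Subring.closure S)).comap G.subtype := by
      rw [← hT, Subgroup.closure_le]
      intro a ha i j
      have hsub : ents (a : GL (Fin n) F) ⊆ S := fun x hx => Set.mem_biUnion ha hx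
      exact ⟨Subring.subset_closure (hsub (Or.inl ⟨(i, j), rfl⟩)),
        Subring.subset_closure (hsub (Or.inr ⟨(i, j), rfl⟩))⟩
    have hmem : ∀ x : G₁, φ x ∈ HR n (Subring.closure S) := fun x => hle x.2
    refine ⟨F, inferInstance, S, n, hS, fun g hg => ?_⟩
    refine ⟨(toM (Subring.closure S) φ hmem).comp (Subgroup.centralizer {g}).subtype, fun h => hg ?_⟩
    obtain ⟨k, hk, hk1⟩ := isOfFinOrder_iff_pow_eq_one.1 h
    refine isOfFinOrder_iff_pow_eq_one.2 ⟨k, hk, toM_injective _ φ hmem hφ ?_⟩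
    rw [map_pow, map_one]
    exact hk1
  · intro G _ hG G₁ hG₁
    obtain ⟨M, hM, hc⟩ := hG G₁ hG₁
    refine ⟨ULift.{u} ℚ, inferInstance, {ULift.up (1 / (M : ℚ))}, 2, Set.finite_singleton _,
      fun g hg => ?_⟩
    obtain ⟨f, hf⟩ := hc g hg
    let f' : Subgroup.centralizer {g} →*
        Multiplicative (Subring.closure {(ULift.up (1 / (M : ℚ)) : ULift.{u} ℚ)}) :=
      (AddMonoidHom.toMultiplicative (incZ.{u} hM)).comp f
    have hf' : ∀ z, (f' z).toAdd = incZ.{u} hM (f z).toAdd := fun z => rfl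
    refine ⟨uni f', fun h => hf ?_⟩
    obtain ⟨k, hk, hk1⟩ := isOfFinOrder_iff_pow_eq_one.1 h
    rw [← map_pow] at hk1
    have h1 := congrFun (congrFun hk1 0) 1
    have h2 : (f' (⟨g, Subgroup.mem_centralizer_singleton_iff.2 rfl⟩ ^ k)).toAdd = 0 := by
      simpa [uni] using h1
    rw [hf'] at h2
    have h3 := incZ_injective.{u} hM (h2.trans (map_zero (incZ.{u} hM)).symm)
    rw [map_pow, toAdd_pow] at h3
    exact (smul_eq_zero.1 h3).resolve_left hk.ne'

end Pool.Agent.SUR
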