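import Pool.Agent.SUR.StE
import Pool.Agent.SUR.LLIN

/-!
# LCC: from the vanishing of cohomology to nilpotent Euler classes
-/

set_option autoImplicit false

universe u

namespace Pool.Agent.SUR

open Pool.Agent.WhK Finset

namespace LCCx

open LLINx

theorem charZero_ulift : CharZero (ULift.{u} ℚ) :=
  ⟨fun a b h => by exact_mod_cast congrArg ULift.down h⟩

/-- the inclusion as a ring homomorphism -/
def incR {M : ℕ} (hM : 0 < M) :
    ZM M →+* Subring.closure {(ULift.up (1 / (M : ℚ)) : ULift.{u} ℚ)} :=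
  { incZ.{u} hM with
    map_one' := Subtype.ext rfl
    map_mul' := fun _ _ => Subtype.ext rfl }

theorem cobL_map {Z R R' : Type*} [CommRing R] [CommRing R'] (ι : R →+* R') (φ : List Z → R)
    (l : List Z) : cobL (fun l => ι (φ l)) l = ι (cobL φ l) := by
  unfold cobL
  rw [map_sum]
  refine Finset.sum_congr rfl fun i _ => ?_
  rw [map_mul, map_pow, map_neg, map_one]

theorem cupE_map {Z R R' : Type*} [Group Z] [CommRing R] [CommRing R'] (ι : R →+* R') (s : Z → R) :
    ∀ l : List Z, cupE (fun z => ι (s z)) l = ι (cupE s l)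
  | x :: y :: w :: l => by
    rw [cupE, cupE, map_mul, cupE_map ι s (w :: l)]
    congr 1
    unfold eu
    rw [map_sub, map_add]
  | [] => by
    rw [cupE, cupE, map_one] <;> simp
  | [x] => by
    rw [cupE, cupE, map_one] <;> simp
  | [x, y] => by
    rw [cupE, cupE, map_one] <;> simp

theorem nil_pow {Z R R' : Type*} [Group Z] [CommRing R] [CommRing R'] (ι : R →+* R') {c : Z}
    {r : ℕ} {s : Z → R} {φ : List Z → R} (h : NilEuler c r 1 s φ) (k : ℕ) :
    NilEuler (c ^ k) r (k : R') (fun z => ι (s z)) (fun l => ι (φ l)) := by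
  refine ⟨fun z => ?_, fun w l => ?_, fun l₁ x l₂ => ?_, fun l hl => ?_⟩
  · induction k with
    | zero => simp
    | succ k ih =>
      rw [pow_succ', mul_assoc, h.shift, map_add, map_one, ih]
      push_cast
      ring
  · show ι _ = ι _
    rw [h.inv]
  · show ι _ = ι _
    congr 1
    induction k with
    | zero => simp
    | succ k ih => rw [pow_succ', mul_assoc, h.per, ih]
  · rw [cobL_map, cupE_map, h.cob l hl]

end LCCx

open LLINx LCCx

/-- LCC -/
theorem t_LCC (hCOH : s_LCOH.{u}) : s_LCC.{u} := by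
  rintro G _ ⟨M, r, hM, hr, hG⟩
  refine ⟨ULift.{u} ℚ, inferInstance, {ULift.up (1 / (M : ℚ))}, r, Set.finite_singleton _, hr,
    fun g hg => Or.inr ⟨charZero_ulift, ?_⟩⟩
  obtain ⟨j, k, h, Q, _, p, hj, hk, hhk, hc, hp, hker, hsub⟩ := hG g hg
  have hinf : ¬IsOfFinOrder h := by
    intro hf
    apply hg
    have h1 : IsOfFinOrder ((⟨g, Subgroup.mem_centralizer_singleton_iff.2 rfl⟩ :
        Subgroup.centralizer {g}) ^ j) := by
      rw [← hhk]
      exact hf.pow
    obtain ⟨m, hm, hm1⟩ := isOfFinOrder_iff_pow_eq_one.1 h1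
    refine isOfFinOrder_iff_pow_eq_one.2 ⟨j * m, Nat.mul_pos hj hm, ?_⟩
    rw [← pow_mul] at hm1
    exact congrArg Subtype.val hm1
  obtain ⟨s, φ, hE⟩ := hCOH _ Q h hc hinf p hp hker M r hr hsub
  refine ⟨j, (k : Subring.closure {(ULift.up (1 / (M : ℚ)) : ULift.{u} ℚ)}), fun z => incR.{u} hM (s z),
    fun l => incR.{u} hM (φ l), hj, ?_, ?_⟩
  · intro h0
    have h1 : ((k : ULift.{u} ℚ)) = ((0 : ℕ) : ULift.{u} ℚ) := by
      rw [Nat.cast_zero]
      exact congrArg Subtype.val h0
    exact hk.ne' (charZero_ulift.{u}.cast_injective h1)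
  · rw [← hhk]
    exact nil_pow (incR.{u} hM) hE k

end Pool.Agent.SUR
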