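import Pool.Agent.SUR.StL

/-!
# Lifts of units of the integral monoid ring to words
-/

set_option autoImplicit false

universe u

namespace Pool.Agent.SUR

open Pool.Agent.WhK Finset

namespace LLIFTx

section General

variable {𝔐 𝔔 : Type*} [Monoid 𝔐] [Monoid 𝔔] {θ : 𝔐 →* 𝔔}

/-- a cube remains a cube under a map of the coordinates -/
theorem cub_comp {S S' : Type*} (φ : S → S') {c : (S → Bool) → 𝔐} (h : Cub θ c) :
    Cub θ fun ε : S' → Bool => c fun i => ε (φ i) := by
  induction h with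
  | const a => exact Cub.const a
  | slot s a a' h => exact Cub.slot (φ s) a a' h
  | mul c c' _ _ h h' => exact Cub.mul _ _ h h'

theorem one_mem : (1 : MonoidAlgebra ℤ 𝔐) ∈ IK θ 0 := by
  refine AddSubgroup.subset_closure ⟨fun _ => 1, Cub.const 1, ?_⟩
  simp [altS, sgB, MonoidAlgebra.one_def]

/-- the differences of two elements with the same image -/
theorem diff_mul_mem {b b' : 𝔐} (hb : θ b = θ b') {K : ℕ} {x : MonoidAlgebra ℤ 𝔐}
    (hx : x ∈ IK θ K) :
    (MonoidAlgebra.single b 1 - MonoidAlgebra.single b' 1) * x ∈ IK θ (K + 1) := by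
  induction hx using AddSubgroup.closure_induction with
  | mem x hx =>
    obtain ⟨c, hc, rfl⟩ := hx
    refine AddSubgroup.subset_closure
      ⟨fun ε => (if ε 0 then b' else b) * c fun i => ε i.succ,
        Cub.mul _ _ (Cub.slot 0 b b' hb) (cub_comp Fin.succ hc), ?_⟩
    rw [altS, altS, ← (Fin.consEquiv fun _ => Bool).sum_comp, Fintype.sum_prod_type,
      Fintype.sum_bool, ← Finset.sum_add_distrib, Finset.mul_sum]
    refine Finset.sum_congr rfl fun ε _ => ?_
    have h1 : ∀ t : Bool, sgB (Fin.cons t ε : Fin (K + 1) → Bool) =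
        (if t then -1 else 1) * sgB ε := by
      intro t
      rw [sgB, sgB, Fin.prod_univ_succ]
      simp
    have h2 : ∀ t : Bool, (Fin.consEquiv fun _ : Fin (K + 1) => Bool) (t, ε) = Fin.cons t ε :=
      fun t => rfl
    rw [h2, h2, h1, h1]
    simp only [Fin.cons_zero, Fin.cons_succ, if_true, Bool.false_eq_true, if_false]
    rw [mul_smul_comm, sub_mul, MonoidAlgebra.single_mul_single, MonoidAlgebra.single_mul_single,
      mul_one]
    rw [smul_sub, neg_one_mul, neg_smul, one_mul]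
    abel
  | zero => rw [mul_zero]; exact (IK θ (K + 1)).zero_mem
  | add x y _ _ hx hy => rw [mul_add]; exact (IK θ (K + 1)).add_mem hx hy
  | neg x _ hx => rw [mul_neg]; exact (IK θ (K + 1)).neg_mem hx

/-- the section -/
theorem sub_mul_mem (σ : 𝔔 → 𝔐) (hσ : ∀ q, θ (σ q) = q) (j : MonoidAlgebra ℤ 𝔐) {K : ℕ}
    {x : MonoidAlgebra ℤ 𝔐} (hx : x ∈ IK θ K) :
    (j - MonoidAlgebra.mapDomain σ (MonoidAlgebra.mapDomainRingHom ℤ θ j)) * x ∈
      IK θ (K + 1) := by
  induction j using MonoidAlgebra.induction_linear with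
  | zero => simp
  | add f g hf hg =>
    rw [map_add, MonoidAlgebra.mapDomain_add, add_sub_add_comm, add_mul]
    exact (IK θ (K + 1)).add_mem hf hg
  | single b r =>
    have h1 : MonoidAlgebra.mapDomainRingHom ℤ θ (MonoidAlgebra.single b r) =
        MonoidAlgebra.single (θ b) r := MonoidAlgebra.mapDomain_single
    rw [h1, MonoidAlgebra.mapDomain_single]
    have h2 : (MonoidAlgebra.single b r - MonoidAlgebra.single (σ (θ b)) r :
        MonoidAlgebra ℤ 𝔐) =
        r • (MonoidAlgebra.single b 1 - MonoidAlgebra.single (σ (θ b)) 1) := by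
      rw [smul_sub, MonoidAlgebra.smul_single, MonoidAlgebra.smul_single, smul_eq_mul, mul_one]
    rw [h2, smul_mul_assoc]
    exact (IK θ (K + 1)).zsmul_mem (diff_mul_mem (hσ (θ b)).symm hx) r

theorem ker_mul_mem (σ : 𝔔 → 𝔐) (hσ : ∀ q, θ (σ q) = q) {j : MonoidAlgebra ℤ 𝔐}
    (hj : MonoidAlgebra.mapDomainRingHom ℤ θ j = 0) {K : ℕ} {x : MonoidAlgebra ℤ 𝔐}
    (hx : x ∈ IK θ K) : j * x ∈ IK θ (K + 1) := by
  have h := sub_mul_mem σ hσ j hx
  rwa [hj, MonoidAlgebra.mapDomain_zero, sub_zero] at h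

theorem ker_pow_mem (σ : 𝔔 → 𝔐) (hσ : ∀ q, θ (σ q) = q) {j : MonoidAlgebra ℤ 𝔐}
    (hj : MonoidAlgebra.mapDomainRingHom ℤ θ j = 0) (K : ℕ) : j ^ K ∈ IK θ K := by
  induction K with
  | zero => rw [pow_zero]; exact one_mem
  | succ K ih => rw [pow_succ']; exact ker_mul_mem σ hσ hj ih

theorem map_section (σ : 𝔔 → 𝔐) (hσ : ∀ q, θ (σ q) = q) (w : MonoidAlgebra ℤ 𝔔) :
    MonoidAlgebra.mapDomainRingHom ℤ θ (MonoidAlgebra.mapDomain σ w) = w := by
  induction w using MonoidAlgebra.induction_linear with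
  | zero => simp
  | add f g hf hg => rw [MonoidAlgebra.mapDomain_add, map_add, hf, hg]
  | single b r =>
    rw [MonoidAlgebra.mapDomain_single]
    have h1 : MonoidAlgebra.mapDomainRingHom ℤ θ (MonoidAlgebra.single (σ b) r) =
        MonoidAlgebra.single (θ (σ b)) r := MonoidAlgebra.mapDomain_single
    rw [h1, hσ]

end General

end LLIFTx

open LLIFTx in
theorem t_LLIFT : s_LLIFT.{u} := by
  intro 𝔑 _ w K hK
  have hσ : ∀ q : 𝔑, th 𝔑 (FreeMonoid.of q) = q := fun q => by simp [th]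
  set X : MonoidAlgebra ℤ (FreeMonoid 𝔑) := MonoidAlgebra.mapDomain FreeMonoid.of w.val with hX
  set Y : MonoidAlgebra ℤ (FreeMonoid 𝔑) :=
    MonoidAlgebra.mapDomain FreeMonoid.of (w⁻¹ : (MonoidAlgebra ℤ 𝔑)ˣ).val with hY
  have hX' : MonoidAlgebra.mapDomainRingHom ℤ (th 𝔑) X = w.val := map_section _ hσ _
  have hY' : MonoidAlgebra.mapDomainRingHom ℤ (th 𝔑) Y = (w⁻¹ : (MonoidAlgebra ℤ 𝔑)ˣ).val :=
    map_section _ hσ _
  have hj : MonoidAlgebra.mapDomainRingHom ℤ (th 𝔑) (1 - X * Y) = 0 := by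
    rw [map_sub, map_one, map_mul, hX', hY', Units.mul_inv, sub_self]
  have hj' : MonoidAlgebra.mapDomainRingHom ℤ (th 𝔑) (1 - Y * X) = 0 := by
    rw [map_sub, map_one, map_mul, hX', hY', Units.inv_mul, sub_self]
  have hc : ∀ i : ℕ, (1 - X * Y) ^ i * X = X * (1 - Y * X) ^ i := by
    intro i
    have h : SemiconjBy X (1 - Y * X) (1 - X * Y) := by
      rw [SemiconjBy]
      noncomm_ring
    exact (h.pow_right i).symm
  refine ⟨X, Y * ∑ i ∈ Finset.range K, (1 - X * Y) ^ i, hX', ?_, ?_, ?_⟩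
  · rw [map_mul, hY', map_sum]
    simp only [map_pow, hj]
    rw [Finset.sum_eq_single 0, pow_zero, mul_one]
    · intro i _ hi
      exact zero_pow hi
    · intro h
      exact absurd (Finset.mem_range.2 hK) h
  · have h : X * (Y * ∑ i ∈ Finset.range K, (1 - X * Y) ^ i) - 1 = -(1 - X * Y) ^ K := by
      have h1 := mul_neg_geom_sum (1 - X * Y) K
      rw [sub_sub_cancel] at h1
      rw [← mul_assoc, h1]
      abel
    rw [h]
    exact (IK (th 𝔑) K).neg_mem (ker_pow_mem _ hσ hj K)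
  · have h : Y * (∑ i ∈ Finset.range K, (1 - X * Y) ^ i) * X - 1 = -(1 - Y * X) ^ K := by
      have h1 := mul_neg_geom_sum (1 - Y * X) K
      rw [sub_sub_cancel] at h1
      rw [mul_assoc, Finset.sum_mul, Finset.sum_congr rfl fun i _ => hc i, ← Finset.mul_sum,
        ← mul_assoc, h1]
      abel
    rw [h]
    exact (IK (th 𝔑) K).neg_mem (ker_pow_mem _ hσ hj' K)

end Pool.Agent.SUR
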