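import Pool.Agent.SUR.StL

/-!
# From the centraliser of `g` to the matrix units over `G`
(module LTRA of SUR, MP_e40716_gt)
-/

set_option autoImplicit false

universe u

namespace Pool.Agent.SUR

open Pool.Agent.WhK Finset

namespace LTRA

variable {G : Type u} [Group G] {n : ℕ}

/-- the value of a matrix unit -/
def val : MM G n → G
  | .unit _ _ h => h
  | .one => 1
  | .zero => 1

theorem val_mul (x y : MM G n) (h : x * y ≠ MM.zero) : val (x * y) = val x * val y := by
  cases x with
  | one => rw [MM.one_mul']; simp [val]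
  | zero => exact absurd (MM.zero_mul' y) h
  | unit i j a =>
    cases y with
    | one => rw [MM.mul_one']; simp [val]
    | zero => exact absurd (MM.mul_zero' _) h
    | unit k l b =>
      rw [MM.unit_mul] at h ⊢
      by_cases hjk : j = k
      · rw [if_pos hjk]; rfl
      · rw [if_neg hjk] at h; exact absurd rfl h

/-- the values of the letters of a word -/
def vw : FreeMonoid (MM G n) →* FreeMonoid G := FreeMonoid.map val

theorem th_of {M : Type*} [Monoid M] (x : M) : th M (FreeMonoid.of x) = x := by
  simp [th]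

theorem th_list {M : Type*} [Monoid M] (a : FreeMonoid M) :
    th M a = (FreeMonoid.toList a).prod := by
  simp [th, FreeMonoid.lift_apply]

theorem th_vw (a : FreeMonoid (MM G n)) (h : th (MM G n) a ≠ MM.zero) :
    th G (vw a) = val (th (MM G n) a) := by
  induction a using FreeMonoid.inductionOn' with
  | one =>
    rw [map_one, map_one, map_one]; rfl
  | of_mul x a ih =>
    rw [map_mul, th_of] at h
    have h2 : th (MM G n) a ≠ MM.zero := fun h3 => h (by rw [h3]; exact MM.mul_zero' x)
    rw [map_mul, map_mul, map_mul, th_of, val_mul _ _ h, ih h2]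
    congr 1

theorem th_const {𝔐 𝔔 : Type*} [Monoid 𝔐] [Monoid 𝔔] {θ : 𝔐 →* 𝔔} {S : Type*}
    {c : (S → Bool) → 𝔐} (hc : Cub θ c) (ε ε' : S → Bool) : θ (c ε) = θ (c ε') := by
  induction hc with
  | const a => rfl
  | slot s a a' h =>
    by_cases h1 : ε s = true <;> by_cases h2 : ε' s = true <;> simp [h1, h2, h]
  | mul c c' _ _ ih ih' => rw [map_mul, map_mul, ih, ih']

theorem exists_z (g : G) : ∃ (s : G → G) (z : G → G → Subgroup.centralizer {g}),
    (∀ y, IsConj g y → s y * g * (s y)⁻¹ = y) ∧
    ∀ y h, IsConj g y → (z y h : G) = (s y)⁻¹ * h * s (h⁻¹ * y * h) := by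
  classical
  have hs : ∀ y : G, ∃ s : G, IsConj g y → s * g * s⁻¹ = y := by
    intro y
    by_cases h : IsConj g y
    · obtain ⟨c, hc⟩ := isConj_iff.1 h
      exact ⟨c, fun _ => hc⟩
    · exact ⟨1, fun h' => absurd h' h⟩
  choose s hs using hs
  have hconj : ∀ y b : G, IsConj g y → IsConj g (b⁻¹ * y * b) := fun y b h =>
    h.trans (isConj_iff.2 ⟨b⁻¹, by group⟩)
  have hmem : ∀ y b : G, IsConj g y →
      (s y)⁻¹ * b * s (b⁻¹ * y * b) ∈ Subgroup.centralizer {g} := by
    intro y b h
    rw [Subgroup.mem_centralizer_singleton_iff]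
    have e1 := hs y h
    have e2 := hs (b⁻¹ * y * b) (hconj y b h)
    have e3 : s (b⁻¹ * y * b) * g = (b⁻¹ * y * b) * s (b⁻¹ * y * b) := by
      rw [← mul_inv_eq_iff_eq_mul, e2]
    have e4 : g * (s y)⁻¹ = (s y)⁻¹ * y := by
      rw [eq_inv_mul_iff_mul_eq, ← mul_assoc, e1]
    symm
    calc g * ((s y)⁻¹ * b * s (b⁻¹ * y * b))
        = (g * (s y)⁻¹) * b * s (b⁻¹ * y * b) := by group
      _ = (s y)⁻¹ * y * b * s (b⁻¹ * y * b) := by rw [e4]
      _ = (s y)⁻¹ * b * ((b⁻¹ * y * b) * s (b⁻¹ * y * b)) := by group
      _ = (s y)⁻¹ * b * (s (b⁻¹ * y * b) * g) := by rw [e3]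
      _ = (s y)⁻¹ * b * s (b⁻¹ * y * b) * g := by group
  refine ⟨s, fun y b => if h : IsConj g y then ⟨(s y)⁻¹ * b * s (b⁻¹ * y * b), hmem y b h⟩ else 1,
    hs, ?_⟩
  intro y h hy
  simp only [dif_pos hy]

/-- transport of a word to the centraliser, on lists -/
def TL {Z : Type*} (z : G → G → Z) : G → List G → List Z
  | _, [] => []
  | y, h :: l => z y h :: TL z (h⁻¹ * y * h) l

theorem TL_append {Z : Type*} (z : G → G → Z) (y : G) (l l' : List G) :
    TL z y (l ++ l') = TL z y l ++ TL z (l.prod⁻¹ * y * l.prod) l' := by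
  induction l generalizing y with
  | nil => simp [TL]
  | cons h l ih =>
    rw [List.cons_append, TL, ih, TL, List.cons_append, List.prod_cons]
    congr 3
    group

/-- transport of a word to the centraliser -/
def TF {Z : Type*} (z : G → G → Z) (y : G) (u : FreeMonoid G) : FreeMonoid Z :=
  FreeMonoid.ofList (TL z y (FreeMonoid.toList u))

theorem TF_mul {Z : Type*} (z : G → G → Z) (y : G) (u u' : FreeMonoid G) :
    TF z y (u * u') = TF z y u * TF z ((th G u)⁻¹ * y * th G u) u' := by
  rw [TF, TF, TF, FreeMonoid.toList_mul, TL_append, FreeMonoid.ofList_append, th_list]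

theorem TF_one {Z : Type*} (z : G → G → Z) (y : G) : TF z y 1 = 1 := rfl

theorem TF_th {g : G} {s : G → G} {z : G → G → Subgroup.centralizer {g}}
    (hz : ∀ y h, IsConj g y → (z y h : G) = (s y)⁻¹ * h * s (h⁻¹ * y * h)) (y : G)
    (hy : IsConj g y) (u : FreeMonoid G) :
    (th (Subgroup.centralizer {g}) (TF z y u) : G) =
      (s y)⁻¹ * th G u * s ((th G u)⁻¹ * y * th G u) := by
  rw [th_list, th_list, TF, FreeMonoid.toList_ofList]
  generalize FreeMonoid.toList u = l
  induction l generalizing y with
  | nil => simp [TL]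
  | cons h l ih =>
    have hy2 : IsConj g (h⁻¹ * y * h) := hy.trans (isConj_iff.2 ⟨h⁻¹, by group⟩)
    rw [TL, List.prod_cons, Subgroup.coe_mul, ih _ hy2, hz _ _ hy, List.prod_cons]
    have e : (h * l.prod)⁻¹ * y * (h * l.prod) = l.prod⁻¹ * (h⁻¹ * y * h) * l.prod := by group
    rw [e]
    group

theorem cub_TF {g : G} {s : G → G} {z : G → G → Subgroup.centralizer {g}}
    (hz : ∀ y h, IsConj g y → (z y h : G) = (s y)⁻¹ * h * s (h⁻¹ * y * h)) {S : Type*}
    {c : (S → Bool) → FreeMonoid (MM G n)} (hc : Cub (th (MM G n)) c)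
    (h0 : ∀ ε, th (MM G n) (c ε) ≠ MM.zero) (y : G) (hy : IsConj g y) :
    Cub (th (Subgroup.centralizer {g})) fun ε => TF z y (vw (c ε)) := by
  induction hc generalizing y with
  | const a => exact Cub.const _
  | slot t a a' h =>
    have e : (fun ε : S → Bool => TF z y (vw (if ε t then a' else a))) =
        fun ε => if ε t then TF z y (vw a') else TF z y (vw a) := by
      funext ε
      split_ifs <;> rfl
    rw [e]
    refine Cub.slot t _ _ ?_
    have ha : th (MM G n) a ≠ MM.zero := by
      have := h0 fun _ => false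
      simpa using this
    have ha' : th (MM G n) a' ≠ MM.zero := h ▸ ha
    have e2 : th G (vw a) = th G (vw a') := by rw [th_vw a ha, th_vw a' ha', h]
    apply Subtype.ext
    rw [TF_th hz y hy, TF_th hz y hy, e2]
  | mul c c' hc hc' ih ih' =>
    have h1 : ∀ ε, th (MM G n) (c ε) ≠ MM.zero := by
      intro ε h
      apply h0 ε
      rw [map_mul, h]
      exact MM.zero_mul' _
    have h2 : ∀ ε, th (MM G n) (c' ε) ≠ MM.zero := by
      intro ε h
      apply h0 ε
      rw [map_mul, h]
      exact MM.mul_zero' _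
    have e1 : ∀ ε, th G (vw (c ε)) = th G (vw (c fun _ => false)) := by
      intro ε
      rw [th_vw _ (h1 _), th_vw _ (h1 _), th_const hc ε fun _ => false]
    have e : (fun ε : S → Bool => TF z y (vw (c ε * c' ε))) =
        fun ε => TF z y (vw (c ε)) * TF z ((th G (vw (c fun _ => false)))⁻¹ * y *
          th G (vw (c fun _ => false))) (vw (c' ε)) := by
      funext ε
      rw [map_mul, TF_mul, e1]
    rw [e]
    refine Cub.mul _ _ (ih h1 y hy) (ih' h2 _ ?_)
    exact hy.trans (isConj_iff.2 ⟨(th G (vw (c fun _ => false)))⁻¹, by group⟩)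

/-- a word with a class -/
theorem of_cl {a : FreeMonoid (MM G n)} {g : G} (h : clF G n a = some (ConjClasses.mk g)) :
    th (MM G n) a ≠ MM.zero ∧ IsConj g (th G (vw a)) := by
  have h0 : th (MM G n) a ≠ MM.zero := by
    intro h0
    rw [clF, h0] at h
    simp [MM.cl] at h
  refine ⟨h0, ?_⟩
  rw [th_vw a h0]
  rw [clF] at h
  cases hx : th (MM G n) a with
  | one => rw [hx] at h; simp [MM.cl] at h
  | zero => exact absurd hx h0
  | unit i j x =>
    rw [hx] at h
    simp only [MM.cl] at h
    by_cases hij : i = j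
    · rw [if_pos hij] at h
      exact (ConjClasses.mk_eq_mk_iff_isConj.1 (Option.some_injective _ h)).symm
    · rw [if_neg hij] at h
      exact absurd h (by simp)

end LTRA

open LTRA in
theorem t_LTRA : s_LTRA.{u} := by
  classical
  intro G A _ _ n r g v W hW hd
  obtain ⟨s, z, hs, hz⟩ := exists_z g
  obtain ⟨w1, w2, w3⟩ := hW
  have hcomm : ∀ a b : FreeMonoid (MM G n), clF G n (a * b) = clF G n (b * a) := by
    intro a b
    rw [clF, clF, map_mul, map_mul]
    exact MM.cl_comm _ _
  refine ⟨fun a b => if clF G n (a * b) = some (ConjClasses.mk g) then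
    W (TF z (th G (vw (a * b))) (vw a)) (TF z (th G (vw (b * a))) (vw b)) else 0, ⟨?_, ?_, ?_⟩, ?_⟩
  · intro a b c
    have c1 : clF G n (a * b * c) = clF G n (a * (b * c)) := by rw [mul_assoc]
    have c2 : clF G n (c * a * b) = clF G n (a * (b * c)) := by
      rw [mul_assoc, hcomm, mul_assoc]
    beta_reduce
    by_cases h : clF G n (a * (b * c)) = some (ConjClasses.mk g)
    · rw [if_pos h, if_pos (c1.trans h), if_pos (c2.trans h)]
      simp only [map_mul, TF_mul]
      have e1 : (th G (vw b))⁻¹ * (th G (vw b) * th G (vw c) * th G (vw a)) * th G (vw b) =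
          th G (vw c) * (th G (vw a) * th G (vw b)) := by group
      have e2 : (th G (vw a))⁻¹ * (th G (vw a) * th G (vw b) * th G (vw c)) * th G (vw a) =
          th G (vw b) * (th G (vw c) * th G (vw a)) := by group
      have e3 : (th G (vw c))⁻¹ * (th G (vw c) * th G (vw a) * th G (vw b)) * th G (vw c) =
          th G (vw a) * (th G (vw b) * th G (vw c)) := by group
      rw [e1, w1, e2, e3]
      simp only [mul_assoc]
    · rw [if_neg h, if_neg (fun h' => h (c1.symm.trans h')), if_neg (fun h' => h (c2.symm.trans h')),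
        add_zero]
  · intro a b hab
    by_contra h
    exact hab (if_neg h)
  · intro a ha
    have h1 : clF G n (1 * a) = some (ConjClasses.mk g) := by rw [one_mul]; exact ha
    show (if clF G n (1 * a) = some (ConjClasses.mk g) then _ else _) = v
    rw [if_pos h1, map_one vw, TF_one, mul_one]
    apply w3
    obtain ⟨-, hc⟩ := of_cl ha
    apply Subtype.ext
    rw [TF_th hz _ hc]
    have e1 := hs _ hc
    have e2 : (th G (vw a))⁻¹ * th G (vw a) * th G (vw a) = th G (vw a) := by group
    rw [e2]
    show (s (th G (vw a)))⁻¹ * th G (vw a) * s (th G (vw a)) = g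
    nth_rewrite 2 [← e1]
    group
  · intro c c' hc hc'
    by_cases h : clF G n ((c fun _ => false) * (c' fun _ => false)) = some (ConjClasses.mk g)
    · have hall : ∀ ε, clF G n (c ε * c' ε) = some (ConjClasses.mk g) := by
        intro ε
        rw [← h, clF, clF, map_mul, map_mul, th_const hc ε fun _ => false,
          th_const hc' ε fun _ => false]
      have hall' : ∀ ε, clF G n (c' ε * c ε) = some (ConjClasses.mk g) := fun ε => by
        rw [hcomm]; exact hall ε
      have h1 : ∀ ε, th (MM G n) (c ε) ≠ MM.zero := by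
        intro ε h2
        apply (of_cl (hall ε)).1
        rw [map_mul, h2]
        exact MM.zero_mul' _
      have h2 : ∀ ε, th (MM G n) (c' ε) ≠ MM.zero := by
        intro ε h2
        apply (of_cl (hall ε)).1
        rw [map_mul, h2]
        exact MM.mul_zero' _
      have e1 : ∀ ε, th G (vw (c ε * c' ε)) =
          th G (vw ((c fun _ => false) * (c' fun _ => false))) := by
        intro ε
        rw [th_vw _ (of_cl (hall _)).1, th_vw _ (of_cl (hall _)).1, map_mul, map_mul,
          th_const hc ε fun _ => false, th_const hc' ε fun _ => false]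
      have e2 : ∀ ε, th G (vw (c' ε * c ε)) =
          th G (vw ((c' fun _ => false) * (c fun _ => false))) := by
        intro ε
        rw [th_vw _ (of_cl (hall' _)).1, th_vw _ (of_cl (hall' _)).1, map_mul, map_mul,
          th_const hc ε fun _ => false, th_const hc' ε fun _ => false]
      have := hd _ _ (cub_TF hz hc h1 _ (of_cl (hall fun _ => false)).2)
        (cub_TF hz hc' h2 _ (of_cl (hall' fun _ => false)).2)
      rw [← this]
      unfold altS
      refine Finset.sum_congr rfl fun ε _ => ?_
      simp only [if_pos (hall ε), e1, e2]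
    · have hall : ∀ ε, clF G n (c ε * c' ε) ≠ some (ConjClasses.mk g) := by
        intro ε h3
        apply h
        rw [← h3, clF, clF, map_mul, map_mul, th_const hc ε fun _ => false,
          th_const hc' ε fun _ => false]
      unfold altS
      refine Finset.sum_eq_zero fun ε _ => ?_
      simp only [if_neg (hall ε), smul_zero]

end Pool.Agent.SUR
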