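import Pool.Agent.SUR.StL

/-! LIN_ALG: the data of a unipotent matrix (project LIN, `MP_e40716_gt`). -/

set_option autoImplicit false

universe u v

namespace Pool.Agent.SUR

open Matrix

private lemma lalg_proj {A : Type v} [CommRing A] [IsDomain A] (n : ℕ)
    (N : Matrix (Fin n) (Fin n) A) :
    ∃ (d : A) (p : Matrix (Fin n) (Fin n) A), d ≠ 0 ∧ N * p = 0 ∧
      ∀ x : Fin n → A, N *ᵥ x = 0 → p *ᵥ x = d • x := by
  classical
  let K := FractionRing A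
  let φ : A →+* K := algebraMap A K
  have hφ : Function.Injective φ := IsFractionRing.injective A K
  let NK : Matrix (Fin n) (Fin n) K := N.map φ
  obtain ⟨f, hf1, hf2⟩ : ∃ f : (Fin n → K) →ₗ[K] (Fin n → K),
      (∀ x, NK *ᵥ (f x) = 0) ∧ ∀ x, NK *ᵥ x = 0 → f x = x := by
    obtain ⟨g, hg⟩ := (LinearMap.ker (Matrix.toLin' NK)).subtype.exists_leftInverse_of_injective
      (by simp)
    refine ⟨(LinearMap.ker (Matrix.toLin' NK)).subtype ∘ₗ g, ?_, ?_⟩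
    · intro x
      have := (g x).2
      rw [LinearMap.mem_ker, Matrix.toLin'_apply] at this
      exact this
    · intro x hx
      have hx' : x ∈ LinearMap.ker (Matrix.toLin' NK) := by
        rw [LinearMap.mem_ker, Matrix.toLin'_apply]; exact hx
      have := congrArg (fun h => h ⟨x, hx'⟩) hg
      simp only [LinearMap.comp_apply, Submodule.subtype_apply, LinearMap.id_apply] at this
      show ((g x : LinearMap.ker (Matrix.toLin' NK)) : Fin n → K) = x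
      rw [this]
  let P : Matrix (Fin n) (Fin n) K := LinearMap.toMatrix' f
  have hP : ∀ x, P *ᵥ x = f x := fun x => by
    show (LinearMap.toMatrix' f) *ᵥ x = f x
    rw [LinearMap.toMatrix'_mulVec]
  obtain ⟨b, hb⟩ := IsLocalization.exist_integer_multiples_of_finite (nonZeroDivisors A)
    (fun q : Fin n × Fin n => P q.1 q.2)
  choose p hp using hb
  set pm : Matrix (Fin n) (Fin n) A := Matrix.of fun i j => p (i, j) with hpm
  have h2 : pm.map φ = φ b • P := by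
    ext i j
    have := hp (i, j)
    simp only [hpm, Matrix.map_apply, Matrix.of_apply, Matrix.smul_apply, smul_eq_mul]
    rw [Algebra.smul_def] at this
    exact this
  refine ⟨b, pm, nonZeroDivisors.coe_ne_zero b, ?_, ?_⟩
  · have h1 : (N * pm).map φ = 0 := by
      rw [Matrix.map_mul]
      rw [h2, Matrix.mul_smul]
      have h3 : N.map φ * P = 0 := by
        ext i j
        have h4 := congrFun (hf1 (Pi.single j 1)) i
        rw [← hP] at h4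
        rw [Matrix.mulVec_mulVec, Matrix.mulVec_single_one] at h4
        exact h4
      rw [h3, smul_zero]
    ext i j
    have := congrFun (congrFun h1 i) j
    rw [Matrix.map_apply, Matrix.zero_apply] at this
    exact hφ (by rw [this]; simp)
  · intro x hx
    have h1 : NK *ᵥ (φ ∘ x) = 0 := by
      ext i
      show ((N.map φ) *ᵥ (φ ∘ x)) i = 0
      rw [← RingHom.map_mulVec, hx]; simp
    have h4 := hf2 _ h1
    ext i
    apply hφ
    rw [RingHom.map_mulVec]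
    rw [h2, Matrix.smul_mulVec, hP, h4]
    simp

theorem t_LALG : s_LALG.{u, v} := by
  intro A _ _ n Z _ c hc ρ hN h1
  classical
  set N : Matrix (Fin n) (Fin n) A := ρ c - 1 with hNdef
  have hN0 : N ≠ 0 := by
    rw [hNdef]; exact sub_ne_zero.2 h1
  -- the maximal power which is not zero
  obtain ⟨s, hs0, hs1⟩ : ∃ s : ℕ, N ^ (s + 1) ≠ 0 ∧ N ^ (s + 2) = 0 := by
    have hex : ∃ k, N ^ k = 0 := hN
    have h3 := Nat.find_spec hex
    have h4 : 2 ≤ Nat.find hex := by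
      by_contra h
      push Not at h
      interval_cases h5 : Nat.find hex
      · apply hN0
        rw [← mul_one N, ← pow_zero N, h3, mul_zero]
      · rw [pow_one] at h3; exact hN0 h3
    obtain ⟨s, hs⟩ := Nat.exists_eq_add_of_le h4
    refine ⟨s, ?_, ?_⟩
    · apply Nat.find_min hex; omega
    · rw [add_comm s 2, ← hs]; exact h3
  obtain ⟨i₀, k, hik⟩ : ∃ i₀ k, (N ^ (s + 1)) i₀ k ≠ 0 := by
    by_contra h
    push Not at h
    exact hs0 (by ext i j; exact h i j)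
  obtain ⟨d, p, hd, hp1, hp2⟩ := lalg_proj n N
  set u : Fin n → A := (N ^ s) *ᵥ (Pi.single k 1) with hu
  have hNu : N *ᵥ u = (N ^ (s + 1)) *ᵥ (Pi.single k 1) := by
    rw [hu, Matrix.mulVec_mulVec, ← pow_succ']
  have hNu0 : (N *ᵥ u) i₀ ≠ 0 := by
    rw [hNu, Matrix.mulVec_single_one]; exact hik
  have hNNu : N *ᵥ (N *ᵥ u) = 0 := by
    rw [hNu, Matrix.mulVec_mulVec, ← pow_succ', hs1, Matrix.zero_mulVec]
  have hcw : ∀ w, ρ c * ρ w = ρ w * ρ c := fun w => by rw [← map_mul, ← map_mul, hc]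
  have hNw : ∀ w, N * ρ w = ρ w * N := fun w => by
    rw [hNdef, sub_mul, mul_sub, one_mul, mul_one, hcw]
  have hinv : ∀ w, ρ w⁻¹ * ρ w = 1 := fun w => by rw [← map_mul, inv_mul_cancel, map_one]
  have hinv' : ∀ w, ρ w * ρ w⁻¹ = 1 := fun w => by rw [← map_mul, mul_inv_cancel, map_one]
  let ξ : Z → Matrix (Fin n) (Fin n) A := fun t => ρ t * p * ρ t⁻¹ - p
  -- `N ξ = 0`
  have hNξ : ∀ t, N * ξ t = 0 := fun t => by
    show N * (ρ t * p * ρ t⁻¹ - p) = 0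
    rw [mul_sub, ← mul_assoc, ← mul_assoc, hNw, mul_assoc (ρ t), hp1]; simp
  have hcdef : ρ c = 1 + N := by rw [hNdef]; abel
  have hcξ : ∀ t, ρ c * ξ t = ξ t := fun t => by
    rw [hcdef, add_mul, one_mul, hNξ, add_zero]
  have hcξ' : ∀ t, ρ c⁻¹ * ξ t = ξ t := fun t => by
    conv_lhs => rw [← hcξ t]
    rw [← mul_assoc, hinv, one_mul]
  -- `ξ N x = 0` for `N N x = 0`
  have hξN : ∀ t (x : Fin n → A), N *ᵥ (N *ᵥ x) = 0 → ξ t *ᵥ (N *ᵥ x) = 0 := by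
    intro t x hx
    show (ρ t * p * ρ t⁻¹ - p) *ᵥ (N *ᵥ x) = 0
    rw [Matrix.sub_mulVec, hp2 _ hx]
    have h5 : (ρ t * p * ρ t⁻¹) *ᵥ (N *ᵥ x) = ρ t *ᵥ (p *ᵥ (N *ᵥ (ρ t⁻¹ *ᵥ x))) := by
      rw [← Matrix.mulVec_mulVec, ← Matrix.mulVec_mulVec, Matrix.mulVec_mulVec x (ρ t⁻¹) N,
        ← hNw, ← Matrix.mulVec_mulVec]
    have h6 : N *ᵥ (N *ᵥ (ρ t⁻¹ *ᵥ x)) = 0 := by
      rw [Matrix.mulVec_mulVec x N (ρ t⁻¹), hNw, ← Matrix.mulVec_mulVec,
        Matrix.mulVec_mulVec _ N (ρ t⁻¹), hNw, ← Matrix.mulVec_mulVec, hx, Matrix.mulVec_zero]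
    rw [h5, hp2 _ h6, Matrix.mulVec_smul, Matrix.mulVec_mulVec x N (ρ t⁻¹), hNw,
      Matrix.mulVec_mulVec, ← mul_assoc, hinv', one_mul, sub_self]
  have hNNw : ∀ w, N *ᵥ (N *ᵥ (ρ w *ᵥ u)) = 0 := fun w => by
    rw [Matrix.mulVec_mulVec u N (ρ w), hNw, ← Matrix.mulVec_mulVec,
      Matrix.mulVec_mulVec _ N (ρ w), hNw, ← Matrix.mulVec_mulVec, hNNu, Matrix.mulVec_zero]
  refine ⟨d * (N *ᵥ u) i₀, fun w t => -((ρ w⁻¹ *ᵥ (ξ t *ᵥ (ρ w *ᵥ u))) i₀),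
    fun q w => -(ρ w⁻¹ i₀ q.1 * (ρ w *ᵥ u) q.2), fun q t => ξ t q.1 q.2,
    mul_ne_zero hd hNu0, ⟨?_, ?_, ?_⟩, ?_⟩
  · intro w t s'
    have h5 : ξ (t * s') = ξ t + ρ t * ξ s' * ρ t⁻¹ := by
      show ρ (t * s') * p * ρ (t * s')⁻¹ - p =
        (ρ t * p * ρ t⁻¹ - p) + ρ t * (ρ s' * p * ρ s'⁻¹ - p) * ρ t⁻¹
      rw [_root_.mul_inv_rev, map_mul, map_mul, mul_sub, sub_mul]
      simp only [mul_assoc]
      abel
    have h6 : ρ (t⁻¹ * w)⁻¹ *ᵥ (ξ s' *ᵥ (ρ (t⁻¹ * w) *ᵥ u)) =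
        ρ w⁻¹ *ᵥ ((ρ t * ξ s' * ρ t⁻¹) *ᵥ (ρ w *ᵥ u)) := by
      rw [_root_.mul_inv_rev, inv_inv, map_mul, map_mul]
      simp only [Matrix.mulVec_mulVec, mul_assoc]
    show -((ρ w⁻¹ *ᵥ (ξ (t * s') *ᵥ (ρ w *ᵥ u))) i₀) = -((ρ w⁻¹ *ᵥ (ξ t *ᵥ (ρ w *ᵥ u))) i₀) +
      -((ρ (t⁻¹ * w)⁻¹ *ᵥ (ξ s' *ᵥ (ρ (t⁻¹ * w) *ᵥ u))) i₀)
    rw [h6, h5, Matrix.add_mulVec, Matrix.mulVec_add, Pi.add_apply]
    ring
  · intro w
    show -((ρ w⁻¹ *ᵥ (ξ c *ᵥ (ρ w *ᵥ u))) i₀) = d * (N *ᵥ u) i₀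
    set u' := ρ w *ᵥ u with hu'
    have h7 : ρ c⁻¹ *ᵥ u' = u' - N *ᵥ u' := by
      have h8 : ρ c *ᵥ (u' - N *ᵥ u') = u' := by
        rw [hcdef, Matrix.add_mulVec, Matrix.one_mulVec, Matrix.mulVec_sub, hNNw w]; simp
      conv_lhs => rw [← h8]
      rw [Matrix.mulVec_mulVec, hinv, Matrix.one_mulVec]
    have h8 : ξ c *ᵥ u' = -(d • (N *ᵥ u')) := by
      show (ρ c * p * ρ c⁻¹ - p) *ᵥ u' = _
      rw [Matrix.sub_mulVec, ← Matrix.mulVec_mulVec, ← Matrix.mulVec_mulVec, h7,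
        Matrix.mulVec_sub p, hp2 _ (hNNw w), hcdef, Matrix.add_mulVec, Matrix.one_mulVec,
        Matrix.mulVec_sub N, Matrix.mulVec_smul N, hNNw w, Matrix.mulVec_mulVec u' N p, hp1,
        Matrix.zero_mulVec, smul_zero]
      abel
    rw [h8, Matrix.mulVec_neg, Matrix.mulVec_smul, hu', Matrix.mulVec_mulVec _ N (ρ w), hNw,
      Matrix.mulVec_mulVec, ← mul_assoc, hinv, one_mul]
    simp
  · intro w t
    show -((ρ (c * w)⁻¹ *ᵥ (ξ t *ᵥ (ρ (c * w) *ᵥ u))) i₀) = -((ρ w⁻¹ *ᵥ (ξ t *ᵥ (ρ w *ᵥ u))) i₀)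
    have h9 : ρ (c * w) *ᵥ u = ρ w *ᵥ u + N *ᵥ (ρ w *ᵥ u) := by
      rw [map_mul, ← Matrix.mulVec_mulVec, hcdef, Matrix.add_mulVec, Matrix.one_mulVec]
    rw [h9, Matrix.mulVec_add, hξN t _ (hNNw w), add_zero, _root_.mul_inv_rev, map_mul,
      ← Matrix.mulVec_mulVec, Matrix.mulVec_mulVec _ (ρ c⁻¹) (ξ t), hcξ']
  · intro w t
    show -((ρ w⁻¹ *ᵥ (ξ t *ᵥ (ρ w *ᵥ u))) i₀) =
      ∑ q : Fin n × Fin n, -(ρ w⁻¹ i₀ q.1 * (ρ w *ᵥ u) q.2) * ξ t q.1 q.2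
    rw [Fintype.sum_prod_type]
    simp only [Matrix.mulVec, dotProduct, Finset.mul_sum, ← Finset.sum_neg_distrib]
    refine Finset.sum_congr rfl fun a _ => Finset.sum_congr rfl fun b _ => ?_
    simp only [Finset.sum_mul]
    refine Finset.sum_congr rfl fun e _ => ?_
    ring

end Pool.Agent.SUR
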