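import Pool.Agent.SUR.StL

/-!
# LALT: comparison of a permutation with its product with a transposition
-/

set_option autoImplicit false

universe u v

namespace Pool.Agent.SUR

open Finset

namespace LALTaux

variable {J : Type} {R : Type v} [Fintype J] [CommRing R] {r : ℕ}

theorem sum_zero (b : Fin r) (F : (Fin r → J) → R)
    (h : ∀ e, ∑ j, F (Function.update e b j) = 0) : ∑ e, F e = 0 := by
  classical
  rw [Fintype.sum_equiv (Equiv.funSplitAt b J) F (fun x => F ((Equiv.funSplitAt b J).symm x))
    (fun x => by rw [Equiv.symm_apply_apply]), Fintype.sum_prod_type_right]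
  refine Finset.sum_eq_zero fun f _ => ?_
  by_cases hJ : Nonempty J
  · obtain ⟨j₀⟩ := hJ
    have := h ((Equiv.funSplitAt b J).symm (j₀, f))
    rw [← this]
    refine Finset.sum_congr rfl fun j _ => ?_
    congr 1
    funext a
    by_cases ha : a = b
    · subst ha
      simp [Equiv.funSplitAt, Equiv.piSplitAt]
    · simp [Equiv.funSplitAt, Equiv.piSplitAt, ha]
  · have : IsEmpty J := not_nonempty_iff.mp hJ
    simp

theorem van (P : J → J → R) (hP : ∀ k, ∑ j, P j k = 0) (s : Fin r → Fin r) (b : Fin r)
    (hb : ∀ a, s a ≠ b) : ∑ e : Fin r → J, ∏ a, P (e a) (e (s a)) = 0 := by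
  classical
  refine sum_zero b _ fun e => ?_
  have key : ∀ j, ∏ a, P (Function.update e b j a) (Function.update e b j (s a))
      = P j (e (s b)) * ∏ a ∈ univ.erase b, P (e a) (e (s a)) := by
    intro j
    rw [← Finset.mul_prod_erase univ _ (Finset.mem_univ b)]
    congr 1
    · rw [Function.update_self, Function.update_of_ne (hb b)]
    · refine Finset.prod_congr rfl fun a ha => ?_
      rw [Function.update_of_ne (Finset.ne_of_mem_erase ha), Function.update_of_ne (hb a)]
  simp_rw [key]
  rw [← Finset.sum_mul, hP, zero_mul]

end LALTaux

open LALTaux in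
theorem t_LALT : s_LALT.{v} := by
  intro J R _ _ r P hP π i i' hii
  classical
  set a₁ : Fin r := π.symm i with ha₁
  set a₂ : Fin r := π.symm i' with ha₂
  have h₁ : π a₁ = i := by simp [ha₁]
  have h₂ : π a₂ = i' := by simp [ha₂]
  have h12 : a₁ ≠ a₂ := by
    intro h
    exact hii (by rw [← h₁, ← h₂, h])
  have e₁ : ∀ a, π a = i ↔ a = a₁ := by
    intro a
    constructor
    · intro h; rw [ha₁, ← h]; simp
    · intro h; rw [h, h₁]
  have e₂ : ∀ a, π a = i' ↔ a = a₂ := by
    intro a
    constructor
    · intro h; rw [ha₂, ← h]; simp
    · intro h; rw [h, h₂]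
  let x : Fin r → Fin r := fun a => if π a = i ∨ π a = i' then i else π a
  let y : Fin r → Fin r := fun a => if π a = i ∨ π a = i' then i' else i
  let st : Finset (Fin r) → Fin r → Fin r := fun t a => if a ∈ t then y a else x a
  have hKA : ∀ e : Fin r → J, KA P π i i' e
      = -∑ t ∈ (univ : Finset (Fin r)).powerset, (-1) ^ t.card *
          ∏ a, P (e a) (e (st t a)) := by
    intro e
    unfold KA
    congr 1
    have hf : ∀ a, (if π a = i ∨ π a = i' then P (e a) (e i) - P (e a) (e i') else
        P (e a) (e (π a)) - P (e a) (e i)) = P (e a) (e (x a)) - P (e a) (e (y a)) := by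
      intro a
      by_cases h : π a = i ∨ π a = i'
      · simp only [x, y, if_pos h]
      · simp only [x, y, if_neg h]
    simp_rw [hf]
    rw [Finset.prod_sub]
    refine Finset.sum_congr rfl fun t _ => ?_
    rw [mul_assoc]
    congr 1
    rw [← Finset.prod_sdiff (Finset.subset_univ t)]
    congr 1
    · refine Finset.prod_congr rfl fun a ha => ?_
      have : a ∉ t := (Finset.mem_sdiff.mp ha).2
      simp only [st, if_neg this]
    · refine Finset.prod_congr rfl fun a ha => ?_
      simp only [st, if_pos ha]
  simp_rw [hKA]
  rw [Finset.sum_neg_distrib, Finset.sum_comm]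
  simp_rw [← Finset.mul_sum]
  have hsub : ({{a₁}, {a₂}} : Finset (Finset (Fin r))) ⊆ (univ : Finset (Fin r)).powerset := by
    intro t _
    simp
  have hne : ({a₁} : Finset (Fin r)) ≠ {a₂} := by
    intro h
    exact h12 (Finset.singleton_injective h)
  rw [← Finset.sum_subset hsub]
  · rw [Finset.sum_pair hne]
    have s1 : st {a₁} = fun a => (Equiv.swap i i' * π : Equiv.Perm (Fin r)) a := by
      funext a
      by_cases h : a = a₁
      · subst h
        simp [st, y, h₁]
      · by_cases h' : a = a₂
        · subst h'
          simp [st, x, h₂, h12.symm]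
        · have q₁ : π a ≠ i := fun hh => h ((e₁ a).mp hh)
          have q₂ : π a ≠ i' := fun hh => h' ((e₂ a).mp hh)
          simp [st, x, h, q₁, q₂, Equiv.swap_apply_of_ne_of_ne q₁ q₂]
    have s2 : st {a₂} = π := by
      funext a
      by_cases h : a = a₂
      · subst h
        simp [st, y, h₂]
      · by_cases h' : a = a₁
        · subst h'
          simp [st, x, h₁, h12]
        · have q₁ : π a ≠ i := fun hh => h' ((e₁ a).mp hh)
          have q₂ : π a ≠ i' := fun hh => h ((e₂ a).mp hh)
          simp [st, x, h, q₁, q₂]
    rw [s1, s2]
    simp only [Finset.card_singleton, pow_one, neg_mul, one_mul]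
    ring
  · intro t _ ht
    have ht' : t ≠ {a₁} ∧ t ≠ {a₂} := by
      simp only [Finset.mem_insert, Finset.mem_singleton, not_or] at ht
      exact ht
    suffices hb : ∃ b, ∀ a, st t a ≠ b by
      obtain ⟨b, hb⟩ := hb
      rw [van P hP _ b hb, mul_zero]
    by_cases hex : ∃ a ∈ t, a ≠ a₁ ∧ a ≠ a₂
    · obtain ⟨a, hat, hn₁, hn₂⟩ := hex
      refine ⟨π a, fun a' => ?_⟩
      have q₁ : π a ≠ i := fun hh => hn₁ ((e₁ a).mp hh)
      have q₂ : π a ≠ i' := fun hh => hn₂ ((e₂ a).mp hh)
      by_cases h' : a' ∈ t
      · simp only [st, if_pos h', y]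
        split_ifs
        · exact q₂.symm
        · exact q₁.symm
      · simp only [st, if_neg h', x]
        split_ifs
        · exact q₁.symm
        · intro hh
          exact h' ((π.injective hh) ▸ hat)
    · push Not at hex
      by_cases m₁ : a₁ ∈ t
      · by_cases m₂ : a₂ ∈ t
        · refine ⟨i, fun a => ?_⟩
          by_cases ha : a ∈ t
          · by_cases hh : a = a₁
            · subst hh
              simp only [st, if_pos ha, y, h₁, true_or, if_true]
              exact hii.symm
            · have := hex a ha hh
              subst this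
              simp only [st, if_pos ha, y, h₂, or_true, if_true]
              exact hii.symm
          · have q₁ : π a ≠ i := fun hh => ha (((e₁ a).mp hh).symm ▸ m₁)
            have q₂ : π a ≠ i' := fun hh => ha (((e₂ a).mp hh).symm ▸ m₂)
            simp only [st, if_neg ha, x, q₁, q₂, or_self, if_false]
            exact q₁
        · exfalso
          apply ht'.1
          ext a
          rw [Finset.mem_singleton]
          constructor
          · intro ha
            by_contra hh
            have := hex a ha hh
            subst this
            exact m₂ ha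
          · intro ha
            rw [ha]
            exact m₁
      · by_cases m₂ : a₂ ∈ t
        · exfalso
          apply ht'.2
          ext a
          rw [Finset.mem_singleton]
          constructor
          · intro ha
            by_contra hh
            have h3 : a ≠ a₁ := fun h3 => m₁ (h3 ▸ ha)
            exact hh (hex a ha h3)
          · intro ha
            rw [ha]
            exact m₂
        · refine ⟨i', fun a => ?_⟩
          have ha : a ∉ t := by
            intro ha
            have h3 : a ≠ a₁ := fun h3 => m₁ (h3 ▸ ha)
            have := hex a ha h3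
            exact m₂ (this ▸ ha)
          simp only [st, if_neg ha, x]
          by_cases h : π a = i ∨ π a = i'
          · rw [if_pos h]; exact hii
          · rw [if_neg h]; exact fun hh => h (Or.inr hh)

end Pool.Agent.SUR
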