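import Pool.Agent.SUR.Cond

/-!
# The condition on centralisers: linear representations or nilpotent Euler classes

Let `Z` be a group, `c` a central element and `s : Z → R` a function with `s (c z) = s z + v`. Its
homogeneous Euler cocycle `eu s x y w = s (x⁻¹ y) + s (y⁻¹ w) - s (x⁻¹ w)` is a cocycle of the group
`Z/⟨c⟩`; if `v = 1` and `c` has infinite order it represents the Euler class of the central extension
`⟨c⟩ → Z → Z/⟨c⟩`. Homogeneous cochains of degree `n` are functions of `n + 1` points of `Z` which are
invariant under `Z` and do not change if one of the points is multiplied by `c`; they are given as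
functions on lists of points.
-/

set_option autoImplicit false

universe u

namespace Pool.Agent.SUR

open Finset

/-- the homogeneous Euler cocycle of a function `s` -/
def eu {Z R : Type*} [Group Z] [AddCommGroup R] (s : Z → R) (x y w : Z) : R :=
  s (x⁻¹ * y) + s (y⁻¹ * w) - s (x⁻¹ * w)

/-- the cup powers of the Euler cocycle, on lists of points of odd length: on `[x₀, …, x_{2 r}]` the
product of the `eu s x_{2 i} x_{2 i + 1} x_{2 i + 2}`, `i < r` -/
def cupE {Z R : Type*} [Group Z] [CommRing R] (s : Z → R) : List Z → R
  | x :: y :: w :: l => eu s x y w * cupE s (w :: l)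
  | _ => 1

/-- the homogeneous coboundary, on lists of points: the alternating sum over the lists with one point
omitted -/
def cobL {Z R : Type*} [CommRing R] (φ : List Z → R) (l : List Z) : R :=
  ∑ i ∈ range l.length, (-1) ^ i * φ (l.eraseIdx i)

/-- `s (c z) = s z + v`, and `φ` is a homogeneous cochain on `Z/⟨c⟩` whose coboundary is the `r`-th cup
power of the Euler cocycle of `s` -/
structure NilEuler {Z R : Type*} [Group Z] [CommRing R] (c : Z) (r : ℕ) (v : R) (s : Z → R)
    (φ : List Z → R) : Prop where
  shift : ∀ z, s (c * z) = s z + v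
  inv : ∀ w l, φ (l.map fun x => w * x) = φ l
  per : ∀ l₁ x l₂, φ (l₁ ++ c * x :: l₂) = φ (l₁ ++ x :: l₂)
  cob : ∀ l : List Z, l.length = 2 * r + 1 → cobL φ l = cupE s l

/-- the condition on centralisers: for a finitely generated subring `A` of a field `F`, some `n > 0` and
each `g` of infinite order, with centraliser `Z`, either (a) `Z` has a homomorphism to `GL_n(A)` which maps
`g` to an element of infinite order, or (b) `F` has characteristic `0` and for some power `g ^ j`, `j > 0`,
and some `s : Z → A` and `v ≠ 0` with `s (g ^ j z) = s z + v`, the `n`-th cup power of the Euler cocycle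
of `s` is the coboundary of a homogeneous cochain on `Z/⟨g ^ j⟩` with values in `A` -/
def CentEul (G : Type u) [Group G] : Prop :=
  ∃ (F : Type u) (_ : Field F) (S : Set F) (n : ℕ), S.Finite ∧ 0 < n ∧
    ∀ g : G, ¬IsOfFinOrder g →
      (∃ ρ : Subgroup.centralizer {g} →* Matrix (Fin n) (Fin n) (Subring.closure S),
        ¬IsOfFinOrder (ρ ⟨g, Subgroup.mem_centralizer_singleton_iff.2 rfl⟩)) ∨
      (CharZero F ∧ ∃ (j : ℕ) (v : Subring.closure S)
        (s : Subgroup.centralizer {g} → Subring.closure S)
        (φ : List (Subgroup.centralizer {g}) → Subring.closure S), 0 < j ∧ v ≠ 0 ∧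
        NilEuler ((⟨g, Subgroup.mem_centralizer_singleton_iff.2 rfl⟩ :
          Subgroup.centralizer {g}) ^ j) n v s φ)

/-- all finitely generated subgroups satisfy `CentEul` -/
def LocCentEul (G : Type u) [Group G] : Prop := ∀ G₀ : Subgroup G, G₀.FG → CentEul G₀

/-- the condition on the cohomology of centralisers: for some `M, r > 0`, each `g` of infinite order has
a power `g ^ j = h ^ k`, `h` central in the centraliser `Z` of `g`, with
`H^(2 r)(Z/⟨h⟩; ℤ[1/M]) = 0` -/
def CentCoh (G : Type u) [Group G] : Prop :=
  ∃ M r : ℕ, 0 < M ∧ 0 < r ∧ ∀ g : G, ¬IsOfFinOrder g →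
    ∃ (j k : ℕ) (h : Subgroup.centralizer {g}) (Q : Type u) (_ : Group Q)
      (p : Subgroup.centralizer {g} →* Q), 0 < j ∧ 0 < k ∧ h ^ k =
        (⟨g, Subgroup.mem_centralizer_singleton_iff.2 rfl⟩ : Subgroup.centralizer {g}) ^ j ∧
      (∀ z, h * z = z * h) ∧ Function.Surjective p ∧ p.ker = Subgroup.zpowers h ∧
      Subsingleton (groupCohomology
        (Rep.trivial (ULift.{u} (ZM M)) Q (ULift.{u} (ZM M))) (2 * r))

end Pool.Agent.SUR
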