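import Pool.Agent.SUR.StL
import Pool.Agent.SUR.CondE

/-!
# Weights of bounded degree on words: nilpotent Euler classes

Let `c` be a central element of infinite order of a group `Z`. If a power of the Euler class of the
central extension `⟨c⟩ → Z → Z/⟨c⟩` vanishes, then there is a weight at `c` of bounded degree with a
nonzero constant. Modules as in `StL.lean`.
-/

set_option autoImplicit false

universe u v

namespace Pool.Agent.SUR

open Pool.Agent.WhK Finset

/-- LMONO (60 lines). Degrees.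
Proof. It suffices to treat `r' = r + 1` (`Nat.le_induction`). Split a cube of dimension `r + 2` along the
first coordinate (`Fin.consEquiv`, `Fin.cons`): for each value of the first coordinate
`ε ↦ c (Fin.cons b ε)` is a cube (a slot at the coordinate `0` becomes a constant), and
`altS f = altS (f (cons false ·)) - altS (f (cons true ·))`. -/
def s_LMONO : Prop := ∀ (𝔐 𝔔 : Type u) (A : Type) [Monoid 𝔐] [Monoid 𝔔] [AddCommGroup A]
  (θ : 𝔐 →* 𝔔) (r r' : ℕ) (W : 𝔐 → 𝔐 → A), r ≤ r' → DegV θ r W → DegV θ r' W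

/-- LEUL (250 lines). Hypotheses `s_LMSUM`, `s_LKERW`, `s_LKERD`. (architect)
Proof. Let `y` be a word with product `c`, with points `q_0 = 1, …, q_l = c` and letter sum
`ℓ = ∑ s z_j`. (1) `∑_j eu s p q_j q_{j+1} = ℓ - v` for every `p` (telescoping), and
`∑_j eu s q_j q_{j+1} x = ℓ - v` for every `x`. (2) For a list `l` of points
`∑_j cobL φ (q_j :: q_{j+1} :: l) = cobL (fun l => ∑_j φ (q_j :: q_{j+1} :: l)) l`, because
`∑_j (φ (q_{j+1} :: l) - φ (q_j :: l)) = φ (c :: l) - φ (1 :: l) = 0`. (3) So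
`(ℓ - v) ^ r = ∑_{j_1, …, j_r} cupE s (q_{j_1} :: q_{j_1 + 1} :: … :: [x]) = ∑ cobL φ (…) =
∑ φ (q_{j_1} :: q_{j_1 + 1} :: … :: q_{j_r + 1} :: [])`, a sum over a kernel with `r` edges. (4)
`v ^ r - (v - ℓ) ^ r = ℓ ∑ v ^ i (v - ℓ) ^ (r - 1 - i)`, and `ℓ (v - ℓ) ^ k` is the sum over the kernel
`s z_{e_0} ∏_l (- eu s (end e_0) (start e_l) (end e_l))`. -/
def s_LEUL : Prop := ∀ (Z : Type u) (R : Type v) [Group Z] [CommRing R] (c : Z),
  (∀ z, c * z = z * c) → ∀ (r : ℕ) (v : R) (s : Z → R) (φ : List Z → R), 0 < r →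
  NilEuler c r v s φ →
  ∃ W : FreeMonoid Z → FreeMonoid Z → R, WtAtA (th Z) c (v ^ r) W ∧ DegV (th Z) r W

/-- LWE (60 lines). Hypotheses `s_LEUL.{u, u}`, `s_LMONO`, `s_LPSH.{u, u}`, `s_LPOW`, `s_LTRA`, `s_NNF`,
and those of `LWT` (use the per-element lemma of `Pool/Agent/SUR/LWT.lean`).
Proof. `r = n * n + n + 2`, `M` from `NNF` for `S` (`M = 1` in positive characteristic). Case (a): `LWT`
and `LMONO`. Case (b): `LEUL` at `g ^ j` (`R = A`), `ψ : A → ZM M` with `ψ (v ^ n) ≠ 0`, `LPSH`, `LPOW`,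
`LTRA`, `LMONO`. -/
def s_LWE : Prop := ∀ (G : Type u) [Group G], CentEul G → ∃ M r : ℕ, 0 < M ∧ CentWt G M r

/-- LCUP (60 lines). The cup powers of the Euler cocycle are cocycles.
Proof. `cobL φ (x :: l) = φ l - cobL (fun l' => φ (x :: l')) l` (`Finset.sum_range_succ'`). By induction on
`r`: `cobL (cupE s) (x₀ :: x₁ :: x₂ :: x₃ :: l) = (e(x₁,x₂,x₃) - e(x₀,x₂,x₃) + e(x₀,x₁,x₃) - e(x₀,x₁,x₂)) *
cupE s (x₃ :: l) + e(x₀,x₁,x₂) * cobL (cupE s) (x₂ :: x₃ :: l)`, and the first factor is `0`. -/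
def s_LCUP : Prop := ∀ (Z : Type u) (R : Type v) [Group Z] [CommRing R] (s : Z → R) (r : ℕ)
  (l : List Z), l.length = 2 * r + 2 → cobL (cupE s) l = 0

/-- LCBR (80 lines). Vanishing cohomology in terms of inhomogeneous cochains with trivial coefficients.
Proof. `groupCohomology A n` is the homology of `inhomogeneousCochains A`
(`Mathlib/RepresentationTheory/Homological/GroupCohomology/Basic.lean`, `inhomogeneousCochains.d`,
`cocyclesMk`); it is zero, so the complex is exact there (`HomologicalComplex.exactAt_iff_isZero_homology`,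
`ShortComplex.moduleCat_exact_iff`), and `inhomogeneousCochains.d_def`, `d_hom_apply`. -/
def s_LCBR : Prop := ∀ (Q k : Type u) [Group Q] [CommRing k] (n : ℕ) (f : (Fin (n + 1) → Q) → k),
  Subsingleton (groupCohomology (Rep.trivial k Q k) (n + 1)) →
  (∀ g : Fin (n + 2) → Q, f (fun i => g i.succ) +
    ∑ j : Fin (n + 2), (-1) ^ ((j : ℕ) + 1) * f (Fin.contractNth j (· * ·) g) = 0) →
  ∃ ψ : (Fin n → Q) → k, ∀ g : Fin (n + 1) → Q, ψ (fun i => g i.succ) +
    ∑ j : Fin (n + 1), (-1) ^ ((j : ℕ) + 1) * ψ (Fin.contractNth j (· * ·) g) = f g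

/-- LCOH (250 lines). Hypotheses `s_LCUP`, `s_LCBR`.
Proof. Let `σ : Q → Z` be a section of `p`. For `z : Z` there is a unique integer `t z` with
`z = h ^ (t z) * σ (p z)` (`h` has infinite order), `t (h z) = t z + 1`; `s z = t z` in `ZM M` (or in
`k = ULift (ZM M)`; transport at the end). `eu s x y w` does not change if one of the points is
multiplied by `h` (`h` is central). So `cupE s [1, z₁, z₁ z₂, …, z₁ ⋯ z_{2r}]` depends only on the `p z_i`:
it defines `f : (Fin (2 r) → Q) → k` (use `σ`). For a list `l = [x₀, …, x_n]` the homogeneous cochain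
of `ψ : (Fin n → Q) → k` is `ψ (p (x₀⁻¹ x₁), …, p (x_{n-1}⁻¹ x_n))` (and `0` for lists of other lengths);
its coboundary `cobL` on a list of length `n + 2` is the homogeneous cochain of the inhomogeneous
coboundary (omitting `x_0` drops the first entry, omitting `x_i` multiplies the entries `i - 1`, `i`:
`Fin.contractNth`, omitting the last point drops the last entry, `contractNth n`). So `f` is a cocycle by
`LCUP`; `LCBR` gives `ψ`, and `φ` is the homogeneous cochain of `ψ`. It is invariant, and periodic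
because `p h = 1`. -/
def s_LCOH : Prop := ∀ (Z Q : Type u) [Group Z] [Group Q] (h : Z), (∀ z, h * z = z * h) →
  ¬IsOfFinOrder h → ∀ p : Z →* Q, Function.Surjective p → p.ker = Subgroup.zpowers h →
  ∀ M r : ℕ, 0 < r →
  Subsingleton (groupCohomology (Rep.trivial (ULift.{u} (ZM M)) Q (ULift.{u} (ZM M))) (2 * r)) →
  ∃ (s : Z → ZM M) (φ : List Z → ZM M), NilEuler h r 1 s φ

/-- LCC (80 lines). Hypothesis `s_LCOH`.
Proof. `F = ULift ℚ`, `S = {1/M}`, `n = r`; `ZM M` maps to `Subring.closure S` (ring homomorphism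
`ι`; compare `Pool/Agent/SUR/LLIN.lean`). `h` has infinite order. `NilEuler h r 1 s φ` gives
`NilEuler (h ^ k) r k (ι ∘ s) (ι ∘ φ)` (iterate `shift` and `per`; `cobL`, `cupE` commute with ring
homomorphisms), `v = k ≠ 0`. -/
def s_LCC : Prop := ∀ (G : Type u) [Group G], CentCoh G → CentEul G

end Pool.Agent.SUR
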