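import Mathlib
import Pool.Agent.SUR.StE

/-! # LCBR: vanishing cohomology in terms of inhomogeneous cochains -/

set_option autoImplicit false

universe u v

namespace Pool.Agent.SUR

open CategoryTheory

theorem t_LCBR : s_LCBR.{u} := by
  intro Q k _ _ n f hs hf
  have hz : Limits.IsZero (groupCohomology (Rep.trivial k Q k) (n + 1)) :=
    ModuleCat.isZero_of_subsingleton _
  have he : (groupCohomology.inhomogeneousCochains (Rep.trivial k Q k)).ExactAt (n + 1) := by
    rw [HomologicalComplex.exactAt_iff_isZero_homology]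
    exact hz
  rw [HomologicalComplex.exactAt_iff' _ n (n + 1) (n + 2) (by simp) (by simp)] at he
  have hd : (inhomogeneousCochains.d (Rep.trivial k Q k) (n + 1)).hom f = 0 := by
    funext g
    rw [inhomogeneousCochains.d_hom_apply]
    have := hf g
    simp only [smul_eq_mul]
    exact this
  have h1 := (ShortComplex.moduleCat_exact_iff _).1 he f (by
    have h2 := groupCohomology.inhomogeneousCochains.d_def (Rep.trivial k Q k) (n + 1)
    change ((groupCohomology.inhomogeneousCochains (Rep.trivial k Q k)).d (n + 1) (n + 2)).hom f = 0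
    rw [h2]
    exact hd)
  have key : ∀ (ψ : (Fin n → Q) → k) (g : Fin (n + 1) → Q),
      (inhomogeneousCochains.d (Rep.trivial k Q k) n).hom ψ g = ψ (fun i => g i.succ) +
        ∑ j : Fin (n + 1), (-1) ^ ((j : ℕ) + 1) * ψ (Fin.contractNth j (· * ·) g) := by
    intro ψ g
    rw [inhomogeneousCochains.d_hom_apply]
    simp only [smul_eq_mul]
    rfl
  obtain ⟨ψ, hψ⟩ := h1
  refine ⟨ψ, ?_⟩
  intro g
  have h3 : ((groupCohomology.inhomogeneousCochains (Rep.trivial k Q k)).d n (n + 1)).hom ψ = f := hψ
  rw [groupCohomology.inhomogeneousCochains.d_def (Rep.trivial k Q k) n] at h3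
  exact (key ψ g).symm.trans (congrFun h3 g)

end Pool.Agent.SUR
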