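import Pool.Agent.SUR.StE

/-!
# Module LCOH: vanishing cohomology of `Z/⟨h⟩` gives a nilpotent Euler class
-/

set_option autoImplicit false

universe u v

namespace Pool.Agent.SUR

open Pool.Agent.WhK Finset

namespace COH

section Homog

variable {Q k : Type*} [Group Q] [CommRing k] {n : ℕ}

/-- the homogeneous cochain of an inhomogeneous cochain -/
def H (ψ : (Fin n → Q) → k) (x : Fin (n + 1) → Q) : k :=
  ψ fun i => (x i.castSucc)⁻¹ * x i.succ

omit [CommRing k] in
theorem H_smul (ψ : (Fin n → Q) → k) (c : Q) (x : Fin (n + 1) → Q) :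
    H ψ (c • x) = H ψ x := by
  unfold H
  congr 1
  funext i
  simp only [Pi.smul_apply, smul_eq_mul, mul_inv_rev]
  rw [mul_assoc, inv_mul_cancel_left]

omit [CommRing k] in
theorem H_pp (ψ : (Fin n → Q) → k) (g : Fin n → Q) : H ψ (Fin.partialProd g) = ψ g := by
  unfold H
  congr 1
  funext i
  exact Fin.partialProd_right_inv g i

/-- the same on lists -/
def homL (ψ : (Fin n → Q) → k) (l : List Q) : k :=
  if h : l.length = n + 1 then H ψ (fun i => l[(i : ℕ)]'(by omega)) else 0

theorem homL_ofFn (ψ : (Fin n → Q) → k) (x : Fin (n + 1) → Q) :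
    homL ψ (List.ofFn x) = H ψ x := by
  unfold homL
  rw [dif_pos (List.length_ofFn)]
  congr 1
  funext i
  exact List.getElem_ofFn _

theorem exists_ofFn {α : Type*} {m : ℕ} (l : List α) (h : l.length = m) :
    ∃ x : Fin m → α, l = List.ofFn x := by
  subst h
  exact ⟨l.get, (List.ofFn_get l).symm⟩

theorem map_ofFn' {α β : Type*} {m : ℕ} (f : α → β) (x : Fin m → α) :
    (List.ofFn x).map f = List.ofFn fun i => f (x i) := by
  rw [List.map_ofFn]
  rfl

theorem homL_mul (ψ : (Fin n → Q) → k) (c : Q) (l : List Q) :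
    homL ψ (l.map fun x => c * x) = homL ψ l := by
  by_cases h : l.length = n + 1
  · obtain ⟨x, rfl⟩ := exists_ofFn l h
    rw [map_ofFn', homL_ofFn, homL_ofFn]
    exact H_smul ψ c x
  · unfold homL
    rw [dif_neg h, dif_neg (by rw [List.length_map]; exact h)]

theorem eraseIdx_ofFn {α : Type*} {m : ℕ} (x : Fin (m + 1) → α) (i : Fin (m + 1)) :
    (List.ofFn x).eraseIdx i = List.ofFn fun j => x (i.succAbove j) := by
  apply List.ext_getElem
  · rw [List.length_eraseIdx_of_lt (by rw [List.length_ofFn]; exact i.2), List.length_ofFn,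
      List.length_ofFn]
    rfl
  · intro j h1 h2
    rw [List.getElem_eraseIdx]
    rw [List.length_ofFn] at h2
    split_ifs with h
    · rw [List.getElem_ofFn, List.getElem_ofFn, Fin.succAbove_of_castSucc_lt]
      · rfl
      · exact h
    · rw [List.getElem_ofFn, List.getElem_ofFn, Fin.succAbove_of_le_castSucc]
      · rfl
      · exact not_lt.1 h

theorem cobL_ofFn {α : Type*} {m : ℕ} (φ : List α → k) (x : Fin (m + 1) → α) :
    cobL φ (List.ofFn x) =
      ∑ i : Fin (m + 1), (-1) ^ (i : ℕ) * φ (List.ofFn fun j => x (i.succAbove j)) := by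
  unfold cobL
  rw [List.length_ofFn, Finset.sum_range]
  refine Finset.sum_congr rfl fun i _ => ?_
  rw [eraseIdx_ofFn]

theorem cob_homL (ψ : (Fin n → Q) → k) (x : Fin (n + 2) → Q) (g : Fin (n + 1) → Q)
    (hg : ∀ i, g i = (x i.castSucc)⁻¹ * x i.succ) :
    cobL (homL ψ) (List.ofFn x) = ψ (fun i => g i.succ) +
      ∑ j : Fin (n + 1), (-1) ^ ((j : ℕ) + 1) * ψ (Fin.contractNth j (· * ·) g) := by
  have hx : x = x 0 • Fin.partialProd g := by
    conv_lhs => rw [← Fin.partialProd_left_inv x]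
    congr 2
    funext i
    exact (hg i).symm
  rw [cobL_ofFn, Fin.sum_univ_succ]
  congr 1
  · rw [Fin.val_zero, pow_zero, one_mul, homL_ofFn]
    unfold H
    congr 1
    funext i
    rw [hg]
    simp only [Fin.succAbove_zero]
    rw [Fin.castSucc_succ]
  · refine Finset.sum_congr rfl fun j _ => ?_
    rw [Fin.val_succ, homL_ofFn]
    congr 1
    have h1 : (fun i => x (j.succ.succAbove i)) =
        x 0 • Fin.partialProd (Fin.contractNth j (· * ·) g) := by
      rw [Fin.partialProd_contractNth]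
      conv_lhs => rw [hx]
      rfl
    rw [h1, H_smul, H_pp]

end Homog

section Maps

variable {Z R R' : Type*} [Group Z] [CommRing R] [CommRing R']

theorem cupE_map (f : R →+* R') (s : Z → R) :
    ∀ l : List Z, f (cupE s l) = cupE (fun z => f (s z)) l
  | [] => by simp [cupE]
  | [x] => by simp [cupE]
  | [x, y] => by simp [cupE]
  | x :: y :: w :: l => by
    rw [cupE, cupE, map_mul, cupE_map f s (w :: l)]
    congr 1
    unfold eu
    rw [map_sub, map_add]

theorem cobL_map (f : R →+* R') {α : Type*} (φ : List α → R) (l : List α) :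
    f (cobL φ l) = cobL (fun l => f (φ l)) l := by
  unfold cobL
  rw [map_sum]
  refine Finset.sum_congr rfl fun i _ => ?_
  rw [map_mul, map_pow, map_neg, map_one]

theorem cobL_comp {α β : Type*} (p : α → β) (φ : List β → R) (l : List α) :
    cobL (fun l => φ (l.map p)) l = cobL φ (l.map p) := by
  unfold cobL
  rw [List.length_map]
  refine Finset.sum_congr rfl fun i _ => ?_
  rw [List.eraseIdx_map]

theorem cupE_mul (s : Z → R) (w₀ : Z) :
    ∀ l : List Z, cupE s (l.map fun x => w₀ * x) = cupE s l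
  | [] => by simp [cupE]
  | [x] => by simp [cupE]
  | [x, y] => by simp [cupE]
  | x :: y :: w :: l => by
    have ih := cupE_mul s w₀ (w :: l)
    simp only [List.map_cons] at ih ⊢
    rw [cupE, cupE, ih]
    congr 1
    unfold eu
    simp only [mul_inv_rev, mul_assoc, inv_mul_cancel_left]

end Maps

section Section

variable {Z Q R : Type*} [Group Z] [Group Q] [CommRing R] {h : Z} {p : Z →* Q} {s : Z → R}

theorem eu_congr (hc : ∀ z, h * z = z * h) (hp : p.ker = Subgroup.zpowers h)
    (hs : ∀ (m : ℤ) z, s (h ^ m * z) = s z + m) {x y w x' y' w' : Z} (hx : p x = p x')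
    (hy : p y = p y') (hw : p w = p w') : eu s x y w = eu s x' y' w' := by
  have key : ∀ z z' : Z, p z = p z' → ∃ m : ℤ, z' = h ^ m * z := by
    intro z z' hz
    have h1 : z' * z⁻¹ ∈ p.ker := by
      rw [MonoidHom.mem_ker, map_mul, map_inv, hz, mul_inv_cancel]
    rw [hp, Subgroup.mem_zpowers_iff] at h1
    obtain ⟨m, hm⟩ := h1
    exact ⟨m, by rw [hm, inv_mul_cancel_right]⟩
  have hcz : ∀ (m : ℤ) z, h ^ m * z = z * h ^ m := fun m z =>
    (Commute.zpow_left (show Commute h z from hc z) m).eq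
  have hs2 : ∀ (a b : ℤ) (x y : Z),
      s ((h ^ a * x)⁻¹ * (h ^ b * y)) = s (x⁻¹ * y) + (b - a) := by
    intro a b x y
    have h1 : (h ^ a * x)⁻¹ * (h ^ b * y) = h ^ (b - a) * (x⁻¹ * y) := by
      rw [mul_inv_rev, ← zpow_neg, mul_assoc, ← mul_assoc (h ^ (-a)), ← zpow_add,
        ← mul_assoc, ← hcz, mul_assoc, neg_add_eq_sub]
    rw [h1, hs]
    push_cast
    ring
  obtain ⟨a, rfl⟩ := key x x' hx
  obtain ⟨b, rfl⟩ := key y y' hy
  obtain ⟨c, rfl⟩ := key w w' hw
  unfold eu
  rw [hs2, hs2, hs2]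
  ring

theorem cupE_congr (hc : ∀ z, h * z = z * h) (hp : p.ker = Subgroup.zpowers h)
    (hs : ∀ (m : ℤ) z, s (h ^ m * z) = s z + m) :
    ∀ l l' : List Z, l.map p = l'.map p → cupE s l = cupE s l'
  | [], l', e => by
    have h1 : l' = [] := by
      rw [List.map_nil] at e
      exact List.map_eq_nil_iff.1 e.symm
    rw [h1]
  | [x], l', e => by
    obtain ⟨x', t1, rfl, -, h2⟩ := List.map_eq_cons_iff.1 e.symm
    have h3 : t1 = [] := List.map_eq_nil_iff.1 h2
    subst h3
    simp [cupE]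
  | [x, y], l', e => by
    obtain ⟨x', t1, rfl, -, h2⟩ := List.map_eq_cons_iff.1 e.symm
    obtain ⟨y', t2, rfl, -, h3⟩ := List.map_eq_cons_iff.1 h2
    have h4 : t2 = [] := List.map_eq_nil_iff.1 h3
    subst h4
    simp [cupE]
  | x :: y :: w :: l, l', e => by
    obtain ⟨x', t1, rfl, e1, h2⟩ := List.map_eq_cons_iff.1 e.symm
    obtain ⟨y', t2, rfl, e2, h3⟩ := List.map_eq_cons_iff.1 h2
    obtain ⟨w', t3, rfl, e3, h4⟩ := List.map_eq_cons_iff.1 h3
    rw [cupE, cupE, eu_congr hc hp hs e1.symm e2.symm e3.symm]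
    congr 1
    exact cupE_congr hc hp hs (w :: l) (w' :: t3) h3.symm

/-- the inhomogeneous cochain on the quotient -/
noncomputable def fF (s : Z → R) (σ : Q → Z) (m : ℕ) (g : Fin m → Q) : R :=
  cupE s (List.ofFn fun i => σ (Fin.partialProd g i))

theorem cupE_eq (hc : ∀ z, h * z = z * h) (hp : p.ker = Subgroup.zpowers h)
    (hs : ∀ (m : ℤ) z, s (h ^ m * z) = s z + m) {σ : Q → Z} (hσ : ∀ q, p (σ q) = q) {m : ℕ}
    (x : Fin (m + 1) → Z) :
    cupE s (List.ofFn x) = H (fF s σ m) (fun i => p (x i)) := by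
  have h1 := Fin.partialProd_left_inv (fun i => p (x i))
  unfold H fF
  rw [← cupE_mul s (x 0)⁻¹ (List.ofFn x), map_ofFn']
  apply cupE_congr hc hp hs
  rw [map_ofFn', map_ofFn']
  congr 1
  funext i
  rw [hσ, map_mul, map_inv]
  have h2 := congrFun h1 i
  simp only [Pi.smul_apply, smul_eq_mul] at h2
  rw [← h2, inv_mul_cancel_left]

end Section

end COH

open COH in
theorem t_LCOH (hCUP : s_LCUP.{u, u}) (hCBR : s_LCBR.{u}) : s_LCOH.{u} := by
  intro Z Q _ _ h hc hinf p hsurj hp M r hr hsub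
  -- the section
  choose σ hσ using hsurj
  have hcz : ∀ (m : ℤ) z, h ^ m * z = z * h ^ m := fun m z =>
    (Commute.zpow_left (show Commute h z from hc z) m).eq
  have hinj : Function.Injective fun m : ℤ => h ^ m := injective_zpow_iff_not_isOfFinOrder.2 hinf
  have ht : ∀ z : Z, ∃ m : ℤ, h ^ m = z * (σ (p z))⁻¹ := by
    intro z
    have h1 : z * (σ (p z))⁻¹ ∈ p.ker := by
      rw [MonoidHom.mem_ker, map_mul, map_inv, hσ, mul_inv_cancel]
    rw [hp, Subgroup.mem_zpowers_iff] at h1
    exact h1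
  choose t ht using ht
  have hph : p h = 1 := by
    rw [← MonoidHom.mem_ker, hp]
    exact Subgroup.mem_zpowers h
  have ht1 : ∀ (m : ℤ) z, t (h ^ m * z) = t z + m := by
    intro m z
    apply hinj
    show h ^ t (h ^ m * z) = h ^ (t z + m)
    rw [ht, map_mul, map_zpow, hph, one_zpow, one_mul, zpow_add, ht, mul_assoc, hcz]
  obtain ⟨n, hn⟩ : ∃ n, 2 * r = n + 1 := ⟨2 * r - 1, by omega⟩
  rw [hn] at hsub
  let k := ULift.{u} (ZM M)
  let s : Z → k := fun z => (t z : k)
  have hs : ∀ (m : ℤ) z, s (h ^ m * z) = s z + m := by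
    intro m z
    simp only [s]
    rw [ht1]
    exact Int.cast_add _ _
  -- the cocycle
  have hcoc : ∀ g : Fin (n + 2) → Q, fF s σ (n + 1) (fun i => g i.succ) +
      ∑ j : Fin (n + 2), (-1) ^ ((j : ℕ) + 1) *
        fF s σ (n + 1) (Fin.contractNth j (· * ·) g) = 0 := by
    intro g
    rw [← cob_homL (fF s σ (n + 1)) (Fin.partialProd g) g
      (fun i => (Fin.partialProd_right_inv g i).symm)]
    have h1 := hCUP Z k s r (List.ofFn fun i : Fin (n + 3) => σ (Fin.partialProd g i))
      (by rw [List.length_ofFn]; omega)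
    rw [← h1, cobL_ofFn, cobL_ofFn]
    refine Finset.sum_congr rfl fun i _ => ?_
    congr 1
    rw [cupE_eq hc hp hs hσ, homL_ofFn]
    congr 1
    funext j
    rw [hσ]
  obtain ⟨ψ, hψ⟩ := hCBR Q k n (fF s σ (n + 1)) hsub hcoc
  let φ : List Z → k := fun l => homL ψ (l.map p)
  let e : k →+* ZM M := (ULift.ringEquiv : ULift.{u} (ZM M) ≃+* ZM M).toRingHom
  refine ⟨fun z => e (s z), fun l => e (φ l), ?_, ?_, ?_, ?_⟩
  · intro z
    have h1 := hs 1 z
    rw [zpow_one] at h1
    rw [h1, map_add, Int.cast_one, map_one]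
  · intro w l
    simp only [φ]
    rw [List.map_map]
    have h1 : (p : Z → Q) ∘ (fun x => w * x) = (fun q => p w * q) ∘ p := by
      funext x
      exact map_mul p w x
    rw [h1, ← List.map_map, homL_mul]
  · intro l₁ x l₂
    simp only [φ, List.map_append, List.map_cons, map_mul, hph, one_mul]
  · intro l hl
    rw [← cobL_map, ← cupE_map]
    congr 1
    obtain ⟨x, rfl⟩ := exists_ofFn (m := n + 2) l (by omega)
    have h1 : cobL φ (List.ofFn x) = cobL (homL ψ) ((List.ofFn x).map p) :=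
      cobL_comp p (homL ψ) (List.ofFn x)
    have h2 := hψ (fun i => (p (x i.castSucc))⁻¹ * p (x i.succ))
    rw [h1, map_ofFn', cob_homL ψ (fun i => p (x i))
      (fun i => (p (x i.castSucc))⁻¹ * p (x i.succ)) (fun i => rfl)]
    refine h2.trans ?_
    exact (cupE_eq hc hp hs hσ x).symm

end Pool.Agent.SUR
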