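import Pool.Agent.SUR.StL

/-!
# The core: weights from the data `B`
-/

set_option autoImplicit false

universe u v

namespace Pool.Agent.SUR

open Pool.Agent.WhK Finset

namespace LCORE_aux

variable {Z : Type u} {R : Type v} [Group Z] [CommRing R]

/-- the functions on closed words which are constants of weights of degree at most `r` -/
def VV (c : Z) (r : ℕ) (φ : FreeMonoid Z → R) : Prop :=
  ∃ W : FreeMonoid Z → FreeMonoid Z → R, IsWtA W ∧ (∀ a b, W a b ≠ 0 → th Z (a * b) = c) ∧
    (∀ y, th Z y = c → W 1 y = φ y) ∧ DegV (th Z) r W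

theorem altS_add {A : Type*} [AddCommGroup A] {K : ℕ} (f g : (Fin K → Bool) → A) :
    altS (fun ε => f ε + g ε) = altS f + altS g := by
  unfold altS
  rw [← Finset.sum_add_distrib]
  exact Finset.sum_congr rfl fun ε _ => smul_add _ _ _

theorem altS_zero {A : Type*} [AddCommGroup A] {K : ℕ} :
    altS (fun _ : Fin K → Bool => (0 : A)) = 0 := by
  unfold altS
  exact Finset.sum_eq_zero fun ε _ => smul_zero _

theorem altS_mul {K : ℕ} (x : R) (f : (Fin K → Bool) → R) :
    altS (fun ε => x * f ε) = x * altS f := by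
  unfold altS
  rw [Finset.mul_sum]
  exact Finset.sum_congr rfl fun ε _ => mul_smul_comm _ _ _ |>.symm

theorem VV.congr {c : Z} {r : ℕ} {φ ψ : FreeMonoid Z → R} (h : VV c r φ)
    (hφ : ∀ y, th Z y = c → φ y = ψ y) : VV c r ψ := by
  obtain ⟨W, h1, h2, h3, h4⟩ := h
  exact ⟨W, h1, h2, fun y hy => (h3 y hy).trans (hφ y hy), h4⟩

theorem VV.add {c : Z} {r : ℕ} {φ ψ : FreeMonoid Z → R} (h : VV c r φ) (h' : VV c r ψ) :
    VV c r (fun y => φ y + ψ y) := by
  obtain ⟨W, h1, h2, h3, h4⟩ := h
  obtain ⟨W', h1', h2', h3', h4'⟩ := h'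
  refine ⟨fun a b => W a b + W' a b, fun x y z => ?_, fun a b hab => ?_, fun y hy => ?_,
    fun d d' hd hd' => ?_⟩
  · show W x (y * z) + W' x (y * z) = W (x * y) z + W' (x * y) z + (W (z * x) y + W' (z * x) y)
    rw [h1 x y z, h1' x y z]
    abel
  · by_contra hc
    have e1 : W a b = 0 := by
      by_contra h0
      exact hc (h2 a b h0)
    have e2 : W' a b = 0 := by
      by_contra h0
      exact hc (h2' a b h0)
    exact hab (by
      show W a b + W' a b = 0
      rw [e1, e2, add_zero])
  · show W 1 y + W' 1 y = φ y + ψ y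
    rw [h3 y hy, h3' y hy]
  · rw [altS_add (fun ε => W (d ε) (d' ε)) (fun ε => W' (d ε) (d' ε)), h4 d d' hd hd',
      h4' d d' hd hd', add_zero]

theorem VV.mul {c : Z} {r : ℕ} {φ : FreeMonoid Z → R} (x : R) (h : VV c r φ) :
    VV c r (fun y => x * φ y) := by
  obtain ⟨W, h1, h2, h3, h4⟩ := h
  refine ⟨fun a b => x * W a b, fun a b z => ?_, fun a b hab => ?_, fun y hy => ?_,
    fun d d' hd hd' => ?_⟩
  · show x * W a (b * z) = x * W (a * b) z + x * W (z * a) b
    rw [h1 a b z, mul_add]
  · refine h2 a b fun h0 => hab ?_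
    show x * W a b = 0
    rw [h0, mul_zero]
  · show x * W 1 y = x * φ y
    rw [h3 y hy]
  · rw [altS_mul x (fun ε => W (d ε) (d' ε)), h4 d d' hd hd', mul_zero]

theorem VV.zero (c : Z) (r : ℕ) : VV c r (fun _ => (0 : R)) := by
  refine ⟨fun _ _ => 0, fun a b z => (add_zero _).symm, fun a b h => absurd rfl h, fun _ _ => rfl,
    fun d d' _ _ => altS_zero⟩

theorem VV.neg {c : Z} {r : ℕ} {φ : FreeMonoid Z → R} (h : VV c r φ) :
    VV c r (fun y => -φ y) :=
  (h.mul (-1)).congr fun y _ => by rw [neg_one_mul]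

theorem VV.sub {c : Z} {r : ℕ} {φ ψ : FreeMonoid Z → R} (h : VV c r φ) (h' : VV c r ψ) :
    VV c r (fun y => φ y - ψ y) :=
  (h.add h'.neg).congr fun y _ => by rw [sub_eq_add_neg]

theorem VV.sum {c : Z} {r : ℕ} {ι : Type*} (s : Finset ι) (φ : ι → FreeMonoid Z → R)
    (h : ∀ i ∈ s, VV c r (φ i)) : VV c r (fun y => ∑ i ∈ s, φ i y) := by
  classical
  induction s using Finset.induction_on with
  | empty => exact (VV.zero c r).congr fun y _ => by rw [Finset.sum_empty]
  | insert i s hi ih =>
    refine ((h i (Finset.mem_insert_self _ _)).add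
      (ih fun j hj => h j (Finset.mem_insert_of_mem hj))).congr fun y _ => ?_
    rw [Finset.sum_insert hi]

/-- sums over kernels are in `VV` -/
theorem VV.ker (hM : s_LMSUM.{u, v}) (hW : s_LKERW.{u, v}) (hD : s_LKERD.{u, v}) {c : Z}
    (hc : ∀ z, c * z = z * c) {s r : ℕ} (K : (Fin (s + 1) → Z × Z) → R) (hK : IsKer c K)
    (hs : s < r) :
    VV c r (fun y => ∑ j : Fin (s + 1) → Fin (eds 1 (FreeMonoid.toList y)).length,
      K fun i => (eds 1 (FreeMonoid.toList y)).get (j i)) := by
  obtain ⟨h1, h2, h3⟩ := hW Z R c hc s K hK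
  refine ⟨kW c s K, h1, h2, fun y hy => ?_, hD Z R c s r K hs⟩
  rw [h3 y hy, hM]

/-- the number of edges -/
abbrev J (y : FreeMonoid Z) : Type := Fin (eds 1 (FreeMonoid.toList y)).length

/-- the edges -/
def E (y : FreeMonoid Z) (j : J y) : Z × Z := (eds 1 (FreeMonoid.toList y)).get j

theorem lsum_eq (y : FreeMonoid Z) (f : Z × Z → R) :
    lsum (eds 1 (FreeMonoid.toList y)) f = ∑ j : J y, f (E y j) := by
  unfold lsum E
  rw [← List.sum_ofFn]
  congr 1
  apply List.ext_get
  · simp
  · intro k h1 h2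
    simp

/-- the sums `g π` -/
def gg (B : Z → Z → R) {r : ℕ} (π : Equiv.Perm (Fin r)) (y : FreeMonoid Z) : R :=
  ∑ j : Fin r → J y, ∏ a, PB B (E y (j a)) (E y (j (π a)))

/-- the determinant of a product of two matrices with a small inner dimension -/
theorem det_zero {r : ℕ} {ι : Type} [Fintype ι] (hι : Fintype.card ι < r)
    (x : Fin r → ι → R) (y : Fin r → ι → R) :
    Matrix.det (Matrix.of fun a b => ∑ i, x a i * y b i) = 0 := by
  classical
  obtain ⟨f⟩ : Nonempty (ι ↪ Fin r) := by
    apply Function.Embedding.nonempty_of_card_le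
    rw [Fintype.card_fin]
    exact hι.le
  -- an index outside of the range
  obtain ⟨k, hk⟩ : ∃ k : Fin r, k ∉ Set.range f := by
    by_contra hcon
    push Not at hcon
    have h1 : Function.Surjective f := fun k => hcon k
    have h2 := Fintype.card_le_of_surjective f h1
    rw [Fintype.card_fin] at h2
    omega
  let X' : Matrix (Fin r) (Fin r) R := Matrix.of fun a k => if h : ∃ i, f i = k then x a h.choose else 0
  let Y' : Matrix (Fin r) (Fin r) R := Matrix.of fun k b => if h : ∃ i, f i = k then y b h.choose else 0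
  have hch : ∀ i (h : ∃ i', f i' = f i), h.choose = i := fun i h => f.injective h.choose_spec
  have hXY : (Matrix.of fun a b => ∑ i, x a i * y b i) = X' * Y' := by
    ext a b
    rw [Matrix.mul_apply, Matrix.of_apply]
    have h1 : ∀ k, k ∉ Finset.univ.map f → X' a k * Y' k b = 0 := by
      intro k hk
      have h2 : ¬∃ i, f i = k := by
        rintro ⟨i, rfl⟩
        exact hk (Finset.mem_map_of_mem f (Finset.mem_univ i))
      show (if h : ∃ i, f i = k then x a h.choose else 0) * _ = 0
      rw [dif_neg h2, zero_mul]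
    rw [← Finset.sum_subset (Finset.subset_univ (Finset.univ.map f)) fun k _ hk => h1 k hk,
      Finset.sum_map]
    refine Finset.sum_congr rfl fun i _ => ?_
    have h2 : ∃ i', f i' = f i := ⟨i, rfl⟩
    show _ = (if h : ∃ i', f i' = f i then x a h.choose else 0) *
      (if h : ∃ i', f i' = f i then y b h.choose else 0)
    rw [dif_pos h2, dif_pos h2, hch i h2]
  rw [hXY, Matrix.det_mul]
  have h3 : X'.det = 0 := by
    refine Matrix.det_eq_zero_of_column_eq_zero k fun a => ?_
    show (if h : ∃ i, f i = k then x a h.choose else 0) = 0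
    rw [dif_neg]
    exact hk
  rw [h3, zero_mul]

end LCORE_aux

open LCORE_aux

theorem t_LCORE (hM : s_LMSUM.{u, v}) (hW : s_LKERW.{u, v}) (hD : s_LKERD.{u, v})
    (hA : s_LALT.{v}) (hE : s_LEDG.{u, v}) : s_LCORE.{u, v} := by
  intro Z R _ _ c hc v B hB m ι _ X Y hι hBXY
  classical
  obtain ⟨hKA, hKT, hcl⟩ := hE Z R c hc v B hB
  set r := m + 1 with hr
  -- (a)
  have ha : ∀ (π : Equiv.Perm (Fin r)) (i i' : Fin r), i ≠ i' →
      VV c r (fun y => gg B π y + gg B (Equiv.swap i i' * π) y) := by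
    intro π i i' hii
    have h1 := VV.ker hM hW hD hc (s := m) (r := r) (KA (PB B) π i i') (hKA r π i i') (by omega)
    refine h1.congr fun y hy => ?_
    have h2 := hA (J y) R r (fun j k => PB B (E y j) (E y k)) (fun k => ?_) π i i' hii
    · exact h2.symm
    · rw [← lsum_eq y (fun e => PB B e (E y k))]
      exact (hcl y hy).1 _
  -- (b)
  have hb : ∀ π : Equiv.Perm (Fin r),
      VV c r (fun y => gg B π y - ((Equiv.Perm.sign π : ℤ) : R) * gg B (1 : Equiv.Perm (Fin r)) y) := by
    intro π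
    induction π using Equiv.Perm.swap_induction_on with
    | one =>
      refine (VV.zero c r).congr fun y _ => ?_
      rw [Equiv.Perm.sign_one]
      simp
    | swap_mul π i i' hii ih =>
      refine ((ha π i i' hii).sub ih).congr fun y _ => ?_
      rw [Equiv.Perm.sign_mul, Equiv.Perm.sign_swap hii]
      push_cast
      ring
  -- (c)
  have hcd : ∀ y, ∑ π : Equiv.Perm (Fin r), ((Equiv.Perm.sign π : ℤ) : R) * gg B π y = 0 := by
    intro y
    have h1 : ∀ j : Fin r → J y, ∑ π : Equiv.Perm (Fin r), ((Equiv.Perm.sign π : ℤ) : R) *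
        ∏ a, PB B (E y (j a)) (E y (j (π a))) = 0 := by
      intro j
      have h2 := det_zero (R := R) (r := r) (ι := ι) (by omega)
        (fun a i => X i ((E y (j a)).1 * (E y (j a)).2) - X i (E y (j a)).1)
        (fun b i => Y i ((E y (j b)).1 * (E y (j b)).2))
      rw [← Matrix.det_transpose, Matrix.det_apply'] at h2
      rw [← h2]
      refine Finset.sum_congr rfl fun π _ => ?_
      congr 1
      refine Finset.prod_congr rfl fun a _ => ?_
      rw [Matrix.transpose_apply, Matrix.of_apply]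
      unfold PB
      rw [hBXY, hBXY, ← Finset.sum_sub_distrib]
      exact Finset.sum_congr rfl fun i _ => (sub_mul _ _ _).symm
    unfold gg
    simp_rw [Finset.mul_sum]
    rw [Finset.sum_comm]
    exact Finset.sum_eq_zero fun j _ => h1 j
  have hfac : VV c r (fun y => ((r.factorial : ℕ) : R) * gg B (1 : Equiv.Perm (Fin r)) y) := by
    have h1 := VV.sum (c := c) (r := r) (Finset.univ : Finset (Equiv.Perm (Fin r)))
      (fun π y => ((Equiv.Perm.sign π : ℤ) : R) *
        (gg B π y - ((Equiv.Perm.sign π : ℤ) : R) * gg B (1 : Equiv.Perm (Fin r)) y))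
      (fun π _ => (hb π).mul _)
    refine h1.neg.congr fun y _ => ?_
    have h2 : ∀ π : Equiv.Perm (Fin r), ((Equiv.Perm.sign π : ℤ) : R) *
        (gg B π y - ((Equiv.Perm.sign π : ℤ) : R) * gg B (1 : Equiv.Perm (Fin r)) y) =
        ((Equiv.Perm.sign π : ℤ) : R) * gg B π y - gg B (1 : Equiv.Perm (Fin r)) y := by
      intro π
      have h3 : ((Equiv.Perm.sign π : ℤ) : R) * ((Equiv.Perm.sign π : ℤ) : R) = 1 := by
        rw [← Int.cast_mul]
        have h4 : ((Equiv.Perm.sign π : ℤ)) * ((Equiv.Perm.sign π : ℤ)) = 1 := by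
          rw [← Units.val_mul, Int.units_mul_self, Units.val_one]
        rw [h4, Int.cast_one]
      rw [mul_sub, ← mul_assoc, h3, one_mul]
    rw [Finset.sum_congr rfl fun π _ => h2 π, Finset.sum_sub_distrib, hcd y, zero_sub, neg_neg,
      Finset.sum_const, Finset.card_univ, Fintype.card_perm, Fintype.card_fin, nsmul_eq_mul]
  -- (d)
  set τ : FreeMonoid Z → R := fun y => ∑ j : J y, PB B (E y j) (E y j) with hτ
  have hg1 : ∀ y, gg B (1 : Equiv.Perm (Fin r)) y = τ y ^ r := by
    intro y
    show ∑ j : Fin r → J y, ∏ a, PB B (E y (j a)) (E y (j a)) = (∑ j : J y, PB B (E y j) (E y j)) ^ r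
    have h1 := Finset.prod_univ_sum (fun _ : Fin r => (Finset.univ : Finset (J y)))
      (fun _ j => PB B (E y j) (E y j))
    rw [Finset.prod_const, Finset.card_univ, Fintype.card_fin, Fintype.piFinset_univ] at h1
    exact h1.symm
  -- (e)
  have hvτ : ∀ s, s < r → VV c r (fun y => (v - τ y) * τ y ^ s) := by
    intro s hs
    have h1 := VV.ker hM hW hD hc (s := s) (r := r) (KT B 1) (hKT s) hs
    refine h1.congr fun y hy => ?_
    obtain ⟨h2, h3⟩ := hcl y hy
    have h4 : ∑ j : J y, B 1 (E y j).2 = v - τ y := by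
      rw [lsum_eq y (fun e => B 1 e.2), lsum_eq y (fun e => PB B e e)] at h3
      rw [← h3]
      exact (add_sub_cancel_right _ _).symm
    rw [← h4]
    rw [← (Fin.consEquiv fun _ : Fin (s + 1) => J y).sum_comp, Fintype.sum_prod_type,
      Finset.sum_mul]
    refine Finset.sum_congr rfl fun j0 _ => ?_
    have h5 : ∀ t : Fin s → J y, KT B 1 (fun i => (eds 1 (FreeMonoid.toList y)).get
        ((Fin.consEquiv fun _ : Fin (s + 1) => J y) (j0, t) i)) =
        B 1 (E y j0).2 * ∏ l : Fin s, (PB B (E y (t l)) (E y (t l)) - PB B (E y (t l)) (E y j0)) := by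
      intro t
      rfl
    rw [Finset.sum_congr rfl fun t _ => h5 t, ← Finset.mul_sum]
    congr 1
    have h6 := Finset.prod_univ_sum (fun _ : Fin s => (Finset.univ : Finset (J y)))
      (fun _ j => PB B (E y j) (E y j) - PB B (E y j) (E y j0))
    rw [Finset.prod_const, Finset.card_univ, Fintype.card_fin, Fintype.piFinset_univ] at h6
    rw [← h6, Finset.sum_sub_distrib]
    have h7 : ∑ j : J y, PB B (E y j) (E y j0) = 0 := by
      rw [← lsum_eq y (fun e => PB B e (E y j0))]
      exact h2 _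
    rw [h7, sub_zero]
  have hvr : VV c r (fun y => v ^ r - τ y ^ r) := by
    have h1 := VV.sum (c := c) (r := r) (Finset.range r)
      (fun i y => v ^ i * ((v - τ y) * τ y ^ (r - 1 - i)))
      (fun i hi => (hvτ (r - 1 - i) (by
        have := Finset.mem_range.1 hi
        omega)).mul _)
    refine h1.congr fun y _ => ?_
    rw [← (Commute.all v (τ y)).mul_geom_sum₂ r, Finset.mul_sum]
    refine Finset.sum_congr rfl fun i _ => ?_
    ring
  obtain ⟨W, h1, h2, h3, h4⟩ := (hfac.add (hvr.mul ((r.factorial : ℕ) : R)))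
  refine ⟨W, ⟨h1, h2, fun a ha => ?_⟩, h4⟩
  rw [h3 a ha]
  show (r.factorial : R) * gg B (1 : Equiv.Perm (Fin r)) a + (r.factorial : R) * (v ^ r - τ a ^ r) =
    (r.factorial : R) * v ^ r
  rw [hg1]
  ring

end Pool.Agent.SUR
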