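import Pool.Agent.SUR.StE

/-!
# The cup powers of the Euler cocycle are cocycles (`LIN_CUP`)
-/

set_option autoImplicit false

universe u v

namespace Pool.Agent.SUR

open Pool.Agent.WhK Finset

/-- the coboundary of a list with a first point -/
theorem cobL_cons {Z R : Type*} [CommRing R] (φ : List Z → R) (x : Z) (l : List Z) :
    cobL φ (x :: l) = φ l - cobL (fun l' => φ (x :: l')) l := by
  unfold cobL
  rw [List.length_cons, Finset.sum_range_succ']
  simp only [pow_zero, one_mul, List.eraseIdx_cons_zero, List.eraseIdx_cons_succ, pow_succ]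
  have : (∑ i ∈ range l.length, (-1 : R) ^ i * -1 * φ (x :: l.eraseIdx i)) =
      -∑ i ∈ range l.length, (-1 : R) ^ i * φ (x :: l.eraseIdx i) := by
    rw [← Finset.sum_neg_distrib]
    exact Finset.sum_congr rfl fun i _ => by ring
  rw [this]
  ring

/-- the coboundary of a multiple -/
theorem cobL_smul {Z R : Type*} [CommRing R] (a : R) (φ : List Z → R) (l : List Z) :
    cobL (fun l' => a * φ l') l = a * cobL φ l := by
  unfold cobL
  rw [Finset.mul_sum]
  exact Finset.sum_congr rfl fun i _ => by ring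

/-- the Euler cocycle is a cocycle -/
theorem eu_cocycle {Z R : Type*} [Group Z] [CommRing R] (s : Z → R) (x₀ x₁ x₂ x₃ : Z) :
    eu s x₁ x₂ x₃ - eu s x₀ x₂ x₃ + eu s x₀ x₁ x₃ - eu s x₀ x₁ x₂ = 0 := by
  unfold eu
  ring

/-- LCUP -/
theorem t_LCUP : s_LCUP.{u, v} := by
  intro Z R _ _ s r
  induction r with
  | zero =>
    intro l hl
    match l, hl with
    | [x₀, x₁], _ =>
      have h0 : cobL (fun l' : List Z => cupE s (x₀ :: x₁ :: l')) [] = 0 := by
        unfold cobL
        simp
      rw [cobL_cons, cobL_cons, h0]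
      have c1 : cupE s [x₁] = 1 := rfl
      have c2 : cupE s [x₀] = 1 := rfl
      rw [c1, c2]
      ring
  | succ r ih =>
    intro l hl
    match l, hl with
    | x₀ :: x₁ :: x₂ :: x₃ :: l, hl =>
      have h2 : (x₂ :: x₃ :: l).length = 2 * r + 2 := by
        simp only [List.length_cons] at hl ⊢
        omega
      have e2 := ih _ h2
      rw [cobL_cons] at e2
      have e3 : cobL (fun l' => cupE s (x₀ :: x₁ :: x₂ :: l')) (x₃ :: l) =
          eu s x₀ x₁ x₂ * cobL (fun l' => cupE s (x₂ :: l')) (x₃ :: l) := by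
        rw [← cobL_smul]
        rfl
      rw [cobL_cons, cobL_cons, cobL_cons, e3]
      have e4 : cobL (fun l' => cupE s (x₂ :: l')) (x₃ :: l) = cupE s (x₃ :: l) :=
        (sub_eq_zero.1 e2).symm
      rw [e4]
      have hc := eu_cocycle s x₀ x₁ x₂ x₃
      have c1 : cupE s (x₁ :: x₂ :: x₃ :: l) = eu s x₁ x₂ x₃ * cupE s (x₃ :: l) := rfl
      have c2 : cupE s (x₀ :: x₂ :: x₃ :: l) = eu s x₀ x₂ x₃ * cupE s (x₃ :: l) := rfl
      have c3 : cupE s (x₀ :: x₁ :: x₃ :: l) = eu s x₀ x₁ x₃ * cupE s (x₃ :: l) := rfl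
      rw [c1, c2, c3]
      linear_combination cupE s (x₃ :: l) * hc

end Pool.Agent.SUR
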