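import Pool.Agent.SUR.StL

/-!
# LEDG: the pairing of edges
-/

set_option autoImplicit false

universe u v

namespace Pool.Agent.SUR

open Finset

namespace LEDGaux

variable {Z : Type u} {R : Type v} [Group Z] [CommRing R] {c : Z} {v : R} {B : Z → Z → R}

theorem one' (h : IsB c v B) (w : Z) : B w 1 = 0 := by
  have := h.mul w 1 1
  simpa using this

theorem cmul (h : IsB c v B) (w t : Z) : B w (c * t) = v + B w t := by
  rw [h.mul w c t, h.val]
  congr 1
  have := h.inv (c⁻¹ * w) t
  rw [mul_inv_cancel_left] at this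
  exact this.symm

theorem tr (h : IsB c v B) (w x t : Z) : B (w * x) (w * t) = B (w * x) w + B x t := by
  rw [h.mul (w * x) w t, inv_mul_cancel_left]

theorem pb_tr (h : IsB c v B) (w : Z) (e e' : Z × Z) :
    PB B (w * e.1, e.2) (w * e'.1, e'.2) =
      PB B e e' + (B (w * (e.1 * e.2)) w - B (w * e.1) w) := by
  simp only [PB, mul_assoc]
  rw [tr h w (e.1 * e.2) (e'.1 * e'.2), tr h w e.1 (e'.1 * e'.2)]
  ring

theorem pb_cl (h : IsB c v B) (e e' : Z × Z) : PB B (c * e.1, e.2) e' = PB B e e' := by
  simp only [PB, mul_assoc]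
  rw [h.inv, h.inv]

theorem pb_cr (h : IsB c v B) (e e' : Z × Z) : PB B e (c * e'.1, e'.2) = PB B e e' := by
  simp only [PB, mul_assoc]
  rw [cmul h, cmul h]
  ring

theorem pb_or (h : IsB c v B) (e e' f f' : Z × Z) (h1 : f = e ∨ f = (c * e.1, e.2))
    (h2 : f' = e' ∨ f' = (c * e'.1, e'.2)) : PB B f f' = PB B e e' := by
  rcases h1 with rfl | rfl <;> rcases h2 with rfl | rfl
  · rfl
  · exact pb_cr h _ _
  · exact pb_cl h _ _
  · rw [pb_cl h, pb_cr h]

theorem upd_or {s : ℕ} (i : Fin s) (e : Fin s → Z × Z) (j : Fin s) :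
    Function.update e i (c * (e i).1, (e i).2) j = e j ∨
      Function.update e i (c * (e i).1, (e i).2) j = (c * (e j).1, (e j).2) := by
  by_cases hj : j = i
  · subst hj; right; simp
  · left; rw [Function.update_of_ne hj]

theorem tele (l : List Z) : ∀ (q : Z) (e' : Z × Z),
    lsum (eds q l) (fun e => PB B e e') =
      B (q * l.prod) (e'.1 * e'.2) - B q (e'.1 * e'.2) := by
  induction l with
  | nil => intro q e'; simp [eds, lsum]
  | cons z l ih =>
    intro q e'
    have : lsum (eds q (z :: l)) (fun e => PB B e e') =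
        PB B (q, z) e' + lsum (eds (q * z) l) (fun e => PB B e e') := by
      simp [eds, lsum]
    rw [this, ih (q * z) e', List.prod_cons, PB]
    rw [← mul_assoc]
    ring

theorem tele2 (h : IsB c v B) (l : List Z) : ∀ q : Z,
    lsum (eds q l) (fun e => B 1 e.2) + lsum (eds q l) (fun e => PB B e e) =
      B (q * l.prod) (q * l.prod) - B q q := by
  induction l with
  | nil => intro q; simp [eds, lsum]
  | cons z l ih =>
    intro q
    have h1 : lsum (eds q (z :: l)) (fun e => PB B e e) =
        PB B (q, z) (q, z) + lsum (eds (q * z) l) (fun e => PB B e e) := by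
      simp [eds, lsum]
    have h2 : lsum (eds q (z :: l)) (fun e => B 1 e.2) =
        B 1 z + lsum (eds (q * z) l) (fun e => B 1 e.2) := by
      simp [eds, lsum]
    have h3 : B q (q * z) = B q q + B 1 z := by
      rw [h.mul q q z, inv_mul_cancel]
    have h4 := ih (q * z)
    have h5 : PB B (q, z) (q, z) = B (q * z) (q * z) - B q (q * z) := rfl
    rw [h1, h2, h5, List.prod_cons, ← mul_assoc, h3]
    linear_combination h4

end LEDGaux

open LEDGaux

theorem t_LEDG : s_LEDG.{u, v} := by
  intro Z R _ _ c hc v B h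
  refine ⟨fun r π i i' => ⟨?_, ?_⟩, fun s => ⟨?_, ?_⟩, ?_⟩
  · intro w e
    simp only [KA]
    congr 1
    refine Finset.prod_congr rfl fun a _ => ?_
    split_ifs
    · rw [pb_tr h, pb_tr h]; ring
    · rw [pb_tr h, pb_tr h]; ring
  · intro j e
    simp only [KA]
    congr 1
    refine Finset.prod_congr rfl fun a _ => ?_
    have key : ∀ k l, PB B (Function.update e j (c * (e j).1, (e j).2) k)
        (Function.update e j (c * (e j).1, (e j).2) l) = PB B (e k) (e l) :=
      fun k l => pb_or h _ _ _ _ (upd_or j e k) (upd_or j e l)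
    simp only [key]
  · intro w e
    simp only [KT]
    congr 1
    refine Finset.prod_congr rfl fun a _ => ?_
    rw [pb_tr h, pb_tr h]; ring
  · intro j e
    simp only [KT]
    have key : ∀ k l, PB B (Function.update e j (c * (e j).1, (e j).2) k)
        (Function.update e j (c * (e j).1, (e j).2) l) = PB B (e k) (e l) :=
      fun k l => pb_or h _ _ _ _ (upd_or j e k) (upd_or j e l)
    have h2 : (Function.update e j (c * (e j).1, (e j).2) 0).2 = (e 0).2 := by
      rcases upd_or (c := c) j e 0 with h | h <;> rw [h]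
    simp only [key, h2]
  · intro y hy
    have hp : (FreeMonoid.toList y).prod = c := by
      rw [← hy, th, FreeMonoid.lift_apply, List.map_id]
    refine ⟨fun e' => ?_, ?_⟩
    · rw [tele, hp, one_mul]
      have := h.inv 1 (e'.1 * e'.2)
      rw [mul_one] at this
      rw [this, sub_self]
    · rw [tele2 h, hp, one_mul, h.val, one' h, sub_zero]

end Pool.Agent.SUR
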