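import Pool.Agent.SUR.StL
import Pool.Agent.SUR.EIGG

/-!
# LIN_EIG: a homomorphism to the integers from an eigenvalue which is not a root of unity
-/

set_option autoImplicit false

universe u

namespace Pool.Agent.SUR

open Pool.Agent.WhK

namespace LEIGx

variable {F : Type u} [Field F] {L : Type u} [Field L] [Algebra F L] {n : ℕ}

/-- a homomorphism to matrices over `F` with entries in a subfield of `L` -/
def jm2 (E : Subfield L) {Z : Type u} [Group Z] (ρ : Z →* Matrix (Fin n) (Fin n) F)
    (hE : ∀ z i j, algebraMap F L (ρ z i j) ∈ E) : Z →* Matrix (Fin n) (Fin n) E where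
  toFun z := Matrix.of fun i j => ⟨algebraMap F L (ρ z i j), hE z i j⟩
  map_one' := by
    ext i j
    simp only [Matrix.of_apply, map_one, Matrix.one_apply]
    split_ifs <;> simp
  map_mul' := by
    intro a b
    ext i j
    simp only [Matrix.of_apply, map_mul, Matrix.mul_apply, map_sum]
    push_cast
    rfl

end LEIGx

open EIG_aux EIGG_aux LEIGx in
/-- LIN_EIG -/
theorem t_LEIG (hVALG : s_VALG.{u}) : s_LEIG.{u} := by
  intro F _ S hS n Z _ c hc ρ hρ hun
  classical
  let L : Type u := AlgebraicClosure F
  let M : Matrix (Fin n) (Fin n) L := (ρ c).map (algebraMap F L)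
  -- an eigenvalue which is not a root of unity
  obtain ⟨t, ht, hroot⟩ : ∃ t ∈ M.charpoly.roots, ∀ k : ℕ, 0 < k → t ^ k ≠ 1 := by
    by_contra hcon
    push Not at hcon
    obtain ⟨k, hk, hMk⟩ := unipotent n M hcon
    have hinj : Function.Injective (fun A : Matrix (Fin n) (Fin n) F => A.map (algebraMap F L)) :=
      Matrix.map_injective (algebraMap F L).injective
    have h1 : (((ρ c ^ k) - 1) ^ n) = 0 := by
      apply hinj
      change (algebraMap F L).mapMatrix (((ρ c ^ k) - 1) ^ n) =
        (algebraMap F L).mapMatrix 0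
      rw [map_pow, map_sub, map_pow, map_one, map_zero]
      exact hMk
    exact hun k hk ⟨n, h1⟩
  let S0 : Set L := {t} ∪ (algebraMap F L) '' S
  have hS0 : S0.Finite := (Set.finite_singleton t).union (hS.image _)
  let E0 : Subfield L := Subfield.closure S0
  have hent : ∀ x ∈ Subring.closure S, algebraMap F L x ∈ E0 := by
    intro x hx
    induction hx using Subring.closure_induction with
    | mem x hx => exact Subfield.subset_closure (Or.inr ⟨x, hx, rfl⟩)
    | zero => rw [map_zero]; exact E0.zero_mem
    | one => rw [map_one]; exact E0.one_mem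
    | add x y _ _ h1 h2 => rw [map_add]; exact E0.add_mem h1 h2
    | neg x _ h => rw [map_neg]; exact E0.neg_mem h
    | mul x y _ _ h1 h2 => rw [map_mul]; exact E0.mul_mem h1 h2
  have hG : ∀ z i j, algebraMap F L (ρ z i j) ∈ E0 := fun z i j => hent _ (hρ z i j)
  have htE : t ∈ E0 := Subfield.subset_closure (Or.inl rfl)
  let tE : E0 := ⟨t, htE⟩
  let rep : Z →* Module.End E0 (Fin n → E0) :=
    (Matrix.toLinAlgEquiv' : Matrix (Fin n) (Fin n) E0 ≃ₐ[E0] _).toMulEquiv.toMonoidHom.comp
      (jm2 E0 ρ hG)
  have hrep : ∀ z, rep z = Matrix.toLin' (jm2 E0 ρ hG z) := fun z => rfl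
  -- `tE` is an eigenvalue
  have hroot2 : (jm2 E0 ρ hG c).charpoly.IsRoot tE := by
    have h1 := (Polynomial.mem_roots'.1 ht).2
    have h2 : M.charpoly = ((jm2 E0 ρ hG c).charpoly).map E0.subtype := by
      rw [← Matrix.charpoly_map]
      rfl
    rw [h2, Polynomial.IsRoot.def, Polynomial.eval_map] at h1
    have h3 : Polynomial.eval₂ E0.subtype (E0.subtype tE) (jm2 E0 ρ hG c).charpoly = 0 := h1
    rw [Polynomial.eval₂_at_apply] at h3
    rw [Polynomial.IsRoot.def]
    exact (map_eq_zero_iff _ E0.subtype.injective).1 h3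
  have heig : Module.End.HasEigenvalue (rep c) tE := by
    rw [Module.End.hasEigenvalue_iff_isRoot_charpoly, hrep, Matrix.charpoly_toLin']
    exact hroot2
  let V : Submodule E0 (Fin n → E0) := (rep c).maxGenEigenspace tE
  have hV : V ≠ ⊥ := by
    intro h0
    refine heig ?_
    rw [eq_bot_iff, ← h0]
    exact Module.End.genEigenspace_le_maximal _ _ _
  have hcomm : ∀ z : Z, Commute (rep c) (rep z) := by
    intro z
    have h1 : Commute c z := hc z
    exact h1.map rep
  have hmaps : ∀ z : Z, ∀ v ∈ V, rep z v ∈ V := fun z v hv =>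
    Module.End.mapsTo_maxGenEigenspace_of_comm (hcomm z) tE hv
  let dV : Z →* E0 :=
    { toFun := fun z => LinearMap.det ((rep z).restrict (hmaps z))
      map_one' := by
        have h1 : (rep (1 : Z)).restrict (hmaps 1) =
            (LinearMap.id : V →ₗ[E0] V) := by
          ext1 v
          apply Subtype.ext
          change rep 1 (v : Fin n → E0) = v
          rw [map_one]
          rfl
        rw [h1]
        exact LinearMap.det_id
      map_mul' := by
        intro a b
        rw [← LinearMap.det_comp]
        congr 1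
        ext1 v
        apply Subtype.ext
        change rep (a * b) (v : Fin n → E0) = rep a (rep b v)
        rw [map_mul]
        rfl }
  have hdet : dV c = tE ^ Module.finrank E0 V := by
    have hN := Module.End.isNilpotent_restrict_maxGenEigenspace_sub_algebraMap (rep c) tE
    rw [← det_add_nil tE _ hN]
    change LinearMap.det _ = _
    congr 1
    ext1 v
    apply Subtype.ext
    change rep c (v : Fin n → E0) = tE • (v : Fin n → E0) + (rep c v - tE • (v : Fin n → E0))
    abel
  have hpos : 0 < Module.finrank E0 V := by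
    rw [Module.finrank_pos_iff]
    exact Submodule.nontrivial_iff_ne_bot.2 hV
  have hord : ¬IsOfFinOrder (dV.toHomUnits c) := by
    intro hfin
    obtain ⟨m, hm, h1⟩ := isOfFinOrder_iff_pow_eq_one.1 hfin
    have h2 := congrArg (fun x : E0ˣ => (x : E0)) h1
    simp only [Units.val_pow_eq_pow_val, MonoidHom.coe_toHomUnits, Units.val_one] at h2
    rw [hdet, ← pow_mul] at h2
    apply hroot (Module.finrank E0 V * m) (Nat.mul_pos hpos hm)
    have h3 := congrArg (fun x : E0 => (x : L)) h2
    simpa using h3
  obtain ⟨f, hf⟩ := hVALG E0 ((fun x : E0 => (x : L)) ⁻¹' S0)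
    (hS0.preimage Subtype.val_injective.injOn) (closure_top S0) (dV.toHomUnits c) hord
  exact ⟨f.comp dV.toHomUnits, hf⟩

end Pool.Agent.SUR
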