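import Pool.Agent.SUR.StL
import Pool.Agent.SUR.Bil

/-!
# The ideal `IK K` and functions of degree at most `r`
-/

set_option autoImplicit false

universe u v

namespace Pool.Agent.SUR

open Finset

section

variable {𝔐 𝔔 : Type*} [Monoid 𝔐] [Monoid 𝔔] {θ : 𝔐 →* 𝔔} {S : Type*}

theorem cub_theta {c : (S → Bool) → 𝔐} (h : Cub θ c) (ε ε' : S → Bool) : θ (c ε) = θ (c ε') := by
  induction h with
  | const a => rfl
  | slot s a a' h =>
    have h1 : ∀ b : Bool, θ (if b then a' else a) = θ a := by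
      intro b
      cases b
      · rfl
      · exact h.symm
    exact (h1 (ε s)).trans (h1 (ε' s)).symm
  | mul c c' h h' ih ih' =>
    show θ (c ε * c' ε) = θ (c ε' * c' ε')
    rw [map_mul, map_mul, ih, ih']

theorem cub_pow {c : (S → Bool) → 𝔐} (h : Cub θ c) (k : ℕ) : Cub θ fun ε => c ε ^ k := by
  induction k with
  | zero =>
    simp only [pow_zero]
    exact Cub.const 1
  | succ k ih =>
    simp only [pow_succ]
    exact Cub.mul _ _ ih h

theorem sum_sgB {K : ℕ} (hK : 0 < K) : ∑ ε : Fin K → Bool, sgB ε = 0 := by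
  have h1 : ∑ ε : Fin K → Bool, sgB ε = ∏ _i : Fin K, ∑ b : Bool, (if b then (-1 : ℤ) else 1) := by
    rw [Finset.prod_univ_sum]
    simp only [Fintype.piFinset_univ]
    rfl
  rw [h1, Finset.prod_eq_zero (i := (⟨0, hK⟩ : Fin K)) (Finset.mem_univ _)]
  simp

theorem altS_const {A : Type*} [AddCommGroup A] {K : ℕ} (hK : 0 < K) (a : A) :
    altS (fun _ : Fin K → Bool => a) = 0 := by
  unfold altS
  rw [← Finset.sum_smul, sum_sgB hK, zero_smul]

theorem map_altS {A B : Type*} [AddCommGroup A] [AddCommGroup B] {K : ℕ} (φ : A →+ B)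
    (f : (Fin K → Bool) → A) : φ (altS f) = altS fun ε => φ (f ε) := by
  unfold altS
  rw [map_sum]
  exact Finset.sum_congr rfl fun ε _ => map_zsmul φ _ _

/-- a property of elements of `IK K` closed under addition -/
theorem mem_IK_map {K : ℕ} {B : Type*} [AddCommGroup B] (φ : MonoidAlgebra ℤ 𝔐 →+ B)
    (H : AddSubgroup B)
    (h : ∀ c : (Fin K → Bool) → 𝔐, Cub θ c → φ (altS fun ε => MonoidAlgebra.single (c ε) 1) ∈ H)
    {x : MonoidAlgebra ℤ 𝔐} (hx : x ∈ IK θ K) : φ x ∈ H := by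
  have h1 : IK θ K ≤ H.comap φ := by
    refine (AddSubgroup.closure_le _).2 ?_
    rintro _ ⟨c, hc, rfl⟩
    exact h c hc
  exact h1 hx

theorem single_eq (b : 𝔐) (r : ℤ) : MonoidAlgebra.single b r =
    r • (MonoidAlgebra.single b 1 : MonoidAlgebra ℤ 𝔐) := by
  rw [MonoidAlgebra.smul_single, smul_eq_mul, mul_one]

theorem IK_mul {K : ℕ} {x : MonoidAlgebra ℤ 𝔐} (y : MonoidAlgebra ℤ 𝔐) (hx : x ∈ IK θ K) :
    x * y ∈ IK θ K := by
  induction y using MonoidAlgebra.induction_linear with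
  | zero => rw [mul_zero]; exact (IK θ K).zero_mem
  | add y y' hy hy' => rw [mul_add]; exact (IK θ K).add_mem hy hy'
  | single b r =>
    rw [single_eq b r, mul_smul_comm]
    refine (IK θ K).zsmul_mem ?_ r
    refine mem_IK_map (AddMonoidHom.mulRight (MonoidAlgebra.single b 1 : MonoidAlgebra ℤ 𝔐))
      (IK θ K) (fun c hc => ?_) hx
    rw [map_altS]
    refine AddSubgroup.subset_closure ⟨fun ε => c ε * b, Cub.mul _ _ hc (Cub.const b), ?_⟩
    congr 1
    funext ε
    refine (MonoidAlgebra.single_mul_single (c ε) b (1 : ℤ) 1).trans ?_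
    rw [mul_one]

theorem mul_IK {K : ℕ} {x : MonoidAlgebra ℤ 𝔐} (y : MonoidAlgebra ℤ 𝔐) (hx : x ∈ IK θ K) :
    y * x ∈ IK θ K := by
  induction y using MonoidAlgebra.induction_linear with
  | zero => rw [zero_mul]; exact (IK θ K).zero_mem
  | add y y' hy hy' => rw [add_mul]; exact (IK θ K).add_mem hy hy'
  | single b r =>
    rw [single_eq b r, smul_mul_assoc]
    refine (IK θ K).zsmul_mem ?_ r
    refine mem_IK_map (AddMonoidHom.mulLeft (MonoidAlgebra.single b 1 : MonoidAlgebra ℤ 𝔐))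
      (IK θ K) (fun c hc => ?_) hx
    rw [map_altS]
    refine AddSubgroup.subset_closure ⟨fun ε => b * c ε, Cub.mul _ _ (Cub.const b) hc, ?_⟩
    congr 1
    funext ε
    refine (MonoidAlgebra.single_mul_single b (c ε) (1 : ℤ) 1).trans ?_
    rw [mul_one]

theorem map_IK {K : ℕ} (hK : 0 < K) {x : MonoidAlgebra ℤ 𝔐} (hx : x ∈ IK θ K) :
    MonoidAlgebra.mapDomainRingHom ℤ θ x = 0 := by
  refine AddSubgroup.mem_bot.1 (mem_IK_map
    (MonoidAlgebra.mapDomainRingHom ℤ θ).toAddMonoidHom ⊥ (fun c hc => ?_) hx)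
  rw [map_altS, AddSubgroup.mem_bot]
  have h1 : (fun ε => (MonoidAlgebra.mapDomainRingHom ℤ θ).toAddMonoidHom
      (MonoidAlgebra.single (c ε) 1)) = fun _ : Fin K → Bool =>
      MonoidAlgebra.single (θ (c fun _ => true)) (1 : ℤ) := by
    funext ε
    show MonoidAlgebra.mapDomainRingHom ℤ θ (MonoidAlgebra.single (c ε) 1) = _
    rw [MonoidAlgebra.mapDomainRingHom_apply, MonoidAlgebra.mapDomain_single,
      cub_theta hc ε fun _ => true]
  rw [h1]
  exact altS_const hK _

variable {A : Type*} [AddCommGroup A]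

theorem bil_IK_left {r : ℕ} {W : 𝔐 → 𝔐 → A} (hW : DegV θ r W) {x : MonoidAlgebra ℤ 𝔐}
    (y : MonoidAlgebra ℤ 𝔐) (hx : x ∈ IK θ (r + 1)) : bil W x y = 0 := by
  induction y using MonoidAlgebra.induction_linear with
  | zero => exact bil_zero_right W x
  | add y y' hy hy' => rw [bil_add_right, hy, hy', add_zero]
  | single b s =>
    rw [single_eq b s, ← bilHom_apply, map_zsmul]
    have h0 : bilHom W x (MonoidAlgebra.single b 1) = 0 := by
      refine AddSubgroup.mem_bot.1 (mem_IK_map ((bilHom W).flip (MonoidAlgebra.single b 1)) ⊥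
        (fun c hc => ?_) hx)
      rw [map_altS, AddSubgroup.mem_bot]
      have h1 : (fun ε => (bilHom W).flip (MonoidAlgebra.single b 1)
          (MonoidAlgebra.single (c ε) 1)) = fun ε => W (c ε) b := by
        funext ε
        show bil W (MonoidAlgebra.single (c ε) 1) (MonoidAlgebra.single b 1) = _
        rw [bil_single, mul_one, one_smul]
      rw [h1]
      exact hW c (fun _ => b) hc (Cub.const b)
    rw [h0, smul_zero]

theorem bil_IK_right {r : ℕ} {W : 𝔐 → 𝔐 → A} (hW : DegV θ r W) {x : MonoidAlgebra ℤ 𝔐}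
    (y : MonoidAlgebra ℤ 𝔐) (hx : x ∈ IK θ (r + 1)) : bil W y x = 0 := by
  rw [← bil_swap W x y]
  exact bil_IK_left (W := fun a b => W b a) (fun c c' hc hc' => hW c' c hc' hc) y hx

theorem DegV_pwA {r : ℕ} {W : 𝔐 → 𝔐 → A} (hW : DegV θ r W) (p : ℕ) : DegV θ r (pwA W p) :=
  fun c c' hc hc' => hW (fun ε => (c ε * c' ε) ^ (p - 1) * c ε) c'
    (Cub.mul _ _ (cub_pow (Cub.mul _ _ hc hc') (p - 1)) hc) hc'

theorem DegV_resWA {K : Type*} {r : ℕ} {W : 𝔐 → 𝔐 → A} (hW : DegV θ r W) (cl : 𝔔 → K) (p : ℕ)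
    (C : K) : DegV θ r (resWA (fun a => cl (θ a)) W p C) := by
  intro c c' hc hc'
  by_cases h : cl (θ (c (fun _ => true) * c' fun _ => true)) = C
  · have h1 : (fun ε => resWA (fun a => cl (θ a)) W p C (c ε) (c' ε)) =
        fun ε => pwA W p (c ε) (c' ε) := by
      funext ε
      rw [resWA, if_pos]
      rw [← h, cub_theta (Cub.mul _ _ hc hc') ε fun _ => true]
    rw [h1]
    exact DegV_pwA hW p c c' hc hc'
  · have h1 : (fun ε => resWA (fun a => cl (θ a)) W p C (c ε) (c' ε)) = fun ε => 0 := by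
      funext ε
      rw [resWA, if_neg]
      rw [cub_theta (Cub.mul _ _ hc hc') ε fun _ => true]
      exact h
    rw [h1]
    exact altS_const (Nat.succ_pos r) 0

end

theorem t_LIK : s_LIK.{u} := by
  intro 𝔐 𝔔 _ _ θ
  refine ⟨fun K x y hx => ⟨IK_mul y hx, mul_IK y hx⟩, fun K x hK hx => map_IK hK hx, ?_⟩
  intro A _ r W hW
  exact ⟨fun x y hx => ⟨bil_IK_left hW y hx, bil_IK_right hW y hx⟩, fun p => DegV_pwA hW p,
    fun K cl p C => DegV_resWA hW cl p C⟩

end Pool.Agent.SUR
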