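import Pool.Agent.SUR.StL

/-!
# The degree of the weight with a given kernel (module LKERD)
-/

set_option autoImplicit false

universe u v

namespace Pool.Agent.SUR

open Finset

namespace LKERDaux

section Pol

variable {R : Type v} [AddCommGroup R] {d : ℕ}

/-- functions on the cube of degree at most `k` -/
def Pol (R : Type v) [AddCommGroup R] (d k : ℕ) : AddSubgroup ((Fin d → Bool) → R) :=
  AddSubgroup.closure {f | ∃ (T : Finset (Fin d)) (a : R), T.card ≤ k ∧
    f = fun ε => if ∀ s ∈ T, ε s = true then a else 0}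

theorem pol_gen (k : ℕ) (T : Finset (Fin d)) (a : R) (h : T.card ≤ k) :
    (fun ε : Fin d → Bool => if ∀ s ∈ T, ε s = true then a else 0) ∈ Pol R d k :=
  AddSubgroup.subset_closure ⟨T, a, h, rfl⟩

theorem pol_const (k : ℕ) (a : R) : (fun _ : Fin d → Bool => a) ∈ Pol R d k := by
  have h := pol_gen (R := R) (d := d) k ∅ a (by simp)
  simpa using h

theorem pol_mono {k k' : ℕ} (h : k ≤ k') : Pol R d k ≤ Pol R d k' := by
  apply AddSubgroup.closure_mono
  rintro f ⟨T, a, hT, rfl⟩
  exact ⟨T, a, hT.trans h, rfl⟩

theorem altS_add {K : ℕ} (f g : (Fin K → Bool) → R) :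
    altS (fun ε => f ε + g ε) = altS f + altS g := by
  unfold altS
  rw [← Finset.sum_add_distrib]
  refine Finset.sum_congr rfl fun ε _ => ?_
  rw [smul_add]

theorem altS_neg {K : ℕ} (f : (Fin K → Bool) → R) : altS (fun ε => -f ε) = -altS f := by
  unfold altS
  rw [← Finset.sum_neg_distrib]
  refine Finset.sum_congr rfl fun ε _ => ?_
  rw [smul_neg]

theorem altS_zero {K : ℕ} : altS (fun _ : Fin K → Bool => (0 : R)) = 0 := by
  unfold altS
  simp

theorem sgB_flip {K : ℕ} (ε : Fin K → Bool) (i : Fin K) :
    sgB (Function.update ε i (!ε i)) = -sgB ε := by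
  unfold sgB
  rw [← Finset.mul_prod_erase _ _ (Finset.mem_univ i),
    ← Finset.mul_prod_erase Finset.univ (fun j => if ε j then (-1 : ℤ) else 1)
      (Finset.mem_univ i)]
  have h1 : ∏ j ∈ Finset.univ.erase i,
      (if Function.update ε i (!ε i) j then (-1 : ℤ) else 1) =
      ∏ j ∈ Finset.univ.erase i, (if ε j then (-1 : ℤ) else 1) := by
    refine Finset.prod_congr rfl fun j hj => ?_
    rw [Function.update_of_ne (Finset.ne_of_mem_erase hj)]
  rw [h1, Function.update_self]
  cases ε i <;> simp

theorem altS_gen (T : Finset (Fin d)) (a : R) (h : T.card < d) :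
    altS (fun ε : Fin d → Bool => if ∀ s ∈ T, ε s = true then a else 0) = 0 := by
  obtain ⟨i, hi⟩ : ∃ i : Fin d, i ∉ T := by
    by_contra hc
    push Not at hc
    have h1 : T = Finset.univ := Finset.eq_univ_iff_forall.2 hc
    rw [h1, Finset.card_univ, Fintype.card_fin] at h
    exact lt_irrefl _ h
  unfold altS
  refine Finset.sum_involution (fun ε _ => Function.update ε i (!ε i)) ?_ ?_ ?_ ?_
  · intro ε _
    have h1 : (∀ s ∈ T, Function.update ε i (!ε i) s = true) ↔ ∀ s ∈ T, ε s = true := by
      refine forall₂_congr fun s hs => ?_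
      rw [Function.update_of_ne (fun he => hi (by rw [← he]; exact hs))]
    rw [sgB_flip]
    simp only [h1, neg_smul]
    exact add_neg_cancel _
  · intro ε _ _ hc
    have h1 := congrFun hc i
    rw [Function.update_self] at h1
    cases h2 : ε i <;> simp [h2] at h1
  · intro ε _
    exact Finset.mem_univ _
  · intro ε _
    simp

theorem altS_pol (k : ℕ) (h : k < d) (f : (Fin d → Bool) → R) (hf : f ∈ Pol R d k) :
    altS f = 0 := by
  induction hf using AddSubgroup.closure_induction with
  | mem x hx =>
    obtain ⟨T, a, hT, rfl⟩ := hx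
    exact altS_gen T a (lt_of_le_of_lt hT h)
  | zero => exact altS_zero
  | add x y _ _ hx hy =>
    have h1 := altS_add x y
    rw [hx, hy, add_zero] at h1
    exact h1
  | neg x _ hx =>
    have h1 := altS_neg x
    rw [hx, neg_zero] at h1
    exact h1

theorem pol_ite_zero (k : ℕ) (s : Fin d) (f : (Fin d → Bool) → R) (hf : f ∈ Pol R d k) :
    (fun ε => if ε s = true then f ε else 0) ∈ Pol R d (k + 1) := by
  induction hf using AddSubgroup.closure_induction with
  | mem x hx =>
    obtain ⟨T, a, hT, rfl⟩ := hx
    have h1 := pol_gen (R := R) (k + 1) (insert s T) a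
      ((Finset.card_insert_le _ _).trans (by omega))
    have h2 : (fun ε : Fin d → Bool => if ε s = true then
        (if ∀ t ∈ T, ε t = true then a else 0) else 0) =
        fun ε => if ∀ t ∈ insert s T, ε t = true then a else 0 := by
      funext ε
      rw [← ite_and]
      simp only [Finset.mem_insert, forall_eq_or_imp]
    rw [h2]
    exact h1
  | zero =>
    have h2 : (fun ε : Fin d → Bool => if ε s = true then
        (0 : (Fin d → Bool) → R) ε else 0) = 0 := by
      funext ε
      simp
    rw [h2]
    exact AddSubgroup.zero_mem _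
  | add x y _ _ hx hy =>
    have h2 : (fun ε : Fin d → Bool => if ε s = true then (x + y) ε else 0) =
        (fun ε => if ε s = true then x ε else 0) + fun ε => if ε s = true then y ε else 0 := by
      funext ε
      simp only [Pi.add_apply]
      split_ifs <;> simp
    rw [h2]
    exact AddSubgroup.add_mem _ hx hy
  | neg x _ hx =>
    have h2 : (fun ε : Fin d → Bool => if ε s = true then (-x) ε else 0) =
        -fun ε => if ε s = true then x ε else 0 := by
      funext ε
      simp only [Pi.neg_apply]
      split_ifs <;> simp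
    rw [h2]
    exact AddSubgroup.neg_mem _ hx

theorem pol_ite (k : ℕ) (s : Fin d) (f g : (Fin d → Bool) → R) (hf : f ∈ Pol R d k)
    (hg : g ∈ Pol R d k) : (fun ε => if ε s = true then f ε else g ε) ∈ Pol R d (k + 1) := by
  have h1 := AddSubgroup.add_mem _ (pol_mono (Nat.le_succ k) hg)
    (pol_ite_zero k s (f - g) (AddSubgroup.sub_mem _ hf hg))
  have h2 : (fun ε => if ε s = true then f ε else g ε) =
      g + fun ε => if ε s = true then (f - g) ε else 0 := by
    funext ε
    simp only [Pi.add_apply, Pi.sub_apply]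
    split_ifs <;> simp
  rw [h2]
  exact h1

theorem pol_lsum {E : Type u} (k : ℕ) (L : List E) (G : E → (Fin d → Bool) → R)
    (hG : ∀ e, G e ∈ Pol R d k) : (fun ε => lsum L fun e => G e ε) ∈ Pol R d k := by
  induction L with
  | nil =>
    have h1 := pol_const (R := R) (d := d) k 0
    exact h1
  | cons e L ih =>
    have h1 := AddSubgroup.add_mem _ (hG e) ih
    exact h1

end Pol

section Words

variable {Z : Type u} [Group Z] {R : Type v} [AddCommGroup R] {d : ℕ}

theorem eds_app (q : Z) (l l' : List Z) :
    eds q (l ++ l') = eds q l ++ eds (q * l.prod) l' := by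
  induction l generalizing q with
  | nil => simp [eds]
  | cons z l ih =>
    rw [List.cons_append, eds, eds, ih, List.prod_cons, List.cons_append, mul_assoc]

theorem th_prod (b : FreeMonoid Z) : th Z b = (FreeMonoid.toList b).prod := by
  unfold th
  rw [FreeMonoid.lift_apply, List.map_id]

theorem cub_th (c : (Fin d → Bool) → FreeMonoid Z) (hc : Cub (th Z) c) :
    ∃ z, ∀ ε, th Z (c ε) = z := by
  induction hc with
  | const a => exact ⟨th Z a, fun _ => rfl⟩
  | slot s a a' h =>
    refine ⟨th Z a, fun ε => ?_⟩
    show th Z (if ε s = true then a' else a) = th Z a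
    split_ifs
    · exact h.symm
    · rfl
  | mul c c' _ _ ih ih' =>
    obtain ⟨z, hz⟩ := ih
    obtain ⟨z', hz'⟩ := ih'
    refine ⟨z * z', fun ε => ?_⟩
    rw [map_mul, hz, hz']

theorem pol_edges (k : ℕ) (c : (Fin d → Bool) → FreeMonoid Z) (hc : Cub (th Z) c) :
    ∀ (q : Z) (G : Z × Z → (Fin d → Bool) → R), (∀ e, G e ∈ Pol R d k) →
      (fun ε => lsum (eds q (FreeMonoid.toList (c ε))) fun e => G e ε) ∈ Pol R d (k + 1) := by
  induction hc with
  | const a =>
    intro q G hG
    exact pol_mono (Nat.le_succ k) (pol_lsum k _ G hG)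
  | slot s a a' h =>
    intro q G hG
    have h1 := pol_ite k s (fun ε => lsum (eds q (FreeMonoid.toList a')) fun e => G e ε)
      (fun ε => lsum (eds q (FreeMonoid.toList a)) fun e => G e ε)
      (pol_lsum k _ G hG) (pol_lsum k _ G hG)
    have h2 : (fun ε : Fin d → Bool => lsum (eds q (FreeMonoid.toList
        (if ε s = true then a' else a))) fun e => G e ε) =
        fun ε => if ε s = true then lsum (eds q (FreeMonoid.toList a')) (fun e => G e ε)
          else lsum (eds q (FreeMonoid.toList a)) fun e => G e ε := by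
      funext ε
      split_ifs <;> rfl
    rw [h2]
    exact h1
  | mul c c' hc _ ih ih' =>
    intro q G hG
    obtain ⟨z, hz⟩ := cub_th c hc
    have h1 := AddSubgroup.add_mem _ (ih q G hG) (ih' (q * z) G hG)
    have h2 : (fun ε : Fin d → Bool => lsum (eds q (FreeMonoid.toList (c ε * c' ε)))
        fun e => G e ε) = (fun ε => lsum (eds q (FreeMonoid.toList (c ε))) fun e => G e ε) +
        fun ε => lsum (eds (q * z) (FreeMonoid.toList (c' ε))) fun e => G e ε := by
      funext ε
      rw [Pi.add_apply, FreeMonoid.toList_mul, eds_app, ← th_prod, hz]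
      unfold lsum
      rw [List.map_append, List.sum_append]
    rw [h2]
    exact h1

theorem pol_msum (c : (Fin d → Bool) → FreeMonoid Z) (hc : Cub (th Z) c) (q : Z) (s : ℕ) :
    ∀ K : (Fin s → Z × Z) → R,
      (fun ε => msum (eds q (FreeMonoid.toList (c ε))) s K) ∈ Pol R d s := by
  induction s with
  | zero =>
    intro K
    exact pol_const 0 _
  | succ s ih =>
    intro K
    exact pol_edges s c hc q (fun e ε => msum (eds q (FreeMonoid.toList (c ε))) s
      fun t => K (Fin.cons e t)) fun e => ih fun t => K (Fin.cons e t)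

end Words

end LKERDaux

open LKERDaux in
theorem t_LKERD : s_LKERD.{u, v} := by
  classical
  intro Z R _ _ c₀ s r K hs c c' hc hc'
  obtain ⟨z, hz⟩ := cub_th _ (Cub.mul c' c hc' hc)
  apply altS_pol (s + 1) (by omega)
  by_cases hz0 : z = c₀
  · have h1 := pol_edges (R := R) s c' hc' 1 (fun e ε => msum (eds 1
      (FreeMonoid.toList (c' ε * c ε))) s fun t => K (Fin.cons e t))
      fun e => pol_msum _ (Cub.mul c' c hc' hc) 1 s fun t => K (Fin.cons e t)
    have h2 : (fun ε => kW c₀ s K (c ε) (c' ε)) =
        fun ε => lsum (eds 1 (FreeMonoid.toList (c' ε))) fun e => msum (eds 1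
          (FreeMonoid.toList (c' ε * c ε))) s fun t => K (Fin.cons e t) := by
      funext ε
      unfold kW
      rw [if_pos ((hz ε).trans hz0)]
    rw [h2]
    exact h1
  · have h2 : (fun ε => kW c₀ s K (c ε) (c' ε)) = 0 := by
      funext ε
      unfold kW
      rw [if_neg (fun h => hz0 ((hz ε).symm.trans h))]
      rfl
    rw [h2]
    exact AddSubgroup.zero_mem _

end Pool.Agent.SUR
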