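import Pool.Agent.SUR.StL

/-!
# The weight with a given kernel (module LKERW)
-/

set_option autoImplicit false

universe u v

namespace Pool.Agent.SUR

open Finset

namespace LKERWaux

section Edges

variable {Z : Type u} [Group Z]

theorem eds_append (q : Z) (l l' : List Z) :
    eds q (l ++ l') = eds q l ++ eds (q * l.prod) l' := by
  induction l generalizing q with
  | nil => simp [eds]
  | cons z l ih =>
    rw [List.cons_append, eds, eds, ih, List.prod_cons, List.cons_append, mul_assoc]

theorem eds_mul (w q : Z) (l : List Z) :
    eds (w * q) l = (eds q l).map fun e => (w * e.1, e.2) := by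
  induction l generalizing q with
  | nil => simp [eds]
  | cons z l ih =>
    rw [eds, eds, List.map_cons, mul_assoc, ih]

theorem th_eq (b : FreeMonoid Z) : th Z b = (FreeMonoid.toList b).prod := by
  unfold th
  rw [FreeMonoid.lift_apply, List.map_id]

end Edges

section Sums

variable {E : Type u} {R : Type v} [AddCommMonoid R]

theorem lsum_append (L L' : List E) (f : E → R) : lsum (L ++ L') f = lsum L f + lsum L' f := by
  unfold lsum
  rw [List.map_append, List.sum_append]

theorem lsum_map (L : List E) (φ : E → E) (f : E → R) :
    lsum (L.map φ) f = lsum L fun e => f (φ e) := by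
  unfold lsum
  rw [List.map_map]
  rfl

theorem lsum_congr (L : List E) {f g : E → R} (h : ∀ e, f e = g e) : lsum L f = lsum L g := by
  have : f = g := funext h
  rw [this]

theorem msum_map (L : List E) (ψ : E → E) (s : ℕ) (F : (Fin s → E) → R) :
    msum (L.map ψ) s F = msum L s fun t => F fun i => ψ (t i) := by
  induction s with
  | zero =>
    unfold msum
    congr 1
    funext i
    exact i.elim0
  | succ s ih =>
    unfold msum
    rw [lsum_map]
    apply lsum_congr
    intro e
    rw [ih]
    congr 1
    funext t
    congr 1
    funext i
    refine Fin.cases ?_ (fun j => ?_) i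
    · rfl
    · rfl

theorem msum_rot (X Y : List E) (φ : E → E) (s : ℕ) (F : (Fin s → E) → R)
    (hF : ∀ (i : Fin s) (t : Fin s → E), F (Function.update t i (φ (t i))) = F t) :
    msum (Y ++ X) s F = msum (X ++ Y.map φ) s F := by
  induction s with
  | zero => rfl
  | succ s ih =>
    unfold msum
    have h1 : ∀ e : E, msum (Y ++ X) s (fun t => F (Fin.cons e t)) =
        msum (X ++ Y.map φ) s (fun t => F (Fin.cons e t)) := by
      intro e
      apply ih
      intro i t
      have h2 := hF i.succ (Fin.cons e t : Fin (s + 1) → E)
      rw [Fin.cons_succ, ← Fin.cons_update] at h2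
      exact h2
    rw [lsum_congr _ h1, lsum_append, lsum_append, lsum_map, add_comm]
    congr 1
    apply lsum_congr
    intro e
    congr 1
    funext t
    have h2 := hF 0 (Fin.cons e t : Fin (s + 1) → E)
    rw [Fin.cons_zero, Fin.update_cons_zero] at h2
    exact h2.symm

end Sums

end LKERWaux

open LKERWaux

theorem t_LKERW : s_LKERW.{u, v} := by
  intro Z R _ _ c hc s K hK
  obtain ⟨hK1, hK2⟩ := hK
  have hcomm : ∀ x y : Z, x * y = c → y * x = c := by
    intro x y h
    have h1 : y = x⁻¹ * c := by rw [← h]; group
    rw [h1, ← hc x⁻¹, mul_assoc, inv_mul_cancel, mul_one]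
  refine ⟨?_, ?_, ?_⟩
  · intro a b d
    by_cases h : th Z (b * d * a) = c
    · have h2 : th Z (b * (d * a)) = c := by rw [← mul_assoc]; exact h
      have h3 : th Z (d * (a * b)) = c := by
        rw [← mul_assoc, map_mul]
        apply hcomm
        rw [← map_mul]
        exact h2
      unfold kW
      rw [if_pos h, if_pos h3, if_pos h2]
      rw [FreeMonoid.toList_mul b d, eds_append, lsum_append, ← mul_assoc b d a, add_comm]
      congr 1
      -- the part of `d`
      rw [one_mul]
      have e1 : eds (FreeMonoid.toList b).prod (FreeMonoid.toList d) =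
          (eds 1 (FreeMonoid.toList d)).map
            fun e => ((FreeMonoid.toList b).prod * e.1, e.2) := by
        rw [← eds_mul, mul_one]
      rw [e1, lsum_map]
      apply lsum_congr
      intro e
      set β : Z := (FreeMonoid.toList b).prod with hβ
      set X : List (Z × Z) := eds 1 (FreeMonoid.toList (d * a)) with hX
      set Y : List (Z × Z) := eds β⁻¹ (FreeMonoid.toList b) with hY
      have hda : th Z (d * a) = β⁻¹ * c := by
        rw [map_mul, th_eq b, ← hβ] at h2
        rw [← h2]
        group
      have e2 : eds 1 (FreeMonoid.toList (b * d * a)) =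
          (Y ++ X).map fun e => (β * e.1, e.2) := by
        rw [mul_assoc, FreeMonoid.toList_mul b (d * a), eds_append, List.map_append, one_mul,
          hY, hX, ← eds_mul, ← eds_mul, mul_inv_cancel, mul_one]
      have e3 : eds 1 (FreeMonoid.toList (d * (a * b))) =
          X ++ Y.map fun e => (c * e.1, e.2) := by
        rw [← mul_assoc, FreeMonoid.toList_mul (d * a) b, eds_append, one_mul, ← th_eq, hda,
          ← hc, eds_mul]
      rw [e2, e3, msum_map]
      have e4 : (fun t : Fin s → Z × Z => K (Fin.cons (β * e.1, e.2)
          (fun i => (β * (t i).1, (t i).2)))) = fun t => K (Fin.cons e t) := by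
        funext t
        rw [← hK1 β (Fin.cons e t)]
        congr 1
        funext i
        refine Fin.cases ?_ (fun j => ?_) i
        · rfl
        · rfl
      rw [e4]
      apply msum_rot
      intro i t
      have h5 := hK2 i.succ (Fin.cons e t : Fin (s + 1) → Z × Z)
      rw [Fin.cons_succ, ← Fin.cons_update] at h5
      exact h5
    · have h2 : ¬ th Z (b * (d * a)) = c := by rw [← mul_assoc]; exact h
      have h3 : ¬ th Z (d * (a * b)) = c := by
        intro h3
        apply h2
        rw [map_mul]
        apply hcomm
        rw [← map_mul, mul_assoc]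
        exact h3
      unfold kW
      rw [if_neg h, if_neg h3, if_neg h2, add_zero]
  · intro a b h
    unfold kW at h
    by_contra hne
    apply h
    rw [if_neg]
    intro h1
    apply hne
    rw [map_mul] at h1 ⊢
    exact hcomm _ _ h1
  · intro y hy
    unfold kW
    rw [mul_one, if_pos hy]
    rfl

end Pool.Agent.SUR
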