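import Pool.Agent.SUR.StE

/-!
# Degrees of functions on words: monotonicity

Project LIN (MP_e40716_gt), module LMONO.
-/

set_option autoImplicit false

universe u v

namespace Pool.Agent.SUR

open Finset

/-- fixing the first coordinate of a cube -/
theorem cub_cons {𝔐 𝔔 : Type*} [Monoid 𝔐] [Monoid 𝔔] {θ : 𝔐 →* 𝔔} {K : ℕ}
    {c : (Fin (K + 1) → Bool) → 𝔐} (h : Cub θ c) (b : Bool) :
    Cub θ fun ε : Fin K → Bool => c (Fin.cons b ε) := by
  induction h with
  | const a => exact Cub.const a
  | slot s a a' h =>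
    refine Fin.cases ?_ (fun s' => ?_) s
    · show Cub θ fun _ : Fin K → Bool => if b then a' else a
      exact Cub.const _
    · show Cub θ fun ε : Fin K → Bool => if ε s' then a' else a
      exact Cub.slot s' a a' h
  | mul c c' h h' ih ih' => exact Cub.mul _ _ ih ih'

theorem sgB_cons {K : ℕ} (b : Bool) (ε : Fin K → Bool) :
    sgB (Fin.cons b ε : Fin (K + 1) → Bool) = (if b then -1 else 1) * sgB ε := by
  unfold sgB
  rw [Fin.prod_univ_succ]
  rfl

/-- the alternating sum splits along the first coordinate -/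
theorem altS_cons {A : Type*} [AddCommGroup A] {K : ℕ} (f : (Fin (K + 1) → Bool) → A) :
    altS f = altS (fun ε : Fin K → Bool => f (Fin.cons false ε)) -
      altS (fun ε : Fin K → Bool => f (Fin.cons true ε)) := by
  unfold altS
  rw [← Equiv.sum_comp (Fin.consEquiv fun _ : Fin (K + 1) => Bool) (fun ε => sgB ε • f ε),
    Fintype.sum_prod_type, Fintype.sum_bool, add_comm, sub_eq_add_neg, ← Finset.sum_neg_distrib]
  refine congrArg₂ (· + ·) (Finset.sum_congr rfl fun ε _ => ?_)
    (Finset.sum_congr rfl fun ε _ => ?_)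
  · show sgB (Fin.cons false ε : Fin (K + 1) → Bool) • f (Fin.cons false ε) = _
    rw [sgB_cons]
    simp
  · show sgB (Fin.cons true ε : Fin (K + 1) → Bool) • f (Fin.cons true ε) = _
    rw [sgB_cons]
    simp

theorem degV_succ {𝔐 𝔔 A : Type*} [Monoid 𝔐] [Monoid 𝔔] [AddCommGroup A] {θ : 𝔐 →* 𝔔} {r : ℕ}
    {W : 𝔐 → 𝔐 → A} (h : DegV θ r W) : DegV θ (r + 1) W := by
  intro c c' hc hc'
  rw [altS_cons, h _ _ (cub_cons hc false) (cub_cons hc' false),
    h _ _ (cub_cons hc true) (cub_cons hc' true), sub_zero]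

theorem t_LMONO : s_LMONO.{u} := by
  intro 𝔐 𝔔 A _ _ _ θ r r' W hr h
  induction r', hr using Nat.le_induction with
  | base => exact h
  | succ k _ ih => exact degV_succ ih

end Pool.Agent.SUR
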