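import Pool.Agent.SUR.StL

/-! # LMSUM: the `s`-fold sum over a list as a sum over functions -/

set_option autoImplicit false

universe u v

namespace Pool.Agent.SUR

lemma lmsum_lsum {E : Type u} {R : Type v} [AddCommMonoid R] (L : List E) (f : E → R) :
    lsum L f = ∑ i : Fin L.length, f (L.get i) := by
  unfold lsum
  have h1 : L.map f = List.ofFn (fun i : Fin L.length => f (L.get i)) := by
    have h : List.map f (List.ofFn L.get) = List.ofFn (f ∘ L.get) := List.map_ofFn
    rw [List.ofFn_get] at h
    exact h
  rw [h1, List.sum_ofFn]

theorem t_LMSUM : s_LMSUM.{u, v} := by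
  intro E R _ L s
  induction s with
  | zero =>
    intro K
    rw [Fintype.sum_unique]
    unfold msum
    have h : (Fin.elim0 : Fin 0 → E) = fun i => L.get ((default : Fin 0 → Fin L.length) i) := by
      funext i
      exact i.elim0
    rw [h]
  | succ s ih =>
    intro K
    have h0 : msum L (s + 1) K = lsum L fun e => msum L s fun t => K (Fin.cons e t) := rfl
    rw [h0, lmsum_lsum]
    have h1 : ∀ i : Fin L.length, (msum L s fun t => K (Fin.cons (L.get i) t)) =
        ∑ j : Fin s → Fin L.length, K (Fin.cons (L.get i) fun k => L.get (j k)) := by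
      intro i
      exact ih _
    rw [Finset.sum_congr rfl fun i _ => h1 i]
    have h2 := Fintype.sum_equiv (Fin.consEquiv (fun _ : Fin (s + 1) => Fin L.length))
      (fun q => K (Fin.cons (L.get q.1) fun k => L.get (q.2 k)))
      (fun j : Fin (s + 1) → Fin L.length => K fun i => L.get (j i))
      (by
        intro q
        have h3 : (Fin.cons (L.get q.1) fun k => L.get (q.2 k) : Fin (s + 1) → E) =
            fun i => L.get ((Fin.consEquiv (fun _ : Fin (s + 1) => Fin L.length)) q i) := by
          funext i
          refine Fin.cases ?_ (fun k => ?_) i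
          · rfl
          · rfl
        show K (Fin.cons (L.get q.1) fun k => L.get (q.2 k)) = _
        rw [h3])
    rw [← h2]
    exact (Fintype.sum_prod_type' (fun (i : Fin L.length) (j : Fin s → Fin L.length) =>
      K (Fin.cons (L.get i) fun k => L.get (j k)))).symm

end Pool.Agent.SUR
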