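import Pool.Agent.SUR.StL

/-!
# LIN_POW: from the weight at a power of a central element to a weight at the element
-/

set_option autoImplicit false

universe u

namespace Pool.Agent.SUR

open Pool.Agent.WhK

namespace LPOWx

section

variable {𝔐 Λ : Type*} [Monoid 𝔐] [AddCommGroup Λ] {W : 𝔐 → 𝔐 → Λ}

theorem wt_one_right (hW : IsWtA W) (a : 𝔐) : W a 1 = 0 := by
  have h := hW a 1 1
  rw [one_mul, mul_one, one_mul] at h
  exact left_eq_add.1 h

/-- iteration of the rule -/
theorem wt_pow (hW : IsWtA W) (a b : 𝔐) (k : ℕ) (hab : a * b = b * a) :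
    W a (b ^ k) = k • W (a * b ^ (k - 1)) b := by
  induction k generalizing a with
  | zero => rw [pow_zero, wt_one_right hW, zero_smul]
  | succ k ih =>
    rw [pow_succ', hW a b (b ^ k)]
    have hab' : a * b * b = b * (a * b) := by rw [hab, mul_assoc, hab]
    rw [ih (a * b) hab']
    rcases Nat.eq_zero_or_pos k with rfl | hk
    · simp
    · have h1 : a * b * b ^ (k - 1) = a * b ^ (k + 1 - 1) := by
        rw [mul_assoc, ← pow_succ']
        congr 2
        omega
      have h2 : b ^ k * a = a * b ^ (k + 1 - 1) := by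
        rw [Nat.add_sub_cancel]
        exact ((Commute.pow_right (show Commute a b from hab) k).eq).symm
      rw [h1, h2, succ_nsmul]

theorem wt_one_pow (hW : IsWtA W) (b : 𝔐) (k : ℕ) : W 1 (b ^ k) = k • W (b ^ (k - 1)) b := by
  have h := wt_pow hW 1 b k (by rw [one_mul, mul_one])
  rw [one_mul] at h
  exact h

/-- cyclic rotation of powers -/
theorem rot (a b : 𝔐) (k : ℕ) : a * (b * a) ^ k = (a * b) ^ k * a := by
  induction k with
  | zero => simp
  | succ k ih => rw [pow_succ, ← mul_assoc, ih, pow_succ]; simp only [mul_assoc]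

theorem pwA_isWtA (hW : IsWtA W) (p : ℕ) : IsWtA (pwA W p) := by
  intro a b c
  unfold pwA
  rw [hW]
  congr 1
  · simp only [mul_assoc]
  · have h1 := rot c (a * b) (p - 1)
    have h2 : c * ((a * (b * c)) ^ (p - 1) * a) = (c * a * b) ^ (p - 1) * (c * a) := by
      rw [← mul_assoc, ← mul_assoc a b c, h1]
      simp only [mul_assoc]
    rw [h2]

end

/-- the product is constant on a cube -/
theorem cub_const {𝔐 𝔔 S : Type*} [Monoid 𝔐] [Monoid 𝔔] {θ : 𝔐 →* 𝔔} {c : (S → Bool) → 𝔐}
    (h : Cub θ c) : ∀ ε ε', θ (c ε) = θ (c ε') := by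
  induction h with
  | const a => intro ε ε'; rfl
  | slot s a a' h =>
    intro ε ε'
    simp only
    split_ifs <;> simp [h]
  | mul c c' _ _ ih ih' =>
    intro ε ε'
    simp only [map_mul]
    rw [ih ε ε', ih' ε ε']

/-- powers of cubes -/
theorem cub_pow {𝔐 𝔔 S : Type*} [Monoid 𝔐] [Monoid 𝔔] {θ : 𝔐 →* 𝔔} {c : (S → Bool) → 𝔐}
    (h : Cub θ c) (k : ℕ) : Cub θ fun ε => c ε ^ k := by
  induction k with
  | zero => simpa using Cub.const (θ := θ) (S := S) (1 : 𝔐)
  | succ k ih => simpa only [pow_succ] using Cub.mul _ _ ih h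

end LPOWx

open LPOWx in
/-- LIN_POW -/
theorem t_LPOW : s_LPOW.{u} := by
  classical
  intro Z A _ _ g hg htf j r hj v W hWt hD
  obtain ⟨hW, hsup, hval⟩ := hWt
  have hv : ∀ a : FreeMonoid Z, th Z a = g → j • W (a ^ (j - 1)) a = v := by
    intro a ha
    rw [← hval (a ^ j) (by rw [map_pow, ha]), LPOWx.wt_one_pow hW]
  have hof : th Z (FreeMonoid.of g) = g := by simp [th]
  have hcomm : ∀ a b : FreeMonoid Z, th Z (a * b) = g → th Z (b * a) = g := by
    intro a b h
    rw [map_mul] at h ⊢
    have h1 : th Z b = (th Z a)⁻¹ * g := by rw [← h, inv_mul_cancel_left]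
    rw [h1, mul_assoc, hg, ← mul_assoc, inv_mul_cancel, one_mul]
  refine ⟨W (FreeMonoid.of g ^ (j - 1)) (FreeMonoid.of g), resWA (th Z) W j g, hv _ hof,
    ⟨?_, ?_, ?_⟩, ?_⟩
  · intro a b d
    unfold resWA
    have e : th Z (a * (b * d)) = th Z (a * b * d) := by rw [mul_assoc]
    have e1 : th Z (a * (b * d)) = g ↔ th Z (a * b * d) = g := by rw [e]
    have e2 : th Z (d * a * b) = g ↔ th Z (a * b * d) = g := by
      constructor
      · intro h
        rw [mul_assoc] at h
        exact hcomm _ _ h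
      · intro h
        have := hcomm _ _ h
        rwa [← mul_assoc] at this
    by_cases h : th Z (a * b * d) = g
    · rw [if_pos (e1.2 h), if_pos h, if_pos (e2.2 h)]
      exact LPOWx.pwA_isWtA hW j a b d
    · rw [if_neg (fun x => h (e1.1 x)), if_neg h, if_neg (fun x => h (e2.1 x)), add_zero]
  · intro a b hab
    unfold resWA at hab
    by_contra h0
    rw [if_neg h0] at hab
    exact hab rfl
  · intro a ha
    unfold resWA pwA
    rw [one_mul, if_pos ha, mul_one]
    have h1 := hv a ha
    have h2 := hv _ hof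
    have h3 : j • (W (a ^ (j - 1)) a - W (FreeMonoid.of g ^ (j - 1)) (FreeMonoid.of g)) = 0 := by
      rw [smul_sub, h1, h2, sub_self]
    exact sub_eq_zero.1 (htf j _ hj h3)
  · intro c c' hc hc'
    have hmul := Cub.mul _ _ hc hc'
    by_cases h : ∃ ε, th Z (c ε * c' ε) = g
    · obtain ⟨ε₀, h0⟩ := h
      have h1 : ∀ ε, th Z (c ε * c' ε) = g := fun ε => (cub_const hmul ε ε₀).trans h0
      have h2 : (fun ε => resWA (th Z) W j g (c ε) (c' ε)) =
          fun ε => W ((c ε * c' ε) ^ (j - 1) * c ε) (c' ε) := by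
        funext ε
        unfold resWA pwA
        rw [if_pos (h1 ε)]
      rw [h2]
      exact hD _ _ (Cub.mul _ _ (cub_pow hmul (j - 1)) hc) hc'
    · have h2 : (fun ε => resWA (th Z) W j g (c ε) (c' ε)) = fun _ => 0 := by
        funext ε
        unfold resWA
        rw [if_neg (fun x => h ⟨ε, x⟩)]
      rw [h2]
      unfold altS
      simp

end Pool.Agent.SUR
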