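import Pool.Agent.SUR.StL

/-!
# LPSH: change of the group of values
-/

set_option autoImplicit false

universe u v

namespace Pool.Agent.SUR

theorem t_LPSH : s_LPSH.{u, v} := by
  intro 𝔐 𝔔 K A A' _ _ _ _ θ ψ W
  refine ⟨?_, ?_⟩
  · intro r h c c' hc hc'
    have h1 := h c c' hc hc'
    have h2 := congrArg ψ h1
    simpa only [altS, map_sum, map_zsmul, map_zero] using h2
  · intro cl k v h
    obtain ⟨h1, h2, h3⟩ := h
    refine ⟨?_, ?_, ?_⟩
    · intro a b c
      have h := congrArg ψ (h1 a b c)
      simpa only [map_add] using h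
    · intro a b hab
      apply h2 a b
      intro h0
      apply hab
      show ψ (W a b) = 0
      rw [h0, map_zero]
    · intro a ha
      show ψ (W 1 a) = ψ v
      rw [h3 a ha]

end Pool.Agent.SUR
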