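import Pool.Agent.SUR.StA

/-!
# Additive functionals of a finitely generated domain (module NNF)
-/

set_option autoImplicit false

universe u

namespace Pool.Agent.SUR

namespace NNF

section Trace

variable {P : Type*} {F : Type u} [CommRing P] [Field F] [Algebra P F]

theorem int_nat (k : ℕ) : IsIntegral P (k : F) := by
  have h : IsIntegral P (algebraMap P F (k : P)) := isIntegral_algebraMap
  rwa [map_natCast] at h

theorem int_mul (S : Set F) (M : ℕ) (hint : ∀ s ∈ S, IsIntegral P ((M : F) * s)) {x : F}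
    (hx : x ∈ Subring.closure S) : ∃ k : ℕ, IsIntegral P ((M : F) ^ k * x) := by
  have hMi : ∀ k : ℕ, IsIntegral P ((M : F) ^ k) := fun k => (int_nat M).pow k
  induction hx using Subring.closure_induction with
  | mem s hs => exact ⟨1, by rw [pow_one]; exact hint s hs⟩
  | zero => exact ⟨0, by rw [mul_zero]; exact isIntegral_zero⟩
  | one => exact ⟨0, by rw [pow_zero, mul_one]; exact isIntegral_one⟩
  | add x y _ _ hx hy =>
    obtain ⟨k, hk⟩ := hx
    obtain ⟨l, hl⟩ := hy
    refine ⟨k + l, ?_⟩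
    have e : (M : F) ^ (k + l) * (x + y) = (M : F) ^ l * ((M : F) ^ k * x) +
        (M : F) ^ k * ((M : F) ^ l * y) := by
      rw [pow_add]; ring
    rw [e]
    exact ((hMi l).mul hk).add ((hMi k).mul hl)
  | mul x y _ _ hx hy =>
    obtain ⟨k, hk⟩ := hx
    obtain ⟨l, hl⟩ := hy
    refine ⟨k + l, ?_⟩
    have e : (M : F) ^ (k + l) * (x * y) = ((M : F) ^ k * x) * ((M : F) ^ l * y) := by
      rw [pow_add]; ring
    rw [e]
    exact hk.mul hl
  | neg x _ hx =>
    obtain ⟨k, hk⟩ := hx
    exact ⟨k, by rw [mul_neg]; exact hk.neg⟩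

variable [IsDomain P] [IsIntegrallyClosed P] [CharZero F] [FaithfulSMul P F]

theorem traceFun (S : Set F) (hS : S.Finite) (M : ℕ) (hM : 0 < M)
    (hint : ∀ s ∈ S, IsIntegral P ((M : F) * s)) (ν : F) (hν : ν ∈ Subring.closure S)
    (h0 : ν ≠ 0) :
    ∃ (τ : Subring.closure S →+ FractionRing P) (c : P), c ≠ 0 ∧
      τ ⟨ν, hν⟩ = algebraMap P (FractionRing P) c ∧
      ∀ x, ∃ (k : ℕ) (y : P), (M : FractionRing P) ^ k * τ x =
        algebraMap P (FractionRing P) y := by
  let _ : Algebra (FractionRing P) F := FractionRing.liftAlgebra P F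
  have _ : IsScalarTower P (FractionRing P) F := FractionRing.isScalarTower_liftAlgebra P F
  have hPF : Function.Injective (algebraMap P F) := FaithfulSMul.algebraMap_injective P F
  have _ : CharZero P := ⟨fun a b h => by
    have h1 := congrArg (algebraMap P F) h
    rw [map_natCast, map_natCast] at h1
    exact_mod_cast h1⟩
  have _ : Finite S := hS
  have hMF : (M : F) ≠ 0 := Nat.cast_ne_zero.2 hM.ne'
  have hSL : ∀ s ∈ S, IsIntegral (FractionRing P) s := by
    intro s hs
    have h : IsIntegral (FractionRing P) ((M : F) * s) := (hint s hs).tower_top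
    have e : s = algebraMap (FractionRing P) F ((M : FractionRing P)⁻¹) * ((M : F) * s) := by
      rw [map_inv₀, map_natCast, inv_mul_cancel_left₀ hMF]
    rw [e]
    exact isIntegral_algebraMap.mul h
  let E := IntermediateField.adjoin (FractionRing P) S
  have _ : FiniteDimensional (FractionRing P) E := IntermediateField.finiteDimensional_adjoin hSL
  have _ : IsScalarTower P E F := IsScalarTower.of_algebraMap_eq fun x => by
    rw [IsScalarTower.algebraMap_apply P (FractionRing P) E,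
      ← IsScalarTower.algebraMap_apply (FractionRing P) E F,
      ← IsScalarTower.algebraMap_apply P (FractionRing P) F]
  have hle : Subring.closure S ≤ E.toSubfield.toSubring :=
    Subring.closure_le.2 (IntermediateField.subset_adjoin _ _)
  let inc : Subring.closure S →+ E :=
    { toFun := fun x => ⟨x.1, hle x.2⟩
      map_zero' := rfl
      map_add' := fun _ _ => rfl }
  have hincv : ∀ x, algebraMap E F (inc x) = x.1 := fun x => rfl
  set ν' : E := inc ⟨ν, hν⟩ with hν'
  have hν0 : ν' ≠ 0 := by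
    intro h
    have h1 := congrArg (algebraMap E F) h
    rw [hincv, map_zero] at h1
    exact h0 h1
  have halg : IsAlgebraic P (ν'⁻¹ : E) :=
    (IsFractionRing.isAlgebraic_iff P (FractionRing P) E).2 (Algebra.IsAlgebraic.isAlgebraic _)
  obtain ⟨c, hc, hci⟩ := halg.exists_integral_multiple
  have hcν : c • ν'⁻¹ * ν' = algebraMap P E c := by
    rw [smul_mul_assoc, inv_mul_cancel₀ hν0, Algebra.smul_def, mul_one]
  refine ⟨(Algebra.trace (FractionRing P) E).toAddMonoidHom.comp
    ((AddMonoidHom.mulLeft (c • ν'⁻¹)).comp inc),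
    Module.finrank (FractionRing P) E • c, ?_, ?_, ?_⟩
  · exact smul_ne_zero (Module.finrank_pos).ne' hc
  · show Algebra.trace (FractionRing P) E (c • ν'⁻¹ * ν') = _
    rw [hcν, IsScalarTower.algebraMap_apply P (FractionRing P) E, Algebra.trace_algebraMap,
      map_nsmul]
  · intro x
    obtain ⟨k, hk⟩ := int_mul (P := P) S M hint x.2
    have hk' : IsIntegral P ((M : E) ^ k * inc x) := by
      refine (isIntegral_algebraMap_iff (algebraMap E F).injective).1 ?_
      rw [map_mul, map_pow, map_natCast, hincv]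
      exact hk
    have h1 : IsIntegral P (Algebra.trace (FractionRing P) E
        (c • ν'⁻¹ * ((M : E) ^ k * inc x))) := Algebra.isIntegral_trace (hci.mul hk')
    obtain ⟨y, hy⟩ := IsIntegrallyClosed.isIntegral_iff.1 h1
    refine ⟨k, y, ?_⟩
    rw [hy]
    have e : c • ν'⁻¹ * ((M : E) ^ k * inc x) = ((M : FractionRing P) ^ k) •
        (c • ν'⁻¹ * inc x) := by
      rw [Algebra.smul_def ((M : FractionRing P) ^ k), map_pow, map_natCast]
      ring
    rw [e, map_smul, smul_eq_mul]
    rfl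

end Trace

section Functional

open MvPolynomial

attribute [local instance] MvPolynomial.algebraMvPolynomial in
theorem clear_den {d : ℕ} (g : MvPolynomial (Fin d) ℚ) : ∃ (n : ℤ) (y : MvPolynomial (Fin d) ℤ),
    n ≠ 0 ∧ g * C (n : ℚ) = map (Int.castRingHom ℚ) y := by
  obtain ⟨⟨y, ⟨_, n, hn, rfl⟩⟩, h⟩ := IsLocalization.surj
    ((nonZeroDivisors ℤ).map (C (σ := Fin d))) g
  refine ⟨n, y, nonZeroDivisors.ne_zero hn, ?_⟩
  have h1 : g * map (algebraMap ℤ ℚ) (C n) = map (algebraMap ℤ ℚ) y := h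
  rw [map_C] at h1
  exact h1

theorem functional (d : ℕ) (c : MvPolynomial (Fin d) ℤ) (hc : c ≠ 0) :
    ∃ l : FractionRing (MvPolynomial (Fin d) ℤ) →+ ℚ,
      l (algebraMap _ (FractionRing (MvPolynomial (Fin d) ℤ)) c) ≠ 0 ∧
      ∀ y : MvPolynomial (Fin d) ℤ, ∃ a : ℤ,
        l (algebraMap _ (FractionRing (MvPolynomial (Fin d) ℤ)) y) = a := by
  have _ : CharZero (MvPolynomial (Fin d) ℤ) :=
    charZero_of_injective_algebraMap (C_injective (Fin d) ℤ)
  have _ : CharZero (FractionRing (MvPolynomial (Fin d) ℤ)) :=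
    charZero_of_injective_algebraMap (IsFractionRing.injective (MvPolynomial (Fin d) ℤ)
      (FractionRing (MvPolynomial (Fin d) ℤ)))
  let _ : Algebra ℚ (FractionRing (MvPolynomial (Fin d) ℤ)) := DivisionRing.toRatAlgebra
  let f : MvPolynomial (Fin d) ℚ →ₐ[ℚ] FractionRing (MvPolynomial (Fin d) ℤ) :=
    aeval fun i => algebraMap (MvPolynomial (Fin d) ℤ) _ (X i)
  have hf : ∀ y : MvPolynomial (Fin d) ℤ, f (map (Int.castRingHom ℚ) y) =
      algebraMap _ (FractionRing (MvPolynomial (Fin d) ℤ)) y := by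
    intro y
    have h : (f : MvPolynomial (Fin d) ℚ →+* _).comp (map (Int.castRingHom ℚ)) =
        algebraMap _ (FractionRing (MvPolynomial (Fin d) ℤ)) := by
      refine ringHom_ext (fun n => ?_) fun i => ?_
      · simp
      · simp [f]
    exact RingHom.congr_fun h y
  have hinj : Function.Injective f := by
    refine (injective_iff_map_eq_zero f).2 fun g hg => ?_
    obtain ⟨n, y, hn, h⟩ := clear_den g
    have h1 : algebraMap _ (FractionRing (MvPolynomial (Fin d) ℤ)) y = 0 := by
      rw [← hf, ← h, map_mul, hg, zero_mul]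
    have h2 : y = 0 := (IsFractionRing.injective (MvPolynomial (Fin d) ℤ)
      (FractionRing (MvPolynomial (Fin d) ℤ))) (by rw [h1, map_zero])
    rw [h2, map_zero, mul_eq_zero] at h
    refine h.resolve_right fun h3 => hn ?_
    have h4 : (n : ℚ) = 0 := (C_injective (Fin d) ℚ) (by rw [h3, map_zero])
    exact_mod_cast h4
  obtain ⟨r, hr⟩ := LinearMap.exists_leftInverse_of_injective f.toLinearMap
    (LinearMap.ker_eq_bot.2 hinj)
  have hr' : ∀ g, r (f g) = g := fun g => LinearMap.congr_fun hr g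
  obtain ⟨m, hm⟩ := (MvPolynomial.ne_zero_iff).1 hc
  have hl : ∀ y : MvPolynomial (Fin d) ℤ, ((coeffAddMonoidHom m).comp r.toAddMonoidHom)
      (algebraMap _ (FractionRing (MvPolynomial (Fin d) ℤ)) y) = (coeff m y : ℤ) := by
    intro y
    show coeff m (r (algebraMap _ (FractionRing (MvPolynomial (Fin d) ℤ)) y)) = _
    rw [← hf, hr', coeff_map]
    rfl
  refine ⟨(coeffAddMonoidHom m).comp r.toAddMonoidHom, ?_, fun y => ⟨_, hl y⟩⟩
  rw [hl]
  exact_mod_cast hm

end Functional

section Noether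

open MvPolynomial

attribute [local instance] MvPolynomial.algebraMvPolynomial in
theorem one_elem {F : Type u} [Field F] {d : ℕ} (ι : MvPolynomial (Fin d) ℚ →+* F) (s : F)
    (hs : ι.IsIntegralElem s) :
    ∃ m : ℕ, 0 < m ∧ (ι.comp (map (Int.castRingHom ℚ))).IsIntegralElem ((m : F) * s) := by
  let _ : Algebra (MvPolynomial (Fin d) ℚ) F := ι.toAlgebra
  let _ : Algebra (MvPolynomial (Fin d) ℤ) F := (ι.comp (map (Int.castRingHom ℚ))).toAlgebra
  have _ : IsScalarTower (MvPolynomial (Fin d) ℤ) (MvPolynomial (Fin d) ℚ) F :=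
    IsScalarTower.of_algebraMap_eq' rfl
  have hs' : IsIntegral (MvPolynomial (Fin d) ℚ) s := hs
  obtain ⟨⟨_, n, hn, rfl⟩, h⟩ := IsIntegral.exists_multiple_integral_of_isLocalization
    ((nonZeroDivisors ℤ).map (C (σ := Fin d))) s hs'
  have hn0 : n ≠ 0 := nonZeroDivisors.ne_zero hn
  have h1 : IsIntegral (MvPolynomial (Fin d) ℤ) ((n : F) * s) := by
    have e : (⟨C n, n, hn, rfl⟩ : (nonZeroDivisors ℤ).map (C (σ := Fin d))) • s = (n : F) * s := by
      show (C n : MvPolynomial (Fin d) ℤ) • s = _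
      rw [Algebra.smul_def]
      congr 1
      show ι (map (Int.castRingHom ℚ) (C n)) = _
      rw [map_C, eq_intCast, map_intCast, map_intCast]
    rw [← e]
    exact h
  refine ⟨n.natAbs, Int.natAbs_pos.2 hn0, ?_⟩
  have h2 : ((n.natAbs : ℕ) : F) = ((n.sign : ℤ) : F) * (n : F) := by
    rw [← Int.cast_mul, Int.sign_mul_self_eq_natAbs, Int.cast_natCast]
  rw [h2, mul_assoc]
  have h3 : IsIntegral (MvPolynomial (Fin d) ℤ) ((n.sign : ℤ) : F) := by
    have : IsIntegral (MvPolynomial (Fin d) ℤ)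
        (algebraMap (MvPolynomial (Fin d) ℤ) F ((n.sign : ℤ) : MvPolynomial (Fin d) ℤ)) :=
      isIntegral_algebraMap
    rwa [map_intCast] at this
  exact h3.mul h1

theorem noether {F : Type u} [Field F] [CharZero F] (S : Set F) (hS : S.Finite) :
    ∃ (d : ℕ) (φ : MvPolynomial (Fin d) ℤ →+* F) (M : ℕ), Function.Injective φ ∧ 0 < M ∧
      ∀ s ∈ S, φ.IsIntegralElem ((M : F) * s) := by
  let _ : Algebra ℚ F := DivisionRing.toRatAlgebra
  let B := Algebra.adjoin ℚ S
  have _ : Algebra.FiniteType ℚ B := B.fg_iff_finiteType.1 ⟨hS.toFinset, by simp [B]⟩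
  obtain ⟨d, g, hg, hgi⟩ := exists_integral_inj_algHom_of_fg ℚ B
  let ι : MvPolynomial (Fin d) ℚ →+* F := (B.val : B →+* F).comp (g : _ →+* B)
  have hι : Function.Injective ι := Subtype.val_injective.comp hg
  have hint : ∀ s ∈ S, ι.IsIntegralElem s := by
    intro s hs
    obtain ⟨q, hq, h⟩ := hgi ⟨s, Algebra.subset_adjoin hs⟩
    refine ⟨q, hq, ?_⟩
    have h1 := congrArg (B.val : B →+* F) h
    rw [Polynomial.hom_eval₂, map_zero] at h1
    exact h1
  have h1 : ∀ s : F, ∃ m : ℕ, 0 < m ∧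
      (s ∈ S → (ι.comp (map (Int.castRingHom ℚ))).IsIntegralElem ((m : F) * s)) := by
    intro s
    by_cases hs : s ∈ S
    · obtain ⟨m, hm, h⟩ := one_elem ι s (hint s hs)
      exact ⟨m, hm, fun _ => h⟩
    · exact ⟨1, one_pos, fun h => absurd h hs⟩
  choose m hm h2 using h1
  refine ⟨d, ι.comp (map (Int.castRingHom ℚ)), ∏ s ∈ hS.toFinset, m s,
    hι.comp (map_injective _ Int.cast_injective), Finset.prod_pos fun s _ => hm s, ?_⟩
  intro s hs
  classical
  have h3 := h2 s hs
  rw [← Finset.prod_erase_mul _ _ (hS.mem_toFinset.2 hs), Nat.cast_mul, mul_assoc]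
  let _ : Algebra (MvPolynomial (Fin d) ℤ) F := (ι.comp (map (Int.castRingHom ℚ))).toAlgebra
  have h4 : IsIntegral (MvPolynomial (Fin d) ℤ) ((m s : F) * s) := h3
  exact (int_nat _).mul h4

end Noether

end NNF

open NNF in
theorem t_NNF : s_NNF.{u} := by
  intro F _ _ S hS
  obtain ⟨d, φ, M, hφ, hM, hint⟩ := noether S hS
  refine ⟨M, hM, fun ν hν h0 => ?_⟩
  let _ : Algebra (MvPolynomial (Fin d) ℤ) F := φ.toAlgebra
  have _ : FaithfulSMul (MvPolynomial (Fin d) ℤ) F :=
    (faithfulSMul_iff_algebraMap_injective _ _).2 hφ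
  obtain ⟨τ, c, hc, hτ, hy⟩ := traceFun (P := MvPolynomial (Fin d) ℤ) S hS M hM hint ν hν h0
  obtain ⟨l, hl, hly⟩ := functional d c hc
  have hmem : ∀ x, l (τ x) ∈ ZM M := by
    intro x
    obtain ⟨k, y, h⟩ := hy x
    obtain ⟨a, ha⟩ := hly y
    refine ⟨k, a, ?_⟩
    have e : (M : FractionRing (MvPolynomial (Fin d) ℤ)) ^ k * τ x = (M ^ k) • τ x := by
      rw [nsmul_eq_mul, Nat.cast_pow]
    rw [← ha, ← h, e, map_nsmul, nsmul_eq_mul, Nat.cast_pow]
  refine ⟨(l.comp τ).codRestrict (ZM M).toAddSubgroup hmem, fun h => ?_⟩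
  intro h5
  have h6 : l (τ ⟨ν, h⟩) = 0 := congrArg Subtype.val h5
  rw [hτ] at h6
  exact hl h6

end Pool.Agent.SUR
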