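import Pool.Agent.SUR.StO

/-!
# Automorphisms of free groups which preserve all conjugacy invariants are inner
-/

set_option autoImplicit false

universe u

namespace Pool.Agent.SUR

namespace OINN

section general

variable {π : Type*} [Group π] {d : ℕ}

lemma cyT_conj (ρ : π →* Matrix (Fin d) (Fin d) (DualNumber ℤ)) (h g : π) :
    cyT ρ (h * g * h⁻¹) = cyT ρ g := by
  unfold cyT
  rw [map_mul, map_mul, Matrix.trace_mul_comm, ← mul_assoc, ← map_mul, inv_mul_cancel, map_one,
    one_mul]

lemma cyT_isConj (ρ : π →* Matrix (Fin d) (Fin d) (DualNumber ℤ)) {g g' : π} (h : IsConj g g') :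
    cyT ρ g = cyT ρ g' := by
  obtain ⟨c, rfl⟩ := isConj_iff.mp h
  exact (cyT_conj ρ c g).symm

/-- all functions `cyT` are preserved -/
def Pres (θ : MulAut π) : Prop :=
  ∀ (d : ℕ) (ρ : π →* Matrix (Fin d) (Fin d) (DualNumber ℤ)), Adm ρ →
    ∀ g, cyT ρ (θ g) = cyT ρ g

lemma Pres.conj {θ : MulAut π} (h : Pres θ) (c : π) : Pres (MulAut.conj c * θ) := by
  intro d ρ hρ g
  rw [MulAut.mul_apply, MulAut.conj_apply, cyT_conj]
  exact h d ρ hρ g

end general

/-! ### Exponent sums -/

/-- the representations of `ℤ` of size one -/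
def E1 : Multiplicative ℤ →* Matrix (Fin 1) (Fin 1) (DualNumber ℤ) where
  toFun n := fun _ _ => TrivSqZeroExt.inl 1 + TrivSqZeroExt.inr (Multiplicative.toAdd n)
  map_one' := by
    ext i j
    · rw [Subsingleton.elim i j]
      simp
    · rw [Subsingleton.elim i j]
      simp
  map_mul' a b := by
    ext i j
    · simp [Matrix.mul_apply]
    · simp [Matrix.mul_apply]
      ring

variable {α : Type u}

/-- exponent sum -/
def ex (z : α) [DecidableEq α] : FreeGroup α →* Multiplicative ℤ :=
  FreeGroup.lift fun y => if y = z then Multiplicative.ofAdd 1 else 1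

lemma cyT_E1 (z : α) [DecidableEq α] (g : FreeGroup α) :
    cyT (E1.comp (ex z)) g = Multiplicative.toAdd (ex z g) := by
  unfold cyT
  simp [Matrix.trace, E1]

lemma adm_E1 (z : α) [DecidableEq α] : Adm (E1.comp (ex z)) := by
  intro h i j _
  rw [if_pos (Subsingleton.elim i j)]
  simp [E1]

/-! ### Lists of syllables -/

/-- product of syllables -/
def pL (L : List (α × ℤ)) : FreeGroup α := (L.map fun p => FreeGroup.of p.1 ^ p.2).prod

lemma pL_nil : pL ([] : List (α × ℤ)) = 1 := rfl

lemma pL_cons (p : α × ℤ) (L : List (α × ℤ)) : pL (p :: L) = FreeGroup.of p.1 ^ p.2 * pL L := by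
  simp [pL]

lemma pL_append (L L' : List (α × ℤ)) : pL (L ++ L') = pL L * pL L' := by
  simp [pL]

/-- the inverse word -/
def iv (L : List (α × ℤ)) : List (α × ℤ) := (L.map fun p => (p.1, -p.2)).reverse

lemma pL_iv (L : List (α × ℤ)) : pL (iv L) = (pL L)⁻¹ := by
  induction L with
  | nil => simp [iv, pL]
  | cons p L ih =>
    have e : iv (p :: L) = iv L ++ [(p.1, -p.2)] := by simp [iv]
    rw [e, pL_append, ih, pL_cons, pL_cons, pL_nil]
    simp

/-- different adjacent letters -/
def Adj (L : List (α × ℤ)) : Prop := L.IsChain (fun p q => p.1 ≠ q.1)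

lemma pL_ofFn (n : ℕ) (x : Fin n → α) (e : Fin n → ℤ) :
    pL (List.ofFn fun i => (x i, e i)) = (List.ofFn fun i => FreeGroup.of (x i) ^ e i).prod := by
  unfold pL
  rw [List.map_ofFn]
  rfl

lemma omatL (hOMAT : s_OMAT.{u}) (L : List (α × ℤ)) (p : α × ℤ) (L0 : List (α × ℤ)) (q : α × ℤ)
    (hL : L = p :: (L0 ++ [q])) (hadj : Adj L) (hcyc : q.1 ≠ p.1) (hne : ∀ r ∈ L, r.2 ≠ 0) :
    ∃ (d : ℕ) (ρ : FreeGroup α →* Matrix (Fin d) (Fin d) (DualNumber ℤ)), Adm ρ ∧
      cyT ρ (pL L) ≠ 0 ∧ ∀ L' : List (α × ℤ), L'.length < L.length → cyT ρ (pL L') = 0 := by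
  have hlen : L.length = L0.length + 2 := by rw [hL]; simp
  obtain ⟨m, hm⟩ : ∃ m, m = L0.length := ⟨_, rfl⟩
  have hlen' : m + 2 = L.length := by rw [hlen, hm]
  obtain ⟨ρ, h1, h2, h3⟩ := hOMAT α m (fun i => (L.get (Fin.cast hlen' i)).1)
    (fun i => (L.get (Fin.cast hlen' i)).2) (by
      intro i
      by_cases hi : (i : ℕ) + 1 < m + 2
      · have e1 : ((i + 1 : Fin (m + 2)) : ℕ) = (i : ℕ) + 1 := by
          rw [Fin.val_add_one_of_lt']
          exact hi
        have := (List.isChain_iff_getElem.mp hadj) (i : ℕ) (by omega)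
        simp only [List.get_eq_getElem, Fin.val_cast, e1]
        exact this
      · have hi' : (i : ℕ) = m + 1 := by have := i.isLt; omega
        have e1 : i = Fin.last (m + 1) := Fin.ext (by simpa using hi')
        have e2 : (i + 1 : Fin (m + 2)) = 0 := by rw [e1]; exact Fin.last_add_one _
        simp only [List.get_eq_getElem, Fin.val_cast, e2, hi', Fin.val_zero]
        have e3 : L[0]'(by omega) = p := by simp [hL]
        have e4 : L[m + 1]'(by omega) = q := by
          simp [hL, hm]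
        rw [e3, e4]
        exact hcyc) (by
      intro i
      exact hne _ (List.get_mem _ _))
  refine ⟨m + 2, ρ, h1, ?_, ?_⟩
  · have e1 : L = List.ofFn fun i : Fin (m + 2) =>
        ((L.get (Fin.cast hlen' i)).1, (L.get (Fin.cast hlen' i)).2) := by
      apply List.ext_getElem
      · simp [hlen']
      · intro k h4 h5
        rw [List.getElem_ofFn]
        rfl
    rw [e1, pL_ofFn]
    convert h2 using 1
  · intro L' hL'
    have e1 : L' = List.ofFn fun i : Fin L'.length => ((L'.get i).1, (L'.get i).2) := by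
      apply List.ext_getElem
      · simp
      · intro k h4 h5
        simp
    have := h3 L'.length (fun i => (L'.get i).1) (fun i => (L'.get i).2) (by omega)
    rw [e1, pL_ofFn]
    convert this using 1

lemma osylL (hOSYL : s_OSYL.{u}) (g : FreeGroup α) : ∃ L : List (α × ℤ), g = pL L ∧
    (∀ r ∈ L, r.2 ≠ 0) ∧ Adj L := by
  obtain ⟨⟨l, z, f, hg, hf, hz⟩, -⟩ := hOSYL α g
  refine ⟨List.ofFn fun i => (z i, f i), ?_, ?_, ?_⟩
  · rw [pL_ofFn, hg]
  · intro r hr
    rw [List.mem_ofFn] at hr
    obtain ⟨i, rfl⟩ := hr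
    exact hf i
  · unfold Adj
    rw [List.isChain_iff_getElem]
    intro i hi
    simp only [List.getElem_ofFn]
    exact hz _ _ rfl

/-- Step 1. -/
lemma step1 (hOMAT : s_OMAT.{u}) (hOSYL : s_OSYL.{u}) {θ : MulAut (FreeGroup α)} (h : Pres θ)
    (x : α) : IsConj (FreeGroup.of x) (θ (FreeGroup.of x)) := by
  classical
  obtain ⟨-, h1 | ⟨y, e, he, hc⟩ | ⟨m, y, e, hy, he, hc⟩⟩ := hOSYL α (θ (FreeGroup.of x))
  · exfalso
    have : FreeGroup.of x = 1 := by
      apply θ.injective
      rw [h1, map_one]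
    exact FreeGroup.of_ne_one x this
  · have e1 := h 1 _ (adm_E1 x) (FreeGroup.of x)
    rw [← cyT_isConj _ hc, cyT_E1, cyT_E1, map_zpow] at e1
    simp only [ex, FreeGroup.lift_apply_of] at e1
    by_cases hyx : y = x
    · subst hyx
      simp at e1
      subst e1
      simpa using hc
    · simp [hyx] at e1
  · exfalso
    obtain ⟨ρ, h1, h2, h3⟩ := hOMAT α m y e hy he
    apply h2
    rw [cyT_isConj ρ hc, h _ ρ h1]
    have := h3 1 (fun _ => x) (fun _ => 1) (by omega)
    simpa using this

/-- Step 2. -/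
lemma step2 (hOMAT : s_OMAT.{u}) (hOSYL : s_OSYL.{u}) {θ : MulAut (FreeGroup α)} (h : Pres θ)
    (x y : α) (hxy : x ≠ y) (hx : θ (FreeGroup.of x) = FreeGroup.of x) :
    ∃ k : ℤ, θ (FreeGroup.of y) = FreeGroup.of x ^ k * FreeGroup.of y * (FreeGroup.of x ^ k)⁻¹ := by
  classical
  obtain ⟨g, hg⟩ := isConj_iff.mp (step1 hOMAT hOSYL h y)
  -- minimal representation
  have hex : ∃ n : ℕ, ∃ (L : List (α × ℤ)) (k j : ℤ), L.length = n ∧
      g = FreeGroup.of x ^ k * pL L * FreeGroup.of y ^ j ∧ (∀ r ∈ L, r.2 ≠ 0) ∧ Adj L := by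
    obtain ⟨L, h1, h2, h3⟩ := osylL hOSYL g
    exact ⟨L.length, L, 0, 0, rfl, by simpa using h1, h2, h3⟩
  obtain ⟨L, k, j, hlen, hgL, hne, hadj⟩ := Nat.find_spec hex
  have hmin : ∀ (L' : List (α × ℤ)) (k' j' : ℤ),
      g = FreeGroup.of x ^ k' * pL L' * FreeGroup.of y ^ j' → (∀ r ∈ L', r.2 ≠ 0) → Adj L' →
      L.length ≤ L'.length := by
    intro L' k' j' h1 h2 h3
    rw [hlen]
    exact Nat.find_min' hex ⟨L', k', j', rfl, h1, h2, h3⟩
  rcases List.eq_nil_or_concat L with hL0 | ⟨L1, q, hL1⟩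
  · refine ⟨k, ?_⟩
    rw [← hg, hgL, hL0, pL_nil]
    group
  · exfalso
    -- the last letter is not y
    have hq : q.1 ≠ y := by
      intro hqy
      have h1 := hmin L1 k (q.2 + j) (by
        rw [hgL, hL1, List.concat_eq_append, pL_append, pL_cons, pL_nil, mul_one, hqy, zpow_add]
        group) (fun r hr => hne r (by rw [hL1]; simp [hr])) (by
        unfold Adj at hadj ⊢
        rw [hL1, List.concat_eq_append] at hadj
        exact hadj.left_of_append)
      rw [hL1] at h1
      simp at h1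
    obtain ⟨p, L2, hL2⟩ : ∃ p L2, L = p :: L2 := by
      cases L with
      | nil => simp at hL1
      | cons p L2 => exact ⟨p, L2, rfl⟩
    have hp : p.1 ≠ x := by
      intro hpx
      have h1 := hmin L2 (k + p.2) j (by
        rw [hgL, hL2, pL_cons, hpx, zpow_add]
        group) (fun r hr => hne r (by rw [hL2]; simp [hr])) (by
        unfold Adj at hadj ⊢
        rw [hL2] at hadj
        exact hadj.tail)
      rw [hL2] at h1
      simp at h1
    -- the cyclic word
    have hiv : ∃ L3, iv L = L3 ++ [(p.1, -p.2)] := ⟨iv L2, by rw [hL2]; simp [iv]⟩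
    obtain ⟨L3, hL3⟩ := hiv
    have hivh : ∃ L4, iv L = (q.1, -q.2) :: L4 := ⟨iv L1, by rw [hL1]; simp [iv]⟩
    obtain ⟨L4, hL4⟩ := hivh
    have hadjiv : Adj (iv L) := by
      unfold Adj iv
      rw [List.isChain_reverse, List.isChain_map]
      unfold Adj at hadj
      refine hadj.imp ?_
      intro a b hab
      exact fun h => hab h.symm
    obtain ⟨d, ρ, h1, h2, h3⟩ := omatL hOMAT ((x, 1) :: (L ++ (y, 1) :: iv L)) (x, 1)
      (L ++ (y, 1) :: L3) (p.1, -p.2) (by rw [hL3]; simp) (by
        unfold Adj at hadj hadjiv ⊢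
        rw [List.isChain_cons]
        constructor
        · intro r hr
          rw [hL2] at hr
          simp at hr
          rw [← hr]
          exact fun h => hp h.symm
        · rw [List.isChain_append]
          refine ⟨hadj, ?_, ?_⟩
          · rw [List.isChain_cons]
            refine ⟨?_, hadjiv⟩
            intro r hr
            rw [hL4] at hr
            simp at hr
            rw [← hr]
            exact fun h => hq h.symm
          · intro a ha b hb
            rw [hL1] at ha
            simp at ha hb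
            rw [← hb, ← ha]
            exact hq) hp (by
        intro r hr
        simp only [List.mem_cons, List.mem_append] at hr
        rcases hr with rfl | hr | rfl | hr
        · simp
        · exact hne r hr
        · simp
        · unfold iv at hr
          rw [List.mem_reverse, List.mem_map] at hr
          obtain ⟨a, ha, rfl⟩ := hr
          simpa using hne a ha)
    apply h2
    have e1 : pL ((x, 1) :: (L ++ (y, 1) :: iv L)) =
        FreeGroup.of x * (pL L * (FreeGroup.of y * (pL L)⁻¹)) := by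
      rw [pL_cons, pL_append, pL_cons, pL_iv]
      simp
    have e2 : θ (FreeGroup.of x * FreeGroup.of y) = FreeGroup.of x ^ k *
        (FreeGroup.of x * (pL L * (FreeGroup.of y * (pL L)⁻¹))) * (FreeGroup.of x ^ k)⁻¹ := by
      rw [map_mul, hx, ← hg, hgL]
      group
    rw [e1, ← cyT_conj ρ (FreeGroup.of x ^ k), ← e2, h _ ρ h1]
    have := h3 [(x, 1), (y, 1)] (by
      rw [hL1]
      simp
      omega)
    rw [pL_cons, pL_cons, pL_nil] at this
    simpa using this

/-- Step 3. -/
lemma step3 (hOMAT : s_OMAT.{u}) {θ : MulAut (FreeGroup α)} (h : Pres θ)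
    (x y z : α) (hxy : x ≠ y) (hxz : x ≠ z) (hy : θ (FreeGroup.of y) = FreeGroup.of y)
    (k : ℤ) (hz : θ (FreeGroup.of z) =
      FreeGroup.of x ^ k * FreeGroup.of z * (FreeGroup.of x ^ k)⁻¹) : k = 0 := by
  by_contra hk
  obtain ⟨d, ρ, h1, h2, h3⟩ := omatL hOMAT [(y, 1), (x, k), (z, 1), (x, -k)] (y, 1)
    [(x, k), (z, 1)] (x, -k) (by simp) (by
      unfold Adj
      simp [hxy.symm, hxz, hxz.symm]) (by simpa using hxy) (by
      intro r hr
      simp at hr
      rcases hr with rfl | rfl | rfl | rfl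
      · simp
      · simpa using hk
      · simp
      · simpa using hk)
  apply h2
  have e1 : pL [(y, 1), (x, k), (z, 1), (x, -k)] = θ (FreeGroup.of y * FreeGroup.of z) := by
    rw [map_mul, hy, hz]
    simp [pL_cons, pL_nil, mul_assoc]
  rw [e1, h _ ρ h1]
  have := h3 [(y, 1), (z, 1)] (by simp)
  rw [pL_cons, pL_cons, pL_nil] at this
  simpa using this

lemma eq_one_of_gen {θ : MulAut (FreeGroup α)} (h : ∀ x, θ (FreeGroup.of x) = FreeGroup.of x) :
    θ = 1 := by
  have : θ.toMonoidHom = MonoidHom.id _ := FreeGroup.ext_hom _ _ (fun x => h x)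
  ext g
  have e := DFunLike.congr_fun this g
  exact e

end OINN

open OINN in
theorem t_OINN (hOMAT : s_OMAT.{u}) (hOSYL : s_OSYL.{u}) : s_OINN.{u} := by
  intro α θ hθ
  have hP : Pres θ := hθ
  have hred : ∀ (c : FreeGroup α), MulAut.conj c * θ ∈ (MulAut.conj (G := FreeGroup α)).range →
      θ ∈ (MulAut.conj (G := FreeGroup α)).range := by
    intro c hc
    have h1 : MulAut.conj c ∈ (MulAut.conj (G := FreeGroup α)).range := ⟨c, rfl⟩
    exact (Subgroup.mul_mem_cancel_left _ h1).mp hc
  rcases isEmpty_or_nonempty α with hα | ⟨⟨x⟩⟩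
  · have : θ = 1 := eq_one_of_gen (fun x => (hα.false x).elim)
    rw [this]
    exact Subgroup.one_mem _
  · obtain ⟨c, hc⟩ := isConj_iff.mp (step1 hOMAT hOSYL hP x)
    apply hred c⁻¹
    have hP1 : Pres (MulAut.conj c⁻¹ * θ) := hP.conj c⁻¹
    have hx1 : (MulAut.conj c⁻¹ * θ) (FreeGroup.of x) = FreeGroup.of x := by
      rw [MulAut.mul_apply, MulAut.conj_apply, ← hc]
      group
    generalize MulAut.conj c⁻¹ * θ = θ₁ at hP1 hx1 ⊢
    have hred1 : ∀ (c : FreeGroup α),
        MulAut.conj c * θ₁ ∈ (MulAut.conj (G := FreeGroup α)).range →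
        θ₁ ∈ (MulAut.conj (G := FreeGroup α)).range := by
      intro c hc
      have h1 : MulAut.conj c ∈ (MulAut.conj (G := FreeGroup α)).range := ⟨c, rfl⟩
      exact (Subgroup.mul_mem_cancel_left _ h1).mp hc
    by_cases hex : ∃ y, x ≠ y
    · obtain ⟨y, hxy⟩ := hex
      obtain ⟨k, hk⟩ := step2 hOMAT hOSYL hP1 x y hxy hx1
      apply hred1 (FreeGroup.of x ^ k)⁻¹
      have hP2 : Pres (MulAut.conj (FreeGroup.of x ^ k)⁻¹ * θ₁) := hP1.conj _
      have hx2 : (MulAut.conj (FreeGroup.of x ^ k)⁻¹ * θ₁) (FreeGroup.of x) = FreeGroup.of x := by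
        rw [MulAut.mul_apply, MulAut.conj_apply, hx1]
        group
      have hy2 : (MulAut.conj (FreeGroup.of x ^ k)⁻¹ * θ₁) (FreeGroup.of y) = FreeGroup.of y := by
        rw [MulAut.mul_apply, MulAut.conj_apply, hk]
        group
      generalize MulAut.conj (FreeGroup.of x ^ k)⁻¹ * θ₁ = θ₂ at hP2 hx2 hy2 ⊢
      have : θ₂ = 1 := by
        apply eq_one_of_gen
        intro z
        by_cases hxz : x = z
        · rw [← hxz]; exact hx2
        · obtain ⟨j, hj⟩ := step2 hOMAT hOSYL hP2 x z hxz hx2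
          have := step3 hOMAT hP2 x y z hxy hxz hy2 j hj
          rw [hj, this]
          simp
      rw [this]
      exact Subgroup.one_mem _
    · have hex : ∀ y, x = y := fun y => by_contra fun hne => hex ⟨y, hne⟩
      have : θ₁ = 1 := by
        apply eq_one_of_gen
        intro z
        rw [← hex z]
        exact hx1
      rw [this]
      exact Subgroup.one_mem _

end Pool.Agent.SUR
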