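import Pool.Agent.SUR.StO
import Pool.Agent.SUR.PFREE

/-!
# Syllables in free groups (module OSYL)
-/

set_option autoImplicit false

universe u

namespace Pool.Agent.SUR.OSYL

open PFREE

theorem ofFn_eq {β γ : Type*} (l : List β) (N : ℕ) (h : l.length = N) (F : β → γ) :
    List.ofFn (fun i : Fin N => F (l.get (i.cast h.symm))) = l.map F := by
  subst h
  conv_rhs => rw [← List.ofFn_get l, List.map_ofFn]
  rfl

/-- the cyclic form -/
def Concl {α : Type u} (g : FreeGroup α) : Prop :=
  g = 1 ∨ (∃ (x : α) (e : ℤ), e ≠ 0 ∧ IsConj (FreeGroup.of x ^ e) g) ∨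
    ∃ (m : ℕ) (x : Fin (m + 2) → α) (e : Fin (m + 2) → ℤ), (∀ i, x i ≠ x (i + 1)) ∧
      (∀ i, e i ≠ 0) ∧ IsConj ((List.ofFn fun i => FreeGroup.of (x i) ^ e i).prod) g

theorem Concl.conj {α : Type u} {g h : FreeGroup α} (hg : Concl g) (hc : IsConj g h) :
    Concl h := by
  rcases hg with rfl | ⟨x, e, he, h1⟩ | ⟨m, x, e, hx, he, h1⟩
  · left
    obtain ⟨c, hc⟩ := isConj_iff.1 hc
    rw [← hc, mul_one, mul_inv_cancel]
  · exact Or.inr (Or.inl ⟨x, e, he, h1.trans hc⟩)
  · exact Or.inr (Or.inr ⟨m, x, e, hx, he, h1.trans hc⟩)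

theorem pr_cons {α : Type u} (a : α × ℤ) (l : List (α × ℤ)) :
    pr (a :: l) = FreeGroup.of a.1 ^ a.2 * pr l := by
  simp [pr]

theorem pr_snoc {α : Type u} (a : α × ℤ) (l : List (α × ℤ)) :
    pr (l ++ [a]) = pr l * FreeGroup.of a.1 ^ a.2 := by
  simp [pr]

theorem last_ne {α : Type u} (a b : α × ℤ) (mid : List (α × ℤ)) (hab : a.1 ≠ b.1)
    (hg : Good (a :: (mid ++ [b]))) : Concl (pr (a :: (mid ++ [b]))) := by
  have hlen : (a :: (mid ++ [b])).length = mid.length + 2 := by simp
  refine Or.inr (Or.inr ⟨mid.length,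
    fun i => ((a :: (mid ++ [b])).get (i.cast hlen.symm)).1,
    fun i => ((a :: (mid ++ [b])).get (i.cast hlen.symm)).2, ?_, ?_, ?_⟩)
  · intro i
    by_cases hi : i = Fin.last (mid.length + 1)
    · subst hi
      have h0 : Fin.last (mid.length + 1) + 1 = 0 := Fin.last_add_one _
      rw [h0]
      have e1 : (a :: (mid ++ [b])).get (Fin.cast hlen.symm (Fin.last (mid.length + 1))) = b := by
        show (a :: (mid ++ [b]))[mid.length + 1] = b
        simp
      have e2 : (a :: (mid ++ [b])).get (Fin.cast hlen.symm (0 : Fin (mid.length + 2))) = a := rfl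
      show ((a :: (mid ++ [b])).get (Fin.cast hlen.symm (Fin.last (mid.length + 1)))).1 ≠
        ((a :: (mid ++ [b])).get (Fin.cast hlen.symm (0 : Fin (mid.length + 2)))).1
      rw [e1, e2]
      exact fun h => hab h.symm
    · have hlt : i < Fin.last (mid.length + 1) := lt_of_le_of_ne (Fin.le_last i) hi
      have hv : ((i + 1 : Fin (mid.length + 2)) : ℕ) = i + 1 := Fin.val_add_one_of_lt hlt
      have h1 : (i : ℕ) + 1 < (a :: (mid ++ [b])).length := by
        rw [hlen, ← hv]
        exact (i + 1).2
      have h2 := List.isChain_iff_getElem.1 hg.2 i h1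
      have e1 : (a :: (mid ++ [b])).get (Fin.cast hlen.symm (i + 1)) =
          (a :: (mid ++ [b]))[(i : ℕ) + 1] := by
        show (a :: (mid ++ [b]))[((i + 1 : Fin (mid.length + 2)) : ℕ)] = _
        congr 1
      show ((a :: (mid ++ [b])).get (Fin.cast hlen.symm i)).1 ≠
        ((a :: (mid ++ [b])).get (Fin.cast hlen.symm (i + 1))).1
      rw [e1]
      exact h2
  · intro i
    exact hg.1 _ (List.get_mem _ _)
  · have h1 := ofFn_eq (a :: (mid ++ [b])) (mid.length + 2) hlen
      (fun p : α × ℤ => FreeGroup.of p.1 ^ p.2)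
    show IsConj (List.ofFn fun i : Fin (mid.length + 2) =>
      FreeGroup.of ((a :: (mid ++ [b])).get (i.cast hlen.symm)).1 ^
        ((a :: (mid ++ [b])).get (i.cast hlen.symm)).2).prod _
    rw [h1]
    exact IsConj.refl _

theorem main {α : Type u} (n : ℕ) : ∀ l : List (α × ℤ), l.length = n → Good l →
    Concl (pr l) := by
  induction n using Nat.strong_induction_on with
  | _ n ih =>
    intro l hl hg
    rcases l with _ | ⟨a, l1⟩
    · exact Or.inl rfl
    rcases List.eq_nil_or_concat' l1 with rfl | ⟨mid, b, rfl⟩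
    · refine Or.inr (Or.inl ⟨a.1, a.2, hg.1 a (List.mem_cons_self), ?_⟩)
      have h1 : pr [a] = FreeGroup.of a.1 ^ a.2 := by
        simp [pr]
      rw [h1]
    by_cases hab : a.1 = b.1
    · have hlen : mid.length + 2 = n := by
        rw [← hl]
        simp
      have hpr : IsConj (FreeGroup.of a.1 ^ (a.2 + b.2) * pr mid) (pr (a :: (mid ++ [b]))) := by
        rw [isConj_iff]
        refine ⟨(FreeGroup.of b.1 ^ b.2)⁻¹, ?_⟩
        rw [pr_cons, pr_snoc, add_comm, zpow_add, hab]
        group
      have hmid : Good mid := by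
        refine ⟨fun p hp => hg.1 p (List.mem_cons_of_mem _ (List.mem_append_left _ hp)), ?_⟩
        exact (hg.2.tail : (mid ++ [b]).IsChain _).left_of_append
      by_cases h0 : a.2 + b.2 = 0
      · rw [h0, zpow_zero, one_mul] at hpr
        exact (ih mid.length (by omega) mid rfl hmid).conj hpr
      · have hg' : Good ((a.1, a.2 + b.2) :: mid) := by
          refine ⟨?_, ?_⟩
          · intro p hp
            rcases List.mem_cons.1 hp with rfl | hp
            · exact h0
            · exact hmid.1 p hp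
          · have h1 : (a :: mid).IsChain (fun p q => p.1 ≠ q.1) := by
              have h2 := hg.2
              rw [← List.cons_append] at h2
              exact h2.left_of_append
            cases mid with
            | nil => exact List.isChain_singleton _
            | cons c t =>
              rw [List.isChain_cons_cons] at h1 ⊢
              exact h1
        have h1 := ih (mid.length + 1) (by omega) ((a.1, a.2 + b.2) :: mid) rfl hg'
        rw [pr_cons] at h1
        exact h1.conj hpr
    · exact last_ne a b mid hab hg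

end Pool.Agent.SUR.OSYL

namespace Pool.Agent.SUR

open PFREE OSYL in
theorem t_OSYL : s_OSYL.{u} := by
  intro α g
  obtain ⟨l, hl, rfl⟩ := PFREE.good_ex g
  refine ⟨⟨l.length, fun i => (l.get i).1, fun i => (l.get i).2, ?_, ?_, ?_⟩,
    main l.length l rfl hl⟩
  · have h1 := ofFn_eq l l.length rfl (fun p : α × ℤ => FreeGroup.of p.1 ^ p.2)
    show pr l = (List.ofFn fun i : Fin l.length =>
      FreeGroup.of (l.get (i.cast rfl)).1 ^ (l.get (i.cast rfl)).2).prod
    rw [h1]
    rfl
  · intro i
    exact hl.1 _ (List.get_mem _ _)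
  · intro i j hij
    have h1 : (i : ℕ) + 1 < l.length := by
      rw [hij]
      exact j.2
    have h2 := List.isChain_iff_getElem.1 hl.2 i h1
    have e1 : l.get j = l[(i : ℕ) + 1] := by
      show l[(j : ℕ)] = l[(i : ℕ) + 1]
      congr 1
      exact hij.symm
    show (l.get i).1 ≠ (l.get j).1
    rw [e1]
    exact h2

end Pool.Agent.SUR
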