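import Pool.Agent.SUR.StO
import Pool.Agent.SUR.RLSZ

/-!
# Outer automorphism groups: integral representations

`t_OUTL : s_RGRF → s_OTRJ → s_OUTL`.
-/

set_option autoImplicit false

universe u

namespace Pool.Agent.SUR.OUTL

open Finset

variable {π : Type u} [Group π]

open RLSZ (aH aH_single aH_one aH_mul aH_mem JJ mem_JJ nil_tors act_sub_JJ)

/-! ### Commutators -/

lemma comm_mem (x y : MonoidAlgebra ℤ π) : x * y - y * x ∈ CR π :=
  Submodule.subset_span ⟨x, y, rfl⟩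

lemma aH_mem_CR (φ : MulAut π) {a : MonoidAlgebra ℤ π} (ha : a ∈ CR π) : aH φ a ∈ CR π := by
  have h : (CR π).map (aH φ).toLinearMap ≤ CR π := by
    conv_lhs => unfold CR
    rw [Submodule.map_span_le]
    rintro z ⟨x, y, rfl⟩
    rw [AlgHom.toLinearMap_apply, map_sub, map_mul, map_mul]
    exact comm_mem _ _
  exact h (Submodule.mem_map_of_mem (f := (aH φ).toLinearMap) ha)

lemma aug (x : MonoidAlgebra ℤ π) : ∃ r : ℤ, x - r • 1 ∈ IZ π := by
  induction x using MonoidAlgebra.induction_linear with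
  | zero => exact ⟨0, by simp⟩
  | add a b h1 h2 =>
    obtain ⟨r, hr⟩ := h1
    obtain ⟨s, hs⟩ := h2
    refine ⟨r + s, ?_⟩
    have h : a + b - (r + s) • (1 : MonoidAlgebra ℤ π) = (a - r • 1) + (b - s • 1) := by
      rw [add_smul]; abel
    rw [h]
    exact Submodule.add_mem _ hr hs
  | single g r =>
    refine ⟨r, ?_⟩
    have h : (MonoidAlgebra.single g r : MonoidAlgebra ℤ π) - r • 1 =
        r • (MonoidAlgebra.single g 1 - 1) := by
      rw [smul_sub, MonoidAlgebra.smul_single, smul_eq_mul, mul_one]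
    rw [h]
    exact Submodule.smul_mem _ _ (Submodule.subset_span ⟨g, rfl⟩)

lemma CR_le : CR π ≤ IZ π ^ 2 := by
  unfold CR
  rw [Submodule.span_le]
  rintro z ⟨x, y, rfl⟩
  obtain ⟨r, hr⟩ := aug x
  obtain ⟨s, hs⟩ := aug y
  have h : x * y - y * x = (x - r • 1) * (y - s • 1) - (y - s • 1) * (x - r • 1) := by
    simp only [sub_mul, mul_sub, smul_mul_assoc, mul_smul_comm, one_mul, mul_one, smul_sub]
    rw [smul_comm r s]
    abel
  rw [SetLike.mem_coe, h, pow_two]
  exact Submodule.sub_mem _ (Submodule.mul_mem_mul hr hs) (Submodule.mul_mem_mul hs hr)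

lemma conj_sub_mem (h : π) (a : MonoidAlgebra ℤ π) : aH (MulAut.conj h) a - a ∈ CR π := by
  have h1 : aH (MulAut.conj h) a =
      MonoidAlgebra.single h 1 * a * MonoidAlgebra.single h⁻¹ 1 := by
    induction a using MonoidAlgebra.induction_linear with
    | zero => simp
    | add a b h1 h2 => rw [map_add, h1, h2]; noncomm_ring
    | single g r =>
      rw [aH_single, MonoidAlgebra.single_mul_single, MonoidAlgebra.single_mul_single, one_mul,
        mul_one, MulAut.conj_apply]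
  have h2 : a = MonoidAlgebra.single h⁻¹ 1 * (MonoidAlgebra.single h 1 * a) := by
    rw [← mul_assoc, MonoidAlgebra.single_mul_single, inv_mul_cancel, mul_one,
      ← MonoidAlgebra.one_def, one_mul]
  have h3 : aH (MulAut.conj h) a - a =
      (MonoidAlgebra.single h 1 * a) * MonoidAlgebra.single h⁻¹ 1 -
        MonoidAlgebra.single h⁻¹ 1 * (MonoidAlgebra.single h 1 * a) := by
    rw [← h2, h1]
  rw [h3]
  exact comm_mem _ _

/-! ### The lattices -/

/-- the elements with a multiple in the power of the augmentation ideal plus the commutators -/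
def JC (π : Type u) [Group π] (k : ℕ) : Submodule ℤ (MonoidAlgebra ℤ π) where
  carrier := {a | ∃ m : ℕ, 0 < m ∧ m • a ∈ IZ π ^ k ⊔ CR π}
  zero_mem' := ⟨1, one_pos, by simp⟩
  add_mem' := by
    rintro a b ⟨m, hm, ha⟩ ⟨n, hn, hb⟩
    refine ⟨m * n, Nat.mul_pos hm hn, ?_⟩
    rw [smul_add]
    refine Submodule.add_mem _ ?_ ?_
    · rw [mul_comm, mul_smul]
      exact Submodule.smul_of_tower_mem _ n ha
    · rw [mul_smul]
      exact Submodule.smul_of_tower_mem _ m hb
  smul_mem' := by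
    rintro r a ⟨m, hm, ha⟩
    refine ⟨m, hm, ?_⟩
    rw [smul_comm]
    exact Submodule.smul_mem _ r ha

lemma le_JC (k : ℕ) : IZ π ^ k ≤ JC π k := fun a ha =>
  ⟨1, one_pos, by rw [one_smul]; exact (le_sup_left : IZ π ^ k ≤ _) ha⟩

lemma CR_le_JC (k : ℕ) : CR π ≤ JC π k := fun a ha =>
  ⟨1, one_pos, by rw [one_smul]; exact (le_sup_right : CR π ≤ _) ha⟩

lemma JJ_le_JC (k : ℕ) : JJ π k ≤ JC π k := by
  rintro a ⟨m, hm, h⟩
  exact ⟨m, hm, (le_sup_left : IZ π ^ k ≤ _) h⟩

lemma JC_two : JC π 2 ≤ JJ π 2 := by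
  rintro a ⟨m, hm, h⟩
  rw [sup_eq_left.2 CR_le] at h
  exact ⟨m, hm, h⟩

lemma JC_pure {k : ℕ} {a : MonoidAlgebra ℤ π} {n : ℕ} (hn : 0 < n) (h : n • a ∈ JC π k) :
    a ∈ JC π k := by
  obtain ⟨m, hm, h1⟩ := h
  exact ⟨m * n, Nat.mul_pos hm hn, by rwa [mul_smul]⟩

lemma aH_mem_JC (φ : MulAut π) {k : ℕ} {a : MonoidAlgebra ℤ π} (ha : a ∈ JC π k) :
    aH φ a ∈ JC π k := by
  obtain ⟨m, hm, h1⟩ := ha
  refine ⟨m, hm, ?_⟩
  rw [← map_nsmul]
  obtain ⟨y, hy, z, hz, hyz⟩ := Submodule.mem_sup.1 h1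
  rw [← hyz, map_add]
  exact Submodule.add_mem_sup (aH_mem φ hy) (aH_mem_CR φ hz)

/-- the lattices -/
abbrev LC (π : Type u) [Group π] (k : ℕ) : Type u := MonoidAlgebra ℤ π ⧸ JC π k

lemma LC_finite (hG : s_RGRF.{u}) (hfg : Group.FG π) {k : ℕ} (hk : 1 ≤ k) :
    Module.Finite ℤ (LC π k) := by
  have := hG π hfg k hk
  exact Module.Finite.of_surjective (Submodule.factor (le_JC k)) (Submodule.factor_surjective _)

lemma LC_tf {k : ℕ} (n : ℕ) (hn : n ≠ 0) (a : LC π k) (h : n • a = 0) : a = 0 := by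
  obtain ⟨a, rfl⟩ := Submodule.Quotient.mk_surjective _ a
  rw [← Submodule.Quotient.mk_smul, Submodule.Quotient.mk_eq_zero] at h
  rw [Submodule.Quotient.mk_eq_zero]
  exact JC_pure (Nat.pos_of_ne_zero hn) h

instance {k : ℕ} : Module.IsTorsionFree ℤ (LC π k) := by
  refine Module.IsTorsionFree.of_smul_eq_zero fun r a h => ?_
  by_cases hr : r = 0
  · exact Or.inl hr
  · right
    refine LC_tf r.natAbs (by omega) a ?_
    rcases Int.natAbs_eq r with h1 | h1
    · rw [← Nat.cast_smul_eq_nsmul ℤ, ← h1]; exact h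
    · rw [h1, neg_smul, neg_eq_zero] at h
      rw [← Nat.cast_smul_eq_nsmul ℤ]; exact h

/-- the action on the lattices -/
noncomputable def act (π : Type u) [Group π] (k : ℕ) : MulAut π →* Module.End ℤ (LC π k) where
  toFun φ := Submodule.mapQ _ _ (aH φ).toLinearMap (fun _ ha => aH_mem_JC φ ha)
  map_one' := by
    refine Submodule.linearMap_qext _ ?_
    ext a
    simp [aH_one]
  map_mul' φ ψ := by
    refine Submodule.linearMap_qext _ (LinearMap.ext fun a => ?_)
    show Submodule.Quotient.mk (aH (φ * ψ) a) = Submodule.Quotient.mk (aH φ (aH ψ a))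
    rw [aH_mul, AlgHom.comp_apply]

lemma act_mk (k : ℕ) (φ : MulAut π) (a : MonoidAlgebra ℤ π) :
    act π k φ (Submodule.Quotient.mk a) = Submodule.Quotient.mk (aH φ a) := rfl

lemma act_inner (k : ℕ) {φ : MulAut π} (hφ : φ ∈ (MulAut.conj (G := π)).range) :
    act π k φ = 1 := by
  obtain ⟨h, rfl⟩ := hφ
  refine LinearMap.ext fun v => ?_
  obtain ⟨a, rfl⟩ := Submodule.Quotient.mk_surjective _ v
  rw [act_mk, Module.End.one_apply]
  exact (Submodule.Quotient.eq _).2 (CR_le_JC k (conj_sub_mem h a))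

lemma end_tf {k : ℕ} (f : ℕ) (a : Module.End ℤ (LC π k)) (hf : f ≠ 0)
    (h : (f : Module.End ℤ (LC π k)) * a = 0) : a = 0 := by
  rw [← nsmul_eq_mul] at h
  refine LinearMap.ext fun v => ?_
  have h1 := LinearMap.congr_fun h v
  rw [LinearMap.smul_apply, LinearMap.zero_apply] at h1
  exact LC_tf f hf _ h1

/-- the action of the outer automorphism group -/
lemma act_out {𝒢 : Type u} [Group 𝒢] (q : MulAut π →* 𝒢) (hq : Function.Surjective q)
    (hker : q.ker = (MulAut.conj (G := π)).range) (k : ℕ) :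
    ∃ a : 𝒢 →* Module.End ℤ (LC π k), ∀ φ, a (q φ) = act π k φ := by
  have h1 : q.ker ≤ (act π k).toHomUnits.ker := by
    intro φ hφ
    rw [hker] at hφ
    rw [MonoidHom.mem_ker]
    refine Units.ext ?_
    rw [MonoidHom.coe_toHomUnits, act_inner k hφ]
    rfl
  refine ⟨(Units.coeHom _).comp (q.liftOfSurjective hq ⟨(act π k).toHomUnits, h1⟩), fun φ => ?_⟩
  rw [MonoidHom.comp_apply]
  have h2 := MonoidHom.liftOfRightInverse_comp_apply q _ (Function.rightInverse_surjInv hq)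
    ⟨(act π k).toHomUnits, h1⟩ φ
  show ((q.liftOfSurjective hq ⟨(act π k).toHomUnits, h1⟩ (q φ) : (Module.End ℤ (LC π k))ˣ) :
    Module.End ℤ (LC π k)) = _
  rw [MonoidHom.liftOfSurjective]
  erw [h2]
  rfl

/-- if all matrices have finite order then so do all the actions -/
lemma fin_act (hG : s_RGRF.{u}) (hfg : Group.FG π) {𝒢 : Type u} [Group 𝒢] (q : MulAut π →* 𝒢)
    (hq : Function.Surjective q) (hker : q.ker = (MulAut.conj (G := π)).range) (x : MulAut π)
    (hx : ∀ (n : ℕ) (ρ : 𝒢 →* Matrix (Fin n) (Fin n) ℤ), IsOfFinOrder (ρ (q x))) {k : ℕ}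
    (hk : 1 ≤ k) : IsOfFinOrder (act π k x) := by
  have := LC_finite hG hfg hk
  obtain ⟨a, ha⟩ := act_out q hq hker k
  have b := Module.finBasis ℤ (LC π k)
  have h := hx _ ((LinearMap.toMatrixAlgEquiv b).toAlgHom.toRingHom.toMonoidHom.comp a)
  have h1 : IsOfFinOrder ((LinearMap.toMatrixAlgEquiv b) (a (q x))) := h
  rw [ha] at h1
  exact ((LinearMap.toMatrixAlgEquiv b).toMulEquiv.injective.isOfFinOrder_iff
    (f := (LinearMap.toMatrixAlgEquiv b).toMulEquiv.toMonoidHom)).1 h1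

lemma nil_act {η : MulAut π} (h2 : ∀ a : MonoidAlgebra ℤ π, aH η a - a ∈ JJ π 2) (k : ℕ) :
    IsNilpotent (act π (k + 2) η - 1) := by
  refine ⟨k + 1, ?_⟩
  have key : ∀ (i : ℕ) (a : MonoidAlgebra ℤ π), ∃ b ∈ JJ π (i + 2),
      ((act π (k + 2) η - 1) ^ (i + 1)) (Submodule.Quotient.mk a) = Submodule.Quotient.mk b := by
    intro i
    induction i with
    | zero =>
      intro a
      refine ⟨aH η a - a, h2 a, ?_⟩
      rw [zero_add, pow_one, LinearMap.sub_apply, act_mk, Module.End.one_apply]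
      rfl
    | succ i ih =>
      intro a
      obtain ⟨b, hb, h⟩ := ih a
      refine ⟨aH η b - b, act_sub_JJ h2 hb, ?_⟩
      rw [pow_succ', Module.End.mul_apply, h, LinearMap.sub_apply, act_mk, Module.End.one_apply]
      rfl
  refine LinearMap.ext fun v => ?_
  obtain ⟨a, rfl⟩ := Submodule.Quotient.mk_surjective _ v
  obtain ⟨b, hb, h⟩ := key k a
  rw [h, LinearMap.zero_apply, Submodule.Quotient.mk_eq_zero]
  exact JJ_le_JC _ hb

end Pool.Agent.SUR.OUTL

namespace Pool.Agent.SUR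

open RLSZ (aH aH_single JJ nil_tors) in
open OUTL in
theorem t_OUTL (hG : s_RGRF.{u}) (hOTRJ : s_OTRJ.{u}) : s_OUTL.{u} := by
  intro π _ hfg hsep 𝒢 _ q hq hker x hx
  by_contra hcon
  push Not at hcon
  obtain ⟨y, rfl⟩ := hq x
  have hfin : ∀ (n : ℕ) (ρ : 𝒢 →* Matrix (Fin n) (Fin n) ℤ), IsOfFinOrder (ρ (q y)) := hcon
  obtain ⟨e, he, he1⟩ := isOfFinOrder_iff_pow_eq_one.1
    (fin_act hG hfg q hq hker y hfin (k := 2) (by norm_num))
  have h2 : ∀ a : MonoidAlgebra ℤ π, aH (y ^ e) a - a ∈ JJ π 2 := by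
    intro a
    have h := LinearMap.congr_fun he1 (Submodule.Quotient.mk a)
    rw [← map_pow, act_mk, Module.End.one_apply] at h
    exact JC_two ((Submodule.Quotient.eq _).1 h)
  have h3 : ∀ (k : ℕ) (a : MonoidAlgebra ℤ π), aH (y ^ e) a - a ∈ JC π (k + 2) := by
    intro k a
    have hf := (fin_act hG hfg q hq hker y hfin (k := k + 2) (by omega)).pow (n := e)
    rw [← map_pow] at hf
    obtain ⟨f, hf0, hf1⟩ := isOfFinOrder_iff_pow_eq_one.1 hf
    have h := nil_tors end_tf (nil_act h2 k) hf0.ne' (by rw [add_sub_cancel]; exact hf1)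
    have h4 := LinearMap.congr_fun h (Submodule.Quotient.mk a)
    rw [LinearMap.sub_apply, act_mk, Module.End.one_apply, LinearMap.zero_apply, sub_eq_zero] at h4
    exact (Submodule.Quotient.eq _).1 h4
  have h5 : y ^ e ∈ (MulAut.conj (G := π)).range := by
    refine hsep _ fun d ρ hρ g => ?_
    refine (hOTRJ π d ρ hρ ((y ^ e) g) g).2 fun k hk => ?_
    rcases Nat.lt_or_ge k 2 with hk2 | hk2
    · have hk1 : k = 1 := by omega
      subst hk1
      refine ⟨1, one_ne_zero, (le_sup_left : IZ π ^ 1 ≤ _) ?_⟩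
      have h : (MonoidAlgebra.single ((y ^ e) g) 1 - MonoidAlgebra.single g 1 :
          MonoidAlgebra ℤ π) = (MonoidAlgebra.single ((y ^ e) g) 1 - 1) -
            (MonoidAlgebra.single g 1 - 1) := by abel
      rw [one_smul, pow_one, h]
      exact Submodule.sub_mem _ (Submodule.subset_span ⟨_, rfl⟩) (Submodule.subset_span ⟨_, rfl⟩)
    · obtain ⟨k', rfl⟩ : ∃ k', k = k' + 2 := ⟨k - 2, by omega⟩
      obtain ⟨m, hm, h6⟩ := h3 k' (MonoidAlgebra.single g 1)
      rw [aH_single] at h6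
      refine ⟨m, by exact_mod_cast hm.ne', ?_⟩
      rw [Nat.cast_smul_eq_nsmul ℤ]
      exact h6
  rw [← hker, MonoidHom.mem_ker, map_pow] at h5
  exact hx (isOfFinOrder_iff_pow_eq_one.2 ⟨e, he, h5⟩)

end Pool.Agent.SUR
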