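import Pool.Agent.SUR.St

/-!
# The weights of the external power and of its Frobenius companion (SUR, module EVA)
-/

set_option autoImplicit false

universe u

namespace Pool.Agent.SUR

open Pool.Agent.WhK

namespace EVA

theorem bil_hom {X A B : Type*} [AddCommGroup A] [AddCommGroup B] (f : A →+ B) (F : X → X → A)
    (x y : MonoidAlgebra ℤ X) : f (bil F x y) = bil (fun a b => f (F a b)) x y := by
  unfold bil Finsupp.sum
  simp only [map_sum, map_zsmul]

theorem bil_sum {X A I : Type*} [AddCommGroup A] (s : Finset I) (F : I → X → X → A)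
    (x y : MonoidAlgebra ℤ X) :
    bil (fun a b => ∑ i ∈ s, F i a b) x y = ∑ i ∈ s, bil (F i) x y := by
  unfold bil Finsupp.sum
  simp only [Finset.smul_sum]
  refine Eq.trans (Finset.sum_congr rfl fun a _ => Finset.sum_comm) ?_
  exact Finset.sum_comm

theorem bil_mapDomain {X Y A : Type*} [AddCommGroup A] (f : X → Y) (F : Y → Y → A)
    (x y : MonoidAlgebra ℤ X) :
    bil F (MonoidAlgebra.mapDomain f x) (MonoidAlgebra.mapDomain f y) =
      bil (fun a b => F (f a) (f b)) x y := by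
  have hin : ∀ (a : Y) (r : ℤ),
      ((MonoidAlgebra.mapDomain f y).coeff.sum fun b s => (r * s) • F a b) =
        y.coeff.sum fun b s => (r * s) • F a (f b) := by
    intro a r
    exact Finsupp.sum_mapDomain_index (fun b => by rw [mul_zero, zero_smul])
      (fun b s t => by rw [mul_add, add_smul])
  have hout : bil F (MonoidAlgebra.mapDomain f x) (MonoidAlgebra.mapDomain f y) =
      x.coeff.sum fun a r =>
        (MonoidAlgebra.mapDomain f y).coeff.sum fun b s => (r * s) • F (f a) b := by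
    refine Finsupp.sum_mapDomain_index (fun b => ?_) (fun b s t => ?_)
    · simp
    · rw [← Finsupp.sum_add]
      refine Finset.sum_congr rfl fun c _ => ?_
      simp only [add_mul, add_smul]
  rw [hout]
  unfold bil
  refine Finset.sum_congr rfl fun a _ => ?_
  exact hin _ _

/-- the product over `t` periods -/
theorem prod_periods {𝔐 : Type*} [Monoid 𝔐] {M : ℕ} [NeZero M] (c : ZMod M → 𝔐) (s : ZMod M)
    (t : ℕ) : ((List.range (t * M)).map fun k : ℕ => c (s + 1 + (k : ZMod M))).prod =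
      (Pr s c * c s) ^ t := by
  have hM : M - 1 + 1 = M := by have := NeZero.pos M; omega
  have h1 : ((List.range M).map fun k : ℕ => c (s + 1 + (k : ZMod M))).prod = Pr s c * c s := by
    have h2 : ((List.range (M - 1 + 1)).map fun k : ℕ => c (s + 1 + (k : ZMod M))).prod =
        Pr s c * c s := by
      rw [List.prod_range_succ]
      unfold Pr
      congr 2
      have h3 : ((M - 1 : ℕ) : ZMod M) + 1 = 0 := by
        rw [← Nat.cast_succ, Nat.succ_eq_add_one, hM, ZMod.natCast_self]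
      rw [add_assoc, add_comm (1 : ZMod M), h3, add_zero]
    rwa [hM] at h2
  induction t with
  | zero => simp
  | succ t ih =>
    rw [add_mul, one_mul, List.range_add, List.map_append, List.prod_append, ih, pow_succ]
    congr 1
    rw [List.map_map, ← h1]
    congr 1
    refine List.map_congr_left fun k _ => ?_
    rw [Function.comp_apply, Nat.cast_add, Nat.cast_mul, ZMod.natCast_self, mul_zero, zero_add]

theorem prod_periods' {𝔐 : Type*} [Monoid 𝔐] {M : ℕ} [NeZero M] (c : ZMod M → 𝔐) (s : ZMod M)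
    (t : ℕ) : ((List.range ((t + 1) * M - 1)).map fun k : ℕ => c (s + 1 + (k : ZMod M))).prod =
      (Pr s c * c s) ^ t * Pr s c := by
  have hM : (t + 1) * M - 1 = t * M + (M - 1) := by
    have := NeZero.pos M
    rw [add_mul, one_mul]; omega
  rw [hM, List.range_add, List.map_append, List.prod_append, prod_periods]
  congr 1
  unfold Pr
  rw [List.map_map]
  congr 1
  refine List.map_congr_left fun k _ => ?_
  rw [Function.comp_apply, Nat.cast_add, Nat.cast_mul, ZMod.natCast_self, mul_zero, zero_add]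

theorem Pr_diag {𝔐 : Type*} [Monoid 𝔐] (p m : ℕ) [Fact p.Prime] (c : ZMod (p ^ m) → 𝔐)
    (r : ZMod (p ^ (m + 1))) :
    Pr r (diagHom p m c) =
      (Pr (ZMod.castHom (pdvd p m) (ZMod (p ^ m)) r) c *
        c (ZMod.castHom (pdvd p m) (ZMod (p ^ m)) r)) ^ (p - 1) *
          Pr (ZMod.castHom (pdvd p m) (ZMod (p ^ m)) r) c := by
  rw [← prod_periods']
  unfold Pr
  have hp : (p - 1 + 1) * p ^ m = p ^ (m + 1) := by
    rw [Nat.sub_add_cancel (Fact.out : p.Prime).one_le, pow_succ, mul_comm]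
  rw [hp]
  congr 1
  refine List.map_congr_left fun k _ => ?_
  rw [diagHom_apply, map_add, map_add, map_one, map_natCast]

/-- evaluation with integral values -/
theorem evg_int (h : s_EVG.{u}) (𝔐 : Type u) [Monoid 𝔐] (M : ℕ) [NeZero M]
    (F : 𝔐 → 𝔐 → 𝔐 → ℤ) (r : ZMod M) (v w : MonoidAlgebra ℤ 𝔐) (hvw : v * w = 1) :
    bil (fun a b : ZMod M → 𝔐 => F (a r) (b r) (Pr r (a * b))) (extPow (ZMod M) v)
      (extPow (ZMod M) w) = bil (fun α β => F α β 1) v w := by
  have h1 := h 𝔐 (ULift.{u} ℤ) M (fun α β P => ULift.up (F α β P)) r v w hvw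
  have h2 := congrArg (AddEquiv.ulift : ULift.{u} ℤ ≃+ ℤ).toAddMonoidHom h1
  rw [bil_hom, bil_hom] at h2
  exact h2

end EVA

open EVA

theorem t_EVA (h : s_EVG.{u}) : s_EVA.{u} := by
  intro 𝔐 _ W p m _ v w hvw
  constructor
  · have h1 : (eN W : (ZMod (p ^ (m + 1)) → 𝔐) → (ZMod (p ^ (m + 1)) → 𝔐) → ℤ) =
        fun a b => ∑ r : ZMod (p ^ (m + 1)),
          (fun α β P => W (P * α) β : 𝔐 → 𝔐 → 𝔐 → ℤ) (a r) (b r) (Pr r (a * b)) := rfl
    rw [h1, bil_sum Finset.univ (fun (r : ZMod (p ^ (m + 1))) (a b : ZMod (p ^ (m + 1)) → 𝔐) =>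
      (fun α β P => W (P * α) β : 𝔐 → 𝔐 → 𝔐 → ℤ) (a r) (b r) (Pr r (a * b)))]
    rw [Finset.sum_congr rfl fun r _ =>
      evg_int h 𝔐 (p ^ (m + 1)) (fun α β P => W (P * α) β) r v w hvw]
    rw [Finset.sum_const, Finset.card_univ, ZMod.card, nsmul_eq_mul]
    simp only [one_mul]
  · rw [Wof_eq, Wof_eq, bil_mapDomain]
    have h1 : (fun a b : ZMod (p ^ m) → 𝔐 => eN W (diagHom p m a) (diagHom p m b)) =
        fun a b => ∑ r : ZMod (p ^ (m + 1)),
          (fun α β P => W ((P * (α * β)) ^ (p - 1) * P * α) β : 𝔐 → 𝔐 → 𝔐 → ℤ)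
            (a (ZMod.castHom (pdvd p m) (ZMod (p ^ m)) r))
            (b (ZMod.castHom (pdvd p m) (ZMod (p ^ m)) r))
            (Pr (ZMod.castHom (pdvd p m) (ZMod (p ^ m)) r) (a * b)) := by
      funext a b
      unfold eN
      refine Finset.sum_congr rfl fun r _ => ?_
      rw [← map_mul, Pr_diag]
      rfl
    rw [h1, bil_sum Finset.univ (fun (r : ZMod (p ^ (m + 1))) (a b : ZMod (p ^ m) → 𝔐) =>
      (fun α β P => W ((P * (α * β)) ^ (p - 1) * P * α) β : 𝔐 → 𝔐 → 𝔐 → ℤ)
            (a (ZMod.castHom (pdvd p m) (ZMod (p ^ m)) r))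
            (b (ZMod.castHom (pdvd p m) (ZMod (p ^ m)) r))
            (Pr (ZMod.castHom (pdvd p m) (ZMod (p ^ m)) r) (a * b)))]
    rw [Finset.sum_congr rfl fun (r : ZMod (p ^ (m + 1))) _ =>
      evg_int h 𝔐 (p ^ m) (fun α β P => W ((P * (α * β)) ^ (p - 1) * P * α) β)
        (ZMod.castHom (pdvd p m) (ZMod (p ^ m)) r) v w hvw]
    rw [Finset.sum_const, Finset.card_univ, ZMod.card, nsmul_eq_mul]
    simp only [one_mul, mul_one]
    rfl

end Pool.Agent.SUR
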