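import Pool.Agent.SUR.St
import Pool.Agent.SUR.Bil

/-!
# Evaluation on external powers of an inverse pair (SUR, module EVG)
-/

set_option autoImplicit false

universe u

namespace Pool.Agent.SUR

open Pool.Agent.WhK Finset

namespace EVG

variable {𝔐 A : Type*} {M : ℕ}

/-- the function with value `α` at `r` and `a'` elsewhere -/
noncomputable def glue (r : ZMod M) (α : 𝔐) (a' : {j : ZMod M // j ≠ r} → 𝔐) : ZMod M → 𝔐 :=
  fun i => if h : i = r then α else a' ⟨i, h⟩

theorem glue_self (r : ZMod M) (α : 𝔐) (a' : {j : ZMod M // j ≠ r} → 𝔐) :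
    glue r α a' r = α := dif_pos rfl

theorem glue_ne (r : ZMod M) (α : 𝔐) (a' : {j : ZMod M // j ≠ r} → 𝔐) (i : ZMod M)
    (h : i ≠ r) : glue r α a' i = a' ⟨i, h⟩ := dif_neg h

open Classical in
theorem sum_split [AddCommMonoid A] [NeZero M] (r : ZMod M) (s : Finset 𝔐)
    (g : (ZMod M → 𝔐) → A) :
    ∑ a ∈ Fintype.piFinset (fun _ : ZMod M => s), g a =
      ∑ α ∈ s, ∑ a' ∈ Fintype.piFinset (fun _ : {j : ZMod M // j ≠ r} => s),
        g (glue r α a') := by
  rw [← Finset.sum_product']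
  refine Finset.sum_nbij' (fun a => (a r, fun j => a j)) (fun p => glue r p.1 p.2) ?_ ?_ ?_ ?_ ?_
  · intro a ha
    rw [Fintype.mem_piFinset] at ha
    rw [Finset.mem_product]
    refine ⟨ha r, ?_⟩
    rw [Fintype.mem_piFinset]
    exact fun j => ha j
  · intro p hp
    rw [Finset.mem_product] at hp
    have h2 := Fintype.mem_piFinset.1 hp.2
    rw [Fintype.mem_piFinset]
    intro i
    by_cases h : i = r
    · rw [h, glue_self]
      exact hp.1
    · rw [glue_ne r _ _ i h]
      exact h2 ⟨i, h⟩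
  · intro a _
    funext i
    by_cases h : i = r
    · rw [h]
      exact glue_self r _ _
    · exact glue_ne r _ _ i h
  · intro p _
    refine Prod.ext (glue_self r _ _) ?_
    funext j
    exact glue_ne r _ _ j.1 j.2
  · intro a _
    refine congrArg g ?_
    funext i
    by_cases h : i = r
    · rw [h]
      exact (glue_self r _ _).symm
    · rw [glue_ne r _ _ i h]

theorem prod_glue [NeZero M] (r : ZMod M) (f : 𝔐 → ℤ) (α : 𝔐)
    (a' : {j : ZMod M // j ≠ r} → 𝔐) :
    ∏ i, f (glue r α a' i) = f α * ∏ j, f (a' j) := by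
  classical
  rw [Fintype.prod_eq_mul_prod_subtype_ne (fun i => f (glue r α a' i)) r, glue_self]
  refine congrArg (fun t => f α * t) ?_
  exact Finset.prod_congr rfl fun j _ => by rw [glue_ne r α a' j.1 j.2]

theorem ne_of_lt [NeZero M] (r : ZMod M) (k : ℕ) (hk : k < M - 1) :
    r + 1 + (k : ZMod M) ≠ r := by
  intro h
  have h1 : ((k + 1 : ℕ) : ZMod M) = 0 := by
    have h2 : r + (1 + (k : ZMod M)) = r + 0 := by rw [← add_assoc, h, add_zero]
    have h3 := add_left_cancel h2
    rw [Nat.cast_add, Nat.cast_one, add_comm]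
    exact h3
  rw [ZMod.natCast_eq_zero_iff] at h1
  have h4 := Nat.le_of_dvd (Nat.succ_pos k) h1
  omega

theorem pr_congr [Monoid 𝔐] [NeZero M] (r : ZMod M) (y z : ZMod M → 𝔐)
    (h : ∀ i, i ≠ r → y i = z i) : Pr r y = Pr r z := by
  unfold Pr
  refine congrArg List.prod (List.map_congr_left fun k hk => ?_)
  rw [List.mem_range] at hk
  exact h _ (ne_of_lt r k hk)

theorem pr_glue [Monoid 𝔐] [NeZero M] (r : ZMod M) (α β : 𝔐)
    (a' b' : {j : ZMod M // j ≠ r} → 𝔐) :
    Pr r (glue r α a' * glue r β b') = Pr r (glue r 1 (a' * b')) := by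
  refine pr_congr r _ _ fun i hi => ?_
  rw [Pi.mul_apply, glue_ne r α a' i hi, glue_ne r β b' i hi, glue_ne r 1 (a' * b') i hi,
    Pi.mul_apply]

theorem pr_one [Monoid 𝔐] [NeZero M] (r : ZMod M) :
    Pr r (glue r (1 : 𝔐) (1 : {j : ZMod M // j ≠ r} → 𝔐)) = 1 := by
  have h : Pr r (glue r (1 : 𝔐) (1 : {j : ZMod M // j ≠ r} → 𝔐)) = Pr r (1 : ZMod M → 𝔐) :=
    pr_congr r _ _ fun i hi => glue_ne r 1 1 i hi
  rw [h]
  unfold Pr
  refine List.prod_eq_one fun x hx => ?_
  rw [List.mem_map] at hx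
  obtain ⟨k, _, hk⟩ := hx
  rw [← hk]
  rfl

theorem supp_extPow (I : Type*) [Fintype I] [DecidableEq I] (v : MonoidAlgebra ℤ 𝔐) :
    (extPow I v).coeff.support ⊆ Fintype.piFinset fun _ : I => v.coeff.support := by
  intro g hg
  rw [Finsupp.mem_support_iff, coeff_extPow] at hg
  rw [Fintype.mem_piFinset]
  intro i
  rw [Finsupp.mem_support_iff]
  intro h0
  exact hg (Finset.prod_eq_zero (Finset.mem_univ i) h0)

end EVG

open EVG in
theorem t_EVG : s_EVG.{u} := by
  classical
  intro 𝔐 A _ _ M _ F r v w hvw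
  -- inner evaluation
  have hin : ∀ α β : 𝔐, bil (fun a' b' : {j : ZMod M // j ≠ r} → 𝔐 =>
      F α β (Pr r (glue r 1 (a' * b')))) (extPow {j : ZMod M // j ≠ r} v)
      (extPow {j : ZMod M // j ≠ r} w) = F α β 1 := by
    intro α β
    rw [bil_mul (fun c' : {j : ZMod M // j ≠ r} → 𝔐 => F α β (Pr r (glue r 1 c'))),
      ← extPow_mul, hvw, extPow_one, MonoidAlgebra.one_def, lin_single, one_smul, pr_one]
  rw [bil_eq_sum_of_subset _ _ _ _ _ (supp_extPow (ZMod M) v) (supp_extPow (ZMod M) w),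
    sum_split r v.coeff.support, bil_eq_sum]
  refine Finset.sum_congr rfl fun α _ => ?_
  have h1 : ∀ a' : {j : ZMod M // j ≠ r} → 𝔐,
      ∑ b ∈ Fintype.piFinset (fun _ : ZMod M => w.coeff.support),
        ((extPow (ZMod M) v).coeff (glue r α a') * (extPow (ZMod M) w).coeff b) •
          F (glue r α a' r) (b r) (Pr r (glue r α a' * b)) =
      ∑ β ∈ w.coeff.support, ∑ b' ∈ Fintype.piFinset
        (fun _ : {j : ZMod M // j ≠ r} => w.coeff.support),
        (v.coeff α * w.coeff β) • (((extPow {j : ZMod M // j ≠ r} v).coeff a' *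
          (extPow {j : ZMod M // j ≠ r} w).coeff b') •
            F α β (Pr r (glue r 1 (a' * b')))) := by
    intro a'
    rw [sum_split r w.coeff.support]
    refine Finset.sum_congr rfl fun β _ => Finset.sum_congr rfl fun b' _ => ?_
    rw [coeff_extPow, coeff_extPow, coeff_extPow, coeff_extPow, prod_glue r (fun x => v.coeff x),
      prod_glue r (fun x => w.coeff x), glue_self, glue_self, pr_glue, smul_smul]
    refine congrArg (fun t : ℤ => t • F α β (Pr r (glue r 1 (a' * b')))) ?_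
    ring
  rw [Finset.sum_congr rfl fun a' _ => h1 a', Finset.sum_comm]
  refine Finset.sum_congr rfl fun β _ => ?_
  rw [← hin α β, bil_eq_sum_of_subset _ _ _ _ _ (supp_extPow _ v) (supp_extPow _ w),
    Finset.smul_sum]
  refine Finset.sum_congr rfl fun a' _ => ?_
  rw [Finset.smul_sum]

end Pool.Agent.SUR
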