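import Pool.Agent.SUR.StA
import Pool.Agent.SUR.EVA
import Pool.Agent.SUR.EVG

/-!
# The weights of the external power and of its Frobenius companion, general values (SUR, module AEVA)
-/

set_option autoImplicit false

universe u

namespace Pool.Agent.SUR

open Pool.Agent.WhK

namespace AEVA

open EVA

/-- evaluation with values in an abelian group -/
theorem evg_A (𝔐 : Type u) (A : Type) [Monoid 𝔐] [AddCommGroup A] (M : ℕ) [NeZero M]
    (F : 𝔐 → 𝔐 → 𝔐 → A) (r : ZMod M) (v w : MonoidAlgebra ℤ 𝔐) (hvw : v * w = 1) :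
    bil (fun a b : ZMod M → 𝔐 => F (a r) (b r) (Pr r (a * b))) (extPow (ZMod M) v)
      (extPow (ZMod M) w) = bil (fun α β => F α β 1) v w := by
  have h1 := t_EVG 𝔐 (ULift.{u} A) M (fun α β P => ULift.up (F α β P)) r v w hvw
  have h2 := congrArg (AddEquiv.ulift : ULift.{u} A ≃+ A).toAddMonoidHom h1
  rw [bil_hom, bil_hom] at h2
  exact h2

end AEVA

open EVA AEVA

theorem t_AEVA : s_AEVA.{u} := by
  intro 𝔐 A _ _ W p m _ v w hvw
  constructor
  · have h1 : (eNA W : (ZMod (p ^ (m + 1)) → 𝔐) → (ZMod (p ^ (m + 1)) → 𝔐) → A) =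
        fun a b => ∑ r : ZMod (p ^ (m + 1)),
          (fun α β P => W (P * α) β : 𝔐 → 𝔐 → 𝔐 → A) (a r) (b r) (Pr r (a * b)) := rfl
    rw [h1, bil_sum Finset.univ (fun (r : ZMod (p ^ (m + 1))) (a b : ZMod (p ^ (m + 1)) → 𝔐) =>
      (fun α β P => W (P * α) β : 𝔐 → 𝔐 → 𝔐 → A) (a r) (b r) (Pr r (a * b)))]
    rw [Finset.sum_congr rfl fun r _ =>
      evg_A 𝔐 A (p ^ (m + 1)) (fun α β P => W (P * α) β) r v w hvw]
    rw [Finset.sum_const, Finset.card_univ, ZMod.card]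
    simp only [one_mul]
  · rw [Wof_eq, Wof_eq, bil_mapDomain]
    have h1 : (fun a b : ZMod (p ^ m) → 𝔐 => eNA W (diagHom p m a) (diagHom p m b)) =
        fun a b => ∑ r : ZMod (p ^ (m + 1)),
          (fun α β P => W ((P * (α * β)) ^ (p - 1) * P * α) β : 𝔐 → 𝔐 → 𝔐 → A)
            (a (ZMod.castHom (pdvd p m) (ZMod (p ^ m)) r))
            (b (ZMod.castHom (pdvd p m) (ZMod (p ^ m)) r))
            (Pr (ZMod.castHom (pdvd p m) (ZMod (p ^ m)) r) (a * b)) := by
      funext a b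
      unfold eNA
      refine Finset.sum_congr rfl fun r _ => ?_
      rw [← map_mul, Pr_diag]
      rfl
    rw [h1, bil_sum Finset.univ (fun (r : ZMod (p ^ (m + 1))) (a b : ZMod (p ^ m) → 𝔐) =>
      (fun α β P => W ((P * (α * β)) ^ (p - 1) * P * α) β : 𝔐 → 𝔐 → 𝔐 → A)
            (a (ZMod.castHom (pdvd p m) (ZMod (p ^ m)) r))
            (b (ZMod.castHom (pdvd p m) (ZMod (p ^ m)) r))
            (Pr (ZMod.castHom (pdvd p m) (ZMod (p ^ m)) r) (a * b)))]
    rw [Finset.sum_congr rfl fun (r : ZMod (p ^ (m + 1))) _ =>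
      evg_A 𝔐 A (p ^ m) (fun α β P => W ((P * (α * β)) ^ (p - 1) * P * α) β)
        (ZMod.castHom (pdvd p m) (ZMod (p ^ m)) r) v w hvw]
    rw [Finset.sum_const, Finset.card_univ, ZMod.card]
    simp only [one_mul, mul_one]
    rfl

end Pool.Agent.SUR
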