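import Pool.Agent.SUR.Defs
import Pool.Agent.Lib_helper44.Wh.Final

/-!
# Surjectivity in degree one, seen in finite quotients (MP_e40716_gt): the modules

Each module `SUR_XXX` proves `theorem Pool.Agent.SUR.t_XXX : s_XXX` in `Pool/Agent/SUR/XXX.lean`
(the hypotheses allowed are named in the doc string: then `theorem t_XXX (h : s_YYY.{u}) : s_XXX`).
Definitions: `Pool/Agent/SUR/Defs.lean`, `Pool/Agent/Lib_helper44/Wh/*.lean` (namespace `WhK`).
-/

set_option autoImplicit false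

universe u

namespace Pool.Agent.SUR

open Pool.Agent.WhK

/-- KAP (150 lines). The symmetry lemma in the ring of a monoid.
Proof. Put `R = ZMod N`, work in `R[𝒮]` (`MonoidAlgebra (ZMod N) 𝒮`, images `X, Y` of the two
elements), `B(x, y)` = bilinear extension of `W` (with values in `R`), `D(x) = ∑ x_a deg(a) a`, a
derivation of `R[𝒮]`. The rule gives `B(x, y z) = B(x y, z) + B(z x, y)`, so `B(x, 1) = 0` (take
`y = z = 1`) and `B(1, x y) = B(x, y) + B(y, x)`. The left hand side is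
`B(1, X D(Y)) = B(X, DY) + B(DY, X)`. With `P = X D(Y)`: `0 = B(P, 1) = B(P, X Y) =
B(P X, Y) + B(Y P, X)`, `Y P = D Y` and `P X = X D(Y) X = -D(X)` (from `D(X Y) = D(1) = 0`:
`D(X) Y = -X D(Y)`), so `B(DY, X) = B(DX, Y)`. Hence the left hand side is
`B(X, DY) + B(DX, Y) = ∑ X_a Y_b W(a, b) (deg a + deg b)`, and `deg a + deg b = 1` if
`W(a, b) ≠ 0`. -/
def s_KAP : Prop := ∀ (𝒮 : Type u) [Monoid 𝒮] (N : ℕ) (W : 𝒮 → 𝒮 → ℤ), IsWt W →
  ∀ (deg : 𝒮 →* Multiplicative (ZMod N)),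
  (∀ a b, W a b ≠ 0 → deg (a * b) = Multiplicative.ofAdd 1) →
  ∀ (X Y : MonoidAlgebra ℤ 𝒮), X * Y = 1 → Y * X = 1 →
  bil (fun a b => ((W 1 (a * b) : ℤ) : ZMod N) * (deg b).toAdd) X Y = ((bil W X Y : ℤ) : ZMod N)

/-- WRW (200 lines). The weight on the wreath product.
Proof. Write everything in terms of sequences with the same origin: for `x = (a, i)`, `y = (b, l)`,
`z = (c, e)` with `i + l + e = 1` put `b' r = b (r + i)`, `c' r = c (r + i + l)`. Then
`wr W x (y z) = ∑ r, W (Pr r (a b' c') * a r) (b' r * c' r)`, by the rule for `W` this is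
`∑ r, W (Pr r (a b' c') * a r * b' r) (c' r) + ∑ r, W (c' r * Pr r (a b' c') * a r) (b' r)`. The
first sum is `wr W (x y) z`. `wr W (z x) y = ∑ s, W (Pr s (y'') * c s * a (s + e)) (b (s + e + i))`
with `y'' s = c s * a (s + e) * b (s + e + i)`; substitute `s = r - e` (`c (r - e) = c' (r - 1)`):
it is `∑ r, W (Pr r (v) * c' (r - 1) * a r) (b' r)` with `v r = c' (r - 1) * a r * b' r`, and
`Pr r v * c' (r - 1) = c' r * Pr r (a b' c')` because both are the product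
`c' r a(r+1) b'(r+1) c'(r+1) ⋯ a(r-1) b'(r-1) c'(r-1)` (compare
`Pool.Agent.WhK.prod_interleave`). If the total degree is not `1` all terms are `0`.
`wr W 1 y = ∑ r, W (Pr r y.s) (y.s r)`; with `N = n + 1` and the entries `y 0, ..., y n` iterate the
rule in the form `W 1 (b c) = W b c + W c b`, `W a (b c) = W (a b) c + W (c a) b`: for a list,
`W a (x_1 ⋯ x_l) = ∑ k, W (x_{k+1} ⋯ x_l a x_1 ⋯ x_{k-1}) x_k` (induction on `l`; `W a 1 = 0`). -/
def s_WRW : Prop := ∀ (𝔐 : Type u) [Monoid 𝔐] (N : ℕ) [NeZero N] (W : 𝔐 → 𝔐 → ℤ), IsWt W →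
  IsWt (wr (N := N) W) ∧
  (∀ y : Wr 𝔐 N, wr W 1 y = if y.i = 1 then W 1 (prodSeq y.s) else 0)

/-- DIV (200 lines). Modulo a common divisor `d` of `N` and of the values `W 1 a` the weight on the
wreath product is the coboundary of `The W`.
Proof. If `x.i + y.i ≠ 1` all is `0` (`(x y).i = (y x).i = x.i + y.i`). Let `x = (a, i)`,
`y = (b, l)`, `i + l = 1`, `b' r = b (r + i)`. Put `B r = W (Pr r (a b') * a r) (b' r)` (weight of
`b' r`) and `A r = W (b' r * Pr r (a b')) (a r)` (weight of `a r`). Rule: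
`W (Pr r (a b')) (a r * b' r) = B r + A r`. For `y x = (b * shiftHom l a, 1)` the entry at `r + i` is
`b' r * a (r + 1)` and `W (Pr (r + i) (b * shiftHom l a)) (b' r * a (r + 1)) = A (r + 1) + B r`:
`Pr (r + i) (b * shiftHom l a) = Pr r (b' * shiftHom 1 a)`,
`a (r + 1) * Pr r (b' * shiftHom 1 a) = Pr r (a b') * a r` and
`Pr r (b' * shiftHom 1 a) * b' r = b' (r + 1) * Pr (r + 1) (a b')` (all are the cyclic products of
`a(r+1) b'(r+1) a(r+2) ⋯`). In `ZMod d` (`d ∣ N`, so `r : ZMod N` has an image `[r]`, and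
`(r.val : ZMod d) = [r]`): `The W (x y) = ∑ r, [r] (A r + B r)`,
`The W (y x) = ∑ r, [r + i] (A (r + 1) + B r) = [i] (∑ (A + B)) + ∑ [r] B r + ∑ [r - 1] A r`,
`∑ (A + B) = wr W 1 (x y) = W 1 (prodSeq ..) = 0` in `ZMod d` (`s_WRW`), so the difference is
`-∑ A r = ∑ B r = wr W x y`. Hypothesis `s_WRW`. -/
def s_DIV : Prop := ∀ (𝔐 : Type u) [Monoid 𝔐] (N : ℕ) [NeZero N] (W : 𝔐 → 𝔐 → ℤ), IsWt W →
  ∀ d : ℕ, d ∣ N → (∀ a, (d : ℤ) ∣ W 1 a) →
  ∀ x y : Wr 𝔐 N, (d : ℤ) ∣ wr W x y - (The W (y * x) - The W (x * y))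

/-- INV (80 lines). `XW` and `YW` are inverse to each other.
Proof. In the ring of the wreath product: `σ^j io(b) = io(rho j b) σ^j`, so
`eW * io z * eW = io (∑ rho j z) * eW = io (U - Wo) * eW` and `eW * io b = io b * eW` for invariant
`b`. `XW * YW = (io Ui + io V e)(io U - io z e) = 1 - io (Ui z) e + io (V U) e - io (V (U - Wo)) e
= 1 - io (Ui z) e + io (Ui z Wi Wo) e = 1` with `V = Ui z Wi`; `YW * XW = 1 + io (U V) e -
io (z Ui) e - io ((U - Wo) V) e`... more precisely `io z e io Ui = io (z Ui) e` and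
`io z e io V e = io (z) io (∑ rho j V) e`, `∑ rho j V = Ui (U - Wo) Wi = Wi - Ui`; total
`1 + io (z Wi) e - io (z Ui) e - io (z (Wi - Ui)) e = 1`. -/
def s_INV : Prop := ∀ (𝔐 K : Type u) [Monoid 𝔐] (cl : 𝔐 → K)
  (hcl : ∀ a b, cl (a * b) = cl (b * a)) (N : ℕ) [NeZero N]
  (U Ui Wo Wi z : MonoidAlgebra ℤ (ZMod N → 𝔐)), (cycData N cl hcl).IsTrip U Ui Wo Wi z →
  XW Ui z Wi * YW U z = 1 ∧ YW U z * XW Ui z Wi = 1

open Classical in
/-- GAM (130 lines). The integral logarithm as the contraction of the degree.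
Proof. Expand both sides (`bil` is biadditive; `XW = ∑_j io(·) σ^j`). The pairs: `(io Ui, io U)`
has `(a b).i = 0` and `b.i = 0`: contribution `0`; `(io Ui, -io z σ^l)` needs `l = 1`, weight
`b.i = 1`: `-T(Ui z)`; `(io V σ^j, io U)`: weight `b.i = 0`; `(io V σ^j, -io z σ^l)`, `j + l = 1`,
weight `l = 1 - j`: `-(1 - j) T(V rho_j z)` (`(a b).s = a.s * shiftHom j b.s`). Here
`T = Tmod cl` at `k` (`(cycData N cl hcl).T`), `V = Ui z Wi`. The sum is `-gam`. -/
def s_GAM : Prop := ∀ (𝔐 K : Type u) [Monoid 𝔐] (cl : 𝔐 → K)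
  (hcl : ∀ a b, cl (a * b) = cl (b * a)) (N : ℕ) [NeZero N] (k : K)
  (U Ui Wi z : MonoidAlgebra ℤ (ZMod N → 𝔐)),
  bil (fun a b : Wr 𝔐 N => (if (a * b).i = 1 ∧ cl (prodSeq (a * b).s) = k then (1 : ZMod N)
    else 0) * b.i) (XW Ui z Wi) (YW U z) = -((cycData N cl hcl).gam Ui Wi z k)

/-- TOT (150 lines). The weight of the pair `(XW, YW)`.
Proof. `bil (wr W) (io A σ^j) (io B σ^l)` is `0` for `j + l ≠ 1` and `bil (eN W) A (rho j B)` for
`j + l = 1`. With `V = Ui z Wi` and `E = bil (eN W)`: the left hand side without `N` is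
`-E(Ui, z) + E(V, rho_1 U) - ∑_j E(V, rho_j z) = -E(Ui, z) + E(V, U) - E(V, U - Wo) =
-E(Ui, z) + E(V, Wo)` (`1 < N` is used for the pair `(io Ui, io U)`: `0 ≠ 1` in `ZMod N`).
`E(rho_i A, rho_i B) = E(A, B)` (reindex the sum in `eN`), so `N E(Ui, z) = ∑_i E(Ui, rho_i z) =
E(Ui, U - Wo)` and `N E(V, Wo) = ∑_i E(rho_i V, Wo) = E(Ui (U - Wo) Wi, Wo) = E(Wi - Ui, Wo)`.
Sum: `-E(Ui, U) + E(Ui, Wo) + E(Wi, Wo) - E(Ui, Wo)`. -/
def s_TOT : Prop := ∀ (𝔐 K : Type u) [Monoid 𝔐] (cl : 𝔐 → K)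
  (hcl : ∀ a b, cl (a * b) = cl (b * a)) (N : ℕ) [NeZero N] (W : 𝔐 → 𝔐 → ℤ)
  (U Ui Wo Wi z : MonoidAlgebra ℤ (ZMod N → 𝔐)), 1 < N →
  (cycData N cl hcl).IsTrip U Ui Wo Wi z →
  (N : ℤ) * bil (wr W) (XW Ui z Wi) (YW U z) = -(bil (eN W) Ui U - bil (eN W) Wi Wo)

/-- EVG (200 lines). Evaluation on external powers of an inverse pair.
Proof. `Pr r c` does not depend on `c r`. Let `J = {j // j ≠ r}`, `ext : (J → 𝔐) →* (ZMod M → 𝔐)`
extension by `1` at `r`, `π_r : 𝔐 →* (ZMod M → 𝔐)` the inclusion at `r` (`MonoidHom.mulSingle`).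
Then `extPow v = (mapDomain π_r v) * (mapDomain ext (extPow J v))` and
`extPow u = (mapDomain ext (extPow J u)) * (mapDomain π_r u)` (compare coefficients: the
multiplication map `(α, a') ↦ π_r α * ext a'` is a bijection, `Equiv.funSplitAt` / `Fintype.prod`
over `j ≠ r`). For single elements, `F ((π_r α * ext a') r) ((ext b' * π_r β) r)
(Pr r (π_r α * ext a' * (ext b' * π_r β))) = F α β (Pr r (ext (a' * b')))`, so the left hand side is
`∑ v_α u_β L_{α β}(extPow J v * extPow J u)`, `L_{α β}` the additive extension of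
`c ↦ F α β (Pr r (ext c))`, and `extPow J v * extPow J u = extPow J (v * u) = 1` (`extPow_mul`,
`extPow_one`), `Pr r (ext 1) = 1`. -/
def s_EVG : Prop := ∀ (𝔐 A : Type u) [Monoid 𝔐] [AddCommGroup A] (M : ℕ) [NeZero M]
  (F : 𝔐 → 𝔐 → 𝔐 → A) (r : ZMod M) (v w : MonoidAlgebra ℤ 𝔐), v * w = 1 →
  bil (fun a b : ZMod M → 𝔐 => F (a r) (b r) (Pr r (a * b))) (extPow (ZMod M) v)
    (extPow (ZMod M) w) = bil (fun α β => F α β 1) v w

/-- EVA (150 lines). The weights of the external power and of its Frobenius companion. Hypothesis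
`s_EVG`.
Proof. First: `eN W a b = ∑ r, F (a r) (b r) (Pr r (a b))` with `F α β P = W (P * α) β`, apply `EVG`
for each `r : ZMod (p^(m+1))` (`p^(m+1)` terms). Second: `Wof p m v = mapDomain (diagHom p m)
(extPow v)`, `eN W (diagHom a) (diagHom b) = ∑_{r : ZMod (p^(m+1))} W (Pr r (diagHom (a b)) * a r')
(b r')`, `r'` the image of `r` in `ZMod (p^m)`; and `Pr r (diagHom c) = (Pr r' c * c r')^(p-1) *
Pr r' c` (`p^(m+1) - 1 = p * p^m - 1` factors, periodic with period `p^m`). So the term is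
`F (a r') (b r') (Pr r' (a b))` with `F α β P = W ((P * (α * β))^(p-1) * P * α) β`, and
`F α β 1 = pw W p α β`. (`A = ULift ℤ` or `A = ℤ` with the universe of `EVG`: use
`ULift.{u} ℤ` and `bil` of the composite.) -/
def s_EVA : Prop := ∀ (𝔐 : Type u) [Monoid 𝔐] (W : 𝔐 → 𝔐 → ℤ) (p m : ℕ) [Fact p.Prime]
  (v w : MonoidAlgebra ℤ 𝔐), v * w = 1 →
  bil (eN W) (extPow (ZMod (p ^ (m + 1))) v) (extPow (ZMod (p ^ (m + 1))) w) =
    (p ^ (m + 1) : ℕ) * bil W v w ∧
  bil (eN W) (Wof p m v) (Wof p m w) = (p ^ (m + 1) : ℕ) * bil (pw W p) v w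

/-- REF. The main identity, divided by `p ^ j`. (architect) -/
def s_REF : Prop := ∀ (𝔐 K : Type u) [Monoid 𝔐] (cl : 𝔐 → K)
  (hcl : ∀ a b, cl (a * b) = cl (b * a)) (k : K) (v : ℤ) (W : 𝔐 → 𝔐 → ℤ), WtAt cl k v W →
  ∀ (p m : ℕ) [Fact p.Prime], p ≠ 2 → ∀ (j : ℕ) (c : ℤ), j ≤ m + 1 → v = (p : ℤ) ^ j * c →
  ∀ w : (MonoidAlgebra ℤ 𝔐)ˣ, ∃ e : ℤ,
    (p : ℤ) ^ j * e = bil W (w⁻¹ : (MonoidAlgebra ℤ 𝔐)ˣ).val w.val -
      bil (pw W p) (w⁻¹ : (MonoidAlgebra ℤ 𝔐)ˣ).val w.val ∧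
    (c : ZMod (p ^ (m + 1))) * gamVal cl hcl p m w k = (e : ZMod (p ^ (m + 1)))

/-- SUP (200 lines). The support of the integral logarithm.
Proof. Repeat the proof of `Pool.Agent.WhK.exists_norm` / `exists_z` with the additional conclusion
that the support of `z` is contained in the union of the supports of `extPow w` and `Wof w` (`z` is
the restriction of the invariant element to representatives of the orbits, divided by the order of
the stabiliser): so `z.coeff g ≠ 0` implies `w.coeff (g i) ≠ 0` for all `i`. By `gamVal_eq` this `z`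
computes `gamVal`. `gam Ui Wi z = T (Ui z) + ∑ (1 - j) T (Ui z Wi rho_j z)`: if the coefficient at
`k` is not `0` there is a sequence `g`, each entry a product of at most `4` elements of the supports
of `w⁻¹`, `w` (`Ui = extPow w⁻¹`, `Wi = Wof w⁻¹`), with `cl (prodSeq g) = k`. `ℓ (prodSeq g) ≤
∑ ℓ (g i) ≤ N * 4 L` (the product of the nonempty list; do not use `ℓ 1`). -/
def s_SUP : Prop := ∀ (𝔐 K : Type u) [Monoid 𝔐] (cl : 𝔐 → K)
  (hcl : ∀ a b, cl (a * b) = cl (b * a)) (p m : ℕ) [Fact p.Prime], p ≠ 2 →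
  ∀ (ℓ : 𝔐 → ℕ), (∀ a b, ℓ (a * b) ≤ ℓ a + ℓ b) → ∀ (L : ℕ) (w : (MonoidAlgebra ℤ 𝔐)ˣ),
  (∀ a ∈ w.val.coeff.support, ℓ a ≤ L) →
  (∀ a ∈ (w⁻¹ : (MonoidAlgebra ℤ 𝔐)ˣ).val.coeff.support, ℓ a ≤ L) →
  ∀ k, gamVal cl hcl p m w k ≠ 0 → ∃ a, cl a = k ∧ ℓ a ≤ 4 * L * p ^ (m + 1)

/-- NAT (150 lines). Naturality of the integral logarithm for arbitrary homomorphisms of monoids.
Proof. `extPow I (mapDomain F x) = mapDomain (fun g i => F (g i)) (extPow I x)` for every monoid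
homomorphism (even every map) `F` (the library has it for injective `F`: `extPow_mapDomain`):
the coefficient at `g` is `∏_i ∑_{F a = g i} x a = ∑_{a, F ∘ a = g} ∏_i x (a i)`
(`Finset.prod_univ_sum`). So the image `z'` of `zOf p m w` satisfies the norm equation for the image
of `w` (`rho` and `diagHom` commute with `F ∘ ·`), `gamVal_eq` computes with it, and
`Tmod cl' (mapDomain (F ∘ ·) x) = Finsupp.mapDomain κ (Tmod cl x)` since
`cl' (prodSeq (F ∘ g)) = cl' (F (prodSeq g)) = κ (cl (prodSeq g))`. -/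
def s_NAT : Prop := ∀ (𝔐 𝔐' K K' : Type u) [Monoid 𝔐] [Monoid 𝔐'] (cl : 𝔐 → K)
  (hcl : ∀ a b, cl (a * b) = cl (b * a)) (cl' : 𝔐' → K')
  (hcl' : ∀ a b, cl' (a * b) = cl' (b * a)) (F : 𝔐 →* 𝔐') (κ : K → K'),
  (∀ a, cl' (F a) = κ (cl a)) → ∀ (p m : ℕ) [Fact p.Prime], p ≠ 2 →
  ∀ w : (MonoidAlgebra ℤ 𝔐)ˣ,
    gamVal cl' hcl' p m (Units.map (MonoidAlgebra.mapDomainRingHom ℤ F).toMonoidHom w) =
      Finsupp.mapDomain κ (gamVal cl hcl p m w)

/-- NTG (60 lines). Naturality for the integral logarithm of matrices. Hypothesis `s_NAT`.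
Proof. `Fhom Q n (GLn.map (ringMap π) X) = mapDomain (mmMap π n) (Fhom G n X)` (`Psi`, `psi_single`)
and `MM.cl (mmMap π n a) = Option.map (ConjClasses.map π) (MM.cl a)`. -/
def s_NTG : Prop := ∀ (G Q : Type u) [Group G] [Group Q] (π : G →* Q) (n p m : ℕ)
  [Fact p.Prime] (hp : p ≠ 2) (X : GLn (MonoidAlgebra ℤ G) n),
  (GamGL Q n p m hp (GLn.map (ringMap π) n X)).toAdd =
    Finsupp.mapDomain (Option.map (ConjClasses.map π)) (GamGL G n p m hp X).toAdd

/-- COC (200 lines). Weights from homomorphisms of centralisers.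
Proof. For `y` conjugate to `g` choose `s y` with `s y * g * (s y)⁻¹ = y`. For `y` conjugate to `g`
and `b : G` put `φ y b = f ((s (b y b⁻¹))⁻¹ * b * s y)` (the argument centralises `g`). Cocycle:
`φ y (b' b) = φ (b y b⁻¹) b' + φ y b`, `φ y 1 = 0`, `φ y y = f (g)` (`(s y)⁻¹ y s y = g`). Define
`W (unit i j α) (unit k l β) = φ (α β) β` if `j = k`, `i = l` and `α β` is conjugate to `g`;
`W one (unit i i β) = φ β β = f g` if `β` is conjugate to `g`; all other values `0`. The rule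
`W a (b c) = W (a b) c + W (c a) b` is checked by cases (`zero`, `one`, `unit`): for three units with
matching indices it is the cocycle rule at `y = α β γ` (`γ y γ⁻¹ = γ α β`); when one of them is `one`
use `φ y 1 = 0` or `W 1 (b c) = W b c + W c b` = cocycle rule at `y = β γ`. -/
def s_COC : Prop := ∀ (G : Type u) [Group G] (n : ℕ) (g : G)
  (f : Subgroup.centralizer {g} →* Multiplicative ℤ),
  ∃ W : MM G n → MM G n → ℤ, WtAt MM.cl (some (ConjClasses.mk g))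
    (f ⟨g, Subgroup.mem_centralizer_singleton_iff.2 rfl⟩).toAdd W

/-- RES (150 lines). The pull back of a weight under the power map.
Proof. (0) `MM.cl (x ^ p) = some K`, `1 ≤ p` implies `MM.cl x = some C` with `powC p C = K` (`x` is
`unit i i h`; `one ^ p`, `zero ^ p` and, for `2 ≤ p`, `(unit i j h)^p`, `i ≠ j`, have class `none`),
and `MM.cl x = some C` implies `MM.cl (x ^ p) = some (powC p C)`.
(1) `pw W p` is a weight: `pw W p a (b c) = W ((abc)^(p-1) a) (b c)`, rule for `W`,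
`(abc)^(p-1) a b = ((ab) c)^(p-1) (ab)`, `c (abc)^(p-1) a = (cab)^(p-1) (ca)`. `resW` is then a weight
because `a b c`, `(ab) c`, `(ca) b` have the same class. (2) For any weight `W 1 (a^p) =
p * W (a^(p-1)) a` (iterate the rule). For `a = unit i i h`, `h` in `C` (`0 < n`), `W 1 (a^p) = v`,
and `pw W p 1 a = W (a^(p-1)) a`, so `v = p * v'` with `v'` the common value. (3) Expand `bil`: by (0)
each pair `(a, b)` with `pw W p a b ≠ 0` has `MM.cl (a * b) = some C` for exactly one `C`, and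
`powC p C = K`. (4): `pw W p a b ≠ 0` gives `W 1 ((a b)^p) = v`, `= p * W ((ab)^(p-1)) (ab)`. -/
def s_RES : Prop := ∀ (G : Type u) [Group G] (n p : ℕ) (K : ConjClasses G) (v : ℤ)
  (W : MM G n → MM G n → ℤ), 0 < n → p.Prime → WtAt MM.cl (some K) v W →
  (∀ (x : MM G n) (C : ConjClasses G), MM.cl x = some C → MM.cl (x ^ p) = some (powC p C)) ∧
  (∀ (x : MM G n) (C : ConjClasses G), MM.cl (x ^ p) = some C →
    ∃ C', MM.cl x = some C' ∧ powC p C' = C) ∧
  (∀ C, powC p C = K → ∃ v' : ℤ, v = p * v' ∧ WtAt MM.cl (some C) v' (resW MM.cl W p (some C))) ∧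
  (∀ (S : Finset (ConjClasses G)) (x y : MonoidAlgebra ℤ (MM G n)),
    (∀ C ∈ S, powC p C = K) →
    (∀ a ∈ x.coeff.support, ∀ b ∈ y.coeff.support, ∀ C, MM.cl (a * b) = some C → powC p C = K →
      C ∈ S) →
    bil (pw W p) x y = ∑ C ∈ S, bil (resW MM.cl W p (some C)) x y) ∧
  (¬(p : ℤ) ∣ v → ∀ x y : MonoidAlgebra ℤ (MM G n), bil (pw W p) x y = 0)

/-- VAN (150 lines). The integral logarithm at the classes outside of the finite set `SC`.
Hypotheses `s_REF`, `s_SUP`, `s_COC`, `s_RES`.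
Proof. Suppose the value is not `0`. Length on `MM G n`: `ℓ (unit i j h) = ℓ h`, else `0`. By `SUP`
there is `a` with `MM.cl a = some K`, `ℓ a ≤ 4 L p^(m+1)`: `a = unit i i h`, `h` in `K`,
`ℓ h ≤ 4 L p^(m+1) < p^(m+2)`. `h` has infinite order, so `LengthBound` gives `f`,
`v = f h ≠ 0`, `|v| < p^(m+2)`; write `v = p^j c`, `p ∤ c`; then `j ≤ m + 1`. `COC` gives `W`
at `K = mk h` with constant `v`. `bil W w⁻¹ w = 0` since `some K ∉ SC`, and `bil (pw W p) w⁻¹ w = 0`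
by `RES` (third last item with `S = ∅`). `REF`: `e = 0`, so `c * value = 0`, and `c` is a unit. -/
def s_VAN : Prop := ∀ (G : Type u) [Group G] (ℓ : G → ℕ), LengthBound ℓ →
  ∀ (n p m L : ℕ) [Fact p.Prime], 0 < n → p ≠ 2 → 4 * L < p →
  ∀ w : (MonoidAlgebra ℤ (MM G n))ˣ,
  (∀ i j h, (MM.unit i j h : MM G n) ∈ w.val.coeff.support → ℓ h ≤ L) →
  (∀ i j h, (MM.unit i j h : MM G n) ∈ (w⁻¹ : (MonoidAlgebra ℤ (MM G n))ˣ).val.coeff.support →
    ℓ h ≤ L) →
  ∀ K : ConjClasses G, (∀ g, ConjClasses.mk g = K → ¬IsOfFinOrder g) →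
  some K ∉ SC MM.cl w → (∀ C, some C ∈ SC MM.cl w → powC p C ≠ K) →
  gamVal MM.cl MM.cl_comm p m w (some K) = 0

/-- VAL (150 lines). The integral logarithm at the classes of `SC` and at their `p`-th powers.
Hypotheses `s_REF`, `s_RES`.
Proof. (1) `REF` with `j = 0`, `c = v`; `bil (pw W p) = 0` by the last item of `RES`.
(2) `REF` with `j = 0` at `K`: `v Γ(K) = bil W w⁻¹ w - bil (pw W p) w⁻¹ w`. `bil W w⁻¹ w = 0`
because `some K ∉ SC`. By `RES`,
`bil (pw W p) w⁻¹ w = ∑_{C ∈ T} bil (resW C) w⁻¹ w`, and `REF` for `resW C` with constant `v'`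
(`v = p v'`, the same `v'` for all `C` since `p ≠ 0`): `v' Γ(C) = bil (resW C) w⁻¹ w -
bil (pw (resW C) p) w⁻¹ w`, where the last term is `0`: `pw (resW C) p a b ≠ 0` gives
`MM.cl ((a b)^p) = some C`, so `C = powC p C'`, `MM.cl (a b) = some C' ∈ SC`, against the last
hypothesis (`C ∈ T`). So
`v Γ(K) = -∑ v' Γ(C)`. -/
def s_VAL : Prop := ∀ (G : Type u) [Group G] (n p m : ℕ) [Fact p.Prime], 0 < n → p ≠ 2 →
  ∀ (w : (MonoidAlgebra ℤ (MM G n))ˣ) (K : ConjClasses G) (v : ℤ)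
    (W : MM G n → MM G n → ℤ), WtAt MM.cl (some K) v W →
  (¬(p : ℤ) ∣ v → (v : ZMod (p ^ (m + 1))) * gamVal MM.cl MM.cl_comm p m w (some K) =
    (bil W (w⁻¹ : (MonoidAlgebra ℤ (MM G n))ˣ).val w.val : ℤ)) ∧
  (∀ (T : Finset (ConjClasses G)) (v' : ℤ), v = p * v' → some K ∉ SC MM.cl w →
    (∀ C, C ∈ T ↔ (some C ∈ SC MM.cl w ∧ powC p C = K)) →
    (∀ C ∈ T, ∀ C', some C' ∈ SC MM.cl w → powC p C' ≠ C) →
    (v' : ZMod (p ^ (m + 1))) * (p * gamVal MM.cl MM.cl_comm p m w (some K) +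
      ∑ C ∈ T, gamVal MM.cl MM.cl_comm p m w (some C)) = 0)

/-- ARI. The arithmetic argument. (architect) -/
def s_ARI : Prop := ∀ (G : Type u) [Group G] (ℓ : G → ℕ), LengthBound ℓ →
  ∀ (n : ℕ), 0 < n → ∀ (w : (MonoidAlgebra ℤ (MM G n))ˣ) (Q : Type u) [Group Q] [Finite Q]
    (π : G →* Q) (M : ℕ), 0 < M →
  ∃ (p : ℕ) (_ : Fact p.Prime), p ≠ 2 ∧ M ∣ p - 1 ∧ ∃ D : ℕ, 0 < D ∧
    ∀ (m : ℕ) (c : Q), (∀ g, IsConj (π g) c → ¬IsOfFinOrder g) →
      D • Finsupp.mapDomain (Option.map (ConjClasses.map π)) (gamVal MM.cl MM.cl_comm p m w)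
        (some (ConjClasses.mk c)) = 0

/-- END (200 lines). Elements of the colimit whose logarithm vanishes outside of `P`.
Proof. As `Pool.Agent.WhK.torsion_of_Lmap`, by induction on `r` for `x ∈ Alow Q p r` with the
subgroup `B = closure {ColimK1.mk C w | ∀ c ∈ C.1, P c}`: claim `∃ n > 0, n • x ∈ B`. (`r = 0`:
`x = 0`.) Step: `exists_rep`; for `q ∈ S` with `card q.out = r` and some element of `q.out` outside
`P`, no generator of `q.out` is in `P` (`P` is closed under powers), so `main_step` applies as there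
(`Lmap` of `x` vanishes at the generators; `other_term`); for `q` with `q.out ⊆ P`,
`ColimK1.mk q.out _ ∈ B`; the others are in `Alow r`. So `K • x = y + b`, `y ∈ Alow r`, `b ∈ B`
(a variant of `exists_nsmul_sum_mem` with `Alow ⊔ B`), and `Lmap b` vanishes at the classes outside
`P` (`Lmap_mk`, `P` is invariant under conjugation), so does `Lmap y`. Every `ξ` is in `Alow Q p r`
for `r = card Q + 1` (orders of subgroups divide `card Q`, which divides `p - 1`). -/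
def s_END : Prop := ∀ (Q : Type u) [Group Q] [Finite Q] (p : ℕ) [Fact p.Prime] (hp : p ≠ 2),
  Nat.card Q ∣ p - 1 → ∀ P : Q → Prop, (∀ c d, IsConj c d → P c → P d) →
  (∀ c (i : ℕ), P c → P (c ^ i)) → ∀ (k : ℕ) (ξ : ColimK1 Q),
  (∀ m c, ¬P c → Lmap Q k p m hp ξ (some (ConjClasses.mk c)) = 0) →
  ∃ n : ℕ, 0 < n ∧ n • ξ ∈ AddSubgroup.closure
    {x | ∃ (C : Cyc Q) (w : (MonoidAlgebra ℤ C.1)ˣ), (∀ c ∈ C.1, P c) ∧ x = ColimK1.mk C w}

/-- KCO (150 lines). From `K₁(ℤ[Q])` to the colimit.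
Proof. `artin_K1 (K1.mk n X)`: some multiple `n0 • K1.mk n X` lies in `cycUnits Q`, so it is the
image of some `ξ : ColimK1 Q` under `liftColim (K1.unitHom _)` (closure induction; `liftColim_mk`).
`exists_total ξ` gives a unit `v` with `liftColim φ ξ = φ v` for all `φ`; so
`K1.ofUnit v = n0 • K1.mk n X`, i.e. the class of `X^n0` and of `v` agree: with
`Y = X^n0` at level `n` and `v` at level `1`, at a common level `l ≥ n, 1` the element
`stabGL Y * (stabGL v)⁻¹` has class `0`, and `exists_stab_mem_commutator` gives a level `k + 1` where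
its stabilisation is in the commutator subgroup; `stabGL_scalar` identifies the stabilisation of `v`
with `dg 0 v`. `GamGL` kills commutators (`Abelianization.commutator_subset_ker`), as in
`Lmap_eq_zero`. -/
def s_KCO : Prop := ∀ (Q : Type u) [Group Q] [Finite Q] (n : ℕ) (X : GLn (MonoidAlgebra ℤ Q) n),
  ∃ (n0 : ℕ) (ξ : ColimK1 Q) (k : ℕ) (hk : n ≤ k + 1), 0 < n0 ∧
    liftColim (K1.unitHom (MonoidAlgebra ℤ Q)) ξ = n0 • K1.mk n X ∧
    ∀ (p m : ℕ) [Fact p.Prime] (hp : p ≠ 2) (κ : ConjClasses Q),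
      Lmap Q k p m hp ξ (some κ) =
        n0 • (GamGL Q (k + 1) p m hp (stabGL (MonoidAlgebra ℤ Q) n (k + 1) hk X)).toAdd (some κ)

/-- LIF (120 lines). Powers of units lift along surjections of finite groups.
Proof. Let `A` be the kernel of `φ`, `M` its order, `s = ∑_{a ∈ A} a ∈ ℤ[H]` (central;
`s * x = 0` if `φ x = 0`; `φ s = M`). `ℤ[C]/M` is finite, so `w^n = 1 + M y` and
`w^(-n) = 1 + M y'` for some `n > 0` (compare `exists_pow_eq_one_add` in
`Lib_helper44/Wh/Compare.lean`). Choose lifts `x, x'` of `y, y'`. Then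
`(1 + x s) (1 + x' s) = 1 + (x + x' + M x x') s = 1` because `φ (x + x' + M x x') = 0` (`ℤ[C]` has no
`M`-torsion), the same in the other order, and `φ (1 + x s) = 1 + M y`. -/
def s_LIF : Prop := ∀ (H C : Type u) [Group H] [Finite H] [Group C] (φ : H →* C),
  Function.Surjective φ → ∀ w : (MonoidAlgebra ℤ C)ˣ,
  ∃ (n : ℕ) (w' : (MonoidAlgebra ℤ H)ˣ), 0 < n ∧ unitsMap φ w' = w ^ n

/-- WAL (300 lines). Groups acting on spaces with walls satisfy the length bound.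
Proof. Fix `x₀`; `ℓ g` = number of the `h ∈ ℋ` which separate `x₀` and `g x₀` (in either
direction); subadditive by invariance. Let `g` have infinite order,
`𝓗 = {h ∈ ℋ | ∃ n, ∀ i ≥ n, g^(-i) x₀ ∈ h ∧ g^i x₀ ∉ h}`.
(a) For `h ∈ 𝓗` the sets `g^i h`, `i : ℤ`, are distinct (else `g^M h = h`, `M > 0`, and
`g^(Mt) x₀ ∈ h ↔ g^(-Mt) x₀ ∈ h`). (b) The condition does not depend on the base point: for another
point `x`, `h` separates `g^i x` and `g^i x₀` iff `g^(-i) h` separates `x` and `x₀`, which holds for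
finitely many `i` only, by (a) (for `h` satisfying the condition with `x` or with `x₀`). So `𝓗 ≠ ∅`
by the hypothesis, and `c h ∈ 𝓗` for `h ∈ 𝓗`, `c` in the centraliser of `g`
(`g^i x₀ ∈ c h ↔ g^i (c⁻¹ x₀) ∈ h`). (c) `f c = #{h ∈ 𝓗 | x₀ ∈ h, c x₀ ∉ h} -
#{h ∈ 𝓗 | x₀ ∉ h, c x₀ ∈ h} = ∑ᶠ_{h ∈ 𝓗} (1_h(x₀) - 1_h(c x₀))` is a homomorphism:
`1_h(c x₀) - 1_h(c d x₀)` summed over `h = c h'` is `f d`. `|f g| ≤ ℓ g` clearly.
(d) `f g > 0`: let `T` be the finite set of the `h ∈ 𝓗` separating `x₀` and `g x₀`, split it into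
classes modulo `h ~ g^i h`. Every `h ∈ 𝓗` is equivalent to some element of `T`, and the sum of
`1(x₀) - 1(g x₀)` over the class of `h` is `∑_{i ∈ ℤ} (1_h(g^i x₀) - 1_h(g^(i+1) x₀)) =
1_h(g^(-n) x₀) - 1_h(g^n x₀) = 1` for large `n` (all but finitely many terms are `0`). -/
def s_WAL : Prop := ∀ (G V : Type u) [Group G] [MulAction G V] (ℋ : Set (Set V)), Nonempty V →
  (∀ (g : G), ∀ h ∈ ℋ, (fun x => g • x) '' h ∈ ℋ) →
  (∀ x y : V, {h ∈ ℋ | x ∈ h ∧ y ∉ h}.Finite) →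
  (∀ g : G, ¬IsOfFinOrder g → ∃ h ∈ ℋ, ∃ (x : V) (n : ℕ), ∀ i : ℕ, n ≤ i →
    (g⁻¹) ^ i • x ∈ h ∧ g ^ i • x ∉ h) →
  ∃ ℓ : G → ℕ, LengthBound ℓ

/-- FIN. The theorem. (architect) -/
def s_FIN : Prop := ∀ (G : Type u) [Group G] (ℓ : G → ℕ), LengthBound ℓ →
  ∀ (Q : Type u) [Group Q] [Finite Q] (π : G →* Q) (x : K1 (MonoidAlgebra ℤ G)),
  ∃ n : ℕ, 0 < n ∧ n • K1.map (ringMap π) x ∈ AddSubgroup.closure
    {y | ∃ (H : Subgroup G) (_ : Finite H) (z : K1 (MonoidAlgebra ℤ H)),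
      y = K1.map (ringMap (π.comp H.subtype)) z}

end Pool.Agent.SUR
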