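import Mathlib
import Pool.Agent.SUR.St

/-!
# Module `KAP`: the symmetry lemma in the ring of a monoid
-/

set_option autoImplicit false

universe u

namespace Pool.Agent.SUR

open Pool.Agent.WhK

/-- linear extension of a function to the monoid ring -/
noncomputable def kapL {X A : Type*} [AddCommGroup A] (f : X → A) : MonoidAlgebra ℤ X →+ A where
  toFun x := Finsupp.linearCombination ℤ f x.coeff
  map_zero' := by
    rw [MonoidAlgebra.coeff_zero, map_zero]
  map_add' x y := by rw [MonoidAlgebra.coeff_add, map_add]

theorem kapL_single {X A : Type*} [AddCommGroup A] (f : X → A) (a : X) (r : ℤ) :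
    kapL f (MonoidAlgebra.single a r) = r • f a := by
  show Finsupp.linearCombination ℤ f (MonoidAlgebra.single a r).coeff = _
  rw [MonoidAlgebra.coeff_single, Finsupp.linearCombination_single]

theorem kapL_one {X A : Type*} [Monoid X] [AddCommGroup A] (f : X → A) :
    kapL f (1 : MonoidAlgebra ℤ X) = f 1 := by
  rw [MonoidAlgebra.one_def, kapL_single, one_smul]

theorem kapL_add {X A : Type*} [AddCommGroup A] (f g : X → A) (x : MonoidAlgebra ℤ X) :
    kapL (fun a => f a + g a) x = kapL f x + kapL g x := by
  induction x using MonoidAlgebra.induction_linear with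
  | zero => rw [map_zero, map_zero, map_zero, add_zero]
  | add x y hx hy => rw [map_add, map_add, map_add, hx, hy]; abel
  | single a r => rw [kapL_single, kapL_single, kapL_single, smul_add]

theorem kapL_zero {X A : Type*} [AddCommGroup A] (x : MonoidAlgebra ℤ X) :
    kapL (fun _ => (0 : A)) x = 0 := by
  induction x using MonoidAlgebra.induction_linear with
  | zero => rw [map_zero]
  | add x y hx hy => rw [map_add, hx, hy, add_zero]
  | single a r => rw [kapL_single, smul_zero]

theorem kapL_neg {X A : Type*} [AddCommGroup A] (f : X → A) (x : MonoidAlgebra ℤ X) :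
    kapL (fun a => -f a) x = -kapL f x := by
  have h := kapL_add f (fun a => -f a) x
  have h1 : (fun a => f a + -f a) = fun _ : X => (0 : A) := by
    funext a
    exact add_neg_cancel _
  rw [h1, kapL_zero] at h
  exact (neg_eq_of_add_eq_zero_right h.symm).symm

theorem kapL_mul_left {X A : Type*} [Ring A] (r : A) (f : X → A) (x : MonoidAlgebra ℤ X) :
    kapL (fun a => r * f a) x = r * kapL f x := by
  induction x using MonoidAlgebra.induction_linear with
  | zero => rw [map_zero, map_zero, mul_zero]
  | add x y hx hy => rw [map_add, map_add, hx, hy, mul_add]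
  | single a s => rw [kapL_single, kapL_single, mul_smul_comm]

theorem kapL_swap {X Y A : Type*} [AddCommGroup A] (F : X → Y → A) (x : MonoidAlgebra ℤ X)
    (y : MonoidAlgebra ℤ Y) :
    kapL (fun a => kapL (fun b => F a b) y) x = kapL (fun b => kapL (fun a => F a b) x) y := by
  induction y using MonoidAlgebra.induction_linear with
  | zero =>
    have h : (fun a => kapL (fun b => F a b) (0 : MonoidAlgebra ℤ Y)) = fun _ => (0 : A) := by
      funext a
      rw [map_zero]
    rw [h, kapL_zero, map_zero]
  | add y z hy hz =>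
    have h : (fun a => kapL (fun b => F a b) (y + z)) =
        fun a => kapL (fun b => F a b) y + kapL (fun b => F a b) z := by
      funext a
      rw [map_add]
    rw [h, kapL_add, hy, hz, map_add]
  | single b r =>
    rw [kapL_single]
    induction x using MonoidAlgebra.induction_linear with
    | zero => rw [map_zero, map_zero, smul_zero]
    | add x z hx hz => rw [map_add, hx, hz, map_add, smul_add]
    | single a s => rw [kapL_single, kapL_single, kapL_single, smul_comm]

theorem kapL_mul {X A : Type*} [Monoid X] [AddCommGroup A] (f : X → A)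
    (x y : MonoidAlgebra ℤ X) :
    kapL (fun a => kapL (fun b => f (a * b)) y) x = kapL f (x * y) := by
  induction x using MonoidAlgebra.induction_linear with
  | zero => rw [map_zero, zero_mul, map_zero]
  | add x z hx hz => rw [map_add, hx, hz, add_mul, map_add]
  | single a s =>
    rw [kapL_single]
    induction y using MonoidAlgebra.induction_linear with
    | zero => rw [map_zero, smul_zero, mul_zero, map_zero]
    | add y z hy hz => rw [map_add, smul_add, hy, hz, mul_add, map_add]
    | single b r =>
      rw [kapL_single, MonoidAlgebra.single_mul_single, kapL_single, mul_smul]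

theorem bil_kapL {X A : Type*} [AddCommGroup A] (F : X → X → A) (x y : MonoidAlgebra ℤ X) :
    bil F x y = kapL (fun a => kapL (fun b => F a b) y) x := by
  unfold bil
  show _ = Finsupp.linearCombination ℤ (fun a => kapL (fun b => F a b) y) x.coeff
  rw [Finsupp.linearCombination_apply]
  refine Finsupp.sum_congr fun a _ => ?_
  show _ = x.coeff a • Finsupp.linearCombination ℤ (fun b => F a b) y.coeff
  rw [Finsupp.linearCombination_apply, Finsupp.smul_sum]
  refine Finsupp.sum_congr fun b _ => ?_
  rw [mul_smul]

theorem kapL_cast {X : Type*} (N : ℕ) (f : X → ℤ) (x : MonoidAlgebra ℤ X) :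
    ((kapL f x : ℤ) : ZMod N) = kapL (fun a => ((f a : ℤ) : ZMod N)) x := by
  induction x using MonoidAlgebra.induction_linear with
  | zero => rw [map_zero, map_zero, Int.cast_zero]
  | add x y hx hy => rw [map_add, Int.cast_add, hx, hy, map_add]
  | single a r =>
    rw [kapL_single, kapL_single, smul_eq_mul, Int.cast_mul, zsmul_eq_mul]

/-- the derivation -/
theorem kap_der {M R : Type*} [Monoid M] [CommRing R] (d : M → R)
    (hd : ∀ a b, d (a * b) = d a + d b) (X Y : MonoidAlgebra ℤ M) (hXY : X * Y = 1)
    (hYX : Y * X = 1) (f : M → R) :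
    kapL (fun c => kapL (fun e => kapL (fun a => d e * f (c * e * a)) X) Y) X =
      -kapL (fun a => d a * f a) X := by
  have h0 : ∀ c e a, d e * f (c * e * a) =
      d (c * (e * a)) * f (c * (e * a)) + (-(d c * f (c * (e * a))) + -(d a * f (c * e * a))) := by
    intro c e a
    rw [hd, hd, mul_assoc]
    ring
  have h1 : kapL (fun c => kapL (fun e => kapL (fun a => d (c * (e * a)) * f (c * (e * a))) X) Y)
      X = kapL (fun a => d a * f a) X := by
    have h : ∀ c, kapL (fun e => kapL (fun a => d (c * (e * a)) * f (c * (e * a))) X) Y =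
        d c * f c := fun c => by
      rw [kapL_mul (fun m => d (c * m) * f (c * m)), hYX, kapL_one, mul_one]
    simp only [h]
  have h2 : kapL (fun c => kapL (fun e => kapL (fun a => -(d c * f (c * (e * a)))) X) Y)
      X = -kapL (fun a => d a * f a) X := by
    have h : ∀ c, kapL (fun e => kapL (fun a => -(d c * f (c * (e * a)))) X) Y =
        -(d c * f c) := fun c => by
      rw [kapL_mul (fun m => -(d c * f (c * m))), hYX, kapL_one, mul_one]
    simp only [h]
    rw [kapL_neg]
  have h3 : kapL (fun c => kapL (fun e => kapL (fun a => -(d a * f (c * e * a))) X) Y)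
      X = -kapL (fun a => d a * f a) X := by
    have h : ∀ c, kapL (fun e => kapL (fun a => -(d a * f (c * e * a))) X) Y =
        kapL (fun a => kapL (fun e => -(d a * f (c * e * a))) Y) X := fun c => by
      rw [kapL_swap]
    simp only [h]
    rw [kapL_swap]
    have h' : ∀ a, kapL (fun c => kapL (fun e => -(d a * f (c * e * a))) Y) X =
        -(d a * f a) := fun a => by
      rw [kapL_mul (fun m => -(d a * f (m * a))), hXY, kapL_one, one_mul]
    simp only [h']
    rw [kapL_neg]
  simp only [h0, kapL_add]
  rw [h1, h2, h3]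
  ring

theorem kap_main {M R : Type*} [Monoid M] [CommRing R] (d : M → R)
    (hd : ∀ a b, d (a * b) = d a + d b) (w : M → M → R)
    (hw : ∀ a b c, w a (b * c) = w (a * b) c + w (c * a) b) (hw1 : ∀ a, w a 1 = 0)
    (X Y : MonoidAlgebra ℤ M) (hXY : X * Y = 1) (hYX : Y * X = 1) :
    kapL (fun a => kapL (fun b => d b * w b a) Y) X =
      kapL (fun a => kapL (fun b => d a * w a b) Y) X := by
  -- the sum over four elements
  have h0 : kapL (fun c => kapL (fun e => kapL (fun a => kapL (fun b =>
      d e * w (c * e) (a * b)) Y) X) Y) X = 0 := by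
    have h : ∀ c e, kapL (fun a => kapL (fun b => d e * w (c * e) (a * b)) Y) X = 0 :=
      fun c e => by
        rw [kapL_mul (fun m => d e * w (c * e) m), hXY, kapL_one, hw1, mul_zero]
    simp only [h, kapL_zero]
  have h1 : ∀ c e a b, d e * w (c * e) (a * b) =
      d e * w (c * e * a) b + d e * w (b * c * e) a := by
    intro c e a b
    rw [hw, mul_add, mul_assoc b c e]
  simp only [h1, kapL_add] at h0
  have h2 : kapL (fun c => kapL (fun e => kapL (fun a => kapL (fun b =>
      d e * w (c * e * a) b) Y) X) Y) X = -kapL (fun a => kapL (fun b => d a * w a b) Y) X := by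
    have ha : ∀ c e, kapL (fun a => kapL (fun b => d e * w (c * e * a) b) Y) X =
        kapL (fun b => kapL (fun a => d e * w (c * e * a) b) X) Y := fun c e => by
      rw [kapL_swap]
    simp only [ha]
    have hb : ∀ c, kapL (fun e => kapL (fun b => kapL (fun a => d e * w (c * e * a) b) X) Y) Y =
        kapL (fun b => kapL (fun e => kapL (fun a => d e * w (c * e * a) b) X) Y) Y := fun c => by
      rw [kapL_swap]
    simp only [hb]
    rw [kapL_swap]
    have hc : ∀ b, kapL (fun c => kapL (fun e => kapL (fun a => d e * w (c * e * a) b) X) Y) X =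
        -kapL (fun a => d a * w a b) X := fun b => kap_der d hd X Y hXY hYX fun m => w m b
    simp only [hc]
    rw [kapL_neg, kapL_swap]
  have h3 : kapL (fun c => kapL (fun e => kapL (fun a => kapL (fun b =>
      d e * w (b * c * e) a) Y) X) Y) X = kapL (fun a => kapL (fun b => d b * w b a) Y) X := by
    rw [kapL_swap]
    have ha : ∀ e, kapL (fun c => kapL (fun a => kapL (fun b => d e * w (b * c * e) a) Y) X) X =
        kapL (fun a => kapL (fun c => kapL (fun b => d e * w (b * c * e) a) Y) X) X :=
      fun e => by rw [kapL_swap]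
    simp only [ha]
    have hb : ∀ e a, kapL (fun c => kapL (fun b => d e * w (b * c * e) a) Y) X = d e * w e a :=
      fun e a => by
        rw [kapL_swap, kapL_mul (fun m => d e * w (m * e) a), hYX, kapL_one, one_mul]
    simp only [hb]
    rw [kapL_swap]
  rw [h2, h3] at h0
  rw [neg_add_eq_zero] at h0
  exact h0.symm

theorem t_KAP : s_KAP.{u} := by
  intro 𝒮 _ N W hW deg hdeg X Y hXY hYX
  have hd : ∀ a b : 𝒮, (deg (a * b)).toAdd = (deg a).toAdd + (deg b).toAdd := fun a b => by
    rw [map_mul]; rfl
  have hW1 : ∀ a, W a 1 = 0 := by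
    intro a
    have h := hW a 1 1
    rw [mul_one, mul_one, one_mul] at h
    omega
  have hw : ∀ a b c : 𝒮, ((W a (b * c) : ℤ) : ZMod N) =
      ((W (a * b) c : ℤ) : ZMod N) + ((W (c * a) b : ℤ) : ZMod N) := fun a b c => by
    rw [hW, Int.cast_add]
  have hw1 : ∀ a : 𝒮, ((W a 1 : ℤ) : ZMod N) = 0 := fun a => by rw [hW1, Int.cast_zero]
  have hk := kap_main (fun a : 𝒮 => (deg a).toAdd) hd (fun a b => ((W a b : ℤ) : ZMod N)) hw hw1
    X Y hXY hYX
  have h1 : ∀ a b : 𝒮, ((W 1 (a * b) : ℤ) : ZMod N) * (deg b).toAdd =
      (deg b).toAdd * ((W a b : ℤ) : ZMod N) + (deg b).toAdd * ((W b a : ℤ) : ZMod N) := by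
    intro a b
    rw [hw, one_mul, mul_one]
    ring
  have h2 : ∀ a b : 𝒮, ((W a b : ℤ) : ZMod N) =
      (deg a).toAdd * ((W a b : ℤ) : ZMod N) + (deg b).toAdd * ((W a b : ℤ) : ZMod N) := by
    intro a b
    by_cases h : W a b = 0
    · rw [h, Int.cast_zero, mul_zero, mul_zero, add_zero]
    · have h3 := hdeg a b h
      have h4 : (deg a).toAdd + (deg b).toAdd = 1 := by
        rw [← hd, h3]; rfl
      rw [← add_mul, h4, one_mul]
  rw [bil_kapL, bil_kapL, kapL_cast]
  have h5 : (fun a => ((kapL (fun b => W a b) Y : ℤ) : ZMod N)) =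
      fun a => kapL (fun b => ((W a b : ℤ) : ZMod N)) Y := by
    funext a
    rw [kapL_cast]
  rw [h5]
  have h6 : kapL (fun a => kapL (fun b => ((W 1 (a * b) : ℤ) : ZMod N) * (deg b).toAdd) Y) X =
      kapL (fun a => kapL (fun b => (deg b).toAdd * ((W a b : ℤ) : ZMod N)) Y) X +
        kapL (fun a => kapL (fun b => (deg b).toAdd * ((W b a : ℤ) : ZMod N)) Y) X := by
    simp only [h1, kapL_add]
  have h7 : kapL (fun a => kapL (fun b => ((W a b : ℤ) : ZMod N)) Y) X =
      kapL (fun a => kapL (fun b => (deg a).toAdd * ((W a b : ℤ) : ZMod N)) Y) X +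
        kapL (fun a => kapL (fun b => (deg b).toAdd * ((W a b : ℤ) : ZMod N)) Y) X := by
    rw [← kapL_add]
    refine DFunLike.congr_fun (congrArg kapL ?_) X
    funext a
    rw [← kapL_add]
    refine DFunLike.congr_fun (congrArg kapL ?_) Y
    funext b
    exact h2 a b
  rw [h6, h7, hk, add_comm]

end Pool.Agent.SUR
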