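import Mathlib
import Pool.Agent.SUR.StA
import Pool.Agent.SUR.KAP

/-!
# Module `AKAP`: the symmetry lemma, values in a commutative ring
-/

set_option autoImplicit false

universe u

namespace Pool.Agent.SUR

open Pool.Agent.WhK

theorem t_AKAP : s_AKAP.{u} := by
  intro 𝒮 Λ _ _ W hW deg hdeg X Y hXY hYX
  have hd : ∀ a b : 𝒮, (deg (a * b)).toAdd = (deg a).toAdd + (deg b).toAdd := fun a b => by
    rw [map_mul]; rfl
  have hw : ∀ a b c : 𝒮, W a (b * c) = W (a * b) c + W (c * a) b := hW
  have hw1 : ∀ a, W a 1 = 0 := by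
    intro a
    have h := hw a 1 1
    rw [mul_one, mul_one, one_mul] at h
    exact (left_eq_add.1 h)
  have hk := kap_main (fun a : 𝒮 => (deg a).toAdd) hd (fun a b => W a b) hw hw1 X Y hXY hYX
  have h1 : ∀ a b : 𝒮, W 1 (a * b) * (deg b).toAdd =
      (deg b).toAdd * W a b + (deg b).toAdd * W b a := by
    intro a b
    rw [hw, one_mul, mul_one]
    ring
  have h2 : ∀ a b : 𝒮, W a b = (deg a).toAdd * W a b + (deg b).toAdd * W a b := by
    intro a b
    by_cases h : W a b = 0
    · rw [h, mul_zero, mul_zero, add_zero]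
    · have h3 := hdeg a b h
      have h4 : (deg a).toAdd + (deg b).toAdd = 1 := by
        rw [← hd, h3]; rfl
      rw [← add_mul, h4, one_mul]
  rw [bil_kapL, bil_kapL]
  have h6 : kapL (fun a => kapL (fun b => W 1 (a * b) * (deg b).toAdd) Y) X =
      kapL (fun a => kapL (fun b => (deg b).toAdd * W a b) Y) X +
        kapL (fun a => kapL (fun b => (deg b).toAdd * W b a) Y) X := by
    simp only [h1, kapL_add]
  have h7 : kapL (fun a => kapL (fun b => W a b) Y) X =
      kapL (fun a => kapL (fun b => (deg a).toAdd * W a b) Y) X +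
        kapL (fun a => kapL (fun b => (deg b).toAdd * W a b) Y) X := by
    rw [← kapL_add]
    refine DFunLike.congr_fun (congrArg kapL ?_) X
    funext a
    rw [← kapL_add]
    refine DFunLike.congr_fun (congrArg kapL ?_) Y
    funext b
    exact h2 a b
  rw [h6, h7, hk, add_comm]

end Pool.Agent.SUR
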