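import Mathlib
import Pool.Agent.SUR.StA

/-!
# From `ℤ[1/M]` to the `p`-adic integers
-/

set_option autoImplicit false

universe u

namespace Pool.Agent.SUR

open Pool.Agent.WhK

theorem norm_ZM_le {M p : ℕ} [Fact p.Prime] (hp : ¬p ∣ M) (x : ZM M) :
    ‖((x : ℚ) : ℚ_[p])‖ ≤ 1 := by
  obtain ⟨k, a, h⟩ := x.2
  have h1 : ((M : ℚ_[p])) ^ k * ((x : ℚ) : ℚ_[p]) = (a : ℚ_[p]) := by
    have h2 := congrArg (fun q : ℚ => (q : ℚ_[p])) h
    push_cast at h2
    exact h2
  have h2 : ‖(M : ℚ_[p])‖ = 1 := by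
    have h3 : ‖((M : ℤ) : ℚ_[p])‖ = 1 := by
      refine le_antisymm (Padic.norm_int_le_one _) ?_
      by_contra hlt
      rw [not_le, Padic.norm_intCast_lt_one_iff] at hlt
      exact hp (by exact_mod_cast hlt)
    exact_mod_cast h3
  have h3 := congrArg norm h1
  rw [norm_mul, norm_pow, h2, one_pow, one_mul] at h3
  rw [h3]
  exact Padic.norm_int_le_one _

theorem t_ANEQ : s_ANEQ.{u} := by
  intro M p _ hM hp
  let j : ZM M →+* ℤ_[p] :=
    { toFun := fun x => ⟨((x : ℚ) : ℚ_[p]), norm_ZM_le hp x⟩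
      map_one' := by
        apply Subtype.ext
        simp
      map_zero' := by
        apply Subtype.ext
        simp
      map_add' := fun x y => by
        apply Subtype.ext
        show (((x : ℚ) + (y : ℚ) : ℚ) : ℚ_[p]) = ((x : ℚ) : ℚ_[p]) + ((y : ℚ) : ℚ_[p])
        push_cast
        rfl
      map_mul' := fun x y => by
        apply Subtype.ext
        show (((x : ℚ) * (y : ℚ) : ℚ) : ℚ_[p]) = ((x : ℚ) : ℚ_[p]) * ((y : ℚ) : ℚ_[p])
        push_cast
        rfl }
  have hj : Function.Injective j := fun x y h => by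
    have h1 := congrArg (fun z : ℤ_[p] => (z : ℚ_[p])) h
    have h2 : ((x : ℚ) : ℚ_[p]) = ((y : ℚ) : ℚ_[p]) := h1
    exact Subtype.ext (Rat.cast_injective h2)
  refine ⟨j, hj, fun x => rfl, fun 𝔐 K _ cl k v W hW => ⟨fun a b c => ?_, fun a b hab => ?_,
    fun a ha => ?_⟩⟩
  · show j (W a (b * c)) = j (W (a * b) c) + j (W (c * a) b)
    rw [hW.1 a b c, map_add]
  · exact hW.2.1 a b fun h => hab (by
      show j (W a b) = 0
      rw [h, map_zero])
  · show j (W 1 a) = j v
    rw [hW.2.2 a ha]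

end Pool.Agent.SUR
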