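import Pool.Agent.SUR.St

/-!
# SUR_RES: the pull back of a weight under the power map
-/

set_option autoImplicit false

universe u

namespace Pool.Agent.SUR

open Pool.Agent.WhK

namespace RES

variable {𝔐 : Type*} [Monoid 𝔐] {W : 𝔐 → 𝔐 → ℤ}

theorem wt_one_right (hW : IsWt W) (a : 𝔐) : W a 1 = 0 := by
  have h := hW a 1 1
  rw [one_mul, mul_one, one_mul] at h
  omega

/-- iteration of the rule -/
theorem wt_pow (hW : IsWt W) (a b : 𝔐) (k : ℕ) (hab : a * b = b * a) :
    W a (b ^ k) = k * W (a * b ^ (k - 1)) b := by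
  induction k generalizing a with
  | zero => rw [pow_zero, wt_one_right hW]; simp
  | succ k ih =>
    rw [pow_succ', hW a b (b ^ k)]
    have hab' : a * b * b = b * (a * b) := by rw [hab, mul_assoc, hab]
    rw [ih (a * b) hab']
    rcases Nat.eq_zero_or_pos k with rfl | hk
    · simp
    · have h1 : a * b * b ^ (k - 1) = a * b ^ (k + 1 - 1) := by
        rw [mul_assoc, ← pow_succ']
        congr 2
        omega
      have h2 : b ^ k * a = a * b ^ (k + 1 - 1) := by
        rw [Nat.add_sub_cancel]
        exact ((Commute.pow_right (show Commute a b from hab) k).eq).symm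
      rw [h1, h2]
      push_cast
      ring

theorem wt_one_pow (hW : IsWt W) (b : 𝔐) (k : ℕ) : W 1 (b ^ k) = k * W (b ^ (k - 1)) b := by
  have h := wt_pow hW 1 b k (by rw [one_mul, mul_one])
  rw [one_mul] at h
  exact h

/-- cyclic rotation of powers -/
theorem rot (a b : 𝔐) (k : ℕ) : a * (b * a) ^ k = (a * b) ^ k * a := by
  induction k with
  | zero => simp
  | succ k ih => rw [pow_succ, ← mul_assoc, ih, pow_succ]; simp only [mul_assoc]

theorem pw_isWt (hW : IsWt W) (p : ℕ) : IsWt (pw W p) := by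
  intro a b c
  unfold pw
  rw [hW]
  congr 1
  · simp only [mul_assoc]
  · have h1 := rot c (a * b) (p - 1)
    have h2 : c * ((a * (b * c)) ^ (p - 1) * a) = (c * a * b) ^ (p - 1) * (c * a) := by
      rw [← mul_assoc, ← mul_assoc a b c, h1]
      simp only [mul_assoc]
    rw [h2]

variable {K : Type*} {cl : 𝔐 → K}

theorem resW_isWt (hcl : ∀ a b, cl (a * b) = cl (b * a)) (hW : IsWt W) (p : ℕ) (c : K) :
    IsWt (resW cl W p c) := by
  intro a b d
  unfold resW
  have h1 : cl (a * (b * d)) = cl (a * b * d) := by rw [mul_assoc]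
  have h2 : cl (d * a * b) = cl (a * b * d) := by
    rw [mul_assoc, hcl]
  rw [h1, h2]
  split_ifs
  · exact pw_isWt hW p a b d
  · simp

variable {G : Type*} [Group G] {n : ℕ}

theorem cl_some {x : MM G n} {C : ConjClasses G} (h : MM.cl x = some C) :
    ∃ (i : Fin n) (g : G), x = MM.unit i i g ∧ ConjClasses.mk g = C := by
  cases x with
  | one => exact absurd h (by simp [MM.cl])
  | zero => exact absurd h (by simp [MM.cl])
  | unit i j g =>
    simp only [MM.cl] at h
    split_ifs at h with hij
    · subst hij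
      exact ⟨i, g, rfl, Option.some.inj h⟩

theorem unit_pow (i : Fin n) (g : G) (k : ℕ) (hk : 0 < k) :
    (MM.unit i i g : MM G n) ^ k = MM.unit i i (g ^ k) := by
  induction k with
  | zero => omega
  | succ k ih =>
    rcases Nat.eq_zero_or_pos k with rfl | hk'
    · rw [zero_add, pow_one, pow_one]
    · rw [pow_succ, ih hk', MM.unit_mul, if_pos rfl, pow_succ]

theorem cl_pow {x : MM G n} {C : ConjClasses G} {p : ℕ} (hp : 0 < p) (h : MM.cl x = some C) :
    MM.cl (x ^ p) = some (powC p C) := by
  obtain ⟨i, g, rfl, rfl⟩ := cl_some h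
  rw [unit_pow i g p hp]
  simp only [MM.cl, if_true]
  rfl

theorem cl_of_pow {x : MM G n} {C : ConjClasses G} {p : ℕ} (hp : 2 ≤ p)
    (h : MM.cl (x ^ p) = some C) : ∃ C', MM.cl x = some C' ∧ powC p C' = C := by
  cases x with
  | one =>
    have h1 : (MM.one : MM G n) ^ p = MM.one := one_pow p
    rw [h1] at h
    exact absurd h (by simp [MM.cl])
  | zero =>
    obtain ⟨k, rfl⟩ : ∃ k, p = k + 1 := ⟨p - 1, by omega⟩
    rw [pow_succ, MM.mul_zero'] at h
    exact absurd h (by simp [MM.cl])
  | unit i j g =>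
    by_cases hij : i = j
    · subst hij
      have h1 : MM.cl (MM.unit i i g : MM G n) = some (ConjClasses.mk g) := by simp [MM.cl]
      have h2 := cl_pow (p := p) (by omega) h1
      rw [h] at h2
      exact ⟨_, h1, (Option.some.inj h2).symm⟩
    · obtain ⟨k, rfl⟩ : ∃ k, p = k + 2 := ⟨p - 2, by omega⟩
      have h1 : (MM.unit i j g : MM G n) ^ 2 = MM.zero := by
        rw [pow_two, MM.unit_mul, if_neg fun h => hij h.symm]
      rw [pow_add, h1, MM.mul_zero'] at h
      exact absurd h (by simp [MM.cl])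

end RES

open RES in
/-- SUR_RES -/
theorem t_RES : s_RES.{u} := by
  classical
  intro G _ n p K v W hn hp hWt
  obtain ⟨hW, hsup, hval⟩ := hWt
  have hp2 : 2 ≤ p := hp.two_le
  have hp0 : 0 < p := hp.pos
  have key : ∀ a b : MM G n, pw W p a b ≠ 0 → MM.cl ((a * b) ^ p) = some K := by
    intro a b h
    have h1 := hsup _ _ h
    have h2 : (a * b) ^ (p - 1) * a * b = (a * b) ^ p := by
      rw [mul_assoc, ← pow_succ, Nat.sub_add_cancel hp0]
    rw [h2] at h1
    exact h1
  have hv : ∀ a : MM G n, MM.cl (a ^ p) = some K → v = p * W (a ^ (p - 1)) a := by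
    intro a h
    rw [← hval _ h, wt_one_pow hW]
  refine ⟨fun x C h => cl_pow hp0 h, fun x C h => cl_of_pow hp2 h, ?_, ?_, ?_⟩
  · intro C hC
    obtain ⟨h, rfl⟩ := ConjClasses.exists_rep C
    have hc : MM.cl (MM.unit ⟨0, hn⟩ ⟨0, hn⟩ h : MM G n) = some (ConjClasses.mk h) := by
      simp [MM.cl]
    have hc' := cl_pow hp0 hc
    rw [hC] at hc'
    refine ⟨W ((MM.unit ⟨0, hn⟩ ⟨0, hn⟩ h : MM G n) ^ (p - 1)) (MM.unit ⟨0, hn⟩ ⟨0, hn⟩ h),
      hv _ hc', resW_isWt MM.cl_comm hW p _, ?_, ?_⟩
    · intro a b hab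
      unfold resW at hab
      by_contra h0
      rw [if_neg h0] at hab
      exact hab rfl
    · intro a ha
      unfold resW pw
      rw [one_mul, if_pos ha, mul_one]
      have ha' := cl_pow hp0 ha
      rw [hC] at ha'
      have h1 := hv _ hc'
      rw [hv _ ha'] at h1
      have h2 : (p : ℤ) ≠ 0 := by exact_mod_cast hp0.ne'
      exact mul_left_cancel₀ h2 h1
  · intro S x y hS hxy
    have hC : ∀ a ∈ x.coeff.support, ∀ b ∈ y.coeff.support,
        pw W p a b = ∑ C ∈ S, resW MM.cl W p (some C) a b := by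
      intro a ha b hb
      by_cases h0 : pw W p a b = 0
      · rw [h0, Finset.sum_eq_zero]
        intro C _
        unfold resW
        split_ifs
        · exact h0
        · rfl
      · obtain ⟨C', h1, h2⟩ := cl_of_pow hp2 (key a b h0)
        rw [Finset.sum_eq_single_of_mem C' (hxy a ha b hb C' h1 h2)]
        · unfold resW
          rw [if_pos h1]
        · intro C _ hne
          unfold resW
          rw [if_neg]
          rw [h1]
          intro h3
          exact hne (Option.some.inj h3).symm
    have h1 : bil (pw W p) x y = ∑ a ∈ x.coeff.support, ∑ b ∈ y.coeff.support,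
        (x.coeff a * y.coeff b) • pw W p a b := rfl
    have h2 : ∀ C : ConjClasses G, bil (resW MM.cl W p (some C)) x y =
        ∑ a ∈ x.coeff.support, ∑ b ∈ y.coeff.support,
          (x.coeff a * y.coeff b) • resW MM.cl W p (some C) a b := fun C => rfl
    have h3 : ∑ C ∈ S, bil (resW MM.cl W p (some C)) x y =
        ∑ a ∈ x.coeff.support, ∑ b ∈ y.coeff.support, ∑ C ∈ S,
          (x.coeff a * y.coeff b) • resW MM.cl W p (some C) a b := by
      rw [Finset.sum_congr (g := fun C => ∑ a ∈ x.coeff.support, ∑ b ∈ y.coeff.support,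
        (x.coeff a * y.coeff b) • resW MM.cl W p (some C) a b) rfl fun C _ => h2 C,
        Finset.sum_comm]
      exact Finset.sum_congr rfl fun a _ => Finset.sum_comm
    rw [h1, h3]
    refine Finset.sum_congr rfl fun a ha => Finset.sum_congr rfl fun b hb => ?_
    rw [hC a ha b hb, Finset.smul_sum]
  · intro hpv x y
    have h0 : ∀ a b : MM G n, pw W p a b = 0 := by
      intro a b
      by_contra h
      exact hpv ⟨_, hv _ (key a b h)⟩
    unfold bil
    simp [h0]

end Pool.Agent.SUR
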