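import Pool.Agent.SUR.StA
import Pool.Agent.SUR.RES

/-!
# SUR_ARES: the pull back of a weight with values in the p-adic integers under the power map
-/

set_option autoImplicit false

universe u

namespace Pool.Agent.SUR

open Pool.Agent.WhK

namespace ARES

variable {𝔐 Λ : Type*} [Monoid 𝔐] [CommRing Λ] {W : 𝔐 → 𝔐 → Λ}

theorem wt_one_right (hW : IsWtA W) (a : 𝔐) : W a 1 = 0 := by
  have h := hW a 1 1
  rw [one_mul, mul_one, one_mul] at h
  exact left_eq_add.1 h

/-- iteration of the rule -/
theorem wt_pow (hW : IsWtA W) (a b : 𝔐) (k : ℕ) (hab : a * b = b * a) :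
    W a (b ^ k) = k * W (a * b ^ (k - 1)) b := by
  induction k generalizing a with
  | zero => rw [pow_zero, wt_one_right hW]; simp
  | succ k ih =>
    rw [pow_succ', hW a b (b ^ k)]
    have hab' : a * b * b = b * (a * b) := by rw [hab, mul_assoc, hab]
    rw [ih (a * b) hab']
    rcases Nat.eq_zero_or_pos k with rfl | hk
    · simp
    · have h1 : a * b * b ^ (k - 1) = a * b ^ (k + 1 - 1) := by
        rw [mul_assoc, ← pow_succ']
        congr 2
        omega
      have h2 : b ^ k * a = a * b ^ (k + 1 - 1) := by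
        rw [Nat.add_sub_cancel]
        exact ((Commute.pow_right (show Commute a b from hab) k).eq).symm
      rw [h1, h2]
      push_cast
      ring

theorem wt_one_pow (hW : IsWtA W) (b : 𝔐) (k : ℕ) : W 1 (b ^ k) = k * W (b ^ (k - 1)) b := by
  have h := wt_pow hW 1 b k (by rw [one_mul, mul_one])
  rw [one_mul] at h
  exact h

/-- cyclic rotation of powers -/
theorem rot (a b : 𝔐) (k : ℕ) : a * (b * a) ^ k = (a * b) ^ k * a := by
  induction k with
  | zero => simp
  | succ k ih => rw [pow_succ, ← mul_assoc, ih, pow_succ]; simp only [mul_assoc]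

theorem pwA_isWtA (hW : IsWtA W) (p : ℕ) : IsWtA (pwA W p) := by
  intro a b c
  unfold pwA
  rw [hW]
  congr 1
  · simp only [mul_assoc]
  · have h1 := rot c (a * b) (p - 1)
    have h2 : c * ((a * (b * c)) ^ (p - 1) * a) = (c * a * b) ^ (p - 1) * (c * a) := by
      rw [← mul_assoc, ← mul_assoc a b c, h1]
      simp only [mul_assoc]
    rw [h2]

variable {K : Type*} {cl : 𝔐 → K}

theorem resWA_isWtA (hcl : ∀ a b, cl (a * b) = cl (b * a)) (hW : IsWtA W) (p : ℕ) (c : K) :
    IsWtA (resWA cl W p c) := by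
  intro a b d
  unfold resWA
  have h1 : cl (a * (b * d)) = cl (a * b * d) := by rw [mul_assoc]
  have h2 : cl (d * a * b) = cl (a * b * d) := by
    rw [mul_assoc, hcl]
  rw [h1, h2]
  split_ifs
  · exact pwA_isWtA hW p a b d
  · simp

end ARES

open RES ARES in
/-- SUR_ARES -/
theorem t_ARES : s_ARES.{u} := by
  classical
  intro G _ n p hpF K v W hn hWt
  obtain ⟨hW, hsup, hval⟩ := hWt
  have hp2 : 2 ≤ p := hpF.out.two_le
  have hp0 : 0 < p := hpF.out.pos
  have key : ∀ a b : MM G n, pwA W p a b ≠ 0 → MM.cl ((a * b) ^ p) = some K := by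
    intro a b h
    have h1 := hsup _ _ h
    have h2 : (a * b) ^ (p - 1) * a * b = (a * b) ^ p := by
      rw [mul_assoc, ← pow_succ, Nat.sub_add_cancel hp0]
    rw [h2] at h1
    exact h1
  have hv : ∀ a : MM G n, MM.cl (a ^ p) = some K → v = p * W (a ^ (p - 1)) a := by
    intro a h
    rw [← hval _ h, ARES.wt_one_pow hW]
  refine ⟨fun x C h => cl_of_pow hp2 h, ?_, ?_, ?_⟩
  · intro C hC
    obtain ⟨h, rfl⟩ := ConjClasses.exists_rep C
    have hc : MM.cl (MM.unit ⟨0, hn⟩ ⟨0, hn⟩ h : MM G n) = some (ConjClasses.mk h) := by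
      simp [MM.cl]
    have hc' := cl_pow hp0 hc
    rw [hC] at hc'
    refine ⟨W ((MM.unit ⟨0, hn⟩ ⟨0, hn⟩ h : MM G n) ^ (p - 1)) (MM.unit ⟨0, hn⟩ ⟨0, hn⟩ h),
      hv _ hc', resWA_isWtA MM.cl_comm hW p _, ?_, ?_⟩
    · intro a b hab
      unfold resWA at hab
      by_contra h0
      rw [if_neg h0] at hab
      exact hab rfl
    · intro a ha
      unfold resWA pwA
      rw [one_mul, if_pos ha, mul_one]
      have ha' := cl_pow hp0 ha
      rw [hC] at ha'
      have h1 := hv _ hc'
      rw [hv _ ha'] at h1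
      have h2 : (p : ℤ_[p]) ≠ 0 := Nat.cast_ne_zero.2 hp0.ne'
      exact mul_left_cancel₀ h2 h1
  · intro S x y hS hxy
    have hC : ∀ a ∈ x.coeff.support, ∀ b ∈ y.coeff.support,
        pwA W p a b = ∑ C ∈ S, resWA MM.cl W p (some C) a b := by
      intro a ha b hb
      by_cases h0 : pwA W p a b = 0
      · rw [h0, Finset.sum_eq_zero]
        intro C _
        unfold resWA
        split_ifs
        · exact h0
        · rfl
      · obtain ⟨C', h1, h2⟩ := cl_of_pow hp2 (key a b h0)
        rw [Finset.sum_eq_single_of_mem C' (hxy a ha b hb C' h1 h2)]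
        · unfold resWA
          rw [if_pos h1]
        · intro C _ hne
          unfold resWA
          rw [if_neg]
          rw [h1]
          intro h3
          exact hne (Option.some.inj h3).symm
    have h1 : bil (pwA W p) x y = ∑ a ∈ x.coeff.support, ∑ b ∈ y.coeff.support,
        (x.coeff a * y.coeff b) • pwA W p a b := rfl
    have h2 : ∀ C : ConjClasses G, bil (resWA MM.cl W p (some C)) x y =
        ∑ a ∈ x.coeff.support, ∑ b ∈ y.coeff.support,
          (x.coeff a * y.coeff b) • resWA MM.cl W p (some C) a b := fun C => rfl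
    have h3 : ∑ C ∈ S, bil (resWA MM.cl W p (some C)) x y =
        ∑ a ∈ x.coeff.support, ∑ b ∈ y.coeff.support, ∑ C ∈ S,
          (x.coeff a * y.coeff b) • resWA MM.cl W p (some C) a b := by
      rw [Finset.sum_congr (g := fun C => ∑ a ∈ x.coeff.support, ∑ b ∈ y.coeff.support,
        (x.coeff a * y.coeff b) • resWA MM.cl W p (some C) a b) rfl fun C _ => h2 C,
        Finset.sum_comm]
      exact Finset.sum_congr rfl fun a _ => Finset.sum_comm
    rw [h1, h3]
    refine Finset.sum_congr rfl fun a ha => Finset.sum_congr rfl fun b hb => ?_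
    rw [hC a ha b hb, Finset.smul_sum]
  · intro hpv x y
    have h0 : ∀ a b : MM G n, pwA W p a b = 0 := by
      intro a b
      by_contra h
      exact hpv ⟨_, hv _ (key a b h)⟩
    unfold bil
    simp [h0]

end Pool.Agent.SUR
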