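import Pool.Agent.SUR.St

/-!
# Surjectivity in degree one, seen in finite quotients: module INV
-/

set_option autoImplicit false

universe u

namespace Pool.Agent.SUR

open Pool.Agent.WhK

namespace INVx

variable {𝔐 : Type u} [Monoid 𝔐] {N : ℕ}

/-- The elements of `ZMod N` in the ring of the wreath product. -/
noncomputable def sg (i : ZMod N) : MonoidAlgebra ℤ (Wr 𝔐 N) :=
  MonoidAlgebra.single (⟨1, i⟩ : Wr 𝔐 N) 1

theorem io_single (a : ZMod N → 𝔐) (r : ℤ) :
    io (MonoidAlgebra.single a r) = MonoidAlgebra.single (⟨a, 0⟩ : Wr 𝔐 N) r :=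
  MonoidAlgebra.mapDomain_single

theorem sg_io (i : ZMod N) (b : MonoidAlgebra ℤ (ZMod N → 𝔐)) :
    sg i * io b = io (rho i b) * sg i := by
  induction b using MonoidAlgebra.induction_linear with
  | zero => rw [map_zero, map_zero, map_zero, mul_zero, zero_mul]
  | add x y hx hy => rw [map_add, map_add, map_add, mul_add, add_mul, hx, hy]
  | single a r =>
    rw [rho_eq, MonoidAlgebra.mapDomain_single, io_single, io_single, sg,
      MonoidAlgebra.single_mul_single, MonoidAlgebra.single_mul_single, mul_comm (1 : ℤ) r,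
      Wr.mul_def, Wr.mul_def]
    congr 1
    ext1
    · change 1 * shiftHom i a = shiftHom i a * shiftHom 0 1
      rw [one_mul, map_one, mul_one]
    · change i + 0 = 0 + i
      rw [add_zero, zero_add]

theorem sg_mul (i j : ZMod N) : (sg i * sg j : MonoidAlgebra ℤ (Wr 𝔐 N)) = sg (i + j) := by
  rw [sg, sg, sg, MonoidAlgebra.single_mul_single, mul_one, Wr.mul_def]
  congr 1
  ext1
  · change 1 * shiftHom i (1 : ZMod N → 𝔐) = 1
    rw [map_one, mul_one]
  · rfl

theorem eW_eq [NeZero N] : eW 𝔐 N = ∑ i : ZMod N, sg i := rfl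

theorem sg_eW [NeZero N] (i : ZMod N) : sg i * eW 𝔐 N = eW 𝔐 N := by
  rw [eW_eq, Finset.mul_sum, Finset.sum_congr rfl fun j _ => sg_mul i j]
  exact Fintype.sum_equiv (Equiv.addLeft i) _ _ fun j => rfl

theorem eW_io_eW [NeZero N] (z : MonoidAlgebra ℤ (ZMod N → 𝔐)) :
    eW 𝔐 N * io z * eW 𝔐 N = io (∑ j, rho j z) * eW 𝔐 N := by
  have h : eW 𝔐 N * io z = ∑ j : ZMod N, io (rho j z) * sg j := by
    rw [eW_eq, Finset.sum_mul]
    exact Finset.sum_congr rfl fun j _ => sg_io j z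
  rw [h, Finset.sum_mul, map_sum, Finset.sum_mul]
  exact Finset.sum_congr rfl fun j _ => by rw [mul_assoc, sg_eW]

theorem eW_io [NeZero N] {b : MonoidAlgebra ℤ (ZMod N → 𝔐)} (hb : ∀ i, rho i b = b) :
    eW 𝔐 N * io b = io b * eW 𝔐 N := by
  rw [eW_eq, Finset.sum_mul, Finset.mul_sum]
  exact Finset.sum_congr rfl fun j _ => by rw [sg_io, hb]

end INVx

open INVx in
/-- INV. -/
theorem t_INV : s_INV.{u} := by
  intro 𝔐 K _ cl hcl N _ U Ui Wo Wi z t
  have hU : ∀ i, rho i U = U := t.U_inv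
  have hUi : ∀ i, rho i Ui = Ui := t.Ui_inv
  have hWi : ∀ i, rho i Wi = Wi := t.Wi_inv
  have h1 : U * Ui = 1 := t.h1
  have h2 : Ui * U = 1 := t.h2
  have h3 : Wo * Wi = 1 := t.h3
  have h4 : Wi * Wo = 1 := t.h4
  have hz : ∑ i, rho i z = U - Wo := t.hz
  have hV : ∑ i, rho i (Ui * z * Wi) = Wi - Ui := by
    have h5 : ∀ i, rho i (Ui * z * Wi) = Ui * rho i z * Wi := fun i => by
      rw [map_mul, map_mul, hUi, hWi]
    rw [Finset.sum_congr rfl fun i _ => h5 i, ← Finset.sum_mul, ← Finset.mul_sum, hz, mul_sub,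
      sub_mul, h2, one_mul, mul_assoc, h3, mul_one]
  constructor
  · have e1 : io (Ui * z * Wi) * eW 𝔐 N * io U = io (Ui * z * Wi * U) * eW 𝔐 N := by
      rw [mul_assoc, eW_io hU, ← mul_assoc, ← map_mul]
    have e2 : io (Ui * z * Wi) * eW 𝔐 N * (io z * eW 𝔐 N) =
        io (Ui * z * Wi * (U - Wo)) * eW 𝔐 N := by
      rw [mul_assoc, ← mul_assoc (eW 𝔐 N), eW_io_eW, hz, ← mul_assoc, ← map_mul]
    have e3 : Ui * z * Wi * (U - Wo) = Ui * z * Wi * U - Ui * z := by
      rw [mul_sub, mul_assoc (Ui * z) Wi Wo, h4, mul_one]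
    rw [XW, YW, add_mul, mul_sub, mul_sub, e1, e2, e3, ← map_mul, h2, map_one, ← mul_assoc,
      ← map_mul, map_sub, sub_mul]
    abel
  · have e1 : io U * (io (Ui * z * Wi) * eW 𝔐 N) = io (z * Wi) * eW 𝔐 N := by
      rw [← mul_assoc, ← map_mul, ← mul_assoc, ← mul_assoc, h1, one_mul]
    have e2 : io z * eW 𝔐 N * io Ui = io (z * Ui) * eW 𝔐 N := by
      rw [mul_assoc, eW_io hUi, ← mul_assoc, ← map_mul]
    have e3 : io z * eW 𝔐 N * (io (Ui * z * Wi) * eW 𝔐 N) = io (z * (Wi - Ui)) * eW 𝔐 N := by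
      rw [mul_assoc, ← mul_assoc (eW 𝔐 N), eW_io_eW, hV, ← mul_assoc, ← map_mul]
    rw [XW, YW, sub_mul, mul_add, mul_add, e1, e2, e3, ← map_mul, h1, map_one, mul_sub, map_sub,
      sub_mul]
    abel

end Pool.Agent.SUR
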