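import Pool.Agent.SUR.St
import Pool.Agent.SUR.INV

/-!
# Surjectivity in degree one, seen in finite quotients: module TOT
-/

set_option autoImplicit false

universe u

namespace Pool.Agent.SUR

open Pool.Agent.WhK

namespace TOTx

section Bil

variable {X A : Type*} [AddCommGroup A] (F : X → X → A)

theorem bil_add_left (x x' y : MonoidAlgebra ℤ X) : bil F (x + x') y = bil F x y + bil F x' y := by
  unfold bil
  rw [MonoidAlgebra.coeff_add]
  refine Finsupp.sum_add_index' (fun a => ?_) fun a r r' => ?_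
  · simp
  · rw [← Finsupp.sum_add]
    refine Finsupp.sum_congr fun b _ => ?_
    rw [add_mul, add_smul]

theorem bil_add_right (x y y' : MonoidAlgebra ℤ X) : bil F x (y + y') = bil F x y + bil F x y' := by
  unfold bil
  rw [MonoidAlgebra.coeff_add, ← Finsupp.sum_add]
  refine Finsupp.sum_congr fun a _ => ?_
  refine Finsupp.sum_add_index' (fun b => ?_) fun b s s' => ?_
  · simp
  · rw [mul_add, add_smul]

/-- The biadditive map. -/
noncomputable def bilHom : MonoidAlgebra ℤ X →+ MonoidAlgebra ℤ X →+ A :=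
  AddMonoidHom.mk' (fun x => AddMonoidHom.mk' (fun y => bil F x y) (bil_add_right F x))
    fun x x' => AddMonoidHom.ext fun y => bil_add_left F x x' y

theorem bilHom_apply (x y : MonoidAlgebra ℤ X) : bilHom F x y = bil F x y := rfl

theorem bil_zero_left (y : MonoidAlgebra ℤ X) : bil F 0 y = 0 := by
  rw [← bilHom_apply, map_zero, AddMonoidHom.zero_apply]

theorem bil_zero_right (x : MonoidAlgebra ℤ X) : bil F x 0 = 0 := by
  rw [← bilHom_apply, map_zero]

theorem bil_sub_left (x x' y : MonoidAlgebra ℤ X) : bil F (x - x') y = bil F x y - bil F x' y := by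
  rw [← bilHom_apply, ← bilHom_apply, ← bilHom_apply, map_sub, AddMonoidHom.sub_apply]

theorem bil_sub_right (x y y' : MonoidAlgebra ℤ X) : bil F x (y - y') = bil F x y - bil F x y' := by
  rw [← bilHom_apply, ← bilHom_apply, ← bilHom_apply, map_sub]

theorem bil_sum_left {ι : Type*} (s : Finset ι) (f : ι → MonoidAlgebra ℤ X)
    (y : MonoidAlgebra ℤ X) : bil F (∑ i ∈ s, f i) y = ∑ i ∈ s, bil F (f i) y := by
  rw [← bilHom_apply, map_sum, AddMonoidHom.finsetSum_apply]
  rfl

theorem bil_sum_right {ι : Type*} (s : Finset ι) (f : ι → MonoidAlgebra ℤ X)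
    (x : MonoidAlgebra ℤ X) : bil F x (∑ i ∈ s, f i) = ∑ i ∈ s, bil F x (f i) := by
  rw [← bilHom_apply, map_sum]
  rfl

theorem bil_single (a b : X) (r s : ℤ) :
    bil F (MonoidAlgebra.single a r) (MonoidAlgebra.single b s) = (r * s) • F a b := by
  unfold bil
  rw [MonoidAlgebra.coeff_single, Finsupp.sum_single_index, MonoidAlgebra.coeff_single,
    Finsupp.sum_single_index]
  · simp
  · simp

end Bil

variable {𝔐 : Type u} [Monoid 𝔐] {N : ℕ} [NeZero N]

omit [NeZero N] in
theorem Pr_shift (r i : ZMod N) (y : ZMod N → 𝔐) : Pr r (shiftHom i y) = Pr (r + i) y := by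
  unfold Pr
  congr 1
  refine List.map_congr_left fun k _ => ?_
  rw [shiftHom_apply]
  congr 1
  ring

theorem eN_shift (W : 𝔐 → 𝔐 → ℤ) (i : ZMod N) (a b : ZMod N → 𝔐) :
    eN W (shiftHom i a) (shiftHom i b) = eN W a b := by
  unfold eN
  refine Fintype.sum_equiv (Equiv.addRight i) _ _ fun r => ?_
  rw [← map_mul, Pr_shift, shiftHom_apply, shiftHom_apply]
  rfl

theorem bil_rho (W : 𝔐 → 𝔐 → ℤ) (i : ZMod N) (A B : MonoidAlgebra ℤ (ZMod N → 𝔐)) :
    bil (eN W) (rho i A) (rho i B) = bil (eN W) A B := by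
  induction A using MonoidAlgebra.induction_linear with
  | zero => rw [map_zero, bil_zero_left, bil_zero_left]
  | add x y hx hy => rw [map_add, bil_add_left, bil_add_left, hx, hy]
  | single a r =>
    induction B using MonoidAlgebra.induction_linear with
    | zero => rw [map_zero, bil_zero_right, bil_zero_right]
    | add x y hx hy => rw [map_add, bil_add_right, bil_add_right, hx, hy]
    | single b s =>
      rw [rho_eq, rho_eq, MonoidAlgebra.mapDomain_single, MonoidAlgebra.mapDomain_single,
        bil_single, bil_single, eN_shift]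

omit [NeZero N] in
theorem io_sg (a : ZMod N → 𝔐) (r : ℤ) (j : ZMod N) :
    (io (MonoidAlgebra.single a r) * INVx.sg j : MonoidAlgebra ℤ (Wr 𝔐 N)) =
      MonoidAlgebra.single (⟨a, j⟩ : Wr 𝔐 N) r := by
  rw [INVx.io_single, INVx.sg, MonoidAlgebra.single_mul_single, mul_one, Wr.mul_def]
  congr 1
  ext1
  · change a * shiftHom 0 (1 : ZMod N → 𝔐) = a
    rw [map_one, mul_one]
  · change (0 : ZMod N) + j = j
    rw [zero_add]

theorem bil_wr (W : 𝔐 → 𝔐 → ℤ) (A B : MonoidAlgebra ℤ (ZMod N → 𝔐)) (j l : ZMod N) :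
    bil (wr W) (io A * INVx.sg j) (io B * INVx.sg l) =
      if j + l = 1 then bil (eN W) A (rho j B) else 0 := by
  induction A using MonoidAlgebra.induction_linear with
  | zero => rw [map_zero, zero_mul, bil_zero_left, bil_zero_left, ite_self]
  | add x y hx hy =>
    rw [map_add, add_mul, bil_add_left, bil_add_left, hx, hy]
    split_ifs <;> simp
  | single a r =>
    induction B using MonoidAlgebra.induction_linear with
    | zero => rw [map_zero, map_zero, zero_mul, bil_zero_right, bil_zero_right, ite_self]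
    | add x y hx hy =>
      rw [map_add, map_add, add_mul, bil_add_right, bil_add_right, hx, hy]
      split_ifs <;> simp
    | single b s =>
      rw [io_sg, io_sg, bil_single, rho_eq, MonoidAlgebra.mapDomain_single, bil_single]
      unfold wr eN
      by_cases h : j + l = 1
      · rw [if_pos h, if_pos h]
      · rw [if_neg h, if_neg h, smul_zero]

omit [NeZero N] in
theorem sg_zero : (INVx.sg 0 : MonoidAlgebra ℤ (Wr 𝔐 N)) = 1 := rfl

end TOTx

open TOTx in
/-- TOT. -/
theorem t_TOT : s_TOT.{u} := by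
  intro 𝔐 K _ cl hcl N _ W U Ui Wo Wi z hN t
  have hU : ∀ i, rho i U = U := t.U_inv
  have hW : ∀ i, rho i Wo = Wo := t.W_inv
  have hUi : ∀ i, rho i Ui = Ui := t.Ui_inv
  have hWi : ∀ i, rho i Wi = Wi := t.Wi_inv
  have h2 : Ui * U = 1 := t.h2
  have h3 : Wo * Wi = 1 := t.h3
  have hz : ∑ i, rho i z = U - Wo := t.hz
  set V := Ui * z * Wi with hVdef
  have hV : ∑ i, rho i V = Wi - Ui := by
    have h5 : ∀ i, rho i V = Ui * rho i z * Wi := fun i => by
      rw [hVdef, map_mul, map_mul, hUi, hWi]
    rw [Finset.sum_congr rfl fun i _ => h5 i, ← Finset.sum_mul, ← Finset.mul_sum, hz, mul_sub,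
      sub_mul, h2, one_mul, mul_assoc, h3, mul_one]
  have hne : (0 : ZMod N) ≠ 1 := by
    have : Fact (1 < N) := ⟨hN⟩
    exact zero_ne_one
  -- the four parts
  have p1 : bil (wr W) (io Ui) (io U) = 0 := by
    have h := bil_wr W Ui U (0 : ZMod N) 0
    rw [sg_zero, mul_one, mul_one, add_zero, if_neg hne] at h
    exact h
  have p2 : bil (wr W) (io Ui) (io z * eW 𝔐 N) = bil (eN W) Ui z := by
    have h : ∀ l : ZMod N, bil (wr W) (io Ui) (io z * INVx.sg l) =
        if l = 1 then bil (eN W) Ui z else 0 := by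
      intro l
      have h := bil_wr W Ui z (0 : ZMod N) l
      rw [sg_zero, mul_one, zero_add, rho_zero] at h
      exact h
    rw [INVx.eW_eq, Finset.mul_sum, bil_sum_right, Finset.sum_congr rfl fun l _ => h l,
      Finset.sum_ite_eq', if_pos (Finset.mem_univ _)]
  have p3 : bil (wr W) (io V * eW 𝔐 N) (io U) = bil (eN W) V U := by
    have h : ∀ j : ZMod N, bil (wr W) (io V * INVx.sg j) (io U) =
        if j = 1 then bil (eN W) V U else 0 := by
      intro j
      have h := bil_wr W V U j (0 : ZMod N)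
      rw [sg_zero, mul_one, add_zero, hU] at h
      exact h
    rw [INVx.eW_eq, Finset.mul_sum, bil_sum_left, Finset.sum_congr rfl fun l _ => h l,
      Finset.sum_ite_eq', if_pos (Finset.mem_univ _)]
  have p4 : bil (wr W) (io V * eW 𝔐 N) (io z * eW 𝔐 N) = bil (eN W) V (U - Wo) := by
    rw [← hz, bil_sum_right, INVx.eW_eq, Finset.mul_sum, Finset.mul_sum, bil_sum_left]
    refine Finset.sum_congr rfl fun j _ => ?_
    rw [bil_sum_right, Finset.sum_congr rfl fun l _ => bil_wr W V z j l,
      Finset.sum_eq_single (1 - j)]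
    · rw [if_pos (by ring)]
    · intro l _ hl
      rw [if_neg]
      intro h
      apply hl
      rw [← h]
      ring
    · intro h
      exact absurd (Finset.mem_univ _) h
  have q1 : (N : ℤ) * bil (eN W) Ui z = bil (eN W) Ui (U - Wo) := by
    have h : ∀ i : ZMod N, bil (eN W) Ui (rho i z) = bil (eN W) Ui z := fun i => by
      conv_lhs => rw [← hUi i]
      exact bil_rho W i Ui z
    rw [← hz, bil_sum_right, Finset.sum_congr rfl fun i _ => h i, Finset.sum_const,
      Finset.card_univ, ZMod.card, nsmul_eq_mul]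
  have q2 : (N : ℤ) * bil (eN W) V Wo = bil (eN W) (Wi - Ui) Wo := by
    have h : ∀ i : ZMod N, bil (eN W) (rho i V) Wo = bil (eN W) V Wo := fun i => by
      conv_lhs => rw [← hW i]
      exact bil_rho W i V Wo
    rw [← hV, bil_sum_left, Finset.sum_congr rfl fun i _ => h i, Finset.sum_const,
      Finset.card_univ, ZMod.card, nsmul_eq_mul]
  rw [bil_sub_right] at q1
  rw [bil_sub_left] at q2
  rw [bil_sub_right] at p4
  have p0 : bil (wr W) (XW Ui z Wi) (YW U z) = -bil (eN W) Ui z + bil (eN W) V Wo := by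
    rw [XW, YW, ← hVdef, bil_add_left, bil_sub_right, bil_sub_right, p1, p2, p3, p4]
    ring
  rw [p0, mul_add, mul_neg, q1, q2]
  ring

end Pool.Agent.SUR
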