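import Pool.Agent.SUR.StA
import Pool.Agent.SUR.TOT

/-!
# Weights with values in an abelian group: module ATOT (copy of TOT)
-/

set_option autoImplicit false

universe u

namespace Pool.Agent.SUR

open Pool.Agent.WhK

namespace ATOTx

open TOTx

variable {𝔐 : Type u} {A : Type} [Monoid 𝔐] [AddCommGroup A] {N : ℕ} [NeZero N]

theorem eNA_shift (W : 𝔐 → 𝔐 → A) (i : ZMod N) (a b : ZMod N → 𝔐) :
    eNA W (shiftHom i a) (shiftHom i b) = eNA W a b := by
  unfold eNA
  refine Fintype.sum_equiv (Equiv.addRight i) _ _ fun r => ?_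
  rw [← map_mul, Pr_shift, shiftHom_apply, shiftHom_apply]
  rfl

theorem bil_rhoA (W : 𝔐 → 𝔐 → A) (i : ZMod N) (P Q : MonoidAlgebra ℤ (ZMod N → 𝔐)) :
    bil (eNA W) (rho i P) (rho i Q) = bil (eNA W) P Q := by
  induction P using MonoidAlgebra.induction_linear with
  | zero => rw [map_zero, bil_zero_left, bil_zero_left]
  | add x y hx hy => rw [map_add, bil_add_left, bil_add_left, hx, hy]
  | single a r =>
    induction Q using MonoidAlgebra.induction_linear with
    | zero => rw [map_zero, bil_zero_right, bil_zero_right]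
    | add x y hx hy => rw [map_add, bil_add_right, bil_add_right, hx, hy]
    | single b s =>
      rw [rho_eq, rho_eq, MonoidAlgebra.mapDomain_single, MonoidAlgebra.mapDomain_single,
        bil_single, bil_single, eNA_shift]

theorem bil_wrA (W : 𝔐 → 𝔐 → A) (P Q : MonoidAlgebra ℤ (ZMod N → 𝔐)) (j l : ZMod N) :
    bil (wrA W) (io P * INVx.sg j) (io Q * INVx.sg l) =
      if j + l = 1 then bil (eNA W) P (rho j Q) else 0 := by
  induction P using MonoidAlgebra.induction_linear with
  | zero => rw [map_zero, zero_mul, bil_zero_left, bil_zero_left, ite_self]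
  | add x y hx hy =>
    rw [map_add, add_mul, bil_add_left, bil_add_left, hx, hy]
    split_ifs <;> simp
  | single a r =>
    induction Q using MonoidAlgebra.induction_linear with
    | zero => rw [map_zero, map_zero, zero_mul, bil_zero_right, bil_zero_right, ite_self]
    | add x y hx hy =>
      rw [map_add, map_add, add_mul, bil_add_right, bil_add_right, hx, hy]
      split_ifs <;> simp
    | single b s =>
      rw [io_sg, io_sg, bil_single, rho_eq, MonoidAlgebra.mapDomain_single, bil_single]
      unfold wrA eNA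
      by_cases h : j + l = 1
      · rw [if_pos h, if_pos h]
      · rw [if_neg h, if_neg h, smul_zero]

end ATOTx

open TOTx ATOTx in
/-- ATOT. -/
theorem t_ATOT : s_ATOT.{u} := by
  intro 𝔐 K A _ _ cl hcl N _ W U Ui Wo Wi z hN t
  have hU : ∀ i, rho i U = U := t.U_inv
  have hW : ∀ i, rho i Wo = Wo := t.W_inv
  have hUi : ∀ i, rho i Ui = Ui := t.Ui_inv
  have hWi : ∀ i, rho i Wi = Wi := t.Wi_inv
  have h2 : Ui * U = 1 := t.h2
  have h3 : Wo * Wi = 1 := t.h3
  have hz : ∑ i, rho i z = U - Wo := t.hz
  set V := Ui * z * Wi with hVdef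
  have hV : ∑ i, rho i V = Wi - Ui := by
    have h5 : ∀ i, rho i V = Ui * rho i z * Wi := fun i => by
      rw [hVdef, map_mul, map_mul, hUi, hWi]
    rw [Finset.sum_congr rfl fun i _ => h5 i, ← Finset.sum_mul, ← Finset.mul_sum, hz, mul_sub,
      sub_mul, h2, one_mul, mul_assoc, h3, mul_one]
  have hne : (0 : ZMod N) ≠ 1 := by
    have : Fact (1 < N) := ⟨hN⟩
    exact zero_ne_one
  -- the four parts
  have p1 : bil (wrA W) (io Ui) (io U) = 0 := by
    have h := bil_wrA W Ui U (0 : ZMod N) 0
    rw [sg_zero, mul_one, mul_one, add_zero, if_neg hne] at h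
    exact h
  have p2 : bil (wrA W) (io Ui) (io z * eW 𝔐 N) = bil (eNA W) Ui z := by
    have h : ∀ l : ZMod N, bil (wrA W) (io Ui) (io z * INVx.sg l) =
        if l = 1 then bil (eNA W) Ui z else 0 := by
      intro l
      have h := bil_wrA W Ui z (0 : ZMod N) l
      rw [sg_zero, mul_one, zero_add, rho_zero] at h
      exact h
    rw [INVx.eW_eq, Finset.mul_sum, bil_sum_right, Finset.sum_congr rfl fun l _ => h l,
      Finset.sum_ite_eq', if_pos (Finset.mem_univ _)]
  have p3 : bil (wrA W) (io V * eW 𝔐 N) (io U) = bil (eNA W) V U := by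
    have h : ∀ j : ZMod N, bil (wrA W) (io V * INVx.sg j) (io U) =
        if j = 1 then bil (eNA W) V U else 0 := by
      intro j
      have h := bil_wrA W V U j (0 : ZMod N)
      rw [sg_zero, mul_one, add_zero, hU] at h
      exact h
    rw [INVx.eW_eq, Finset.mul_sum, bil_sum_left, Finset.sum_congr rfl fun l _ => h l,
      Finset.sum_ite_eq', if_pos (Finset.mem_univ _)]
  have p4 : bil (wrA W) (io V * eW 𝔐 N) (io z * eW 𝔐 N) = bil (eNA W) V (U - Wo) := by
    rw [← hz, bil_sum_right, INVx.eW_eq, Finset.mul_sum, Finset.mul_sum, bil_sum_left]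
    refine Finset.sum_congr rfl fun j _ => ?_
    rw [bil_sum_right, Finset.sum_congr rfl fun l _ => bil_wrA W V z j l,
      Finset.sum_eq_single (1 - j)]
    · rw [if_pos (by ring)]
    · intro l _ hl
      rw [if_neg]
      intro h
      apply hl
      rw [← h]
      ring
    · intro h
      exact absurd (Finset.mem_univ _) h
  have q1 : N • bil (eNA W) Ui z = bil (eNA W) Ui (U - Wo) := by
    have h : ∀ i : ZMod N, bil (eNA W) Ui (rho i z) = bil (eNA W) Ui z := fun i => by
      conv_lhs => rw [← hUi i]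
      exact bil_rhoA W i Ui z
    rw [← hz, bil_sum_right, Finset.sum_congr rfl fun i _ => h i, Finset.sum_const,
      Finset.card_univ, ZMod.card]
  have q2 : N • bil (eNA W) V Wo = bil (eNA W) (Wi - Ui) Wo := by
    have h : ∀ i : ZMod N, bil (eNA W) (rho i V) Wo = bil (eNA W) V Wo := fun i => by
      conv_lhs => rw [← hW i]
      exact bil_rhoA W i V Wo
    rw [← hV, bil_sum_left, Finset.sum_congr rfl fun i _ => h i, Finset.sum_const,
      Finset.card_univ, ZMod.card]
  rw [bil_sub_right] at q1
  rw [bil_sub_left] at q2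
  rw [bil_sub_right] at p4
  have p0 : bil (wrA W) (XW Ui z Wi) (YW U z) = -bil (eNA W) Ui z + bil (eNA W) V Wo := by
    rw [XW, YW, ← hVdef, bil_add_left, bil_sub_right, bil_sub_right, p1, p2, p3, p4]
    abel
  rw [p0, smul_add, smul_neg, q1, q2]
  abel

end Pool.Agent.SUR
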