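import Pool.Agent.SUR.St

/-!
# SUR, module WRW: the weight on the wreath product
-/

set_option autoImplicit false

universe u

namespace Pool.Agent.SUR

open Pool.Agent.WhK Finset

section Aux

variable {𝔐 : Type*} [Monoid 𝔐]

theorem wrw_il (A B : ℕ → 𝔐) (n : ℕ) :
    ((List.range n).map fun k => A k * B k).prod * A n =
      A 0 * ((List.range n).map fun k => B k * A (k + 1)).prod := by
  induction n with
  | zero => simp
  | succ n ih =>
    rw [List.prod_range_succ, List.prod_range_succ, ← mul_assoc, ← mul_assoc, ih]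
    simp only [mul_assoc]

theorem wrw_one {W : 𝔐 → 𝔐 → ℤ} (hW : IsWt W) (a : 𝔐) : W a 1 = 0 := by
  have h := hW a 1 1
  rw [one_mul, mul_one, one_mul] at h
  linarith

theorem wrw_list {W : 𝔐 → 𝔐 → ℤ} (hW : IsWt W) (f : ℕ → 𝔐) (n : ℕ) (a : 𝔐) :
    W a ((List.range n).map f).prod =
      ∑ k ∈ range n, W ((((List.range (n - 1 - k)).map fun j => f (k + 1 + j)).prod * a) *
        ((List.range k).map f).prod) (f k) := by
  induction n generalizing a with
  | zero => simp [wrw_one hW]
  | succ n ih =>
    rw [List.prod_range_succ, hW, ih, sum_range_succ, add_comm]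
    congr 1
    · refine sum_congr rfl fun k hk => ?_
      have hk' : k < n := mem_range.1 hk
      obtain ⟨m, rfl⟩ : ∃ m, n = k + 1 + m := ⟨n - (k + 1), by omega⟩
      have e1 : k + 1 + m - 1 - k = m := by omega
      have e2 : k + 1 + m + 1 - 1 - k = m + 1 := by omega
      rw [e1, e2, List.prod_range_succ]
      simp only [mul_assoc]
    · have e : n + 1 - 1 - n = 0 := by omega
      rw [e]
      simp

variable {N : ℕ}

theorem Pr_shift (r i : ZMod N) (y : ZMod N → 𝔐) : Pr r (shiftHom i y) = Pr (r + i) y := by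
  unfold Pr
  congr 1
  refine List.map_congr_left fun k _ => ?_
  rw [shiftHom_apply]
  congr 1
  ring

theorem Pr_rot [NeZero N] (r : ZMod N) (c d : ZMod N → 𝔐) :
    Pr r (fun s => c (s - 1) * d s) * c (r - 1) = c r * Pr r (fun s => d s * c s) := by
  obtain ⟨n, hn⟩ : ∃ n, N = n + 1 := ⟨N - 1, by have := NeZero.pos N; omega⟩
  have hN : N - 1 = n := by omega
  have h := wrw_il (fun k : ℕ => c (r + (k : ZMod N))) (fun k : ℕ => d (r + 1 + (k : ZMod N))) n
  have hr : r + (n : ZMod N) = r - 1 := by
    have : ((n + 1 : ℕ) : ZMod N) = 0 := by rw [← hn]; exact ZMod.natCast_self N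
    rw [Nat.cast_succ] at this
    linear_combination this
  rw [Nat.cast_zero, add_zero, hr] at h
  unfold Pr
  rw [hN]
  refine Eq.trans ?_ (h.trans ?_)
  · congr 2
    refine List.map_congr_left fun k _ => ?_
    have e : r + 1 + (k : ZMod N) - 1 = r + (k : ZMod N) := by ring
    show c (r + 1 + (k : ZMod N) - 1) * _ = _
    rw [e]
  · congr 2
    refine List.map_congr_left fun k _ => ?_
    have e : r + ((k + 1 : ℕ) : ZMod N) = r + 1 + (k : ZMod N) := by
      rw [Nat.cast_succ]
      ring
    show _ * c (r + ((k + 1 : ℕ) : ZMod N)) = _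
    rw [e]

end Aux

theorem wrw_isWt {𝔐 : Type*} [Monoid 𝔐] {N : ℕ} [NeZero N] {W : 𝔐 → 𝔐 → ℤ} (hW : IsWt W) :
    IsWt (wr (N := N) W) := by
  rintro ⟨a, i⟩ ⟨b, l⟩ ⟨c, e⟩
  rw [Wr.mul_def, Wr.mul_def, Wr.mul_def]
  unfold wr
  dsimp only
  by_cases h : i + l + e = 1
  · have h1 : i + (l + e) = 1 := by rw [← add_assoc]; exact h
    have h2 : e + i + l = 1 := by rw [← h]; ring
    rw [if_pos h, if_pos h1, if_pos h2]
    have hs : ∑ r, W (Pr r (c * shiftHom e a * shiftHom (e + i) b) * (c * shiftHom e a) r)
          (shiftHom (e + i) b r) =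
        ∑ r, W (shiftHom (i + l) c r * (Pr r (a * shiftHom i b * shiftHom (i + l) c) * a r))
          (shiftHom i b r) := by
      rw [← (Equiv.subRight e).sum_comp]
      refine sum_congr rfl fun r _ => ?_
      have e1 : (Equiv.subRight e) r = r - e := rfl
      rw [e1]
      have e2 : shiftHom (e + i) b (r - e) = shiftHom i b r := by
        rw [shiftHom_apply, shiftHom_apply]
        congr 1
        ring
      have e3 : Pr (r - e) (c * shiftHom e a * shiftHom (e + i) b) =
          Pr r (fun s => (shiftHom (i + l) c) (s - 1) * (a * shiftHom i b) s) := by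
        rw [sub_eq_add_neg, ← Pr_shift]
        congr 1
        funext s
        rw [shiftHom_apply, Pi.mul_apply, Pi.mul_apply, Pi.mul_apply, shiftHom_apply,
          shiftHom_apply, shiftHom_apply, shiftHom_apply, mul_assoc]
        have f1 : s + -e = s - 1 + (i + l) := by linear_combination -h
        have f2 : s + -e + e = s := by ring
        have f3 : s + -e + (e + i) = s + i := by ring
        rw [f2, f3, f1]
      have e4 : (c * shiftHom e a) (r - e) = (shiftHom (i + l) c) (r - 1) * a r := by
        rw [Pi.mul_apply, shiftHom_apply, shiftHom_apply]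
        have f1 : r - e = r - 1 + (i + l) := by linear_combination -h
        have f2 : r - e + e = r := by ring
        rw [f2, f1]
      rw [e2, e3, e4, ← mul_assoc, Pr_rot, mul_assoc]
      rfl
    rw [hs, ← sum_add_distrib]
    refine sum_congr rfl fun r _ => ?_
    have g1 : a * shiftHom i (b * shiftHom l c) = a * shiftHom i b * shiftHom (i + l) c := by
      rw [map_mul, shiftHom_add, mul_assoc]
    have g2 : shiftHom i (b * shiftHom l c) r = shiftHom i b r * shiftHom (i + l) c r := by
      rw [map_mul, Pi.mul_apply, shiftHom_add]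
    rw [g1, g2, hW, Pi.mul_apply, mul_assoc]
  · have h1 : ¬(i + (l + e) = 1) := by rw [← add_assoc]; exact h
    have h2 : ¬(e + i + l = 1) := fun h' => h (by rw [← h']; ring)
    rw [if_neg h, if_neg h1, if_neg h2, add_zero]

theorem wrw_unit {𝔐 : Type*} [Monoid 𝔐] {N : ℕ} [NeZero N] {W : 𝔐 → 𝔐 → ℤ} (hW : IsWt W)
    (y : Wr 𝔐 N) : wr W 1 y = if y.i = 1 then W 1 (prodSeq y.s) else 0 := by
  obtain ⟨y, i⟩ := y
  rw [Wr.one_def]
  unfold wr
  dsimp only
  rw [zero_add, shiftHom_zero, one_mul]
  by_cases h : i = 1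
  · rw [if_pos h, if_pos h]
    unfold prodSeq
    have hl := wrw_list hW (fun k : ℕ => y (k : ZMod N)) N 1
    refine Eq.trans ?_ hl.symm
    have hsum : ∀ g : ZMod N → ℤ, ∑ r, g r = ∑ k ∈ range N, g (k : ZMod N) := fun g => by
      have := prod_zmod_eq_range (R := Multiplicative ℤ) (N := N) (fun r => Multiplicative.ofAdd (g r))
      have h2 := congrArg Multiplicative.toAdd this
      rw [toAdd_prod, toAdd_prod] at h2
      exact h2
    rw [hsum]
    refine sum_congr rfl fun k hk => ?_
    have hk' : k < N := mem_range.1 hk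
    congr 1
    rw [Pi.one_apply, mul_one, mul_one]
    unfold Pr
    have e : N - 1 = (N - 1 - k) + k := by omega
    conv_lhs => rw [e, List.range_add, List.map_append, List.prod_append, List.map_map]
    congr 2
    · refine List.map_congr_left fun j _ => ?_
      push_cast
      ring_nf
    · refine List.map_congr_left fun j _ => ?_
      dsimp only [Function.comp]
      congr 1
      have : ((N - 1 - k + j : ℕ) : ZMod N) + (k : ZMod N) + 1 = (j : ZMod N) := by
        have h3 : N - 1 - k + j + k + 1 = N + j := by omega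
        have h4 := congrArg (Nat.cast (R := ZMod N)) h3
        rw [Nat.cast_succ, Nat.cast_add, Nat.cast_add N j, ZMod.natCast_self, zero_add] at h4
        exact h4
      rw [← this]
      ring
  · rw [if_neg h, if_neg h]

theorem t_WRW : s_WRW.{u} := fun _ _ _ _ _ hW => ⟨wrw_isWt hW, wrw_unit hW⟩

end Pool.Agent.SUR
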