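import Pool.Agent.SUR.St

/-!
# Weights from homomorphisms of centralisers (module COC of SUR, MP_e40716_gt)
-/

set_option autoImplicit false

universe u

namespace Pool.Agent.SUR

open Pool.Agent.WhK

namespace COC

/-- the cocycle attached to a homomorphism of the centraliser of `g` -/
theorem exists_cocycle {G : Type u} [Group G] (g : G)
    (f : Subgroup.centralizer {g} →* Multiplicative ℤ) :
    ∃ Φ : G → G → ℤ, (∀ y b b', Φ y (b' * b) = Φ (b * y * b⁻¹) b' + Φ y b) ∧
      (∀ y b, ¬IsConj g y → Φ y b = 0) ∧
      (∀ y, IsConj g y → Φ y y =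
        (f ⟨g, Subgroup.mem_centralizer_singleton_iff.2 rfl⟩).toAdd) := by
  classical
  have hs : ∀ y : G, ∃ s : G, IsConj g y → s * g * s⁻¹ = y := by
    intro y
    by_cases h : IsConj g y
    · obtain ⟨c, hc⟩ := isConj_iff.1 h
      exact ⟨c, fun _ => hc⟩
    · exact ⟨1, fun h' => absurd h' h⟩
  choose s hs using hs
  have hconj : ∀ y b : G, IsConj g y → IsConj g (b * y * b⁻¹) := fun y b h =>
    h.trans (isConj_iff.2 ⟨b, rfl⟩)
  have hconj' : ∀ y b : G, IsConj g (b * y * b⁻¹) → IsConj g y := fun y b h => by
    have h2 : IsConj (b * y * b⁻¹) y := isConj_iff.2 ⟨b⁻¹, by group⟩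
    exact h.trans h2
  have hmem : ∀ y b : G, IsConj g y →
      (s (b * y * b⁻¹))⁻¹ * b * s y ∈ Subgroup.centralizer {g} := by
    intro y b h
    rw [Subgroup.mem_centralizer_singleton_iff]
    have e1 := hs y h
    have e2 := hs (b * y * b⁻¹) (hconj y b h)
    have e3 : s y * g = y * s y := by
      rw [← mul_inv_eq_iff_eq_mul, e1]
    have e4 : g * (s (b * y * b⁻¹))⁻¹ = (s (b * y * b⁻¹))⁻¹ * (b * y * b⁻¹) := by
      rw [eq_inv_mul_iff_mul_eq, ← mul_assoc, e2]
    symm
    calc g * ((s (b * y * b⁻¹))⁻¹ * b * s y)
        = (g * (s (b * y * b⁻¹))⁻¹) * b * s y := by group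
      _ = (s (b * y * b⁻¹))⁻¹ * (b * y * b⁻¹) * b * s y := by rw [e4]
      _ = (s (b * y * b⁻¹))⁻¹ * b * (y * s y) := by group
      _ = (s (b * y * b⁻¹))⁻¹ * b * (s y * g) := by rw [e3]
      _ = (s (b * y * b⁻¹))⁻¹ * b * s y * g := by group
  refine ⟨fun y b => if h : IsConj g y then
    (f ⟨(s (b * y * b⁻¹))⁻¹ * b * s y, hmem y b h⟩).toAdd else 0, ?_, ?_, ?_⟩
  · intro y b b'
    by_cases h : IsConj g y
    · simp only [dif_pos h, dif_pos (hconj y b h)]
      rw [← toAdd_mul, ← map_mul]
      congr 2
      apply Subtype.ext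
      show (s (b' * b * y * (b' * b)⁻¹))⁻¹ * (b' * b) * s y =
        ((s (b' * (b * y * b⁻¹) * b'⁻¹))⁻¹ * b' * s (b * y * b⁻¹)) *
          ((s (b * y * b⁻¹))⁻¹ * b * s y)
      have e : b' * b * y * (b' * b)⁻¹ = b' * (b * y * b⁻¹) * b'⁻¹ := by group
      rw [e]
      group
    · have h' : ¬IsConj g (b * y * b⁻¹) := fun h2 => h (hconj' y b h2)
      simp only [dif_neg h, dif_neg h', add_zero]
  · intro y b h
    simp only [dif_neg h]
  · intro y h
    simp only [dif_pos h]
    congr 2
    apply Subtype.ext
    show (s (y * y * y⁻¹))⁻¹ * y * s y = g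
    have e : y * y * y⁻¹ = y := by group
    have e1 := hs y h
    rw [e]
    nth_rewrite 2 [← e1]
    group

variable {G : Type u} [Group G] {n : ℕ}

/-- the weight attached to a cocycle -/
def Wt (Φ : G → G → ℤ) : MM G n → MM G n → ℤ
  | .one, .unit i j β => if i = j then Φ β β else 0
  | .unit i j α, .unit k l β => if j = k ∧ l = i then Φ (α * β) β else 0
  | _, _ => 0

theorem Wt_one_right (Φ : G → G → ℤ) (a : MM G n) : Wt Φ a MM.one = 0 := by
  cases a <;> rfl

theorem Wt_zero_right (Φ : G → G → ℤ) (a : MM G n) : Wt Φ a MM.zero = 0 := by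
  cases a <;> rfl

theorem Wt_zero_left (Φ : G → G → ℤ) (a : MM G n) : Wt Φ MM.zero a = 0 := by
  cases a <;> rfl

theorem Wt_one_unit (Φ : G → G → ℤ) (i j : Fin n) (β : G) :
    Wt Φ MM.one (MM.unit i j β) = if i = j then Φ β β else 0 := rfl

theorem Wt_unit_unit (Φ : G → G → ℤ) (i j k l : Fin n) (α β : G) :
    Wt Φ (MM.unit i j α) (MM.unit k l β) = if j = k ∧ l = i then Φ (α * β) β else 0 := rfl

theorem isWt (Φ : G → G → ℤ)
    (h1 : ∀ y b b', Φ y (b' * b) = Φ (b * y * b⁻¹) b' + Φ y b) :
    IsWt (Wt Φ : MM G n → MM G n → ℤ) := by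
  intro a b c
  cases c with
  | one =>
    rw [MM.mul_one', MM.one_mul', Wt_one_right, zero_add]
  | zero =>
    rw [MM.mul_zero', MM.zero_mul', Wt_zero_right, Wt_zero_left, Wt_zero_right, add_zero]
  | unit r s γ =>
    cases b with
    | one =>
      rw [MM.mul_one', MM.one_mul', Wt_one_right, add_zero]
    | zero =>
      rw [MM.mul_zero', MM.zero_mul', Wt_zero_right, Wt_zero_left, Wt_zero_right, add_zero]
    | unit k l β =>
      cases a with
      | one =>
        rw [MM.one_mul', MM.mul_one', MM.unit_mul, Wt_unit_unit, Wt_unit_unit]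
        by_cases hlr : l = r
        · rw [if_pos hlr, Wt_one_unit]
          by_cases hks : k = s
          · rw [if_pos hks, if_pos ⟨hlr, hks.symm⟩, if_pos ⟨hks.symm, hlr⟩,
              h1 (β * γ) γ β]
            have e : γ * (β * γ) * γ⁻¹ = γ * β := by group
            rw [e, add_comm]
          · rw [if_neg hks, if_neg (fun h => hks h.2.symm), if_neg (fun h => hks h.1.symm),
              add_zero]
        · rw [if_neg hlr, if_neg (fun h => hlr h.1), if_neg (fun h => hlr h.2),
            Wt_zero_right, add_zero]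
      | zero =>
        rw [MM.mul_zero', MM.zero_mul', Wt_zero_left, Wt_zero_left, Wt_zero_left, add_zero]
      | unit i j α =>
        rw [MM.unit_mul, MM.unit_mul, MM.unit_mul]
        by_cases hlr : l = r
        · by_cases hjk : j = k
          · by_cases hsi : s = i
            · rw [if_pos hlr, if_pos hjk, if_pos hsi, Wt_unit_unit, Wt_unit_unit, Wt_unit_unit,
                if_pos ⟨hjk, hsi⟩, if_pos ⟨hlr, hsi⟩, if_pos ⟨hjk, hlr⟩, h1]
              have e : γ * (α * (β * γ)) * γ⁻¹ = γ * α * β := by group
              have e2 : α * (β * γ) = α * β * γ := by group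
              rw [e, e2, add_comm]
            · rw [if_pos hlr, if_pos hjk, if_neg hsi, Wt_unit_unit, Wt_unit_unit,
                if_neg (fun h => hsi h.2), if_neg (fun h => hsi h.2), Wt_zero_left, add_zero]
          · rw [if_pos hlr, if_neg hjk, Wt_unit_unit, if_neg (fun h => hjk h.1), Wt_zero_left,
              zero_add]
            by_cases hsi : s = i
            · rw [if_pos hsi, Wt_unit_unit, if_neg (fun h => hjk h.1)]
            · rw [if_neg hsi, Wt_zero_left]
        · rw [if_neg hlr, Wt_zero_right]
          have e1 : Wt Φ (if j = k then (MM.unit i l (α * β) : MM G n) else MM.zero)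
              (MM.unit r s γ) = 0 := by
            by_cases hjk : j = k
            · rw [if_pos hjk, Wt_unit_unit, if_neg (fun h => hlr h.1)]
            · rw [if_neg hjk, Wt_zero_left]
          have e2 : Wt Φ (if s = i then (MM.unit r j (γ * α) : MM G n) else MM.zero)
              (MM.unit k l β) = 0 := by
            by_cases hsi : s = i
            · rw [if_pos hsi, Wt_unit_unit, if_neg (fun h => hlr h.2)]
            · rw [if_neg hsi, Wt_zero_left]
          rw [e1, e2, add_zero]

end COC

open COC in
theorem t_COC : s_COC.{u} := by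
  intro G _ n g f
  obtain ⟨Φ, h1, h2, h3⟩ := exists_cocycle g f
  refine ⟨Wt Φ, isWt Φ h1, ?_, ?_⟩
  · intro a b hab
    cases a with
    | one =>
      cases b with
      | one => exact absurd (Wt_one_right Φ _) hab
      | zero => exact absurd (Wt_zero_right Φ _) hab
      | unit i j β =>
        rw [Wt_one_unit] at hab
        by_cases hij : i = j
        · rw [if_pos hij] at hab
          have hc : IsConj g β := by
            by_contra hc
            exact hab (h2 _ _ hc)
          rw [MM.one_mul']
          simp only [MM.cl]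
          rw [if_pos hij]
          exact congrArg some (ConjClasses.mk_eq_mk_iff_isConj.2 hc.symm)
        · rw [if_neg hij] at hab
          exact absurd rfl hab
    | zero => exact absurd (Wt_zero_left Φ _) hab
    | unit i j α =>
      cases b with
      | one => exact absurd (Wt_one_right Φ _) hab
      | zero => exact absurd (Wt_zero_right Φ _) hab
      | unit k l β =>
        rw [Wt_unit_unit] at hab
        by_cases hij : j = k ∧ l = i
        · rw [if_pos hij] at hab
          have hc : IsConj g (α * β) := by
            by_contra hc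
            exact hab (h2 _ _ hc)
          rw [MM.unit_mul, if_pos hij.1]
          simp only [MM.cl]
          rw [if_pos hij.2.symm]
          exact congrArg some (ConjClasses.mk_eq_mk_iff_isConj.2 hc.symm)
        · rw [if_neg hij] at hab
          exact absurd rfl hab
  · intro a ha
    cases a with
    | one => exact absurd ha (by simp [MM.cl])
    | zero => exact absurd ha (by simp [MM.cl])
    | unit i j β =>
      simp only [MM.cl] at ha
      by_cases hij : i = j
      · rw [if_pos hij] at ha
        have hc : IsConj g β :=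
          (ConjClasses.mk_eq_mk_iff_isConj.1 (Option.some_injective _ ha)).symm
        show Wt Φ MM.one (MM.unit i j β) = _
        rw [Wt_one_unit, if_pos hij, h3 β hc]
      · rw [if_neg hij] at ha
        exact absurd ha (by simp)

end Pool.Agent.SUR
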