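import Pool.Agent.SUR.CondE

/-!
# The condition on centralisers without a uniform bound

`CentEulN` and `CentCohN` are the conditions `CentEul` and `CentCoh` of `CondE.lean` in which the size `n` of
the representation, the power `n` of the Euler class, respectively the degree `r`, may depend on the
element `g`. For groups with unique `p`-th roots for all large primes `p` (`UniqExp`) they are sufficient.
`RTN`: residually torsion-free nilpotent.
-/

set_option autoImplicit false

universe u

namespace Pool.Agent.SUR

open Finset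

/-- `p`-th roots are unique for all large primes `p` -/
def UniqExp (G : Type u) [Group G] : Prop :=
  ∃ N : ℕ, ∀ p : ℕ, p.Prime → N < p → ∀ x y : G, x ^ p = y ^ p → x = y

/-- the condition `CentEul` with `n` depending on `g` -/
def CentEulN (G : Type u) [Group G] : Prop :=
  ∃ (F : Type u) (_ : Field F) (S : Set F), S.Finite ∧
    ∀ g : G, ¬IsOfFinOrder g → ∃ n : ℕ, 0 < n ∧
      ((∃ ρ : Subgroup.centralizer {g} →* Matrix (Fin n) (Fin n) (Subring.closure S),
        ¬IsOfFinOrder (ρ ⟨g, Subgroup.mem_centralizer_singleton_iff.2 rfl⟩)) ∨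
      (CharZero F ∧ ∃ (j : ℕ) (v : Subring.closure S)
        (s : Subgroup.centralizer {g} → Subring.closure S)
        (φ : List (Subgroup.centralizer {g}) → Subring.closure S), 0 < j ∧ v ≠ 0 ∧
        NilEuler ((⟨g, Subgroup.mem_centralizer_singleton_iff.2 rfl⟩ :
          Subgroup.centralizer {g}) ^ j) n v s φ))

/-- the condition (E): every finitely generated subgroup satisfies `CentEul`, or it satisfies `CentEulN`
and its `p`-th roots are unique for all large primes `p` -/
def LocE (G : Type u) [Group G] : Prop :=
  ∀ G₀ : Subgroup G, G₀.FG → CentEul G₀ ∨ (UniqExp G₀ ∧ CentEulN G₀)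

/-- the condition `CentCoh` with `r` depending on `g` -/
def CentCohN (G : Type u) [Group G] : Prop :=
  ∃ M : ℕ, 0 < M ∧ ∀ g : G, ¬IsOfFinOrder g →
    ∃ (r j k : ℕ) (h : Subgroup.centralizer {g}) (Q : Type u) (_ : Group Q)
      (p : Subgroup.centralizer {g} →* Q), 0 < r ∧ 0 < j ∧ 0 < k ∧ h ^ k =
        (⟨g, Subgroup.mem_centralizer_singleton_iff.2 rfl⟩ : Subgroup.centralizer {g}) ^ j ∧
      (∀ z, h * z = z * h) ∧ Function.Surjective p ∧ p.ker = Subgroup.zpowers h ∧
      Subsingleton (groupCohomology
        (Rep.trivial (ULift.{u} (ZM M)) Q (ULift.{u} (ZM M))) (2 * r))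

/-- homomorphisms to groups of unitriangular integral matrices separate the elements: if `π` is finitely
generated this says that `π` is residually torsion-free nilpotent -/
def RTN (π : Type*) [Group π] : Prop :=
  ∀ g : π, g ≠ 1 → ∃ (m : ℕ) (ρ : π →* Matrix (Fin m) (Fin m) ℤ),
    (∀ h i j, j ≤ i → ρ h i j = if i = j then 1 else 0) ∧ ρ g ≠ 1

end Pool.Agent.SUR
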