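import Pool.Agent.SUR.StD
import Pool.Agent.SUR.Bil

/-!
# Weights with constant `0` (module DANT)
-/

set_option autoImplicit false

universe u v

namespace Pool.Agent.SUR

open Pool.Agent.WhK Finset

namespace DANTaux

variable {𝔑 : Type u}

/-- the sum over the decompositions of the list as `p x s`, `α` and `β` are the words before and after -/
def TT (W U : FreeMonoid 𝔑 → FreeMonoid 𝔑 → ℚ) :
    FreeMonoid 𝔑 → FreeMonoid 𝔑 → List 𝔑 → ℚ
  | _, _, [] => 0
  | α, β, x :: l => W (FreeMonoid.ofList l * β * α) (FreeMonoid.of x) *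
      U (FreeMonoid.of x * FreeMonoid.ofList l * β) α + TT W U (α * FreeMonoid.of x) β l

theorem TT_append (W U : FreeMonoid 𝔑 → FreeMonoid 𝔑 → ℚ) (l₁ l₂ : List 𝔑) :
    ∀ α β : FreeMonoid 𝔑, TT W U α β (l₁ ++ l₂) =
      TT W U α (FreeMonoid.ofList l₂ * β) l₁ + TT W U (α * FreeMonoid.ofList l₁) β l₂ := by
  induction l₁ with
  | nil =>
    intro α β
    rw [List.nil_append, FreeMonoid.ofList_nil, mul_one]
    show _ = 0 + _
    rw [zero_add]
  | cons x l ih =>
    intro α β
    rw [List.cons_append]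
    show _ + _ = (_ + _) + _
    rw [ih, FreeMonoid.ofList_append, FreeMonoid.ofList_cons, ← mul_assoc, ← mul_assoc, ← mul_assoc,
      add_assoc, ← mul_assoc]

theorem wt_one {A : Type*} [AddCommGroup A] {𝔐 : Type*} [Monoid 𝔐] {W : 𝔐 → 𝔐 → A} (hW : IsWtA W)
    (a : 𝔐) : W a 1 = 0 := by
  have h := hW a 1 1
  rw [mul_one, one_mul, mul_one] at h
  exact (left_eq_add.1 h)

theorem TT_diff {W U : FreeMonoid 𝔑 → FreeMonoid 𝔑 → ℚ} (hW : IsWtA W) (hU : IsWtA U)
    (a : FreeMonoid 𝔑) (l : List 𝔑) : ∀ q : FreeMonoid 𝔑,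
    TT W U (a * q) 1 l - TT W U q a l = W (a * q) (FreeMonoid.ofList l) *
      U (q * FreeMonoid.ofList l) a := by
  induction l with
  | nil =>
    intro q
    rw [FreeMonoid.ofList_nil, wt_one hW, zero_mul]
    show (0 : ℚ) - 0 = 0
    rw [sub_zero]
  | cons x l ih =>
    intro q
    have h1 := ih (q * FreeMonoid.of x)
    have e1 : TT W U (a * q) 1 (x :: l) = W (FreeMonoid.ofList l * 1 * (a * q)) (FreeMonoid.of x) *
      U (FreeMonoid.of x * FreeMonoid.ofList l * 1) (a * q) +
        TT W U (a * q * FreeMonoid.of x) 1 l := rfl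
    have e2 : TT W U q a (x :: l) = W (FreeMonoid.ofList l * a * q) (FreeMonoid.of x) *
      U (FreeMonoid.of x * FreeMonoid.ofList l * a) q +
        TT W U (q * FreeMonoid.of x) a l := rfl
    rw [e1, e2, mul_one, mul_one]
    have h2 := hU (FreeMonoid.of x * FreeMonoid.ofList l) a q
    have h3 := hW (a * q) (FreeMonoid.of x) (FreeMonoid.ofList l)
    rw [FreeMonoid.ofList_cons, h3]
    rw [h2]
    simp only [mul_assoc] at h1 ⊢
    linear_combination h1

/-- for a fixed word the sum is a function of degree at most `2 r` -/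
theorem TT_const (h : s_DPOL.{u}) [Monoid 𝔑] (r : ℕ) {W U : FreeMonoid 𝔑 → FreeMonoid 𝔑 → ℚ}
    (hW : DegV (th 𝔑) r W) (hU : DegV (th 𝔑) r U) {d : ℕ} (l : List 𝔑) :
    ∀ α β : (Fin d → Bool) → FreeMonoid 𝔑, Cub (th 𝔑) α → Cub (th 𝔑) β →
      (fun ε => TT W U (α ε) (β ε) l) ∈ PolQ (d := d) (r + r) := by
  obtain ⟨p1, p2, -, -⟩ := h
  induction l with
  | nil =>
    intro α β _ _
    exact (PolQ (d := d) (r + r)).zero_mem
  | cons x l ih =>
    intro α β hα hβ
    have e1 : (fun ε => W (FreeMonoid.ofList l * β ε * α ε) (FreeMonoid.of x)) ∈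
        PolQ (d := d) r :=
      p1 (FreeMonoid 𝔑) 𝔑 (th 𝔑) r W hW d (fun ε => FreeMonoid.ofList l * β ε * α ε)
        (fun _ => FreeMonoid.of x)
        (Cub.mul _ _ (Cub.mul (fun _ => FreeMonoid.ofList l) β (Cub.const _) hβ) hα) (Cub.const _)
    have e2 : (fun ε => U (FreeMonoid.of x * FreeMonoid.ofList l * β ε) (α ε)) ∈
        PolQ (d := d) r :=
      p1 (FreeMonoid 𝔑) 𝔑 (th 𝔑) r U hU d
        (fun ε => FreeMonoid.of x * FreeMonoid.ofList l * β ε) α
        (Cub.mul (fun _ => FreeMonoid.of x * FreeMonoid.ofList l) β (Cub.const _) hβ) hα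
    have e3 := ih (fun ε => α ε * FreeMonoid.of x) β
      (Cub.mul α (fun _ => FreeMonoid.of x) hα (Cub.const _)) hβ
    exact (PolQ (d := d) (r + r)).add_mem (p2 d r r _ _ e1 e2) e3

theorem PolQ_mono {d k l : ℕ} (hkl : k ≤ l) : PolQ (d := d) k ≤ PolQ (d := d) l := by
  refine AddSubgroup.closure_mono ?_
  rintro f ⟨T, a, hT, hf⟩
  exact ⟨T, a, hT.trans hkl, hf⟩

/-- on cubes the sum is a function of degree at most `2 r + 1` -/
theorem TT_cub (h : s_DPOL.{u}) [Monoid 𝔑] (r : ℕ) {W U : FreeMonoid 𝔑 → FreeMonoid 𝔑 → ℚ}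
    (hW : DegV (th 𝔑) r W) (hU : DegV (th 𝔑) r U) {d : ℕ} (c : (Fin d → Bool) → FreeMonoid 𝔑)
    (hc : Cub (th 𝔑) c) :
    ∀ α β : (Fin d → Bool) → FreeMonoid 𝔑, Cub (th 𝔑) α → Cub (th 𝔑) β →
      (fun ε => TT W U (α ε) (β ε) (FreeMonoid.toList (c ε))) ∈ PolQ (d := d) (r + r + 1) := by
  induction hc with
  | const a =>
    intro α β hα hβ
    exact PolQ_mono (Nat.le_succ _) (TT_const h r hW hU (FreeMonoid.toList a) α β hα hβ)
  | slot s a a' _ =>
    intro α β hα hβ
    have e := h.2.2.1 d (r + r) _ _ s (TT_const h r hW hU (FreeMonoid.toList a') α β hα hβ)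
      (TT_const h r hW hU (FreeMonoid.toList a) α β hα hβ)
    convert e using 1
    funext ε
    by_cases hs : ε s = true
    · simp only [hs, if_true]
    · simp only [hs, if_false, Bool.false_eq_true]
  | mul c c' hc hc' ih ih' =>
    intro α β hα hβ
    have e1 := ih α (fun ε => c' ε * β ε) hα (Cub.mul c' β hc' hβ)
    have e2 := ih' (fun ε => α ε * c ε) β (Cub.mul α c hα hc) hβ
    have e3 : (fun ε => TT W U (α ε) (β ε) (FreeMonoid.toList (c ε * c' ε))) =
        (fun ε => TT W U (α ε) (c' ε * β ε) (FreeMonoid.toList (c ε))) +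
          fun ε => TT W U (α ε * c ε) (β ε) (FreeMonoid.toList (c' ε)) := by
      funext ε
      rw [FreeMonoid.toList_mul, TT_append, FreeMonoid.ofList_toList, FreeMonoid.ofList_toList]
      rfl
    rw [e3]
    exact (PolQ (d := d) (r + r + 1)).add_mem e1 e2

theorem lin_IK {𝔐 𝔔 : Type*} [Monoid 𝔐] [Monoid 𝔔] (θ : 𝔐 →* 𝔔) (K : ℕ) (T : 𝔐 → ℚ)
    (hT : ∀ c : (Fin K → Bool) → 𝔐, Cub θ c → altS (fun ε => T (c ε)) = 0)
    (x : MonoidAlgebra ℤ 𝔐) (hx : x ∈ IK θ K) : lin T x = 0 := by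
  have h1 : IK θ K ≤ (lin T).ker := by
    refine (AddSubgroup.closure_le _).2 ?_
    rintro _ ⟨c, hc, rfl⟩
    show lin T _ = 0
    unfold altS
    rw [map_sum, ← hT c hc]
    refine Finset.sum_congr rfl fun ε _ => ?_
    rw [map_zsmul, lin_single, one_smul]
  exact h1 hx

end DANTaux

open DANTaux in
theorem t_DANT (h : s_DPOL.{u}) : s_DANT.{u} := by
  intro 𝔑 K _ cl hcl k v r W U hv hW dW hU dU w x y hL
  obtain ⟨wW, aW, bW⟩ := hW
  obtain ⟨wU, aU, bU⟩ := hU
  obtain ⟨-, -, h1, h2⟩ := hL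
  set T : FreeMonoid 𝔑 → ℚ := fun u => TT W U 1 1 (FreeMonoid.toList u) with hT
  -- `U` is antisymmetric
  have hanti : ∀ a b, U a b = - U b a := by
    intro a b
    have e1 : U 1 (a * b) = U a b + U b a := by
      have := wU 1 a b
      rw [one_mul, mul_one] at this
      exact this
    have e2 : U 1 (a * b) = 0 := by
      by_contra hne
      have h3 := aU 1 (a * b) hne
      rw [one_mul] at h3
      exact hne (bU (a * b) h3)
    linarith
  -- the key identity
  have hkey : ∀ a b, T (a * b) - T (b * a) = - (v * U a b) := by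
    intro a b
    have e1 : T (a * b) = TT W U 1 b (FreeMonoid.toList a) + TT W U a 1 (FreeMonoid.toList b) := by
      show TT W U 1 1 (FreeMonoid.toList (a * b)) = _
      rw [FreeMonoid.toList_mul, TT_append, FreeMonoid.ofList_toList, FreeMonoid.ofList_toList,
        mul_one, one_mul]
    have e2 : T (b * a) = TT W U 1 a (FreeMonoid.toList b) + TT W U b 1 (FreeMonoid.toList a) := by
      show TT W U 1 1 (FreeMonoid.toList (b * a)) = _
      rw [FreeMonoid.toList_mul, TT_append, FreeMonoid.ofList_toList, FreeMonoid.ofList_toList,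
        mul_one, one_mul]
    have e3 := TT_diff wW wU a (FreeMonoid.toList b) 1
    have e4 := TT_diff wW wU b (FreeMonoid.toList a) 1
    rw [FreeMonoid.ofList_toList, mul_one, one_mul] at e3 e4
    have e5 : W 1 (a * b) = W a b + W b a := by
      have := wW 1 a b
      rw [one_mul, mul_one] at this
      exact this
    have e6 : W 1 (a * b) * U a b = v * U a b := by
      by_cases h0 : U a b = 0
      · rw [h0, mul_zero, mul_zero]
      · rw [bW (a * b) (aU a b h0)]
    have e7 := hanti b a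
    rw [e1, e2]
    rw [e5] at e6
    rw [e7] at e3
    linarith
  -- `T` is a function of degree `2 r + 1`
  have hdeg : ∀ c : (Fin (2 * r + 2) → Bool) → FreeMonoid 𝔑, Cub (th 𝔑) c →
      altS (fun ε => T (c ε)) = 0 := by
    intro c hc
    refine h.2.2.2 (2 * r + 2) (r + r + 1) _ (by omega) ?_
    exact TT_cub h r dW dU c hc (fun _ => 1) (fun _ => 1) (Cub.const _) (Cub.const _)
  have hx := lin_IK (th 𝔑) (2 * r + 2) T hdeg _ h1
  have hy := lin_IK (th 𝔑) (2 * r + 2) T hdeg _ h2
  rw [map_sub, sub_eq_zero] at hx hy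
  have e8 : bil (fun a b => v * U a b) y x = 0 := by
    have e9 : bil (fun a b => v * U a b) y x =
        bil (fun a b => T (b * a) - T (a * b)) y x := by
      refine bil_congr _ _ _ _ fun a _ b _ => ?_
      have := hkey a b
      linarith
    rw [e9, bil_fun_sub, bil_mul, bil_swap (fun a b => T (a * b)), bil_mul, hx, hy, sub_self]
  have e10 : bil (fun a b => v * U a b) y x = v * bil U y x := by
    have := map_bil (AddMonoidHom.mulLeft v) U y x
    exact this.symm
  rw [e10] at e8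
  exact (mul_eq_zero.1 e8).resolve_left hv

end Pool.Agent.SUR
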