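import Pool.Agent.SUR.St

/-!
# DIV: modulo a common divisor the weight on the wreath product is a coboundary
-/

set_option autoImplicit false

universe u

namespace Pool.Agent.SUR

open Pool.Agent.WhK

namespace DIV_aux

variable {𝔐 : Type u} [Monoid 𝔐]

theorem inter (α β : ℕ → 𝔐) (n : ℕ) :
    ((List.range n).map fun k => α k * β k).prod * α n =
      α 0 * ((List.range n).map fun k => β k * α (k + 1)).prod := by
  induction n with
  | zero => simp
  | succ n ih =>
    rw [List.prod_range_succ (fun k => α k * β k) n,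
      List.prod_range_succ (fun k => β k * α (k + 1)) n]
    calc _ = (((List.range n).map fun k => α k * β k).prod * α n) * (β n * α (n + 1)) := by
          simp only [mul_assoc]
      _ = _ := by rw [ih]; simp only [mul_assoc]

variable {N : ℕ} [NeZero N]

theorem cast_pred : ((N - 1 : ℕ) : ZMod N) = -1 := by
  have h : 1 ≤ N := NeZero.pos N
  rw [Nat.cast_sub h, ZMod.natCast_self, Nat.cast_one, zero_sub]

theorem last_eq (r : ZMod N) : r + 1 + ((N - 1 : ℕ) : ZMod N) = r := by
  rw [cast_pred]
  ring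

theorem id1 (a b : ZMod N → 𝔐) (r : ZMod N) :
    Pr r (b * shiftHom 1 a) * b r = b (r + 1) * Pr (r + 1) (a * b) := by
  have h := inter (fun k : ℕ => b (r + 1 + (k : ZMod N))) (fun k : ℕ => a (r + 1 + (k : ZMod N) + 1))
    (N - 1)
  simp only [last_eq, Nat.cast_zero, add_zero] at h
  have h1 : Pr r (b * shiftHom 1 a) = ((List.range (N - 1)).map fun k : ℕ =>
      b (r + 1 + (k : ZMod N)) * a (r + 1 + (k : ZMod N) + 1)).prod := rfl
  have h2 : Pr (r + 1) (a * b) = ((List.range (N - 1)).map fun k : ℕ =>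
      a (r + 1 + (k : ZMod N) + 1) * b (r + 1 + ((k + 1 : ℕ) : ZMod N))).prod := by
    unfold Pr
    congr 1
    refine List.map_congr_left fun k _ => ?_
    rw [Pi.mul_apply]
    congr 2
    · ring
    · push_cast
      ring
  rw [h1, h2]
  exact h

theorem id2 (a b : ZMod N → 𝔐) (r : ZMod N) :
    a (r + 1) * Pr r (b * shiftHom 1 a) = Pr r (a * b) * a r := by
  have h := inter (fun k : ℕ => a (r + 1 + (k : ZMod N))) (fun k : ℕ => b (r + 1 + (k : ZMod N)))
    (N - 1)
  simp only [last_eq, Nat.cast_zero, add_zero] at h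
  have h1 : Pr r (b * shiftHom 1 a) = ((List.range (N - 1)).map fun k : ℕ =>
      b (r + 1 + (k : ZMod N)) * a (r + 1 + ((k + 1 : ℕ) : ZMod N))).prod := by
    unfold Pr
    congr 1
    refine List.map_congr_left fun k _ => ?_
    rw [Pi.mul_apply, shiftHom_apply]
    congr 2
    push_cast
    ring
  have h2 : Pr r (a * b) = ((List.range (N - 1)).map fun k : ℕ =>
      a (r + 1 + (k : ZMod N)) * b (r + 1 + (k : ZMod N))).prod := rfl
  rw [h1, h2]
  exact h.symm

omit [NeZero N] in
theorem id3 (a b : ZMod N → 𝔐) (i l r : ZMod N) (hil : i + l = 1) :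
    Pr (r + i) (b * shiftHom l a) = Pr r (shiftHom i b * shiftHom 1 a) := by
  unfold Pr
  congr 1
  refine List.map_congr_left fun k _ => ?_
  rw [Pi.mul_apply, Pi.mul_apply, shiftHom_apply, shiftHom_apply, shiftHom_apply, ← hil]
  congr 2 <;> ring

end DIV_aux

open DIV_aux in
/-- DIV -/
theorem t_DIV (hW : s_WRW.{u}) : s_DIV.{u} := by
  intro 𝔐 _ N _ W hwt d hd hdiv x y
  by_cases hi : x.i + y.i = 1
  · obtain ⟨-, hwr1⟩ := hW 𝔐 N W hwt
    -- the data
    set a := x.s with ha
    set b := shiftHom x.i y.s with hb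
    let A : ZMod N → ℤ := fun r => W (b r * Pr r (a * b)) (a r)
    let B : ZMod N → ℤ := fun r => W (Pr r (a * b) * a r) (b r)
    have hwr : wr W x y = ∑ r, B r := by
      unfold wr
      rw [if_pos hi]
    have hAB : ∀ r, W (Pr r (a * b)) ((a * b) r) = B r + A r := fun r => hwt _ _ _
    have hxy : The W (x * y) = ∑ r : ZMod N, (r.val : ℤ) * (B r + A r) := by
      unfold The
      rw [Wr.mul_def]
      change (if x.i + y.i = 1 then ∑ r : ZMod N, (r.val : ℤ) * W (Pr r (a * b)) ((a * b) r)
        else 0) = _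
      rw [if_pos hi]
      exact Finset.sum_congr rfl fun r _ => by rw [hAB]
    have hyx : The W (y * x) = ∑ r : ZMod N, ((r + x.i).val : ℤ) * (A (r + 1) + B r) := by
      unfold The
      rw [Wr.mul_def]
      change (if y.i + x.i = 1 then ∑ r : ZMod N, (r.val : ℤ) *
        W (Pr r (y.s * shiftHom y.i a)) ((y.s * shiftHom y.i a) r) else 0) = _
      rw [if_pos (by rw [add_comm]; exact hi)]
      rw [← Equiv.sum_comp (Equiv.addRight x.i)]
      refine Finset.sum_congr rfl fun r _ => ?_
      simp only [Equiv.coe_addRight]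
      rw [id3 a y.s x.i y.i r hi]
      have e1 : (y.s * shiftHom y.i a) (r + x.i) = b r * a (r + 1) := by
        rw [Pi.mul_apply, shiftHom_apply, hb, shiftHom_apply, ← hi]
        congr 2
        ring
      rw [e1, ← hb, hwt, id1 a b r, id2 a b r]
    have hsum : ∑ r, (B r + A r) = W 1 (prodSeq (x * y).s) := by
      have h := hwr1 (x * y)
      have hi2 : (x * y).i = 1 := hi
      rw [if_pos hi2] at h
      rw [← h]
      unfold wr
      rw [if_pos (by change (0 : ZMod N) + (x * y).i = 1; rw [zero_add]; exact hi2)]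
      refine Finset.sum_congr rfl fun r _ => ?_
      have e2 : (1 : Wr 𝔐 N).s * shiftHom (1 : Wr 𝔐 N).i (x * y).s = a * b := by
        change 1 * shiftHom 0 (a * b) = a * b
        rw [shiftHom_zero, one_mul]
      have e3 : shiftHom (1 : Wr 𝔐 N).i (x * y).s = a * b := by
        change shiftHom 0 (a * b) = a * b
        rw [shiftHom_zero]
      have e4 : (1 : Wr 𝔐 N).s r = 1 := rfl
      rw [e2, e3, e4, mul_one, hAB]
    -- modulo d
    let θ : ZMod N →+* ZMod d := ZMod.castHom hd (ZMod d)
    have hθ : ∀ r : ZMod N, (((r.val : ℤ)) : ZMod d) = θ r := by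
      intro r
      change (((r.val : ℤ)) : ZMod d) = ((r.cast : ZMod d))
      rw [Int.cast_natCast, ZMod.natCast_val]
    refine (ZMod.intCast_zmod_eq_zero_iff_dvd _ d).mp ?_
    have hS : ∑ r, ((B r : ZMod d) + (A r : ZMod d)) = 0 := by
      have h := (ZMod.intCast_zmod_eq_zero_iff_dvd _ d).mpr (hdiv (prodSeq (x * y).s))
      rw [← hsum, Int.cast_sum] at h
      rw [← h]
      exact Finset.sum_congr rfl fun r _ => (Int.cast_add _ _).symm
    have hA1 : ∑ r : ZMod N, (A (r + 1) : ZMod d) = ∑ r, (A r : ZMod d) :=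
      Equiv.sum_comp (Equiv.addRight (1 : ZMod N)) (fun r => (A r : ZMod d))
    have hA2 : ∑ r : ZMod N, θ r * (A (r + 1) : ZMod d) =
        ∑ r, θ r * (A r : ZMod d) - ∑ r, (A r : ZMod d) := by
      rw [← Finset.sum_sub_distrib,
        ← Equiv.sum_comp (Equiv.addRight (1 : ZMod N))
          (fun r => θ r * (A r : ZMod d) - (A r : ZMod d))]
      refine Finset.sum_congr rfl fun r _ => ?_
      simp only [Equiv.coe_addRight, map_add, map_one]
      ring
    rw [hwr, hxy, hyx, Int.cast_sub, Int.cast_sub, Int.cast_sum, Int.cast_sum, Int.cast_sum]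
    simp only [Int.cast_mul, hθ, Int.cast_add, map_add]
    rw [Finset.sum_add_distrib] at hS
    simp only [add_mul, mul_add, Finset.sum_add_distrib, ← Finset.mul_sum]
    rw [hA1, hA2]
    linear_combination (1 - θ x.i) * hS
  · have h1 : wr W x y = 0 := by
      unfold wr
      rw [if_neg hi]
    have h2 : The W (x * y) = 0 := by
      unfold The
      exact if_neg hi
    have h3 : The W (y * x) = 0 := by
      unfold The
      exact if_neg (fun h => hi (by rw [add_comm]; exact h))
    rw [h1, h2, h3]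
    simp

end Pool.Agent.SUR
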