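import Pool.Agent.SUR.StD
import Pool.Agent.SUR.Bil
import Pool.Agent.SUR.LOC

/-!
# DLOC: the vanishing of the Dennis trace passes to direct limits
-/

set_option autoImplicit false

universe u

namespace Pool.Agent.SUR

open Pool.Agent.WhK Finset

/-- the pairing and the maps of the monoid rings -/
theorem DLOC.bil_map {X Y A : Type*} [AddCommGroup A] (f : X → Y) (F : Y → Y → A)
    (x y : MonoidAlgebra ℤ X) :
    bil F (MonoidAlgebra.mapDomain f x) (MonoidAlgebra.mapDomain f y) =
      bil (fun a b => F (f a) (f b)) x y := by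
  let φ : MonoidAlgebra ℤ X →+ MonoidAlgebra ℤ Y :=
    AddMonoidHom.mk' (fun z => MonoidAlgebra.mapDomain f z)
      fun a b => MonoidAlgebra.mapDomain_add f a b
  have h := biadd_ext (((bilHom F).compl₂ φ).comp φ) (bilHom fun a b => F (f a) (f b))
    (fun a b => by
      show bil F (MonoidAlgebra.mapDomain f (MonoidAlgebra.single a 1))
        (MonoidAlgebra.mapDomain f (MonoidAlgebra.single b 1)) =
        bil (fun a b => F (f a) (f b)) (MonoidAlgebra.single a 1) (MonoidAlgebra.single b 1)
      rw [MonoidAlgebra.mapDomain_single, MonoidAlgebra.mapDomain_single, bil_single, bil_single])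
    x y
  exact h

theorem t_DLOC : s_DLOC := by
  intro G _ h F hF hfin n X
  obtain ⟨G₀, hG₀, X₀, rfl⟩ := LOC.lift n X
  have h1 := h G₀ hG₀ (fun a b => F (a : G) (b : G))
    (fun a b c => by
      have := hF (a : G) b c
      simpa only [Subgroup.coe_mul] using this)
    (fun a b hab => by
      apply hfin
      have h2 : IsOfFinOrder (G₀.subtype (a * b)) := G₀.subtype.isOfFinOrder hab
      simpa using h2) n X₀
  rw [← h1]
  unfold pairF
  refine Finset.sum_congr rfl fun i _ => Finset.sum_congr rfl fun j _ => ?_
  exact DLOC.bil_map (fun g : G₀ => (g : G)) F _ _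

end Pool.Agent.SUR
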