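import Pool.Agent.SUR.StD
import Pool.Agent.SUR.Bil

/-!
# Cocycles on a group and matrix units (module DMM of SUR, MP_e40716_gt)
-/

set_option autoImplicit false

universe u

namespace Pool.Agent.SUR

open Pool.Agent.WhK Finset

namespace DMM

variable {G : Type u} {A : Type} [Group G] [AddCommGroup A] {n : ℕ} {F : G → G → A}

theorem F_one_right (hF : IsWtA F) (a : G) : F a 1 = 0 := by
  have h := hF a 1 1
  rw [mul_one, mul_one, one_mul] at h
  exact (left_eq_add.1 h)

theorem F_one_mul (hF : IsWtA F) (a b : G) : F 1 (a * b) = F a b + F b a := by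
  have h := hF 1 a b
  rw [one_mul, mul_one] at h
  exact h

theorem F_one_conj (hF : IsWtA F) {g h : G} (hc : IsConj g h) : F 1 h = F 1 g := by
  obtain ⟨c, rfl⟩ := isConj_iff.1 hc
  rw [mul_assoc, F_one_mul hF, add_comm, ← F_one_mul hF, inv_mul_cancel_right]

theorem one_right (hF : IsWtA F) (a : MM G n) : FMM F n a MM.one = 0 := by
  cases a with
  | one => rfl
  | zero => rfl
  | unit i j α =>
    show (if i = j then F α 1 else 0) = 0
    rw [F_one_right hF, ite_self]

theorem zero_right (a : MM G n) : FMM F n a MM.zero = 0 := by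
  cases a <;> rfl

theorem zero_left (a : MM G n) : FMM F n MM.zero a = 0 := by
  cases a <;> rfl

theorem one_unit (i j : Fin n) (β : G) :
    FMM F n MM.one (MM.unit i j β) = if i = j then F 1 β else 0 := rfl

theorem unit_unit (i j k l : Fin n) (α β : G) :
    FMM F n (MM.unit i j α) (MM.unit k l β) = if j = k ∧ l = i then F α β else 0 := rfl

theorem isWt (hF : IsWtA F) : IsWtA (FMM F n) := by
  intro a b c
  cases c with
  | one =>
    rw [MM.mul_one', MM.one_mul', one_right hF, zero_add]
  | zero =>
    rw [MM.mul_zero', MM.zero_mul', zero_right, zero_left, zero_right, add_zero]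
  | unit r s γ =>
    cases b with
    | one =>
      rw [MM.mul_one', MM.one_mul', one_right hF, add_zero]
    | zero =>
      rw [MM.mul_zero', MM.zero_mul', zero_right, zero_left, zero_right, add_zero]
    | unit k l β =>
      cases a with
      | one =>
        rw [MM.one_mul', MM.mul_one', MM.unit_mul, unit_unit, unit_unit]
        by_cases hlr : l = r
        · rw [if_pos hlr, one_unit]
          by_cases hks : k = s
          · rw [if_pos hks, if_pos ⟨hlr, hks.symm⟩, if_pos ⟨hks.symm, hlr⟩, F_one_mul hF]
          · rw [if_neg hks, if_neg (fun h => hks h.2.symm), if_neg (fun h => hks h.1.symm),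
              add_zero]
        · rw [if_neg hlr, if_neg (fun h => hlr h.1), if_neg (fun h => hlr h.2),
            zero_right, add_zero]
      | zero =>
        rw [MM.mul_zero', MM.zero_mul', zero_left, zero_left, zero_left, add_zero]
      | unit i j α =>
        rw [MM.unit_mul, MM.unit_mul, MM.unit_mul]
        by_cases hlr : l = r
        · by_cases hjk : j = k
          · by_cases hsi : s = i
            · rw [if_pos hlr, if_pos hjk, if_pos hsi, unit_unit, unit_unit, unit_unit,
                if_pos ⟨hjk, hsi⟩, if_pos ⟨hlr, hsi⟩, if_pos ⟨hjk, hlr⟩, hF]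
            · rw [if_pos hlr, if_pos hjk, if_neg hsi, unit_unit, unit_unit,
                if_neg (fun h => hsi h.2), if_neg (fun h => hsi h.2), zero_left, add_zero]
          · rw [if_pos hlr, if_neg hjk, unit_unit, if_neg (fun h => hjk h.1), zero_left,
              zero_add]
            by_cases hsi : s = i
            · rw [if_pos hsi, unit_unit, if_neg (fun h => hjk h.1)]
            · rw [if_neg hsi, zero_left]
        · rw [if_neg hlr, zero_right]
          have e1 : FMM F n (if j = k then (MM.unit i l (α * β) : MM G n) else MM.zero)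
              (MM.unit r s γ) = 0 := by
            by_cases hjk : j = k
            · rw [if_pos hjk, unit_unit, if_neg (fun h => hlr h.1)]
            · rw [if_neg hjk, zero_left]
          have e2 : FMM F n (if s = i then (MM.unit r j (γ * α) : MM G n) else MM.zero)
              (MM.unit k l β) = 0 := by
            by_cases hsi : s = i
            · rw [if_pos hsi, unit_unit, if_neg (fun h => hlr h.2)]
            · rw [if_neg hsi, zero_left]
          rw [e1, e2, add_zero]

/-- the pairing of the unit with a matrix unit -/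
theorem bil_one_psi (i j : Fin n) (x : MonoidAlgebra ℤ G) :
    bil (FMM F n) 1 (psi i j x) = if i = j then bil F 1 x else 0 := by
  induction x using MonoidAlgebra.induction_linear with
  | zero => rw [map_zero, bil_zero_right, bil_zero_right, ite_self]
  | add x x' hx hx' =>
    rw [map_add, bil_add_right, hx, hx', bil_add_right]
    split_ifs
    · rfl
    · rw [add_zero]
  | single g r =>
    rw [psi_single, bil_sub_right, MonoidAlgebra.one_def, bil_single, bil_single,
      MonoidAlgebra.one_def, bil_single]
    have e1 : FMM F n (1 : MM G n) MM.zero = 0 := zero_right _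
    have e2 : FMM F n (1 : MM G n) (MM.unit i j g) = if i = j then F 1 g else 0 := rfl
    rw [e1, e2, smul_zero, sub_zero]
    split_ifs
    · rfl
    · rw [smul_zero]

/-- the pairing of matrix units -/
theorem bil_psi_psi (i j k l : Fin n) (x y : MonoidAlgebra ℤ G) :
    bil (FMM F n) (psi i j x) (psi k l y) = if j = k ∧ l = i then bil F x y else 0 := by
  induction x using MonoidAlgebra.induction_linear with
  | zero => rw [map_zero, bil_zero_left, bil_zero_left, ite_self]
  | add x x' hx hx' =>
    rw [map_add, bil_add_left, hx, hx', bil_add_left]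
    split_ifs
    · rfl
    · rw [add_zero]
  | single g r =>
    induction y using MonoidAlgebra.induction_linear with
    | zero => rw [map_zero, bil_zero_right, bil_zero_right, ite_self]
    | add y y' hy hy' =>
      rw [map_add, bil_add_right, hy, hy', bil_add_right]
      split_ifs
      · rfl
      · rw [add_zero]
    | single h s =>
      rw [psi_single, psi_single, bil_sub_left, bil_sub_right, bil_sub_right, bil_single,
        bil_single, bil_single, bil_single, bil_single, zero_right, zero_left, zero_left,
        unit_unit, smul_zero, sub_zero, sub_zero, sub_zero]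
      split_ifs
      · rfl
      · rw [smul_zero]

/-- a constant on the right does not contribute -/
theorem bil_F_one (hF : IsWtA F) (x : MonoidAlgebra ℤ G) : bil F x 1 = 0 := by
  refine bil_eq_zero _ _ _ fun a _ b hb => ?_
  have hb1 : b = 1 := by
    rw [MonoidAlgebra.one_def, MonoidAlgebra.coeff_single] at hb
    exact Finset.mem_singleton.1 (Finsupp.support_single_subset hb)
  rw [hb1, F_one_right hF]

theorem bil_FMM_one (hF : IsWtA F) (x : MonoidAlgebra ℤ (MM G n)) :
    bil (FMM F n) x 1 = 0 := by
  refine bil_eq_zero _ _ _ fun a _ b hb => ?_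
  have hb1 : b = 1 := by
    rw [MonoidAlgebra.one_def, MonoidAlgebra.coeff_single] at hb
    exact Finset.mem_singleton.1 (Finsupp.support_single_subset hb)
  rw [hb1]
  exact one_right hF a

/-- the pairing of matrices -/
theorem bil_Fhom (hF : IsWtA F) (Y X : Matrix (Fin n) (Fin n) (MonoidAlgebra ℤ G)) :
    bil (FMM F n) (Fhom G n Y) (Fhom G n X) = ∑ i, ∑ j, bil F (Y i j) (X j i) := by
  have hX : ∀ i j : Fin n, X i j - (X - 1 : Matrix (Fin n) (Fin n) (MonoidAlgebra ℤ G)) i j =
      if i = j then 1 else 0 := by
    intro i j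
    rw [Matrix.sub_apply, sub_sub_cancel, Matrix.one_apply]
  have hY : ∀ i j : Fin n, Y i j = (if i = j then 1 else 0) +
      (Y - 1 : Matrix (Fin n) (Fin n) (MonoidAlgebra ℤ G)) i j := by
    intro i j
    rw [Matrix.sub_apply, Matrix.one_apply, add_sub_cancel]
  have h0 : ∀ i j : Fin n, bil F (Y i j) (X j i) =
      bil F (Y i j) ((X - 1 : Matrix (Fin n) (Fin n) (MonoidAlgebra ℤ G)) j i) := by
    intro i j
    rw [← sub_eq_zero, ← bil_sub_right, hX]
    split_ifs
    · exact bil_F_one hF _
    · exact bil_zero_right _ _
  have h1 : bil (FMM F n) 1 (Psi (X - 1)) =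
      ∑ i, bil F 1 ((X - 1 : Matrix (Fin n) (Fin n) (MonoidAlgebra ℤ G)) i i) := by
    rw [Psi_apply, bil_sum_right]
    refine Finset.sum_congr rfl fun i _ => ?_
    rw [bil_sum_right, Finset.sum_congr rfl fun j _ => bil_one_psi i j _, Finset.sum_ite_eq,
      if_pos (Finset.mem_univ _)]
  have h2 : bil (FMM F n) (Psi (Y - 1)) (Psi (X - 1)) =
      ∑ i, ∑ j, bil F ((Y - 1 : Matrix (Fin n) (Fin n) (MonoidAlgebra ℤ G)) i j)
        ((X - 1 : Matrix (Fin n) (Fin n) (MonoidAlgebra ℤ G)) j i) := by
    rw [Psi_apply, Psi_apply, bil_sum_left]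
    refine Finset.sum_congr rfl fun i _ => ?_
    rw [bil_sum_left]
    refine Finset.sum_congr rfl fun j _ => ?_
    rw [bil_sum_right]
    have h3 : ∀ k : Fin n, bil (FMM F n)
        (psi i j ((Y - 1 : Matrix (Fin n) (Fin n) (MonoidAlgebra ℤ G)) i j))
        (∑ l, psi k l ((X - 1 : Matrix (Fin n) (Fin n) (MonoidAlgebra ℤ G)) k l)) =
        if j = k then bil F ((Y - 1 : Matrix (Fin n) (Fin n) (MonoidAlgebra ℤ G)) i j)
          ((X - 1 : Matrix (Fin n) (Fin n) (MonoidAlgebra ℤ G)) k i) else 0 := by
      intro k
      rw [bil_sum_right, Finset.sum_congr rfl fun l _ => bil_psi_psi i j k l _ _]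
      by_cases hjk : j = k
      · rw [if_pos hjk]
        simp only [hjk, true_and]
        rw [Finset.sum_ite_eq', if_pos (Finset.mem_univ _)]
      · rw [if_neg hjk]
        exact Finset.sum_eq_zero fun l _ => if_neg fun h => hjk h.1
    rw [Finset.sum_congr rfl fun k _ => h3 k, Finset.sum_ite_eq, if_pos (Finset.mem_univ _)]
  have h4 : ∀ i : Fin n, ∑ j, bil F (Y i j)
      ((X - 1 : Matrix (Fin n) (Fin n) (MonoidAlgebra ℤ G)) j i) =
      bil F 1 ((X - 1 : Matrix (Fin n) (Fin n) (MonoidAlgebra ℤ G)) i i) +
      ∑ j, bil F ((Y - 1 : Matrix (Fin n) (Fin n) (MonoidAlgebra ℤ G)) i j)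
        ((X - 1 : Matrix (Fin n) (Fin n) (MonoidAlgebra ℤ G)) j i) := by
    intro i
    have h5 : ∀ j, bil F (Y i j)
        ((X - 1 : Matrix (Fin n) (Fin n) (MonoidAlgebra ℤ G)) j i) =
        (if i = j then bil F 1 ((X - 1 : Matrix (Fin n) (Fin n) (MonoidAlgebra ℤ G)) j i) else 0) +
        bil F ((Y - 1 : Matrix (Fin n) (Fin n) (MonoidAlgebra ℤ G)) i j)
          ((X - 1 : Matrix (Fin n) (Fin n) (MonoidAlgebra ℤ G)) j i) := by
      intro j
      rw [hY i j, bil_add_left]
      congr 1
      split_ifs
      · rfl
      · exact bil_zero_left _ _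
    rw [Finset.sum_congr rfl fun j _ => h5 j, Finset.sum_add_distrib, Finset.sum_ite_eq,
      if_pos (Finset.mem_univ _)]
  rw [Fhom_apply, Fhom_apply, bil_add_left, bil_add_right, bil_add_right, h1, h2,
    bil_FMM_one hF, bil_FMM_one hF, zero_add, zero_add]
  rw [Finset.sum_congr rfl fun i _ => Finset.sum_congr rfl fun j _ => h0 i j,
    Finset.sum_congr rfl fun i _ => h4 i, Finset.sum_add_distrib]

theorem cl_of_ne (hF : IsWtA F) (a b : MM G n) (hab : FMM F n a b ≠ 0) :
    ∃ α β, F α β ≠ 0 ∧ MM.cl (a * b) = some (ConjClasses.mk (α * β)) := by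
  cases a with
  | one =>
    cases b with
    | one => exact absurd (one_right hF _) hab
    | zero => exact absurd (zero_right _) hab
    | unit i j β =>
      rw [one_unit] at hab
      by_cases hij : i = j
      · rw [if_pos hij] at hab
        refine ⟨1, β, hab, ?_⟩
        rw [MM.one_mul', one_mul]
        exact if_pos hij
      · rw [if_neg hij] at hab
        exact absurd rfl hab
  | zero => exact absurd (zero_left _) hab
  | unit i j α =>
    cases b with
    | one => exact absurd (one_right hF _) hab
    | zero => exact absurd (zero_right _) hab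
    | unit k l β =>
      rw [unit_unit] at hab
      by_cases hij : j = k ∧ l = i
      · rw [if_pos hij] at hab
        refine ⟨α, β, hab, ?_⟩
        rw [MM.unit_mul, if_pos hij.1]
        exact if_pos hij.2.symm
      · rw [if_neg hij] at hab
        exact absurd rfl hab

theorem wtAt (hF : IsWtA F) (g : G) : WtAtA MM.cl (some (ConjClasses.mk g)) (F 1 g)
    (atC MM.cl (some (ConjClasses.mk g)) (FMM F n)) := by
  refine ⟨?_, ?_, ?_⟩
  · intro a b c
    have e1 : MM.cl (a * (b * c)) = MM.cl (a * b * c) := by rw [mul_assoc]
    have e2 : MM.cl (c * a * b) = MM.cl (a * b * c) := by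
      rw [mul_assoc, MM.cl_comm]
    simp only [atC]
    rw [e1, e2]
    by_cases h : MM.cl (a * b * c) = some (ConjClasses.mk g)
    · rw [if_pos h, if_pos h, if_pos h]
      exact isWt hF a b c
    · rw [if_neg h, if_neg h, if_neg h, add_zero]
  · intro a b hab
    by_contra h
    apply hab
    simp only [atC]
    rw [if_neg h]
  · intro a ha
    simp only [atC]
    rw [one_mul, if_pos ha]
    cases a with
    | one => exact absurd ha (by simp [MM.cl])
    | zero => exact absurd ha (by simp [MM.cl])
    | unit i j β =>
      simp only [MM.cl] at ha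
      by_cases hij : i = j
      · rw [if_pos hij] at ha
        have hc : IsConj g β :=
          (ConjClasses.mk_eq_mk_iff_isConj.1 (Option.some_injective _ ha)).symm
        show FMM F n MM.one (MM.unit i j β) = _
        rw [one_unit, if_pos hij, F_one_conj hF hc]
      · rw [if_neg hij] at ha
        exact absurd ha (by simp)

end DMM

theorem t_DMM : s_DMM.{u} := by
  intro G A _ _ F hF n
  exact ⟨DMM.isWt hF, fun X => DMM.bil_Fhom hF _ _, DMM.cl_of_ne hF, DMM.wtAt hF⟩

end Pool.Agent.SUR
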