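import Pool.Agent.SUR.StD
import Pool.Agent.SUR.LIK

/-!
# Pull back of weights under the product of words
-/

set_option autoImplicit false

universe u v

namespace Pool.Agent.SUR

theorem t_DPB : s_DPB.{u} := by
  intro 𝔑 K A _ _ W
  refine ⟨fun cl k v hW => ⟨fun a b c => ?_, fun a b hab => ?_, fun a ha => ?_⟩,
    fun r c c' hc hc' => ?_, fun x y => ?_⟩
  · show W (th 𝔑 a) (th 𝔑 (b * c)) = W (th 𝔑 (a * b)) (th 𝔑 c) + W (th 𝔑 (c * a)) (th 𝔑 b)
    rw [map_mul, map_mul, map_mul]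
    exact hW.1 _ _ _
  · show cl (th 𝔑 (a * b)) = k
    rw [map_mul]
    exact hW.2.1 _ _ hab
  · show W (th 𝔑 1) (th 𝔑 a) = v
    rw [map_one]
    exact hW.2.2 _ ha
  · have h1 : (fun ε => W (th 𝔑 (c ε)) (th 𝔑 (c' ε))) =
        fun _ => W (th 𝔑 (c fun _ => false)) (th 𝔑 (c' fun _ => false)) := by
      funext ε
      rw [cub_theta hc ε (fun _ => false), cub_theta hc' ε (fun _ => false)]
    show altS (fun ε => W (th 𝔑 (c ε)) (th 𝔑 (c' ε))) = 0
    rw [h1]
    exact altS_const (Nat.succ_pos r) _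
  · refine biadd_ext (bilHom fun a b => W (th 𝔑 a) (th 𝔑 b))
      (((bilHom W).comp (MonoidAlgebra.mapDomainRingHom ℤ (th 𝔑)).toAddMonoidHom).compl₂
        (MonoidAlgebra.mapDomainRingHom ℤ (th 𝔑)).toAddMonoidHom) (fun a b => ?_) x y
    show bil (fun a b => W (th 𝔑 a) (th 𝔑 b)) (MonoidAlgebra.single a 1)
        (MonoidAlgebra.single b 1) =
      bil W (MonoidAlgebra.mapDomainRingHom ℤ (th 𝔑) (MonoidAlgebra.single a 1))
        (MonoidAlgebra.mapDomainRingHom ℤ (th 𝔑) (MonoidAlgebra.single b 1))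
    rw [MonoidAlgebra.mapDomainRingHom_apply, MonoidAlgebra.mapDomainRingHom_apply,
      MonoidAlgebra.mapDomain_single, MonoidAlgebra.mapDomain_single, bil_single, bil_single]

end Pool.Agent.SUR
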