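import Pool.Agent.SUR.StD
import Pool.Agent.SUR.LKERD

/-!
# Functions on cubes (module DPOL)
-/

set_option autoImplicit false

universe u v

namespace Pool.Agent.SUR

open Pool.Agent.WhK Finset

namespace DPOLaux

theorem polQ_eq (d k : ℕ) : (PolQ k : AddSubgroup ((Fin d → Bool) → ℚ)) = LKERDaux.Pol ℚ d k := rfl

/-- functions of degree less than `k` -/
def PolL (d k : ℕ) : AddSubgroup ((Fin d → Bool) → ℚ) :=
  AddSubgroup.closure {f | ∃ (T : Finset (Fin d)) (a : ℚ), T.card < k ∧
    f = fun ε => if ∀ s ∈ T, ε s = true then a else 0}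

theorem polL_succ (d k : ℕ) : PolL d (k + 1) = PolQ k := by
  unfold PolL PolQ
  congr 1
  ext f
  simp only [Set.mem_setOf_eq, Nat.lt_succ_iff]

/-- all alternating sums over the faces of dimension `k` vanish -/
def Van {d : ℕ} (k : ℕ) (f : (Fin d → Bool) → ℚ) : Prop :=
  ∀ (e : Fin k → Fin d), Function.Injective e → ∀ ε₀ : Fin d → Bool,
    altS (fun ε : Fin k → Bool => f (Function.extend e ε ε₀)) = 0

theorem cons_ext {d k : ℕ} (e : Fin k → Fin d) (he : Function.Injective e) (b : Bool)
    (ε : Fin k → Bool) (ε₀ : Fin d → Bool) :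
    (Fin.cons b (Function.extend e ε ε₀) : Fin (d + 1) → Bool) =
      Function.extend (fun i => (e i).succ) ε (Fin.cons b ε₀ : Fin (d + 1) → Bool) := by
  have he' : Function.Injective fun i => (e i).succ := fun i j h => he (Fin.succ_injective _ h)
  funext s
  refine Fin.cases ?_ (fun s => ?_) s
  · rw [Fin.cons_zero, Function.extend_apply']
    · rfl
    · rintro ⟨i, hi⟩
      exact Fin.succ_ne_zero _ hi
  · rw [Fin.cons_succ]
    by_cases h : ∃ i, e i = s
    · obtain ⟨i, rfl⟩ := h
      rw [he.extend_apply]
      exact (he'.extend_apply ε (Fin.cons b ε₀ : Fin (d + 1) → Bool) i).symm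
    · rw [Function.extend_apply' _ _ _ h, Function.extend_apply', Fin.cons_succ]
      rintro ⟨i, hi⟩
      exact h ⟨i, Fin.succ_injective _ hi⟩

theorem cons_ext' {d k : ℕ} (e : Fin k → Fin d) (he : Function.Injective e) (b b' : Bool)
    (ε : Fin k → Bool) (ε₀ : Fin d → Bool) :
    Function.extend (Fin.cons 0 (fun i => (e i).succ) : Fin (k + 1) → Fin (d + 1))
      (Fin.cons b ε : Fin (k + 1) → Bool) (Fin.cons b' ε₀ : Fin (d + 1) → Bool) =
    (Fin.cons b (Function.extend e ε ε₀) : Fin (d + 1) → Bool) := by
  have he' : Function.Injective (Fin.cons 0 (fun i => (e i).succ) : Fin (k + 1) → Fin (d + 1)) := by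
    rw [Fin.cons_injective_iff]
    refine ⟨?_, fun i j h => he (Fin.succ_injective _ h)⟩
    rintro ⟨i, hi⟩
    exact Fin.succ_ne_zero _ hi
  funext s
  refine Fin.cases ?_ (fun s => ?_) s
  · exact he'.extend_apply (Fin.cons b ε : Fin (k + 1) → Bool)
      (Fin.cons b' ε₀ : Fin (d + 1) → Bool) 0
  · rw [Fin.cons_succ]
    by_cases h : ∃ i, e i = s
    · obtain ⟨i, rfl⟩ := h
      rw [he.extend_apply]
      exact he'.extend_apply (Fin.cons b ε : Fin (k + 1) → Bool)
        (Fin.cons b' ε₀ : Fin (d + 1) → Bool) i.succ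
    · rw [Function.extend_apply' _ _ _ h, Function.extend_apply', Fin.cons_succ]
      rintro ⟨i, hi⟩
      revert hi
      refine Fin.cases ?_ (fun i => ?_) i
      · intro hi
        exact (Fin.succ_ne_zero _ hi.symm).elim
      · intro hi
        exact h ⟨i, Fin.succ_injective _ hi⟩

theorem altS_cons {k : ℕ} (F : (Fin (k + 1) → Bool) → ℚ) :
    altS F = altS (fun ε : Fin k → Bool => F (Fin.cons false ε)) -
      altS (fun ε : Fin k → Bool => F (Fin.cons true ε)) := by
  unfold altS
  rw [← (Fin.consEquiv fun _ : Fin (k + 1) => Bool).sum_comp, Fintype.sum_prod_type]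
  simp only [Fintype.sum_bool]
  have h2 : ∀ (b : Bool) (ε : Fin k → Bool), (Fin.consEquiv fun _ : Fin (k + 1) => Bool) (b, ε) =
    (Fin.cons b ε : Fin (k + 1) → Bool) := fun _ _ => rfl
  simp only [h2]
  have h1 : ∀ (b : Bool) (ε : Fin k → Bool), sgB (Fin.cons b ε : Fin (k + 1) → Bool) =
      (if b then -1 else 1) * sgB ε := by
    intro b ε
    unfold sgB
    rw [Fin.prod_univ_succ]
    simp only [Fin.cons_zero, Fin.cons_succ]
  rw [add_comm, sub_eq_add_neg, ← Finset.sum_neg_distrib]
  congr 1
  · refine Finset.sum_congr rfl fun ε _ => ?_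
    rw [h1]
    simp
  · refine Finset.sum_congr rfl fun ε _ => ?_
    rw [h1]
    simp

theorem polL_cons (d k : ℕ) (g : (Fin d → Bool) → ℚ) (hg : g ∈ PolL d k) :
    (fun ε : Fin (d + 1) → Bool => g (Fin.tail ε)) ∈ PolL (d + 1) k := by
  induction hg using AddSubgroup.closure_induction with
  | mem x hx =>
    obtain ⟨T, a, hT, rfl⟩ := hx
    refine AddSubgroup.subset_closure ⟨T.map ⟨Fin.succ, Fin.succ_injective _⟩, a, ?_, ?_⟩
    · rw [Finset.card_map]
      exact hT
    · funext ε
      simp only [Finset.mem_map, Function.Embedding.coeFn_mk, forall_exists_index, and_imp,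
        forall_apply_eq_imp_iff₂, Fin.tail]
      exact if_congr Iff.rfl rfl rfl
  | zero => exact AddSubgroup.zero_mem _
  | add x y _ _ hx hy => exact AddSubgroup.add_mem _ hx hy
  | neg x _ hx => exact AddSubgroup.neg_mem _ hx

theorem polL_cons' (d k : ℕ) (g : (Fin d → Bool) → ℚ) (hg : g ∈ PolL d k) :
    (fun ε : Fin (d + 1) → Bool => if ε 0 = true then g (Fin.tail ε) else 0) ∈
      PolL (d + 1) (k + 1) := by
  induction hg using AddSubgroup.closure_induction with
  | mem x hx =>
    obtain ⟨T, a, hT, rfl⟩ := hx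
    refine AddSubgroup.subset_closure ⟨insert 0 (T.map ⟨Fin.succ, Fin.succ_injective _⟩), a, ?_, ?_⟩
    · refine lt_of_le_of_lt (Finset.card_insert_le _ _) ?_
      rw [Finset.card_map]
      omega
    · funext ε
      rw [← ite_and]
      simp only [Finset.mem_insert, forall_eq_or_imp, Finset.mem_map, Function.Embedding.coeFn_mk,
        forall_exists_index, and_imp, forall_apply_eq_imp_iff₂, Fin.tail]
      exact if_congr Iff.rfl rfl rfl
  | zero =>
    have h2 : (fun ε : Fin (d + 1) → Bool => if ε 0 = true then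
        (0 : (Fin d → Bool) → ℚ) (Fin.tail ε) else 0) = 0 := by
      funext ε
      simp
    rw [h2]
    exact AddSubgroup.zero_mem _
  | add x y _ _ hx hy =>
    have h2 : (fun ε : Fin (d + 1) → Bool => if ε 0 = true then (x + y) (Fin.tail ε) else 0) =
        (fun ε => if ε 0 = true then x (Fin.tail ε) else 0) +
          fun ε => if ε 0 = true then y (Fin.tail ε) else 0 := by
      funext ε
      simp only [Pi.add_apply]
      split_ifs <;> simp
    rw [h2]
    exact AddSubgroup.add_mem _ hx hy
  | neg x _ hx =>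
    have h2 : (fun ε : Fin (d + 1) → Bool => if ε 0 = true then (-x) (Fin.tail ε) else 0) =
        -fun ε => if ε 0 = true then x (Fin.tail ε) else 0 := by
      funext ε
      simp only [Pi.neg_apply]
      split_ifs <;> simp
    rw [h2]
    exact AddSubgroup.neg_mem _ hx

theorem van_zero {d : ℕ} (f : (Fin d → Bool) → ℚ) (hf : Van 0 f) : f = 0 := by
  funext ε₀
  have h1 := hf (fun i => i.elim0) (fun i => i.elim0) ε₀
  unfold altS at h1
  rw [Fintype.sum_unique] at h1
  beta_reduce at h1
  have h2 : ∀ (e : Fin 0 → Fin d) (x : Fin 0 → Bool), Function.extend e x ε₀ = ε₀ := by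
    intro e x
    funext s
    rw [Function.extend_apply']
    rintro ⟨i, _⟩
    exact i.elim0
  rw [h2] at h1
  simpa [sgB] using h1

theorem van_mem (d : ℕ) : ∀ (k : ℕ) (f : (Fin d → Bool) → ℚ), Van k f → f ∈ PolL d k := by
  induction d with
  | zero =>
    intro k f hf
    cases k with
    | zero =>
      rw [van_zero f hf]
      exact AddSubgroup.zero_mem _
    | succ k =>
      refine AddSubgroup.subset_closure ⟨∅, f default, by simp, ?_⟩
      funext ε
      have h1 : ε = default := Subsingleton.elim _ _
      rw [h1]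
      simp
  | succ d ih =>
    intro k f hf
    cases k with
    | zero =>
      rw [van_zero f hf]
      exact AddSubgroup.zero_mem _
    | succ k =>
      have hg : Van (k + 1) (fun ε : Fin d → Bool => f (Fin.cons false ε)) := by
        intro e he ε₀
        have h1 := hf (fun i => (e i).succ) (fun i j h => he (Fin.succ_injective _ h))
          (Fin.cons false ε₀)
        simp only [← cons_ext e he false _ ε₀] at h1
        exact h1
      have hh : Van k (fun ε : Fin d → Bool => f (Fin.cons true ε) - f (Fin.cons false ε)) := by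
        intro e he ε₀
        have he' : Function.Injective
            (Fin.cons 0 (fun i => (e i).succ) : Fin (k + 1) → Fin (d + 1)) := by
          rw [Fin.cons_injective_iff]
          refine ⟨?_, fun i j h => he (Fin.succ_injective _ h)⟩
          rintro ⟨i, hi⟩
          exact Fin.succ_ne_zero _ hi
        have h1 := hf _ he' (Fin.cons false ε₀)
        rw [altS_cons] at h1
        simp only [cons_ext' e he _ false _ ε₀] at h1
        have h2 := LKERDaux.altS_add (R := ℚ)
          (fun ε : Fin k → Bool => f (Fin.cons true (Function.extend e ε ε₀)))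
          (fun ε : Fin k → Bool => -f (Fin.cons false (Function.extend e ε ε₀)))
        rw [LKERDaux.altS_neg] at h2
        simp only [sub_eq_add_neg]
        rw [h2]
        linarith
      have h1 := polL_cons d (k + 1) _ (ih (k + 1) _ hg)
      have h2 := polL_cons' d k _ (ih k _ hh)
      have h3 := AddSubgroup.add_mem _ h1 h2
      have h4 : f = (fun ε : Fin (d + 1) → Bool => f (Fin.cons false (Fin.tail ε))) +
          fun ε : Fin (d + 1) → Bool => if ε 0 = true then
            f (Fin.cons true (Fin.tail ε)) - f (Fin.cons false (Fin.tail ε)) else 0 := by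
        funext ε
        simp only [Pi.add_apply]
        have h5 : (Fin.cons (ε 0) (Fin.tail ε) : Fin (d + 1) → Bool) = ε := Fin.cons_self_tail ε
        split_ifs with h6
        · rw [h6] at h5
          rw [h5]
          ring
        · have h7 : ε 0 = false := by simpa using h6
          rw [h7] at h5
          rw [h5]
          ring
      rw [h4]
      exact h3

theorem cub_face {𝔐 𝔔 : Type*} [Monoid 𝔐] [Monoid 𝔔] (θ : 𝔐 →* 𝔔) {d k : ℕ}
    (e : Fin k → Fin d) (he : Function.Injective e) (ε₀ : Fin d → Bool)
    (c : (Fin d → Bool) → 𝔐) (hc : Cub θ c) :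
    Cub θ (fun ε : Fin k → Bool => c (Function.extend e ε ε₀)) := by
  induction hc with
  | const a => exact Cub.const a
  | slot s a a' h =>
    by_cases hs : ∃ i, e i = s
    · obtain ⟨i, rfl⟩ := hs
      have h1 : (fun ε : Fin k → Bool => if Function.extend e ε ε₀ (e i) = true then a' else a) =
          fun ε => if ε i = true then a' else a := by
        funext ε
        rw [he.extend_apply]
      rw [h1]
      exact Cub.slot i a a' h
    · have h1 : (fun ε : Fin k → Bool => if Function.extend e ε ε₀ s = true then a' else a) =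
          fun _ => if ε₀ s = true then a' else a := by
        funext ε
        rw [Function.extend_apply' _ _ _ hs]
      rw [h1]
      exact Cub.const _
  | mul c c' _ _ ih ih' => exact Cub.mul _ _ ih ih'

theorem pol_mul_gen (d k l : ℕ) (f g : (Fin d → Bool) → ℚ) (hf : f ∈ PolQ k)
    (T : Finset (Fin d)) (a : ℚ) (hT : T.card ≤ l)
    (hg : g = fun ε => if ∀ s ∈ T, ε s = true then a else 0) :
    (fun ε => f ε * g ε) ∈ PolQ (d := d) (k + l) := by
  classical
  subst hg
  induction hf using AddSubgroup.closure_induction with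
  | mem x hx =>
    obtain ⟨T', a', hT', rfl⟩ := hx
    refine AddSubgroup.subset_closure ⟨T' ∪ T, a' * a, ?_, ?_⟩
    · exact (Finset.card_union_le _ _).trans (by omega)
    · funext ε
      have h1 : (∀ s ∈ T' ∪ T, ε s = true) ↔ (∀ s ∈ T', ε s = true) ∧ ∀ s ∈ T, ε s = true := by
        simp only [Finset.mem_union, or_imp, forall_and]
      beta_reduce
      by_cases h2 : ∀ s ∈ T', ε s = true
      · by_cases h3 : ∀ s ∈ T, ε s = true
        · rw [if_pos h2, if_pos h3, if_pos (h1.2 ⟨h2, h3⟩)]
        · rw [if_pos h2, if_neg h3, if_neg (fun h => h3 (h1.1 h).2), mul_zero]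
      · rw [if_neg h2, if_neg (fun h => h2 (h1.1 h).1), zero_mul]
  | zero =>
    have h2 : (fun ε : Fin d → Bool => (0 : (Fin d → Bool) → ℚ) ε *
        (if ∀ s ∈ T, ε s = true then a else 0)) = 0 := by
      funext ε
      simp
    rw [h2]
    exact AddSubgroup.zero_mem _
  | add x y _ _ hx hy =>
    have h2 : (fun ε : Fin d → Bool => (x + y) ε * (if ∀ s ∈ T, ε s = true then a else 0)) =
        (fun ε => x ε * (if ∀ s ∈ T, ε s = true then a else 0)) +
          fun ε => y ε * (if ∀ s ∈ T, ε s = true then a else 0) := by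
      funext ε
      simp only [Pi.add_apply, add_mul]
    rw [h2]
    exact AddSubgroup.add_mem _ hx hy
  | neg x _ hx =>
    have h2 : (fun ε : Fin d → Bool => (-x) ε * (if ∀ s ∈ T, ε s = true then a else 0)) =
        -fun ε => x ε * (if ∀ s ∈ T, ε s = true then a else 0) := by
      funext ε
      simp only [Pi.neg_apply, neg_mul]
    rw [h2]
    exact AddSubgroup.neg_mem _ hx

theorem pol_mul (d k l : ℕ) (f g : (Fin d → Bool) → ℚ) (hf : f ∈ PolQ k) (hg : g ∈ PolQ l) :
    (fun ε => f ε * g ε) ∈ PolQ (d := d) (k + l) := by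
  induction hg using AddSubgroup.closure_induction with
  | mem x hx =>
    obtain ⟨T, a, hT, hx'⟩ := hx
    exact pol_mul_gen d k l f x hf T a hT hx'
  | zero =>
    have h2 : (fun ε : Fin d → Bool => f ε * (0 : (Fin d → Bool) → ℚ) ε) = 0 := by
      funext ε
      simp
    rw [h2]
    exact AddSubgroup.zero_mem _
  | add x y _ _ hx hy =>
    have h2 : (fun ε : Fin d → Bool => f ε * (x + y) ε) =
        (fun ε => f ε * x ε) + fun ε => f ε * y ε := by
      funext ε
      simp only [Pi.add_apply, mul_add]
    rw [h2]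
    exact AddSubgroup.add_mem _ hx hy
  | neg x _ hx =>
    have h2 : (fun ε : Fin d → Bool => f ε * (-x) ε) = -fun ε => f ε * x ε := by
      funext ε
      simp only [Pi.neg_apply, mul_neg]
    rw [h2]
    exact AddSubgroup.neg_mem _ hx

end DPOLaux

open DPOLaux in
theorem t_DPOL : s_DPOL.{u} := by
  refine ⟨?_, fun d k l f g hf hg => pol_mul d k l f g hf hg, ?_, ?_⟩
  · intro 𝔐 𝔔 _ _ θ r W hW d c c' hc hc'
    rw [← polL_succ]
    apply van_mem
    intro e he ε₀
    exact hW _ _ (cub_face θ e he ε₀ c hc) (cub_face θ e he ε₀ c' hc')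
  · intro d k f g s hf hg
    exact LKERDaux.pol_ite (R := ℚ) k s f g hf hg
  · intro d k f hk hf
    exact LKERDaux.altS_pol (R := ℚ) k hk f hf

end Pool.Agent.SUR
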