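import Pool.Agent.SUR.StD
import Pool.Agent.SUR.Bil

/-!
# The Dennis trace at the classes of infinite order: reduction to weights of bounded degree
-/

set_option autoImplicit false

universe u

namespace Pool.Agent.SUR

open Pool.Agent.WhK Finset

namespace DTRaux

theorem isOfFinOrder_congr {G : Type*} [Group G] {a b : G} (h : IsConj a b)
    (ha : IsOfFinOrder a) : IsOfFinOrder b := by
  obtain ⟨c, hc⟩ := isConj_iff.1 h
  rw [isOfFinOrder_iff_pow_eq_one] at ha ⊢
  obtain ⟨n, hn, h1⟩ := ha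
  refine ⟨n, hn, ?_⟩
  rw [← hc, conj_pow, h1, mul_one, mul_inv_cancel]

theorem wt_add {𝔐 K A : Type*} [Monoid 𝔐] [AddCommGroup A] {cl : 𝔐 → K} {k : K} {v v' : A}
    {W W' : 𝔐 → 𝔐 → A} (h : WtAtA cl k v W) (h' : WtAtA cl k v' W') :
    WtAtA cl k (v + v') fun a b => W a b + W' a b := by
  refine ⟨fun a b c => ?_, fun a b hab => ?_, fun a ha => ?_⟩
  · show W a (b * c) + W' a (b * c) = W (a * b) c + W' (a * b) c + (W (c * a) b + W' (c * a) b)
    rw [h.1 a b c, h'.1 a b c]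
    abel
  · by_cases h1 : W a b = 0
    · refine h'.2.1 a b fun h2 => hab ?_
      show W a b + W' a b = 0
      rw [h1, h2, add_zero]
    · exact h.2.1 a b h1
  · show W 1 a + W' 1 a = v + v'
    rw [h.2.2 a ha, h'.2.2 a ha]

theorem deg_add {𝔐 𝔔 A : Type*} [Monoid 𝔐] [Monoid 𝔔] [AddCommGroup A] {θ : 𝔐 →* 𝔔} {r : ℕ}
    {W W' : 𝔐 → 𝔐 → A} (h : DegV θ r W) (h' : DegV θ r W') :
    DegV θ r fun a b => W a b + W' a b := by
  intro c c' hc hc'
  have h1 := h c c' hc hc'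
  have h2 := h' c c' hc hc'
  unfold altS at h1 h2 ⊢
  calc ∑ ε, sgB ε • (W (c ε) (c' ε) + W' (c ε) (c' ε))
      = ∑ ε, sgB ε • W (c ε) (c' ε) + ∑ ε, sgB ε • W' (c ε) (c' ε) := by
        rw [← Finset.sum_add_distrib]
        exact Finset.sum_congr rfl fun ε _ => smul_add _ _ _
    _ = 0 := by rw [h1, h2, add_zero]

/-- the decomposition of `bil` according to the classes -/
theorem bil_atC {𝔐 K A : Type*} [Monoid 𝔐] [AddCommGroup A] (cl : 𝔐 → K) (W : 𝔐 → 𝔐 → A)
    (x y : MonoidAlgebra ℤ 𝔐) (h : ∀ k : K, bil (atC cl k W) x y = 0) : bil W x y = 0 := by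
  classical
  let S : Finset K := (x.coeff.support ×ˢ y.coeff.support).image fun ab => cl (ab.1 * ab.2)
  have h1 : bil W x y = bil (fun a b => ∑ k ∈ S, atC cl k W a b) x y := by
    refine bil_congr _ _ x y fun a ha b hb => ?_
    have hm : cl (a * b) ∈ S :=
      Finset.mem_image.2 ⟨(a, b), Finset.mem_product.2 ⟨ha, hb⟩, rfl⟩
    symm
    rw [Finset.sum_eq_single_of_mem _ hm fun k _ hk => ?_]
    · unfold atC
      rw [if_pos rfl]
    · unfold atC
      rw [if_neg fun h2 => hk h2.symm]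
  rw [h1, bil_fun_sum]
  exact Finset.sum_eq_zero fun k _ => h k

end DTRaux

open DTRaux in
theorem t_DTR (hWE : s_LWE.{u}) (hMONO : s_LMONO.{u}) (hLIFT : s_LLIFT.{u}) (hMM : s_DMM.{u})
    (hPB : s_DPB.{u}) (hZERO : s_DZERO.{u}) (hANT : s_DANT.{u}) (hPSH : s_LPSH.{u, 0}) :
    s_DTR.{u} := by
  intro G _ hE hU F hF hfin n X
  classical
  obtain ⟨M, r, hM, hc⟩ := hWE G hE
  have hr : r ≤ 2 * r + 1 := by omega
  have hc' : CentWt G M (2 * r + 1) := fun m hm g hg => by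
    obtain ⟨v, W, hv, hW, hD⟩ := hc m hm g hg
    exact ⟨v, W, hv, hW, hMONO _ _ _ (th (MM G m)) r (2 * r + 1) W hr hD⟩
  rcases Nat.eq_zero_or_pos n with hn0 | hn
  · subst hn0
    unfold pairF
    exact Finset.sum_of_isEmpty _
  -- the unit and its lifts
  let w : (MonoidAlgebra ℤ (MM G n))ˣ := Units.map (Fhom G n) X
  obtain ⟨x, y, hL⟩ := hLIFT (MM G n) w (2 * r + 2) (Nat.succ_pos _)
  obtain ⟨-, hbil, hsup, hat⟩ := hMM G ℚ F hF n
  have hw1 : Fhom G n X.val = w.val := rfl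
  have hw2 : Fhom G n (X⁻¹ : (Matrix (Fin n) (Fin n) (MonoidAlgebra ℤ G))ˣ).val =
      (w⁻¹ : (MonoidAlgebra ℤ (MM G n))ˣ).val := rfl
  rw [← hbil X, hw1, hw2]
  refine bil_atC MM.cl (FMM F n) _ _ fun k => ?_
  rcases k with _ | C
  · refine bil_eq_zero _ _ _ fun a _ b _ => ?_
    by_contra h
    have h1 : MM.cl (a * b) = none := by
      by_contra h2
      exact h (if_neg h2)
    have h2 : FMM F n a b ≠ 0 := fun h3 => h (by
      unfold atC
      rw [h3, ite_self])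
    obtain ⟨α, β, -, h3⟩ := hsup a b h2
    rw [h1] at h3
    exact absurd h3 (by simp)
  obtain ⟨g, rfl⟩ := ConjClasses.exists_rep C
  by_cases hg : IsOfFinOrder g
  · refine bil_eq_zero _ _ _ fun a _ b _ => ?_
    by_contra h
    have h1 : MM.cl (a * b) = some (ConjClasses.mk g) := by
      by_contra h2
      exact h (if_neg h2)
    have h2 : FMM F n a b ≠ 0 := fun h3 => h (by
      unfold atC
      rw [h3, ite_self])
    obtain ⟨α, β, h4, h3⟩ := hsup a b h2
    rw [h1] at h3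
    have h5 : IsConj g (α * β) := ConjClasses.mk_eq_mk_iff_isConj.1 (Option.some_injective _ h3)
    exact h4 (hfin α β (isOfFinOrder_congr h5 hg))
  · have hinf : ∀ g' : G, ConjClasses.mk g' = ConjClasses.mk g → ¬IsOfFinOrder g' :=
      fun g' h h' => hg (isOfFinOrder_congr (ConjClasses.mk_eq_mk_iff_isConj.1 h) h')
    obtain ⟨v, W, hv, hW, hD⟩ := hc n hn g hg
    have hWz : bil W y x = 0 := hZERO G M (2 * r + 1) hM hc' hU n hn w x y hL
      (ConjClasses.mk g) hinf v W hv hW (hMONO _ _ _ (th (MM G n)) r (2 * r + 1) W hr hD)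
    obtain ⟨q1, q2, q3⟩ := hPB (MM G n) (Option (ConjClasses G)) ℚ
      (atC MM.cl (some (ConjClasses.mk g)) (FMM F n))
    have hP := q1 MM.cl (some (ConjClasses.mk g)) (F 1 g) (hat g)
    have hPD := q2 r
    have hPb := q3 y x
    rw [hL.1, hL.2.1] at hPb
    rw [← hPb]
    set P' : FreeMonoid (MM G n) → FreeMonoid (MM G n) → ℚ := fun a b =>
      atC MM.cl (some (ConjClasses.mk g)) (FMM F n) (th (MM G n) a) (th (MM G n) b) with hP'
    -- the rational weight
    let W' : FreeMonoid (MM G n) → FreeMonoid (MM G n) → ℚ := fun a b =>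
      (ZM M).subtype.toAddMonoidHom (W a b)
    obtain ⟨p1, p2⟩ := hPSH (FreeMonoid (MM G n)) (MM G n) (Option (ConjClasses G)) (ZM M) ℚ
      (th (MM G n)) (ZM M).subtype.toAddMonoidHom W
    have hW' := p2 _ _ _ hW
    have hD' := p1 r hD
    have hWz' : bil W' y x = 0 := by
      show bil (fun a b => (ZM M).subtype.toAddMonoidHom (W a b)) y x = 0
      rw [← map_bil, hWz, map_zero]
    have hv' : (ZM M).subtype.toAddMonoidHom v ≠ 0 := fun h => hv (Subtype.ext h)
    set v' : ℚ := (ZM M).subtype.toAddMonoidHom v with hv'def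
    set v₁ : ℚ := F 1 g with hv₁
    obtain ⟨a1, a2⟩ := hPSH (FreeMonoid (MM G n)) (MM G n) (Option (ConjClasses G)) ℚ ℚ
      (th (MM G n)) (AddMonoidHom.mulLeft v') P'
    obtain ⟨b1, b2⟩ := hPSH (FreeMonoid (MM G n)) (MM G n) (Option (ConjClasses G)) ℚ ℚ
      (th (MM G n)) (AddMonoidHom.mulLeft (-v₁)) W'
    have hUw := wt_add (a2 _ _ _ hP) (b2 _ _ _ hW')
    have hU0 : (AddMonoidHom.mulLeft v') v₁ + (AddMonoidHom.mulLeft (-v₁)) v' = 0 := by
      rw [AddMonoidHom.coe_mulLeft, AddMonoidHom.coe_mulLeft]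
      ring
    rw [hU0] at hUw
    have hUd := deg_add (a1 r hPD) (b1 r hD')
    have h2 := hANT (MM G n) (Option (ConjClasses G)) MM.cl MM.cl_comm (some (ConjClasses.mk g)) v' r
      W' _ hv' hW' hD' hUw hUd w x y hL
    rw [bil_fun_add, ← map_bil, ← map_bil, hWz', map_zero, add_zero, AddMonoidHom.coe_mulLeft] at h2
    exact (mul_eq_zero.1 h2).resolve_left hv'

end Pool.Agent.SUR
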