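import Pool.Agent.SUR.StD
import Pool.Agent.SUR.LLIN

/-!
# DUR: roots in finitely generated linear groups
-/

set_option autoImplicit false

universe u

namespace Pool.Agent.SUR

open Pool.Agent.WhK Finset

open LLINx in
/-- DUR -/
theorem t_DUR (hFG : s_DFG.{u}) (hPW : s_DPW.{u}) : s_DUR.{u} := by
  intro F _ n G G₀ hG₀ x y _ _ _
  obtain ⟨T, hT⟩ := hG₀
  let S : Set F := ⋃ a ∈ T, ents (a : GL (Fin n) F)
  have hS : S.Finite := T.finite_toSet.biUnion fun a _ => ents_finite a.1
  let φ : G₀ →* GL (Fin n) F := G.subtype.comp G₀.subtype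
  have hφ : Function.Injective φ := fun x y h => Subtype.ext (Subtype.ext h)
  have hle : G₀ ≤ (HR n (Subring.closure S)).comap G.subtype := by
    rw [← hT, Subgroup.closure_le]
    intro a ha i j
    have hsub : ents (a : GL (Fin n) F) ⊆ S := fun x hx => Set.mem_biUnion ha hx
    exact ⟨Subring.subset_closure (hsub (Or.inl ⟨(i, j), rfl⟩)),
      Subring.subset_closure (hsub (Or.inr ⟨(i, j), rfl⟩))⟩
  have hmem : ∀ x : G₀, φ x ∈ HR n (Subring.closure S) := fun x => hle x.2
  let ψ : G₀ →* (Matrix (Fin n) (Fin n) (Subring.closure S))ˣ :=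
    (toM (Subring.closure S) φ hmem).toHomUnits
  have hψ : Function.Injective ψ := by
    intro a b hab
    refine toM_injective _ φ hmem hφ ?_
    exact congrArg Units.val hab
  obtain ⟨m, hm, hfin, hinf⟩ := hFG F S hS
  obtain ⟨p₀, hp₀⟩ := hPW (Subring.closure S) m hm hfin hinf n
  by_cases hxy : IsConj x y
  · contradiction
  refine (Set.finite_le_nat p₀).subset ?_
  rintro p ⟨hp, hc⟩
  by_contra hlt
  have hlt' : p₀ < p := by
    simpa using hlt
  obtain ⟨k, hk⟩ := isConj_iff.1 hc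
  refine hxy (isConj_iff.2 ⟨k, hψ (hp₀ p hp hlt' _ _ ?_)⟩)
  rw [← map_pow, ← map_pow, conj_pow, hk]

end Pool.Agent.SUR
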