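import Pool.Agent.SUR.CondG
import Pool.Agent.SUR.CondF

/-!
# Finite quotients and the Dennis trace see only the finite subgroups in the Whitehead group

The Farrell–Jones conjecture predicts that `Wh G ⊗ ℚ` is generated by the images of the groups `Wh H`,
`H ≤ G` finite, and by a part which comes from the groups `K₋₁(ℤ[H])` and has finite order in `Wh Γ` for all
homomorphisms from `G` to finite groups `Γ`. Three consequences are proved here for all subgroups of `GL_n K`, `K` any field, of the
automorphism groups of finitely generated residually torsion-free nilpotent groups, of the outer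
automorphism groups of finitely generated free groups and of the automorphism groups of irreducible affine
varieties with a fixed point over a field of characteristic `0`, and more generally for groups with a
condition on the centralisers.

(a) Let `π : G → Γ` be a homomorphism, `Γ` finite, and `x` in `Wh G`. Then a multiple of `π x` comes from the
finite subgroups of `G`. The same holds for all `Γ` such that a multiple of `π x` comes from the finite
subgroups of `Γ`.

(b) If the elements of finite order of `G` are in finitely many conjugacy classes, then there are one multiple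
of `x` and one element `y` which comes from the finite subgroups of `G` which agree, up to torsion, in all
`Wh Γ`, `Γ` finite. So `Wh G ⊗ ℚ` is the sum of what comes from the finite subgroups and of what cannot be seen
in any finite quotient.

(c) The Dennis trace maps `K₁(ℤ[G])` to `HH₁(ℤ[G])`, whose rationalisation is the direct sum over the
conjugacy classes of `G` of the homology groups `H₁(Z(g); ℚ)` of the centralisers. Only the component at
`g = 1` does not vanish (with a restriction at the elements of finite order). A functional on `HH₁(ℤ[G])` is a
function `F : G → G → ℚ` with `F a (b c) = F (a b) c + F (c a) b` (`IsWtA F`), and its value at the Dennis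
trace of the matrix `X` is `pairF F X`, the sum of the `F (X⁻¹ i j, X j i)`, `F` extended bilinearly. It
factors through the component at `g` if `F a b = 0` for all `a`, `b` such that `a b` is not conjugate to `g`.

The proofs use the integral logarithm for large primes `p`, respectively for a prime `p` which divides
the order of `g`.
-/

set_option autoImplicit false

universe u

namespace Pool.Agent.SUR.DegreeOneReady

open Pool.Agent.WhK (Wh)
open Pool.Agent.SUR (IsWtA pairF LocRep ForGL ForAut ForOut ForDom ForAlg)

/-- the subgroup of `Wh Γ` generated by the images of the Whitehead groups of the finite subgroups of `G` -/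
noncomputable def finWh {G Γ : Type u} [Group G] [Group Γ] (π : G →* Γ) : AddSubgroup (Wh Γ) :=
  AddSubgroup.closure
    {y | ∃ (H : Subgroup G) (_ : Finite H) (z : Wh H), y = Wh.map (π.comp H.subtype) z}

/-- what `G` contributes to `Wh Γ`, for all homomorphisms `π : G → Γ`, comes from the finite subgroups of `G`,
up to multiples, if it comes from the finite subgroups of `Γ` -/
def FromFinite (G : Type u) [Group G] : Prop :=
  ∀ (Γ : Type u) [Group Γ] (π : G →* Γ) (x : Wh G),
    (∃ n : ℕ, 0 < n ∧ n • Wh.map π x ∈ finWh (MonoidHom.id Γ)) →
    ∃ n : ℕ, 0 < n ∧ n • Wh.map π x ∈ finWh π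

/-- if the elements of finite order of `G` are in finitely many conjugacy classes, then for every `x` there are
one multiple of `x` and one `y` which comes from the finite subgroups of `G` which agree, up to torsion, in the
Whitehead groups of all finite groups to which `G` maps -/
def OneForAll (G : Type u) [Group G] : Prop :=
  {K : ConjClasses G | ∃ g : G, IsOfFinOrder g ∧ ConjClasses.mk g = K}.Finite →
  ∀ x : Wh G, ∃ n : ℕ, 0 < n ∧ ∃ y ∈ finWh (MonoidHom.id G),
    ∀ (Γ : Type u) [Group Γ] [Finite Γ] (π : G →* Γ),
      ∃ m : ℕ, 0 < m ∧ m • Wh.map π (n • x - y) = 0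

/-- the condition at elements `g` of finite order: the first homology group of the centraliser of `g` is
finitely generated, or there are a prime divisor `p` of the order of `g` and a `D > 0` such that `p` does not
divide the denominators of the numbers `D * F (z⁻¹ g) z`, `z` in the centraliser of `g` -/
def Bdd {G : Type u} [Group G] (F : G → G → ℚ) (g : G) : Prop :=
  Group.FG (Abelianization (Subgroup.centralizer {g})) ∨
    ∃ p D : ℕ, p.Prime ∧ p ∣ orderOf g ∧ 0 < D ∧
      ∀ z : G, z * g = g * z → ¬p ∣ ((D : ℚ) * F (z⁻¹ * g) z).den

/-- the component at `g` of the Dennis trace vanishes for all `g ≠ 1`, with the condition `Bdd` if `g` has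
finite order -/
def TraceZero (G : Type u) [Group G] : Prop :=
  ∀ (g : G) (F : G → G → ℚ), g ≠ 1 → IsWtA F → (∀ a b, ¬IsConj (a * b) g → F a b = 0) →
    (IsOfFinOrder g → Bdd F g) →
    ∀ (n : ℕ) (X : (Matrix (Fin n) (Fin n) (MonoidAlgebra ℤ G))ˣ), pairF F X = 0

/-- the three properties -/
def Seen (G : Type u) [Group G] : Prop := FromFinite G ∧ OneForAll G ∧ TraceZero G

/-- **Theorem.**
(1) The properties `FromFinite`, `OneForAll` and `TraceZero` hold for all subgroups of: `GL_n K`, `K` any
field; the automorphism group of `N`, `N` any finitely generated residually torsion-free nilpotent group; the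
outer automorphism group of `N`, `N` any finitely generated free group; the group of the automorphisms of `B`
which preserve `ε`, where `ε : B → K` is an augmentation of an algebra of finite type over a field `K` of
characteristic `0` and `B` is a commutative domain or the powers of the kernel of `ε` have the intersection
`0`.
(2) The properties hold for all groups with the property `LocRep`.
(3) If `Γ` is finite, then every element of `Wh Γ` comes from the finite subgroups of `Γ`; so then the
conclusion of `FromFinite` holds for all `x`.
(4) If `G` is torsion free, then what comes from the finite subgroups of `G` has finite order. -/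
theorem result :
    (ForGL.{u} Seen ∧ ForAut.{u} Seen ∧ ForOut.{u} Seen ∧ ForDom.{u} Seen ∧ ForAlg.{u} Seen) ∧
    (∀ (G : Type u) [Group G], LocRep G → Seen G) ∧
    (∀ (Γ : Type u) [Group Γ] [Finite Γ], finWh (MonoidHom.id Γ) = ⊤) ∧
    ∀ (G Γ : Type u) [Group G] [Group Γ] (π : G →* Γ), (∀ g : G, IsOfFinOrder g → g = 1) →
      ∀ y ∈ finWh π, ∃ n : ℕ, 0 < n ∧ n • y = 0 := by
  have key : ∀ (G : Type u) [Group G], Pool.Agent.SUR.LocU G → Seen G := by
    intro G _ hG
    have h1 := Pool.Agent.SUR.surjW_D G fun G₀ h₀ => Or.inr (hG G₀ h₀)
    refine ⟨fun Γ _ π x hx => h1 Γ π x hx, fun hc x => Pool.Agent.SUR.uniform G h1 hc x,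
      fun g F hg1 hF hs hb n X => ?_⟩
    have hs' : ∀ a b, F a b ≠ 0 → IsConj (a * b) g := fun a b h => by
      by_contra h1
      exact h (hs a b h1)
    by_cases hg : IsOfFinOrder g
    · exact Pool.Agent.SUR.trace_fin' G F hF g hg1 hs' hg (hb hg) n X
    · exact Pool.Agent.SUR.trace_inf G hG F hF g hs' hg n X
  refine ⟨⟨fun K _ n G => key G (Pool.Agent.SUR.locU_linear K n G),
    fun N _ hN hR G => key G (Pool.Agent.SUR.locU_aut N hN hR G),
    fun α _ Q _ q hq hker G => key G (Pool.Agent.SUR.locU_out α Q q hq hker G),
    fun K B _ _ _ _ _ ε hft G hG => key G (Pool.Agent.SUR.locU_alg K B ε hft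
      (Pool.Agent.SUR.t_VDOM K B ε hft) G hG),
    fun K B _ _ _ _ ε hft h G hG => key G (Pool.Agent.SUR.locU_alg K B ε hft h G hG)⟩,
    fun G _ hG => key G (Pool.Agent.SUR.locU_of_locRep G hG), fun Γ _ _ => ?_,
    Pool.Agent.SUR.t_FINITE.2⟩
  rw [eq_top_iff]
  exact fun y _ => Pool.Agent.SUR.t_FINITE.1 Γ y

end Pool.Agent.SUR.DegreeOneReady
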