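import Pool.Agent.SUR.StA
import Pool.Agent.SUR.EIGG

/-!
# EIGH: the determinant on a generalised eigenspace, for one element

No power of the element is unipotent; see `Pool/Agent/SUR/EIGG.lean`.
-/

set_option autoImplicit false

universe u

namespace Pool.Agent.SUR

open Pool.Agent.WhK

open EIG_aux EIGG_aux in
/-- EIGH -/
theorem t_EIGH : s_EIGH.{u} := by
  intro F _ n G₀ hfg g hun
  classical
  let L : Type u := AlgebraicClosure F
  let M : Matrix (Fin n) (Fin n) L := (g.1 : Matrix (Fin n) (Fin n) F).map (algebraMap F L)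
  -- an eigenvalue which is not a root of unity
  obtain ⟨t, ht, hroot⟩ : ∃ t ∈ M.charpoly.roots, ∀ k : ℕ, 0 < k → t ^ k ≠ 1 := by
    by_contra hcon
    push Not at hcon
    obtain ⟨k, hk, hMk⟩ := unipotent n M hcon
    have hinj : Function.Injective (fun A : Matrix (Fin n) (Fin n) F => A.map (algebraMap F L)) :=
      Matrix.map_injective (algebraMap F L).injective
    have h1 : ((((g.1 : Matrix (Fin n) (Fin n) F) ^ k) - 1) ^ n) = 0 := by
      apply hinj
      change (algebraMap F L).mapMatrix ((((g.1 : Matrix (Fin n) (Fin n) F) ^ k) - 1) ^ n) =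
        (algebraMap F L).mapMatrix 0
      rw [map_pow, map_sub, map_pow, map_one, map_zero]
      exact hMk
    exact hun k hk ⟨n, h1⟩
  obtain ⟨T, hT⟩ := hfg
  let S0 : Set L := {t} ∪ ⋃ a ∈ T, ent L a
  have hS0 : S0.Finite :=
    (Set.finite_singleton t).union (T.finite_toSet.biUnion fun a _ => ent_finite a)
  let E0 : Subfield L := Subfield.closure S0
  have hG : G₀ ≤ HE E0 := by
    rw [← hT, Subgroup.closure_le]
    intro a ha
    have hsub : ent L a ⊆ S0 := fun x hx => Or.inr (Set.mem_biUnion ha hx)
    exact ⟨fun i j => Subfield.subset_closure (hsub (Or.inl ⟨(i, j), rfl⟩)),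
      fun i j => Subfield.subset_closure (hsub (Or.inr ⟨(i, j), rfl⟩))⟩
  have htE : t ∈ E0 := Subfield.subset_closure (Or.inl rfl)
  let tE : E0 := ⟨t, htE⟩
  let rep : G₀ →* Module.End E0 (Fin n → E0) :=
    (Matrix.toLinAlgEquiv' : Matrix (Fin n) (Fin n) E0 ≃ₐ[E0] _).toMulEquiv.toMonoidHom.comp
      (jm E0 G₀ hG)
  have hrep : ∀ z, rep z = Matrix.toLin' (jm E0 G₀ hG z) := fun z => rfl
  -- `tE` is an eigenvalue
  have hroot2 : (jm E0 G₀ hG g).charpoly.IsRoot tE := by
    have h1 := (Polynomial.mem_roots'.1 ht).2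
    have h2 : M.charpoly = ((jm E0 G₀ hG g).charpoly).map E0.subtype := by
      rw [← Matrix.charpoly_map]
      rfl
    rw [h2, Polynomial.IsRoot.def, Polynomial.eval_map] at h1
    have h3 : Polynomial.eval₂ E0.subtype (E0.subtype tE) (jm E0 G₀ hG g).charpoly = 0 := h1
    rw [Polynomial.eval₂_at_apply] at h3
    rw [Polynomial.IsRoot.def]
    exact (map_eq_zero_iff _ E0.subtype.injective).1 h3
  have heig : Module.End.HasEigenvalue (rep g) tE := by
    rw [Module.End.hasEigenvalue_iff_isRoot_charpoly, hrep, Matrix.charpoly_toLin']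
    exact hroot2
  let V : Submodule E0 (Fin n → E0) := (rep g).maxGenEigenspace tE
  have hV : V ≠ ⊥ := by
    intro h0
    refine heig ?_
    rw [eq_bot_iff, ← h0]
    exact Module.End.genEigenspace_le_maximal _ _ _
  have hcomm : ∀ z : Subgroup.centralizer {g}, Commute (rep g) (rep z.1) := by
    intro z
    have h1 : Commute g z.1 := (Subgroup.mem_centralizer_singleton_iff.1 z.2).symm
    exact h1.map rep
  have hmaps : ∀ z : Subgroup.centralizer {g}, ∀ v ∈ V, rep z.1 v ∈ V := fun z v hv =>
    Module.End.mapsTo_maxGenEigenspace_of_comm (hcomm z) tE hv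
  let dV : Subgroup.centralizer {g} →* E0 :=
    { toFun := fun z => LinearMap.det ((rep z.1).restrict (hmaps z))
      map_one' := by
        have h1 : (rep (1 : Subgroup.centralizer {g}).1).restrict (hmaps 1) =
            (LinearMap.id : V →ₗ[E0] V) := by
          ext1 v
          apply Subtype.ext
          change rep 1 (v : Fin n → E0) = v
          rw [map_one]
          rfl
        rw [h1]
        exact LinearMap.det_id
      map_mul' := by
        intro a b
        rw [← LinearMap.det_comp]
        congr 1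
        ext1 v
        apply Subtype.ext
        change rep (a.1 * b.1) (v : Fin n → E0) = rep a.1 (rep b.1 v)
        rw [map_mul]
        rfl }
  have hdet : dV ⟨g, Subgroup.mem_centralizer_singleton_iff.2 rfl⟩ = tE ^ Module.finrank E0 V := by
    have hN := Module.End.isNilpotent_restrict_maxGenEigenspace_sub_algebraMap (rep g) tE
    rw [← det_add_nil tE _ hN]
    change LinearMap.det _ = _
    congr 1
    ext1 v
    apply Subtype.ext
    change rep g (v : Fin n → E0) = tE • (v : Fin n → E0) + (rep g v - tE • (v : Fin n → E0))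
    abel
  have hpos : 0 < Module.finrank E0 V := by
    rw [Module.finrank_pos_iff]
    exact Submodule.nontrivial_iff_ne_bot.2 hV
  refine ⟨E0, inferInstance, (fun x : E0 => (x : L)) ⁻¹' S0,
    hS0.preimage Subtype.val_injective.injOn, closure_top S0, dV.toHomUnits, ?_⟩
  intro hfin
  obtain ⟨m, hm, h1⟩ := isOfFinOrder_iff_pow_eq_one.1 hfin
  have h2 := congrArg (fun x : E0ˣ => (x : E0)) h1
  simp only [Units.val_pow_eq_pow_val, MonoidHom.coe_toHomUnits, Units.val_one] at h2
  rw [hdet, ← pow_mul] at h2
  apply hroot (Module.finrank E0 V * m) (Nat.mul_pos hpos hm)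
  have h3 := congrArg (fun x : E0 => (x : L)) h2
  simpa using h3

end Pool.Agent.SUR
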