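import Pool.Agent.SUR.St

/-!
# SUR_END: elements of the colimit whose logarithm vanishes outside of `P`
-/

set_option autoImplicit false

universe u

namespace Pool.Agent.SUR

open Pool.Agent.WhK

namespace ENDx

variable {Q : Type u} [Group Q]

/-- the subgroup generated by the cyclic subgroups contained in `P` -/
noncomputable def BP (P : Q → Prop) : AddSubgroup (ColimK1 Q) :=
  AddSubgroup.closure
    {x | ∃ (C : Cyc Q) (w : (MonoidAlgebra ℤ C.1)ˣ), (∀ c ∈ C.1, P c) ∧ x = ColimK1.mk C w}

theorem Lmap_BP {p : ℕ} [Fact p.Prime] (hp : p ≠ 2) {P : Q → Prop}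
    (hconj : ∀ c d, IsConj c d → P c → P d) (k m : ℕ) {c : Q} (hc : ¬P c) :
    ∀ b ∈ BP P, Lmap Q k p m hp b (some (ConjClasses.mk c)) = 0 := by
  intro b hb
  unfold BP at hb
  induction hb using AddSubgroup.closure_induction with
  | mem x hx =>
    obtain ⟨C, w, hC, rfl⟩ := hx
    rw [Lmap_mk]
    refine Finsupp.mapDomain_notin_range _ _ ?_
    rintro ⟨d, hd⟩
    exact hc (hconj _ _ (ConjClasses.mk_eq_mk_iff_isConj.1 hd) (hC d d.2))
  | zero => rw [map_zero, Finsupp.zero_apply]
  | add x y _ _ hx hy => rw [map_add, Finsupp.add_apply, hx, hy, add_zero]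
  | neg x _ hx => rw [map_neg, Finsupp.neg_apply, hx, neg_zero]

theorem aux {p : ℕ} [Fact p.Prime] (hp : p ≠ 2) {P : Q → Prop}
    (hconj : ∀ c d, IsConj c d → P c → P d) (hpow : ∀ c (i : ℕ), P c → P (c ^ i)) (k r : ℕ) :
    ∀ x ∈ Alow Q p r, (∀ m c, ¬P c → Lmap Q k p m hp x (some (ConjClasses.mk c)) = 0) →
      ∃ n : ℕ, 0 < n ∧ n • x ∈ BP P := by
  induction r with
  | zero =>
    intro x hx _
    have : Alow Q p 0 = ⊥ := by
      rw [eq_bot_iff]
      refine (AddSubgroup.closure_le _).2 ?_
      rintro y ⟨C, u, h, -, -⟩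
      exact absurd h (Nat.not_lt_zero _)
    rw [this] at hx
    exact ⟨1, Nat.one_pos, by
      rw [(AddSubgroup.mem_bot).1 hx, smul_zero]; exact AddSubgroup.zero_mem _⟩
  | succ r ih =>
    intro x hx hL
    obtain ⟨S, w, h1, -, hxS⟩ := exists_rep hx
    have hq : ∀ q ∈ S, ∃ K : ℕ, 0 < K ∧ K • ColimK1.mk q.out (w q) ∈ Alow Q p r ⊔ BP P := by
      intro q hqS
      rcases (Nat.lt_succ_iff.1 (h1 q hqS).1).lt_or_eq with hlt | heq
      · exact ⟨1, Nat.one_pos, by
          rw [one_smul]
          exact (le_sup_left : Alow Q p r ≤ Alow Q p r ⊔ BP P)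
            (AddSubgroup.subset_closure ⟨q.out, w q, hlt, (h1 q hqS).2, rfl⟩)⟩
      · by_cases hP : ∀ c ∈ q.out.1, P c
        · exact ⟨1, Nat.one_pos, by
            rw [one_smul]
            exact (le_sup_right : BP P ≤ Alow Q p r ⊔ BP P)
              (AddSubgroup.subset_closure ⟨q.out, w q, hP, rfl⟩)⟩
        · push Not at hP
          obtain ⟨c₀, hc₀, hPc₀⟩ := hP
          haveI := q.out.fin
          have hms : ∃ K : ℕ, 0 < K ∧ K • ColimK1.mk q.out (w q) ∈
              Alow Q p (Nat.card q.out.1) := by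
            refine main_step hp q.out (h1 q hqS).2 (w q) fun m c hc => ?_
            have hPc : ¬P (c : Q) := by
              intro h
              apply hPc₀
              have h3 : (⟨c₀, hc₀⟩ : q.out.1) ∈ Subgroup.zpowers c := by rw [hc]; trivial
              rw [← mem_powers_iff_mem_zpowers] at h3
              obtain ⟨i, hi⟩ := h3
              have h4 : (c : Q) ^ i = c₀ := congrArg Subtype.val hi
              rw [← h4]
              exact hpow _ i h
            have h2 := hL m (c : Q) hPc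
            rw [hxS, map_sum, Finsupp.finsetSum_apply, Finset.sum_eq_single q, Lmap_mk] at h2
            · exact h2
            · intro q' hq' hne
              rw [Lmap_mk]
              exact other_term q q' hne ((Nat.lt_succ_iff.1 (h1 q' hq').1).trans heq.ge) c hc _
            · exact fun h => absurd hqS h
          obtain ⟨K, hK, hmem⟩ := hms
          rw [heq] at hmem
          exact ⟨K, hK, (le_sup_left : Alow Q p r ≤ Alow Q p r ⊔ BP P) hmem⟩
    obtain ⟨K, hK, hKx⟩ := exists_nsmul_sum_mem (Alow Q p r ⊔ BP P) S _ hq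
    rw [← hxS] at hKx
    obtain ⟨y, hy, b, hb, hyb⟩ := AddSubgroup.mem_sup.1 hKx
    obtain ⟨n, hn, h3⟩ := ih y hy fun m c hc => by
      have e : y = K • x - b := by rw [← hyb, add_sub_cancel_right]
      rw [e, map_sub, map_nsmul, Finsupp.sub_apply, Finsupp.smul_apply, hL m c hc, smul_zero,
        Lmap_BP hp hconj k m hc b hb, sub_zero]
    refine ⟨n * K, Nat.mul_pos hn hK, ?_⟩
    rw [mul_smul, ← hyb, smul_add]
    exact AddSubgroup.add_mem _ h3 (AddSubgroup.nsmul_mem _ hb n)

theorem mem_Alow [Finite Q] {p : ℕ} (hQ : Nat.card Q ∣ p - 1) (x : ColimK1 Q) :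
    x ∈ Alow Q p (Nat.card Q + 1) := by
  induction x using QuotientAddGroup.induction_on with
  | H z =>
    induction z using FreeAbelianGroup.induction_on with
    | zero => exact AddSubgroup.zero_mem _
    | of x =>
      have h1 : Nat.card x.1.1 ∣ Nat.card Q := Subgroup.card_subgroup_dvd_card x.1.1
      exact AddSubgroup.subset_closure ⟨x.1, x.2,
        Nat.lt_succ_of_le (Nat.le_of_dvd Nat.card_pos h1), h1.trans hQ, rfl⟩
    | neg x hx => exact AddSubgroup.neg_mem _ hx
    | add x y hx hy => exact AddSubgroup.add_mem _ hx hy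

end ENDx

theorem t_END : s_END.{u} := by
  intro Q _ _ p _ hp hQ P hconj hpow k ξ hL
  exact ENDx.aux hp hconj hpow k _ ξ (ENDx.mem_Alow hQ ξ) hL

end Pool.Agent.SUR
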