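import Pool.Agent.SUR.St5
import Pool.Agent.SUR.END

/-!
# SUR_ENG: elements of the colimit whose logarithm vanishes outside of `P`, arbitrary groups
-/

set_option autoImplicit false

universe u

namespace Pool.Agent.SUR

open Pool.Agent.WhK

namespace ENGx

open ENDx

variable {Q : Type u} [Group Q]

theorem aux {p : ℕ} [Fact p.Prime] (hp : p ≠ 2) {P : Q → Prop}
    (hconj : ∀ c d, IsConj c d → P c → P d) (hpow : ∀ c (i : ℕ), P c → P (c ^ i)) (k r : ℕ) :
    ∀ x ∈ Alow Q p r,
      (∀ m c, IsOfFinOrder c → ¬P c → Lmap Q k p m hp x (some (ConjClasses.mk c)) = 0) →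
      ∃ n : ℕ, 0 < n ∧ n • x ∈ BP P := by
  induction r with
  | zero =>
    intro x hx _
    have : Alow Q p 0 = ⊥ := by
      rw [eq_bot_iff]
      refine (AddSubgroup.closure_le _).2 ?_
      rintro y ⟨C, u, h, -, -⟩
      exact absurd h (Nat.not_lt_zero _)
    rw [this] at hx
    exact ⟨1, Nat.one_pos, by
      rw [(AddSubgroup.mem_bot).1 hx, smul_zero]; exact AddSubgroup.zero_mem _⟩
  | succ r ih =>
    intro x hx hL
    obtain ⟨S, w, h1, -, hxS⟩ := exists_rep hx
    have hq : ∀ q ∈ S, ∃ K : ℕ, 0 < K ∧ K • ColimK1.mk q.out (w q) ∈ Alow Q p r ⊔ BP P := by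
      intro q hqS
      rcases (Nat.lt_succ_iff.1 (h1 q hqS).1).lt_or_eq with hlt | heq
      · exact ⟨1, Nat.one_pos, by
          rw [one_smul]
          exact (le_sup_left : Alow Q p r ≤ Alow Q p r ⊔ BP P)
            (AddSubgroup.subset_closure ⟨q.out, w q, hlt, (h1 q hqS).2, rfl⟩)⟩
      · by_cases hP : ∀ c ∈ q.out.1, P c
        · exact ⟨1, Nat.one_pos, by
            rw [one_smul]
            exact (le_sup_right : BP P ≤ Alow Q p r ⊔ BP P)
              (AddSubgroup.subset_closure ⟨q.out, w q, hP, rfl⟩)⟩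
        · push Not at hP
          obtain ⟨c₀, hc₀, hPc₀⟩ := hP
          haveI := q.out.fin
          have hms : ∃ K : ℕ, 0 < K ∧ K • ColimK1.mk q.out (w q) ∈
              Alow Q p (Nat.card q.out.1) := by
            refine main_step hp q.out (h1 q hqS).2 (w q) fun m c hc => ?_
            have hPc : ¬P (c : Q) := by
              intro h
              apply hPc₀
              have h3 : (⟨c₀, hc₀⟩ : q.out.1) ∈ Subgroup.zpowers c := by rw [hc]; trivial
              rw [← mem_powers_iff_mem_zpowers] at h3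
              obtain ⟨i, hi⟩ := h3
              have h4 : (c : Q) ^ i = c₀ := congrArg Subtype.val hi
              rw [← h4]
              exact hpow _ i h
            have hfc : IsOfFinOrder (c : Q) :=
              (q.out.1).subtype.isOfFinOrder (isOfFinOrder_of_finite c)
            have h2 := hL m (c : Q) hfc hPc
            rw [hxS, map_sum, Finsupp.finsetSum_apply, Finset.sum_eq_single q, Lmap_mk] at h2
            · exact h2
            · intro q' hq' hne
              rw [Lmap_mk]
              exact other_term q q' hne ((Nat.lt_succ_iff.1 (h1 q' hq').1).trans heq.ge) c hc _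
            · exact fun h => absurd hqS h
          obtain ⟨K, hK, hmem⟩ := hms
          rw [heq] at hmem
          exact ⟨K, hK, (le_sup_left : Alow Q p r ≤ Alow Q p r ⊔ BP P) hmem⟩
    obtain ⟨K, hK, hKx⟩ := exists_nsmul_sum_mem (Alow Q p r ⊔ BP P) S _ hq
    rw [← hxS] at hKx
    obtain ⟨y, hy, b, hb, hyb⟩ := AddSubgroup.mem_sup.1 hKx
    obtain ⟨n, hn, h3⟩ := ih y hy fun m c hfc hc => by
      have e : y = K • x - b := by rw [← hyb, add_sub_cancel_right]
      rw [e, map_sub, map_nsmul, Finsupp.sub_apply, Finsupp.smul_apply, hL m c hfc hc, smul_zero,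
        Lmap_BP hp hconj k m hc b hb, sub_zero]
    refine ⟨n * K, Nat.mul_pos hn hK, ?_⟩
    rw [mul_smul, ← hyb, smul_add]
    exact AddSubgroup.add_mem _ h3 (AddSubgroup.nsmul_mem _ hb n)

end ENGx

theorem t_ENG : s_ENG.{u} := by
  intro Γ _ p _ hp P hconj hpow k r ξ hξ hL
  exact ENGx.aux hp hconj hpow k r ξ hξ hL

end Pool.Agent.SUR
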