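import Pool.Agent.SUR.St6
import Pool.Agent.SUR.FINC

/-!
# Module FINW: the last step modulo trivial units
-/

set_option autoImplicit false

universe u

namespace Pool.Agent.SUR

open Pool.Agent.WhK

open FINCx in
theorem t_FINW (hENG : s_ENG.{u}) (hKCW : s_KCW.{u}) (hLIF : s_LIF.{u}) (hNTG : s_NTG.{u}) :
    s_FINW.{u} := by
  intro G _ hG Γ _ π x hx
  obtain ⟨n, X, rfl⟩ := K1.exists_mk x
  rw [K1.map_mk] at hx ⊢
  obtain ⟨n0, ξ, k, hk, hn0, hξ, hL⟩ := hKCW Γ n (GLn.map (ringMap π) n X) hx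
  have hst : stabGL (MonoidAlgebra ℤ Γ) n (k + 1) hk (GLn.map (ringMap π) n X) =
      GLn.map (ringMap π) (k + 1) (stabGL (MonoidAlgebra ℤ G) n (k + 1) hk X) :=
    Units.ext (stabMat_map (ringMap π) n (k + 1) X.val)
  let X' : (Matrix (Fin (k + 1)) (Fin (k + 1)) (MonoidAlgebra ℤ G))ˣ :=
    stabGL (MonoidAlgebra ℤ G) n (k + 1) hk X
  obtain ⟨N, hN, hA⟩ := exists_mem_Alow ξ
  obtain ⟨p, hp, hp2, hdvd, D, hD, hvan⟩ := hG (k + 1) k.succ_pos
    (Units.map (Fhom G (k + 1)) X') Γ π N hN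
  obtain ⟨n1, hn1, hmem⟩ := hENG Γ p hp2 (PP π) (PP_conj π) (PP_pow π) k (N + 1) (D • ξ)
    (AddSubgroup.nsmul_mem _ (hA p hdvd) D) (by
    intro m c hcf hc
    rw [map_nsmul, Finsupp.smul_apply, hL p m hp2, hst, hNTG G Γ π (k + 1) p m hp2]
    have h1 := hvan m c hcf fun g hgc hg => hc ⟨g, hg, hgc⟩
    rw [smul_comm]
    have h2 : D • (Finsupp.mapDomain (Option.map (ConjClasses.map π))
        (GamGL G (k + 1) p m hp2 (stabGL (MonoidAlgebra ℤ G) n (k + 1) hk X)).toAdd)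
          (some (ConjClasses.mk c)) = 0 := h1
    rw [h2, smul_zero])
  have h3 := lift_mem_sat hLIF π _ hmem
  rw [map_nsmul, map_nsmul] at h3
  obtain ⟨M, hM, h4⟩ := h3
  refine ⟨M * (n1 * (D * n0)), by positivity, ?_⟩
  rw [mul_smul, mul_smul, mul_smul]
  have h5 : n0 • K1.mk n (GLn.map (ringMap π) n X) =
      liftColim (K1.unitHom (MonoidAlgebra ℤ Γ)) ξ +
        (n0 • K1.mk n (GLn.map (ringMap π) n X) -
          liftColim (K1.unitHom (MonoidAlgebra ℤ Γ)) ξ) := by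
    rw [add_sub_cancel]
  rw [h5]
  simp only [smul_add]
  refine AddSubgroup.add_mem _ ?_ ?_
  · exact (le_sup_left : FinPartOf π ≤ FinPartOf π ⊔ trivUnits Γ) h4
  · exact (le_sup_right : trivUnits Γ ≤ FinPartOf π ⊔ trivUnits Γ)
      (AddSubgroup.nsmul_mem _ (AddSubgroup.nsmul_mem _ (AddSubgroup.nsmul_mem _ hξ D) n1) M)

end Pool.Agent.SUR
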