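import Pool.Agent.SUR.St6
import Pool.Agent.SUR.KCG

/-!
# Project SUR, module KCW: from `K₁(ℤ[Γ])` modulo trivial units to the colimit
-/

set_option autoImplicit false

universe u

namespace Pool.Agent.SUR

open Pool.Agent.WhK

namespace KCWx

variable {Γ : Type u} [Group Γ]

/-- The trivial units are the classes of the elements of `Wtriv`. -/
theorem triv_le : trivUnits Γ ≤
    AddSubgroup.map (K1.unitHom (MonoidAlgebra ℤ Γ)).toAdditiveLeft (Wtriv Γ).toAddSubgroup := by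
  unfold trivUnits
  rw [AddSubgroup.closure_le]
  rintro y ⟨g, rfl | rfl⟩
  · exact ⟨Additive.ofMul (gUnit g), mem_Wtriv_of_zpowers g true, rfl⟩
  · exact ⟨Additive.ofMul (-gUnit g), mem_Wtriv_of_zpowers g false, rfl⟩

end KCWx

theorem t_KCW : s_KCW.{u} := by
  rintro Q _ n X ⟨n1, hn1, hX1⟩
  obtain ⟨a, ha, b, hb, hab⟩ := AddSubgroup.mem_sup.1 hX1
  obtain ⟨n2, hn2, ξ, hξ2⟩ := KCGx.finPart_le ha
  have hb2 : n2 • b ∈ trivUnits Q := (trivUnits Q).nsmul_mem hb n2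
  obtain ⟨w, hw, hbw⟩ := KCWx.triv_le hb2
  have hbw2 : K1.ofUnit w.toMul = n2 • b := hbw
  obtain ⟨n0, hn0, hξ⟩ : ∃ n0 : ℕ, 0 < n0 ∧
      n0 • K1.mk n X = liftColim (K1.unitHom (MonoidAlgebra ℤ Q)) ξ + n2 • b :=
    ⟨n2 * n1, Nat.mul_pos hn2 hn1, by rw [hξ2, mul_smul, ← hab, smul_add]⟩
  obtain ⟨v, hv⟩ := exists_total ξ
  have h1 : K1.ofUnit (v * w.toMul) = K1.mk n (X ^ n0) := by
    rw [KCOx.mk_pow, hξ, hv (K1 (MonoidAlgebra ℤ Q)) (K1.unitHom (MonoidAlgebra ℤ Q)),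
      K1.ofUnit_mul, hbw2]
    rfl
  set V : GLn (MonoidAlgebra ℤ Q) 1 :=
    Units.map (Matrix.scalar (Fin 1)).toMonoidHom (v * w.toMul) with hV
  have h2 : K1.mk 1 V = K1.mk n (X ^ n0) := h1
  set Z : GLn (MonoidAlgebra ℤ Q) (max n 1) :=
    stabGL (MonoidAlgebra ℤ Q) n (max n 1) (le_max_left n 1) (X ^ n0) *
      (stabGL (MonoidAlgebra ℤ Q) 1 (max n 1) (le_max_right n 1) V)⁻¹ with hZ
  have h3 : K1.mk (max n 1) Z = 0 := by
    rw [hZ, K1.mk_mul, KCOx.mk_inv, K1.mk_stab, K1.mk_stab, h2, add_neg_cancel]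
  obtain ⟨k, hk, hk0, hc⟩ := exists_stab_mem_commutator h3
  obtain ⟨k, rfl⟩ : ∃ k', k = k' + 1 := ⟨k - 1, by omega⟩
  have hnk : n ≤ k + 1 := (le_max_left n 1).trans hk
  have h1k : 1 ≤ k + 1 := (le_max_right n 1).trans hk
  refine ⟨n0, ξ, k, hnk, hn0, ?_, fun p m _ hp κ => ?_⟩
  · rw [hξ, add_sub_cancel_left]
    exact hb2
  have e1 : stabGL (MonoidAlgebra ℤ Q) (max n 1) (k + 1) hk Z =
      stabGL (MonoidAlgebra ℤ Q) n (k + 1) hnk X ^ n0 *
        (stabGL (MonoidAlgebra ℤ Q) 1 (k + 1) h1k V)⁻¹ := by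
    rw [hZ, map_mul, map_inv, ← map_pow]
    congr 1
    · exact Units.ext (stabMat_stabMat (MonoidAlgebra ℤ Q) (le_max_left n 1) (X ^ n0).val)
    · congr 1
      exact Units.ext (stabMat_stabMat (MonoidAlgebra ℤ Q) (le_max_right n 1) V.val)
  have e2 : stabGL (MonoidAlgebra ℤ Q) 1 (k + 1) h1k V =
      (Units.map (dg (G := Q) (0 : Fin (k + 1))) (v * w.toMul) :
        (Matrix (Fin (k + 1)) (Fin (k + 1)) (MonoidAlgebra ℤ Q))ˣ) :=
    stabGL_scalar k h1k (v * w.toMul)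
  let g : GLn (MonoidAlgebra ℤ Q) (k + 1) →*
    Multiplicative (Option (ConjClasses Q) →₀ ZMod (p ^ (m + 1))) := GamGL Q (k + 1) p m hp
  have h4 : g (stabGL (MonoidAlgebra ℤ Q) (max n 1) (k + 1) hk Z) = 1 :=
    Abelianization.commutator_subset_ker g hc
  rw [e1, map_mul, map_pow, map_inv, mul_inv_eq_one] at h4
  have h5 : (g (stabGL (MonoidAlgebra ℤ Q) 1 (k + 1) h1k V)).toAdd (some κ) =
      n0 • (g (stabGL (MonoidAlgebra ℤ Q) n (k + 1) hnk X)).toAdd (some κ) := by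
    rw [← h4, toAdd_pow, Finsupp.smul_apply]
  show liftColim ((GamGL Q (k + 1) p m hp).comp (Units.map (dg 0))) ξ (some κ) = _
  rw [hv]
  have h6 : (g (Units.map (dg (G := Q) (0 : Fin (k + 1))) w.toMul)).toAdd (some κ) = 0 :=
    hw k p m hp κ
  have h7 : g (Units.map (dg (G := Q) (0 : Fin (k + 1))) (v * w.toMul)) =
      g (Units.map (dg (G := Q) (0 : Fin (k + 1))) v) *
        g (Units.map (dg (G := Q) (0 : Fin (k + 1))) w.toMul) := by
    have h8 : (Units.map (dg (G := Q) (0 : Fin (k + 1))) (v * w.toMul) :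
        (Matrix (Fin (k + 1)) (Fin (k + 1)) (MonoidAlgebra ℤ Q))ˣ) =
        Units.map (dg (G := Q) (0 : Fin (k + 1))) v *
          Units.map (dg (G := Q) (0 : Fin (k + 1))) w.toMul := map_mul _ _ _
    exact (congrArg g h8).trans (map_mul g _ _)
  rw [e2] at h5
  rw [h7, toAdd_mul, Finsupp.add_apply, h6, add_zero] at h5
  exact h5

end Pool.Agent.SUR
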