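import Pool.Agent.SUR.St6
import Pool.Agent.SUR.LOC

/-!
# LOCT: the theorem modulo trivial units passes to direct limits
-/

set_option autoImplicit false

universe u

namespace Pool.Agent.SUR

open Pool.Agent.WhK

theorem LOCT.le {G Γ : Type u} [Group G] [Group Γ] (G₀ : Subgroup G) (π : G →* Γ) :
    FinPartOf (π.comp G₀.subtype) ≤ FinPartOf π := by
  unfold FinPartOf
  rw [AddSubgroup.closure_le]
  rintro y ⟨H, hH, z, rfl⟩
  refine AddSubgroup.subset_closure ?_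
  let e : H ≃* H.map G₀.subtype := Subgroup.equivMapOfInjective H G₀.subtype G₀.subtype_injective
  refine ⟨H.map G₀.subtype, Finite.of_equiv _ e.toEquiv, K1.map (ringMap e.toMonoidHom) z, ?_⟩
  rw [K1.map_comp, ringMap_comp]
  rfl

theorem t_LOCT : s_LOCT := by
  intro G _ h Γ _ π x hx
  obtain ⟨n, X, rfl⟩ := K1.exists_mk x
  obtain ⟨G₀, hG₀, X₀, rfl⟩ := LOC.lift n X
  have e1 : K1.map (ringMap π) (K1.mk n (GLn.map (ringMap G₀.subtype) n X₀)) =
      K1.map (ringMap (π.comp G₀.subtype)) (K1.mk n X₀) := by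
    rw [← K1.map_mk, K1.map_comp, ringMap_comp]
  rw [e1] at hx ⊢
  obtain ⟨k, hk, hmem⟩ := h G₀ hG₀ Γ (π.comp G₀.subtype) (K1.mk n X₀) hx
  exact ⟨k, hk, (sup_le_sup_right (LOCT.le G₀ π) _) hmem⟩

end Pool.Agent.SUR
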