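import Pool.Agent.SUR.St6

/-!
# From `K₁` modulo trivial units to Whitehead groups
-/

set_option autoImplicit false

universe u

namespace Pool.Agent.SUR

open Pool.Agent.WhK

/-- the projection `K₁(ℤ[Γ]) → Wh Γ` as a homomorphism -/
noncomputable def mkH (Γ : Type u) [Group Γ] : K1 (MonoidAlgebra ℤ Γ) →+ Wh Γ :=
  QuotientAddGroup.mk' (trivUnits Γ)

theorem mkH_apply {Γ : Type u} [Group Γ] (x : K1 (MonoidAlgebra ℤ Γ)) :
    mkH Γ x = Wh.mk x := rfl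

theorem mkH_ker (Γ : Type u) [Group Γ] : (mkH Γ).ker = trivUnits Γ :=
  QuotientAddGroup.ker_mk' (trivUnits Γ)

/-- membership in the subgroup generated by images of finite groups, in `K₁` and in `Wh` -/
theorem mem_wh_iff {Γ : Type u} [Group Γ] (S : Set (K1 (MonoidAlgebra ℤ Γ))) (T : Set (Wh Γ))
    (h : mkH Γ '' S = T) (x : K1 (MonoidAlgebra ℤ Γ)) :
    Wh.mk x ∈ AddSubgroup.closure T ↔ x ∈ AddSubgroup.closure S ⊔ trivUnits Γ := by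
  rw [← h, ← AddMonoidHom.map_closure, ← mkH_ker Γ, ← AddSubgroup.comap_map_eq,
    AddSubgroup.mem_comap, mkH_apply]

theorem t_WHT : s_WHT.{u} := by
  intro G _ hG Γ _ π x hx
  obtain ⟨y, rfl⟩ := Wh.exists_mk x
  obtain ⟨n, hn, hx⟩ := hx
  have e1 : ∀ n : ℕ, n • Wh.map π (Wh.mk y) = Wh.mk (n • K1.map (ringMap π) y) := by
    intro n
    rw [Wh.map_mk, ← mkH_apply, ← mkH_apply, map_nsmul]
  rw [e1] at hx
  have e2 := (mem_wh_iff (Γ := Γ)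
    {y | ∃ (H : Subgroup Γ) (_ : Finite H) (z : K1 (MonoidAlgebra ℤ H)),
      y = K1.map (ringMap H.subtype) z}
    {y | ∃ (H : Subgroup Γ) (_ : Finite H) (z : Wh H), y = Wh.map H.subtype z} (by
      ext w
      constructor
      · rintro ⟨_, ⟨H, hH, z, rfl⟩, rfl⟩
        exact ⟨H, hH, Wh.mk z, rfl⟩
      · rintro ⟨H, hH, z, rfl⟩
        obtain ⟨z, rfl⟩ := Wh.exists_mk z
        exact ⟨_, ⟨H, hH, z, rfl⟩, rfl⟩) (n • K1.map (ringMap π) y)).1 hx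
  obtain ⟨m, hm, h⟩ := hG Γ π y ⟨n, hn, e2⟩
  refine ⟨m, hm, ?_⟩
  rw [e1]
  refine (mem_wh_iff (Γ := Γ)
    {y | ∃ (H : Subgroup G) (_ : Finite H) (z : K1 (MonoidAlgebra ℤ H)),
      y = K1.map (ringMap (π.comp H.subtype)) z}
    _ ?_ (m • K1.map (ringMap π) y)).2 h
  ext w
  constructor
  · rintro ⟨_, ⟨H, hH, z, rfl⟩, rfl⟩
    exact ⟨H, hH, Wh.mk z, rfl⟩
  · rintro ⟨H, hH, z, rfl⟩
    obtain ⟨z, rfl⟩ := Wh.exists_mk z
    exact ⟨_, ⟨H, hH, z, rfl⟩, rfl⟩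

end Pool.Agent.SUR
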