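import Pool.Agent.SUR.Main
import Pool.Agent.SUR.ENG
import Pool.Agent.SUR.KCW
import Pool.Agent.SUR.FINW
import Pool.Agent.SUR.LOCT
import Pool.Agent.SUR.WHT
import Pool.Agent.SUR.FINITE
import Pool.Agent.SUR.ARIG
import Pool.Agent.SUR.VALF
import Pool.Agent.SUR.NFH
import Pool.Agent.SUR.LCO
import Pool.Agent.SUR.VALG
import Pool.Agent.SUR.EIGG
import Pool.Agent.SUR.LING
import Pool.Agent.SUR.WAL
import Pool.Agent.SUR.WALC
import Pool.Agent.WhC.COH

/-!
# Surjectivity in degree one, seen in arbitrary targets: the composition of the modules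
-/

set_option autoImplicit false

universe u

namespace Pool.Agent.SUR

open Pool.Agent.WhK

theorem t_COH : s_COH.{u} := fun 𝔐 K _ cl hcl p m _ hp w k =>
  Pool.Agent.WhC.gamVal_coh 𝔐 K cl hcl p m hp w k

theorem surjT_of_arithR (G : Type u) [Group G] (h : ∀ G₀ : Subgroup G, G₀.FG → ArithR G₀) :
    SurjT G :=
  t_LOCT G fun G₀ h₀ => t_FINW t_ENG t_KCW t_LIF (t_NTG t_NAT) G₀ (h G₀ h₀)

theorem surjW_of_arithR (G : Type u) [Group G] (h : ∀ G₀ : Subgroup G, G₀.FG → ArithR G₀) :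
    SurjW G := t_WHT G (surjT_of_arithR G h)

theorem surjW (G : Type u) [Group G] (h : LocCentHom G) : SurjW G :=
  surjW_of_arithR G fun G₀ h₀ => t_ARIG (t_VAL t_REF' t_RES) t_COC t_RES G₀ (h G₀ h₀)
    (t_VANC t_COH t_REF' t_COC t_RES G₀ (h G₀ h₀))

theorem t_VALG' : s_VALG.{u} := t_VALG t_VALF t_NFH t_LCO

theorem t_LING' : s_LING.{u} := t_LING t_VALG' t_EIGG

theorem t_WALC' : s_WALC.{u} := t_WALC t_WAL

end Pool.Agent.SUR
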