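import Pool.Agent.SUR.StA

/-!
# Weights of bounded degree on words: all linear groups

Let `𝔑 = MM G n` and `𝔐 = FreeMonoid 𝔑`, `th : 𝔐 →* 𝔑` the product. A unit `w` of `ℤ[𝔑]` lifts to
`x, y ∈ ℤ[𝔐]` with `x y - 1` and `y x - 1` in the ideal `IK K` spanned by the alternating sums over
`K`-dimensional cubes of words (words with `K` slots, in each of which one of two words with the same
product can be inserted). Weights on `𝔐` of degree at most `r` (`DegV r`) kill `IK (r + 1)`. An element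
`g` of infinite order with a unipotent power has such a weight with a nonzero constant even if it has no
homomorphism from its centraliser to `ℤ` which does not vanish at `g`.

The modules `LIN_XXX` prove `theorem Pool.Agent.SUR.t_LXXX : s_LXXX` in `Pool/Agent/SUR/LXXX.lean`; the
hypotheses allowed are named in the doc string (then `theorem t_LXXX (h : s_LYYY.{u}) : s_LXXX.{u}`).
-/

set_option autoImplicit false

universe u v

namespace Pool.Agent.SUR

open Pool.Agent.WhK Finset

/-! ### Definitions -/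

/-- the product of a word -/
def th (𝔑 : Type*) [Monoid 𝔑] : FreeMonoid 𝔑 →* 𝔑 := FreeMonoid.lift id

/-- cubes in a monoid: products of constants and of slots; a slot is one of two elements with the same
image, chosen by one of the coordinates -/
inductive Cub {𝔐 𝔔 : Type*} [Monoid 𝔐] [Monoid 𝔔] (θ : 𝔐 →* 𝔔) {S : Type*} :
    ((S → Bool) → 𝔐) → Prop
  | const (a : 𝔐) : Cub θ fun _ => a
  | slot (s : S) (a a' : 𝔐) (h : θ a = θ a') : Cub θ fun ε => if ε s then a' else a
  | mul (c c' : (S → Bool) → 𝔐) (h : Cub θ c) (h' : Cub θ c') : Cub θ fun ε => c ε * c' ε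

/-- the sign of a vertex of a cube -/
def sgB {K : ℕ} (ε : Fin K → Bool) : ℤ := ∏ i, if ε i then -1 else 1

/-- the alternating sum over the vertices of a cube -/
def altS {A : Type*} [AddCommGroup A] {K : ℕ} (f : (Fin K → Bool) → A) : A := ∑ ε, sgB ε • f ε

/-- the span of the alternating sums over `K`-dimensional cubes -/
noncomputable def IK {𝔐 𝔔 : Type*} [Monoid 𝔐] [Monoid 𝔔] (θ : 𝔐 →* 𝔔) (K : ℕ) :
    AddSubgroup (MonoidAlgebra ℤ 𝔐) :=
  AddSubgroup.closure {x | ∃ c : (Fin K → Bool) → 𝔐, Cub θ c ∧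
    x = altS fun ε => MonoidAlgebra.single (c ε) 1}

/-- functions of two variables of degree at most `r` -/
def DegV {𝔐 𝔔 A : Type*} [Monoid 𝔐] [Monoid 𝔔] [AddCommGroup A] (θ : 𝔐 →* 𝔔) (r : ℕ)
    (W : 𝔐 → 𝔐 → A) : Prop :=
  ∀ c c' : (Fin (r + 1) → Bool) → 𝔐, Cub θ c → Cub θ c' → altS (fun ε => W (c ε) (c' ε)) = 0

/-- `x, y` lift `w, w⁻¹` and are inverse to each other modulo `IK K` -/
def Lft {𝔑 : Type*} [Monoid 𝔑] (K : ℕ) (w : (MonoidAlgebra ℤ 𝔑)ˣ)
    (x y : MonoidAlgebra ℤ (FreeMonoid 𝔑)) : Prop :=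
  MonoidAlgebra.mapDomainRingHom ℤ (th 𝔑) x = w.val ∧
  MonoidAlgebra.mapDomainRingHom ℤ (th 𝔑) y = (w⁻¹ : (MonoidAlgebra ℤ 𝔑)ˣ).val ∧
  x * y - 1 ∈ IK (th 𝔑) K ∧ y * x - 1 ∈ IK (th 𝔑) K

/-- the class of the product of a word of matrix units -/
noncomputable def clF (G : Type*) [Group G] (n : ℕ) (a : FreeMonoid (MM G n)) :
    Option (ConjClasses G) :=
  MM.cl (th (MM G n) a)

/-- the classes of the products of the elements of the supports of `y` and `x` -/
def SCL {G : Type*} [Group G] {n : ℕ} (x y : MonoidAlgebra ℤ (FreeMonoid (MM G n))) :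
    Set (Option (ConjClasses G)) :=
  {k | ∃ a ∈ y.coeff.support, ∃ b ∈ x.coeff.support, clF G n (a * b) = k}

/-- all classes of elements of infinite order have a weight with values in `ZM M` of degree at most `r`
with a nonzero constant -/
def CentWt (G : Type u) [Group G] (M r : ℕ) : Prop :=
  ∀ n : ℕ, 0 < n → ∀ g : G, ¬IsOfFinOrder g →
    ∃ (v : ZM M) (W : FreeMonoid (MM G n) → FreeMonoid (MM G n) → ZM M), v ≠ 0 ∧
      WtAtA (clF G n) (some (ConjClasses.mk g)) v W ∧ DegV (th (MM G n)) r W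

/-- the condition on centralisers: for some finitely generated subring `A` of a field, `n ≥ 0` and all `g`
of infinite order the centraliser of `g` has a homomorphism to `GL_n(A)` which maps `g` to an element of
infinite order -/
def CentLin (G : Type u) [Group G] : Prop :=
  ∃ (F : Type u) (_ : Field F) (S : Set F) (n : ℕ), S.Finite ∧
    ∀ g : G, ¬IsOfFinOrder g →
      ∃ ρ : Subgroup.centralizer {g} →* Matrix (Fin n) (Fin n) (Subring.closure S),
        ¬IsOfFinOrder (ρ ⟨g, Subgroup.mem_centralizer_singleton_iff.2 rfl⟩)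

/-- all finitely generated subgroups satisfy `CentLin` -/
def LocCentLin (G : Type u) [Group G] : Prop := ∀ G₀ : Subgroup G, G₀.FG → CentLin G₀

/-- edges: `(q, z)` leads from `q` to `q * z`; the edges of the path which starts at `q` and follows the
letters of the list -/
def eds {Z : Type*} [Mul Z] : Z → List Z → List (Z × Z)
  | _, [] => []
  | q, z :: l => (q, z) :: eds (q * z) l

/-- the sum over a list -/
def lsum {E R : Type*} [AddCommMonoid R] (L : List E) (f : E → R) : R := (L.map f).sum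

/-- the `s`-fold sum over a list -/
def msum {E R : Type*} [AddCommMonoid R] (L : List E) : (s : ℕ) → ((Fin s → E) → R) → R
  | 0, K => K Fin.elim0
  | s + 1, K => lsum L fun e => msum L s fun t => K (Fin.cons e t)

open Classical in
/-- the weight at the central element `c` with kernel `K` -/
noncomputable def kW {Z R : Type*} [Monoid Z] [AddCommMonoid R] (c : Z) (s : ℕ)
    (K : (Fin (s + 1) → Z × Z) → R) (a b : FreeMonoid Z) : R :=
  if th Z (b * a) = c then
    lsum (eds 1 (FreeMonoid.toList b)) fun e =>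
      msum (eds 1 (FreeMonoid.toList (b * a))) s fun t => K (Fin.cons e t)
  else 0

/-- the kernels: invariant under translation of all edges, and under translation of one edge by `c` -/
def IsKer {Z R : Type*} [Mul Z] (c : Z) {s : ℕ} (K : (Fin s → Z × Z) → R) : Prop :=
  (∀ w e, K (fun i => (w * (e i).1, (e i).2)) = K e) ∧
  (∀ i e, K (Function.update e i (c * (e i).1, (e i).2)) = K e)

/-- the pairing of edges -/
def PB {Z R : Type*} [Mul Z] [Sub R] (B : Z → Z → R) (e e' : Z × Z) : R :=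
  B (e.1 * e.2) (e'.1 * e'.2) - B e.1 (e'.1 * e'.2)

/-- the kernel which compares a permutation `π` and `swap i i' * π` -/
def KA {E R : Type*} [CommRing R] {r : ℕ} (P : E → E → R) (π : Equiv.Perm (Fin r)) (i i' : Fin r)
    (e : Fin r → E) : R :=
  -∏ a, if π a = i ∨ π a = i' then P (e a) (e i) - P (e a) (e i') else
    P (e a) (e (π a)) - P (e a) (e i)

/-- the kernel for the powers of the trace -/
def KT {Z R : Type*} [Mul Z] [CommRing R] (B : Z → Z → R) (one : Z) {s : ℕ}
    (e : Fin (s + 1) → Z × Z) : R :=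
  B one (e 0).2 * ∏ l : Fin s, (PB B (e l.succ) (e l.succ) - PB B (e l.succ) (e 0))

/-- the data at a central element `c` -/
structure IsB {Z R : Type*} [Group Z] [AddCommGroup R] (c : Z) (v : R) (B : Z → Z → R) : Prop where
  mul : ∀ w t s, B w (t * s) = B w t + B (t⁻¹ * w) s
  val : ∀ w, B w c = v
  inv : ∀ w t, B (c * w) t = B w t

/-! ### The ideal -/

/-- LIK (150 lines). The ideal `IK K` and functions of degree at most `r`.
Proof. (1) Induction on `y` (`MonoidAlgebra.induction_on` or `Finsupp` sums) and on the closure: for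
`y = single b r` and `x = altS (single (c ε))`, `x * y = r • altS (single (c ε * b))`, and
`ε ↦ c ε * b` is a cube. (2) `θ (c ε)` does not depend on `ε` (induction on `Cub`), and
`∑ ε, sgB ε = ∏ i, (1 - 1) = 0` (`Finset.prod_univ_sum`). (3) By biadditivity (`bilHom` in `Bil.lean`)
for `x` an alternating sum and `y = single b r`: `bil W x y = r • altS (W (c ε) b) = 0`. (4) If `c, c'`
are cubes, so is `ε ↦ (c ε * c' ε) ^ (p - 1) * c ε`. (5) `cl (θ (c ε * c' ε))` does not depend on `ε`.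
(6) clear. -/
def s_LIK : Prop := ∀ (𝔐 𝔔 : Type u) [Monoid 𝔐] [Monoid 𝔔] (θ : 𝔐 →* 𝔔),
  (∀ K x y, x ∈ IK θ K → x * y ∈ IK θ K ∧ y * x ∈ IK θ K) ∧
  (∀ K x, 0 < K → x ∈ IK θ K → MonoidAlgebra.mapDomainRingHom ℤ θ x = 0) ∧
  (∀ (A : Type) [AddCommGroup A] (r : ℕ) (W : 𝔐 → 𝔐 → A), DegV θ r W →
    (∀ x y, x ∈ IK θ (r + 1) → bil W x y = 0 ∧ bil W y x = 0) ∧
    (∀ p : ℕ, DegV θ r (pwA W p)) ∧
    (∀ (K : Type u) (cl : 𝔔 → K) (p : ℕ) (C : K), DegV θ r (resWA (fun a => cl (θ a)) W p C)))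

/-- LPSH (30 lines). Change of the group of values.
Proof. `ψ` is additive, `altS` is a sum. -/
def s_LPSH : Prop := ∀ (𝔐 𝔔 K : Type u) (A : Type v) (A' : Type) [Monoid 𝔐] [Monoid 𝔔]
  [AddCommGroup A] [AddCommGroup A'] (θ : 𝔐 →* 𝔔) (ψ : A →+ A') (W : 𝔐 → 𝔐 → A),
  (∀ r, DegV θ r W → DegV θ r fun a b => ψ (W a b)) ∧
  (∀ (cl : 𝔐 → K) (k : K) (v : A), WtAtA cl k v W → WtAtA cl k (ψ v) fun a b => ψ (W a b))

/-- LLIFT (150 lines). Lifts of units.
Proof. `ι : ℤ[𝔑] → ℤ[𝔐]` additive, `ι (single a r) = single (FreeMonoid.of a) r`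
(`MonoidAlgebra.mapDomain`), `θ_* ι = id`. Let `X = ι w`, `Y = ι w⁻¹`, `j = 1 - X Y`, `j' = 1 - Y X`, both
in `J = ker θ_*`; `x = X`, `y = Y * ∑ i < K, j ^ i`. `X Y = 1 - j`, so `x y = 1 - j ^ K`. `X j' = j X`, so
`j ^ i * X = X * j' ^ i` and `y x = Y X ∑ j' ^ i = 1 - j' ^ K`. `θ_* j = 0`, so `θ_* y = w⁻¹` for
`0 < K`. It remains to see `j ^ K ∈ IK K`: by induction on `K` (`j ^ 0 = 1` is the alternating sum over the
`0`-dimensional cube `1`), `J * IK K ⊆ IK (K + 1)`. An element `j` of `J` is a sum of multiples of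
differences `single b 1 - single b' 1` with `θ b = θ b'`: `j = j - ι (θ_* j)` and
`ι θ_* (single b 1) = single (of (θ b)) 1`. And
`(single b 1 - single b' 1) * altS (single (c ε)) = altS (single (c₁ ε))` with
`c₁ ε = (if ε 0 then b' else b) * c (fun i => ε i.succ)`, a cube of dimension `K + 1`
(`Fin.consEquiv`, `Fin.prod_univ_succ`; a cube remains a cube under a map of the coordinates). -/
def s_LLIFT : Prop := ∀ (𝔑 : Type u) [Monoid 𝔑] (w : (MonoidAlgebra ℤ 𝔑)ˣ) (K : ℕ), 0 < K →
  ∃ x y : MonoidAlgebra ℤ (FreeMonoid 𝔑), Lft K w x y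

/-! ### The arithmetic -/

/-- LREF (60 lines; helper25's `REF` modulo an ideal, `Pool/Agent/SUR/IREF.lean`). Hypothesis `s_LIK` and
helper25's theorem for `𝔐 = FreeMonoid (MM G n)`, `F = th`, `I = IK (r + 1)`. -/
def s_LREF : Prop := ∀ (G : Type u) [Group G] (n p m r : ℕ) [Fact p.Prime], p ≠ 2 →
  ∀ (w : (MonoidAlgebra ℤ (MM G n))ˣ) (x y : MonoidAlgebra ℤ (FreeMonoid (MM G n))),
  Lft (r + 1) w x y → ∀ (K : ConjClasses G) (v : ℤ_[p])
    (W : FreeMonoid (MM G n) → FreeMonoid (MM G n) → ℤ_[p]),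
  WtAtA (clF G n) (some K) v W → DegV (th (MM G n)) r W →
    PadicInt.toZModPow (m + 1) v * gamVal MM.cl MM.cl_comm p m w (some K) =
      PadicInt.toZModPow (m + 1) (bil W y x - bil (pwA W p) y x)

/-- LRES (copy of `Pool/Agent/SUR/ARES.lean`, with `clF` for `MM.cl`; 150 lines). Hypothesis `s_LIK` for
the degree. The lemmas `cl_of_pow`, `cl_pow` there give the same for `clF` because `th` is a
homomorphism; in the second part use the word with the one letter `unit 0 0 h`. -/
def s_LRES : Prop := ∀ (G : Type u) [Group G] (n p r : ℕ) [Fact p.Prime] (K : ConjClasses G)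
  (v : ℤ_[p]) (W : FreeMonoid (MM G n) → FreeMonoid (MM G n) → ℤ_[p]), 0 < n →
  WtAtA (clF G n) (some K) v W → DegV (th (MM G n)) r W →
  (∀ (x : FreeMonoid (MM G n)) (C : ConjClasses G), clF G n (x ^ p) = some C →
    ∃ C', clF G n x = some C' ∧ powC p C' = C) ∧
  (∀ C, powC p C = K → ∃ v' : ℤ_[p], v = p * v' ∧
    WtAtA (clF G n) (some C) v' (resWA (clF G n) W p (some C)) ∧
    DegV (th (MM G n)) r (resWA (clF G n) W p (some C))) ∧
  (∀ (S : Finset (ConjClasses G)) (x y : MonoidAlgebra ℤ (FreeMonoid (MM G n))),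
    (∀ C ∈ S, powC p C = K) →
    (∀ a ∈ x.coeff.support, ∀ b ∈ y.coeff.support, ∀ C, clF G n (a * b) = some C → powC p C = K →
      C ∈ S) →
    bil (pwA W p) x y = ∑ C ∈ S, bil (resWA (clF G n) W p (some C)) x y) ∧
  (¬(p : ℤ_[p]) ∣ v → ∀ x y : MonoidAlgebra ℤ (FreeMonoid (MM G n)), bil (pwA W p) x y = 0)

/-- LVAL (copy of `Pool/Agent/SUR/AVAL.lean`; 70 lines). Hypotheses `s_LREF`, `s_LRES`. -/
def s_LVAL : Prop := ∀ (G : Type u) [Group G] (n p m r : ℕ) [Fact p.Prime], 0 < n → p ≠ 2 →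
  ∀ (w : (MonoidAlgebra ℤ (MM G n))ˣ) (x y : MonoidAlgebra ℤ (FreeMonoid (MM G n))),
  Lft (r + 1) w x y → ∀ (K : ConjClasses G) (v : ℤ_[p])
    (W : FreeMonoid (MM G n) → FreeMonoid (MM G n) → ℤ_[p]),
  WtAtA (clF G n) (some K) v W → DegV (th (MM G n)) r W →
  (¬(p : ℤ_[p]) ∣ v →
    PadicInt.toZModPow (m + 1) v * gamVal MM.cl MM.cl_comm p m w (some K) =
    PadicInt.toZModPow (m + 1) (bil W y x)) ∧
  (∀ (T : Finset (ConjClasses G)) (v' : ℤ_[p]), v = p * v' → some K ∉ SCL x y →
    (∀ C, C ∈ T ↔ (some C ∈ SCL x y ∧ powC p C = K)) →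
    (∀ C ∈ T, ∀ C', some C' ∈ SCL x y → powC p C' ≠ C) →
    PadicInt.toZModPow (m + 1) v' * (p * gamVal MM.cl MM.cl_comm p m w (some K) +
      ∑ C ∈ T, gamVal MM.cl MM.cl_comm p m w (some C)) = 0)

/-- LVANC (copy of `Pool/Agent/SUR/AVANC.lean`; 80 lines). Hypotheses `s_COH`, `s_LREF`, `s_LRES`,
`s_ANEQ`, `s_LPSH`. -/
def s_LVANC : Prop := ∀ (G : Type u) [Group G] (M r : ℕ), 0 < M → CentWt G M r →
  ∀ n : ℕ, 0 < n → ∀ (w : (MonoidAlgebra ℤ (MM G n))ˣ)
    (x y : MonoidAlgebra ℤ (FreeMonoid (MM G n))), Lft (r + 1) w x y →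
  ∃ p0 : ℕ, ∀ (p m : ℕ) [Fact p.Prime],
    p0 < p → ∀ K : ConjClasses G, (∀ g, ConjClasses.mk g = K → ¬IsOfFinOrder g) →
    some K ∉ SCL x y → (∀ C, some C ∈ SCL x y → powC p C ≠ K) →
    gamVal MM.cl MM.cl_comm p m w (some K) = 0

/-- LARI (copy of `Pool/Agent/SUR/AARI.lean`; 370 lines). Hypotheses `s_LVAL`, `s_LRES`, `s_LVANC`,
`s_ANEQ`, `s_LPSH`, `s_LLIFT`. Take `x, y` from `LLIFT` with `K = r + 1`; `SCL x y` for `SC MM.cl w`,
`bil W y x` for `bil W w⁻¹ w`. -/
def s_LARI : Prop := ∀ (G : Type u) [Group G] (M r : ℕ), 0 < M → CentWt G M r → ArithR G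

/-! ### Kernels -/

/-- LMSUM (40 lines). The `s`-fold sum as a sum over functions.
Proof. Induction on `s`, `Fin.consEquiv` / `Fintype.sum_equiv`, `List.sum_ofFn`. -/
def s_LMSUM : Prop := ∀ (E : Type u) (R : Type v) [AddCommMonoid R] (L : List E) (s : ℕ)
  (K : (Fin s → E) → R),
  msum L s K = ∑ j : Fin s → Fin L.length, K fun i => L.get (j i)

/-- LKERW (200 lines). The weight with kernel `K`.
Proof. Rules: `eds q (l ++ l') = eds q l ++ eds (q * l.prod) l'`,
`eds (w * q) l = (eds q l).map (fun e => (w * e.1, e.2))`. `lsum` is additive in the list;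
`msum (L.map φ) s K = msum L s (K ∘ (φ ∘ ·))`; `msum` depends on `L` only up to permutation; if `K` is
invariant under the change of one variable by `φ`, then `msum (L₁.map φ ++ L₂) s K = msum (L₁ ++ L₂) s K`
(by induction on `s`: more generally `msum (L.map φ₀) s K` for a map `φ₀` with
`φ₀ e ∈ {e, φ e}`; it is convenient to first show that `K (φ' ∘ e) = K e` for all
`φ' : Fin s → (E → E)` with values in `{id, φ}`).
(1) `W a (b c)`: condition `θ(b c a) = c₀` (`c₀` the central element), equivalent to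
`θ(c a b) = c₀` and `θ(a b c) = c₀` (if `b x = c₀` is central then `x b = b⁻¹ (b x) b = c₀`). The first
variable runs over `eds 1 b` or over `eds b c = b · eds 1 c`. The first part is `W (c a) b` since the
closed word is `b (c a)`. The second part: translate all variables by `b⁻¹`: the first variable runs over
`eds 1 c`, the others over `b⁻¹ · eds 1 (b c a) = b⁻¹ · eds 1 b ++ eds 1 (c a)`, and
`eds 1 (c a b) = eds 1 (c a) ++ (c a) · eds 1 b`, `c a = b⁻¹ c₀ = c₀ b⁻¹`: the edges of `b` differ by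
`c₀`, so the sums agree (the variables other than the first run over `b⁻¹ · eds 1 b` or over
`c₀ b⁻¹ · eds 1 b`; the kernel is invariant under `c₀` in each variable).
(2) `th (b a) = c₀` iff `th (a b) = c₀`. (3) clear: `b * 1 = b`. -/
def s_LKERW : Prop := ∀ (Z : Type u) (R : Type v) [Group Z] [AddCommGroup R] (c : Z),
  (∀ z, c * z = z * c) → ∀ (s : ℕ) (K : (Fin (s + 1) → Z × Z) → R), IsKer c K →
  IsWtA (kW c s K) ∧ (∀ a b, kW c s K a b ≠ 0 → th Z (a * b) = c) ∧
  (∀ y, th Z y = c → kW c s K 1 y = msum (eds 1 (FreeMonoid.toList y)) (s + 1) K)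

/-- LKERD (200 lines). The weight with kernel `K` has degree at most the number of edges.
Proof. For a group `R`, a finite set of coordinates `S = Fin d` and `k : ℕ` let `Pol k` be the additive
subgroup of the functions `(Fin d → Bool) → R` generated by the functions
`ε ↦ if (∀ s ∈ T, ε s = true) then a else 0`, `T : Finset (Fin d)`, `T.card ≤ k`, `a : R`.
(a) `f ∈ Pol k`, `k < d` implies `altS f = 0` (for a generator choose a coordinate outside of `T`; flipping
it changes the sign of `sgB ε` and not the value: `Finset.sum_involution` or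
`Finset.sum_ninvolution`). (b) If `f ∈ Pol k`, then `ε ↦ if ε s then f ε else 0` is in `Pol (k + 1)`
(`insert s T`), so `ε ↦ if ε s then f ε else g ε` is in `Pol (k + 1)` for `f, g ∈ Pol k`.
(c) Let `c` be a cube of words, `q : Z`, and `G e ∈ Pol k` for all edges `e`. Then
`ε ↦ lsum (eds q (c ε)) (fun e => G e ε)` is in `Pol (k + 1)`: by induction on `Cub`, for all `q`: constant
cubes: a sum of elements of `Pol k`; slots: (b); products: `eds q (u v) = eds q u ++ eds (q * θ u) v` and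
`θ (c ε)` does not depend on `ε`. (d) By induction on `s`, `ε ↦ msum (eds q (c ε)) s K` is in `Pol s` for
all `K`. (e) For cubes `c, c'` the product `θ (c' ε * c ε)` does not depend on `ε`; the function
`ε ↦ kW c₀ s K (c ε) (c' ε)` is `0` or as in (c) with
`G e ε = msum (eds 1 (c' ε * c ε)) s (fun t => K (Fin.cons e t)) ∈ Pol s`, so it is in `Pol (s + 1)`. Now
(a) with `d = r + 1`. -/
def s_LKERD : Prop := ∀ (Z : Type u) (R : Type v) [Group Z] [AddCommGroup R] (c : Z) (s r : ℕ)
  (K : (Fin (s + 1) → Z × Z) → R), s < r → DegV (th Z) r (kW c s K)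

/-- LALT (200 lines). Comparison of a permutation `π` with `swap i i' * π`.
Proof. Write `x_a` for the index `e a`, `P(a, b)` for `P (e a) (e b)`; sums over `e : Fin r → J`. Let
`a₁ = π⁻¹ i`, `a₂ = π⁻¹ i'`. Claim A: `KA` may be replaced by
`K' e = -∏ a, (if a = a₁ or a = a₂ then P(a, i) - P(a, i') else P(a, π a))`. Expand the product of the
`P(a, π a) - P(a, i)`, `a ≠ a₁, a₂` (`Finset.prod_sub` or `Finset.prod_add`): a term with the factor
`P(a, i)` for some `a ∉ {a₁, a₂}`; put `b = π a ∉ {i, i'}`; in such a term the value `e b` occurs only in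
the one factor of index `b`, in the first argument (second arguments are `e i`, `e i'`, and `e (π a')` for
the `a'` with the other choice, `π a' ≠ b`; the factor `b` itself is `P(b, i)`, `P(b, i) - P(b, i')` or
`P(b, π b)` with `π b ≠ b` unless `b = a`, where the factor is `P(b, i)`, `i ≠ b`), so the sum over `e b`
is `0` by the hypothesis. Claim B: `(P(a₁, i) - P(a₁, i')) (P(a₂, i) - P(a₂, i')) = P(a₁, i) P(a₂, i) +
P(a₁, i') P(a₂, i') - P(a₁, i) P(a₂, i') - P(a₁, i') P(a₂, i)`; the last two products, multiplied by the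
`P(a, π a)`, are the terms of `π` and `swap i i' * π`; in the first product `e i'` occurs only once, as a
first argument (`e (π a)`, `a ≠ a₁, a₂`, is not `e i'`), so its sum is `0`; the same for the second
product and `e i`. It is convenient to have the lemma: if `H : (Fin r → J) → R` does not depend on the
coordinate `b` and `Q : (Fin r → J) → J` does not depend on the coordinate `b`, then
`∑ e, P (e b) (Q e) * H e = 0` (sum over `e b` first: `Fintype.sum_equiv (Equiv.funSplitAt b J)`, or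
average). -/
def s_LALT : Prop := ∀ (J : Type) (R : Type v) [Fintype J] [CommRing R] (r : ℕ) (P : J → J → R),
  (∀ k, ∑ j, P j k = 0) → ∀ (π : Equiv.Perm (Fin r)) (i i' : Fin r), i ≠ i' →
  ∑ e : Fin r → J, ∏ a, P (e a) (e (π a)) +
    ∑ e : Fin r → J, ∏ a, P (e a) (e ((Equiv.swap i i' * π) a)) = ∑ e : Fin r → J, KA P π i i' e

/-- LEDG (120 lines). The pairing of edges.
Proof. From the rules: `B w 1 = 0`, `B w (c t) = v + B (c⁻¹ w) t = v + B w t`.
`PB B (w e) (w e') = PB B e e' + (B (w q z) w - B (w q) w)` with `e = (q, z)`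
(`B (w x) (w t) = B (w x) w + B x t`), so differences `PB B e e' - PB B e e''` are invariant;
`PB B (c e) e' = PB B e e'` and `PB B e (c e') = PB B e e'`. So (1), (2). (3) telescoping:
`lsum (eds q l) (fun e => PB B e e') = B (q * l.prod) t - B q t`, `t = e'.1 * e'.2`, and
`B (c * 1) t = B 1 t`. (4) telescoping: for an edge `e = (q, z)`:
`B 1 z + PB B e e = B (q z) (q z) - B q q` because `B q (q z) = B q q + B 1 z`; the sum is
`B c c - B 1 1 = v`. -/
def s_LEDG : Prop := ∀ (Z : Type u) (R : Type v) [Group Z] [CommRing R] (c : Z),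
  (∀ z, c * z = z * c) → ∀ (v : R) (B : Z → Z → R), IsB c v B →
  (∀ (r : ℕ) (π : Equiv.Perm (Fin r)) (i i' : Fin r), IsKer c (KA (PB B) π i i')) ∧
  (∀ s : ℕ, IsKer c (KT B 1 (s := s))) ∧
  (∀ y : FreeMonoid Z, th Z y = c →
    (∀ e', lsum (eds 1 (FreeMonoid.toList y)) (fun e => PB B e e') = 0) ∧
    lsum (eds 1 (FreeMonoid.toList y)) (fun e => B 1 e.2) +
      lsum (eds 1 (FreeMonoid.toList y)) (fun e => PB B e e) = v)

/-- LCORE (250 lines). Hypotheses `s_LMSUM`, `s_LKERW`, `s_LKERD`, `s_LALT`, `s_LEDG`.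
Proof. Put `r = m + 1`. Let `𝓥` be the set of the functions `φ : FreeMonoid Z → R` for which there is
`W` with `IsWtA W`, `W a b ≠ 0 → th (a b) = c`, `W 1 y = φ y` for `th y = c`, `DegV (th Z) r W`. It is an
additive subgroup (for sums use `W + W'`: if `(W + W') a b ≠ 0` one of them is not `0`) and closed under
multiplication by elements of `R`. For a kernel `K` with `IsKer c K` and `s + 1 ≤ r` edges, the function
`y ↦ msum (eds 1 y) (s + 1) K = ∑ j : Fin (s + 1) → Fin l, K (..)` is in `𝓥` (`LKERW`, `LKERD`, `LMSUM`).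
For `π : Perm (Fin r)` let `g π y = ∑ j : Fin r → Fin l, ∏ a, PB B (e (j a)) (e (j (π a)))`, `e` the edges
of `y`, `l` their number. (a) `g π + g (swap i i' * π) ∈ 𝓥` for `i ≠ i'` (`LALT` with `J = Fin l`,
`P j k = PB B (e j) (e k)`; the functions need to agree with the sums only for `th y = c`, which
suffices). (b) `g π - sign π • g 1 ∈ 𝓥`, by `Equiv.Perm.swap_induction_on`. (c)
`∑ π, sign π • g π y = ∑ j, det (fun a b => PB B (e (j a)) (e (j b))) = 0`: `PB B e e' = ∑ i, x i e * y i e'`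
with `x i e = X i (e.1 * e.2) - X i e.1`, `y i e' = Y i (e'.1 * e'.2)`, a product of a `r × ι` and a
`ι × r` matrix, `card ι < r`; its determinant is `0` (embed `ι` into `Fin r` and extend the matrices by
zeros: a square matrix with a zero column). So `∑ π, sign π • (g π - sign π • g 1) + r ! • g 1 = 0` and
`r ! • g 1 ∈ 𝓥`. (d) `g 1 y = τ y ^ r`, `τ y = lsum (eds 1 y) (fun e => PB B e e)`
(`Finset.prod_univ_sum`). (e) `v ^ r - τ ^ r = ∑ i < r, (v - τ) v ^ i τ ^ (r - 1 - i)`
(`Commute.mul_geom_sum₂` or `geom_sum₂_mul`), `v - τ = lsum (eds 1 y) (fun e => B 1 e.2)` and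
`(v - τ) τ ^ s` is the sum over the kernel `KT B 1` with `s + 1` edges (`lsum (PB B e e - PB B e e₀) = τ`
by (3) of `LEDG`), so it is in `𝓥` for `s + 1 ≤ r`. So `r ! • v ^ r ∈ 𝓥`. -/
def s_LCORE : Prop := ∀ (Z : Type u) (R : Type v) [Group Z] [CommRing R] (c : Z),
  (∀ z, c * z = z * c) → ∀ (v : R) (B : Z → Z → R), IsB c v B →
  ∀ (m : ℕ) (ι : Type) [Fintype ι] (X Y : ι → Z → R), Fintype.card ι ≤ m →
  (∀ w t, B w t = ∑ i, X i w * Y i t) →
  ∃ W : FreeMonoid Z → FreeMonoid Z → R,
    WtAtA (th Z) c (((m + 1).factorial : R) * v ^ (m + 1)) W ∧ DegV (th Z) (m + 1) W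

/-- LPOW (100 lines). From `g ^ j` to `g`.
Proof. `W' a b = if th (a b) = g then W ((a b) ^ (j - 1) a) b else 0` (`resWA (th Z) W j g`), a weight by
`resWA_isWtA` (`Pool/Agent/SUR/ARES.lean`, which is for commutative rings; the proof works for groups)
with `th (a b) = g ↔ th (b a) = g` only, since `g` is central. `j • W (a ^ (j - 1)) a = W 1 (a ^ j) = v`
for `th a = g` (`wt_one_pow`), so `W (a ^ (j - 1)) a` is the same for all such `a` (there is one:
`FreeMonoid.of g`). Degree: if `c, c'` are cubes so is `(c c') ^ (j - 1) c`, and `th (c ε * c' ε)` does not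
depend on `ε`. -/
def s_LPOW : Prop := ∀ (Z : Type u) (A : Type) [Group Z] [AddCommGroup A] (g : Z),
  (∀ z, g * z = z * g) → (∀ (k : ℕ) (a : A), 0 < k → k • a = 0 → a = 0) → ∀ (j r : ℕ), 0 < j →
  ∀ (v : A) (W : FreeMonoid Z → FreeMonoid Z → A), WtAtA (th Z) (g ^ j) v W → DegV (th Z) r W →
  ∃ (v' : A) (W' : FreeMonoid Z → FreeMonoid Z → A), j • v' = v ∧ WtAtA (th Z) g v' W' ∧
    DegV (th Z) r W'

/-- LTRA (300 lines). From the centraliser of `g` to the matrix units over `G`.
Proof. (compare `Pool/Agent/SUR/ACOC.lean`) Let `Z` be the centraliser of `g`. For `y` conjugate to `g`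
choose `s y : G` with `s y * g * (s y)⁻¹ = y`, `s y = 1` for the other `y`. For `y` conjugate to `g` and
`h : G`: `z y h = (s y)⁻¹ * h * s (h⁻¹ y h) ∈ Z`. For a word `u = (h₁, …, h_l)` of elements of `G` and
`y` let `T y u` be the word `(z y₀ h₁, z y₁ h₂, …)`, `y₀ = y`, `y_i = h_i⁻¹ y_{i-1} h_i`;
`T y (u u') = T y u * T (ū⁻¹ y ū) u'`, `ū = th u`, and `th (T y u) = (s y)⁻¹ * ū * s (ū⁻¹ y ū)`. The
value of a matrix unit: `val (unit i j h) = h`, `val one = val zero = 1`; `val` of a word letter by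
letter; if `th a = unit i j h`, then `th (val a) = h`, and if `th a = one`, then `th (val a) = 1`
(induction; if `th a ≠ zero` no letter is `zero`). Put
`W' a b = W (T (th (val (a b))) (val a)) (T (th (val (b a))) (val b))` if `clF (a b) = some (mk g)` and
`0` otherwise. The rule for `W'` at `a, b, c`: the three words `a b c`, `a b c`, `c a b` have the same
class; `T` of `b c` at the state `y = val (b c a)` is `T y b * T y' c`, `y' = b⁻¹ y b = val (c a b)`;
apply the rule for `W`. `W' 1 a = W 1 (T y a)`, `th (T y a) = (s y)⁻¹ y s y = g` since `y = th (val a)`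
and `y⁻¹ y y = y`. For the degree: if `c` is a cube of words in `MM G n` with `th (c ε) ≠ zero` (constant)
and `y` is a conjugate of `g`, then `ε ↦ T y (val (c ε))` is a cube for `th Z` (induction on `Cub`;
for slots: `a, a'` with `th a = th a' ≠ zero` have `th (val a) = th (val a')`; for products: both factors
have `th ≠ zero`, and the state after the first factor does not depend on `ε`). -/
def s_LTRA : Prop := ∀ (G : Type u) (A : Type) [Group G] [AddCommGroup A] (n r : ℕ) (g : G) (v : A)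
  (W : FreeMonoid (Subgroup.centralizer {g}) → FreeMonoid (Subgroup.centralizer {g}) → A),
  WtAtA (th (Subgroup.centralizer {g})) ⟨g, Subgroup.mem_centralizer_singleton_iff.2 rfl⟩ v W →
  DegV (th (Subgroup.centralizer {g})) r W →
  ∃ W' : FreeMonoid (MM G n) → FreeMonoid (MM G n) → A,
    WtAtA (clF G n) (some (ConjClasses.mk g)) v W' ∧ DegV (th (MM G n)) r W'

/-! ### Linear algebra -/

/-- LALG (200 lines). The data of a unipotent matrix.
Proof. Let `N = ρ c - 1`, nilpotent, not `0`, so `N ^ s ≠ 0`, `N ^ (s + 1) = 0` for some `s ≥ 1`; choose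
`k, i₀` with `(N ^ s) i₀ k ≠ 0` and let `u` be the column `k` of `N ^ (s - 1)`: `N ^ 2 u = 0`,
`(N u) i₀ ≠ 0`. Over the field of fractions `K` of `A` there is a matrix `p` with `N p = 0` and `p x = x`
for all `x` with `N x = 0` (a projection onto the kernel: `Submodule.exists_isCompl`). Let `d ≠ 0` be a
common denominator of its entries (`IsLocalization.exist_integer_multiples_of_finite`): there is a matrix
`p'` over `A` with `N p' = 0` and `p' x = d x` for all vectors `x` over `A` with `N x = 0`. Put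
`B w t = -((ρ w)⁻¹ (ρ t p' (ρ t)⁻¹ - p') (ρ w) u) i₀` (`ρ w⁻¹` for the inverse), `v = d * (N u) i₀`.
All `ρ w` commute with `N`. (mul) `ρ(ts) p' ρ(ts)⁻¹ - p' = ρ t (ρ s p' ρ s⁻¹ - p') ρ t⁻¹ +
(ρ t p' ρ t⁻¹ - p')`. For `u' = ρ w u`: `N ^ 2 u' = 0`. (val) `ρ c⁻¹ u' = u' - N u'`
(`(1 + N) (u' - N u') = u'`), `p' N u' = d N u'`, so `ρ c (p' u' - d N u') = p' u' - d N u'`, and the
difference with `p' u'` is `- d N u'`; `ρ w⁻¹ N ρ w u = N u`. (inv) with `ξ = ρ t p' ρ t⁻¹ - p'`:
`ξ N u' = ρ t p' N (ρ t⁻¹ u') - p' N u' = 0` (`p' N = d N` on vectors killed by `N ^ 2`), so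
`ξ ρ c u' = ξ u'`, and `N ξ = ρ t N p' ρ t⁻¹ - N p' = 0`, so `ρ c ξ = ξ` and `ρ c⁻¹ ξ = ξ`. The rank: with
`ι = Fin n × Fin n`: `B w t = ∑ (a, b), X (a, b) w * Y (a, b) t`, `Y (a, b) t = (ρ t p' ρ t⁻¹ - p') a b`,
`X (a, b) w = -(ρ w⁻¹ i₀ a) * (ρ w u) b`. -/
def s_LALG : Prop := ∀ (A : Type v) [CommRing A] [IsDomain A] (n : ℕ) (Z : Type u) [Group Z] (c : Z),
  (∀ z, c * z = z * c) → ∀ ρ : Z →* Matrix (Fin n) (Fin n) A, IsNilpotent (ρ c - 1) → ρ c ≠ 1 →
  ∃ (v : A) (B : Z → Z → A) (X Y : Fin n × Fin n → Z → A), v ≠ 0 ∧ IsB c v B ∧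
    ∀ w t, B w t = ∑ i, X i w * Y i t

/-- LEIG (100 lines, see `Pool/Agent/SUR/EIGH.lean`, `EIGG.lean`). Hypothesis `s_VALG`.
Proof. As `EIGH`: let `L` be an algebraic closure of `F`. If all eigenvalues of `ρ c` in `L` were roots of
unity, some power would be unipotent. So there is an eigenvalue `t ∈ L` which is not a root of unity (not
`0`, since `ρ c` is invertible); `E` = subfield of `L` generated by `t` and the image of `S`. All `ρ z` have
entries in `E`, `V = ker (ρ c - t)^n` over `E` is invariant and not `0`, `d z = det (ρ z | V)`,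
`d c` is not a root of unity; `VALG` gives a homomorphism `Eˣ → ℤ`. -/
def s_LEIG : Prop := ∀ (F : Type u) [Field F] (S : Set F), S.Finite → ∀ (n : ℕ) (Z : Type u) [Group Z]
  (c : Z), (∀ z, c * z = z * c) → ∀ ρ : Z →* Matrix (Fin n) (Fin n) F,
  (∀ z i j, ρ z i j ∈ Subring.closure S) →
  (∀ k : ℕ, 0 < k → ¬IsNilpotent (ρ c ^ k - 1)) →
  ∃ f : Z →* Multiplicative ℤ, (f c).toAdd ≠ 0

/-- LWT (200 lines). Hypotheses `s_LCORE.{u, u}`, `s_LCORE.{u, 0}`, `s_LPSH.{u, u}`, `s_LPOW`, `s_LTRA`,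
`s_LALG.{u, u}`, `s_LEIG`, `s_NNF`.
Proof. `F, S, n` from `CentLin`, `A = Subring.closure S`, `m = n * n + 1`, `r = m + 1`. Let `g` have
infinite order, `Z` its centraliser, `c₀ = g` as an element of `Z` (central), `ρ`.
Case 1: `ρ c₀ ^ k - 1` is not nilpotent for all `k > 0`: `f : Z → ℤ`, `f c₀ ≠ 0` (`LEIG`; compose `ρ` with the
inclusion of matrices over `A` in matrices over `F`). `LCORE` with `R = ZM M`, `c = c₀`, `B w t = f t`,
`v = f c₀`, `ι = Unit`: the constant `(m + 1)! * v ^ (m + 1)` is not `0`; `LTRA`.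
Case 2: `ρ c₀ ^ k - 1` is nilpotent, `k > 0`. Then the characteristic is `0`: otherwise
`(ρ c₀ ^ k - 1) ^ (p ^ i) = ρ c₀ ^ (k p ^ i) - 1 = 0` for large `i` (`sub_pow_char_pow_of_commute` or
`Pool/Agent/SUR/LING.lean`). `ρ (c₀ ^ k) ≠ 1`. `LALG` gives `v, B, X, Y` over `A`, `LCORE` (`R = A`) a
weight at `c₀ ^ k` with the constant `v₁ = (m + 1)! v ^ (m + 1) ≠ 0` in `A`; `M` and `ψ : A → ZM M` with
`ψ v₁ ≠ 0` from `NNF` (`M` depends only on `S`); `LPSH`, `LPOW` (from `c₀ ^ k` to `c₀`; `ZM M` is torsion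
free), `LTRA`. In positive characteristic take `M = 1`. -/
def s_LWT : Prop := ∀ (G : Type u) [Group G], CentLin G → ∃ M r : ℕ, 0 < M ∧ CentWt G M r

/-- LLIN (120 lines). Linear groups, and groups with homomorphisms to `ℤ[1/M]`.
Proof. (1) A finitely generated subgroup `G₁` of `G ≤ GL n F`: let `S` be the finite set of the entries of
the generators and of their inverses. All elements of `G₁` have entries in `A = Subring.closure S`
(`Subgroup.closure_induction`), so the inclusion factors over `Matrix (Fin n) (Fin n) A`; it is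
injective, so it maps elements of infinite order to elements of infinite order. (2) `F = ULift ℚ`,
`S = {1/M}`, `n = 2`, `ρ z = !![1, f z; 0, 1]`; every element of `ZM M` is in the subring generated by
`1/M`. `ρ (g) ^ k = !![1, k f g; 0, 1] ≠ 1`. -/
def s_LLIN : Prop := (∀ (F : Type u) [Field F] (n : ℕ) (G : Subgroup (GL (Fin n) F)), LocCentLin G) ∧
  (∀ (G : Type u) [Group G], LocCentHomM G → LocCentLin G)

end Pool.Agent.SUR
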