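import Pool.Agent.SUR.StE
import Pool.Agent.SUR.LCORE

/-!
# Weights from nilpotent Euler classes
-/

set_option autoImplicit false

universe u v

namespace Pool.Agent.SUR

open Pool.Agent.WhK Finset

namespace LEUL_aux

open LCORE_aux

variable {Z : Type u} {R : Type v} [Group Z] [CommRing R]

/-- the points of a sequence of edges -/
def pts : (r : ℕ) → (Fin r → Z × Z) → List Z
  | 0, _ => []
  | r + 1, e => (e 0).1 :: (e 0).1 * (e 0).2 :: pts r fun i => e i.succ

theorem length_pts (r : ℕ) (e : Fin r → Z × Z) : (pts r e).length = 2 * r := by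
  induction r with
  | zero => rfl
  | succ r ih =>
    show (pts r fun i => e i.succ).length + 1 + 1 = 2 * (r + 1)
    rw [ih]
    ring

theorem cobL_cons (φ : List Z → R) (x : Z) (l : List Z) :
    cobL φ (x :: l) = φ l - cobL (fun l' => φ (x :: l')) l := by
  unfold cobL
  rw [List.length_cons, Finset.sum_range_succ', sub_eq_neg_add, ← Finset.sum_neg_distrib]
  congr 1
  · refine Finset.sum_congr rfl fun i _ => ?_
    rw [List.eraseIdx_cons_succ, pow_succ]
    ring
  · rw [List.eraseIdx_cons_zero, pow_zero, one_mul]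

theorem cobL_sum {ι : Type*} (t : Finset ι) (φ : ι → List Z → R) (l : List Z) :
    cobL (fun l => ∑ i ∈ t, φ i l) l = ∑ i ∈ t, cobL (φ i) l := by
  unfold cobL
  rw [Finset.sum_comm]
  exact Finset.sum_congr rfl fun i _ => Finset.mul_sum _ _ _

theorem tele (g : Z → R) (q : Z) (l : List Z) :
    lsum (eds q l) (fun e => g (e.1 * e.2) - g e.1) = g (q * l.prod) - g q := by
  induction l generalizing q with
  | nil =>
    show (0 : R) = g (q * 1) - g q
    rw [mul_one, sub_self]
  | cons z l ih =>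
    show (g (q * z) - g q) + lsum (eds (q * z) l) (fun e => g (e.1 * e.2) - g e.1) = _
    rw [ih, List.prod_cons, ← mul_assoc]
    ring

theorem th_eq (y : FreeMonoid Z) : th Z y = (FreeMonoid.toList y).prod := by
  unfold th
  rw [FreeMonoid.lift_apply, List.map_id]

theorem tele' {c : Z} (y : FreeMonoid Z) (hy : th Z y = c) (g : Z → R) :
    ∑ j : J y, (g ((E y j).1 * (E y j).2) - g (E y j).1) = g c - g 1 := by
  rw [← lsum_eq y (fun e => g (e.1 * e.2) - g e.1), tele, one_mul, ← th_eq, hy]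

/-- the letter sum -/
def ell (s : Z → R) (y : FreeMonoid Z) : R := ∑ j : J y, s (E y j).2

theorem sum_eu_right {c : Z} {v : R} {s : Z → R} (hs : ∀ z, s (c * z) = s z + v)
    (y : FreeMonoid Z) (hy : th Z y = c) (x : Z) :
    ∑ j : J y, eu s (E y j).1 ((E y j).1 * (E y j).2) x = ell s y - v := by
  have h1 := tele' y hy (fun q => s (q⁻¹ * x))
  have h2 : s (c⁻¹ * x) = s x - v := by
    have := hs (c⁻¹ * x)
    rw [mul_inv_cancel_left] at this
    rw [this]
    ring
  simp only [inv_one, one_mul, h2] at h1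
  unfold eu ell
  have h3 : ∀ j : J y, s ((E y j).1⁻¹ * ((E y j).1 * (E y j).2)) +
      s (((E y j).1 * (E y j).2)⁻¹ * x) - s ((E y j).1⁻¹ * x) = s (E y j).2 +
      (s (((E y j).1 * (E y j).2)⁻¹ * x) - s ((E y j).1⁻¹ * x)) := fun j => by
    rw [inv_mul_cancel_left]
    ring
  rw [Finset.sum_congr rfl fun j _ => h3 j, Finset.sum_add_distrib, h1]
  ring

theorem sum_eu_left {c : Z} (hc : ∀ z, c * z = z * c) {v : R} {s : Z → R}
    (hs : ∀ z, s (c * z) = s z + v) (y : FreeMonoid Z) (hy : th Z y = c) (p : Z) :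
    ∑ j : J y, eu s p (E y j).1 ((E y j).1 * (E y j).2) = ell s y - v := by
  have h1 := tele' y hy (fun q => s (p⁻¹ * q))
  have h2 : s (p⁻¹ * c) = s (p⁻¹ * 1) + v := by
    rw [← hc, hs, mul_one]
  simp only [h2] at h1
  unfold eu ell
  have h3 : ∀ j : J y, s (p⁻¹ * (E y j).1) + s ((E y j).1⁻¹ * ((E y j).1 * (E y j).2)) -
      s (p⁻¹ * ((E y j).1 * (E y j).2)) = s (E y j).2 -
      (s (p⁻¹ * ((E y j).1 * (E y j).2)) - s (p⁻¹ * (E y j).1)) := fun j => by
    rw [inv_mul_cancel_left]
    ring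
  rw [Finset.sum_congr rfl fun j _ => h3 j, Finset.sum_sub_distrib, h1]
  ring

theorem sum_cons {J' : Type*} [Fintype J'] [DecidableEq J'] (r : ℕ) (F : (Fin (r + 1) → J') → R) :
    ∑ j : Fin (r + 1) → J', F j = ∑ t : Fin r → J', ∑ j0 : J', F (Fin.cons j0 t) := by
  rw [← (Fin.consEquiv fun _ : Fin (r + 1) => J').sum_comp, Fintype.sum_prod_type, Finset.sum_comm]
  rfl

theorem sum_cup {c : Z} {v : R} {s : Z → R} (hs : ∀ z, s (c * z) = s z + v)
    (y : FreeMonoid Z) (hy : th Z y = c) (r : ℕ) (x : Z) :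
    ∑ j : Fin r → J y, cupE s (pts r (fun i => E y (j i)) ++ [x]) = (ell s y - v) ^ r := by
  induction r with
  | zero =>
    rw [Fintype.sum_unique, pow_zero]
    show cupE s [x] = 1
    rw [cupE]
    simp
  | succ r ih =>
    rw [sum_cons, pow_succ, ← ih, Finset.sum_mul]
    refine Finset.sum_congr rfl fun t _ => ?_
    have h1 : ∀ j0 : J y, pts (r + 1) (fun i => E y ((Fin.cons j0 t : Fin (r + 1) → J y) i)) ++ [x] =
        (E y j0).1 :: (E y j0).1 * (E y j0).2 :: (pts r (fun i => E y (t i)) ++ [x]) := fun j0 => rfl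
    obtain ⟨w, l, hwl⟩ : ∃ w l, pts r (fun i => E y (t i)) ++ [x] = w :: l := by
      cases hp : pts r (fun i => E y (t i)) with
      | nil => exact ⟨x, [], rfl⟩
      | cons a l => exact ⟨a, l ++ [x], rfl⟩
    rw [Finset.sum_congr rfl fun j0 _ => by rw [h1 j0, hwl, cupE], ← Finset.sum_mul,
      sum_eu_right hs y hy, hwl, mul_comm]

theorem sum_cob {c : Z} (y : FreeMonoid Z) (hy : th Z y = c) (r : ℕ) (ψ : List Z → R)
    (hψ : ∀ l₁ x l₂, ψ (l₁ ++ c * x :: l₂) = ψ (l₁ ++ x :: l₂)) (l : List Z) :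
    ∑ j : Fin r → J y, cobL ψ (pts r (fun i => E y (j i)) ++ l) =
      cobL (fun l => ∑ j : Fin r → J y, ψ (pts r (fun i => E y (j i)) ++ l)) l := by
  induction r generalizing ψ with
  | zero =>
    rw [Fintype.sum_unique]
    congr 1
    funext l
    rw [Fintype.sum_unique]
    rfl
  | succ r ih =>
    rw [sum_cons]
    have h1 : ∀ (t : Fin r → J y) (j0 : J y) (l : List Z),
        pts (r + 1) (fun i => E y ((Fin.cons j0 t : Fin (r + 1) → J y) i)) ++ l =
        (E y j0).1 :: (E y j0).1 * (E y j0).2 :: (pts r (fun i => E y (t i)) ++ l) :=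
      fun t j0 l => rfl
    have h2 : ∀ l : List Z, ∑ j0 : J y, cobL ψ ((E y j0).1 :: (E y j0).1 * (E y j0).2 :: l) =
        cobL (fun l => ∑ j0 : J y, ψ ((E y j0).1 :: (E y j0).1 * (E y j0).2 :: l)) l := by
      intro l
      have h3 : ∀ j0 : J y, cobL ψ ((E y j0).1 :: (E y j0).1 * (E y j0).2 :: l) =
          (ψ ((E y j0).1 * (E y j0).2 :: l) - ψ ((E y j0).1 :: l)) +
          cobL (fun l => ψ ((E y j0).1 :: (E y j0).1 * (E y j0).2 :: l)) l := fun j0 => by
        rw [cobL_cons, cobL_cons]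
        ring
      rw [Finset.sum_congr rfl fun j0 _ => h3 j0, Finset.sum_add_distrib,
        tele' y hy (fun q => ψ (q :: l)), cobL_sum]
      have h4 := hψ [] 1 l
      rw [mul_one] at h4
      simp only [List.nil_append] at h4
      rw [h4, sub_self, zero_add]
    have h5 : ∀ t : Fin r → J y, ∑ j0 : J y,
        cobL ψ (pts (r + 1) (fun i => E y ((Fin.cons j0 t : Fin (r + 1) → J y) i)) ++ l) =
        cobL (fun l => ∑ j0 : J y, ψ ((E y j0).1 :: (E y j0).1 * (E y j0).2 :: l))
          (pts r (fun i => E y (t i)) ++ l) := fun t => by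
      rw [← h2]
      rfl
    rw [Finset.sum_congr rfl fun t _ => h5 t, ih]
    · congr 1
      funext l
      rw [sum_cons]
      rfl
    · intro l₁ x l₂
      exact Finset.sum_congr rfl fun j0 _ =>
        hψ ((E y j0).1 :: (E y j0).1 * (E y j0).2 :: l₁) x l₂

/-- the kernel of the cochain -/
def K1' (φ : List Z → R) {r : ℕ} (e : Fin r → Z × Z) : R := φ (pts r e)

theorem pts_map (w : Z) (r : ℕ) (e : Fin r → Z × Z) :
    pts r (fun i => (w * (e i).1, (e i).2)) = (pts r e).map fun x => w * x := by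
  induction r with
  | zero => rfl
  | succ r ih =>
    show w * (e 0).1 :: w * (e 0).1 * (e 0).2 :: pts r (fun i => (w * (e i.succ).1, (e i.succ).2)) =
      w * (e 0).1 :: w * ((e 0).1 * (e 0).2) :: (pts r fun i => e i.succ).map fun x => w * x
    rw [ih, mul_assoc]

theorem pts_update {c : Z} {φ : List Z → R}
    (hφ : ∀ l₁ x l₂, φ (l₁ ++ c * x :: l₂) = φ (l₁ ++ x :: l₂)) (r : ℕ) (l₁ : List Z)
    (e : Fin r → Z × Z) (i : Fin r) :
    φ (l₁ ++ pts r (Function.update e i (c * (e i).1, (e i).2))) = φ (l₁ ++ pts r e) := by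
  induction r generalizing l₁ with
  | zero => exact i.elim0
  | succ r ih =>
    refine Fin.cases ?_ (fun i => ?_) i
    · have h1 : (fun k : Fin r => Function.update e 0 (c * (e 0).1, (e 0).2) k.succ) =
          fun k => e k.succ := by
        funext k
        rw [Function.update_of_ne (Fin.succ_ne_zero k)]
      have h2 : pts (r + 1) (Function.update e 0 (c * (e 0).1, (e 0).2)) =
          c * (e 0).1 :: c * (e 0).1 * (e 0).2 :: pts r fun k => e k.succ := by
        rw [pts, h1, Function.update_self]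
      rw [h2, hφ, mul_assoc]
      have h3 : l₁ ++ (e 0).1 :: c * ((e 0).1 * (e 0).2) :: pts r (fun k => e k.succ) =
          (l₁ ++ [(e 0).1]) ++ c * ((e 0).1 * (e 0).2) :: pts r (fun k => e k.succ) := by
        rw [List.append_assoc]
        rfl
      rw [h3, hφ, List.append_assoc]
      rfl
    · have h1 : (fun k : Fin r => Function.update e i.succ (c * (e i.succ).1, (e i.succ).2) k.succ) =
          Function.update (fun k : Fin r => e k.succ) i (c * (e i.succ).1, (e i.succ).2) := by
        funext k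
        by_cases hk : k = i
        · rw [hk, Function.update_self, Function.update_self]
        · rw [Function.update_of_ne hk, Function.update_of_ne]
          exact fun h => hk (Fin.succ_injective _ h)
      have h2 : pts (r + 1) (Function.update e i.succ (c * (e i.succ).1, (e i.succ).2)) =
          (e 0).1 :: (e 0).1 * (e 0).2 ::
            pts r (Function.update (fun k : Fin r => e k.succ) i (c * (e i.succ).1, (e i.succ).2)) := by
        rw [pts, h1, Function.update_of_ne (Fin.succ_ne_zero i).symm]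
      have h3 := ih (l₁ ++ [(e 0).1, (e 0).1 * (e 0).2]) (fun k => e k.succ) i
      rw [List.append_assoc, List.append_assoc] at h3
      rw [h2]
      exact h3

theorem isKer_K1' {c : Z} {r' : ℕ} {v : R} {s : Z → R} {φ : List Z → R}
    (h : NilEuler c r' v s φ) (r : ℕ) : IsKer c (K1' φ (r := r)) := by
  refine ⟨fun w e => ?_, fun i e => ?_⟩
  · show φ (pts r _) = φ (pts r e)
    rw [pts_map, h.inv]
  · exact pts_update h.per r [] e i

theorem eu_mul (s : Z → R) (w x y z : Z) : eu s (w * x) (w * y) (w * z) = eu s x y z := by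
  have h : ∀ a b : Z, (w * a)⁻¹ * (w * b) = a⁻¹ * b := fun a b => by group
  unfold eu
  rw [h, h, h]

theorem eu_c1 {c : Z} (hc : ∀ z, c * z = z * c) {v : R} {s : Z → R}
    (hs : ∀ z, s (c * z) = s z + v) (x y z : Z) : eu s (c * x) y z = eu s x y z := by
  have hs' : ∀ z, s (c⁻¹ * z) = s z - v := fun z => by
    have := hs (c⁻¹ * z)
    rw [mul_inv_cancel_left] at this
    rw [this]
    ring
  have hc' : ∀ z, z * c⁻¹ = c⁻¹ * z := fun z => by
    rw [mul_inv_eq_iff_eq_mul, mul_assoc, ← hc, inv_mul_cancel_left]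
  unfold eu
  rw [mul_inv_rev, hc', mul_assoc, mul_assoc, hs', hs']
  ring

theorem eu_c23 {c : Z} (hc : ∀ z, c * z = z * c) {v : R} {s : Z → R}
    (hs : ∀ z, s (c * z) = s z + v) (x y z : Z) : eu s x (c * y) (c * z) = eu s x y z := by
  rw [← eu_c1 hc hs x (c * y) (c * z), eu_mul]

/-- the kernel of the powers -/
def K2' (s : Z → R) {k : ℕ} (e : Fin (k + 1) → Z × Z) : R :=
  s (e 0).2 * ∏ l : Fin k,
    (-eu s ((e 0).1 * (e 0).2) (e l.succ).1 ((e l.succ).1 * (e l.succ).2))

theorem isKer_K2' {c : Z} (hc : ∀ z, c * z = z * c) {v : R} {s : Z → R}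
    (hs : ∀ z, s (c * z) = s z + v) (k : ℕ) : IsKer c (K2' s (k := k)) := by
  refine ⟨fun w e => ?_, fun i e => ?_⟩
  · show s (e 0).2 * ∏ l : Fin k, (-eu s (w * (e 0).1 * (e 0).2) (w * (e l.succ).1)
      (w * (e l.succ).1 * (e l.succ).2)) = _
    unfold K2'
    congr 1
    refine Finset.prod_congr rfl fun l _ => ?_
    rw [mul_assoc w, mul_assoc w, eu_mul]
  · refine Fin.cases ?_ (fun i => ?_) i
    · unfold K2'
      rw [Function.update_self]
      congr 1
      refine Finset.prod_congr rfl fun l _ => ?_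
      rw [Function.update_of_ne (Fin.succ_ne_zero l)]
      show -eu s (c * (e 0).1 * (e 0).2) _ _ = _
      rw [mul_assoc c, eu_c1 hc hs]
    · unfold K2'
      rw [Function.update_of_ne (Fin.succ_ne_zero i).symm]
      congr 1
      refine Finset.prod_congr rfl fun l _ => ?_
      by_cases hl : l = i
      · rw [hl, Function.update_self]
        show -eu s _ (c * (e i.succ).1) (c * (e i.succ).1 * (e i.succ).2) = _
        rw [mul_assoc c, eu_c23 hc hs]
      · rw [Function.update_of_ne fun h => hl (Fin.succ_injective _ h)]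

end LEUL_aux

open LCORE_aux LEUL_aux

theorem t_LEUL (hM : s_LMSUM.{u, v}) (hW : s_LKERW.{u, v}) (hD : s_LKERD.{u, v}) :
    s_LEUL.{u, v} := by
  intro Z R _ _ c hc r v s φ hr hE
  classical
  -- the power of `ell - v`
  have h1 : VV c r (fun y => (v - ell s y) ^ r) := by
    obtain ⟨k, rfl⟩ : ∃ k, r = k + 1 := ⟨r - 1, by omega⟩
    have h2 := (VV.ker hM hW hD hc (s := k) (r := k + 1) (K1' φ) (isKer_K1' hE _)
      (Nat.lt_succ_self k)).mul ((-1) ^ (k + 1))
    refine h2.congr fun y hy => ?_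
    have h3 : ∑ j : Fin (k + 1) → J y, φ (pts (k + 1) (fun i => E y (j i)) ++ []) =
        (ell s y - v) ^ (k + 1) := by
      rw [← sum_cup hE.shift y hy (k + 1) 1]
      have h4 : ∀ j : Fin (k + 1) → J y, cupE s (pts (k + 1) (fun i => E y (j i)) ++ [1]) =
          cobL φ (pts (k + 1) (fun i => E y (j i)) ++ [1]) := fun j => by
        rw [hE.cob]
        rw [List.length_append, length_pts]
        rfl
      rw [Finset.sum_congr rfl fun j _ => h4 j, sum_cob y hy (k + 1) φ hE.per, cobL_cons]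
      show _ = _ - ∑ i ∈ range 0, _
      rw [Finset.sum_range_zero, sub_zero]
    have h5 : (v - ell s y) ^ (k + 1) = (-1) ^ (k + 1) * (ell s y - v) ^ (k + 1) := by
      rw [← mul_pow]
      congr 1
      ring
    rw [h5, ← h3]
    congr 1
    refine Finset.sum_congr rfl fun j _ => ?_
    rw [List.append_nil]
    rfl
  -- the mixed terms
  have h2 : ∀ k, k < r → VV c r (fun y => ell s y * (v - ell s y) ^ k) := by
    intro k hk
    refine (VV.ker hM hW hD hc (s := k) (r := r) (K2' s) (isKer_K2' hc hE.shift k) hk).congr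
      fun y hy => ?_
    rw [← (Fin.consEquiv fun _ : Fin (k + 1) => J y).sum_comp, Fintype.sum_prod_type]
    unfold ell
    rw [Finset.sum_mul]
    refine Finset.sum_congr rfl fun j0 _ => ?_
    have h5 : ∀ t : Fin k → J y, K2' s (fun i => (eds 1 (FreeMonoid.toList y)).get
        ((Fin.consEquiv fun _ : Fin (k + 1) => J y) (j0, t) i)) =
        s (E y j0).2 * ∏ l : Fin k, (-eu s ((E y j0).1 * (E y j0).2) (E y (t l)).1
          ((E y (t l)).1 * (E y (t l)).2)) := by
      intro t
      rfl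
    rw [Finset.sum_congr rfl fun t _ => h5 t, ← Finset.mul_sum]
    congr 1
    have h6 := Finset.prod_univ_sum (fun _ : Fin k => (Finset.univ : Finset (J y)))
      (fun _ j => -eu s ((E y j0).1 * (E y j0).2) (E y j).1 ((E y j).1 * (E y j).2))
    rw [Finset.prod_const, Finset.card_univ, Fintype.card_fin, Fintype.piFinset_univ] at h6
    rw [← h6, Finset.sum_neg_distrib, sum_eu_left hc hE.shift y hy, neg_sub]
    rfl
  have h3 : VV c r (fun y => v ^ r - (v - ell s y) ^ r) := by
    have h4 := VV.sum (c := c) (r := r) (Finset.range r)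
      (fun i y => v ^ i * (ell s y * (v - ell s y) ^ (r - 1 - i)))
      (fun i hi => (h2 (r - 1 - i) (by
        have := Finset.mem_range.1 hi
        omega)).mul _)
    refine h4.congr fun y _ => ?_
    rw [← (Commute.all v (v - ell s y)).mul_geom_sum₂ r, Finset.mul_sum]
    refine Finset.sum_congr rfl fun i _ => ?_
    ring
  obtain ⟨W, e1, e2, e3, e4⟩ := h1.add h3
  refine ⟨W, ⟨e1, e2, fun a ha => ?_⟩, e4⟩
  rw [e3 a ha]
  ring

end Pool.Agent.SUR
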