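import Pool.Agent.SUR.St

/-!
# Project SUR (MP_e40716_gt), module GAM

The integral logarithm as the contraction of the degree.
-/

set_option autoImplicit false

universe u

namespace Pool.Agent.SUR.GAMx

open Pool.Agent.WhK Pool.Agent.SUR Finset

section Bil

variable {X A : Type*} [AddCommGroup A] (F : X → X → A)

theorem bil_eq (x y : MonoidAlgebra ℤ X) :
    bil F x y = x.coeff.sum fun a r => y.coeff.sum fun b s => (r * s) • F a b := rfl

theorem bil_add_left (x x' y : MonoidAlgebra ℤ X) :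
    bil F (x + x') y = bil F x y + bil F x' y := by
  classical
  rw [bil_eq, bil_eq, bil_eq, MonoidAlgebra.coeff_add, Finsupp.sum_add_index']
  · intro a
    simp
  · intro a r r'
    rw [← Finsupp.sum_add]
    exact Finsupp.sum_congr fun b _ => by rw [add_mul, add_smul]

theorem bil_add_right (x y y' : MonoidAlgebra ℤ X) :
    bil F x (y + y') = bil F x y + bil F x y' := by
  classical
  rw [bil_eq, bil_eq, bil_eq, ← Finsupp.sum_add]
  refine Finsupp.sum_congr fun a _ => ?_
  rw [MonoidAlgebra.coeff_add, Finsupp.sum_add_index']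
  · intro b
    simp
  · intro b s s'
    rw [mul_add, add_smul]

theorem bil_zero_left (y : MonoidAlgebra ℤ X) : bil F 0 y = 0 := by
  have h := bil_add_left F 0 0 y
  rw [add_zero] at h
  exact left_eq_add.1 h

theorem bil_zero_right (x : MonoidAlgebra ℤ X) : bil F x 0 = 0 := by
  have h := bil_add_right F x 0 0
  rw [add_zero] at h
  exact left_eq_add.1 h

theorem bil_neg_right (x y : MonoidAlgebra ℤ X) : bil F x (-y) = -bil F x y := by
  have h := bil_add_right F x (-y) y
  rw [neg_add_cancel, bil_zero_right] at h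
  exact eq_neg_of_add_eq_zero_left h.symm

theorem bil_sub_right (x y y' : MonoidAlgebra ℤ X) :
    bil F x (y - y') = bil F x y - bil F x y' := by
  rw [sub_eq_add_neg, bil_add_right, bil_neg_right, ← sub_eq_add_neg]

theorem bil_sum_left {I : Type*} (s : Finset I) (f : I → MonoidAlgebra ℤ X)
    (y : MonoidAlgebra ℤ X) : bil F (∑ i ∈ s, f i) y = ∑ i ∈ s, bil F (f i) y := by
  classical
  induction s using Finset.induction_on with
  | empty => rw [Finset.sum_empty, Finset.sum_empty, bil_zero_left]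
  | insert i s hi ih => rw [Finset.sum_insert hi, Finset.sum_insert hi, bil_add_left, ih]

theorem bil_sum_right {I : Type*} (s : Finset I) (x : MonoidAlgebra ℤ X)
    (f : I → MonoidAlgebra ℤ X) : bil F x (∑ i ∈ s, f i) = ∑ i ∈ s, bil F x (f i) := by
  classical
  induction s using Finset.induction_on with
  | empty => rw [Finset.sum_empty, Finset.sum_empty, bil_zero_right]
  | insert i s hi ih => rw [Finset.sum_insert hi, Finset.sum_insert hi, bil_add_right, ih]

theorem bil_single (a b : X) (r s : ℤ) :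
    bil F (MonoidAlgebra.single a r) (MonoidAlgebra.single b s) = (r * s) • F a b := by
  rw [bil_eq, MonoidAlgebra.coeff_single, MonoidAlgebra.coeff_single, Finsupp.sum_single_index,
    Finsupp.sum_single_index]
  · simp
  · rw [Finsupp.sum_single_index] <;> simp

end Bil

section Wr

variable {𝔐 : Type*} [Monoid 𝔐] {N : ℕ}

theorem io_single (a : ZMod N → 𝔐) (r : ℤ) :
    io (MonoidAlgebra.single a r) = MonoidAlgebra.single (⟨a, 0⟩ : Wr 𝔐 N) r := by
  show MonoidAlgebra.mapDomain (inW 𝔐 N) (MonoidAlgebra.single a r) = _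
  rw [MonoidAlgebra.mapDomain_single]
  rfl

/-- the power of the cyclic element -/
noncomputable def sg (𝔐 : Type*) [Monoid 𝔐] (N : ℕ) (j : ZMod N) : MonoidAlgebra ℤ (Wr 𝔐 N) :=
  MonoidAlgebra.single (⟨1, j⟩ : Wr 𝔐 N) 1

theorem io_single_mul_sg (a : ZMod N → 𝔐) (r : ℤ) (j : ZMod N) :
    io (MonoidAlgebra.single a r) * sg 𝔐 N j = MonoidAlgebra.single (⟨a, j⟩ : Wr 𝔐 N) r := by
  rw [io_single, sg, MonoidAlgebra.single_mul_single, mul_one, Wr.mul_def]
  congr 1
  ext1
  · show a * shiftHom 0 1 = a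
    rw [map_one, mul_one]
  · exact zero_add _

theorem sg_zero : sg 𝔐 N 0 = 1 := rfl

theorem eW_eq [NeZero N] : eW 𝔐 N = ∑ j : ZMod N, sg 𝔐 N j := rfl

end Wr

open Classical in
/-- the contraction of the degree -/
noncomputable def Fd {𝔐 K : Type u} [Monoid 𝔐] (cl : 𝔐 → K) (N : ℕ) (k : K) (a b : Wr 𝔐 N) :
    ZMod N :=
  (if (a * b).i = 1 ∧ cl (prodSeq (a * b).s) = k then (1 : ZMod N) else 0) * b.i

open Classical in
theorem bil_Fd {𝔐 K : Type u} [Monoid 𝔐] (cl : 𝔐 → K) (N : ℕ) [NeZero N] (k : K)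
    (A B : MonoidAlgebra ℤ (ZMod N → 𝔐)) (j l : ZMod N) :
    bil (Fd cl N k) (io A * sg 𝔐 N j) (io B * sg 𝔐 N l) =
      if j + l = 1 then l * (Tmod cl (A * rho j B)) k else 0 := by
  induction A using MonoidAlgebra.induction_linear with
  | zero => rw [map_zero, zero_mul, bil_zero_left, zero_mul, map_zero]; simp
  | add A A' hA hA' =>
    rw [map_add, add_mul, bil_add_left, hA, hA', add_mul, map_add, Finsupp.add_apply]
    split
    · rw [mul_add]
    · rw [add_zero]
  | single a r =>
    induction B using MonoidAlgebra.induction_linear with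
    | zero => rw [map_zero, zero_mul, bil_zero_right, map_zero, mul_zero, map_zero]; simp
    | add B B' hB hB' =>
      rw [map_add, add_mul, bil_add_right, hB, hB', map_add, mul_add, map_add, Finsupp.add_apply]
      split
      · rw [mul_add]
      · rw [add_zero]
    | single b s =>
      rw [io_single_mul_sg, io_single_mul_sg, bil_single, rho_eq, MonoidAlgebra.mapDomain_single,
        MonoidAlgebra.single_mul_single, Tmod_apply, Tint_single]
      have hT : (Finsupp.mapRange.addMonoidHom (Int.castAddHom (ZMod N)))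
          (Finsupp.single (cl (prodSeq (a * shiftHom j b))) (r * s)) =
          Finsupp.single (cl (prodSeq (a * shiftHom j b))) (((r * s : ℤ)) : ZMod N) := by
        rw [Finsupp.mapRange.addMonoidHom_apply, Finsupp.mapRange_single]
        rfl
      rw [hT, Finsupp.single_apply]
      unfold Fd
      rw [Wr.mul_def]
      show (r * s) • ((if j + l = 1 ∧ cl (prodSeq (a * shiftHom j b)) = k then (1 : ZMod N) else 0)
        * l) = _
      by_cases h1 : j + l = 1
      · rw [if_pos h1]
        by_cases h2 : cl (prodSeq (a * shiftHom j b)) = k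
        · rw [if_pos ⟨h1, h2⟩, if_pos h2, one_mul, zsmul_eq_mul, mul_comm]
        · rw [if_neg (fun h => h2 h.2), if_neg h2, zero_mul, smul_zero, mul_zero]
      · rw [if_neg h1, if_neg (fun h => h1 h.1), zero_mul, smul_zero]

end Pool.Agent.SUR.GAMx

namespace Pool.Agent.SUR

open Pool.Agent.WhK GAMx Finset

/-- Module GAM. -/
theorem t_GAM : s_GAM.{u} := by
  classical
  intro 𝔐 K _ cl hcl N _ k U Ui Wi z
  have hF : (fun a b : Wr 𝔐 N => (if (a * b).i = 1 ∧ cl (prodSeq (a * b).s) = k then (1 : ZMod N)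
    else 0) * b.i) = Fd cl N k := by
    funext a b
    unfold Fd
    congr
  have hX : XW Ui z Wi = io Ui * sg 𝔐 N 0 + ∑ j : ZMod N, io (Ui * z * Wi) * sg 𝔐 N j := by
    rw [XW, eW_eq, sg_zero, mul_one, Finset.mul_sum]
  have hY : YW U z = io U * sg 𝔐 N 0 - ∑ l : ZMod N, io z * sg 𝔐 N l := by
    rw [YW, eW_eq, sg_zero, mul_one, Finset.mul_sum]
  have h1 : bil (Fd cl N k) (io Ui * sg 𝔐 N 0) (io U * sg 𝔐 N 0) = 0 := by
    rw [bil_Fd, zero_mul, ite_self]
  have h2 : bil (Fd cl N k) (io Ui * sg 𝔐 N 0) (∑ l : ZMod N, io z * sg 𝔐 N l) =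
      Tmod cl (Ui * z) k := by
    rw [bil_sum_right, Finset.sum_eq_single (1 : ZMod N)]
    · rw [bil_Fd, if_pos (zero_add _), one_mul, rho_zero]
    · intro l _ hl
      rw [bil_Fd, if_neg (by rwa [zero_add])]
    · intro h
      exact absurd (Finset.mem_univ _) h
  have h3 : bil (Fd cl N k) (∑ j : ZMod N, io (Ui * z * Wi) * sg 𝔐 N j) (io U * sg 𝔐 N 0) = 0 := by
    rw [bil_sum_left]
    exact Finset.sum_eq_zero fun j _ => by rw [bil_Fd, zero_mul, ite_self]
  have h4 : bil (Fd cl N k) (∑ j : ZMod N, io (Ui * z * Wi) * sg 𝔐 N j)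
      (∑ l : ZMod N, io z * sg 𝔐 N l) =
      ∑ j : ZMod N, (1 - j) * (Tmod cl (Ui * z * Wi * rho j z)) k := by
    rw [bil_sum_left]
    refine Finset.sum_congr rfl fun j _ => ?_
    rw [bil_sum_right, Finset.sum_eq_single (1 - j)]
    · rw [bil_Fd, if_pos (by ring)]
    · intro l _ hl
      rw [bil_Fd, if_neg]
      intro h
      exact hl (by rw [← h]; ring)
    · intro h
      exact absurd (Finset.mem_univ _) h
  have hg : (cycData N cl hcl).gam Ui Wi z k = Tmod cl (Ui * z) k +
      ∑ j : ZMod N, (1 - j) * (Tmod cl (Ui * z * Wi * rho j z)) k := by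
    show (Tmod cl (Ui * z) + ∑ j : ZMod N, (1 - j) • Tmod cl (Ui * z * Wi * rho j z)) k = _
    rw [Finsupp.add_apply, Finsupp.finsetSum_apply]
    rfl
  have hmain : bil (Fd cl N k) (XW Ui z Wi) (YW U z) = -((cycData N cl hcl).gam Ui Wi z k) := by
    rw [hX, hY, bil_sub_right, bil_add_left, bil_add_left, h1, h2, h3, h4, hg]
    ring
  rw [← hmain, ← hF]

end Pool.Agent.SUR
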