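import Pool.Agent.SUR.IEVA
import Pool.Agent.SUR.ATOT
import Pool.Agent.SUR.AWRW
import Pool.Agent.SUR.GAM

/-!
# The main identity modulo an ideal
-/

set_option autoImplicit false

universe u

namespace Pool.Agent.SUR

open Pool.Agent.WhK Finset

namespace IREF

open TOTx ATOTx INVx

section Ideal

variable {𝔐 : Type*} [Monoid 𝔐] {N : ℕ} {S : Set (MonoidAlgebra ℤ 𝔐)}

/-- the ideal of the ring of the wreath product -/
noncomputable def JW (N : ℕ) (S : Set (MonoidAlgebra ℤ 𝔐)) :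
    AddSubgroup (MonoidAlgebra ℤ (Wr 𝔐 N)) :=
  AddSubgroup.closure {y | ∃ e ∈ II (ZMod N) S, ∃ j : ZMod N, y = io e * sg j}

theorem io_sg_mem {e : MonoidAlgebra ℤ (ZMod N → 𝔐)} (he : e ∈ II (ZMod N) S) (j : ZMod N) :
    io e * sg j ∈ JW N S := AddSubgroup.subset_closure ⟨e, he, j, rfl⟩

theorem io_mem {e : MonoidAlgebra ℤ (ZMod N → 𝔐)} (he : e ∈ II (ZMod N) S) :
    io e ∈ JW N S := by
  have h := io_sg_mem he (0 : ZMod N)
  rwa [sg_zero, mul_one] at h

theorem io_eW_mem [NeZero N] {e : MonoidAlgebra ℤ (ZMod N → 𝔐)} (he : e ∈ II (ZMod N) S) :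
    io e * eW 𝔐 N ∈ JW N S := by
  rw [eW_eq, Finset.mul_sum]
  exact (JW N S).sum_mem fun j _ => io_sg_mem he j

theorem JW_mono : Mono (JW N S) where
  l c e he := by
    induction he using AddSubgroup.closure_induction with
    | mem e he =>
      obtain ⟨e, he, j, rfl⟩ := he
      have h : (MonoidAlgebra.single c 1 : MonoidAlgebra ℤ (Wr 𝔐 N)) * (io e * sg j) =
          io (MonoidAlgebra.single c.s 1 * rho c.i e) * sg (c.i + j) := by
        have h1 : (MonoidAlgebra.single c 1 : MonoidAlgebra ℤ (Wr 𝔐 N)) =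
            io (MonoidAlgebra.single c.s 1) * sg c.i := (io_sg c.s 1 c.i).symm
        rw [h1, mul_assoc, ← mul_assoc (sg c.i), sg_io, map_mul, mul_assoc (io (rho c.i e)),
          sg_mul, mul_assoc]
      rw [h]
      exact io_sg_mem (II_mul_left _ (II_rho _ he)) _
    | zero => rw [mul_zero]; exact (JW N S).zero_mem
    | add x y _ _ hx hy => rw [mul_add]; exact (JW N S).add_mem hx hy
    | neg x _ hx => rw [mul_neg]; exact (JW N S).neg_mem hx
  r c e he := by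
    induction he using AddSubgroup.closure_induction with
    | mem e he =>
      obtain ⟨e, he, j, rfl⟩ := he
      have h : io e * sg j * (MonoidAlgebra.single c 1 : MonoidAlgebra ℤ (Wr 𝔐 N)) =
          io (e * rho j (MonoidAlgebra.single c.s 1)) * sg (j + c.i) := by
        have h1 : (MonoidAlgebra.single c 1 : MonoidAlgebra ℤ (Wr 𝔐 N)) =
            io (MonoidAlgebra.single c.s 1) * sg c.i := (io_sg c.s 1 c.i).symm
        rw [h1, mul_assoc, ← mul_assoc (sg j), sg_io, map_mul, mul_assoc (io (rho j _)), sg_mul,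
          mul_assoc]
      rw [h]
      exact io_sg_mem (II_mul_right _ he) _
    | zero => rw [zero_mul]; exact (JW N S).zero_mem
    | add x y _ _ hx hy => rw [add_mul]; exact (JW N S).add_mem hx hy
    | neg x _ hx => rw [neg_mul]; exact (JW N S).neg_mem hx

theorem kapL_io_sg {A : Type*} [AddCommGroup A] (T : Wr 𝔐 N → A)
    (e : MonoidAlgebra ℤ (ZMod N → 𝔐)) (j : ZMod N) :
    kapL T (io e * sg j) = kapL (fun s => T ⟨s, j⟩) e := by
  induction e using MonoidAlgebra.induction_linear with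
  | zero => rw [map_zero, zero_mul, map_zero, map_zero]
  | add x y hx hy => rw [map_add, add_mul, map_add, map_add, hx, hy]
  | single a r => rw [io_sg, kapL_single, kapL_single]

/-- a function which annihilates the generators annihilates the ideal -/
theorem kapL_JW {A : Type*} [AddCommGroup A] (T : Wr 𝔐 N → A)
    (hT : ∀ j : ZMod N, ∀ e ∈ II (ZMod N) S, kapL (fun s => T ⟨s, j⟩) e = 0)
    {x : MonoidAlgebra ℤ (Wr 𝔐 N)} (hx : x ∈ JW N S) : kapL T x = 0 := by
  induction hx using AddSubgroup.closure_induction with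
  | mem e he =>
    obtain ⟨e, he, j, rfl⟩ := he
    rw [kapL_io_sg]
    exact hT j e he
  | zero => rw [map_zero]
  | add x y _ _ hx hy => rw [map_add, hx, hy, add_zero]
  | neg x _ hx => rw [map_neg, hx, neg_zero]

variable {A : Type*} [AddCommGroup A] {W : 𝔐 → 𝔐 → A}

theorem kapL_fsum {X ι : Type*} (s : Finset ι) (f : ι → X → A) (x : MonoidAlgebra ℤ X) :
    kapL (fun a => ∑ i ∈ s, f i a) x = ∑ i ∈ s, kapL (f i) x := by
  induction x using MonoidAlgebra.induction_linear with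
  | zero => simp
  | add x y hx hy =>
    rw [map_add, hx, hy, ← Finset.sum_add_distrib]
    exact Finset.sum_congr rfl fun i _ => (map_add _ _ _).symm
  | single a r =>
    rw [kapL_single, Finset.smul_sum]
    exact Finset.sum_congr rfl fun i _ => (kapL_single _ _ _).symm

theorem Pr_mul_mem (r : ZMod N) (u v : ZMod N → 𝔐 → 𝔐) (hu : ∀ i, u i ∈ Wd 𝔐)
    (hv : ∀ i, v i ∈ Wd 𝔐) :
    (fun a => Pr r ((fun i => u i a) * fun i => v i a)) ∈ Wd 𝔐 :=
  Wd.Pr_mem r (fun i a => u i a * v i a) fun i => Wd.mul_mem' (hu i) (hv i)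

theorem eNA_left [NeZero N] (hS : ∀ x ∈ S, VanW W x) (b : ZMod N → 𝔐)
    {e : MonoidAlgebra ℤ (ZMod N → 𝔐)} (he : e ∈ II (ZMod N) S) :
    kapL (fun a => eNA W a b) e = 0 := by
  refine kapL_II _ ?_ he
  intro x hx u hu
  unfold eNA
  rw [kapL_fsum]
  refine Finset.sum_eq_zero fun r _ => ?_
  exact hS x hx _ (Wd.mul_mem' (Pr_mul_mem r u (fun i _ => b i) hu fun i => Wd.const_mem _) (hu r))
    _ (Wd.const_mem (b r))

theorem eNA_right [NeZero N] (hS : ∀ x ∈ S, VanW W x) (b : ZMod N → 𝔐)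
    {e : MonoidAlgebra ℤ (ZMod N → 𝔐)} (he : e ∈ II (ZMod N) S) :
    kapL (fun a => eNA W b a) e = 0 := by
  refine kapL_II _ ?_ he
  intro x hx u hu
  unfold eNA
  rw [kapL_fsum]
  refine Finset.sum_eq_zero fun r _ => ?_
  exact hS x hx _ (Wd.mul_mem' (Pr_mul_mem r (fun i _ => b i) u (fun i => Wd.const_mem _) hu)
    (Wd.const_mem (b r))) _ (hu r)

theorem bil_left_zero {X : Type*} (F : X → X → A) (x y : MonoidAlgebra ℤ X)
    (h : ∀ b, kapL (fun a => F a b) x = 0) : bil F x y = 0 := by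
  rw [bil_kapL, kapL_swap]
  have h1 : (fun b => kapL (fun a => F a b) x) = fun _ => (0 : A) := funext h
  rw [h1, kapL_zero]

theorem bil_right_zero {X : Type*} (F : X → X → A) (x y : MonoidAlgebra ℤ X)
    (h : ∀ a, kapL (fun b => F a b) y = 0) : bil F x y = 0 := by
  rw [bil_kapL]
  have h1 : (fun a => kapL (fun b => F a b) y) = fun _ => (0 : A) := funext h
  rw [h1, kapL_zero]

theorem wrA_left [NeZero N] (hS : ∀ x ∈ S, VanW W x) (b : Wr 𝔐 N) (j : ZMod N)
    {e : MonoidAlgebra ℤ (ZMod N → 𝔐)} (he : e ∈ II (ZMod N) S) :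
    kapL (fun s => wrA W ⟨s, j⟩ b) e = 0 := by
  refine kapL_II _ ?_ he
  intro x hx u hu
  unfold wrA
  by_cases h : j + b.i = 1
  · simp only [if_pos h]
    rw [kapL_fsum]
    refine Finset.sum_eq_zero fun r _ => ?_
    exact hS x hx _ (Wd.mul_mem' (Pr_mul_mem r u (fun i _ => shiftHom j b.s i) hu
      fun i => Wd.const_mem _) (hu r)) _ (Wd.const_mem (shiftHom j b.s r))
  · simp only [if_neg h]
    exact kapL_zero x

theorem wrA_right [NeZero N] (hS : ∀ x ∈ S, VanW W x) (b : Wr 𝔐 N) (j : ZMod N)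
    {e : MonoidAlgebra ℤ (ZMod N → 𝔐)} (he : e ∈ II (ZMod N) S) :
    kapL (fun s => wrA W b ⟨s, j⟩) e = 0 := by
  refine kapL_II _ ?_ he
  intro x hx u hu
  unfold wrA
  by_cases h : b.i + j = 1
  · simp only [if_pos h]
    rw [kapL_fsum]
    refine Finset.sum_eq_zero fun r _ => ?_
    exact hS x hx _ (Wd.mul_mem' (Pr_mul_mem r (fun i _ => b.s i) (fun i => u (i + b.i))
      (fun i => Wd.const_mem _) fun i => hu _) (Wd.const_mem (b.s r))) _ (hu (r + b.i))
  · simp only [if_neg h]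
    exact kapL_zero x

end Ideal

/-! ### The triple modulo an ideal -/

/-- invariant elements which are inverse to each other modulo the ideal, and a norm
representative -/
structure ITrip {𝔐 : Type*} [Monoid 𝔐] {N : ℕ} [NeZero N] (S : Set (MonoidAlgebra ℤ 𝔐))
    (U Ui Wo Wi z : MonoidAlgebra ℤ (ZMod N → 𝔐)) : Prop where
  U_inv : ∀ i, rho i U = U
  W_inv : ∀ i, rho i Wo = Wo
  Ui_inv : ∀ i, rho i Ui = Ui
  Wi_inv : ∀ i, rho i Wi = Wi
  h1 : U * Ui - 1 ∈ II (ZMod N) S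
  h2 : Ui * U - 1 ∈ II (ZMod N) S
  h3 : Wo * Wi - 1 ∈ II (ZMod N) S
  h4 : Wi * Wo - 1 ∈ II (ZMod N) S
  hz : ∑ i, rho i z = U - Wo

section Trip

variable {𝔐 : Type u} [Monoid 𝔐] {N : ℕ} [NeZero N] {S : Set (MonoidAlgebra ℤ 𝔐)}
  {U Ui Wo Wi z : MonoidAlgebra ℤ (ZMod N → 𝔐)}

theorem ITrip.sum_V (t : ITrip S U Ui Wo Wi z) :
    ∑ i, rho i (Ui * z * Wi) = (Wi - Ui) + ((Ui * U - 1) * Wi - Ui * (Wo * Wi - 1)) := by
  have h5 : ∀ i, rho i (Ui * z * Wi) = Ui * rho i z * Wi := fun i => by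
    rw [map_mul, map_mul, t.Ui_inv, t.Wi_inv]
  rw [Finset.sum_congr rfl fun i _ => h5 i, ← Finset.sum_mul, ← Finset.mul_sum, t.hz, mul_sub,
    sub_mul, sub_mul, one_mul, mul_sub, mul_one, mul_assoc Ui Wo Wi]
  abel

theorem ITrip.inv_left (t : ITrip S U Ui Wo Wi z) : XW Ui z Wi * YW U z - 1 ∈ JW N S := by
  have hU : ∀ i, rho i U = U := t.U_inv
  have e1 : io (Ui * z * Wi) * eW 𝔐 N * io U = io (Ui * z * Wi * U) * eW 𝔐 N := by
    rw [mul_assoc, eW_io hU, ← mul_assoc, ← map_mul]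
  have e2 : io (Ui * z * Wi) * eW 𝔐 N * (io z * eW 𝔐 N) =
      io (Ui * z * Wi * (U - Wo)) * eW 𝔐 N := by
    rw [mul_assoc, ← mul_assoc (eW 𝔐 N), eW_io_eW, t.hz, ← mul_assoc, ← map_mul]
  have e3 : Ui * z * Wi * (U - Wo) = Ui * z * Wi * U - Ui * z * (Wi * Wo - 1) - Ui * z := by
    rw [mul_sub, mul_sub, mul_one, mul_assoc (Ui * z) Wi Wo]
    abel
  have e4 : XW Ui z Wi * YW U z - 1 =
      io (Ui * U - 1) + io (Ui * z * (Wi * Wo - 1)) * eW 𝔐 N := by
    rw [XW, YW, add_mul, mul_sub, mul_sub, e1, e2, e3, ← map_mul, ← mul_assoc,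
      ← map_mul, map_sub, map_sub, sub_mul, sub_mul, map_sub io (Ui * U) 1, map_one]
    abel
  rw [e4]
  exact (JW N S).add_mem (io_mem t.h2) (io_eW_mem (II_mul_left _ t.h4))

theorem ITrip.inv_right (t : ITrip S U Ui Wo Wi z) : YW U z * XW Ui z Wi - 1 ∈ JW N S := by
  have hUi : ∀ i, rho i Ui = Ui := t.Ui_inv
  have e1 : io U * (io (Ui * z * Wi) * eW 𝔐 N) =
      io (z * Wi) * eW 𝔐 N + io ((U * Ui - 1) * (z * Wi)) * eW 𝔐 N := by
    rw [← mul_assoc, ← map_mul, ← add_mul, ← map_add]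
    congr 2
    rw [sub_mul, one_mul, ← mul_assoc, ← mul_assoc, ← mul_assoc]
    abel
  have e2 : io z * eW 𝔐 N * io Ui = io (z * Ui) * eW 𝔐 N := by
    rw [mul_assoc, eW_io hUi, ← mul_assoc, ← map_mul]
  have e3 : io z * eW 𝔐 N * (io (Ui * z * Wi) * eW 𝔐 N) = io (z * (Wi - Ui)) * eW 𝔐 N +
      io (z * ((Ui * U - 1) * Wi - Ui * (Wo * Wi - 1))) * eW 𝔐 N := by
    rw [mul_assoc, ← mul_assoc (eW 𝔐 N), eW_io_eW, t.sum_V, ← mul_assoc, ← map_mul, ← add_mul,
      ← map_add, ← mul_add]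
  have e4 : YW U z * XW Ui z Wi - 1 = io (U * Ui - 1) +
      (io ((U * Ui - 1) * (z * Wi)) * eW 𝔐 N -
        io (z * ((Ui * U - 1) * Wi - Ui * (Wo * Wi - 1))) * eW 𝔐 N) := by
    have h5 : io (z * (Wi - Ui)) * eW 𝔐 N = io (z * Wi) * eW 𝔐 N - io (z * Ui) * eW 𝔐 N := by
      rw [mul_sub, map_sub, sub_mul]
    have h6 : io (U * Ui - 1) = io (U * Ui) - 1 := by rw [map_sub, map_one]
    rw [XW, YW, sub_mul, mul_add, mul_add, e1, e2, e3, ← map_mul, h5, h6]
    abel
  rw [e4]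
  exact (JW N S).add_mem (io_mem t.h1) ((JW N S).sub_mem (io_eW_mem (II_mul_right _ t.h1))
    (io_eW_mem (II_mul_left _ ((II (ZMod N) S).sub_mem (II_mul_right _ t.h2)
      (II_mul_left _ t.h3)))))

theorem ITrip.tot {A : Type} [AddCommGroup A] {W : 𝔐 → 𝔐 → A} (hS : ∀ x ∈ S, VanW W x)
    (hN : 1 < N) (t : ITrip S U Ui Wo Wi z) :
    N • bil (wrA W) (XW Ui z Wi) (YW U z) = -(bil (eNA W) Ui U - bil (eNA W) Wi Wo) := by
  have hU : ∀ i, rho i U = U := t.U_inv
  have hW : ∀ i, rho i Wo = Wo := t.W_inv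
  have hUi : ∀ i, rho i Ui = Ui := t.Ui_inv
  have hz : ∑ i, rho i z = U - Wo := t.hz
  have hV := t.sum_V
  set V := Ui * z * Wi with hVdef
  have hne : (0 : ZMod N) ≠ 1 := by
    have : Fact (1 < N) := ⟨hN⟩
    exact zero_ne_one
  -- the four parts
  have p1 : bil (wrA W) (io Ui) (io U) = 0 := by
    have h := bil_wrA W Ui U (0 : ZMod N) 0
    rw [sg_zero, mul_one, mul_one, add_zero, if_neg hne] at h
    exact h
  have p2 : bil (wrA W) (io Ui) (io z * eW 𝔐 N) = bil (eNA W) Ui z := by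
    have h : ∀ l : ZMod N, bil (wrA W) (io Ui) (io z * INVx.sg l) =
        if l = 1 then bil (eNA W) Ui z else 0 := by
      intro l
      have h := bil_wrA W Ui z (0 : ZMod N) l
      rw [sg_zero, mul_one, zero_add, rho_zero] at h
      exact h
    rw [INVx.eW_eq, Finset.mul_sum, Pool.Agent.SUR.bil_sum_right,
      Finset.sum_congr rfl fun l _ => h l, Finset.sum_ite_eq', if_pos (Finset.mem_univ _)]
  have p3 : bil (wrA W) (io V * eW 𝔐 N) (io U) = bil (eNA W) V U := by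
    have h : ∀ j : ZMod N, bil (wrA W) (io V * INVx.sg j) (io U) =
        if j = 1 then bil (eNA W) V U else 0 := by
      intro j
      have h := bil_wrA W V U j (0 : ZMod N)
      rw [sg_zero, mul_one, add_zero, hU] at h
      exact h
    rw [INVx.eW_eq, Finset.mul_sum, Pool.Agent.SUR.bil_sum_left,
      Finset.sum_congr rfl fun l _ => h l, Finset.sum_ite_eq', if_pos (Finset.mem_univ _)]
  have p4 : bil (wrA W) (io V * eW 𝔐 N) (io z * eW 𝔐 N) = bil (eNA W) V (U - Wo) := by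
    rw [← hz, Pool.Agent.SUR.bil_sum_right, INVx.eW_eq, Finset.mul_sum, Finset.mul_sum,
      Pool.Agent.SUR.bil_sum_left]
    refine Finset.sum_congr rfl fun j _ => ?_
    rw [Pool.Agent.SUR.bil_sum_right, Finset.sum_congr rfl fun l _ => bil_wrA W V z j l,
      Finset.sum_eq_single (1 - j)]
    · rw [if_pos (by ring)]
    · intro l _ hl
      rw [if_neg]
      intro h
      apply hl
      rw [← h]
      ring
    · intro h
      exact absurd (Finset.mem_univ _) h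
  have q1 : N • bil (eNA W) Ui z = bil (eNA W) Ui (U - Wo) := by
    have h : ∀ i : ZMod N, bil (eNA W) Ui (rho i z) = bil (eNA W) Ui z := fun i => by
      conv_lhs => rw [← hUi i]
      exact bil_rhoA W i Ui z
    rw [← hz, Pool.Agent.SUR.bil_sum_right, Finset.sum_congr rfl fun i _ => h i,
      Finset.sum_const, Finset.card_univ, ZMod.card]
  have q2 : N • bil (eNA W) V Wo = bil (eNA W) (Wi - Ui) Wo := by
    have h : ∀ i : ZMod N, bil (eNA W) (rho i V) Wo = bil (eNA W) V Wo := fun i => by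
      conv_lhs => rw [← hW i]
      exact bil_rhoA W i V Wo
    have h0 : bil (eNA W) ((Ui * U - 1) * Wi - Ui * (Wo * Wi - 1)) Wo = 0 :=
      bil_left_zero _ _ _ fun b => eNA_left hS b ((II (ZMod N) S).sub_mem (II_mul_right _ t.h2)
        (II_mul_left _ t.h3))
    have h1 : N • bil (eNA W) V Wo = bil (eNA W) (∑ i, rho i V) Wo := by
      rw [Pool.Agent.SUR.bil_sum_left, Finset.sum_congr rfl fun i _ => h i, Finset.sum_const,
        Finset.card_univ, ZMod.card]
    rw [h1, hV, Pool.Agent.SUR.bil_add_left, h0, add_zero]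
  rw [Pool.Agent.SUR.bil_sub_right] at q1
  rw [Pool.Agent.SUR.bil_sub_left] at q2
  rw [Pool.Agent.SUR.bil_sub_right] at p4
  have p0 : bil (wrA W) (XW Ui z Wi) (YW U z) = -bil (eNA W) Ui z + bil (eNA W) V Wo := by
    rw [XW, YW, ← hVdef, Pool.Agent.SUR.bil_add_left, Pool.Agent.SUR.bil_sub_right,
      Pool.Agent.SUR.bil_sub_right, p1, p2, p3, p4]
    abel
  rw [p0, smul_add, smul_neg, q1, q2]
  abel

end Trip

/-- the integral logarithm of the image of an invertible pair modulo an ideal -/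
theorem gam_lift {𝔐 𝔐' K : Type u} [Monoid 𝔐] [Monoid 𝔐'] (F : 𝔐 →* 𝔐') (cl' : 𝔐' → K)
    (hcl' : ∀ a b, cl' (a * b) = cl' (b * a)) (p m : ℕ) [Fact p.Prime] (hp : p ≠ 2)
    (hcl : ∀ a b, cl' (F (a * b)) = cl' (F (b * a)))
    (x y : MonoidAlgebra ℤ 𝔐) (w : (MonoidAlgebra ℤ 𝔐')ˣ)
    (hx : MonoidAlgebra.mapDomain F x = w.val)
    (hy : MonoidAlgebra.mapDomain F y = (w⁻¹ : (MonoidAlgebra ℤ 𝔐')ˣ).val) :
    gamVal cl' hcl' p m w = (cycData (p ^ (m + 1)) (fun a => cl' (F a)) hcl).gam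
      (extPow (ZMod (p ^ (m + 1))) y) (Wof p m y) (zOf p m x) := by
  set z := zOf p m x with hz
  set E := MonoidAlgebra.mapDomainRingHom ℤ (natHom (p ^ (m + 1)) F) with hE
  have e1 : ∀ v : MonoidAlgebra ℤ 𝔐,
      extPow (ZMod (p ^ (m + 1))) (MonoidAlgebra.mapDomain F v) =
        E (extPow (ZMod (p ^ (m + 1))) v) := fun v => nat_extPow _ F v
  have e2 : ∀ v : MonoidAlgebra ℤ 𝔐, Wof p m (MonoidAlgebra.mapDomain F v) = E (Wof p m v) :=
    fun v => nat_Wof F p m v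
  have hzz : ∑ i, rho i (E z) = extPow (ZMod (p ^ (m + 1))) w.val - Wof p m w.val := by
    rw [← hx, e1, e2, ← map_sub, ← zOf_spec, map_sum]
    exact Finset.sum_congr rfl fun i _ => nat_rho F i z
  rw [gamVal_eq hp _ hzz, ← hy, e1, e2]
  unfold CycData.gam
  have hT : ∀ x, (cycData (p ^ (m + 1)) cl' hcl').T (E x) =
      (cycData (p ^ (m + 1)) (fun a => cl' (F a)) hcl).T x := fun x => by
    have h := nat_Tmod (N := p ^ (m + 1)) F (fun a => cl' (F a)) cl' id (fun _ => rfl) x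
    rw [Finsupp.mapDomain_id] at h
    exact h
  have hr : ∀ j x, (cycData (p ^ (m + 1)) cl' hcl').ρ j (E x) =
      E ((cycData (p ^ (m + 1)) (fun a => cl' (F a)) hcl).ρ j x) := fun j x => nat_rho F j x
  have h3 : ∀ j : ZMod (p ^ (m + 1)), (1 - j) • (cycData (p ^ (m + 1)) cl' hcl').T
      (E (extPow (ZMod (p ^ (m + 1))) y) * E z * E (Wof p m y) *
        (cycData (p ^ (m + 1)) cl' hcl').ρ j (E z)) =
      (1 - j) • (cycData (p ^ (m + 1)) (fun a => cl' (F a)) hcl).T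
        (extPow (ZMod (p ^ (m + 1))) y * z * Wof p m y *
          (cycData (p ^ (m + 1)) (fun a => cl' (F a)) hcl).ρ j z) := by
    intro j
    rw [hr, ← map_mul, ← map_mul, ← map_mul, hT]
  rw [Finset.sum_congr rfl fun j _ => h3 j, ← map_mul, hT]

end IREF

open IREF

/-- IREF. The main identity for a pair of elements which are inverse to each other modulo an ideal
annihilated by the weight. -/
theorem t_IREF {𝔐 𝔐' K : Type u} [Monoid 𝔐] [Monoid 𝔐'] (F : 𝔐 →* 𝔐') (cl' : 𝔐' → K)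
    (hcl' : ∀ a b, cl' (a * b) = cl' (b * a)) (k : K) (p m : ℕ) [Fact p.Prime] (hp : p ≠ 2)
    (v : ℤ_[p]) (W : 𝔐 → 𝔐 → ℤ_[p]) (hW : WtAtA (fun a => cl' (F a)) k v W)
    (x y : MonoidAlgebra ℤ 𝔐) (hxy : VanW W (x * y - 1)) (hyx : VanW W (y * x - 1))
    (w : (MonoidAlgebra ℤ 𝔐')ˣ) (hx : MonoidAlgebra.mapDomain F x = w.val)
    (hy : MonoidAlgebra.mapDomain F y = (w⁻¹ : (MonoidAlgebra ℤ 𝔐')ˣ).val) :
    PadicInt.toZModPow (m + 1) v * gamVal cl' hcl' p m w k =
      PadicInt.toZModPow (m + 1) (bil W y x - bil (pwA W p) y x) := by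
  obtain ⟨hW1, hW2, hW3⟩ := hW
  have hpp : p.Prime := Fact.out
  have hN1 : 1 < p ^ (m + 1) := Nat.one_lt_pow (Nat.succ_ne_zero m) hpp.one_lt
  have hcl : ∀ a b : 𝔐, cl' (F (a * b)) = cl' (F (b * a)) := fun a b => by
    rw [map_mul, map_mul, hcl']
  have hv1 : ∀ a, cl' (F a) ≠ k → W 1 a = 0 := by
    intro a ha
    by_contra h
    exact ha (by rw [← one_mul a]; exact hW2 1 a h)
  set q : ℤ_[p] →+* ZMod (p ^ (m + 1)) := PadicInt.toZModPow (m + 1) with hq
  obtain ⟨hwt, hwr1⟩ := t_AWRW 𝔐 ℤ_[p] (p ^ (m + 1)) W hW1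
  set w' : Wr 𝔐 (p ^ (m + 1)) → Wr 𝔐 (p ^ (m + 1)) → ZMod (p ^ (m + 1)) := fun x y =>
    q (wrA W x y) with hw'
  have hwt' : IsWtA w' := by
    intro a b d
    show q (wrA W a (b * d)) = q (wrA W (a * b) d) + q (wrA W (d * a) b)
    rw [hwt a b d, map_add]
  have hdeg : ∀ a b, w' a b ≠ 0 → degW 𝔐 (p ^ (m + 1)) (a * b) = Multiplicative.ofAdd 1 := by
    intro a b hab
    by_contra h
    have h1 : a.i + b.i ≠ 1 := fun h2 => h (congrArg Multiplicative.ofAdd h2)
    have h2 : wrA W a b = 0 := if_neg h1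
    exact hab (by show q (wrA W a b) = 0; rw [h2, map_zero])
  have hw2 : ∀ a : Wr 𝔐 (p ^ (m + 1)), a.i = 1 ∧ cl' (F (prodSeq a.s)) = k → w' 1 a = q v := by
    intro a ha
    show q (wrA W 1 a) = q v
    rw [hwr1, if_pos ha.1, hW3 _ ha.2]
  have hw3 : ∀ a : Wr 𝔐 (p ^ (m + 1)), ¬(a.i = 1 ∧ cl' (F (prodSeq a.s)) = k) → w' 1 a = 0 := by
    intro a ha
    show q (wrA W 1 a) = 0
    rw [hwr1]
    by_cases hi : a.i = 1
    · rw [if_pos hi, hv1 _ fun h => ha ⟨hi, h⟩, map_zero]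
    · rw [if_neg hi, map_zero]
  -- the triple
  set S : Set (MonoidAlgebra ℤ 𝔐) := {x * y - 1, y * x - 1} with hSdef
  have hS : ∀ s ∈ S, VanW W s := by
    intro s hs
    rcases hs with hs | hs
    · rw [hs]; exact hxy
    · rw [Set.mem_singleton_iff] at hs
      rw [hs]; exact hyx
  have hxyS : x * y - 1 ∈ S := Or.inl rfl
  have hyxS : y * x - 1 ∈ S := Or.inr rfl
  have htrip : ITrip S (extPow (ZMod (p ^ (m + 1))) x) (extPow (ZMod (p ^ (m + 1))) y)
      (Wof p m x) (Wof p m y) (zOf p m x) :=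
    { U_inv := fun i => rho_extPow i x
      W_inv := fun i => rho_Wof p m i x
      Ui_inv := fun i => rho_extPow i y
      Wi_inv := fun i => rho_Wof p m i y
      h1 := by rw [← extPow_mul]; exact extPow_sub_one_mem hxyS
      h2 := by rw [← extPow_mul]; exact extPow_sub_one_mem hyxS
      h3 := by rw [← map_mul]; exact Wof_sub_one_mem p m hxyS
      h4 := by rw [← map_mul]; exact Wof_sub_one_mem p m hyxS
      hz := zOf_spec p m x }
  set U := extPow (ZMod (p ^ (m + 1))) x with hU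
  set Ui := extPow (ZMod (p ^ (m + 1))) y with hUi
  set Wo := Wof p m x with hWo
  set Wi := Wof p m y with hWi
  set z := zOf p m x with hz
  have hcoe : ∀ (f : Wr 𝔐 (p ^ (m + 1)) → ℤ_[p]) (e : MonoidAlgebra ℤ (Wr 𝔐 (p ^ (m + 1)))),
      kapL (fun a => q (f a)) e = q (kapL f e) := by
    intro f e
    induction e using MonoidAlgebra.induction_linear with
    | zero => rw [map_zero, map_zero, map_zero]
    | add a b ha hb => rw [map_add, map_add, map_add, ha, hb]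
    | single a r => rw [kapL_single, kapL_single, map_zsmul]
  have hcoe' : ∀ (f : (ZMod (p ^ (m + 1)) → 𝔐) → ℤ_[p])
      (e : MonoidAlgebra ℤ (ZMod (p ^ (m + 1)) → 𝔐)),
      kapL (fun a => q (f a)) e = q (kapL f e) := by
    intro f e
    induction e using MonoidAlgebra.induction_linear with
    | zero => rw [map_zero, map_zero, map_zero]
    | add a b ha hb => rw [map_add, map_add, map_add, ha, hb]
    | single a r => rw [kapL_single, kapL_single, map_zsmul]
  have hJ1 : ∀ e ∈ JW (p ^ (m + 1)) S, ∀ b, kapL (fun a => w' a b) e = 0 := by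
    intro e he b
    refine kapL_JW _ (fun j e he => ?_) he
    exact (hcoe' _ e).trans (by rw [wrA_left hS b j he, map_zero])
  have hJ2 : ∀ e ∈ JW (p ^ (m + 1)) S, ∀ b, kapL (fun a => w' b a) e = 0 := by
    intro e he b
    refine kapL_JW _ (fun j e he => ?_) he
    exact (hcoe' _ e).trans (by rw [wrA_right hS b j he, map_zero])
  have hJ3 : ∀ e ∈ JW (p ^ (m + 1)) S, ∀ b,
      kapL (fun a => (degW 𝔐 (p ^ (m + 1)) a).toAdd * w' a b) e = 0 := by
    intro e he b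
    refine kapL_JW _ (fun j e he => ?_) he
    refine (kapL_mul_left (j : ZMod (p ^ (m + 1))) _ e).trans ?_
    have h := (hcoe' (fun s => wrA W ⟨s, j⟩ b) e).trans (by rw [wrA_left hS b j he, map_zero])
    rw [h, mul_zero]
  have hK := t_IKAP (Wr 𝔐 (p ^ (m + 1))) (ZMod (p ^ (m + 1))) w' hwt'
    (degW 𝔐 (p ^ (m + 1))) hdeg (JW (p ^ (m + 1)) S) JW_mono hJ1 hJ2 hJ3
    (XW Ui z Wi) (YW U z) htrip.inv_left htrip.inv_right
  have hG := t_GAM 𝔐 K (fun a => cl' (F a)) hcl (p ^ (m + 1)) k U Ui Wi z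
  have hT := htrip.tot hS hN1
  obtain ⟨hE1, hE2⟩ := t_IEVA W p m y x hyx
  have h6 : bil (fun a b : Wr 𝔐 (p ^ (m + 1)) => w' 1 (a * b) * (degW 𝔐 (p ^ (m + 1)) b).toAdd)
      (XW Ui z Wi) (YW U z) =
      q v * -((cycData (p ^ (m + 1)) (fun a => cl' (F a)) hcl).gam Ui Wi z k) := by
    rw [← hG]
    refine Eq.trans ?_ (map_bil (AddMonoidHom.mulLeft (q v)) _ _ _).symm
    refine bil_congr _ _ _ _ fun a _ b _ => ?_
    rw [AddMonoidHom.coe_mulLeft]
    show w' 1 (a * b) * b.i = _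
    by_cases hab : (a * b).i = 1 ∧ cl' (F (prodSeq (a * b).s)) = k
    · rw [if_pos hab, hw2 _ hab, one_mul]
    · rw [if_neg hab, hw3 _ hab, zero_mul, mul_zero]
  have h7 : bil w' (XW Ui z Wi) (YW U z) = q (bil (wrA W) (XW Ui z Wi) (YW U z)) :=
    (map_bil q.toAddMonoidHom _ _ _).symm
  have h8 : bil (wrA W) (XW Ui z Wi) (YW U z) = -(bil W y x - bil (pwA W p) y x) := by
    rw [hE1, hE2] at hT
    have hN0 : ((p ^ (m + 1) : ℕ) : ℤ_[p]) ≠ 0 := Nat.cast_ne_zero.2 (by omega)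
    refine mul_left_cancel₀ hN0 ?_
    rw [nsmul_eq_mul, nsmul_eq_mul, nsmul_eq_mul] at hT
    rw [hT]
    ring
  have h9 : q v * -((cycData (p ^ (m + 1)) (fun a => cl' (F a)) hcl).gam Ui Wi z k) =
      -(q (bil W y x - bil (pwA W p) y x)) := by
    rw [← h6, hK, h7, h8, map_neg]
  rw [mul_neg] at h9
  have h10 := neg_injective h9
  rw [gam_lift F cl' hcl' p m hp hcl x y w hx hy]
  exact h10

end Pool.Agent.SUR
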