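import Pool.Agent.SUR.StL
import Pool.Agent.SUR.IREF

/-!
# REF modulo the ideal of the cubes
-/

set_option autoImplicit false

universe u

namespace Pool.Agent.SUR

open Pool.Agent.WhK Finset

namespace LREFx

/-- words in a cube are cubes -/
theorem cub_wd {𝔐 𝔔 : Type*} [Monoid 𝔐] [Monoid 𝔔] (θ : 𝔐 →* 𝔔) {S : Type*}
    {c : (S → Bool) → 𝔐} (hc : Cub θ c) {u : 𝔐 → 𝔐} (hu : u ∈ Wd 𝔐) :
    Cub θ fun ε => u (c ε) := by
  induction hu using Submonoid.closure_induction with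
  | mem u hu =>
    rcases hu with ⟨b, rfl⟩ | hu
    · exact Cub.const b
    · rw [Set.mem_singleton_iff] at hu
      subst hu
      exact hc
  | one => exact Cub.const 1
  | mul u v _ _ hu hv => exact Cub.mul _ _ hu hv

theorem kapL_altS {X A : Type*} [AddCommGroup A] (f : X → A) {K : ℕ} (c : (Fin K → Bool) → X) :
    kapL f (altS fun ε => (MonoidAlgebra.single (c ε) 1 : MonoidAlgebra ℤ X)) =
      altS fun ε => f (c ε) := by
  unfold altS
  rw [map_sum]
  refine Finset.sum_congr rfl fun ε _ => ?_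
  rw [map_zsmul, kapL_single, one_smul]

/-- weights of degree at most `r` annihilate the ideal of the cubes of dimension `r + 1` -/
theorem vanW_of_mem {𝔐 𝔔 A : Type*} [Monoid 𝔐] [Monoid 𝔔] [AddCommGroup A] (θ : 𝔐 →* 𝔔) (r : ℕ)
    (W : 𝔐 → 𝔐 → A) (hW : DegV θ r W) {x : MonoidAlgebra ℤ 𝔐} (hx : x ∈ IK θ (r + 1)) :
    VanW W x := by
  intro u hu u' hu'
  induction hx using AddSubgroup.closure_induction with
  | mem x hx =>
    obtain ⟨c, hc, rfl⟩ := hx
    rw [kapL_altS]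
    exact hW _ _ (cub_wd θ hc hu) (cub_wd θ hc hu')
  | zero => rw [map_zero]
  | add x y _ _ hx hy => rw [map_add, hx, hy, add_zero]
  | neg x _ hx => rw [map_neg, hx, neg_zero]

end LREFx

theorem t_LREF : s_LREF.{u} := by
  intro G _ n p m r _ hp w x y hxy K v W hW hdeg
  obtain ⟨h1, h2, h3, h4⟩ := hxy
  exact t_IREF (th (MM G n)) MM.cl MM.cl_comm (some K) p m hp v W hW x y
    (LREFx.vanW_of_mem _ r W hdeg h3) (LREFx.vanW_of_mem _ r W hdeg h4) w h1 h2

end Pool.Agent.SUR
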