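import Pool.Agent.SUR.StL
import Pool.Agent.SUR.ARES

/-!
# LIN_RES: the pull back of a weight on words under the power map
-/

set_option autoImplicit false

universe u

namespace Pool.Agent.SUR

open Pool.Agent.WhK

namespace LRES

variable {G : Type u} [Group G] {n : ℕ}

theorem clF_comm (a b : FreeMonoid (MM G n)) : clF G n (a * b) = clF G n (b * a) := by
  unfold clF
  rw [map_mul, map_mul]
  exact MM.cl_comm _ _

theorem clF_of_pow {x : FreeMonoid (MM G n)} {C : ConjClasses G} {p : ℕ} (hp : 2 ≤ p)
    (h : clF G n (x ^ p) = some C) : ∃ C', clF G n x = some C' ∧ powC p C' = C := by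
  unfold clF at h ⊢
  rw [map_pow] at h
  exact RES.cl_of_pow hp h

theorem clF_pow {x : FreeMonoid (MM G n)} {C : ConjClasses G} {p : ℕ} (hp : 0 < p)
    (h : clF G n x = some C) : clF G n (x ^ p) = some (powC p C) := by
  unfold clF at h ⊢
  rw [map_pow]
  exact RES.cl_pow hp h

theorem clF_of (m : MM G n) : clF G n (FreeMonoid.of m) = MM.cl m := by
  unfold clF th
  rw [FreeMonoid.lift_eval_of]
  rfl

end LRES

open LRES ARES in
/-- LIN_RES -/
theorem t_LRES (hLIK : s_LIK.{u}) : s_LRES.{u} := by
  classical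
  intro G _ n p r hpF K v W hn hWt hdeg
  obtain ⟨hW, hsup, hval⟩ := hWt
  have hp2 : 2 ≤ p := hpF.out.two_le
  have hp0 : 0 < p := hpF.out.pos
  have hresdeg : ∀ C : Option (ConjClasses G),
      DegV (th (MM G n)) r (resWA (clF G n) W p C) := by
    intro C
    exact ((hLIK (FreeMonoid (MM G n)) (MM G n) (th (MM G n))).2.2 ℤ_[p] r W hdeg).2.2
      (Option (ConjClasses G)) MM.cl p C
  have key : ∀ a b : FreeMonoid (MM G n), pwA W p a b ≠ 0 → clF G n ((a * b) ^ p) = some K := by
    intro a b h
    have h1 := hsup _ _ h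
    have h2 : (a * b) ^ (p - 1) * a * b = (a * b) ^ p := by
      rw [mul_assoc, ← pow_succ, Nat.sub_add_cancel hp0]
    rw [h2] at h1
    exact h1
  have hv : ∀ a : FreeMonoid (MM G n), clF G n (a ^ p) = some K → v = p * W (a ^ (p - 1)) a := by
    intro a h
    rw [← hval _ h, ARES.wt_one_pow hW]
  refine ⟨fun x C h => clF_of_pow hp2 h, ?_, ?_, ?_⟩
  · intro C hC
    obtain ⟨h, rfl⟩ := ConjClasses.exists_rep C
    set e : FreeMonoid (MM G n) := FreeMonoid.of (MM.unit ⟨0, hn⟩ ⟨0, hn⟩ h : MM G n) with he
    have hc : clF G n e = some (ConjClasses.mk h) := by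
      rw [he, clF_of]
      simp [MM.cl]
    have hc' := clF_pow hp0 hc
    rw [hC] at hc'
    refine ⟨W (e ^ (p - 1)) e, hv _ hc', ⟨resWA_isWtA clF_comm hW p _, ?_, ?_⟩, hresdeg _⟩
    · intro a b hab
      unfold resWA at hab
      by_contra h0
      rw [if_neg h0] at hab
      exact hab rfl
    · intro a ha
      unfold resWA pwA
      rw [one_mul, if_pos ha, mul_one]
      have ha' := clF_pow hp0 ha
      rw [hC] at ha'
      have h1 := hv _ hc'
      rw [hv _ ha'] at h1
      have h2 : (p : ℤ_[p]) ≠ 0 := Nat.cast_ne_zero.2 hp0.ne'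
      exact mul_left_cancel₀ h2 h1
  · intro S x y hS hxy
    have hC : ∀ a ∈ x.coeff.support, ∀ b ∈ y.coeff.support,
        pwA W p a b = ∑ C ∈ S, resWA (clF G n) W p (some C) a b := by
      intro a ha b hb
      by_cases h0 : pwA W p a b = 0
      · rw [h0, Finset.sum_eq_zero]
        intro C _
        unfold resWA
        split_ifs
        · exact h0
        · rfl
      · obtain ⟨C', h1, h2⟩ := clF_of_pow hp2 (key a b h0)
        rw [Finset.sum_eq_single_of_mem C' (hxy a ha b hb C' h1 h2)]
        · unfold resWA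
          rw [if_pos h1]
        · intro C _ hne
          unfold resWA
          rw [if_neg]
          rw [h1]
          intro h3
          exact hne (Option.some.inj h3).symm
    have h1 : bil (pwA W p) x y = ∑ a ∈ x.coeff.support, ∑ b ∈ y.coeff.support,
        (x.coeff a * y.coeff b) • pwA W p a b := rfl
    have h2 : ∀ C : ConjClasses G, bil (resWA (clF G n) W p (some C)) x y =
        ∑ a ∈ x.coeff.support, ∑ b ∈ y.coeff.support,
          (x.coeff a * y.coeff b) • resWA (clF G n) W p (some C) a b := fun C => rfl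
    have h3 : ∑ C ∈ S, bil (resWA (clF G n) W p (some C)) x y =
        ∑ a ∈ x.coeff.support, ∑ b ∈ y.coeff.support, ∑ C ∈ S,
          (x.coeff a * y.coeff b) • resWA (clF G n) W p (some C) a b := by
      rw [Finset.sum_congr (g := fun C => ∑ a ∈ x.coeff.support, ∑ b ∈ y.coeff.support,
        (x.coeff a * y.coeff b) • resWA (clF G n) W p (some C) a b) rfl fun C _ => h2 C,
        Finset.sum_comm]
      exact Finset.sum_congr rfl fun a _ => Finset.sum_comm
    rw [h1, h3]
    refine Finset.sum_congr rfl fun a ha => Finset.sum_congr rfl fun b hb => ?_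
    rw [hC a ha b hb, Finset.smul_sum]
  · intro hpv x y
    have h0 : ∀ a b : FreeMonoid (MM G n), pwA W p a b = 0 := by
      intro a b
      by_contra h
      exact hpv ⟨_, hv _ (key a b h)⟩
    unfold bil
    simp [h0]

end Pool.Agent.SUR
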