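import Mathlib
import Pool.Agent.SUR.StL
import Pool.Agent.SUR.Bil

/-!
# The integral logarithm at the classes of `SCL` and at their `p`-th powers, weights on words
-/

set_option autoImplicit false

universe u

namespace Pool.Agent.SUR

open Pool.Agent.WhK

theorem t_LVAL (hREF : s_LREF.{u}) (hRES : s_LRES.{u}) : s_LVAL.{u} := by
  intro G _ n p m r _ hn hp w x y hL K v W hW hD
  have hpp : p.Prime := Fact.out
  have hp0 : (p : ℤ_[p]) ≠ 0 := by exact_mod_cast hpp.ne_zero
  obtain ⟨R2, R3, R4, R5⟩ := hRES G n p r K v W hn hW hD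
  have href := hREF G n p m r hp w x y hL K v W hW hD
  constructor
  · intro hv
    rw [R5 hv, sub_zero] at href
    exact href
  · intro T v' hvv hK hT hS
    have h0 : bil W y x = 0 := by
      refine bil_eq_zero _ _ _ fun a ha b hb => ?_
      by_contra hab
      exact hK ⟨a, ha, b, hb, hW.2.1 a b hab⟩
    have h1 := R4 T y x
      (fun C hC => ((hT C).1 hC).2)
      (fun a ha b hb C hC hCK => (hT C).2 ⟨⟨a, ha, b, hb, hC⟩, hCK⟩)
    have h3 : ∀ C ∈ T, PadicInt.toZModPow (m + 1) v' *
        gamVal MM.cl MM.cl_comm p m w (some C) =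
        PadicInt.toZModPow (m + 1) (bil (resWA (clF G n) W p (some C)) y x) := by
      intro C hC
      obtain ⟨v'', hv'', hWt, hDt⟩ := R3 C ((hT C).1 hC).2
      have hvv' : v'' = v' := mul_left_cancel₀ hp0 (hv''.symm.trans hvv)
      rw [hvv'] at hWt
      have href' := hREF G n p m r hp w x y hL C v' (resWA (clF G n) W p (some C)) hWt hDt
      have h0' : bil (pwA (resWA (clF G n) W p (some C)) p) y x = 0 := by
        refine bil_eq_zero _ _ _ fun a ha b hb => ?_
        by_contra hab
        have h5 : clF G n ((a * b) ^ (p - 1) * a * b) = some C := hWt.2.1 _ _ hab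
        rw [mul_assoc, ← pow_succ, Nat.sub_add_cancel hpp.one_le] at h5
        obtain ⟨C', hC', hpow⟩ := R2 (a * b) C h5
        exact hS C hC C' ⟨a, ha, b, hb, hC'⟩ hpow
      rw [h0', sub_zero] at href'
      exact href'
    rw [h0, zero_sub, h1, hvv, map_mul, map_natCast, map_neg, map_sum] at href
    rw [mul_add, Finset.mul_sum, Finset.sum_congr rfl h3, mul_left_comm, ← mul_assoc, href]
    exact neg_add_cancel _

end Pool.Agent.SUR
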