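import Pool.Agent.SUR.StL
import Pool.Agent.SUR.VANC

/-!
# LIN_VANC: the vanishing of the values at classes outside of the support, weights of bounded degree
-/

set_option autoImplicit false

universe u

namespace Pool.Agent.SUR

open Pool.Agent.WhK

theorem t_LVANC (hCOH : s_COH.{u}) (hREF : s_LREF.{u}) (hRES : s_LRES.{u}) (hNEQ : s_ANEQ.{u})
    (hPSH : s_LPSH.{u, 0}) : s_LVANC.{u} := by
  intro G _ M r hM hG n hn w x y hL
  refine ⟨max 2 M, fun p m _ hpM K hK hSC hpow => ?_⟩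
  have hp2 : 2 < p := lt_of_le_of_lt (le_max_left _ _) hpM
  have hpM' : M < p := lt_of_le_of_lt (le_max_right _ _) hpM
  have hp : p ≠ 2 := by omega
  have hpd : ¬p ∣ M := fun h => absurd (Nat.le_of_dvd hM h) (by omega)
  obtain ⟨h, hmk⟩ := ConjClasses.mk_surjective K
  obtain ⟨v₀, W₀, hv00, hW₀, hD₀⟩ := hG n hn h (hK h hmk)
  obtain ⟨i, hinj, -, hi3⟩ := hNEQ M p hM hpd
  have hW₁ : WtAtA (clF G n) (some K) v₀ W₀ := by rw [← hmk]; exact hW₀
  have hW := hi3 (FreeMonoid (MM G n)) (Option (ConjClasses G)) (clF G n) (some K) v₀ W₀ hW₁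
  have hD := (hPSH (FreeMonoid (MM G n)) (MM G n) (Option (ConjClasses G)) (ZM M) ℤ_[p]
    (th (MM G n)) (i : ZM M →+ ℤ_[p]) W₀).1 r hD₀
  set W : FreeMonoid (MM G n) → FreeMonoid (MM G n) → ℤ_[p] := fun a b => i (W₀ a b) with hWdef
  have hD' : DegV (th (MM G n)) r W := hD
  have hv0 : i v₀ ≠ 0 := fun h0 => hv00 (hinj (by rw [h0, map_zero]))
  set j := (i v₀).valuation
  have hspec : i v₀ = (PadicInt.unitCoeff hv0 : ℤ_[p]) * (p : ℤ_[p]) ^ j :=
    PadicInt.unitCoeff_spec hv0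
  have hb1 : bil W y x = 0 := by
    refine VANCx.bil_eq_zero_of _ _ _ fun a ha b hb => ?_
    by_contra hab
    exact hSC ⟨a, ha, b, hb, hW.2.1 a b hab⟩
  obtain ⟨-, -, h4, -⟩ := hRES G n p r K (i v₀) W hn hW hD'
  have hb2 : bil (pwA W p) y x = 0 := by
    rw [h4 ∅ _ _ (by simp) (fun a ha b hb C hC hCK =>
      absurd hCK (hpow C ⟨a, ha, b, hb, hC⟩))]
    simp
  have he := hREF G n p (m + j) r hp w x y hL K (i v₀) W hW hD'
  rw [hb1, hb2, sub_zero, map_zero, hspec, map_mul, map_pow, map_natCast, mul_assoc] at he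
  have hu : IsUnit (PadicInt.toZModPow (m + j + 1) (PadicInt.unitCoeff hv0 : ℤ_[p])) :=
    (PadicInt.unitCoeff hv0).isUnit.map (PadicInt.toZModPow (m + j + 1))
  have he2 := (IsUnit.mul_right_eq_zero hu).1 he
  have hj : p ^ (m + 1) ∣ p ^ (m + j + 1) := pow_dvd_pow p (by omega)
  have hone : ¬(p : ℤ) ∣ 1 := by
    intro h1
    have hpp : p.Prime := Fact.out
    have h2 := Int.natCast_dvd_natCast.1 (by simpa using h1 : (p : ℤ) ∣ ((1 : ℕ) : ℤ))
    exact hpp.one_lt.ne' (Nat.dvd_one.1 h2)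
  rw [← VANCx.coh_iter hCOH (MM G n) (Option (ConjClasses G)) MM.cl MM.cl_comm p m hp w (some K) j
    hj]
  refine VANCx.cast_eq_zero p m j 1 hone _ ?_ hj
  rw [mul_one]
  push_cast
  exact he2

end Pool.Agent.SUR
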