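import Pool.Agent.SUR.FinalM
import Pool.Agent.SUR.LIK
import Pool.Agent.SUR.LPSH
import Pool.Agent.SUR.LLIFT
import Pool.Agent.SUR.LREF
import Pool.Agent.SUR.LRES
import Pool.Agent.SUR.LVAL
import Pool.Agent.SUR.LVANC
import Pool.Agent.SUR.LARI
import Pool.Agent.SUR.LMSUM
import Pool.Agent.SUR.LKERW
import Pool.Agent.SUR.LKERD
import Pool.Agent.SUR.LALT
import Pool.Agent.SUR.LEDG
import Pool.Agent.SUR.LCORE
import Pool.Agent.SUR.LPOW
import Pool.Agent.SUR.LTRA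
import Pool.Agent.SUR.LALG
import Pool.Agent.SUR.LEIG
import Pool.Agent.SUR.LWT
import Pool.Agent.SUR.LLIN
import Pool.Agent.SUR.LMONO
import Pool.Agent.SUR.LEUL
import Pool.Agent.SUR.LWE
import Pool.Agent.SUR.LCUP
import Pool.Agent.SUR.LCBR
import Pool.Agent.SUR.LCOH
import Pool.Agent.SUR.LCC

/-!
# Surjectivity in degree one, seen in arbitrary targets: linear groups and nilpotent Euler classes
-/

set_option autoImplicit false

universe u

namespace Pool.Agent.SUR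

open Pool.Agent.WhK

theorem t_LVANC' : s_LVANC.{u} := t_LVANC t_COH t_LREF (t_LRES t_LIK) t_ANEQ t_LPSH

theorem t_LARI' : s_LARI.{u} :=
  t_LARI (t_LVAL t_LREF (t_LRES t_LIK)) (t_LRES t_LIK) t_LVANC' t_ANEQ t_LPSH t_LLIFT

/-- groups with weights of bounded degree -/
theorem surjW_wt (G : Type u) [Group G]
    (h : ∀ G₀ : Subgroup G, G₀.FG → ∃ M r : ℕ, 0 < M ∧ CentWt G₀ M r) : SurjW G :=
  surjW_of_arithR G fun G₀ h₀ => by
    obtain ⟨M, r, hM, hc⟩ := h G₀ h₀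
    exact t_LARI' G₀ M r hM hc

theorem t_LCORE' : s_LCORE.{u, u} := t_LCORE t_LMSUM t_LKERW t_LKERD t_LALT t_LEDG

theorem t_LCORE0' : s_LCORE.{u, 0} := t_LCORE t_LMSUM t_LKERW t_LKERD t_LALT t_LEDG

theorem t_LEUL' : s_LEUL.{u, u} := t_LEUL t_LMSUM t_LKERW t_LKERD

theorem t_LEIG' : s_LEIG.{u} := t_LEIG t_VALG'

theorem t_LWE' : s_LWE.{u} :=
  t_LWE t_LEUL' t_LMONO t_LCORE' t_LCORE0' t_LPSH t_LPOW t_LTRA t_LALG t_LEIG' t_NNF

/-- groups with nilpotent Euler classes -/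
theorem surjW_E (G : Type u) [Group G] (h : LocCentEul G) : SurjW G :=
  surjW_wt G fun G₀ h₀ => t_LWE' G₀ (h G₀ h₀)

theorem centEul_of_centLin (G : Type u) [Group G] (h : CentLin G) : CentEul G := by
  obtain ⟨F, _, S, n, hS, hρ⟩ := h
  rcases Nat.eq_zero_or_pos n with rfl | hn
  · refine ⟨F, inferInstance, S, 1, hS, one_pos, fun g hg => ?_⟩
    obtain ⟨ρ, h⟩ := hρ g hg
    refine absurd ?_ h
    rw [Subsingleton.elim (ρ _) 1]
    exact IsOfFinOrder.one
  · exact ⟨F, inferInstance, S, n, hS, hn, fun g hg => Or.inl (hρ g hg)⟩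

theorem locCentEul_of_lin (G : Type u) [Group G] (h : LocCentLin G) : LocCentEul G :=
  fun G₀ h₀ => centEul_of_centLin G₀ (h G₀ h₀)

/-- linear groups -/
theorem locCentEul_linear (F : Type u) [Field F] (n : ℕ) (G : Subgroup (GL (Fin n) F)) :
    LocCentEul G :=
  locCentEul_of_lin G (t_LLIN.1 F n G)

theorem locCentEul_of_homM (G : Type u) [Group G] (h : LocCentHomM G) : LocCentEul G :=
  locCentEul_of_lin G (t_LLIN.2 G h)

/-- groups whose centralisers have vanishing cohomology in high even degrees -/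
theorem locCentEul_of_coh (G : Type u) [Group G]
    (h : ∀ G₀ : Subgroup G, G₀.FG → CentCoh G₀) : LocCentEul G :=
  fun G₀ h₀ => t_LCC (t_LCOH t_LCUP t_LCBR) G₀ (h G₀ h₀)

end Pool.Agent.SUR
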