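import Pool.Agent.SUR.St3

/-!
# Surjectivity in degree one, seen in finite quotients: linear groups over arbitrary fields
-/

set_option autoImplicit false

universe u

namespace Pool.Agent.SUR

open Pool.Agent.WhK

/-- NFH (200 lines). Number fields: a homomorphism `Lˣ → ℤ` which does not vanish at a given element
which is not a root of unity.
Proof. If the valuation of `t` at some prime of the ring of integers `𝓞 L` is not `0`, take this
valuation (`IsDedekindDomain.HeightOneSpectrum.valuation`, `WithZero.unitsWithZeroEquiv`). Otherwise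
`t` is (the image of) a unit of `𝓞 L` of infinite order. By Dirichlet's theorem
(`NumberField.Units`: basis of the units modulo torsion) there is a homomorphism `g` from `(𝓞 L)ˣ` to
`ℤ` with `g t ≠ 0`. Extend `h g` (`h` the class number): for every prime `P` choose a generator
`π_P` of the principal ideal `P ^ h`; for `x ∈ Lˣ` put `r x = x ^ h * ∏_P π_P ^ (-v_P(x))` (finite
product, `finprod`; `v_P(x) = 0` for almost all `P`). All valuations of `r x` are `0`, so `r x` is a
unit of `𝓞 L`; `r` is a homomorphism and `r t = t ^ h` for units `t`. Take `f = g ∘ r`. -/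
def s_NFH : Prop := ∀ (L : Type u) [Field L] [NumberField L] (t : Lˣ), ¬IsOfFinOrder t →
  ∃ f : Lˣ →* Multiplicative ℤ, (f t).toAdd ≠ 0

/-- LCO (120 lines). The leading coefficient of the norm.
Proof. `K(x)` is `RatFunc K` (`RatFunc.algEquivOfTranscendental`, see `Pool/Agent/SUR/VALF.lean`).
The leading coefficient `lc (a / b) = a.leadingCoeff / b.leadingCoeff` is a homomorphism from the
units of `RatFunc K` to `Kˣ` which is the identity on constants. `r = lc ∘ Norm_{E / K(x)}`,
`d = [E : K(x)]` (`Algebra.norm_algebraMap`). -/
def s_LCO : Prop := ∀ (K E : Type u) [Field K] [Field E] [Algebra K E] (x : E),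
  Transcendental K x → FiniteDimensional (IntermediateField.adjoin K {x}) E →
  ∃ (r : Eˣ →* Kˣ) (d : ℕ), 0 < d ∧ ∀ a : Kˣ, r (Units.map (algebraMap K E).toMonoidHom a) = a ^ d

/-- VALG (250 lines). All finitely generated fields. Hypotheses `s_VALF`, `s_NFH`, `s_LCO`.
Proof. Positive characteristic: `s_VALF`. Characteristic `0`: if `t` is transcendental over `ℚ`, the
proof of `VALF` works without change (`Pool/Agent/SUR/VALF.lean`: `t` is transcendental over the
subfield `K` generated by the rest of a transcendence basis, norm to `K(t)`, valuation). If `t` is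
algebraic over `ℚ`, let `L₀ = ℚ(t)`, a number field. Claim by induction on `k`: for every field `E`
with a finitely generated subfield etc.: if `E` is an extension of `L₀`, `s : Fin k → E` algebraically
independent over `L₀` and `E` finite over `L₀(s)`, then for every `a ∈ L₀ˣ` of infinite order there is
`f : Eˣ → ℤ` with `f a ≠ 0`. `k = 0`: `E` is a number field, `NFH`. Step: `K = L₀(s 1, ..., s (k-1))`,
`x = s k` transcendental over `K`, `E` finite over `K(x)`; `LCO` gives `r : Eˣ → Kˣ` with
`r a = a ^ d`, and the induction hypothesis for `K` gives `f` with `f a ≠ 0`, so `f (a ^ d) ≠ 0`. A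
transcendence basis of `E` over `L₀` contained in the finite set `S` exists, and `E` is algebraic and
finitely generated, so finite, over it. -/
def s_VALG : Prop := ∀ (E : Type u) [Field E] (S : Set E),
  S.Finite → Subfield.closure S = ⊤ → ∀ t : Eˣ, ¬IsOfFinOrder t →
  ∃ f : Eˣ →* Multiplicative ℤ, (f t).toAdd ≠ 0

/-- EIGG (80 lines, copy of `Pool/Agent/SUR/EIG.lean`). The determinant on a generalised eigenspace,
arbitrary fields.
Proof. As `EIG`: if all eigenvalues of `g` were roots of unity, then `g ^ k` is unipotent for some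
`k > 0` (`(g ^ k - 1) ^ n = 0`), so it has finite order by hypothesis, and so has `g`. The rest is the
same (the characteristic is not used there). -/
def s_EIGG : Prop := ∀ (F : Type u) [Field F] (n : ℕ) (G₀ : Subgroup (GL (Fin n) F)), G₀.FG →
  (∀ g ∈ G₀, IsNilpotent ((g : Matrix (Fin n) (Fin n) F) - 1) → IsOfFinOrder g) →
  ∀ g : G₀, ¬IsOfFinOrder g →
  ∃ (E : Type u) (_ : Field E) (S : Set E), S.Finite ∧ Subfield.closure S = ⊤ ∧
    ∃ d : Subgroup.centralizer {g} →* Eˣ,
      ¬IsOfFinOrder (d ⟨g, Subgroup.mem_centralizer_singleton_iff.2 rfl⟩)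

/-- LING (60 lines). Linear groups over arbitrary fields whose unipotent elements have finite order;
in positive characteristic this holds for all linear groups. Hypotheses `s_VALG`, `s_EIGG`.
Proof. As `Pool/Agent/SUR/LINP.lean`. Second part: `(g - 1)^n = 0` implies
`g ^ (p ^ n) - 1 = (g - 1) ^ (p ^ n) = 0`. -/
def s_LING : Prop := (∀ (F : Type u) [Field F] (n : ℕ) (G : Subgroup (GL (Fin n) F)),
    (∀ g ∈ G, IsNilpotent ((g : Matrix (Fin n) (Fin n) F) - 1) → IsOfFinOrder g) →
    LocCentHom G) ∧
  (∀ (F : Type u) [Field F] (p : ℕ) [Fact p.Prime] [CharP F p] (n : ℕ) (g : GL (Fin n) F),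
    IsNilpotent ((g : Matrix (Fin n) (Fin n) F) - 1) → IsOfFinOrder g)

end Pool.Agent.SUR
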