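import Pool.Agent.SUR.StA
import Pool.Agent.SUR.LINP
import Pool.Agent.SUR.St4

/-!
# All subgroups of `GL 2 F`, characteristic zero, satisfy `LocCentHomM` (module GLT)
-/

set_option autoImplicit false

universe u

namespace Pool.Agent.SUR

open Pool.Agent.WhK

namespace GLT_aux

/-- `CentHomM` for an element is transported along a homomorphism -/
theorem centHomM_of_hom {A B : Type*} [Group A] [Group B] {M : ℕ} (e : A →* B) (g : A)
    (h : ∃ f : Subgroup.centralizer {e g} →* Multiplicative (ZM M),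
      (f ⟨e g, Subgroup.mem_centralizer_singleton_iff.2 rfl⟩).toAdd ≠ 0) :
    ∃ f : Subgroup.centralizer {g} →* Multiplicative (ZM M),
      (f ⟨g, Subgroup.mem_centralizer_singleton_iff.2 rfl⟩).toAdd ≠ 0 := by
  obtain ⟨f, hf⟩ := h
  exact ⟨f.comp (centMap e g), hf⟩

/-- integers in `ℤ[1/M]` -/
theorem centHomM_of_int {A : Type*} [Group A] {M : ℕ} (g : A)
    (h : ∃ f : Subgroup.centralizer {g} →* Multiplicative ℤ,
      (f ⟨g, Subgroup.mem_centralizer_singleton_iff.2 rfl⟩).toAdd ≠ 0) :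
    ∃ f : Subgroup.centralizer {g} →* Multiplicative (ZM M),
      (f ⟨g, Subgroup.mem_centralizer_singleton_iff.2 rfl⟩).toAdd ≠ 0 := by
  obtain ⟨f, hf⟩ := h
  refine ⟨(AddMonoidHom.toMultiplicative (Int.castAddHom (ZM M))).comp f, fun h0 => hf ?_⟩
  have h1 : (((f ⟨g, Subgroup.mem_centralizer_singleton_iff.2 rfl⟩).toAdd : ZM M)) = 0 := h0
  have h2 : (((f ⟨g, Subgroup.mem_centralizer_singleton_iff.2 rfl⟩).toAdd : ℚ)) = 0 := by
    have h3 := congrArg (fun x : ZM M => (x : ℚ)) h1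
    simpa using h3
  exact_mod_cast h2

variable {F : Type u} [Field F]

/-- the invertible matrices with entries in a subring, with the inverse -/
def HR (n : ℕ) (A : Subring F) : Subgroup (GL (Fin n) F) where
  carrier := {z | (∀ i j, (z : Matrix (Fin n) (Fin n) F) i j ∈ A) ∧
    ∀ i j, ((z⁻¹ : GL (Fin n) F) : Matrix (Fin n) (Fin n) F) i j ∈ A}
  one_mem' := by
    have h : ∀ i j, (1 : Matrix (Fin n) (Fin n) F) i j ∈ A := by
      intro i j
      rw [Matrix.one_apply]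
      split_ifs
      · exact A.one_mem
      · exact A.zero_mem
    refine ⟨fun i j => h i j, fun i j => ?_⟩
    rw [inv_one]
    exact h i j
  mul_mem' := by
    intro a b ha hb
    refine ⟨fun i j => ?_, fun i j => ?_⟩
    · rw [Units.val_mul, Matrix.mul_apply]
      exact A.sum_mem fun k _ => A.mul_mem (ha.1 i k) (hb.1 k j)
    · rw [mul_inv_rev, Units.val_mul, Matrix.mul_apply]
      exact A.sum_mem fun k _ => A.mul_mem (hb.2 i k) (ha.2 k j)
  inv_mem' := by
    intro a ha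
    refine ⟨ha.2, ?_⟩
    rw [inv_inv]
    exact ha.1

/-- the entries of a matrix and of its inverse -/
def en {n : ℕ} (a : GL (Fin n) F) : Set F :=
  Set.range (fun q : Fin n × Fin n => (a : Matrix (Fin n) (Fin n) F) q.1 q.2) ∪
  Set.range (fun q : Fin n × Fin n =>
    ((a⁻¹ : GL (Fin n) F) : Matrix (Fin n) (Fin n) F) q.1 q.2)

theorem en_finite {n : ℕ} (a : GL (Fin n) F) : (en a).Finite :=
  (Set.finite_range _).union (Set.finite_range _)

/-- a nonzero nilpotent 2 by 2 matrix -/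
structure Nil2 (N : Matrix (Fin 2) (Fin 2) F) (i j : Fin 2) : Prop where
  ne : i ≠ j
  nz : N i j ≠ 0
  tr : N 0 0 + N 1 1 = 0
  dt : N 0 0 * N 1 1 - N 0 1 * N 1 0 = 0

theorem exists_nil2 (N : Matrix (Fin 2) (Fin 2) F) (hN : IsNilpotent N) (h0 : N ≠ 0) :
    ∃ i j, Nil2 N i j := by
  have htr : N 0 0 + N 1 1 = 0 := by
    have h1 := (Matrix.isNilpotent_trace_of_isNilpotent hN).eq_zero
    rwa [Matrix.trace_fin_two] at h1
  have hdt : N 0 0 * N 1 1 - N 0 1 * N 1 0 = 0 := by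
    obtain ⟨m, hm⟩ := hN
    have h1 : N.det ^ m = 0 := by
      rw [← Matrix.det_pow, hm]
      exact Matrix.det_zero
    have h2 := eq_zero_of_pow_eq_zero h1
    rwa [Matrix.det_fin_two] at h2
  by_cases h01 : N 0 1 = 0
  · by_cases h10 : N 1 0 = 0
    · exfalso
      apply h0
      have h11 : N 1 1 = - N 0 0 := by linear_combination htr
      have h00 : N 0 0 = 0 := by
        rw [h01, h10, h11] at hdt
        have : N 0 0 * N 0 0 = 0 := by linear_combination -hdt
        exact mul_self_eq_zero.1 this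
      ext i j
      fin_cases i <;> fin_cases j <;> simp [h00, h01, h10, h11]
    · exact ⟨1, 0, ⟨by decide, h10, htr, hdt⟩⟩
  · exact ⟨0, 1, ⟨by decide, h01, htr, hdt⟩⟩

/-- a nonzero nilpotent 2 by 2 matrix has square zero -/
theorem Nil2.sq {N : Matrix (Fin 2) (Fin 2) F} {i j : Fin 2} (h : Nil2 N i j) : N * N = 0 := by
  have h11 : N 1 1 = - N 0 0 := by linear_combination h.tr
  have hd := h.dt
  rw [h11] at hd
  ext a b
  rw [Matrix.mul_apply, Fin.sum_univ_two]
  fin_cases a <;> fin_cases b <;> simp [h11] <;>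
    first | linear_combination (-hd) | linear_combination (0 : F) * hd

theorem form [CharZero F] {N : Matrix (Fin 2) (Fin 2) F} {i j : Fin 2} (h : Nil2 N i j)
    (z : Matrix (Fin 2) (Fin 2) F) (hz : z * N = N * z) :
    ∃ a b : F, z = a • (1 : Matrix (Fin 2) (Fin 2) F) + b • N := by
  have h11 : N 1 1 = - N 0 0 := by linear_combination h.tr
  have e00 := congrFun (congrFun hz 0) 0
  have e01 := congrFun (congrFun hz 0) 1
  have e10 := congrFun (congrFun hz 1) 0
  simp only [Matrix.mul_apply, Fin.sum_univ_two, h11] at e00 e01 e10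
  have h2 : (2 : F) ≠ 0 := two_ne_zero
  refine ⟨(z 0 0 + z 1 1) / 2, z i j / N i j, ?_⟩
  have hij := h.ne
  have hnz := h.nz
  ext a b
  fin_cases i <;> fin_cases j <;> simp at hij hnz ⊢ <;>
  fin_cases a <;> fin_cases b <;> simp [h11] <;> field_simp <;> grind

/-- the functional on the centraliser -/
def phi (i j : Fin 2) (z : GL (Fin 2) F) : F :=
  (z : Matrix (Fin 2) (Fin 2) F) i j *
    ((((z⁻¹ : GL (Fin 2) F) : Matrix (Fin 2) (Fin 2) F) 0 0 +
      ((z⁻¹ : GL (Fin 2) F) : Matrix (Fin 2) (Fin 2) F) 1 1) * (2 : F)⁻¹)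

theorem phi_mem {A : Subring F} (hA : (2 : F)⁻¹ ∈ A) (i j : Fin 2) {z : GL (Fin 2) F}
    (hz : z ∈ HR 2 A) : phi i j z ∈ A :=
  A.mul_mem (hz.1 i j) (A.mul_mem (A.add_mem (hz.2 0 0) (hz.2 1 1)) hA)

theorem det_form {N : Matrix (Fin 2) (Fin 2) F} {i j : Fin 2} (h : Nil2 N i j) (a b : F) :
    (a • (1 : Matrix (Fin 2) (Fin 2) F) + b • N).det = a ^ 2 := by
  have h11 : N 1 1 = - N 0 0 := by linear_combination h.tr
  have hd := h.dt
  rw [h11] at hd
  rw [Matrix.det_fin_two]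
  simp [h11]
  linear_combination b ^ 2 * hd

theorem ne_zero_form {N : Matrix (Fin 2) (Fin 2) F} {i j : Fin 2} (h : Nil2 N i j) {a b : F}
    {z : GL (Fin 2) F} (hz : (z : Matrix (Fin 2) (Fin 2) F) = a • 1 + b • N) : a ≠ 0 := by
  rintro rfl
  have h1 := det_form h 0 b
  rw [← hz] at h1
  have h2 : IsUnit (z : Matrix (Fin 2) (Fin 2) F).det :=
    (Matrix.isUnit_iff_isUnit_det _).1 z.isUnit
  rw [h1] at h2
  simp at h2

theorem inv_form {N : Matrix (Fin 2) (Fin 2) F} {i j : Fin 2} (h : Nil2 N i j) {a b : F}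
    {z : GL (Fin 2) F} (hz : (z : Matrix (Fin 2) (Fin 2) F) = a • 1 + b • N) :
    ((z⁻¹ : GL (Fin 2) F) : Matrix (Fin 2) (Fin 2) F) = a⁻¹ • 1 + (-(b * a⁻¹ * a⁻¹)) • N := by
  have ha := ne_zero_form h hz
  refine Units.inv_eq_of_mul_eq_one_right ?_
  rw [hz]
  simp only [add_mul, mul_add, smul_mul_smul_comm, one_mul, mul_one, h.sq, smul_zero, add_zero]
  rw [add_assoc, ← add_smul, mul_inv_cancel₀ ha, one_smul]
  have h3 : b * a⁻¹ + a * -(b * a⁻¹ * a⁻¹) = 0 := by
    field_simp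
    ring
  rw [h3, zero_smul, add_zero]

theorem phi_eq [CharZero F] {N : Matrix (Fin 2) (Fin 2) F} {i j : Fin 2} (h : Nil2 N i j) {a b : F}
    {z : GL (Fin 2) F} (hz : (z : Matrix (Fin 2) (Fin 2) F) = a • 1 + b • N) :
    phi i j z = b * a⁻¹ * N i j := by
  have ha := ne_zero_form h hz
  have h11 : N 1 1 = - N 0 0 := by linear_combination h.tr
  rw [phi, inv_form h hz, hz]
  simp only [Matrix.add_apply, Matrix.smul_apply, smul_eq_mul, Matrix.one_apply_eq,
    Matrix.one_apply_ne h.ne, h11]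
  have h2 : (2 : F) ≠ 0 := two_ne_zero
  field_simp
  ring

theorem phi_mul [CharZero F] {N : Matrix (Fin 2) (Fin 2) F} {i j : Fin 2} (h : Nil2 N i j)
    {z w : GL (Fin 2) F} (hz : (z : Matrix (Fin 2) (Fin 2) F) * N = N * z)
    (hw : (w : Matrix (Fin 2) (Fin 2) F) * N = N * w) :
    phi i j (z * w) = phi i j z + phi i j w := by
  obtain ⟨a, b, hab⟩ := form h _ hz
  obtain ⟨c, d, hcd⟩ := form h _ hw
  have hp : ((z * w : GL (Fin 2) F) : Matrix (Fin 2) (Fin 2) F) =
      (a * c) • 1 + (a * d + b * c) • N := by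
    rw [Units.val_mul, hab, hcd]
    simp only [add_mul, mul_add, smul_mul_smul_comm, one_mul, mul_one, h.sq, smul_zero, add_zero]
    rw [add_assoc, ← add_smul, add_comm (b * c)]
  have ha := ne_zero_form h hab
  have hc := ne_zero_form h hcd
  rw [phi_eq h hab, phi_eq h hcd, phi_eq h hp]
  field_simp
  ring

theorem key (hNNF : s_NNF.{u}) (hVALG : s_VALG.{u}) (hEIGH : s_EIGH.{u}) [CharZero F]
    (G₀ : Subgroup (GL (Fin 2) F)) (hfg : G₀.FG) : ∃ M : ℕ, 0 < M ∧ CentHomM G₀ M := by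
  classical
  obtain ⟨T, hT⟩ := hfg
  let S : Set F := {(2 : F)⁻¹} ∪ ⋃ a ∈ T, en a
  have hS : S.Finite :=
    (Set.finite_singleton _).union (T.finite_toSet.biUnion fun a _ => en_finite a)
  obtain ⟨M, hM, hψ⟩ := hNNF F S hS
  refine ⟨M, hM, fun g hg => ?_⟩
  by_cases hu : ∀ k : ℕ, 0 < k →
      ¬IsNilpotent (((g : GL (Fin 2) F) : Matrix (Fin 2) (Fin 2) F) ^ k - 1)
  · obtain ⟨E, iF, S', hS', hc, d, hd⟩ := hEIGH F 2 G₀ ⟨T, hT⟩ g hu
    obtain ⟨f, hf⟩ := hVALG E S' hS' hc _ hd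
    exact centHomM_of_int g ⟨f.comp d, hf⟩
  push Not at hu
  obtain ⟨k, hk, hnil⟩ := hu
  have h0 : ((g : GL (Fin 2) F) : Matrix (Fin 2) (Fin 2) F) ^ k - 1 ≠ 0 := by
    intro h0
    apply hg
    refine isOfFinOrder_iff_pow_eq_one.2 ⟨k, hk, Subtype.ext (Units.ext ?_)⟩
    rw [Subgroup.coe_pow, Units.val_pow_eq_pow_val]
    exact sub_eq_zero.1 h0
  obtain ⟨i, j, hij⟩ := exists_nil2 _ hnil h0
  set N : Matrix (Fin 2) (Fin 2) F := ((g : GL (Fin 2) F) : Matrix (Fin 2) (Fin 2) F) ^ k - 1 with hN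
  have hG : G₀ ≤ HR 2 (Subring.closure S) := by
    rw [← hT, Subgroup.closure_le]
    intro a ha
    have hsub : en a ⊆ S := fun x hx => Or.inr (Set.mem_biUnion ha hx)
    exact ⟨fun i j => Subring.subset_closure (hsub (Or.inl ⟨(i, j), rfl⟩)),
      fun i j => Subring.subset_closure (hsub (Or.inr ⟨(i, j), rfl⟩))⟩
  have h2 : (2 : F)⁻¹ ∈ Subring.closure S := Subring.subset_closure (Or.inl rfl)
  have hcom : ∀ z : Subgroup.centralizer {g},
      ((z.1 : GL (Fin 2) F) : Matrix (Fin 2) (Fin 2) F) * N = N * (z.1 : GL (Fin 2) F) := by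
    intro z
    have h1 : Commute z.1 g := Subgroup.mem_centralizer_singleton_iff.1 z.2
    have h3 : Commute ((z.1 : GL (Fin 2) F) : Matrix (Fin 2) (Fin 2) F)
        ((g : GL (Fin 2) F) : Matrix (Fin 2) (Fin 2) F) :=
      (h1.map G₀.subtype).map (Units.coeHom (Matrix (Fin 2) (Fin 2) F))
    exact (h3.pow_right k).sub_right (Commute.one_right _)
  have hmem : ∀ z : G₀, phi i j (z : GL (Fin 2) F) ∈ Subring.closure S := fun z =>
    phi_mem h2 i j (hG z.2)
  let f : Subgroup.centralizer {g} →* Multiplicative (Subring.closure S) :=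
    MonoidHom.mk' (fun z => Multiplicative.ofAdd ⟨phi i j (z.1 : GL (Fin 2) F), hmem z.1⟩) (by
      intro z w
      apply Multiplicative.toAdd.injective
      apply Subtype.ext
      exact phi_mul hij (hcom z) (hcom w))
  let gc : Subgroup.centralizer {g} := ⟨g, Subgroup.mem_centralizer_singleton_iff.2 rfl⟩
  have hpow : phi i j ((gc ^ k).1 : GL (Fin 2) F) = N i j := by
    have h3 : (((gc ^ k).1 : GL (Fin 2) F) : Matrix (Fin 2) (Fin 2) F) =
        (1 : F) • 1 + (1 : F) • N := by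
      change (((g ^ k : G₀) : GL (Fin 2) F) : Matrix (Fin 2) (Fin 2) F) = _
      rw [Subgroup.coe_pow, Units.val_pow_eq_pow_val, one_smul, one_smul, hN]
      abel
    rw [phi_eq hij h3, inv_one, one_mul, one_mul]
  have hmN : N i j ∈ Subring.closure S := by
    rw [← hpow]
    exact hmem _
  obtain ⟨ψ, hψ1⟩ := hψ (N i j) hmN hij.nz
  have h4 := hψ1 hmN
  refine ⟨(AddMonoidHom.toMultiplicative ψ).comp f, fun h5 => h4 ?_⟩
  have h6 : ((AddMonoidHom.toMultiplicative ψ).comp f) gc = 1 := h5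
  have h7 : ((AddMonoidHom.toMultiplicative ψ).comp f) (gc ^ k) = 1 := by
    rw [map_pow, h6, one_pow]
  have h8 : f (gc ^ k) = Multiplicative.ofAdd ⟨N i j, hmN⟩ := by
    apply Multiplicative.toAdd.injective
    apply Subtype.ext
    exact hpow
  rw [MonoidHom.comp_apply, h8] at h7
  exact h7

end GLT_aux

open GLT_aux in
/-- GLT -/
theorem t_GLT (hNNF : s_NNF.{u}) (hVALG : s_VALG.{u}) (hEIGH : s_EIGH.{u}) : s_GLT.{u} := by
  intro F _ _ G G₁ hG₁
  let e : G₁ ≃* G₁.map G.subtype := G₁.equivMapOfInjective G.subtype G.subtype_injective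
  have h1 : Group.FG G₁ := (Group.fg_iff_subgroup_fg G₁).2 hG₁
  have h2 : Group.FG (G₁.map G.subtype) :=
    Group.fg_of_surjective (f := e.toMonoidHom) e.surjective
  have hfg : (G₁.map G.subtype).FG := (Group.fg_iff_subgroup_fg _).1 h2
  obtain ⟨M, hM, hk⟩ := key hNNF hVALG hEIGH (G₁.map G.subtype) hfg
  refine ⟨M, hM, fun g hg => centHomM_of_hom e.toMonoidHom g (hk (e.toMonoidHom g) ?_)⟩
  intro h
  obtain ⟨k, hk, hk1⟩ := isOfFinOrder_iff_pow_eq_one.1 h
  refine hg (isOfFinOrder_iff_pow_eq_one.2 ⟨k, hk, e.injective ?_⟩)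
  rw [map_pow, map_one]
  exact hk1

end Pool.Agent.SUR
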