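import Pool.Agent.SUR.StA

/-!
# LOCM: homomorphisms to the integers are homomorphisms to `ℤ[1/1]`
-/

set_option autoImplicit false

universe u

namespace Pool.Agent.SUR

open Pool.Agent.WhK

theorem t_LOCM : s_LOCM := by
  intro G _ h G₀ hG₀
  refine ⟨1, one_pos, fun g hg => ?_⟩
  obtain ⟨f, hf⟩ := h G₀ hG₀ g hg
  refine ⟨(AddMonoidHom.toMultiplicative (Int.castAddHom (ZM 1))).comp f, fun h0 => hf ?_⟩
  have h1 : (((f ⟨g, Subgroup.mem_centralizer_singleton_iff.2 rfl⟩).toAdd : ℤ) : ZM 1) = 0 := h0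
  have h2 := congrArg (Subtype.val : ZM 1 → ℚ) h1
  push_cast at h2
  exact_mod_cast h2

end Pool.Agent.SUR
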