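import Pool.Agent.SUR.Final
import Pool.Agent.SUR.AKAP
import Pool.Agent.SUR.AWRW
import Pool.Agent.SUR.ATOT
import Pool.Agent.SUR.AEVA
import Pool.Agent.SUR.AREF
import Pool.Agent.SUR.ACOC
import Pool.Agent.SUR.ARES
import Pool.Agent.SUR.AVAL
import Pool.Agent.SUR.ANEQ
import Pool.Agent.SUR.AVANC
import Pool.Agent.SUR.AARI
import Pool.Agent.SUR.LOCM
import Pool.Agent.SUR.EIGH
import Pool.Agent.SUR.NNF
import Pool.Agent.SUR.GLT

/-!
# Surjectivity in degree one, seen in arbitrary targets: homomorphisms to `ℤ[1/M]`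
-/

set_option autoImplicit false

universe u

namespace Pool.Agent.SUR

open Pool.Agent.WhK

theorem t_AREF' : s_AREF.{u} := t_AREF t_AKAP t_AWRW t_ATOT t_AEVA t_INV t_GAM

theorem surjW_M (G : Type u) [Group G] (h : LocCentHomM G) : SurjW G :=
  surjW_of_arithR G fun G₀ h₀ => by
    obtain ⟨M, hM, hc⟩ := h G₀ h₀
    exact t_AARI (t_AVAL t_AREF' t_ARES) t_ACOC t_ARES t_ANEQ G₀ M hM hc
      (t_AVANC t_COH t_AREF' t_ACOC t_ARES t_ANEQ G₀ M hM hc)

theorem t_GLT' : s_GLT.{u} := t_GLT t_NNF t_VALG' t_EIGH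

/-- linear groups -/
theorem locCentHomM_linear (F : Type u) [Field F] (n : ℕ) (G : Subgroup (GL (Fin n) F))
    (h : (∃ p : ℕ, p ≠ 0 ∧ CharP F p) ∨ n ≤ 2 ∨
      ∀ g ∈ G, IsNilpotent ((g : Matrix (Fin n) (Fin n) F) - 1) → IsOfFinOrder g) :
    LocCentHomM G := by
  have hpos : (∃ p : ℕ, p ≠ 0 ∧ CharP F p) → LocCentHomM G := by
    rintro ⟨p, hp0, hp⟩
    have hpp : p.Prime := (CharP.char_is_prime_or_zero F p).resolve_right hp0
    have : Fact p.Prime := ⟨hpp⟩
    exact t_LOCM G (t_LING'.1 F n G fun g _ hg => t_LING'.2 F p n g hg)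
  rcases h with h | h | h
  · exact hpos h
  · by_cases hc : CharZero F
    · have hn : n = 0 ∨ n = 1 ∨ n = 2 := by omega
      rcases hn with rfl | rfl | rfl
      · exact t_LOCM G (t_LING'.1 F 0 G fun g _ _ => by
          rw [Subsingleton.elim g 1]
          exact IsOfFinOrder.one)
      · refine t_LOCM G (t_LING'.1 F 1 G fun g _ hg => ?_)
        have h1 : ((g : Matrix (Fin 1) (Fin 1) F) - 1) = 0 := by
          obtain ⟨k, hk⟩ := hg
          ext i j
          have h2 : (((g : Matrix (Fin 1) (Fin 1) F) - 1) 0 0) ^ k = 0 := by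
            have h3 := congrArg Matrix.det hk
            rw [Matrix.det_pow, Matrix.det_fin_one, Matrix.det_fin_one] at h3
            exact h3
          rw [Subsingleton.elim i 0, Subsingleton.elim j 0]
          exact eq_zero_of_pow_eq_zero h2
        have h2 : g = 1 := Units.ext (sub_eq_zero.1 h1)
        rw [h2]
        exact IsOfFinOrder.one
      · exact t_GLT' F G
    · obtain ⟨p, hp⟩ := CharP.exists F
      refine hpos ⟨p, fun h0 => hc ?_, hp⟩
      rw [h0] at hp
      exact CharP.charP_to_charZero F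
  · exact t_LOCM G (t_LING'.1 F n G h)

end Pool.Agent.SUR
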