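import Pool.Agent.SUR.CondN
import Pool.Agent.SUR.LCC

/-!
# LCCN: from the vanishing of cohomology to nilpotent Euler classes, degrees which depend on the element
-/

set_option autoImplicit false

universe u

namespace Pool.Agent.SUR

open Pool.Agent.WhK Finset

open LLINx LCCx

/-- LCCN -/
theorem centEulN_of_cohN (hCOH : s_LCOH.{u}) (G : Type u) [Group G] (h : CentCohN G) :
    CentEulN G := by
  obtain ⟨M, hM, hG⟩ := h
  refine ⟨ULift.{u} ℚ, inferInstance, {ULift.up (1 / (M : ℚ))}, Set.finite_singleton _,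
    fun g hg => ?_⟩
  obtain ⟨r, j, k, h, Q, _, p, hr, hj, hk, hhk, hc, hp, hker, hsub⟩ := hG g hg
  refine ⟨r, hr, Or.inr ⟨charZero_ulift, ?_⟩⟩
  have hinf : ¬IsOfFinOrder h := by
    intro hf
    apply hg
    have h1 : IsOfFinOrder ((⟨g, Subgroup.mem_centralizer_singleton_iff.2 rfl⟩ :
        Subgroup.centralizer {g}) ^ j) := by
      rw [← hhk]
      exact hf.pow
    obtain ⟨m, hm, hm1⟩ := isOfFinOrder_iff_pow_eq_one.1 h1
    refine isOfFinOrder_iff_pow_eq_one.2 ⟨j * m, Nat.mul_pos hj hm, ?_⟩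
    rw [← pow_mul] at hm1
    exact congrArg Subtype.val hm1
  obtain ⟨s, φ, hE⟩ := hCOH _ Q h hc hinf p hp hker M r hr hsub
  refine ⟨j, (k : Subring.closure {(ULift.up (1 / (M : ℚ)) : ULift.{u} ℚ)}),
    fun z => incR.{u} hM (s z), fun l => incR.{u} hM (φ l), hj, ?_, ?_⟩
  · intro h0
    have h1 : ((k : ULift.{u} ℚ)) = ((0 : ℕ) : ULift.{u} ℚ) := by
      rw [Nat.cast_zero]
      exact congrArg Subtype.val h0
    exact hk.ne' (charZero_ulift.{u}.cast_injective h1)
  · rw [← hhk]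
    exact nil_pow (incR.{u} hM) hE k

end Pool.Agent.SUR
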