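import Pool.Agent.SUR.StO
import Pool.Agent.SUR.PAUT

/-!
# OUTU: unique roots in outer automorphism groups
-/

set_option autoImplicit false

universe u

namespace Pool.Agent.SUR

namespace OUTUx

open PAUT

variable {π : Type u} [Group π]

theorem conj_mem_CR (c d : π) : e (c * d * c⁻¹) - e d ∈ CR π := by
  refine Submodule.subset_span ⟨e c, e (d * c⁻¹), ?_⟩
  have h1 : e (c * d * c⁻¹) = e c * e (d * c⁻¹) := by
    rw [← e_mul, mul_assoc]
  have h2 : e d = e (d * c⁻¹) * e c := by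
    rw [← e_mul, inv_mul_cancel_right]
  rw [h1, ← h2]

theorem A_CR (θ : MulAut π) {x : MonoidAlgebra ℤ π} (hx : x ∈ CR π) : A θ x ∈ CR π := by
  have h : CR π ≤ (CR π).comap (A θ).toAddMonoidHom.toIntLinearMap := by
    unfold CR
    rw [Submodule.span_le]
    rintro _ ⟨a, b, rfl⟩
    refine Submodule.subset_span ⟨A θ a, A θ b, ?_⟩
    show A θ (a * b - b * a) = _
    rw [map_sub, map_mul, map_mul]
  exact h hx

theorem A_sup (H : Hyp π) (θ : MulAut π) {k : ℕ} {x : MonoidAlgebra ℤ π}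
    (hx : x ∈ J2 π ^ k ⊔ CR π) : A θ x ∈ J2 π ^ k ⊔ CR π := by
  obtain ⟨a, ha, b, hb, rfl⟩ := Submodule.mem_sup.1 hx
  rw [map_add]
  exact Submodule.add_mem _ (Submodule.mem_sup_left (A_mem H θ ha))
    (Submodule.mem_sup_right (A_CR θ hb))

end OUTUx

open PAUT OUTUx in
theorem t_OUTU (hPJ2 : s_PJ2.{u}) (hOTRJ : s_OTRJ.{u}) : s_OUTU.{u} := by
  intro π _ hfg hout 𝒢 _ q hq hker
  obtain ⟨j1, j2, j3, -⟩ := hPJ2 π
  have H : Hyp π := ⟨j1, j2, j3⟩
  obtain ⟨m, hm, hlev⟩ := exists_power H hfg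
  refine ⟨max 2 m, fun p hp hp2 X Y hXY => ?_⟩
  have hp2' : 2 < p := (le_max_left 2 m).trans_lt hp2
  have hpm : m < p := (le_max_right 2 m).trans_lt hp2
  obtain ⟨x, rfl⟩ := hq X
  obtain ⟨y, rfl⟩ := hq Y
  have hmem : y⁻¹ * x ∈ (MulAut.conj (G := π)).range := by
    refine hout _ fun d ρ hρ g => ?_
    refine (hOTRJ π d ρ hρ ((y⁻¹ * x) g) g).1 fun k hk => ?_
    have hco : Nat.Coprime p (m * 2 ^ k) := by
      refine Nat.Coprime.mul_right ?_ (Nat.Coprime.pow_right k ?_)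
      · exact Nat.coprime_of_lt_prime hm.ne' hpm hp
      · rw [Nat.coprime_primes hp Nat.prime_two]
        omega
    obtain ⟨u, t, hut⟩ := bezout hp.pos (Nat.mul_pos hm (Nat.two_pow_pos k)) hco
    have hl : ∀ z : MulAut π, Lev (z ^ (m * 2 ^ k * t)) (k + 1) := by
      intro z
      rw [pow_mul, pow_mul]
      exact lev_pow H (lev_two_pow H (hlev z) k) t
    have i1 : ∀ z : MulAut π, z * z ^ (m * 2 ^ k * t) = (z ^ p) ^ u := by
      intro z
      rw [← pow_mul, hut, pow_add, pow_one]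
    have hq1 : q ((x ^ p) ^ u) = q ((y ^ p) ^ u) := by
      rw [map_pow, map_pow, map_pow, map_pow, hXY]
    have hin : ((y ^ p) ^ u)⁻¹ * (x ^ p) ^ u ∈ q.ker := by
      rw [MonoidHom.mem_ker, map_mul, map_inv, hq1, inv_mul_cancel]
    rw [hker] at hin
    obtain ⟨h', hh'⟩ := hin
    have hxy : (x ^ p) ^ u = (y ^ p) ^ u * MulAut.conj h' := by
      rw [hh', mul_inv_cancel_left]
    have hz : ∀ (z : MulAut π) (g : π),
        A (z * z ^ (m * 2 ^ k * t)) (e g) - e (z g) ∈ J2 π ^ (k + 1) := by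
      intro z g
      have h2 := A_mem H z ((hl z).1 (e g))
      rw [map_sub, A_e z g, ← A_mul] at h2
      exact h2
    have hx1 := hz x g
    have hy1 := hz y (h' * g * h'⁻¹)
    rw [i1, A_e] at hx1 hy1
    have hval : ((x ^ p) ^ u) g = ((y ^ p) ^ u) (h' * g * h'⁻¹) := by
      rw [hxy, MulAut.mul_apply, MulAut.conj_apply]
    rw [hval] at hx1
    have h4 : e (x g) - e (y (h' * g * h'⁻¹)) ∈ J2 π ^ k := by
      have h5 : e (x g) - e (y (h' * g * h'⁻¹)) =
          (e (((y ^ p) ^ u) (h' * g * h'⁻¹)) - e (y (h' * g * h'⁻¹))) -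
          (e (((y ^ p) ^ u) (h' * g * h'⁻¹)) - e (x g)) := by
        abel
      rw [h5]
      exact H.step k hk (Submodule.sub_mem _ hy1 hx1)
    have h6 : e (x g) - e (y g) ∈ J2 π ^ k ⊔ CR π := by
      have h7 : e (x g) - e (y g) = (e (x g) - e (y (h' * g * h'⁻¹))) +
          (e (y h' * y g * (y h')⁻¹) - e (y g)) := by
        rw [map_mul, map_mul, map_inv]
        abel
      rw [h7]
      exact Submodule.add_mem _ (Submodule.mem_sup_left h4)
        (Submodule.mem_sup_right (conj_mem_CR (y h') (y g)))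
    have h8 := A_sup H y⁻¹ h6
    rw [map_sub, A_e, A_e, MulAut.inv_apply_self] at h8
    exact h8
  have hk : y⁻¹ * x ∈ q.ker := by
    rw [hker]
    exact hmem
  rw [MonoidHom.mem_ker, map_mul, map_inv] at hk
  exact (inv_mul_eq_one.1 hk).symm

end Pool.Agent.SUR
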