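import Pool.Agent.SUR.FinalN
import Pool.Agent.SUR.LCCN
import Pool.Agent.SUR.OMAT
import Pool.Agent.SUR.OSYL
import Pool.Agent.SUR.OINN
import Pool.Agent.SUR.OTRJ
import Pool.Agent.SUR.OUTU
import Pool.Agent.SUR.OUTL

/-!
# Surjectivity in degree one, seen in arbitrary targets: outer automorphism groups of free groups
-/

set_option autoImplicit false

universe u

namespace Pool.Agent.SUR

open Pool.Agent.WhK

/-- free groups: automorphisms which preserve the traces are inner -/
theorem outSep_free (α : Type u) : OutSep (FreeGroup α) :=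
  t_OINN t_OMAT t_OSYL α

/-- subgroups of outer automorphism groups of finitely generated free groups -/
theorem locE_out (α : Type u) [Finite α] (Q : Type u) [Group Q]
    (q : MulAut (FreeGroup α) →* Q) (hq : Function.Surjective q)
    (hker : q.ker = (MulAut.conj (G := FreeGroup α)).range) (G : Subgroup Q) : LocE G := by
  have hfg : Group.FG (FreeGroup α) := inferInstance
  intro G₀ _
  let f : G₀ →* Q := G.subtype.comp G₀.subtype
  have hf : Function.Injective f := G.subtype_injective.comp G₀.subtype_injective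
  exact Or.inr ⟨uniqExp_of_injective f hf
      (t_OUTU t_PJ2 t_OTRJ (FreeGroup α) hfg (outSep_free α) Q q hq hker),
    t_RLZ _ (linSepZ_of_injective f hf
      (t_OUTL t_RGRF t_OTRJ (FreeGroup α) hfg (outSep_free α) Q q hq hker))⟩

/-- the cohomological condition -/
theorem locE_of_coh (G : Type u) [Group G]
    (h : ∀ G₀ : Subgroup G, G₀.FG → CentCoh G₀ ∨ (UniqExp G₀ ∧ CentCohN G₀)) : LocE G := by
  intro G₀ h₀
  rcases h G₀ h₀ with h1 | ⟨h1, h2⟩
  · exact Or.inl (t_LCC (t_LCOH t_LCUP t_LCBR) G₀ h1)
  · exact Or.inr ⟨h1, centEulN_of_cohN (t_LCOH t_LCUP t_LCBR) G₀ h2⟩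

end Pool.Agent.SUR
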