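import Pool.Agent.SUR.StP

/-!
# DTP, module PCMP: the vanishing of the second bilinear form (helper48)
-/

set_option autoImplicit false

universe u

namespace Pool.Agent.SUR

open Pool.Agent.WhK Finset

theorem t_PCMP (hDANT : s_DANT.{u}) (hDPB : s_DPB.{u}) (hLLIFT : s_LLIFT.{u}) : s_PCMP.{u} := by
  intro 𝔑 K _ cl hcl k v W U hv hW hU w
  obtain ⟨x, y, hxy⟩ := hLLIFT 𝔑 w 2 (by norm_num)
  obtain ⟨hW1, hW2, -⟩ := hDPB 𝔑 K ℚ W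
  obtain ⟨hU1, hU2, hU3⟩ := hDPB 𝔑 K ℚ U
  have h := hDANT 𝔑 K cl hcl k v 0 (fun a b => W (th 𝔑 a) (th 𝔑 b)) (fun a b => U (th 𝔑 a) (th 𝔑 b))
    hv (hW1 cl k v hW) (hW2 0) (hU1 cl k 0 hU) (hU2 0) w x y hxy
  rw [hU3, hxy.1, hxy.2.1] at h
  exact h

end Pool.Agent.SUR
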