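import Pool.Agent.SUR.StP
import Pool.Agent.SUR.Bil
import Pool.Agent.SUR.ARES
import Pool.Agent.SUR.DTR

/-!
# The Dennis trace at one class of infinite order, groups with `PRoots` (module PCORE)
-/

set_option autoImplicit false

universe u

namespace Pool.Agent.SUR

open Pool.Agent.WhK Finset

namespace PCORE

variable {G : Type u} [Group G] {n : ℕ}

/-- a representative of a class -/
noncomputable def rep (o : Option (ConjClasses G)) : G := o.elim 1 Quotient.out

theorem mk_out (C : ConjClasses G) : ConjClasses.mk (Quotient.out C) = C := Quotient.out_eq C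

theorem powC_mk (p : ℕ) (c : G) : powC p (ConjClasses.mk c) = ConjClasses.mk (c ^ p) := rfl

theorem isConj_pow {a b : G} (h : IsConj a b) (k : ℕ) : IsConj (a ^ k) (b ^ k) := by
  obtain ⟨c, hc⟩ := isConj_iff.1 h
  exact isConj_iff.2 ⟨c, by rw [← hc, conj_pow]⟩

theorem infOrd_pow {a : G} (h : ¬IsOfFinOrder a) {k : ℕ} (hk : 0 < k) :
    ¬IsOfFinOrder (a ^ k) := by
  intro h1
  rw [isOfFinOrder_iff_pow_eq_one] at h h1
  obtain ⟨m, hm, h2⟩ := h1
  exact h ⟨k * m, Nat.mul_pos hk hm, by rw [pow_mul, h2]⟩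

theorem infOrd_of_pow {a : G} {k : ℕ} (h : ¬IsOfFinOrder (a ^ k)) : ¬IsOfFinOrder a :=
  fun h1 => h h1.pow

theorem infOrd_conj {a b : G} (h : IsConj a b) (ha : ¬IsOfFinOrder a) : ¬IsOfFinOrder b :=
  fun hb => ha (DTRaux.isOfFinOrder_congr h.symm hb)

/-- the finite set of the classes of the products -/
noncomputable def T0 (w : (MonoidAlgebra ℤ (MM G n))ˣ) : Set (Option (ConjClasses G)) :=
  {o | ∃ a ∈ (w⁻¹ : (MonoidAlgebra ℤ (MM G n))ˣ).val.coeff.support,
    ∃ b ∈ w.val.coeff.support, MM.cl (a * b) = o}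

theorem T0_finite (w : (MonoidAlgebra ℤ (MM G n))ˣ) : (T0 w).Finite := by
  classical
  refine Set.Finite.subset (((w⁻¹ : (MonoidAlgebra ℤ (MM G n))ˣ).val.coeff.support ×ˢ
    w.val.coeff.support).image fun ab => MM.cl (ab.1 * ab.2)).finite_toSet ?_
  rintro o ⟨a, ha, b, hb, h⟩
  exact Finset.mem_coe.2 (Finset.mem_image.2 ⟨(a, b), Finset.mem_product.2 ⟨ha, hb⟩, h⟩)

/-- the finite set of representatives -/
theorem exists_S (w : (MonoidAlgebra ℤ (MM G n))ˣ) (g : G) (hg : ¬IsOfFinOrder g) :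
    ∃ S : Finset G, (∀ x ∈ S, ¬IsOfFinOrder x) ∧ g ∈ S ∧
      ∀ c : G, ¬IsOfFinOrder c → some (ConjClasses.mk c) ∈ T0 w → ∃ c' ∈ S, IsConj c c' := by
  classical
  refine ⟨insert g (((T0_finite w).toFinset.image rep).filter fun x => ¬IsOfFinOrder x), ?_,
    Finset.mem_insert_self _ _, ?_⟩
  · intro x hx
    rcases Finset.mem_insert.1 hx with rfl | hx
    · exact hg
    · exact (Finset.mem_filter.1 hx).2
  · intro c hc hcT
    have h1 : IsConj c (rep (some (ConjClasses.mk c))) := by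
      have h2 : ConjClasses.mk (rep (some (ConjClasses.mk c))) = ConjClasses.mk c :=
        mk_out (ConjClasses.mk c)
      exact (ConjClasses.mk_eq_mk_iff_isConj.1 h2).symm
    refine ⟨rep (some (ConjClasses.mk c)), Finset.mem_insert_of_mem (Finset.mem_filter.2
      ⟨Finset.mem_image.2 ⟨_, (T0_finite w).mem_toFinset.2 hcT, rfl⟩, infOrd_conj h1 hc⟩), h1⟩

/-- the homomorphism from the centraliser -/
def cenHom {A : Type} [AddCommGroup A] {F : G → G → A} (hF : IsWtA F) (g x : G)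
    (hx : ∀ h : G, h * x = x * h → h * g = g * h) :
    Subgroup.centralizer {x} →* Multiplicative A where
  toFun z := Multiplicative.ofAdd (F ((z : G)⁻¹ * g) z)
  map_one' := by
    have h := hF ((1 : G)⁻¹ * g) 1 1
    rw [mul_one, mul_one, one_mul] at h
    have h1 := left_eq_add.1 h
    show Multiplicative.ofAdd (F ((1 : G)⁻¹ * g) 1) = 1
    rw [h1]
    rfl
  map_mul' z z' := by
    have hz : (z : G) * g = g * z := hx z (Subgroup.mem_centralizer_singleton_iff.1 z.2)
    have h := hF (((z : G) * z')⁻¹ * g) z z'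
    have h1 : ((z : G) * z')⁻¹ * g * z = (z' : G)⁻¹ * g := by
      rw [mul_inv_rev, mul_assoc, ← hz]
      group
    have h2 : (z' : G) * (((z : G) * z')⁻¹ * g) = (z : G)⁻¹ * g := by
      rw [mul_inv_rev]
      group
    rw [h1, h2] at h
    show Multiplicative.ofAdd (F (((z : G) * z')⁻¹ * g) (z * z')) = _
    rw [h, ofAdd_add, mul_comm]

end PCORE

open PCORE in
theorem t_PCORE (hREF : s_PREF.{u}) (hRES : s_ARES.{u}) (hCOC : s_ACOC.{u}) (hNEQ : s_ANEQ.{u})
    (hCMP : s_PCMP.{u}) (hMM : s_DMM.{u}) : s_PCORE.{u} := by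
  intro G _ M hM hPR g hg F hF hsup n X
  classical
  rcases Nat.eq_zero_or_pos n with hn0 | hn
  · subst hn0
    unfold pairF
    exact Finset.sum_of_isEmpty _
  by_contra hd
  let w : (MonoidAlgebra ℤ (MM G n))ˣ := Units.map (Fhom G n) X
  obtain ⟨hW1, hbil, hW2, hat⟩ := hMM G (ZM M) F hF n
  have hw1 : Fhom G n X.val = w.val := rfl
  have hw2 : Fhom G n (X⁻¹ : (Matrix (Fin n) (Fin n) (MonoidAlgebra ℤ G))ˣ).val =
      (w⁻¹ : (MonoidAlgebra ℤ (MM G n))ˣ).val := rfl
  rw [← hbil X, hw1, hw2] at hd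
  set d : ZM M := bil (FMM F n) (w⁻¹ : (MonoidAlgebra ℤ (MM G n))ˣ).val w.val with hddef
  -- the weight of the cocycle
  have hWt : WtAtA MM.cl (some (ConjClasses.mk g)) (F 1 g) (FMM F n) := by
    refine ⟨hW1, fun a b hab => ?_, fun a ha => ?_⟩
    · obtain ⟨α, β, h1, h2⟩ := hW2 a b hab
      rw [h2, ConjClasses.mk_eq_mk_iff_isConj.2 (hsup α β h1)]
    · have h1 := (hat g).2.2 a ha
      unfold atC at h1
      rwa [one_mul, if_pos ha] at h1
  obtain ⟨S, hS, hgS, hSrep⟩ := exists_S w g hg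
  obtain ⟨p, hp1, hpp, hcen, hroots⟩ := hPR S hS (M + 2 + (d : ℚ).num.natAbs)
  have : Fact p.Prime := ⟨hpp⟩
  have hp0 : 0 < p := hpp.pos
  have hpM : ¬p ∣ M := fun h => by
    have := Nat.le_of_dvd hM h
    omega
  obtain ⟨j, hjinj, hjval, hjwt⟩ := hNEQ M p hM hpM
  -- classes in the support
  have hT0 : ∀ a ∈ (w⁻¹ : (MonoidAlgebra ℤ (MM G n))ˣ).val.coeff.support,
      ∀ b ∈ w.val.coeff.support, ∀ C, MM.cl (a * b) = some C → some C ∈ T0 w :=
    fun a ha b hb C h => ⟨a, ha, b, hb, h⟩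
  have key1 : ∀ C, some C ∈ T0 w → powC p C ≠ ConjClasses.mk g := by
    intro C hC hpC
    obtain ⟨c, rfl⟩ := ConjClasses.exists_rep C
    have h1 : IsConj (c ^ p) g := ConjClasses.mk_eq_mk_iff_isConj.1 hpC
    have h2 : ¬IsOfFinOrder c := infOrd_of_pow (infOrd_conj h1.symm hg)
    obtain ⟨c', hc', h3⟩ := hSrep c h2 hC
    exact (hroots c' hc' g hgS).1 ((isConj_pow h3 p).symm.trans h1)
  by_cases hv : F 1 g = 0
  · -- the constant is zero
    have hj := hjwt (MM G n) (Option (ConjClasses G)) MM.cl (some (ConjClasses.mk g)) (F 1 g)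
      (FMM F n) hWt
    have h1 : bil (fun a b => j (FMM F n a b)) (w⁻¹ : (MonoidAlgebra ℤ (MM G n))ˣ).val w.val -
        bil (pwA (fun a b => j (FMM F n a b)) p) (w⁻¹ : (MonoidAlgebra ℤ (MM G n))ˣ).val
          w.val = 0 := by
      rw [← PadicInt.ext_of_toZModPow]
      intro m
      rcases m with _ | m
      · exact Subsingleton.elim (α := ZMod (p ^ 0)) (h := by rw [pow_zero]; infer_instance) _ _
      · have h2 := hREF (MM G n) (Option (ConjClasses G)) MM.cl MM.cl_comm
          (some (ConjClasses.mk g)) p m _ _ hj w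
        rw [hv, map_zero, map_zero, zero_mul] at h2
        rw [← h2, map_zero]
    have h2 : bil (pwA (fun a b => j (FMM F n a b)) p)
        (w⁻¹ : (MonoidAlgebra ℤ (MM G n))ˣ).val w.val = 0 := by
      rw [(hRES G n p (ConjClasses.mk g) _ _ hn hj).2.2.1 ∅ _ _
        (fun C hC => absurd hC (Finset.notMem_empty C))
        (fun a ha b hb C hC hpC => absurd hpC (key1 C (hT0 a ha b hb C hC)))]
      exact Finset.sum_empty
    rw [h2, sub_zero] at h1
    have h3 : bil (fun a b => j (FMM F n a b)) (w⁻¹ : (MonoidAlgebra ℤ (MM G n))ˣ).val w.val =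
        j d := (map_bil j.toAddMonoidHom (FMM F n) _ _).symm
    rw [h3] at h1
    exact hd (hjinj (by rw [h1, map_zero]))
  · -- the constant is not zero
    set f := cenHom hF g (g ^ p) (hcen g hgS) with hf
    have hgc : g ∈ Subgroup.centralizer {g ^ p} := by
      rw [Subgroup.mem_centralizer_singleton_iff]
      rw [← pow_succ, ← pow_succ']
    have hfg : (f ⟨g, hgc⟩).toAdd = F 1 g := by
      show F (g⁻¹ * g) g = F 1 g
      rw [inv_mul_cancel]
    have hfgp : (f ⟨g ^ p, Subgroup.mem_centralizer_singleton_iff.2 rfl⟩).toAdd =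
        (p : ZM M) * F 1 g := by
      have h1 : (⟨g ^ p, Subgroup.mem_centralizer_singleton_iff.2 rfl⟩ :
          Subgroup.centralizer {g ^ p}) = ⟨g, hgc⟩ ^ p := Subtype.ext rfl
      rw [h1, map_pow, toAdd_pow, hfg, nsmul_eq_mul]
    obtain ⟨W', hW'⟩ := hCOC G (ZM M) n (g ^ p) f
    rw [hfgp] at hW'
    have hgp : ¬IsOfFinOrder (g ^ p) := infOrd_pow hg hp0
    have hK' : some (ConjClasses.mk (g ^ p)) ∉ T0 w := by
      intro h
      obtain ⟨c', hc', h1⟩ := hSrep (g ^ p) hgp h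
      exact (hroots g hgS c' hc').1 h1
    have hj' := hjwt (MM G n) (Option (ConjClasses G)) MM.cl (some (ConjClasses.mk (g ^ p)))
      _ W' hW'
    have hb0 : bil (fun a b => j (W' a b)) (w⁻¹ : (MonoidAlgebra ℤ (MM G n))ˣ).val w.val = 0 := by
      refine bil_eq_zero _ _ _ fun a ha b hb => ?_
      by_contra h
      exact hK' (hT0 a ha b hb _ (hj'.2.1 a b h))
    have hdvd : (p : ℤ_[p]) ∣ bil (pwA (fun a b => j (W' a b)) p)
        (w⁻¹ : (MonoidAlgebra ℤ (MM G n))ˣ).val w.val := by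
      have h2 := hREF (MM G n) (Option (ConjClasses G)) MM.cl MM.cl_comm
        (some (ConjClasses.mk (g ^ p))) p 0 _ _ hj' w
      rw [hb0, zero_sub, map_neg, map_mul, map_natCast, map_mul, map_natCast] at h2
      have h3 : ((p : ℕ) : ZMod (p ^ (0 + 1))) = 0 := by
        rw [ZMod.natCast_eq_zero_iff, zero_add, pow_one]
      rw [h3, zero_mul, zero_mul] at h2
      have h4 := neg_eq_zero.1 h2.symm
      have h5 : bil (pwA (fun a b => j (W' a b)) p)
        (w⁻¹ : (MonoidAlgebra ℤ (MM G n))ˣ).val w.val ∈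
          RingHom.ker (PadicInt.toZModPow (p := p) (0 + 1)) := h4
      rw [PadicInt.ker_toZModPow, Ideal.mem_span_singleton, zero_add, pow_one] at h5
      exact h5
    -- the restriction
    set R := resWA MM.cl W' p (some (ConjClasses.mk g)) with hR
    have hRj : bil (pwA (fun a b => j (W' a b)) p)
        (w⁻¹ : (MonoidAlgebra ℤ (MM G n))ˣ).val w.val =
        bil (fun a b => j (R a b)) (w⁻¹ : (MonoidAlgebra ℤ (MM G n))ˣ).val w.val := by
      rw [(hRES G n p (ConjClasses.mk (g ^ p)) _ _ hn hj').2.2.1 {ConjClasses.mk g} _ _ ?_ ?_,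
        Finset.sum_singleton]
      · refine bil_congr _ _ _ _ fun a _ b _ => ?_
        rw [hR]
        unfold resWA pwA
        split_ifs
        · rfl
        · rw [map_zero]
      · intro C hC
        rw [Finset.mem_singleton.1 hC]
        rfl
      · intro a ha b hb C hC hpC
        rw [Finset.mem_singleton]
        have hCT := hT0 a ha b hb C hC
        obtain ⟨c, rfl⟩ := ConjClasses.exists_rep C
        have h1 : IsConj (c ^ p) (g ^ p) := ConjClasses.mk_eq_mk_iff_isConj.1 hpC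
        have h2 : ¬IsOfFinOrder c := infOrd_of_pow (infOrd_conj h1.symm hgp)
        obtain ⟨c', hc', h3⟩ := hSrep c h2 hCT
        have h4 := (hroots c' hc' g hgS).2 ((isConj_pow h3 p).symm.trans h1)
        exact ConjClasses.mk_eq_mk_iff_isConj.2 (h3.trans h4)
    have hRwt : WtAtA MM.cl (some (ConjClasses.mk g)) (F 1 g) R := by
      refine ⟨ARES.resWA_isWtA MM.cl_comm hW'.1 p _, fun a b hab => ?_, fun a ha => ?_⟩
      · by_contra h
        exact hab (if_neg h)
      · have h1 : R 1 a = W' (a ^ (p - 1)) a := by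
          rw [hR]
          unfold resWA pwA
          rw [one_mul, if_pos ha, mul_one]
        have h2 : MM.cl (a ^ p) = some (ConjClasses.mk (g ^ p)) := RES.cl_pow hp0 ha
        have h3 := hW'.2.2 _ h2
        rw [ARES.wt_one_pow hW'.1] at h3
        rw [h1]
        have h4 : (p : ZM M) ≠ 0 := Nat.cast_ne_zero.2 hp0.ne'
        exact mul_left_cancel₀ h4 h3
    -- comparison with rational values
    have hcmp : ((bil R (w⁻¹ : (MonoidAlgebra ℤ (MM G n))ˣ).val w.val : ZM M) : ℚ) = (d : ℚ) := by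
      have hvQ : ((F 1 g : ZM M) : ℚ) ≠ 0 := fun h => hv (Subtype.ext h)
      have hWQ : WtAtA MM.cl (some (ConjClasses.mk g)) ((F 1 g : ZM M) : ℚ)
          (fun a b => ((FMM F n a b : ZM M) : ℚ)) := by
        refine ⟨fun a b c => ?_, fun a b h => ?_, fun a ha => ?_⟩
        · show ((FMM F n a (b * c) : ZM M) : ℚ) = _
          rw [hWt.1 a b c]
          push_cast
          rfl
        · refine hWt.2.1 a b fun h1 => h ?_
          show ((FMM F n a b : ZM M) : ℚ) = 0
          rw [h1]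
          rfl
        · show ((FMM F n 1 a : ZM M) : ℚ) = _
          rw [hWt.2.2 a ha]
      have hU : WtAtA MM.cl (some (ConjClasses.mk g)) (0 : ℚ)
          (fun a b => ((FMM F n a b : ZM M) : ℚ) - ((R a b : ZM M) : ℚ)) := by
        refine ⟨fun a b c => ?_, fun a b h => ?_, fun a ha => ?_⟩
        · show ((FMM F n a (b * c) : ZM M) : ℚ) - ((R a (b * c) : ZM M) : ℚ) = _
          rw [hWt.1 a b c, hRwt.1 a b c]
          push_cast
          ring
        · by_cases h1 : FMM F n a b = 0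
          · refine hRwt.2.1 a b fun h2 => h ?_
            show ((FMM F n a b : ZM M) : ℚ) - ((R a b : ZM M) : ℚ) = 0
            rw [h1, h2, sub_self]
          · exact hWt.2.1 a b h1
        · show ((FMM F n 1 a : ZM M) : ℚ) - ((R 1 a : ZM M) : ℚ) = 0
          rw [hWt.2.2 a ha, hRwt.2.2 a ha, sub_self]
      have h1 := hCMP (MM G n) (Option (ConjClasses G)) MM.cl MM.cl_comm
        (some (ConjClasses.mk g)) _ _ _ hvQ hWQ hU w
      rw [bil_fun_sub] at h1
      have h2 : bil (fun a b => ((FMM F n a b : ZM M) : ℚ))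
          (w⁻¹ : (MonoidAlgebra ℤ (MM G n))ˣ).val w.val = (d : ℚ) :=
        (map_bil (ZM M).subtype.toAddMonoidHom (FMM F n) _ _).symm
      have h3 : bil (fun a b => ((R a b : ZM M) : ℚ))
          (w⁻¹ : (MonoidAlgebra ℤ (MM G n))ˣ).val w.val =
          ((bil R (w⁻¹ : (MonoidAlgebra ℤ (MM G n))ˣ).val w.val : ZM M) : ℚ) :=
        (map_bil (ZM M).subtype.toAddMonoidHom R _ _).symm
      rw [h2, h3] at h1
      exact (sub_eq_zero.1 h1).symm
    have hRd : bil R (w⁻¹ : (MonoidAlgebra ℤ (MM G n))ˣ).val w.val = d := Subtype.ext hcmp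
    have hjd : (p : ℤ_[p]) ∣ j d := by
      have h1 : bil (fun a b => j (R a b)) (w⁻¹ : (MonoidAlgebra ℤ (MM G n))ˣ).val w.val = j d := by
        rw [← hRd]
        exact (map_bil j.toAddMonoidHom R _ _).symm
      rw [← h1, ← hRj]
      exact hdvd
    -- the numerator
    have hnum : ‖(((d : ℚ).num : ℤ) : ℚ_[p])‖ < 1 := by
      obtain ⟨t, ht⟩ := hjd
      have h1 : ((d : ℚ) : ℚ_[p]) * (((d : ℚ).den : ℤ) : ℚ_[p]) = (((d : ℚ).num : ℤ) : ℚ_[p]) := by
        have := Rat.mul_den_eq_num (d : ℚ)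
        exact_mod_cast congrArg (fun q : ℚ => (q : ℚ_[p])) this
      rw [← h1, norm_mul, ← hjval d, ht]
      have h2 : ‖(((p : ℤ_[p]) * t : ℤ_[p]) : ℚ_[p])‖ < 1 := by
        rw [PadicInt.coe_mul, norm_mul, PadicInt.coe_natCast]
        have h3 : ‖(p : ℚ_[p])‖ < 1 := Padic.norm_p_lt_one
        have h4 : ‖(t : ℚ_[p])‖ ≤ 1 := t.2
        calc ‖(p : ℚ_[p])‖ * ‖(t : ℚ_[p])‖ ≤ ‖(p : ℚ_[p])‖ * 1 :=
              mul_le_mul_of_nonneg_left h4 (norm_nonneg _)
          _ < 1 := by rw [mul_one]; exact h3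
      calc _ ≤ ‖(((p : ℤ_[p]) * t : ℤ_[p]) : ℚ_[p])‖ * 1 :=
            mul_le_mul_of_nonneg_left (Padic.norm_int_le_one _) (norm_nonneg _)
        _ < 1 := by rw [mul_one]; exact h2
    have hpd : (p : ℤ) ∣ (d : ℚ).num := Padic.norm_intCast_lt_one_iff.1 hnum
    have h0 : (d : ℚ).num = 0 := by
      refine Int.eq_zero_of_abs_lt_dvd hpd ?_
      have : ((d : ℚ).num.natAbs : ℤ) = |(d : ℚ).num| := Int.natCast_natAbs _
      rw [← this]
      exact_mod_cast (by omega : (d : ℚ).num.natAbs < p)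
    exact hd (Subtype.ext (Rat.num_eq_zero.1 h0))

end Pool.Agent.SUR
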