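import Pool.Agent.SUR.StP

/-!
# The Dennis trace at the classes of finite order
-/

set_option autoImplicit false

universe u

namespace Pool.Agent.SUR

open Pool.Agent.WhK Finset

namespace PFIN

theorem right_one {G A : Type*} [Group G] [AddCommGroup A] {F : G → G → A} (h : IsWtA F) (a : G) :
    F a 1 = 0 := by
  have h1 := h a 1 1
  simp only [mul_one, one_mul] at h1
  have h2 : F a 1 + F a 1 = F a 1 + 0 := by rw [← h1, add_zero]
  exact add_left_cancel h2

theorem additive {G A : Type*} [Group G] [AddCommGroup A] {F : G → G → A} (h : IsWtA F) (g : G)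
    (n : ℕ) : F (g ^ (1 - (n : ℤ))) (g ^ (n : ℤ)) = n • F 1 g := by
  induction n with
  | zero =>
    rw [Nat.cast_zero, zpow_zero, zero_smul]
    exact right_one h _
  | succ n ih =>
    have h1 := h (g ^ (1 - ((n : ℤ) + 1))) (g ^ (n : ℤ)) (g ^ (1 : ℤ))
    rw [← zpow_add, ← zpow_add, ← zpow_add] at h1
    have e1 : (1 : ℤ) - ((n : ℤ) + 1) + (n : ℤ) = 0 := by ring
    have e2 : (1 : ℤ) + (1 - ((n : ℤ) + 1)) = 1 - (n : ℤ) := by ring
    rw [e1, e2, zpow_zero, zpow_one, ih] at h1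
    rw [Nat.cast_add, Nat.cast_one, h1, succ_nsmul, add_comm]

theorem val_zero {G : Type*} [Group G] {p : ℕ} [Fact p.Prime] {F : G → G → ℤ_[p]} (h : IsWtA F)
    {g : G} (hg : IsOfFinOrder g) : F 1 g = 0 := by
  have h1 := additive h g (orderOf g)
  rw [zpow_natCast, pow_orderOf_eq_one, right_one h, nsmul_eq_mul] at h1
  have h2 : ((orderOf g : ℕ) : ℤ_[p]) ≠ 0 := Nat.cast_ne_zero.2 (orderOf_pos_iff.2 hg).ne'
  exact (mul_eq_zero.1 h1.symm).resolve_left h2

/-- a cocycle which sees only one class -/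
theorem atC_self {G A : Type*} [Group G] [AddCommGroup A] {F : G → G → A} {n : ℕ} {g : G}
    (hs : ∀ a b, FMM F n a b ≠ 0 → ∃ α β : G, F α β ≠ 0 ∧
      MM.cl (a * b) = some (ConjClasses.mk (α * β)))
    (hF : ∀ a b, F a b ≠ 0 → IsConj (a * b) g) :
    atC MM.cl (some (ConjClasses.mk g)) (FMM F n) = FMM F n := by
  funext a b
  unfold atC
  split_ifs with h
  · rfl
  · by_contra h1
    obtain ⟨α, β, h2, h3⟩ := hs a b fun h4 => h1 h4.symm
    refine h ?_
    rw [h3, ConjClasses.mk_eq_mk_iff_isConj.2 (hF α β h2)]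

end PFIN

open PFIN in
/-- PFIN. -/
theorem t_PFIN (hDMM : s_DMM.{u}) (hTOR : s_PTOR.{u}) (hSUM : s_PSUM.{u}) : s_PFIN.{u} := by
  intro G _ g hg p _ hp F hF hcl hden n X
  rcases Nat.eq_zero_or_pos n with hn0 | hn
  · subst hn0
    unfold pairF
    exact Finset.sum_of_isEmpty _
  -- the lift to the `p`-adic integers
  have hnorm : ∀ a b, ‖((F a b : ℚ) : ℚ_[p])‖ ≤ 1 := fun a b => Padic.norm_rat_le_one (hden a b)
  let F' : G → G → ℤ_[p] := fun a b => ⟨((F a b : ℚ) : ℚ_[p]), hnorm a b⟩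
  have hc : ∀ a b, ((F' a b : ℤ_[p]) : ℚ_[p]) = ((F a b : ℚ) : ℚ_[p]) := fun a b => rfl
  have hF' : IsWtA F' := by
    intro a b c
    apply Subtype.ext
    rw [PadicInt.coe_add]
    rw [hc, hc, hc, hF a b c, Rat.cast_add]
  have hcl' : ∀ a b, F' a b ≠ 0 → IsConj (a * b) g := by
    intro a b hab
    refine hcl a b fun h => hab (Subtype.ext ?_)
    rw [hc, h, Rat.cast_zero, PadicInt.coe_zero]
  obtain ⟨-, hbil, hsup, hat⟩ := hDMM G ℤ_[p] F' hF' n
  have hW := hat g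
  rw [val_zero hF' hg, atC_self hsup hcl'] at hW
  have h0 := hTOR G n p hn (Units.map (Fhom G n : _ →* MonoidAlgebra ℤ (MM G n)) X) g hg hp _ hW
  have h1 : pairF F' X = 0 := (hbil X).symm.trans h0
  obtain ⟨-, -, hmap⟩ := hSUM G ℤ_[p]
  obtain ⟨-, -, hmap2⟩ := hSUM G ℚ
  have h2 := hmap ℚ_[p] (PadicInt.Coe.ringHom (p := p)).toAddMonoidHom F' n X
  have h3 := hmap2 ℚ_[p] (Rat.castHom ℚ_[p]).toAddMonoidHom F n X
  have h4 : (fun a b => (PadicInt.Coe.ringHom (p := p)).toAddMonoidHom (F' a b)) =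
      fun a b => (Rat.castHom ℚ_[p]).toAddMonoidHom (F a b) := rfl
  rw [h4, h3, h1, map_zero] at h2
  exact (Rat.castHom ℚ_[p]).injective (h2.trans (map_zero _).symm)

end Pool.Agent.SUR
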