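import Pool.Agent.SUR.StP
import Pool.Agent.SUR.StE

/-!
# Project DTP, module PLSE: groups with enough linear quotients have few roots
-/

set_option autoImplicit false

universe u

namespace Pool.Agent.SUR

open Pool.Agent.WhK Finset

namespace PLSE

/-- few roots can be tested in a quotient in which `x` has infinite order -/
theorem few_of_hom {G H : Type u} [Group G] [Group H] (φ : G →* H) (hH : FewRoots H) (x y : G)
    (hx : ¬IsOfFinOrder (φ x)) : {p : ℕ | p.Prime ∧ IsConj (x ^ p) y}.Finite := by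
  refine (hH (φ x) (φ y) hx).subset ?_
  rintro p ⟨hp, hc⟩
  refine ⟨hp, ?_⟩
  rw [← map_pow]
  exact φ.map_isConj hc

end PLSE

theorem t_PLSE (hPNOR : s_PNOR.{u}) (hLWE : s_LWE.{u})
    (hlin : ∀ (F : Type u) [Field F] (n : ℕ) (G : Subgroup (GL (Fin n) F)), LocCentEul G) :
    s_PLSE.{u} := by
  intro G _ hG hsep x y hx
  obtain ⟨F, hF, n, ρ, hρ⟩ := hsep x hx
  have hfg : (⊤ : Subgroup ρ.range).FG := by
    have h1 : Group.FG ρ.range := Group.fg_range ρ
    exact Group.fg_def.1 h1
  have hce : CentEul (⊤ : Subgroup ρ.range) := hlin F n ρ.range ⊤ hfg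
  obtain ⟨M, r, hM, hw⟩ := hLWE _ hce
  have hfew : FewRoots (⊤ : Subgroup ρ.range) := hPNOR _ M r hM hw
  let φ : G →* (⊤ : Subgroup ρ.range) :=
    (Subgroup.topEquiv (G := ρ.range)).symm.toMonoidHom.comp ρ.rangeRestrict
  refine PLSE.few_of_hom φ hfew x y ?_
  intro hfin
  apply hρ
  have h2 := (ρ.range.subtype.comp (⊤ : Subgroup ρ.range).subtype).isOfFinOrder hfin
  exact h2

end Pool.Agent.SUR
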