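import Pool.Agent.SUR.StP

/-!
# PNOR: weights with nonzero constants bound the exponents of roots
-/

set_option autoImplicit false

universe u

namespace Pool.Agent.SUR

open Pool.Agent.WhK Finset

namespace PNOR

lemma dvd_num {p : ℕ} [Fact p.Prime] (q : ℚ) (h : ‖(q : ℚ_[p])‖ < 1) : (p : ℤ) ∣ q.num := by
  have h1 : ((q.num : ℚ_[p])) = (q : ℚ_[p]) * (q.den : ℚ_[p]) := by
    have h2 : (q.num : ℚ) = q * q.den := (Rat.mul_den_eq_num q).symm
    exact_mod_cast congrArg (fun t : ℚ => (t : ℚ_[p])) h2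
  have h3 : ‖(q.num : ℚ_[p])‖ < 1 := by
    rw [h1, norm_mul]
    have h4 : ‖(q.den : ℚ_[p])‖ ≤ 1 := by
      have := Padic.norm_int_le_one (p := p) (q.den : ℤ)
      exact_mod_cast this
    calc ‖(q : ℚ_[p])‖ * ‖(q.den : ℚ_[p])‖ ≤ ‖(q : ℚ_[p])‖ * 1 :=
          mul_le_mul_of_nonneg_left h4 (norm_nonneg _)
      _ < 1 := by rw [mul_one]; exact h
  refine (PadicInt.norm_int_lt_one_iff_dvd (p := p) q.num).1 ?_
  have h5 : ‖((q.num : ℤ_[p]))‖ = ‖(q.num : ℚ_[p])‖ := by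
    rw [PadicInt.norm_def]; simp
  rw [h5]; exact h3

end PNOR

open PNOR

theorem t_PNOR (hLRES : s_LRES.{u}) (hANEQ : s_ANEQ.{u}) (hLPSH : s_LPSH.{u, 0}) :
    s_PNOR.{u} := by
  intro G _ M r hM hC x y hx
  by_cases hy : IsOfFinOrder y
  · refine Set.Finite.subset Set.finite_empty ?_
    rintro p ⟨hp, hc⟩
    exfalso
    obtain ⟨c, hc⟩ := isConj_iff.1 hc
    have h1 : IsOfFinOrder (x ^ p) := by
      have h2 : x ^ p = c⁻¹ * y * (c⁻¹)⁻¹ := by rw [← hc]; group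
      rw [h2]
      have := (MulAut.conj c⁻¹).toMonoidHom.isOfFinOrder hy
      simpa using this
    exact hx ((isOfFinOrder_pow.1 h1).resolve_right hp.ne_zero)
  obtain ⟨v, W, hv, hW, hD⟩ := hC 1 one_pos y hy
  have hv0 : ((v : ℚ)).num ≠ 0 := by
    intro h
    exact hv (Subtype.ext (by simpa using h))
  refine Set.Finite.subset (s := {p : ℕ | p ∣ M} ∪ {p : ℕ | (p : ℤ) ∣ ((v : ℚ)).num}) ?_ ?_
  · refine Set.Finite.union ?_ ?_
    · exact (Nat.divisors M).finite_toSet.subset fun p hp =>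
        Finset.mem_coe.2 (Nat.mem_divisors.2 ⟨hp, hM.ne'⟩)
    · refine (Nat.divisors ((v : ℚ)).num.natAbs).finite_toSet.subset fun p hp => ?_
      exact Finset.mem_coe.2 (Nat.mem_divisors.2
        ⟨Int.natCast_dvd.1 hp, Int.natAbs_ne_zero.2 hv0⟩)
  · rintro p ⟨hp, hc⟩
    by_cases hpM : p ∣ M
    · exact Or.inl hpM
    right
    have : Fact p.Prime := ⟨hp⟩
    obtain ⟨j, hj, hjc, hjw⟩ := hANEQ M p hM hpM
    have h1 := hjw _ _ _ _ _ _ hW
    have h2 := (hLPSH (FreeMonoid (MM G 1)) (MM G 1) (Option (ConjClasses G)) (ZM M) ℤ_[p]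
      (th (MM G 1)) j.toAddMonoidHom W).1 r hD
    obtain ⟨v', hv', -⟩ := (hLRES G 1 p r (ConjClasses.mk y) (j v) (fun a b => j (W a b)) one_pos
      h1 h2).2.1 (ConjClasses.mk x) (by
        show ConjClasses.mk (x ^ p) = ConjClasses.mk y
        exact ConjClasses.mk_eq_mk_iff_isConj.2 hc)
    refine dvd_num _ ?_
    rw [← hjc, hv']
    push_cast
    rw [norm_mul, Padic.norm_p]
    have h3 : ‖(v' : ℚ_[p])‖ ≤ 1 := v'.2
    have h4 : (1 : ℝ) < p := by exact_mod_cast hp.one_lt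
    calc (p : ℝ)⁻¹ * ‖(v' : ℚ_[p])‖ ≤ (p : ℝ)⁻¹ * 1 :=
          mul_le_mul_of_nonneg_left h3 (by positivity)
      _ < 1 := by rw [mul_one]; exact inv_lt_one_of_one_lt₀ h4

end Pool.Agent.SUR
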