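import Pool.Agent.SUR.StP
import Pool.Agent.SUR.Bil

/-!
# Module PREF: the main identity for weights with values in the `p`-adic integers, all primes `p`
(copy of `AREF.lean`)
-/

set_option autoImplicit false

universe u

namespace Pool.Agent.SUR

open Pool.Agent.WhK

theorem t_PREF (hAKAP : s_AKAP.{u}) (hAWRW : s_AWRW.{u}) (hATOT : s_ATOT.{u})
    (hAEVA : s_AEVA.{u}) (hINV : s_INV.{u}) (hGAM : s_GAM.{u}) : s_PREF.{u} := by
  intro 𝔐 K _ cl hcl k p m _ v W hW w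
  obtain ⟨hW1, hW2, hW3⟩ := hW
  have hpp : p.Prime := Fact.out
  have hN1 : 1 < p ^ (m + 1) := Nat.one_lt_pow (Nat.succ_ne_zero m) hpp.one_lt
  have hv1 : ∀ a, cl a ≠ k → W 1 a = 0 := by
    intro a ha
    by_contra h
    exact ha (by rw [← one_mul a]; exact hW2 1 a h)
  set q : ℤ_[p] →+* ZMod (p ^ (m + 1)) := PadicInt.toZModPow (m + 1) with hq
  obtain ⟨hwt, hwr1⟩ := hAWRW 𝔐 ℤ_[p] (p ^ (m + 1)) W hW1
  set w' : Wr 𝔐 (p ^ (m + 1)) → Wr 𝔐 (p ^ (m + 1)) → ZMod (p ^ (m + 1)) := fun x y =>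
    q (wrA W x y) with hw'
  have hwt' : IsWtA w' := by
    intro a b d
    show q (wrA W a (b * d)) = q (wrA W (a * b) d) + q (wrA W (d * a) b)
    rw [hwt a b d, map_add]
  have hdeg : ∀ a b, w' a b ≠ 0 → degW 𝔐 (p ^ (m + 1)) (a * b) = Multiplicative.ofAdd 1 := by
    intro a b hab
    by_contra h
    have h1 : a.i + b.i ≠ 1 := fun h2 => h (congrArg Multiplicative.ofAdd h2)
    have h2 : wrA W a b = 0 := if_neg h1
    exact hab (by show q (wrA W a b) = 0; rw [h2, map_zero])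
  have hw2 : ∀ a : Wr 𝔐 (p ^ (m + 1)), a.i = 1 ∧ cl (prodSeq a.s) = k → w' 1 a = q v := by
    intro a ha
    show q (wrA W 1 a) = q v
    rw [hwr1, if_pos ha.1, hW3 _ ha.2]
  have hw3 : ∀ a : Wr 𝔐 (p ^ (m + 1)), ¬(a.i = 1 ∧ cl (prodSeq a.s) = k) → w' 1 a = 0 := by
    intro a ha
    show q (wrA W 1 a) = 0
    rw [hwr1]
    by_cases hi : a.i = 1
    · rw [if_pos hi, hv1 _ fun h => ha ⟨hi, h⟩, map_zero]
    · rw [if_neg hi, map_zero]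
  -- the triple
  have htrip := isTrip_of cl hcl p m w.val (w⁻¹ : (MonoidAlgebra ℤ 𝔐)ˣ).val w.mul_inv w.inv_mul
      (zOf_spec p m w.val)
  set U := extPow (ZMod (p ^ (m + 1))) w.val with hU
  set Ui := extPow (ZMod (p ^ (m + 1))) (w⁻¹ : (MonoidAlgebra ℤ 𝔐)ˣ).val with hUi
  set Wo := Wof p m w.val with hWo
  set Wi := Wof p m (w⁻¹ : (MonoidAlgebra ℤ 𝔐)ˣ).val with hWi
  set z := zOf p m w.val with hz
  obtain ⟨hXY, hYX⟩ := hINV 𝔐 K cl hcl (p ^ (m + 1)) U Ui Wo Wi z htrip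
  have hK := hAKAP (Wr 𝔐 (p ^ (m + 1))) (ZMod (p ^ (m + 1))) w' hwt'
    (degW 𝔐 (p ^ (m + 1))) hdeg (XW Ui z Wi) (YW U z) hXY hYX
  have hG := hGAM 𝔐 K cl hcl (p ^ (m + 1)) k U Ui Wi z
  have hT := hATOT 𝔐 K ℤ_[p] cl hcl (p ^ (m + 1)) W U Ui Wo Wi z hN1 htrip
  obtain ⟨hE1, hE2⟩ := hAEVA 𝔐 ℤ_[p] W p m (w⁻¹ : (MonoidAlgebra ℤ 𝔐)ˣ).val w.val w.inv_mul
  have h6 : bil (fun a b : Wr 𝔐 (p ^ (m + 1)) => w' 1 (a * b) * (degW 𝔐 (p ^ (m + 1)) b).toAdd)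
      (XW Ui z Wi) (YW U z) =
      q v * -((cycData (p ^ (m + 1)) cl hcl).gam Ui Wi z k) := by
    rw [← hG]
    refine Eq.trans ?_ (map_bil (AddMonoidHom.mulLeft (q v)) _ _ _).symm
    refine bil_congr _ _ _ _ fun a _ b _ => ?_
    rw [AddMonoidHom.coe_mulLeft]
    show w' 1 (a * b) * b.i = _
    by_cases hab : (a * b).i = 1 ∧ cl (prodSeq (a * b).s) = k
    · rw [if_pos hab, hw2 _ hab, one_mul]
    · rw [if_neg hab, hw3 _ hab, zero_mul, mul_zero]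
  have h7 : bil w' (XW Ui z Wi) (YW U z) = q (bil (wrA W) (XW Ui z Wi) (YW U z)) :=
    (map_bil q.toAddMonoidHom _ _ _).symm
  have h8 : bil (wrA W) (XW Ui z Wi) (YW U z) =
      -(bil W (w⁻¹ : (MonoidAlgebra ℤ 𝔐)ˣ).val w.val -
        bil (pwA W p) (w⁻¹ : (MonoidAlgebra ℤ 𝔐)ˣ).val w.val) := by
    rw [hE1, hE2] at hT
    have hN0 : ((p ^ (m + 1) : ℕ) : ℤ_[p]) ≠ 0 := Nat.cast_ne_zero.2 (by omega)
    refine mul_left_cancel₀ hN0 ?_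
    rw [nsmul_eq_mul, nsmul_eq_mul, nsmul_eq_mul] at hT
    rw [hT]
    ring
  have h9 : q v * -((cycData (p ^ (m + 1)) cl hcl).gam Ui Wi z k) =
      -(q (bil W (w⁻¹ : (MonoidAlgebra ℤ 𝔐)ˣ).val w.val -
        bil (pwA W p) (w⁻¹ : (MonoidAlgebra ℤ 𝔐)ˣ).val w.val)) := by
    rw [← h6, hK, h7, h8, map_neg]
  rw [mul_neg] at h9
  have h10 := neg_injective h9
  exact h10

end Pool.Agent.SUR
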