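import Pool.Agent.SUR.StP
import Pool.Agent.SUR.Bil

/-!
Module DTP_SUM (MP_e40716_gt): the parts of a cocycle at the conjugacy classes.
-/

set_option autoImplicit false

universe u

namespace Pool.Agent.SUR

open Pool.Agent.WhK Finset

namespace PSUM

theorem atG_pos {G A : Type*} [Group G] [AddCommGroup A] {K : ConjClasses G} {F : G → G → A}
    {a b : G} (h : ConjClasses.mk (a * b) = K) : atG K F a b = F a b := by
  unfold atG
  exact if_pos h

theorem atG_neg {G A : Type*} [Group G] [AddCommGroup A] {K : ConjClasses G} {F : G → G → A}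
    {a b : G} (h : ConjClasses.mk (a * b) ≠ K) : atG K F a b = 0 := by
  unfold atG
  exact if_neg h

/-- the decomposition of `bil` according to the classes in a large finite set -/
theorem bil_atG {G A : Type*} [Group G] [AddCommGroup A] (F : G → G → A)
    (x y : MonoidAlgebra ℤ G) (S : Finset (ConjClasses G))
    (hS : ∀ a ∈ x.coeff.support, ∀ b ∈ y.coeff.support, ConjClasses.mk (a * b) ∈ S) :
    bil F x y = ∑ K ∈ S, bil (atG K F) x y := by
  rw [← bil_fun_sum]
  refine bil_congr _ _ x y fun a ha b hb => ?_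
  symm
  rw [Finset.sum_eq_single_of_mem _ (hS a ha b hb) fun k _ hk => atG_neg (Ne.symm hk)]
  exact atG_pos rfl

theorem atG_wt {G A : Type*} [Group G] [AddCommGroup A] (F : G → G → A) (K : ConjClasses G)
    (hF : IsWtA F) : IsWtA (atG K F) := by
  intro a b c
  have h1 : ConjClasses.mk (a * (b * c)) = ConjClasses.mk (a * b * c) := by rw [mul_assoc]
  have h2 : ConjClasses.mk (c * a * b) = ConjClasses.mk (a * b * c) := by
    rw [ConjClasses.mk_eq_mk_iff_isConj, isConj_iff]
    exact ⟨c⁻¹, by group⟩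
  by_cases h : ConjClasses.mk (a * b * c) = K
  · rw [atG_pos (h1.trans h), atG_pos h, atG_pos (h2.trans h)]
    exact hF a b c
  · rw [atG_neg (fun h' => h (h1.symm.trans h')), atG_neg h,
      atG_neg (fun h' => h (h2.symm.trans h')), add_zero]

end PSUM

open PSUM in
/-- **DTP_SUM.** -/
theorem t_PSUM : s_PSUM.{u} := by
  classical
  intro G A _ _
  refine ⟨fun n X => ?_, fun F K => atG_wt F K, fun B _ ψ F n X => ?_⟩
  · let S : Finset (ConjClasses G) := (Finset.univ : Finset (Fin n × Fin n)).biUnion fun ij =>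
      (((X⁻¹ : (Matrix (Fin n) (Fin n) (MonoidAlgebra ℤ G))ˣ).val ij.1 ij.2).coeff.support ×ˢ
        (X.val ij.2 ij.1).coeff.support).image fun ab => ConjClasses.mk (ab.1 * ab.2)
    refine ⟨S, fun F => ?_⟩
    have h1 : ∀ i j, bil F ((X⁻¹ : (Matrix (Fin n) (Fin n) (MonoidAlgebra ℤ G))ˣ).val i j)
        (X.val j i) = ∑ K ∈ S, bil (atG K F)
        ((X⁻¹ : (Matrix (Fin n) (Fin n) (MonoidAlgebra ℤ G))ˣ).val i j) (X.val j i) := by
      intro i j
      refine bil_atG F _ _ S fun a ha b hb => ?_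
      refine Finset.mem_biUnion.2 ⟨(i, j), Finset.mem_univ _, ?_⟩
      exact Finset.mem_image.2 ⟨(a, b), Finset.mem_product.2 ⟨ha, hb⟩, rfl⟩
    unfold pairF
    simp_rw [h1]
    calc ∑ i, ∑ j, ∑ K ∈ S, bil (atG K F)
          ((X⁻¹ : (Matrix (Fin n) (Fin n) (MonoidAlgebra ℤ G))ˣ).val i j) (X.val j i)
        = ∑ i, ∑ K ∈ S, ∑ j, bil (atG K F)
          ((X⁻¹ : (Matrix (Fin n) (Fin n) (MonoidAlgebra ℤ G))ˣ).val i j) (X.val j i) :=
          Finset.sum_congr rfl fun i _ => Finset.sum_comm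
      _ = _ := Finset.sum_comm
  · unfold pairF
    rw [map_sum]
    refine Finset.sum_congr rfl fun i _ => ?_
    rw [map_sum]
    refine Finset.sum_congr rfl fun j _ => ?_
    rw [map_bil]

end Pool.Agent.SUR
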