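import Pool.Agent.SUR.StP
import Pool.Agent.SUR.VANC
import Pool.Agent.SUR.ARIC

/-!
# Module PTOR: weights with constant zero at the classes of elements whose order is divisible by `p`
-/

set_option autoImplicit false

universe u

namespace Pool.Agent.SUR

open Pool.Agent.WhK

namespace PTOR

theorem orderOf_eq_of_isConj {G : Type*} [Group G] {a b : G} (h : IsConj a b) :
    orderOf a = orderOf b := by
  obtain ⟨c, hc⟩ := isConj_iff.1 h
  rw [← hc]
  exact (MulEquiv.orderOf_eq (MulAut.conj c) a).symm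

/-- the order of a root -/
theorem order_root {G : Type*} [Group G] {c g : G} {p : ℕ} (hp : p.Prime) (h : IsConj (c ^ p) g)
    (hg : IsOfFinOrder g) (hpg : p ∣ orderOf g) :
    IsOfFinOrder c ∧ orderOf c = p * orderOf g := by
  have h1 : IsOfFinOrder (c ^ p) := isOfFinOrder_of_isConj h.symm hg
  have h2 : IsOfFinOrder c := by
    rw [isOfFinOrder_iff_pow_eq_one] at h1 ⊢
    obtain ⟨k, hk, h3⟩ := h1
    exact ⟨p * k, Nat.mul_pos hp.pos hk, by rw [pow_mul, h3]⟩
  refine ⟨h2, ?_⟩
  have h3 : orderOf (c ^ p) = orderOf c / Nat.gcd (orderOf c) p := orderOf_pow' c hp.ne_zero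
  rw [orderOf_eq_of_isConj h] at h3
  rcases (Nat.dvd_prime hp).1 (Nat.gcd_dvd_right (orderOf c) p) with h4 | h4
  · rw [h4, Nat.div_one] at h3
    rw [h3] at hpg
    have h5 : p ∣ Nat.gcd (orderOf c) p := Nat.dvd_gcd hpg dvd_rfl
    rw [h4] at h5
    exact absurd (Nat.dvd_one.1 h5) hp.one_lt.ne'
  · rw [h4] at h3
    have h5 : p ∣ orderOf c := by
      rw [← h4]
      exact Nat.gcd_dvd_left _ _
    rw [h3, Nat.mul_div_cancel' h5]

end PTOR

open PTOR in
/-- DTP_TOR -/
theorem t_PTOR (hREF : s_PREF.{u}) (hRES : s_ARES.{u}) : s_PTOR.{u} := by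
  classical
  intro G _ n p hpF hn w
  have hp : p.Prime := hpF.out
  have hfin : {C : ConjClasses G | some C ∈ SC MM.cl w}.Finite :=
    (SC_finite MM.cl w).preimage (Option.some_injective _).injOn
  obtain ⟨B, hB⟩ : ∃ B : ℕ, ∀ c : G, IsOfFinOrder c → some (ConjClasses.mk c) ∈ SC MM.cl w →
      ¬p ^ B ∣ orderOf c := by
    refine ⟨∑ C ∈ hfin.toFinset, orderOf (Quotient.out C), fun c hc hC hdvd => ?_⟩
    have h1 : orderOf (Quotient.out (ConjClasses.mk c)) = orderOf c := by
      apply orderOf_eq_of_isConj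
      rw [← ConjClasses.mk_eq_mk_iff_isConj]
      exact Quotient.out_eq _
    have h2 : orderOf c ≤ ∑ C ∈ hfin.toFinset, orderOf (Quotient.out C) := by
      rw [← h1]
      exact Finset.single_le_sum (f := fun C : ConjClasses G => orderOf (Quotient.out C))
        (fun _ _ => Nat.zero_le _) (hfin.mem_toFinset.2 hC)
    have h3 := Nat.le_of_dvd hc.orderOf_pos hdvd
    have h4 := Nat.lt_pow_self hp.one_lt (n := ∑ C ∈ hfin.toFinset, orderOf (Quotient.out C))
    omega
  have main : ∀ k : ℕ, ∀ g : G, IsOfFinOrder g → p ∣ orderOf g → p ^ (B - k) ∣ orderOf g →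
      ∀ W : MM G n → MM G n → ℤ_[p], WtAtA MM.cl (some (ConjClasses.mk g)) 0 W →
      bil W (w⁻¹ : (MonoidAlgebra ℤ (MM G n))ˣ).val w.val = 0 := by
    intro k
    induction k with
    | zero =>
      intro g hg _ hd W hW
      refine VANCx.bil_eq_zero_of _ _ _ fun a ha b hb => ?_
      by_contra hab
      exact hB g hg ⟨a, ha, b, hb, hW.2.1 a b hab⟩ hd
    | succ k ih =>
      intro g hg hpg hd W hW
      have h1 : bil W (w⁻¹ : (MonoidAlgebra ℤ (MM G n))ˣ).val w.val =
          bil (pwA W p) (w⁻¹ : (MonoidAlgebra ℤ (MM G n))ˣ).val w.val := by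
        rw [← sub_eq_zero]
        apply PadicInt.ext_of_toZModPow.1
        intro m
        rcases m with _ | m
        · haveI : Subsingleton (ZMod (p ^ 0)) := by
            rw [pow_zero]
            infer_instance
          exact Subsingleton.elim _ _
        · rw [← hREF (MM G n) (Option (ConjClasses G)) MM.cl MM.cl_comm (some (ConjClasses.mk g)) p
            m 0 W hW w, map_zero, zero_mul]
      obtain ⟨-, h2, h3, -⟩ := hRES G n p (ConjClasses.mk g) 0 W hn hW
      rw [h1, h3 (hfin.toFinset.filter fun C => powC p C = ConjClasses.mk g) _ _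
        (fun C hC => (Finset.mem_filter.1 hC).2)
        (fun a ha b hb C hC hCp => Finset.mem_filter.2
          ⟨hfin.mem_toFinset.2 ⟨a, ha, b, hb, hC⟩, hCp⟩)]
      refine Finset.sum_eq_zero fun C hC => ?_
      obtain ⟨v', hv', hw'⟩ := h2 C (Finset.mem_filter.1 hC).2
      have hv0 : v' = 0 := by
        rcases mul_eq_zero.1 hv'.symm with h | h
        · exact absurd h (Nat.cast_ne_zero.2 hp.ne_zero)
        · exact h
      subst hv0
      obtain ⟨c, rfl⟩ := ConjClasses.exists_rep C
      have hcg : IsConj (c ^ p) g := by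
        rw [← ConjClasses.mk_eq_mk_iff_isConj]
        exact (Finset.mem_filter.1 hC).2
      obtain ⟨h4, h5⟩ := order_root hp hcg hg hpg
      refine ih c h4 (h5 ▸ dvd_mul_right _ _) ?_ _ hw'
      rw [h5]
      refine (pow_dvd_pow p (show B - k ≤ (B - (k + 1)) + 1 by omega)).trans ?_
      rw [pow_succ']
      exact mul_dvd_mul_left p hd
  intro g hg hpg W hW
  exact main B g hg hpg (by rw [Nat.sub_self, pow_zero]; exact one_dvd _) W hW

end Pool.Agent.SUR
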