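import Pool.Agent.SUR.StQ
import Pool.Agent.SUR.LLIN

/-!
# Project DTQ, module QEUL: linear quotients
-/

set_option autoImplicit false

universe u

namespace Pool.Agent.SUR

open Pool.Agent.WhK Finset

open LLINx in
theorem t_QEUL : s_QEUL.{u} := by
  intro G _ hG hsep g hg
  obtain ⟨F, hF, n, ρ, hρ⟩ := hsep g hg
  obtain ⟨T, hT⟩ := Group.fg_def.1 hG
  let S : Set F := ⋃ a ∈ T, ents (ρ a)
  have hS : S.Finite := T.finite_toSet.biUnion fun a _ => ents_finite (ρ a)
  have hle : (⊤ : Subgroup G) ≤ (HR n (Subring.closure S)).comap ρ := by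
    rw [← hT, Subgroup.closure_le]
    intro a ha i j
    have hsub : ents (ρ a) ⊆ S := fun x hx => Set.mem_biUnion ha hx
    exact ⟨Subring.subset_closure (hsub (Or.inl ⟨(i, j), rfl⟩)),
      Subring.subset_closure (hsub (Or.inr ⟨(i, j), rfl⟩))⟩
  have hmem : ∀ x : G, ρ x ∈ HR n (Subring.closure S) := fun x => hle (Subgroup.mem_top x)
  have hn : 0 < n := by
    rcases Nat.eq_zero_or_pos n with rfl | h
    · exfalso
      apply hρ
      have h1 : ρ g = 1 := Units.ext (Subsingleton.elim _ _)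
      rw [h1]
      exact IsOfFinOrder.one
    · exact h
  refine ⟨F, hF, S, n, hS, hn, Or.inl
    ⟨(toM (Subring.closure S) ρ hmem).comp (Subgroup.centralizer {g}).subtype, fun h => hρ ?_⟩⟩
  obtain ⟨k, hk, hk1⟩ := isOfFinOrder_iff_pow_eq_one.1 h
  refine isOfFinOrder_iff_pow_eq_one.2 ⟨k, hk, ?_⟩
  have h2 : toM (Subring.closure S) ρ hmem (g ^ k) = 1 := by
    rw [map_pow]
    exact hk1
  rw [← map_pow]
  refine Units.ext ?_
  ext i j
  have h3 := congrArg Subtype.val (congrFun (congrFun h2 i) j)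
  have h4 : (ρ (g ^ k) : Matrix (Fin n) (Fin n) F) i j =
      (((1 : Matrix (Fin n) (Fin n) (Subring.closure S)) i j : Subring.closure S) : F) := h3
  rw [h4, Units.val_one, Matrix.one_apply, Matrix.one_apply]
  split_ifs <;> rfl

end Pool.Agent.SUR
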