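import Pool.Agent.SUR.StQ
import Pool.Agent.SUR.DTR

/-!
# The Dennis trace at one class of infinite order: reduction to weights of bounded degree
-/

set_option autoImplicit false

universe u

namespace Pool.Agent.SUR

open Pool.Agent.WhK Finset

open DTRaux in
theorem t_QTR (hMONO : s_LMONO.{u}) (hLIFT : s_LLIFT.{u}) (hMM : s_DMM.{u})
    (hPB : s_DPB.{u}) (hZERO : s_QZERO.{u}) (hANT : s_DANT.{u}) (hPSH : s_LPSH.{u, 0}) :
    s_QTR.{u} := by
  intro G _ hU g hg hwt F hF hsupp n X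
  classical
  obtain ⟨M, r, hM, hc, hcp⟩ := hwt
  have hr : r ≤ 2 * r + 1 := by omega
  have hcp' : ∀ p : ℕ, p.Prime → (∀ h : G, h * g ^ p = g ^ p * h → h * g = g * h) →
      WtG G M (2 * r + 1) (g ^ p) := fun p hp hcen m hm => by
    obtain ⟨v, W, hv, hW, hD⟩ := hcp p hp hcen m hm
    exact ⟨v, W, hv, hW, hMONO _ _ _ (th (MM G m)) r (2 * r + 1) W hr hD⟩
  rcases Nat.eq_zero_or_pos n with hn0 | hn
  · subst hn0
    unfold pairF
    exact Finset.sum_of_isEmpty _
  -- the unit and its lifts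
  let w : (MonoidAlgebra ℤ (MM G n))ˣ := Units.map (Fhom G n) X
  obtain ⟨x, y, hL⟩ := hLIFT (MM G n) w (2 * r + 2) (Nat.succ_pos _)
  obtain ⟨-, hbil, hsup, hat⟩ := hMM G ℚ F hF n
  have hw1 : Fhom G n X.val = w.val := rfl
  have hw2 : Fhom G n (X⁻¹ : (Matrix (Fin n) (Fin n) (MonoidAlgebra ℤ G))ˣ).val =
      (w⁻¹ : (MonoidAlgebra ℤ (MM G n))ˣ).val := rfl
  rw [← hbil X, hw1, hw2]
  refine bil_atC MM.cl (FMM F n) _ _ fun k => ?_
  by_cases hk : k = some (ConjClasses.mk g)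
  · subst hk
    obtain ⟨v, W, hv, hW, hD⟩ := hc n hn
    have hWz : bil W y x = 0 := hZERO G M (2 * r + 1) hM hU g hg hcp' n hn w x y hL
      v W hv hW (hMONO _ _ _ (th (MM G n)) r (2 * r + 1) W hr hD)
    obtain ⟨q1, q2, q3⟩ := hPB (MM G n) (Option (ConjClasses G)) ℚ
      (atC MM.cl (some (ConjClasses.mk g)) (FMM F n))
    have hP := q1 MM.cl (some (ConjClasses.mk g)) (F 1 g) (hat g)
    have hPD := q2 r
    have hPb := q3 y x
    rw [hL.1, hL.2.1] at hPb
    rw [← hPb]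
    set P' : FreeMonoid (MM G n) → FreeMonoid (MM G n) → ℚ := fun a b =>
      atC MM.cl (some (ConjClasses.mk g)) (FMM F n) (th (MM G n) a) (th (MM G n) b) with hP'
    -- the rational weight
    let W' : FreeMonoid (MM G n) → FreeMonoid (MM G n) → ℚ := fun a b =>
      (ZM M).subtype.toAddMonoidHom (W a b)
    obtain ⟨p1, p2⟩ := hPSH (FreeMonoid (MM G n)) (MM G n) (Option (ConjClasses G)) (ZM M) ℚ
      (th (MM G n)) (ZM M).subtype.toAddMonoidHom W
    have hW' := p2 _ _ _ hW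
    have hD' := p1 r hD
    have hWz' : bil W' y x = 0 := by
      show bil (fun a b => (ZM M).subtype.toAddMonoidHom (W a b)) y x = 0
      rw [← map_bil, hWz, map_zero]
    have hv' : (ZM M).subtype.toAddMonoidHom v ≠ 0 := fun h => hv (Subtype.ext h)
    set v' : ℚ := (ZM M).subtype.toAddMonoidHom v with hv'def
    set v₁ : ℚ := F 1 g with hv₁
    obtain ⟨a1, a2⟩ := hPSH (FreeMonoid (MM G n)) (MM G n) (Option (ConjClasses G)) ℚ ℚ
      (th (MM G n)) (AddMonoidHom.mulLeft v') P'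
    obtain ⟨b1, b2⟩ := hPSH (FreeMonoid (MM G n)) (MM G n) (Option (ConjClasses G)) ℚ ℚ
      (th (MM G n)) (AddMonoidHom.mulLeft (-v₁)) W'
    have hUw := wt_add (a2 _ _ _ hP) (b2 _ _ _ hW')
    have hU0 : (AddMonoidHom.mulLeft v') v₁ + (AddMonoidHom.mulLeft (-v₁)) v' = 0 := by
      rw [AddMonoidHom.coe_mulLeft, AddMonoidHom.coe_mulLeft]
      ring
    rw [hU0] at hUw
    have hUd := deg_add (a1 r hPD) (b1 r hD')
    have h2 := hANT (MM G n) (Option (ConjClasses G)) MM.cl MM.cl_comm (some (ConjClasses.mk g)) v' r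
      W' _ hv' hW' hD' hUw hUd w x y hL
    rw [bil_fun_add, ← map_bil, ← map_bil, hWz', map_zero, add_zero, AddMonoidHom.coe_mulLeft] at h2
    exact (mul_eq_zero.1 h2).resolve_left hv'
  · refine bil_eq_zero _ _ _ fun a _ b _ => ?_
    by_contra h
    have h1 : MM.cl (a * b) = k := by
      by_contra h2
      exact h (if_neg h2)
    have h2 : FMM F n a b ≠ 0 := fun h3 => h (by
      unfold atC
      rw [h3, ite_self])
    obtain ⟨α, β, h4, h3⟩ := hsup a b h2
    have h5 : IsConj (α * β) g := hsupp α β h4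
    rw [h1, ConjClasses.mk_eq_mk_iff_isConj.2 h5] at h3
    exact hk h3

end Pool.Agent.SUR
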