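import Pool.Agent.SUR.FinalV
import Pool.Agent.SUR.DLOC
import Pool.Agent.SUR.DTR
import Pool.Agent.SUR.DMM
import Pool.Agent.SUR.DPB
import Pool.Agent.SUR.DANT
import Pool.Agent.SUR.DPOL
import Pool.Agent.SUR.DFG
import Pool.Agent.SUR.DPW
import Pool.Agent.SUR.PREF
import Pool.Agent.SUR.PSUM
import Pool.Agent.SUR.PTOR
import Pool.Agent.SUR.PFIN
import Pool.Agent.SUR.PCMP
import Pool.Agent.SUR.PCORE
import Pool.Agent.SUR.PNOR
import Pool.Agent.SUR.PLSE
import Pool.Agent.SUR.PLSA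
import Pool.Agent.SUR.PGRF
import Pool.Agent.SUR.QTR
import Pool.Agent.SUR.QEUL
import Pool.Agent.SUR.QULN

/-!
# The Dennis trace of `K₁(ℤ[G])` is concentrated at the unit element
-/

set_option autoImplicit false

universe u

namespace Pool.Agent.SUR

open Pool.Agent.WhK Finset

open Classical in
/-- the part of a cocycle at the unit element -/
noncomputable def atOne {G A : Type*} [Group G] [AddCommGroup A] (F : G → G → A) (a b : G) : A :=
  if a * b = 1 then F a b else 0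

namespace TraceMain

theorem mk_eq_one {G : Type*} [Group G] {a : G} (h : ConjClasses.mk a = ConjClasses.mk 1) :
    a = 1 := by
  obtain ⟨c, hc⟩ := isConj_iff.1 (ConjClasses.mk_eq_mk_iff_isConj.1 h.symm)
  rw [← hc, mul_one, mul_inv_cancel]

theorem atG_one {G A : Type*} [Group G] [AddCommGroup A] (F : G → G → A) :
    atG (ConjClasses.mk 1) F = atOne F := by
  funext a b
  unfold atG atOne
  by_cases h : a * b = 1
  · rw [if_pos (congrArg _ h), if_pos h]
  · rw [if_neg fun h1 => h (mk_eq_one h1), if_neg h]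

open Classical in
theorem atG_atOne {G A : Type*} [Group G] [AddCommGroup A] (F : G → G → A) (K : ConjClasses G) :
    atG K (atOne F) = if K = ConjClasses.mk 1 then atOne F else fun _ _ => 0 := by
  funext a b
  by_cases hK : K = ConjClasses.mk 1
  · rw [if_pos hK, hK]
    unfold atG atOne
    by_cases h : a * b = 1
    · rw [if_pos (congrArg _ h)]
    · rw [if_neg h, ite_self]
  · rw [if_neg hK]
    unfold atG atOne
    by_cases h : a * b = 1
    · rw [if_neg fun h1 => hK (h1.symm.trans (congrArg _ h))]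
    · rw [if_neg h, ite_self]

theorem pairF_zero {G A : Type*} [Group G] [AddCommGroup A] {n : ℕ}
    (X : (Matrix (Fin n) (Fin n) (MonoidAlgebra ℤ G))ˣ) :
    pairF (fun _ _ : G => (0 : A)) X = 0 := by
  unfold pairF
  refine Finset.sum_eq_zero fun i _ => Finset.sum_eq_zero fun j _ => ?_
  exact bil_eq_zero _ _ _ fun a _ b _ => rfl

/-- `pairF` sees only the class of the unit element, if the other parts vanish -/
theorem pairF_atOne {G : Type u} [Group G] (F : G → G → ℚ) {n : ℕ}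
    (X : (Matrix (Fin n) (Fin n) (MonoidAlgebra ℤ G))ˣ)
    (h : ∀ g : G, g ≠ 1 → pairF (atG (ConjClasses.mk g) F) X = 0) :
    pairF F X = pairF (atOne F) X := by
  classical
  obtain ⟨S, hS⟩ := (t_PSUM G ℚ).1 n X
  rw [hS F, hS (atOne F)]
  refine Finset.sum_congr rfl fun K _ => ?_
  rw [atG_atOne]
  by_cases hK : K = ConjClasses.mk 1
  · rw [if_pos hK, hK, atG_one]
  · rw [if_neg hK, pairF_zero]
    obtain ⟨g, rfl⟩ := ConjClasses.exists_rep K
    exact h g fun hg => hK (congrArg _ hg)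

theorem pairF_map {G : Type u} [Group G] (G₀ : Subgroup G) (F : G → G → ℚ) (n : ℕ)
    (X₀ : GLn (MonoidAlgebra ℤ G₀) n) :
    pairF F (GLn.map (ringMap G₀.subtype) n X₀) = pairF (fun a b : G₀ => F a b) X₀ := by
  unfold pairF
  refine Finset.sum_congr rfl fun i _ => Finset.sum_congr rfl fun j _ => ?_
  exact DLOC.bil_map (fun g : G₀ => (g : G)) F _ _

theorem isConj_coe {G : Type*} [Group G] {G₀ : Subgroup G} {a b : G₀} (h : IsConj a b) :
    IsConj (a : G) (b : G) := by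
  obtain ⟨c, hc⟩ := isConj_iff.1 h
  exact isConj_iff.2 ⟨c, by rw [← hc]; rfl⟩

theorem atG_ne {G A : Type*} [Group G] [AddCommGroup A] {F : G → G → A} {g a b : G}
    (h : atG (ConjClasses.mk g) F a b ≠ 0) : IsConj (a * b) g ∧ F a b ≠ 0 := by
  have h1 : ConjClasses.mk (a * b) = ConjClasses.mk g := by
    by_contra h2
    exact h (if_neg h2)
  refine ⟨ConjClasses.mk_eq_mk_iff_isConj.1 h1, fun h2 => h ?_⟩
  unfold atG
  rw [h2, ite_self]

/-- a condition on the values at a class passes to the part at the class -/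
theorem atG_cond {G A : Type*} [Group G] [AddCommGroup A] {F : G → G → A} {g : G} {P : A → Prop}
    (h0 : P 0) (h : ∀ a b, IsConj (a * b) g → P (F a b)) (a b : G) :
    P (atG (ConjClasses.mk g) F a b) := by
  by_cases h1 : ConjClasses.mk (a * b) = ConjClasses.mk g
  · unfold atG
    rw [if_pos h1]
    exact h a b (ConjClasses.mk_eq_mk_iff_isConj.1 h1)
  · unfold atG
    rwa [if_neg h1]

/-- classes of finite order -/
theorem finite_order (hFIN : s_PFIN.{u}) {G : Type u} [Group G] (F : G → G → ℚ) (hF : IsWtA F)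
    (g : G) (hg : IsOfFinOrder g) (p D : ℕ) (hp : p.Prime) (hpg : p ∣ orderOf g) (hD : 0 < D)
    (hden : ∀ a b, IsConj (a * b) g → ¬p ∣ ((D : ℚ) * F a b).den) (n : ℕ)
    (X : (Matrix (Fin n) (Fin n) (MonoidAlgebra ℤ G))ˣ) :
    pairF (atG (ConjClasses.mk g) F) X = 0 := by
  have : Fact p.Prime := ⟨hp⟩
  have h1 := hFIN G g hg p hpg
    (fun a b => (AddMonoidHom.mulLeft (D : ℚ)) (atG (ConjClasses.mk g) F a b))
    (fun a b c => by
      show (AddMonoidHom.mulLeft (D : ℚ)) (atG (ConjClasses.mk g) F a (b * c)) =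
        (AddMonoidHom.mulLeft (D : ℚ)) (atG (ConjClasses.mk g) F (a * b) c) +
        (AddMonoidHom.mulLeft (D : ℚ)) (atG (ConjClasses.mk g) F (c * a) b)
      rw [← map_add, PSUM.atG_wt F _ hF a b c])
    (fun a b h => (atG_ne fun h2 => h (by
      show (AddMonoidHom.mulLeft (D : ℚ)) (atG (ConjClasses.mk g) F a b) = 0
      rw [h2, map_zero])).1)
    (fun a b => atG_cond (P := fun q => ¬p ∣ ((AddMonoidHom.mulLeft (D : ℚ)) q).den)
      (by rw [map_zero]; simpa using hp.one_lt.ne') (fun a b h => hden a b h) a b) n X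
  rw [(t_PSUM G ℚ).2.2 ℚ (AddMonoidHom.mulLeft (D : ℚ)), AddMonoidHom.coe_mulLeft] at h1
  exact (mul_eq_zero.1 h1).resolve_left (Nat.cast_ne_zero.2 hD.ne')

/-- classes of infinite order, bounded denominators -/
theorem bounded (hCORE : s_PCORE.{u}) {G : Type u} [Group G] (hP : PRoots G) (F : G → G → ℚ)
    (hF : IsWtA F) (g : G) (hg : ¬IsOfFinOrder g) (M : ℕ) (hM : 0 < M)
    (hb : ∀ a b, IsConj (a * b) g → F a b ∈ ZM M) (n : ℕ)
    (X : (Matrix (Fin n) (Fin n) (MonoidAlgebra ℤ G))ˣ) :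
    pairF (atG (ConjClasses.mk g) F) X = 0 := by
  have hm : ∀ a b, atG (ConjClasses.mk g) F a b ∈ ZM M :=
    atG_cond (P := fun q => q ∈ ZM M) (ZM M).zero_mem hb
  have h1 := hCORE G M hM hP g hg (fun a b => ⟨atG (ConjClasses.mk g) F a b, hm a b⟩)
    (fun a b c => Subtype.ext (PSUM.atG_wt F _ hF a b c))
    (fun a b h => (atG_ne fun h2 => h (Subtype.ext h2)).1) n X
  have h2 := (t_PSUM G (ZM M)).2.2 ℚ (ZM M).subtype.toAddMonoidHom
    (fun a b => ⟨atG (ConjClasses.mk g) F a b, hm a b⟩) n X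
  rw [h1, map_zero] at h2
  exact h2

/-- classes of infinite order -/
theorem eulAt (hVWT : s_VWT.{u}) (hQTR : s_QTR.{u}) {G : Type u} [Group G] (hP : PRoots G)
    (F : G → G → ℚ) (hF : IsWtA F) (g : G) (hg : ¬IsOfFinOrder g) (hE : EulAtD G g) (n : ℕ)
    (X : (Matrix (Fin n) (Fin n) (MonoidAlgebra ℤ G))ˣ) :
    pairF (atG (ConjClasses.mk g) F) X = 0 :=
  hQTR G hP g hg ((hVWT G).2.2 g hg hE) (atG (ConjClasses.mk g) F) (PSUM.atG_wt F _ hF)
    (fun _ _ h => (atG_ne h).1) n X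

/-- the main theorem on the trace -/
theorem main (hFIN : s_PFIN.{u}) (hCORE : s_PCORE.{u}) (hVWT : s_VWT.{u}) (hQTR : s_QTR.{u})
    (G : Type u) [Group G] (F : G → G → ℚ) (hF : IsWtA F)
    (h1 : ∀ g : G, g ≠ 1 → IsOfFinOrder g → ∃ p D : ℕ, p.Prime ∧ p ∣ orderOf g ∧ 0 < D ∧
      ∀ a b : G, IsConj (a * b) g → ¬p ∣ ((D : ℚ) * F a b).den)
    (h2 : ∀ g : G, ¬IsOfFinOrder g → ∀ (G₀ : Subgroup G) (hg : g ∈ G₀), G₀.FG → PRoots G₀ ∧
      ((∃ M : ℕ, 0 < M ∧ ∀ a b : G, IsConj (a * b) g → F a b ∈ ZM M) ∨ EulAtD G₀ ⟨g, hg⟩))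
    (n : ℕ) (X : GLn (MonoidAlgebra ℤ G) n) : pairF F X = pairF (atOne F) X := by
  obtain ⟨G₀, hG₀, X₀, rfl⟩ := LOC.lift n X
  have hF₀ : IsWtA fun a b : G₀ => F a b := fun a b c => hF a b c
  have e2 : (fun a b : G₀ => atOne F a b) = atOne fun a b : G₀ => F a b := by
    funext a b
    unfold atOne
    by_cases h : a * b = 1
    · rw [if_pos h, if_pos (by rw [← Subgroup.coe_mul, h]; rfl)]
    · have h' : ¬(a : G) * (b : G) = 1 := fun h' => h (Subtype.ext h')
      rw [if_neg h, if_neg h']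
  rw [pairF_map, pairF_map, e2]
  refine pairF_atOne _ X₀ fun g hg1 => ?_
  by_cases hg : IsOfFinOrder g
  · have hgG : IsOfFinOrder (g : G) := G₀.subtype.isOfFinOrder hg
    obtain ⟨p, D, hp, hpg, hD, hden⟩ := h1 g (fun h => hg1 (Subtype.ext h)) hgG
    rw [Subgroup.orderOf_coe] at hpg
    exact finite_order hFIN _ hF₀ g hg p D hp hpg hD
      (fun a b hab => hden a b (isConj_coe hab)) n X₀
  · have hgG : ¬IsOfFinOrder (g : G) := fun h => hg (Submonoid.isOfFinOrder_coe.1 h)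
    obtain ⟨hP, h3⟩ := h2 g hgG G₀ g.2 hG₀
    rcases h3 with ⟨M, hM, hb⟩ | hE
    · exact bounded hCORE hP _ hF₀ g hg M hM (fun a b hab => hb a b (isConj_coe hab)) n X₀
    · exact eulAt hVWT hQTR hP _ hF₀ g hg hE n X₀

end TraceMain

theorem t_PREF' : s_PREF.{u} := t_PREF t_AKAP t_AWRW t_ATOT t_AEVA t_INV t_GAM

theorem t_DANT' : s_DANT.{u} := t_DANT t_DPOL

theorem t_PFIN' : s_PFIN.{u} := t_PFIN t_DMM (t_PTOR t_PREF' t_ARES) t_PSUM

theorem t_PCMP' : s_PCMP.{u} := t_PCMP t_DANT' t_DPB t_LLIFT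

theorem t_PCORE' : s_PCORE.{u} := t_PCORE t_PREF' t_ARES t_ACOC t_ANEQ t_PCMP' t_DMM

theorem t_QTR' : s_QTR.{u} := t_QTR t_LMONO t_LLIFT t_DMM t_DPB t_QZERO' t_DANT' t_LPSH

/-- unique roots and the condition on the centralisers, for finitely generated subgroups -/
def LocU (G : Type u) [Group G] : Prop :=
  ∀ G₀ : Subgroup G, G₀.FG → UniqExp G₀ ∧ CentEulDN G₀

theorem proots_of (G : Type u) [Group G] (h1 : UniqExp G) (h2 : CentEulDN G) : PRoots G := by
  obtain ⟨M, hM, hW⟩ := (t_VWT' G).2.1 h2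
  exact t_PPRT G h1 (t_RFEW' G M hM hW)

theorem eulAt_of (G : Type u) [Group G] (h : CentEulDN G) (g : G) (hg : ¬IsOfFinOrder g) :
    EulAtD G g := by
  obtain ⟨F, hF, S, hS, h1⟩ := h
  obtain ⟨n, hn, h2⟩ := h1 g hg
  exact ⟨F, hF, S, n, hS, hn, h2⟩

theorem locU_linear (F : Type u) [Field F] (n : ℕ) (G : Subgroup (GL (Fin n) F)) : LocU G :=
  fun G₀ h₀ => ⟨t_QULN t_DFG t_DPW F n G G₀ h₀,
    centEulDN_of_centEulD G₀ (centEulD_of_centEul G₀ (locCentEul_linear F n G G₀ h₀))⟩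

theorem locU_aut (π : Type u) [Group π]
    (hfg : Group.FG π) (hπ : RTN π) (G : Subgroup (MulAut π)) : LocU G := by
  intro G₀ _
  let f : G₀ →* MulAut π := G.subtype.comp G₀.subtype
  have hf : Function.Injective f := G.subtype_injective.comp G₀.subtype_injective
  exact ⟨uniqExp_of_injective f hf ((t_PAUT t_PJ2).2 π hfg hπ),
    centEulDN_of_centEulN _ (t_RLZ _ (linSepZ_of_injective f hf ((t_RLSZ t_RGRF).2 π hfg hπ)))⟩

theorem locU_out (α : Type u) [Finite α] (Q : Type u) [Group Q]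
    (q : MulAut (FreeGroup α) →* Q) (hq : Function.Surjective q)
    (hker : q.ker = (MulAut.conj (G := FreeGroup α)).range) (G : Subgroup Q) : LocU G := by
  have hfg : Group.FG (FreeGroup α) := inferInstance
  intro G₀ _
  let f : G₀ →* Q := G.subtype.comp G₀.subtype
  have hf : Function.Injective f := G.subtype_injective.comp G₀.subtype_injective
  exact ⟨uniqExp_of_injective f hf
      (t_OUTU t_PJ2 t_OTRJ (FreeGroup α) hfg (outSep_free α) Q q hq hker),
    centEulDN_of_centEulN _ (t_RLZ _ (linSepZ_of_injective f hf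
      (t_OUTL t_RGRF t_OTRJ (FreeGroup α) hfg (outSep_free α) Q q hq hker)))⟩

theorem locU_alg (K B : Type u) [Field K] [CharZero K] [Ring B] [Algebra K B] (ε : B →ₐ[K] K)
    (hft : Algebra.FiniteType K B) (h : ∀ x : B, (∀ k : ℕ, 1 ≤ k → x ∈ augI ε ^ k) → x = 0)
    (G : Subgroup (B ≃ₐ[K] B)) (hG : G ≤ AugAut ε) : LocU G := by
  intro G₀ h₀
  refine uniq_sep_alg K B ε hft h G₀ ((Group.fg_iff_subgroup_fg G₀).2 h₀)
    (G.subtype.comp G₀.subtype) (G.subtype_injective.comp G₀.subtype_injective) fun g x => ?_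
  exact hG (g : G).2 x

theorem cond_of_locU {G : Type u} [Group G] (h : LocU G) {P : Prop} (g : G)
    (hg : ¬IsOfFinOrder g) (G₀ : Subgroup G) (hg₀ : g ∈ G₀) (h₀ : G₀.FG) :
    PRoots G₀ ∧ (P ∨ EulAtD G₀ ⟨g, hg₀⟩) := by
  obtain ⟨h1, h2⟩ := h G₀ h₀
  refine ⟨proots_of G₀ h1 h2, Or.inr (eulAt_of G₀ h2 ⟨g, hg₀⟩ fun h3 => hg ?_)⟩
  exact Submonoid.isOfFinOrder_coe.2 h3

/-- **The trace theorem** -/
theorem trace_main (G : Type u) [Group G] (F : G → G → ℚ) (hF : IsWtA F)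
    (h1 : ∀ g : G, g ≠ 1 → IsOfFinOrder g → ∃ p D : ℕ, p.Prime ∧ p ∣ orderOf g ∧ 0 < D ∧
      ∀ a b : G, IsConj (a * b) g → ¬p ∣ ((D : ℚ) * F a b).den)
    (h2 : ∀ g : G, ¬IsOfFinOrder g → ∀ (G₀ : Subgroup G) (hg : g ∈ G₀), G₀.FG → PRoots G₀ ∧
      ((∃ M : ℕ, 0 < M ∧ ∀ a b : G, IsConj (a * b) g → F a b ∈ ZM M) ∨ EulAtD G₀ ⟨g, hg⟩))
    (n : ℕ) (X : GLn (MonoidAlgebra ℤ G) n) : pairF F X = pairF (atOne F) X :=
  TraceMain.main t_PFIN' t_PCORE' t_VWT' t_QTR' G F hF h1 h2 n X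

end Pool.Agent.SUR
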