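import Pool.Agent.SUR.StP
import Pool.Agent.SUR.Bil

/-!
# The normal form of a cocycle at a conjugacy class

Up to a coboundary a cocycle at the class of `g` has the values `F (z⁻¹ * g) z`, `z` in the centraliser of
`g`. The Dennis trace does not see coboundaries.
-/

set_option autoImplicit false

universe u

namespace Pool.Agent.SUR

open Finset

namespace WNRM

variable {G A : Type*} [Group G] [AddCommGroup A]

/-- the cocycle on the groupoid of the elements of the class -/
def psi (F : G → G → A) (y b : G) : A := F (y * b⁻¹) b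

theorem psi_eq (F : G → G → A) (a b : G) : psi F (a * b) b = F a b := by
  unfold psi
  rw [mul_inv_cancel_right]

theorem psi_mul {F : G → G → A} (hF : IsWtA F) (y b c : G) :
    psi F y (b * c) = psi F y c + psi F (c * y * c⁻¹) b := by
  unfold psi
  have h := hF (y * (b * c)⁻¹) b c
  have e1 : y * (b * c)⁻¹ * b = y * c⁻¹ := by group
  have e2 : c * (y * (b * c)⁻¹) = c * y * c⁻¹ * b⁻¹ := by group
  rw [e1, e2] at h
  exact h

theorem psi_one {F : G → G → A} (hF : IsWtA F) (y : G) : psi F y 1 = 0 := by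
  have h := psi_mul hF y 1 1
  rw [one_mul, one_mul, inv_one, mul_one] at h
  exact left_eq_add.1 h

theorem psi_inv {F : G → G → A} (hF : IsWtA F) (y s : G) :
    psi F (s * y * s⁻¹) s⁻¹ = -psi F y s := by
  have h := psi_mul hF y s⁻¹ s
  rw [inv_mul_cancel, psi_one hF] at h
  exact (neg_eq_of_add_eq_zero_right h.symm).symm

end WNRM

open WNRM in
/-- the normal form -/
theorem exists_norm {G A : Type*} [Group G] [AddCommGroup A] (F : G → G → A) (hF : IsWtA F) (g : G)
    (hs : ∀ a b, F a b ≠ 0 → IsConj (a * b) g) :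
    ∃ c : G → A, (∀ y, ¬IsConj y g → c y = 0) ∧
      ∀ a b, F a b - (c (b * a) - c (a * b)) = 0 ∨
        ∃ z, z * g = g * z ∧ F a b - (c (b * a) - c (a * b)) = F (z⁻¹ * g) z := by
  classical
  have hex : ∀ y : G, ∃ s : G, IsConj y g → s * g * s⁻¹ = y := by
    intro y
    by_cases h : IsConj y g
    · obtain ⟨c, hc⟩ := isConj_iff.1 h.symm
      exact ⟨c, fun _ => hc⟩
    · exact ⟨1, fun h' => absurd h' h⟩
  choose s hs' using hex
  refine ⟨fun y => if IsConj y g then psi F g (s y) else 0, fun y hy => if_neg hy,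
    fun a b => ?_⟩
  have hab : IsConj (a * b) (b * a) := isConj_iff.2 ⟨b, by group⟩
  by_cases h : IsConj (a * b) g
  · have h' : IsConj (b * a) g := hab.symm.trans h
    right
    have e1 := hs' _ h
    have e2 := hs' _ h'
    refine ⟨(s (b * a))⁻¹ * b * s (a * b), ?_, ?_⟩
    · have e3 : s (a * b) * g = a * b * s (a * b) := by
        rw [← mul_inv_eq_iff_eq_mul, e1]
      have e4 : g * (s (b * a))⁻¹ = (s (b * a))⁻¹ * (b * a) := by
        rw [eq_inv_mul_iff_mul_eq, ← mul_assoc, e2]
      calc (s (b * a))⁻¹ * b * s (a * b) * g = (s (b * a))⁻¹ * b * (s (a * b) * g) := by group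
        _ = (s (b * a))⁻¹ * b * (a * b * s (a * b)) := by rw [e3]
        _ = (s (b * a))⁻¹ * (b * a) * b * s (a * b) := by group
        _ = g * (s (b * a))⁻¹ * b * s (a * b) := by rw [e4]
        _ = g * ((s (b * a))⁻¹ * b * s (a * b)) := by group
    · simp only [if_pos h, if_pos h']
      set z := (s (b * a))⁻¹ * b * s (a * b) with hz
      have hzg : z⁻¹ * g = g * z⁻¹ := by
        have e3 : s (a * b) * g = a * b * s (a * b) := by
          rw [← mul_inv_eq_iff_eq_mul, e1]
        have e5 : (s (b * a)) * g = b * a * s (b * a) := by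
          rw [← mul_inv_eq_iff_eq_mul, e2]
        have e6 : (s (a * b))⁻¹ * (a * b) = g * (s (a * b))⁻¹ := by
          rw [inv_mul_eq_iff_eq_mul, ← mul_assoc, e1]
        rw [hz]
        calc ((s (b * a))⁻¹ * b * s (a * b))⁻¹ * g
            = (s (a * b))⁻¹ * b⁻¹ * (s (b * a) * g) := by group
          _ = (s (a * b))⁻¹ * b⁻¹ * (b * a * s (b * a)) := by rw [e5]
          _ = (s (a * b))⁻¹ * (a * b) * b⁻¹ * s (b * a) := by group
          _ = g * (s (a * b))⁻¹ * b⁻¹ * s (b * a) := by rw [e6]
          _ = g * ((s (b * a))⁻¹ * b * s (a * b))⁻¹ := by group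
      have h1 : F (z⁻¹ * g) z = psi F g z := by
        unfold psi
        rw [hzg]
      have h2 : psi F g z = psi F g (b * s (a * b)) +
          psi F (b * s (a * b) * g * (b * s (a * b))⁻¹) (s (b * a))⁻¹ := by
        rw [hz, mul_assoc, psi_mul hF]
      have e7 : b * s (a * b) * g * (b * s (a * b))⁻¹ = b * a := by
        calc b * s (a * b) * g * (b * s (a * b))⁻¹
            = b * (s (a * b) * g * (s (a * b))⁻¹) * b⁻¹ := by group
          _ = b * (a * b) * b⁻¹ := by rw [e1]
          _ = b * a := by group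
      have h3 : psi F (b * a) (s (b * a))⁻¹ = -psi F g (s (b * a)) := by
        have h4 := psi_inv hF g (s (b * a))
        rw [e2] at h4
        exact h4
      have h5 : psi F g (b * s (a * b)) = psi F g (s (a * b)) + F a b := by
        rw [psi_mul hF, e1, psi_eq]
      rw [h1, h2, e7, h3, h5]
      abel
  · have h' : ¬IsConj (b * a) g := fun h2 => h (hab.trans h2)
    left
    simp only [if_neg h, if_neg h', sub_zero]
    by_contra h1
    exact h (hs a b h1)

/-- coboundaries are cocycles -/
theorem isWtA_cob {G A : Type*} [Group G] [AddCommGroup A] (c : G → A) :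
    IsWtA fun a b : G => c (b * a) - c (a * b) := by
  intro a b d
  show c (b * d * a) - c (a * (b * d)) = c (d * (a * b)) - c (a * b * d) +
    (c (b * (d * a)) - c (d * a * b))
  rw [mul_assoc b d a, mul_assoc a b d, mul_assoc d a b]
  abel

/-- the Dennis trace does not see coboundaries -/
theorem pairF_cob {G A : Type*} [Group G] [AddCommGroup A] (c : G → A) {n : ℕ}
    (X : (Matrix (Fin n) (Fin n) (MonoidAlgebra ℤ G))ˣ) :
    pairF (fun a b : G => c (b * a) - c (a * b)) X = 0 := by
  classical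
  have h1 : ∀ x y : MonoidAlgebra ℤ G, bil (fun a b : G => c (b * a) - c (a * b)) x y =
      lin c (y * x) - lin c (x * y) := by
    intro x y
    rw [bil_fun_sub (fun a b : G => c (b * a)) (fun a b : G => c (a * b)), bil_mul,
      bil_swap (fun a b : G => c (a * b)) x y, bil_mul]
  unfold pairF
  simp_rw [h1]
  rw [Finset.sum_congr rfl fun i _ => Finset.sum_sub_distrib _ _, Finset.sum_sub_distrib,
    sub_eq_zero]
  have e1 : ∀ i, ∑ j, lin c (X.val j i * (X⁻¹ : (Matrix (Fin n) (Fin n) (MonoidAlgebra ℤ G))ˣ).val i j) =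
      ∑ j, lin c (X.val j i * (X⁻¹ : (Matrix (Fin n) (Fin n) (MonoidAlgebra ℤ G))ˣ).val i j) :=
    fun i => rfl
  rw [Finset.sum_comm]
  have e2 : ∀ j, ∑ i, lin c (X.val j i *
      (X⁻¹ : (Matrix (Fin n) (Fin n) (MonoidAlgebra ℤ G))ˣ).val i j) = lin c 1 := by
    intro j
    rw [← map_sum, ← Matrix.mul_apply, Units.mul_inv, Matrix.one_apply_eq]
  have e3 : ∀ i, ∑ j, lin c ((X⁻¹ : (Matrix (Fin n) (Fin n) (MonoidAlgebra ℤ G))ˣ).val i j *
      X.val j i) = lin c 1 := by
    intro i
    rw [← map_sum, ← Matrix.mul_apply, Units.inv_mul, Matrix.one_apply_eq]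
  rw [Finset.sum_congr rfl fun j _ => e2 j, Finset.sum_congr rfl fun i _ => e3 i]

end Pool.Agent.SUR
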