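import Pool.Agent.SUR.FinalT
import Pool.Agent.SUR.WNRM

/-!
# The Dennis trace: conditions in terms of the homomorphisms of the centralisers
-/

set_option autoImplicit false

universe u

namespace Pool.Agent.SUR

open Pool.Agent.WhK Finset

namespace TraceMain

theorem atG_self {G A : Type*} [Group G] [AddCommGroup A] (F : G → G → A) (g : G)
    (h : ∀ a b, ¬IsConj (a * b) g → F a b = 0) : atG (ConjClasses.mk g) F = F := by
  funext a b
  unfold atG
  by_cases h1 : ConjClasses.mk (a * b) = ConjClasses.mk g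
  · rw [if_pos h1]
  · rw [if_neg h1, h a b fun h2 => h1 (ConjClasses.mk_eq_mk_iff_isConj.2 h2)]

/-- reduction to the values at the centraliser -/
theorem norm_red {G : Type u} [Group G] (F : G → G → ℚ) (hF : IsWtA F) (g : G) (P : ℚ → Prop)
    (h0 : P 0) (hP : ∀ z, z * g = g * z → P (F (z⁻¹ * g) z)) (n : ℕ)
    (X : (Matrix (Fin n) (Fin n) (MonoidAlgebra ℤ G))ˣ)
    (key : ∀ F' : G → G → ℚ, IsWtA F' → (∀ a b, IsConj (a * b) g → P (F' a b)) →
      pairF (atG (ConjClasses.mk g) F') X = 0) :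
    pairF (atG (ConjClasses.mk g) F) X = 0 := by
  have hW := PSUM.atG_wt F (ConjClasses.mk g) hF
  obtain ⟨c, hc, h⟩ := exists_norm (atG (ConjClasses.mk g) F) hW g fun a b h => (atG_ne h).1
  let F' : G → G → ℚ := fun a b => atG (ConjClasses.mk g) F a b - (c (b * a) - c (a * b))
  have hF' : IsWtA F' := by
    intro a b d
    have e1 := hW a b d
    have e2 : c (b * d * a) - c (a * (b * d)) = (c (d * (a * b)) - c (a * b * d)) +
      (c (b * (d * a)) - c (d * a * b)) := isWtA_cob c a b d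
    show atG (ConjClasses.mk g) F a (b * d) - (c (b * d * a) - c (a * (b * d))) =
      (atG (ConjClasses.mk g) F (a * b) d - (c (d * (a * b)) - c (a * b * d))) +
      (atG (ConjClasses.mk g) F (d * a) b - (c (b * (d * a)) - c (d * a * b)))
    rw [e1, e2]
    ring
  have hval : ∀ z, z * g = g * z → atG (ConjClasses.mk g) F (z⁻¹ * g) z = F (z⁻¹ * g) z := by
    intro z hz
    have e : z⁻¹ * g * z = g := by
      rw [mul_assoc, ← hz, inv_mul_cancel_left]
    unfold atG
    rw [if_pos (by rw [e])]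
  have h1 : pairF (atG (ConjClasses.mk g) F') X = 0 := by
    refine key F' hF' fun a b _ => ?_
    rcases h a b with h2 | ⟨z, hz, h2⟩
    · show P (atG (ConjClasses.mk g) F a b - (c (b * a) - c (a * b)))
      rw [h2]
      exact h0
    · show P (atG (ConjClasses.mk g) F a b - (c (b * a) - c (a * b)))
      rw [h2, hval z hz]
      exact hP z hz
  have h2 : atG (ConjClasses.mk g) F' = F' := by
    refine atG_self F' g fun a b hab => ?_
    have h3 : ¬IsConj (b * a) g := fun h4 => hab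
      ((isConj_iff.2 ⟨b, by group⟩ : IsConj (a * b) (b * a)).trans h4)
    show atG (ConjClasses.mk g) F a b - (c (b * a) - c (a * b)) = 0
    rw [hc _ hab, hc _ h3, sub_zero, sub_zero]
    unfold atG
    exact if_neg fun h4 => hab (ConjClasses.mk_eq_mk_iff_isConj.1 h4)
  rw [h2] at h1
  have h3 : pairF F' X = pairF (atG (ConjClasses.mk g) F) X -
      pairF (fun a b : G => c (b * a) - c (a * b)) X := by
    unfold pairF
    rw [← Finset.sum_sub_distrib]
    refine Finset.sum_congr rfl fun i _ => ?_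
    rw [← Finset.sum_sub_distrib]
    exact Finset.sum_congr rfl fun j _ => bil_fun_sub _ _ _ _
  rw [h1, pairF_cob, sub_zero] at h3
  exact h3.symm

end TraceMain

/-- **The trace theorem**, with conditions on the homomorphisms of the centralisers -/
theorem trace_hom (G : Type u) [Group G] (F : G → G → ℚ) (hF : IsWtA F)
    (h1 : ∀ g : G, g ≠ 1 → IsOfFinOrder g → ∀ G₀ : Subgroup G, g ∈ G₀ → G₀.FG →
      ∃ p D : ℕ, p.Prime ∧ p ∣ orderOf g ∧ 0 < D ∧
        ∀ z ∈ G₀, z * g = g * z → ¬p ∣ ((D : ℚ) * F (z⁻¹ * g) z).den)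
    (h2 : ∀ g : G, ¬IsOfFinOrder g → ∀ (G₀ : Subgroup G) (hg : g ∈ G₀), G₀.FG → PRoots G₀ ∧
      ((∃ M : ℕ, 0 < M ∧ ∀ z ∈ G₀, z * g = g * z → F (z⁻¹ * g) z ∈ ZM M) ∨
        EulAtD G₀ ⟨g, hg⟩))
    (n : ℕ) (X : GLn (MonoidAlgebra ℤ G) n) : pairF F X = pairF (atOne F) X := by
  obtain ⟨G₀, hG₀, X₀, rfl⟩ := LOC.lift n X
  have hF₀ : IsWtA fun a b : G₀ => F a b := fun a b c => hF a b c
  have e2 : (fun a b : G₀ => atOne F a b) = atOne fun a b : G₀ => F a b := by
    funext a b
    unfold atOne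
    by_cases h : a * b = 1
    · rw [if_pos h, if_pos (by rw [← Subgroup.coe_mul, h]; rfl)]
    · have h' : ¬(a : G) * (b : G) = 1 := fun h' => h (Subtype.ext h')
      rw [if_neg h, if_neg h']
  rw [TraceMain.pairF_map, TraceMain.pairF_map, e2]
  refine TraceMain.pairF_atOne _ X₀ fun g hg1 => ?_
  have hz : ∀ z : G₀, z * g = g * z → (z : G) * g = g * z := fun z hz =>
    congrArg (Subtype.val (p := fun x => x ∈ G₀)) hz
  by_cases hg : IsOfFinOrder g
  · have hgG : IsOfFinOrder (g : G) := G₀.subtype.isOfFinOrder hg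
    obtain ⟨p, D, hp, hpg, hD, hden⟩ := h1 g (fun h => hg1 (Subtype.ext h)) hgG G₀ g.2 hG₀
    rw [Subgroup.orderOf_coe] at hpg
    refine TraceMain.norm_red _ hF₀ g (fun q => ¬p ∣ ((D : ℚ) * q).den) ?_
      (fun z hzg => hden z z.2 (hz z hzg)) n X₀ fun F' hF' hb =>
        TraceMain.finite_order t_PFIN' F' hF' g hg p D hp hpg hD hb n X₀
    rw [mul_zero]
    simpa using hp.one_lt.ne'
  · have hgG : ¬IsOfFinOrder (g : G) := fun h => hg (Submonoid.isOfFinOrder_coe.1 h)
    obtain ⟨hP, h3⟩ := h2 g hgG G₀ g.2 hG₀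
    rcases h3 with ⟨M, hM, hb⟩ | hE
    · exact TraceMain.norm_red _ hF₀ g (fun q => q ∈ ZM M) (ZM M).zero_mem
        (fun z hzg => hb z z.2 (hz z hzg)) n X₀ fun F' hF' hb' =>
          TraceMain.bounded t_PCORE' hP F' hF' g hg M hM hb' n X₀
    · exact TraceMain.eulAt t_VWT' t_QTR' hP _ hF₀ g hg hE n X₀

end Pool.Agent.SUR
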