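import Pool.Agent.SUR.WNRM

/-!
# Cocycles at classes with finitely generated homology of the centraliser
-/

set_option autoImplicit false

universe u

namespace Pool.Agent.SUR

open Finset

/-- the first homology groups of the centralisers of the elements `≠ 1` of finite order in finitely
generated subgroups are finitely generated -/
def FGCent (G : Type u) [Group G] : Prop :=
  ∀ G₀ : Subgroup G, G₀.FG → ∀ g : G₀, g ≠ 1 → IsOfFinOrder g →
    Group.FG (Abelianization (Subgroup.centralizer {g}))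

namespace WFGC

theorem exists_int {Z : Type*} [Group Z] (h : Group.FG (Abelianization Z))
    (φ : Z →* Multiplicative ℚ) :
    ∃ D : ℕ, 0 < D ∧ ∀ z : Z, ∃ m : ℤ, (D : ℚ) * (φ z).toAdd = m := by
  classical
  obtain ⟨T, hT⟩ := Group.fg_def.1 h
  let ψ : Abelianization Z →* Multiplicative ℚ := Abelianization.lift φ
  let D : ℕ := ∏ t ∈ T, (ψ t).toAdd.den
  have hD : 0 < D := Finset.prod_pos fun t _ => (ψ t).toAdd.den_pos
  refine ⟨D, hD, fun z => ?_⟩
  have key : ∀ x : Abelianization Z, ∃ m : ℤ, (D : ℚ) * (ψ x).toAdd = m := by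
    intro x
    have hx : x ∈ Subgroup.closure (T : Set (Abelianization Z)) := by rw [hT]; trivial
    induction hx using Subgroup.closure_induction with
    | mem x hx =>
      obtain ⟨k, hk⟩ : (ψ x).toAdd.den ∣ D := Finset.dvd_prod_of_mem _ (Finset.mem_coe.1 hx)
      refine ⟨k * (ψ x).toAdd.num, ?_⟩
      have h1 : (ψ x).toAdd * (ψ x).toAdd.den = (ψ x).toAdd.num := Rat.mul_den_eq_num _
      rw [hk]
      push_cast
      rw [← h1]
      ring
    | one => exact ⟨0, by simp⟩
    | mul x y _ _ hx hy =>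
      obtain ⟨m, hm⟩ := hx
      obtain ⟨k, hk⟩ := hy
      refine ⟨m + k, ?_⟩
      rw [map_mul, toAdd_mul, mul_add, hm, hk]
      push_cast
      rfl
    | inv x _ hx =>
      obtain ⟨m, hm⟩ := hx
      refine ⟨-m, ?_⟩
      rw [map_inv, toAdd_inv, mul_neg, hm]
      push_cast
      rfl
  obtain ⟨m, hm⟩ := key (Abelianization.of z)
  exact ⟨m, hm⟩

end WFGC

open WNRM WFGC in
/-- the condition at the elements of finite order holds for all cocycles -/
theorem bdd_of_fgCent {G : Type u} [Group G] (hG : FGCent G) (F : G → G → ℚ) (hF : IsWtA F)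
    (g : G) (hg1 : g ≠ 1) (hg : IsOfFinOrder g) (G₀ : Subgroup G) (hgG : g ∈ G₀) (h₀ : G₀.FG) :
    ∃ p D : ℕ, p.Prime ∧ p ∣ orderOf g ∧ 0 < D ∧
      ∀ z ∈ G₀, z * g = g * z → ¬p ∣ ((D : ℚ) * F (z⁻¹ * g) z).den := by
  classical
  let g' : G₀ := ⟨g, hgG⟩
  have hg1' : g' ≠ 1 := fun h => hg1 (congrArg (Subtype.val (p := fun x => x ∈ G₀)) h)
  have hg' : IsOfFinOrder g' := Submonoid.isOfFinOrder_coe.1 hg
  have hcom : ∀ z : Subgroup.centralizer {g'}, ((z : G₀) : G) * g = g * ((z : G₀) : G) := fun z =>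
    congrArg (Subtype.val (p := fun x => x ∈ G₀)) (Subgroup.mem_centralizer_singleton_iff.1 z.2)
  let φ : Subgroup.centralizer {g'} →* Multiplicative ℚ :=
    { toFun := fun z => Multiplicative.ofAdd (psi F g ((z : G₀) : G))
      map_one' := by
        show Multiplicative.ofAdd (psi F g 1) = 1
        rw [psi_one hF]
        rfl
      map_mul' := fun z w => by
        show Multiplicative.ofAdd (psi F g (((z : G₀) : G) * ((w : G₀) : G))) = _
        rw [psi_mul hF, hcom w, mul_inv_cancel_right, add_comm]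
        rfl }
  obtain ⟨D, hD, h1⟩ := exists_int (hG G₀ h₀ g' hg1' hg') φ
  have hord : orderOf g ≠ 1 := fun h => hg1 (orderOf_eq_one_iff.1 h)
  refine ⟨(orderOf g).minFac, D, Nat.minFac_prime hord, Nat.minFac_dvd _, hD,
    fun z hz hzg => ?_⟩
  have hmem : (⟨z, hz⟩ : G₀) ∈ Subgroup.centralizer {g'} :=
    Subgroup.mem_centralizer_singleton_iff.2 (Subtype.ext hzg)
  obtain ⟨m, hm⟩ := h1 ⟨⟨z, hz⟩, hmem⟩
  have h2 : F (z⁻¹ * g) z = psi F g z := by
    unfold psi
    have : z⁻¹ * g = g * z⁻¹ := by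
      rw [inv_mul_eq_iff_eq_mul, ← mul_assoc, hzg, mul_inv_cancel_right]
    rw [this]
  have h3 : (D : ℚ) * F (z⁻¹ * g) z = m := by
    rw [h2]
    exact hm
  rw [h3, Rat.den_intCast]
  exact (Nat.minFac_prime hord).one_lt.ne' ∘ Nat.dvd_one.1

end Pool.Agent.SUR
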