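import Pool.Agent.SUR.FinalW
import Pool.Agent.SUR.WFGC

/-!
# The Dennis trace: the component at one class
-/

set_option autoImplicit false

universe u

namespace Pool.Agent.SUR

open Finset

open WNRM WFGC in
/-- the values at a centraliser with finitely generated abelianisation -/
theorem int_of_fg {G : Type u} [Group G] (F : G → G → ℚ) (hF : IsWtA F) (g : G)
    (h : Group.FG (Abelianization (Subgroup.centralizer {g}))) :
    ∃ D : ℕ, 0 < D ∧ ∀ z : G, z * g = g * z → ∃ m : ℤ, (D : ℚ) * F (z⁻¹ * g) z = m := by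
  classical
  have hcom : ∀ z : Subgroup.centralizer {g}, (z : G) * g = g * (z : G) := fun z =>
    Subgroup.mem_centralizer_singleton_iff.1 z.2
  let φ : Subgroup.centralizer {g} →* Multiplicative ℚ :=
    { toFun := fun z => Multiplicative.ofAdd (psi F g (z : G))
      map_one' := by
        show Multiplicative.ofAdd (psi F g 1) = 1
        rw [psi_one hF]
        rfl
      map_mul' := fun z w => by
        show Multiplicative.ofAdd (psi F g ((z : G) * (w : G))) = _
        rw [psi_mul hF, hcom w, mul_inv_cancel_right, add_comm]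
        rfl }
  obtain ⟨D, hD, h1⟩ := exists_int h φ
  refine ⟨D, hD, fun z hz => ?_⟩
  obtain ⟨m, hm⟩ := h1 ⟨z, Subgroup.mem_centralizer_singleton_iff.2 hz⟩
  have h2 : F (z⁻¹ * g) z = psi F g z := by
    unfold psi
    have : z⁻¹ * g = g * z⁻¹ := by
      rw [inv_mul_eq_iff_eq_mul, ← mul_assoc, hz, mul_inv_cancel_right]
    rw [this]
  refine ⟨m, ?_⟩
  rw [h2]
  exact hm

/-- the component of the Dennis trace at a class of elements of finite order -/
theorem trace_fin (G : Type u) [Group G] (F : G → G → ℚ) (hF : IsWtA F) (g : G)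
    (hs : ∀ a b, F a b ≠ 0 → IsConj (a * b) g) (hg : IsOfFinOrder g)
    (hb : ∃ p D : ℕ, p.Prime ∧ p ∣ orderOf g ∧ 0 < D ∧
      ∀ z : G, z * g = g * z → ¬p ∣ ((D : ℚ) * F (z⁻¹ * g) z).den)
    (n : ℕ) (X : (Matrix (Fin n) (Fin n) (MonoidAlgebra ℤ G))ˣ) : pairF F X = 0 := by
  obtain ⟨p, D, hp, hpg, hD, hden⟩ := hb
  have e := TraceMain.atG_self F g fun a b h => by
    by_contra h1
    exact h (hs a b h1)
  rw [← e]
  refine TraceMain.norm_red F hF g (fun q => ¬p ∣ ((D : ℚ) * q).den) ?_ hden n X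
    fun F' hF' hb =>
      TraceMain.finite_order t_PFIN' F' hF' g hg p D hp hpg hD hb n X
  rw [mul_zero]
  simpa using hp.one_lt.ne'

/-- the component of the Dennis trace at a class of elements of infinite order -/
theorem trace_inf (G : Type u) [Group G] (hG : LocU G) (F : G → G → ℚ) (hF : IsWtA F) (g : G)
    (hs : ∀ a b, F a b ≠ 0 → IsConj (a * b) g) (hg : ¬IsOfFinOrder g)
    (n : ℕ) (X : (Matrix (Fin n) (Fin n) (MonoidAlgebra ℤ G))ˣ) : pairF F X = 0 := by
  have h := trace_hom G F hF (fun g' h1 h2 G₀ _ _ => by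
    have hord : orderOf g' ≠ 1 := fun h => h1 (orderOf_eq_one_iff.1 h)
    refine ⟨(orderOf g').minFac, 1, Nat.minFac_prime hord, Nat.minFac_dvd _, one_pos,
      fun z _ hz => ?_⟩
    have h3 : F (z⁻¹ * g') z = 0 := by
      by_contra h4
      have h5 := hs _ _ h4
      have e : z⁻¹ * g' * z = g' := by
        rw [mul_assoc, ← hz, inv_mul_cancel_left]
      rw [e] at h5
      obtain ⟨c, hc⟩ := isConj_iff.1 h5
      exact hg (hc ▸ (isOfFinOrder_iff_pow_eq_one.2 (by
        obtain ⟨k, hk, hk1⟩ := isOfFinOrder_iff_pow_eq_one.1 h2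
        exact ⟨k, hk, by rw [conj_pow, hk1, mul_one, mul_inv_cancel]⟩)))
    rw [h3, mul_zero]
    simpa using (Nat.minFac_prime hord).one_lt.ne')
    (fun g' h1 G₀ hg₀ h₀ => cond_of_locU hG g' h1 G₀ hg₀ h₀) n X
  have h1 : atOne F = fun _ _ => 0 := by
    funext a b
    unfold atOne
    by_cases h1 : a * b = 1
    · rw [if_pos h1]
      by_contra h2
      have h3 := hs _ _ h2
      rw [h1, isConj_one_right] at h3
      exact hg (h3 ▸ IsOfFinOrder.one)
    · rw [if_neg h1]
  rw [h, h1]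
  exact TraceMain.pairF_zero X

/-- the component of the Dennis trace at a class of elements of finite order -/
theorem trace_fin' (G : Type u) [Group G] (F : G → G → ℚ) (hF : IsWtA F) (g : G) (hg1 : g ≠ 1)
    (hs : ∀ a b, F a b ≠ 0 → IsConj (a * b) g) (hg : IsOfFinOrder g)
    (hb : Group.FG (Abelianization (Subgroup.centralizer {g})) ∨
      ∃ p D : ℕ, p.Prime ∧ p ∣ orderOf g ∧ 0 < D ∧
        ∀ z : G, z * g = g * z → ¬p ∣ ((D : ℚ) * F (z⁻¹ * g) z).den)
    (n : ℕ) (X : (Matrix (Fin n) (Fin n) (MonoidAlgebra ℤ G))ˣ) : pairF F X = 0 := by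
  rcases hb with h | h
  · refine trace_fin G F hF g hs hg ?_ n X
    obtain ⟨D, hD, h1⟩ := int_of_fg F hF g h
    have hord : orderOf g ≠ 1 := fun h => hg1 (orderOf_eq_one_iff.1 h)
    refine ⟨(orderOf g).minFac, D, Nat.minFac_prime hord, Nat.minFac_dvd _, hD,
      fun z hz => ?_⟩
    obtain ⟨m, hm⟩ := h1 z hz
    rw [hm, Rat.den_intCast]
    exact (Nat.minFac_prime hord).one_lt.ne' ∘ Nat.dvd_one.1
  · exact trace_fin G F hF g hs hg h n X

end Pool.Agent.SUR
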