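import Pool.Agent.SUR.IKAP
import Pool.Agent.SUR.AEVA

/-!
# The weights of the external power and of its Frobenius companion, modulo an ideal
-/

set_option autoImplicit false

universe u

namespace Pool.Agent.SUR

open Pool.Agent.WhK Finset

namespace IEVA

open EVG EVA

theorem lin_eq_kapL {X A : Type*} [AddCommGroup A] (T : X → A) (x : MonoidAlgebra ℤ X) :
    lin T x = kapL T x := by
  induction x using MonoidAlgebra.induction_linear with
  | zero => rw [map_zero, map_zero]
  | add x y hx hy => rw [map_add, map_add, hx, hy]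
  | single a r => rw [lin_single, kapL_single]

theorem evg_I {𝔐 A : Type*} [Monoid 𝔐] [AddCommGroup A] (M : ℕ) [NeZero M]
    (F : 𝔐 → 𝔐 → 𝔐 → A) (r : ZMod M) (v w : MonoidAlgebra ℤ 𝔐)
    (hF : ∀ α β, ∀ u ∈ Wd 𝔐, kapL (fun a => F α β (u a)) (v * w - 1) = 0) :
    bil (fun a b : ZMod M → 𝔐 => F (a r) (b r) (Pr r (a * b))) (extPow (ZMod M) v)
      (extPow (ZMod M) w) = bil (fun α β => F α β 1) v w := by
  classical
  -- inner evaluation
  have hin : ∀ α β : 𝔐, bil (fun a' b' : {j : ZMod M // j ≠ r} → 𝔐 =>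
      F α β (Pr r (glue r 1 (a' * b')))) (extPow {j : ZMod M // j ≠ r} v)
      (extPow {j : ZMod M // j ≠ r} w) = F α β 1 := by
    intro α β
    rw [bil_mul (fun c' : {j : ZMod M // j ≠ r} → 𝔐 => F α β (Pr r (glue r 1 c'))),
      ← extPow_mul, lin_eq_kapL, kapL_of_sub_one, pr_one]
    refine kapL_II (S := {v * w - 1}) _ ?_ (extPow_sub_one_mem rfl)
    intro x hx u hu
    rw [Set.mem_singleton_iff] at hx
    subst hx
    have h1 : (fun a : 𝔐 => Pr r (glue r 1 (fun i : {j : ZMod M // j ≠ r} => u i a))) ∈ Wd 𝔐 := by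
      have h2 := Wd.Pr_mem r (fun i : ZMod M => if h : i = r then fun _ => (1 : 𝔐) else u ⟨i, h⟩)
        (by
          intro i
          by_cases h : i = r
          · simp only [dif_pos h]
            exact Wd.const_mem 1
          · simp only [dif_neg h]
            exact hu _)
      have h3 : (fun a : 𝔐 => Pr r (glue r 1 (fun i : {j : ZMod M // j ≠ r} => u i a))) =
          fun a => Pr r (fun i => (if h : i = r then fun _ => (1 : 𝔐) else u ⟨i, h⟩) a) := by
        funext a
        refine congrArg (Pr r) ?_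
        funext i
        unfold glue
        by_cases h : i = r
        · rw [dif_pos h, dif_pos h]
        · rw [dif_neg h, dif_neg h]
      rw [h3]
      exact h2
    exact hF α β _ h1
  rw [bil_eq_sum_of_subset _ _ _ _ _ (supp_extPow (ZMod M) v) (supp_extPow (ZMod M) w),
    sum_split r v.coeff.support, bil_eq_sum]
  refine Finset.sum_congr rfl fun α _ => ?_
  have h1 : ∀ a' : {j : ZMod M // j ≠ r} → 𝔐,
      ∑ b ∈ Fintype.piFinset (fun _ : ZMod M => w.coeff.support),
        ((extPow (ZMod M) v).coeff (glue r α a') * (extPow (ZMod M) w).coeff b) •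
          F (glue r α a' r) (b r) (Pr r (glue r α a' * b)) =
      ∑ β ∈ w.coeff.support, ∑ b' ∈ Fintype.piFinset
        (fun _ : {j : ZMod M // j ≠ r} => w.coeff.support),
        (v.coeff α * w.coeff β) • (((extPow {j : ZMod M // j ≠ r} v).coeff a' *
          (extPow {j : ZMod M // j ≠ r} w).coeff b') •
            F α β (Pr r (glue r 1 (a' * b')))) := by
    intro a'
    rw [sum_split r w.coeff.support]
    refine Finset.sum_congr rfl fun β _ => Finset.sum_congr rfl fun b' _ => ?_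
    rw [coeff_extPow, coeff_extPow, coeff_extPow, coeff_extPow, prod_glue r (fun x => v.coeff x),
      prod_glue r (fun x => w.coeff x), glue_self, glue_self, pr_glue, smul_smul]
    refine congrArg (fun t : ℤ => t • F α β (Pr r (glue r 1 (a' * b')))) ?_
    ring
  rw [Finset.sum_congr rfl fun a' _ => h1 a', Finset.sum_comm]
  refine Finset.sum_congr rfl fun β _ => ?_
  rw [← hin α β, bil_eq_sum_of_subset _ _ _ _ _ (supp_extPow _ v) (supp_extPow _ w),
    Finset.smul_sum]
  refine Finset.sum_congr rfl fun a' _ => ?_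
  rw [Finset.smul_sum]

end IEVA

open EVA IEVA

theorem t_IEVA {𝔐 A : Type*} [Monoid 𝔐] [AddCommGroup A] (W : 𝔐 → 𝔐 → A) (p m : ℕ)
    [Fact p.Prime] (v w : MonoidAlgebra ℤ 𝔐) (hvw : VanW W (v * w - 1)) :
    bil (eNA W) (extPow (ZMod (p ^ (m + 1))) v) (extPow (ZMod (p ^ (m + 1))) w) =
      (p ^ (m + 1)) • bil W v w ∧
    bil (eNA W) (Wof p m v) (Wof p m w) = (p ^ (m + 1)) • bil (pwA W p) v w := by
  constructor
  · have h1 : (eNA W : (ZMod (p ^ (m + 1)) → 𝔐) → (ZMod (p ^ (m + 1)) → 𝔐) → A) =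
        fun a b => ∑ r : ZMod (p ^ (m + 1)),
          (fun α β P => W (P * α) β : 𝔐 → 𝔐 → 𝔐 → A) (a r) (b r) (Pr r (a * b)) := rfl
    rw [h1, bil_sum Finset.univ (fun (r : ZMod (p ^ (m + 1))) (a b : ZMod (p ^ (m + 1)) → 𝔐) =>
      (fun α β P => W (P * α) β : 𝔐 → 𝔐 → 𝔐 → A) (a r) (b r) (Pr r (a * b)))]
    rw [Finset.sum_congr rfl fun r _ =>
      evg_I (p ^ (m + 1)) (fun α β P => W (P * α) β) r v w fun α β u hu =>
        hvw _ (Wd.mul_mem' hu (Wd.const_mem α)) _ (Wd.const_mem β)]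
    rw [Finset.sum_const, Finset.card_univ, ZMod.card]
    simp only [one_mul]
  · rw [Wof_eq, Wof_eq, bil_mapDomain]
    have h1 : (fun a b : ZMod (p ^ m) → 𝔐 => eNA W (diagHom p m a) (diagHom p m b)) =
        fun a b => ∑ r : ZMod (p ^ (m + 1)),
          (fun α β P => W ((P * (α * β)) ^ (p - 1) * P * α) β : 𝔐 → 𝔐 → 𝔐 → A)
            (a (ZMod.castHom (pdvd p m) (ZMod (p ^ m)) r))
            (b (ZMod.castHom (pdvd p m) (ZMod (p ^ m)) r))
            (Pr (ZMod.castHom (pdvd p m) (ZMod (p ^ m)) r) (a * b)) := by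
      funext a b
      unfold eNA
      refine Finset.sum_congr rfl fun r _ => ?_
      rw [← map_mul, Pr_diag]
      rfl
    rw [h1, bil_sum Finset.univ (fun (r : ZMod (p ^ (m + 1))) (a b : ZMod (p ^ m) → 𝔐) =>
      (fun α β P => W ((P * (α * β)) ^ (p - 1) * P * α) β : 𝔐 → 𝔐 → 𝔐 → A)
            (a (ZMod.castHom (pdvd p m) (ZMod (p ^ m)) r))
            (b (ZMod.castHom (pdvd p m) (ZMod (p ^ m)) r))
            (Pr (ZMod.castHom (pdvd p m) (ZMod (p ^ m)) r) (a * b)))]
    rw [Finset.sum_congr rfl fun (r : ZMod (p ^ (m + 1))) _ =>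
      evg_I (p ^ m) (fun α β P => W ((P * (α * β)) ^ (p - 1) * P * α) β)
        (ZMod.castHom (pdvd p m) (ZMod (p ^ m)) r) v w fun α β u hu =>
        hvw _ (Wd.mul_mem' (Wd.mul_mem' (Wd.pow_mem' (Wd.mul_mem' hu (Wd.const_mem _)) _) hu)
          (Wd.const_mem α)) _ (Wd.const_mem β)]
    rw [Finset.sum_const, Finset.card_univ, ZMod.card]
    simp only [one_mul, mul_one]
    rfl

end Pool.Agent.SUR
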