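import Pool.Agent.SUR.IWord

/-!
# The symmetry lemma modulo an ideal
-/

set_option autoImplicit false

universe u

namespace Pool.Agent.SUR

open Pool.Agent.WhK

theorem kapL_of_sub_one {M A : Type*} [Monoid M] [AddCommGroup A] (f : M → A)
    (x : MonoidAlgebra ℤ M) (h : kapL f (x - 1) = 0) : kapL f x = f 1 := by
  rw [map_sub, sub_eq_zero, kapL_one] at h
  exact h

theorem kapL_left {M A : Type*} [Monoid M] [AddCommGroup A] (f : M → A) (c : M)
    (x : MonoidAlgebra ℤ M) : kapL (fun m => f (c * m)) x = kapL f (MonoidAlgebra.single c 1 * x) := by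
  induction x using MonoidAlgebra.induction_linear with
  | zero => rw [mul_zero, map_zero, map_zero]
  | add x y hx hy => rw [mul_add, map_add, map_add, hx, hy]
  | single a r => rw [MonoidAlgebra.single_mul_single, kapL_single, kapL_single, one_mul]

theorem kapL_right {M A : Type*} [Monoid M] [AddCommGroup A] (f : M → A) (c : M)
    (x : MonoidAlgebra ℤ M) : kapL (fun m => f (m * c)) x = kapL f (x * MonoidAlgebra.single c 1) := by
  induction x using MonoidAlgebra.induction_linear with
  | zero => rw [zero_mul, map_zero, map_zero]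
  | add x y hx hy => rw [add_mul, map_add, map_add, hx, hy]
  | single a r => rw [MonoidAlgebra.single_mul_single, kapL_single, kapL_single, mul_one]

/-- stable under multiplication by monomials -/
structure Mono {M : Type*} [Monoid M] (J : AddSubgroup (MonoidAlgebra ℤ M)) : Prop where
  l : ∀ c, ∀ e ∈ J, MonoidAlgebra.single c 1 * e ∈ J
  r : ∀ c, ∀ e ∈ J, e * MonoidAlgebra.single c 1 ∈ J

/-- the derivation, modulo an ideal -/
theorem kap_derI {M R : Type*} [Monoid M] [CommRing R] (d : M → R)
    (hd : ∀ a b, d (a * b) = d a + d b) (J : AddSubgroup (MonoidAlgebra ℤ M)) (hJ : Mono J)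
    (X Y : MonoidAlgebra ℤ M) (hXY : X * Y - 1 ∈ J) (hYX : Y * X - 1 ∈ J) (f : M → R)
    (hf : ∀ x ∈ J, kapL f x = 0) (hdf : ∀ x ∈ J, kapL (fun m => d m * f m) x = 0) :
    kapL (fun c => kapL (fun e => kapL (fun a => d e * f (c * e * a)) X) Y) X =
      -kapL (fun a => d a * f a) X := by
  have h0 : ∀ c e a, d e * f (c * e * a) =
      d (c * (e * a)) * f (c * (e * a)) + (-(d c * f (c * (e * a))) + -(d a * f (c * e * a))) := by
    intro c e a
    rw [hd, hd, mul_assoc]
    ring
  have h1 : kapL (fun c => kapL (fun e => kapL (fun a => d (c * (e * a)) * f (c * (e * a))) X) Y)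
      X = kapL (fun a => d a * f a) X := by
    have h : ∀ c, kapL (fun e => kapL (fun a => d (c * (e * a)) * f (c * (e * a))) X) Y =
        d c * f c := fun c => by
      rw [kapL_mul (fun m => d (c * m) * f (c * m)), kapL_of_sub_one, mul_one]
      rw [kapL_left (fun m => d m * f m)]
      exact hdf _ (hJ.l c _ hYX)
    simp only [h]
  have h2 : kapL (fun c => kapL (fun e => kapL (fun a => -(d c * f (c * (e * a)))) X) Y)
      X = -kapL (fun a => d a * f a) X := by
    have h : ∀ c, kapL (fun e => kapL (fun a => -(d c * f (c * (e * a)))) X) Y =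
        -(d c * f c) := fun c => by
      rw [kapL_mul (fun m => -(d c * f (c * m))), kapL_of_sub_one, mul_one]
      rw [kapL_neg, kapL_mul_left, kapL_left f, hf _ (hJ.l c _ hYX), mul_zero, neg_zero]
    simp only [h]
    rw [kapL_neg]
  have h3 : kapL (fun c => kapL (fun e => kapL (fun a => -(d a * f (c * e * a))) X) Y)
      X = -kapL (fun a => d a * f a) X := by
    have h : ∀ c, kapL (fun e => kapL (fun a => -(d a * f (c * e * a))) X) Y =
        kapL (fun a => kapL (fun e => -(d a * f (c * e * a))) Y) X := fun c => by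
      rw [kapL_swap]
    simp only [h]
    rw [kapL_swap]
    have h' : ∀ a, kapL (fun c => kapL (fun e => -(d a * f (c * e * a))) Y) X =
        -(d a * f a) := fun a => by
      rw [kapL_mul (fun m => -(d a * f (m * a))), kapL_of_sub_one, one_mul]
      rw [kapL_neg, kapL_mul_left, kapL_right f, hf _ (hJ.r a _ hXY), mul_zero, neg_zero]
    simp only [h']
    rw [kapL_neg]
  simp only [h0, kapL_add]
  rw [h1, h2, h3]
  ring

theorem kap_mainI {M R : Type*} [Monoid M] [CommRing R] (d : M → R)
    (hd : ∀ a b, d (a * b) = d a + d b) (w : M → M → R)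
    (hw : ∀ a b c, w a (b * c) = w (a * b) c + w (c * a) b) (hw1 : ∀ a, w a 1 = 0)
    (J : AddSubgroup (MonoidAlgebra ℤ M)) (hJ : Mono J)
    (hJ1 : ∀ x ∈ J, ∀ b, kapL (fun m => w m b) x = 0)
    (hJ2 : ∀ x ∈ J, ∀ b, kapL (fun m => w b m) x = 0)
    (hJ3 : ∀ x ∈ J, ∀ b, kapL (fun m => d m * w m b) x = 0)
    (X Y : MonoidAlgebra ℤ M) (hXY : X * Y - 1 ∈ J) (hYX : Y * X - 1 ∈ J) :
    kapL (fun a => kapL (fun b => d b * w b a) Y) X =
      kapL (fun a => kapL (fun b => d a * w a b) Y) X := by
  -- the sum over four elements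
  have h0 : kapL (fun c => kapL (fun e => kapL (fun a => kapL (fun b =>
      d e * w (c * e) (a * b)) Y) X) Y) X = 0 := by
    have h : ∀ c e, kapL (fun a => kapL (fun b => d e * w (c * e) (a * b)) Y) X = 0 :=
      fun c e => by
        rw [kapL_mul (fun m => d e * w (c * e) m), kapL_of_sub_one, hw1, mul_zero]
        rw [kapL_mul_left, hJ2 _ hXY, mul_zero]
    simp only [h, kapL_zero]
  have h1 : ∀ c e a b, d e * w (c * e) (a * b) =
      d e * w (c * e * a) b + d e * w (b * c * e) a := by
    intro c e a b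
    rw [hw, mul_add, mul_assoc b c e]
  simp only [h1, kapL_add] at h0
  have h2 : kapL (fun c => kapL (fun e => kapL (fun a => kapL (fun b =>
      d e * w (c * e * a) b) Y) X) Y) X = -kapL (fun a => kapL (fun b => d a * w a b) Y) X := by
    have ha : ∀ c e, kapL (fun a => kapL (fun b => d e * w (c * e * a) b) Y) X =
        kapL (fun b => kapL (fun a => d e * w (c * e * a) b) X) Y := fun c e => by
      rw [kapL_swap]
    simp only [ha]
    have hb : ∀ c, kapL (fun e => kapL (fun b => kapL (fun a => d e * w (c * e * a) b) X) Y) Y =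
        kapL (fun b => kapL (fun e => kapL (fun a => d e * w (c * e * a) b) X) Y) Y := fun c => by
      rw [kapL_swap]
    simp only [hb]
    rw [kapL_swap]
    have hc : ∀ b, kapL (fun c => kapL (fun e => kapL (fun a => d e * w (c * e * a) b) X) Y) X =
        -kapL (fun a => d a * w a b) X := fun b => kap_derI d hd J hJ X Y hXY hYX (fun m => w m b)
          (fun x hx => hJ1 x hx b) (fun x hx => hJ3 x hx b)
    simp only [hc]
    rw [kapL_neg, kapL_swap]
  have h3 : kapL (fun c => kapL (fun e => kapL (fun a => kapL (fun b =>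
      d e * w (b * c * e) a) Y) X) Y) X = kapL (fun a => kapL (fun b => d b * w b a) Y) X := by
    rw [kapL_swap]
    have ha : ∀ e, kapL (fun c => kapL (fun a => kapL (fun b => d e * w (b * c * e) a) Y) X) X =
        kapL (fun a => kapL (fun c => kapL (fun b => d e * w (b * c * e) a) Y) X) X :=
      fun e => by rw [kapL_swap]
    simp only [ha]
    have hb : ∀ e a, kapL (fun c => kapL (fun b => d e * w (b * c * e) a) Y) X = d e * w e a :=
      fun e a => by
        rw [kapL_swap, kapL_mul (fun m => d e * w (m * e) a), kapL_of_sub_one, one_mul]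
        rw [kapL_mul_left, kapL_right (fun m => w m a), hJ1 _ (hJ.r e _ hYX), mul_zero]
    simp only [hb]
    rw [kapL_swap]
  rw [h2, h3] at h0
  rw [neg_add_eq_zero] at h0
  exact h0.symm

/-- the symmetry lemma modulo an ideal -/
theorem t_IKAP (𝒮 : Type u) (Λ : Type) [Monoid 𝒮] [CommRing Λ] (W : 𝒮 → 𝒮 → Λ) (hW : IsWtA W)
    (deg : 𝒮 →* Multiplicative Λ)
    (hdeg : ∀ a b, W a b ≠ 0 → deg (a * b) = Multiplicative.ofAdd 1)
    (J : AddSubgroup (MonoidAlgebra ℤ 𝒮)) (hJ : Mono J)
    (hJ1 : ∀ x ∈ J, ∀ b, kapL (fun m => W m b) x = 0)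
    (hJ2 : ∀ x ∈ J, ∀ b, kapL (fun m => W b m) x = 0)
    (hJ3 : ∀ x ∈ J, ∀ b, kapL (fun m => (deg m).toAdd * W m b) x = 0)
    (X Y : MonoidAlgebra ℤ 𝒮) (hXY : X * Y - 1 ∈ J) (hYX : Y * X - 1 ∈ J) :
    bil (fun a b => W 1 (a * b) * (deg b).toAdd) X Y = bil W X Y := by
  have hd : ∀ a b : 𝒮, (deg (a * b)).toAdd = (deg a).toAdd + (deg b).toAdd := fun a b => by
    rw [map_mul]; rfl
  have hw : ∀ a b c : 𝒮, W a (b * c) = W (a * b) c + W (c * a) b := hW
  have hw1 : ∀ a, W a 1 = 0 := by
    intro a
    have h := hw a 1 1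
    rw [mul_one, mul_one, one_mul] at h
    exact (left_eq_add.1 h)
  have hk := kap_mainI (fun a : 𝒮 => (deg a).toAdd) hd (fun a b => W a b) hw hw1 J hJ hJ1 hJ2 hJ3
    X Y hXY hYX
  have h1 : ∀ a b : 𝒮, W 1 (a * b) * (deg b).toAdd =
      (deg b).toAdd * W a b + (deg b).toAdd * W b a := by
    intro a b
    rw [hw, one_mul, mul_one]
    ring
  have h2 : ∀ a b : 𝒮, W a b = (deg a).toAdd * W a b + (deg b).toAdd * W a b := by
    intro a b
    by_cases h : W a b = 0
    · rw [h, mul_zero, mul_zero, add_zero]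
    · have h3 := hdeg a b h
      have h4 : (deg a).toAdd + (deg b).toAdd = 1 := by
        rw [← hd, h3]; rfl
      rw [← add_mul, h4, one_mul]
  rw [bil_kapL, bil_kapL]
  have h6 : kapL (fun a => kapL (fun b => W 1 (a * b) * (deg b).toAdd) Y) X =
      kapL (fun a => kapL (fun b => (deg b).toAdd * W a b) Y) X +
        kapL (fun a => kapL (fun b => (deg b).toAdd * W b a) Y) X := by
    simp only [h1, kapL_add]
  have h7 : kapL (fun a => kapL (fun b => W a b) Y) X =
      kapL (fun a => kapL (fun b => (deg a).toAdd * W a b) Y) X +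
        kapL (fun a => kapL (fun b => (deg b).toAdd * W a b) Y) X := by
    rw [← kapL_add]
    refine DFunLike.congr_fun (congrArg kapL ?_) X
    funext a
    rw [← kapL_add]
    refine DFunLike.congr_fun (congrArg kapL ?_) Y
    funext b
    exact h2 a b
  rw [h6, h7, hk, add_comm]

end Pool.Agent.SUR
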