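import Pool.Agent.SUR.St

/-!
# NAT: naturality of the integral logarithm for homomorphisms of monoids
-/

set_option autoImplicit false

universe u

namespace Pool.Agent.SUR

open Pool.Agent.WhK

section Nat

theorem nat_coeff {X Y : Type*} [DecidableEq Y] (f : X → Y) (v : MonoidAlgebra ℤ X)
    (s : Finset X) (hs : v.coeff.support ⊆ s) (b : Y) :
    (MonoidAlgebra.mapDomain f v).coeff b = ∑ a ∈ s, if f a = b then v.coeff a else 0 := by
  have h1 : (MonoidAlgebra.mapDomain f v).coeff b = Finsupp.mapDomain f v.coeff b := rfl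
  rw [h1, Finsupp.mapDomain, Finsupp.sum_apply, Finsupp.sum]
  rw [← Finset.sum_subset hs]
  · refine Finset.sum_congr rfl fun a _ => ?_
    rw [Finsupp.single_apply]
  · intro a _ ha
    rw [Finsupp.notMem_support_iff.1 ha, ite_self]

theorem nat_extPow {X Y : Type*} (I : Type*) [Fintype I] (f : X → Y) (v : MonoidAlgebra ℤ X) :
    extPow I (MonoidAlgebra.mapDomain f v) =
      MonoidAlgebra.mapDomain (fun g : I → X => fun i => f (g i)) (extPow I v) := by
  classical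
  ext g
  have hsub : (extPow I v).coeff.support ⊆ Fintype.piFinset fun _ : I => v.coeff.support := by
    intro x hx
    rw [Finsupp.mem_support_iff, coeff_extPow] at hx
    exact extPow_mem I v x hx
  rw [coeff_extPow, nat_coeff _ _ _ hsub,
    Finset.prod_congr rfl fun i _ => nat_coeff f v v.coeff.support (Finset.Subset.refl _) (g i),
    Finset.prod_univ_sum]
  refine Finset.sum_congr rfl fun x _ => ?_
  rw [Finset.prod_ite_zero, coeff_extPow]
  congr 1
  rw [eq_iff_iff, funext_iff]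
  simp

variable {𝔐 𝔐' K K' : Type*} [Monoid 𝔐] [Monoid 𝔐']

theorem nat_Wof (F : 𝔐 →* 𝔐') (p m : ℕ) [Fact p.Prime] (v : MonoidAlgebra ℤ 𝔐) :
    Wof p m (MonoidAlgebra.mapDomain F v) =
      MonoidAlgebra.mapDomain (fun g : ZMod (p ^ (m + 1)) → 𝔐 => fun i => F (g i))
        (Wof p m v) := by
  rw [Wof_eq, Wof_eq, nat_extPow, mapDomain_comp', mapDomain_comp']
  rfl

/-- entrywise extension -/
def natHom (N : ℕ) (F : 𝔐 →* 𝔐') : (ZMod N → 𝔐) →* (ZMod N → 𝔐') where
  toFun g i := F (g i)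
  map_one' := by funext i; exact map_one F
  map_mul' g h := by funext i; exact map_mul F _ _

theorem nat_rho {N : ℕ} (F : 𝔐 →* 𝔐') (i : ZMod N) (x : MonoidAlgebra ℤ (ZMod N → 𝔐)) :
    rho i (MonoidAlgebra.mapDomain (natHom N F) x) =
      MonoidAlgebra.mapDomain (natHom N F) (rho i x) := by
  rw [rho_eq, rho_eq, mapDomain_comp', mapDomain_comp']
  rfl

theorem nat_Tmod {N : ℕ} (F : 𝔐 →* 𝔐') (cl : 𝔐 → K) (cl' : 𝔐' → K') (κ : K → K')
    (hκ : ∀ a, cl' (F a) = κ (cl a)) (x : MonoidAlgebra ℤ (ZMod N → 𝔐)) :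
    Tmod cl' (MonoidAlgebra.mapDomain (natHom N F) x) = Finsupp.mapDomain κ (Tmod cl x) := by
  have h1 : Tint cl' (MonoidAlgebra.mapDomain (natHom N F) x) =
      Finsupp.mapDomain κ (Tint cl x) := by
    rw [Tint_apply, Tint_apply, ← Finsupp.mapDomain_comp]
    show Finsupp.mapDomain _ (Finsupp.mapDomain _ x.coeff) = _
    rw [← Finsupp.mapDomain_comp]
    congr 1
    funext g
    simp only [Function.comp_apply]
    rw [← hκ]
    congr 1
    unfold prodSeq
    rw [map_list_prod, List.map_map]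
    rfl
  rw [Tmod_apply, Tmod_apply, h1]
  exact (Finsupp.mapDomain_mapRange κ (Tint cl x) (Int.castAddHom (ZMod N))
    (map_zero _) (map_add _)).symm

end Nat

theorem t_NAT : s_NAT.{u} := by
  intro 𝔐 𝔐' K K' _ _ cl hcl cl' hcl' F κ hκ p m _ hp w
  set z := zOf p m (w : MonoidAlgebra ℤ 𝔐) with hz
  set wi : MonoidAlgebra ℤ 𝔐 := ((w⁻¹ : (MonoidAlgebra ℤ 𝔐)ˣ) : MonoidAlgebra ℤ 𝔐) with hwi
  set E := MonoidAlgebra.mapDomainRingHom ℤ (natHom (p ^ (m + 1)) F) with hE
  have e1 : ∀ v : MonoidAlgebra ℤ 𝔐,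
      extPow (ZMod (p ^ (m + 1))) (MonoidAlgebra.mapDomain F v) =
        E (extPow (ZMod (p ^ (m + 1))) v) := fun v => nat_extPow _ F v
  have e2 : ∀ v : MonoidAlgebra ℤ 𝔐, Wof p m (MonoidAlgebra.mapDomain F v) = E (Wof p m v) :=
    fun v => nat_Wof F p m v
  have hzz : ∑ i, rho i (E z) = extPow (ZMod (p ^ (m + 1)))
      (Units.map (MonoidAlgebra.mapDomainRingHom ℤ F).toMonoidHom w).val -
      Wof p m (Units.map (MonoidAlgebra.mapDomainRingHom ℤ F).toMonoidHom w).val := by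
    show _ = extPow (ZMod (p ^ (m + 1))) (MonoidAlgebra.mapDomain F (w : MonoidAlgebra ℤ 𝔐)) -
      Wof p m (MonoidAlgebra.mapDomain F (w : MonoidAlgebra ℤ 𝔐))
    rw [e1, e2, ← map_sub, ← zOf_spec, map_sum]
    exact Finset.sum_congr rfl fun i _ => nat_rho F i z
  rw [gamVal_eq hp _ hzz]
  have hinv : ((Units.map (MonoidAlgebra.mapDomainRingHom ℤ F).toMonoidHom w)⁻¹ :
      (MonoidAlgebra ℤ 𝔐')ˣ).val = MonoidAlgebra.mapDomain F wi := rfl
  rw [hinv, e1, e2, gamVal, ← hz, ← hwi]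
  unfold CycData.gam
  have hT : ∀ x, (cycData (p ^ (m + 1)) cl' hcl').T (E x) =
      Finsupp.mapDomain κ ((cycData (p ^ (m + 1)) cl hcl).T x) := fun x =>
    nat_Tmod F cl cl' κ hκ x
  have hr : ∀ j x, (cycData (p ^ (m + 1)) cl' hcl').ρ j (E x) =
      E ((cycData (p ^ (m + 1)) cl hcl).ρ j x) := fun j x => nat_rho F j x
  have h3 : ∀ j : ZMod (p ^ (m + 1)), (1 - j) • (cycData (p ^ (m + 1)) cl' hcl').T
      (E (extPow (ZMod (p ^ (m + 1))) wi) * E z * E (Wof p m wi) *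
        (cycData (p ^ (m + 1)) cl' hcl').ρ j (E z)) =
      Finsupp.mapDomain κ ((1 - j) • (cycData (p ^ (m + 1)) cl hcl).T
        (extPow (ZMod (p ^ (m + 1))) wi * z * Wof p m wi *
          (cycData (p ^ (m + 1)) cl hcl).ρ j z)) := by
    intro j
    rw [hr, ← map_mul, ← map_mul, ← map_mul, hT, Finsupp.mapDomain_smul]
  rw [Finset.sum_congr rfl fun j _ => h3 j, ← map_mul, hT, Finsupp.mapDomain_add]
  congr 1
  exact (map_sum (Finsupp.mapDomain.addMonoidHom κ) _ _).symm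

end Pool.Agent.SUR
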