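import Pool.Agent.SUR.StA
import Pool.Agent.SUR.AKAP
import Pool.Agent.SUR.NAT

/-!
# The main identity modulo an ideal: words, ideals of the rings of sequences

* `Wd 𝔐`: words in one variable over a monoid.
* `VanW W x`: `x` is annihilated by all functions `a ↦ W (u a) (u' a)`, `u`, `u'` words.
* `II ι S`: the subgroup of `ℤ[ι → 𝔐]` spanned by the elements `∑ x_a (i ↦ u i a)`, `x ∈ S`, `u i` words.
-/

set_option autoImplicit false

namespace Pool.Agent.SUR

open Pool.Agent.WhK Finset

/-- words in one variable: the functions `a ↦ c₀ a c₁ a ⋯ a c_r`, `r ≥ 0` -/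
def Wd (𝔐 : Type*) [Monoid 𝔐] : Submonoid (𝔐 → 𝔐) :=
  Submonoid.closure (Set.range (fun (c : 𝔐) (_ : 𝔐) => c) ∪ {fun a => a})

section Words

variable {𝔐 : Type*} [Monoid 𝔐]

theorem Wd.const_mem (c : 𝔐) : (fun _ : 𝔐 => c) ∈ Wd 𝔐 :=
  Submonoid.subset_closure (Or.inl ⟨c, rfl⟩)

theorem Wd.id_mem : (fun a : 𝔐 => a) ∈ Wd 𝔐 :=
  Submonoid.subset_closure (Or.inr rfl)

theorem Wd.mul_mem' {u v : 𝔐 → 𝔐} (hu : u ∈ Wd 𝔐) (hv : v ∈ Wd 𝔐) :
    (fun a => u a * v a) ∈ Wd 𝔐 := (Wd 𝔐).mul_mem hu hv

theorem Wd.pow_mem' {u : 𝔐 → 𝔐} (hu : u ∈ Wd 𝔐) (n : ℕ) : (fun a => u a ^ n) ∈ Wd 𝔐 :=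
  (Wd 𝔐).pow_mem hu n

theorem Wd.list_prod {ι : Type*} (l : List ι) (u : ι → 𝔐 → 𝔐) (hu : ∀ i, u i ∈ Wd 𝔐) :
    (fun a => (l.map fun i => u i a).prod) ∈ Wd 𝔐 := by
  induction l with
  | nil => exact Wd.const_mem 1
  | cons i l ih =>
    have h : (fun a => ((i :: l).map fun i => u i a).prod) =
        fun a => u i a * (l.map fun i => u i a).prod := by
      funext a
      rw [List.map_cons, List.prod_cons]
    rw [h]
    exact Wd.mul_mem' (hu i) ih

theorem Wd.Pr_mem {N : ℕ} (r : ZMod N) (u : ZMod N → 𝔐 → 𝔐) (hu : ∀ i, u i ∈ Wd 𝔐) :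
    (fun a => Pr r (fun i => u i a)) ∈ Wd 𝔐 :=
  Wd.list_prod (List.range (N - 1)) (fun k : ℕ => u (r + 1 + (k : ZMod N))) fun _ => hu _

/-- `x` is annihilated by all functions `a ↦ W (u a) (u' a)`, `u` and `u'` words -/
def VanW {A : Type*} [AddCommGroup A] (W : 𝔐 → 𝔐 → A) (x : MonoidAlgebra ℤ 𝔐) : Prop :=
  ∀ u ∈ Wd 𝔐, ∀ u' ∈ Wd 𝔐, kapL (fun a => W (u a) (u' a)) x = 0

/-- the image of `x` under a sequence of functions -/
noncomputable def Eg {ι : Type*} (u : ι → 𝔐 → 𝔐) (x : MonoidAlgebra ℤ 𝔐) :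
    MonoidAlgebra ℤ (ι → 𝔐) :=
  MonoidAlgebra.mapDomain (fun a i => u i a) x

/-- the ideal of `ℤ[ι → 𝔐]` attached to `S` -/
noncomputable def II (ι : Type*) (S : Set (MonoidAlgebra ℤ 𝔐)) :
    AddSubgroup (MonoidAlgebra ℤ (ι → 𝔐)) :=
  AddSubgroup.closure {e | ∃ x ∈ S, ∃ u : ι → 𝔐 → 𝔐, (∀ i, u i ∈ Wd 𝔐) ∧ e = Eg u x}

theorem Eg_mem {ι : Type*} {S : Set (MonoidAlgebra ℤ 𝔐)} {x : MonoidAlgebra ℤ 𝔐} (hx : x ∈ S)
    (u : ι → 𝔐 → 𝔐) (hu : ∀ i, u i ∈ Wd 𝔐) : Eg u x ∈ II ι S :=
  AddSubgroup.subset_closure ⟨x, hx, u, hu, rfl⟩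

theorem Eg_add {ι : Type*} (u : ι → 𝔐 → 𝔐) (x y : MonoidAlgebra ℤ 𝔐) :
    Eg u (x + y) = Eg u x + Eg u y := MonoidAlgebra.mapDomain_add ..

theorem Eg_zero {ι : Type*} (u : ι → 𝔐 → 𝔐) : Eg u (0 : MonoidAlgebra ℤ 𝔐) = 0 :=
  MonoidAlgebra.mapDomain_zero ..

theorem Eg_single {ι : Type*} (u : ι → 𝔐 → 𝔐) (a : 𝔐) (r : ℤ) :
    Eg u (MonoidAlgebra.single a r) = MonoidAlgebra.single (fun i => u i a) r :=
  MonoidAlgebra.mapDomain_single

theorem single_eq_zsmul {X : Type*} (a : X) (r : ℤ) :
    (MonoidAlgebra.single a r : MonoidAlgebra ℤ X) = r • MonoidAlgebra.single a 1 := by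
  rw [MonoidAlgebra.smul_single, smul_eq_mul, mul_one]

theorem single_mul_Eg {ι : Type*} (u : ι → 𝔐 → 𝔐) (c : ι → 𝔐) (x : MonoidAlgebra ℤ 𝔐) :
    MonoidAlgebra.single c 1 * Eg u x = Eg (fun i a => c i * u i a) x := by
  induction x using MonoidAlgebra.induction_linear with
  | zero => rw [Eg_zero, Eg_zero, mul_zero]
  | add x y hx hy => rw [Eg_add, Eg_add, mul_add, hx, hy]
  | single a r =>
    rw [Eg_single, Eg_single, MonoidAlgebra.single_mul_single, one_mul]
    rfl

theorem Eg_mul_single {ι : Type*} (u : ι → 𝔐 → 𝔐) (c : ι → 𝔐) (x : MonoidAlgebra ℤ 𝔐) :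
    Eg u x * MonoidAlgebra.single c 1 = Eg (fun i a => u i a * c i) x := by
  induction x using MonoidAlgebra.induction_linear with
  | zero => rw [Eg_zero, Eg_zero, zero_mul]
  | add x y hx hy => rw [Eg_add, Eg_add, add_mul, hx, hy]
  | single a r =>
    rw [Eg_single, Eg_single, MonoidAlgebra.single_mul_single, mul_one]
    rfl

/-- an additive subgroup stable under multiplication by monomials is an ideal -/
theorem mem_mul_left {X : Type*} [Monoid X] (J : AddSubgroup (MonoidAlgebra ℤ X))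
    (h : ∀ c, ∀ e ∈ J, MonoidAlgebra.single c 1 * e ∈ J) (b : MonoidAlgebra ℤ X)
    {e : MonoidAlgebra ℤ X} (he : e ∈ J) : b * e ∈ J := by
  induction b using MonoidAlgebra.induction_linear with
  | zero => rw [zero_mul]; exact J.zero_mem
  | add x y hx hy => rw [add_mul]; exact J.add_mem hx hy
  | single c r =>
    rw [single_eq_zsmul c r, smul_mul_assoc]
    exact J.zsmul_mem (h c e he) r

theorem mem_mul_right {X : Type*} [Monoid X] (J : AddSubgroup (MonoidAlgebra ℤ X))
    (h : ∀ c, ∀ e ∈ J, e * MonoidAlgebra.single c 1 ∈ J) (b : MonoidAlgebra ℤ X)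
    {e : MonoidAlgebra ℤ X} (he : e ∈ J) : e * b ∈ J := by
  induction b using MonoidAlgebra.induction_linear with
  | zero => rw [mul_zero]; exact J.zero_mem
  | add x y hx hy => rw [mul_add]; exact J.add_mem hx hy
  | single c r =>
    rw [single_eq_zsmul c r, mul_smul_comm]
    exact J.zsmul_mem (h c e he) r

theorem II_single_mul {ι : Type*} {S : Set (MonoidAlgebra ℤ 𝔐)} (c : ι → 𝔐)
    (e : MonoidAlgebra ℤ (ι → 𝔐)) (he : e ∈ II ι S) :
    MonoidAlgebra.single c 1 * e ∈ II ι S := by
  induction he using AddSubgroup.closure_induction with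
  | mem e he =>
    obtain ⟨x, hx, u, hu, rfl⟩ := he
    rw [single_mul_Eg]
    exact Eg_mem hx _ fun i => Wd.mul_mem' (Wd.const_mem _) (hu i)
  | zero => rw [mul_zero]; exact (II ι S).zero_mem
  | add x y _ _ hx hy => rw [mul_add]; exact (II ι S).add_mem hx hy
  | neg x _ hx => rw [mul_neg]; exact (II ι S).neg_mem hx

theorem II_mul_single {ι : Type*} {S : Set (MonoidAlgebra ℤ 𝔐)} (c : ι → 𝔐)
    (e : MonoidAlgebra ℤ (ι → 𝔐)) (he : e ∈ II ι S) :
    e * MonoidAlgebra.single c 1 ∈ II ι S := by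
  induction he using AddSubgroup.closure_induction with
  | mem e he =>
    obtain ⟨x, hx, u, hu, rfl⟩ := he
    rw [Eg_mul_single]
    exact Eg_mem hx _ fun i => Wd.mul_mem' (hu i) (Wd.const_mem _)
  | zero => rw [zero_mul]; exact (II ι S).zero_mem
  | add x y _ _ hx hy => rw [add_mul]; exact (II ι S).add_mem hx hy
  | neg x _ hx => rw [neg_mul]; exact (II ι S).neg_mem hx

theorem II_mul_left {ι : Type*} {S : Set (MonoidAlgebra ℤ 𝔐)} (b : MonoidAlgebra ℤ (ι → 𝔐))
    {e : MonoidAlgebra ℤ (ι → 𝔐)} (he : e ∈ II ι S) : b * e ∈ II ι S :=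
  mem_mul_left _ II_single_mul b he

theorem II_mul_right {ι : Type*} {S : Set (MonoidAlgebra ℤ 𝔐)} (b : MonoidAlgebra ℤ (ι → 𝔐))
    {e : MonoidAlgebra ℤ (ι → 𝔐)} (he : e ∈ II ι S) : e * b ∈ II ι S :=
  mem_mul_right _ II_mul_single b he

/-- reindexing -/
theorem II_comp {ι κ : Type*} {S : Set (MonoidAlgebra ℤ 𝔐)} (f : κ → ι)
    {e : MonoidAlgebra ℤ (ι → 𝔐)} (he : e ∈ II ι S) :
    MonoidAlgebra.mapDomain (fun (g : ι → 𝔐) (k : κ) => g (f k)) e ∈ II κ S := by
  induction he using AddSubgroup.closure_induction with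
  | mem e he =>
    obtain ⟨x, hx, u, hu, rfl⟩ := he
    have h : MonoidAlgebra.mapDomain (fun (g : ι → 𝔐) (k : κ) => g (f k)) (Eg u x) =
        Eg (fun k => u (f k)) x := mapDomain_comp' _ _ _
    rw [h]
    exact Eg_mem hx _ fun k => hu _
  | zero => rw [MonoidAlgebra.mapDomain_zero]; exact (II κ S).zero_mem
  | add x y _ _ hx hy => rw [MonoidAlgebra.mapDomain_add]; exact (II κ S).add_mem hx hy
  | neg x _ hx =>
    have h : MonoidAlgebra.mapDomain (fun (g : ι → 𝔐) (k : κ) => g (f k)) (-x) =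
        -MonoidAlgebra.mapDomain (fun (g : ι → 𝔐) (k : κ) => g (f k)) x := by
      rw [eq_neg_iff_add_eq_zero, ← MonoidAlgebra.mapDomain_add, neg_add_cancel,
        MonoidAlgebra.mapDomain_zero]
    rw [h]
    exact (II κ S).neg_mem hx

theorem II_rho {N : ℕ} {S : Set (MonoidAlgebra ℤ 𝔐)} (i : ZMod N)
    {e : MonoidAlgebra ℤ (ZMod N → 𝔐)} (he : e ∈ II (ZMod N) S) : rho i e ∈ II (ZMod N) S :=
  II_comp (fun j => j + i) he

/-- a function which annihilates the generators annihilates the ideal -/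
theorem kapL_II {ι A : Type*} [AddCommGroup A] {S : Set (MonoidAlgebra ℤ 𝔐)}
    (T : (ι → 𝔐) → A) (hT : ∀ x ∈ S, ∀ u : ι → 𝔐 → 𝔐, (∀ i, u i ∈ Wd 𝔐) →
      kapL (fun a => T (fun i => u i a)) x = 0)
    {e : MonoidAlgebra ℤ (ι → 𝔐)} (he : e ∈ II ι S) : kapL T e = 0 := by
  induction he using AddSubgroup.closure_induction with
  | mem e he =>
    obtain ⟨x, hx, u, hu, rfl⟩ := he
    rw [← hT x hx u hu]
    generalize x = y
    induction y using MonoidAlgebra.induction_linear with
    | zero => rw [Eg_zero, map_zero, map_zero]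
    | add x y hx hy => rw [Eg_add, map_add, map_add, hx, hy]
    | single a r => rw [Eg_single, kapL_single, kapL_single]
  | zero => rw [map_zero]
  | add x y _ _ hx hy => rw [map_add, hx, hy, add_zero]
  | neg x _ hx => rw [map_neg, hx, neg_zero]

end Words

/-! ### External powers of families -/

section Fam

variable {𝔐 : Type*} {ι : Type*} [Fintype ι]

open Classical in
/-- external product of a family of elements of a monoid ring -/
noncomputable def extFam (u : ι → MonoidAlgebra ℤ 𝔐) : MonoidAlgebra ℤ (ι → 𝔐) :=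
  .ofCoeff (Finsupp.onFinset (Fintype.piFinset fun i => (u i).coeff.support)
      (fun g => ∏ i, (u i).coeff (g i)) (by
        intro g hg
        rw [Fintype.mem_piFinset]
        intro i
        rw [Finsupp.mem_support_iff]
        intro h0
        exact hg (Finset.prod_eq_zero (Finset.mem_univ i) h0)))

theorem coeff_extFam (u : ι → MonoidAlgebra ℤ 𝔐) (g : ι → 𝔐) :
    (extFam u).coeff g = ∏ i, (u i).coeff (g i) := rfl

theorem extFam_const (v : MonoidAlgebra ℤ 𝔐) : extFam (fun _ : ι => v) = extPow ι v := by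
  ext g
  rfl

variable [DecidableEq ι]

theorem coeff_extFam_update (u : ι → MonoidAlgebra ℤ 𝔐) (i : ι) (x : MonoidAlgebra ℤ 𝔐)
    (g : ι → 𝔐) : (extFam (Function.update u i x)).coeff g =
      x.coeff (g i) * ∏ j ∈ Finset.univ.erase i, (u j).coeff (g j) := by
  rw [coeff_extFam, ← Finset.mul_prod_erase _ _ (Finset.mem_univ i), Function.update_self]
  congr 1
  refine Finset.prod_congr rfl fun j hj => ?_
  rw [Function.update_of_ne (Finset.ne_of_mem_erase hj)]

theorem extFam_add (u : ι → MonoidAlgebra ℤ 𝔐) (i : ι) (x y : MonoidAlgebra ℤ 𝔐) :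
    extFam (Function.update u i (x + y)) =
      extFam (Function.update u i x) + extFam (Function.update u i y) := by
  ext g
  rw [MonoidAlgebra.coeff_add, Finsupp.add_apply, coeff_extFam_update, coeff_extFam_update,
    coeff_extFam_update, MonoidAlgebra.coeff_add, Finsupp.add_apply, add_mul]

theorem extFam_zero (u : ι → MonoidAlgebra ℤ 𝔐) (i : ι) :
    extFam (Function.update u i 0) = 0 := by
  ext g
  rw [coeff_extFam_update, MonoidAlgebra.coeff_zero, Finsupp.zero_apply, zero_mul,
    MonoidAlgebra.coeff_zero, Finsupp.zero_apply]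

theorem extFam_zsmul (u : ι → MonoidAlgebra ℤ 𝔐) (i : ι) (r : ℤ) (x : MonoidAlgebra ℤ 𝔐) :
    extFam (Function.update u i (r • x)) = r • extFam (Function.update u i x) := by
  ext g
  rw [coeff_extFam_update, MonoidAlgebra.coeff_smul, MonoidAlgebra.coeff_smul,
    Finsupp.smul_apply, Finsupp.smul_apply, coeff_extFam_update, smul_eq_mul, smul_eq_mul,
    mul_assoc]

theorem extFam_single (c : ι → 𝔐) :
    extFam (fun i => (MonoidAlgebra.single (c i) 1 : MonoidAlgebra ℤ 𝔐)) =
      MonoidAlgebra.single c 1 := by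
  classical
  ext g
  rw [coeff_extFam]
  simp only [MonoidAlgebra.coeff_single, Finsupp.single_apply]
  rw [Finset.prod_ite_zero]
  simp only [Finset.prod_const_one, Finset.mem_univ, forall_const]
  congr 1
  rw [eq_iff_iff, funext_iff]

end Fam

section Ext

variable {𝔐 : Type*} [Monoid 𝔐] {ι : Type*} [Fintype ι] [DecidableEq ι]
  {S : Set (MonoidAlgebra ℤ 𝔐)}

/-- one entry in `S`, all other entries monomials -/
theorem extFam_mem_single (i : ι) (c : ι → 𝔐) (x : MonoidAlgebra ℤ 𝔐) :
    extFam (Function.update (fun j => (MonoidAlgebra.single (c j) 1 : MonoidAlgebra ℤ 𝔐)) i x) =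
      Eg (fun j a => if j = i then a else c j) x := by
  induction x using MonoidAlgebra.induction_linear with
  | zero => rw [extFam_zero, Eg_zero]
  | add x y hx hy => rw [extFam_add, Eg_add, hx, hy]
  | single a r =>
    rw [single_eq_zsmul a r, extFam_zsmul, ← single_eq_zsmul a r, Eg_single,
      single_eq_zsmul _ r]
    congr 1
    rw [← extFam_single]
    congr 1
    funext j
    by_cases h : j = i
    · subst h
      rw [Function.update_self, if_pos rfl]
    · rw [Function.update_of_ne h, if_neg h]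

theorem extFam_mem_aux (i : ι) {x : MonoidAlgebra ℤ 𝔐} (hx : x ∈ S) (T : Finset ι) :
    ∀ u : ι → MonoidAlgebra ℤ 𝔐, (∀ j ∉ T, j ≠ i → ∃ c, u j = MonoidAlgebra.single c 1) →
      extFam (Function.update u i x) ∈ II ι S := by
  induction T using Finset.induction_on with
  | empty =>
    intro u hu
    have h : ∀ j, ∃ c, j ≠ i → u j = MonoidAlgebra.single c 1 := by
      intro j
      by_cases hj : j = i
      · exact ⟨1, fun h => absurd hj h⟩
      · obtain ⟨c, hc⟩ := hu j (Finset.notMem_empty j) hj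
        exact ⟨c, fun _ => hc⟩
    choose c hc using h
    have h1 : Function.update u i x =
        Function.update (fun j => (MonoidAlgebra.single (c j) 1 : MonoidAlgebra ℤ 𝔐)) i x := by
      funext j
      by_cases hj : j = i
      · subst hj
        rw [Function.update_self, Function.update_self]
      · rw [Function.update_of_ne hj, Function.update_of_ne hj, hc j hj]
    rw [h1, extFam_mem_single]
    refine Eg_mem hx _ fun j => ?_
    by_cases hj : j = i
    · simp only [if_pos hj]
      exact Wd.id_mem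
    · simp only [if_neg hj]
      exact Wd.const_mem _
  | insert t T ht ih =>
    intro u hu
    by_cases hti : t = i
    · refine ih u fun j hj hji => hu j ?_ hji
      rw [Finset.mem_insert, not_or]
      exact ⟨fun h => hji (h.trans hti), hj⟩
    · have key : ∀ y : MonoidAlgebra ℤ 𝔐,
          extFam (Function.update (Function.update u t y) i x) ∈ II ι S := by
        intro y
        rw [Function.update_comm hti]
        induction y using MonoidAlgebra.induction_linear with
        | zero => rw [extFam_zero]; exact (II ι S).zero_mem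
        | add y z hy hz => rw [extFam_add]; exact (II ι S).add_mem hy hz
        | single c r =>
          rw [single_eq_zsmul c r, extFam_zsmul]
          refine (II ι S).zsmul_mem ?_ r
          rw [← Function.update_comm hti]
          refine ih _ fun j hj hji => ?_
          by_cases hjt : j = t
          · rw [hjt, Function.update_self]
            exact ⟨c, rfl⟩
          · rw [Function.update_of_ne hjt]
            refine hu j ?_ hji
            rw [Finset.mem_insert, not_or]
            exact ⟨hjt, hj⟩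
      have h := key (u t)
      rwa [Function.update_eq_self] at h

theorem extFam_mem (u : ι → MonoidAlgebra ℤ 𝔐) (i : ι) {x : MonoidAlgebra ℤ 𝔐} (hx : x ∈ S) :
    extFam (Function.update u i x) ∈ II ι S :=
  extFam_mem_aux i hx Finset.univ u fun j hj => absurd (Finset.mem_univ j) hj

theorem extPow_sub_one_mem {v : MonoidAlgebra ℤ 𝔐} (hv : v - 1 ∈ S) :
    extPow ι v - 1 ∈ II ι S := by
  have key : ∀ T : Finset ι, extFam (fun j => if j ∈ T then v else 1) - 1 ∈ II ι S := by
    intro T
    induction T using Finset.induction_on with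
    | empty =>
      have h : extFam (fun j : ι => if j ∈ (∅ : Finset ι) then v else 1) = 1 := by
        have h1 : (fun j : ι => if j ∈ (∅ : Finset ι) then v else 1) =
            fun j => (MonoidAlgebra.single ((1 : ι → 𝔐) j) 1 : MonoidAlgebra ℤ 𝔐) := by
          funext j
          rw [if_neg (Finset.notMem_empty j)]
          rfl
        rw [h1, extFam_single]
        rfl
      rw [h, sub_self]
      exact (II ι S).zero_mem
    | insert t T ht ih =>
      have h1 : (fun j => if j ∈ insert t T then v else 1) =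
          Function.update (fun j => if j ∈ T then v else 1) t (1 + (v - 1)) := by
        funext j
        by_cases hj : j = t
        · rw [hj, Function.update_self, if_pos (Finset.mem_insert_self t T), add_sub_cancel]
        · rw [Function.update_of_ne hj]
          by_cases hjT : j ∈ T
          · rw [if_pos hjT, if_pos (Finset.mem_insert_of_mem hjT)]
          · rw [if_neg hjT, if_neg]
            rw [Finset.mem_insert, not_or]
            exact ⟨hj, hjT⟩
      have h2 : Function.update (fun j => if j ∈ T then v else 1) t 1 =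
          fun j => if j ∈ T then v else 1 := by
        funext j
        by_cases hj : j = t
        · rw [hj, Function.update_self, if_neg ht]
        · rw [Function.update_of_ne hj]
      rw [h1, extFam_add, h2, add_sub_right_comm]
      exact (II ι S).add_mem ih (extFam_mem _ t hv)
  have h := key Finset.univ
  simp only [Finset.mem_univ, if_true] at h
  rwa [extFam_const] at h

theorem Wof_sub_one_mem (p m : ℕ) [Fact p.Prime] {v : MonoidAlgebra ℤ 𝔐} (hv : v - 1 ∈ S) :
    Wof p m v - 1 ∈ II (ZMod (p ^ (m + 1))) S := by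
  have h1 : extPow (ZMod (p ^ m)) v - 1 ∈ II (ZMod (p ^ m)) S := extPow_sub_one_mem hv
  have h2 := II_comp (fun i : ZMod (p ^ (m + 1)) => ZMod.castHom (pdvd p m) (ZMod (p ^ m)) i) h1
  have h3 : MonoidAlgebra.mapDomain (fun (g : ZMod (p ^ m) → 𝔐) (k : ZMod (p ^ (m + 1))) =>
      g (ZMod.castHom (pdvd p m) (ZMod (p ^ m)) k)) (extPow (ZMod (p ^ m)) v - 1) =
      Wof p m v - 1 := by
    have h4 := map_sub (MonoidAlgebra.mapDomainRingHom ℤ (diagHom (𝔐 := 𝔐) p m))
      (extPow (ZMod (p ^ m)) v) 1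
    rw [map_one] at h4
    exact h4
  rwa [h3] at h2

end Ext

end Pool.Agent.SUR
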