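import Pool.Agent.SUR.St

/-!
SUR, module LIF: powers of units lift along surjections of finite groups.
-/

set_option autoImplicit false

universe u

namespace Pool.Agent.SUR

open Pool.Agent.WhK

namespace LIFaux

variable {H C : Type u} [Group H] [Finite H] [Group C] (φ : H →* C)

/-- the sum of the elements of the kernel -/
noncomputable def sk : MonoidAlgebra ℤ H :=
  letI : Fintype φ.ker := Fintype.ofFinite _
  ∑ a : φ.ker, MonoidAlgebra.single (a : H) 1

theorem sk_mul_ker (a : H) (ha : a ∈ φ.ker) :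
    sk φ * MonoidAlgebra.single a 1 = sk φ := by
  unfold sk
  rw [Finset.sum_mul]
  let _ : Fintype φ.ker := Fintype.ofFinite _
  refine Fintype.sum_equiv (Equiv.mulRight (⟨a, ha⟩ : φ.ker)) _ _ fun b => ?_
  rw [MonoidAlgebra.single_mul_single]
  simp

theorem sk_comm_single (h : H) (r : ℤ) :
    sk φ * MonoidAlgebra.single h r = MonoidAlgebra.single h r * sk φ := by
  unfold sk
  rw [Finset.sum_mul, Finset.mul_sum]
  let _ : Fintype φ.ker := Fintype.ofFinite _
  refine Fintype.sum_equiv (MulAut.conjNormal h⁻¹ : MulAut φ.ker).toEquiv _ _ fun b => ?_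
  rw [MonoidAlgebra.single_mul_single, MonoidAlgebra.single_mul_single]
  congr 1
  · show (b : H) * h = h * ((MulAut.conjNormal h⁻¹ b : φ.ker) : H)
    rw [MulAut.conjNormal_apply]
    group
  · ring

theorem sk_comm (x : MonoidAlgebra ℤ H) : sk φ * x = x * sk φ := by
  induction x using MonoidAlgebra.induction_linear with
  | zero => rw [mul_zero, zero_mul]
  | add x y hx hy => rw [mul_add, add_mul, hx, hy]
  | single h r => exact sk_comm_single φ h r

theorem map_sk : MonoidAlgebra.mapDomainRingHom ℤ φ (sk φ) =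
    (Nat.card φ.ker : MonoidAlgebra ℤ C) := by
  unfold sk
  let _ : Fintype φ.ker := Fintype.ofFinite _
  rw [map_sum]
  have h1 : ∀ a : φ.ker, MonoidAlgebra.mapDomainRingHom ℤ φ (MonoidAlgebra.single (a : H) (1 : ℤ)) =
      1 := by
    intro a
    show MonoidAlgebra.mapDomain φ (MonoidAlgebra.single (a : H) (1 : ℤ)) = 1
    rw [MonoidAlgebra.mapDomain_single, MonoidHom.mem_ker.1 a.2]
    rfl
  rw [Finset.sum_congr rfl fun a _ => h1 a]
  rw [Finset.sum_const, Finset.card_univ, nsmul_eq_mul, mul_one, Nat.card_eq_fintype_card]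

theorem sk_sq : sk φ * sk φ = (Nat.card φ.ker : MonoidAlgebra ℤ H) * sk φ := by
  let _ : Fintype φ.ker := Fintype.ofFinite _
  conv_lhs =>
    rhs
    unfold sk
  rw [Finset.mul_sum]
  rw [Finset.sum_congr rfl fun (a : φ.ker) _ => sk_mul_ker φ a a.2]
  rw [Finset.sum_const, Finset.card_univ, nsmul_eq_mul, Nat.card_eq_fintype_card]

theorem sk_mul_section (σ : C → H) (hσ : ∀ c, φ (σ c) = c) (x : MonoidAlgebra ℤ H) :
    sk φ * x = sk φ * MonoidAlgebra.mapDomain σ (MonoidAlgebra.mapDomain φ x) := by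
  induction x using MonoidAlgebra.induction_linear with
  | zero => simp
  | add x y hx hy =>
    rw [mul_add, hx, hy, MonoidAlgebra.mapDomain_add, MonoidAlgebra.mapDomain_add, mul_add]
  | single h r =>
    rw [MonoidAlgebra.mapDomain_single, MonoidAlgebra.mapDomain_single]
    have hk : h * (σ (φ h))⁻¹ ∈ φ.ker := by
      rw [MonoidHom.mem_ker, map_mul, map_inv, hσ, mul_inv_cancel]
    calc sk φ * MonoidAlgebra.single h r
        = sk φ * (MonoidAlgebra.single (h * (σ (φ h))⁻¹) 1 *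
            MonoidAlgebra.single (σ (φ h)) r) := by
          rw [MonoidAlgebra.single_mul_single, one_mul]
          congr 2
          group
      _ = sk φ * MonoidAlgebra.single (σ (φ h)) r := by
          rw [← mul_assoc, sk_mul_ker φ _ hk]

theorem sk_mul_eq_zero (hφ : Function.Surjective φ) (x : MonoidAlgebra ℤ H)
    (hx : MonoidAlgebra.mapDomainRingHom ℤ φ x = 0) : sk φ * x = 0 := by
  obtain ⟨σ, hσ⟩ := hφ.hasRightInverse
  rw [sk_mul_section φ σ hσ x]
  have : MonoidAlgebra.mapDomain φ x = 0 := hx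
  rw [this]
  simp

omit [Finite H] in
theorem exists_lift (hφ : Function.Surjective φ) (y : MonoidAlgebra ℤ C) :
    ∃ x, MonoidAlgebra.mapDomainRingHom ℤ φ x = y := by
  obtain ⟨σ, hσ⟩ := hφ.hasRightInverse
  refine ⟨MonoidAlgebra.mapDomain σ y, ?_⟩
  show MonoidAlgebra.mapDomain φ (MonoidAlgebra.mapDomain σ y) = y
  induction y using MonoidAlgebra.induction_linear with
  | zero => simp
  | add x y hx hy =>
    rw [MonoidAlgebra.mapDomain_add, MonoidAlgebra.mapDomain_add, hx, hy]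
  | single h r =>
    rw [MonoidAlgebra.mapDomain_single, MonoidAlgebra.mapDomain_single, hσ]

theorem one_add_mul (hφ : Function.Surjective φ) (x x' : MonoidAlgebra ℤ H)
    (h : MonoidAlgebra.mapDomainRingHom ℤ φ
      (x + x' + (Nat.card φ.ker : MonoidAlgebra ℤ H) * (x * x')) = 0) :
    (1 + sk φ * x) * (1 + sk φ * x') = 1 := by
  have h0 := sk_mul_eq_zero φ hφ _ h
  have h1 : (sk φ * x) * (sk φ * x') =
      sk φ * ((Nat.card φ.ker : MonoidAlgebra ℤ H) * (x * x')) := by
    rw [sk_comm φ x, mul_assoc, ← mul_assoc (sk φ) (sk φ) x', sk_sq, ← mul_assoc (sk φ),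
      ← (Nat.cast_commute (Nat.card φ.ker) (sk φ)).eq, mul_assoc (Nat.cast _) (sk φ) x',
      mul_assoc (Nat.cast _) (sk φ), ← mul_assoc (sk φ) x x', sk_comm φ x]
    rw [← mul_assoc x, ← (Nat.cast_commute (Nat.card φ.ker) x).eq]
    simp only [mul_assoc]
  calc (1 + sk φ * x) * (1 + sk φ * x')
      = 1 + sk φ * x + sk φ * x' + (sk φ * x) * (sk φ * x') := by
        rw [add_mul, mul_add, mul_add, one_mul, one_mul, mul_one]
        abel
    _ = 1 + sk φ * (x + x' + (Nat.card φ.ker : MonoidAlgebra ℤ H) * (x * x')) := by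
        rw [h1]
        rw [mul_add (sk φ), mul_add (sk φ)]
        abel
    _ = 1 := by rw [h0, add_zero]

theorem tf (n : ℕ) (hn : n ≠ 0) (x : MonoidAlgebra ℤ C)
    (h : (n : MonoidAlgebra ℤ C) * x = 0) : x = 0 := by
  have h1 : n • x = 0 := by rw [nsmul_eq_mul]; exact h
  ext c
  have h2 : (n • x).coeff c = 0 := by rw [h1]; rfl
  have h3 : (n : ℤ) * x.coeff c = 0 := by
    rw [← h2, MonoidAlgebra.coeff_smul, Finsupp.smul_apply, nsmul_eq_mul]
  rcases mul_eq_zero.1 h3 with h4 | h4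
  · exact absurd (by exact_mod_cast h4) hn
  · exact h4

end LIFaux

open LIFaux in
theorem t_LIF : s_LIF.{u} := by
  intro H C _ _ _ φ hφ w
  have : Finite C := Finite.of_surjective φ hφ
  have hM : Nat.card φ.ker ≠ 0 := Nat.card_pos.ne'
  have : Module.Finite ℤ (MonoidAlgebra ℤ C) := inferInstance
  obtain ⟨n, y, hn, hy⟩ := exists_pow_eq_one_add (M := MonoidAlgebra ℤ C) (Nat.card φ.ker) hM w
  set M := Nat.card φ.ker with hMdef
  rw [nsmul_eq_mul] at hy
  set y' : MonoidAlgebra ℤ C := -(y * ((w ^ n)⁻¹ : (MonoidAlgebra ℤ C)ˣ).val) with hy'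
  have hinv : ((w ^ n)⁻¹ : (MonoidAlgebra ℤ C)ˣ).val = 1 + (M : MonoidAlgebra ℤ C) * y' := by
    have h1 : (w ^ n : (MonoidAlgebra ℤ C)ˣ).val * ((w ^ n)⁻¹ : (MonoidAlgebra ℤ C)ˣ).val = 1 :=
      Units.mul_inv _
    rw [hy, add_mul, one_mul, mul_assoc] at h1
    rw [hy', mul_neg, ← h1]
    abel
  have key : y + y' + (M : MonoidAlgebra ℤ C) * (y * y') = 0 := by
    apply tf M hM
    have h1 : (1 + (M : MonoidAlgebra ℤ C) * y) * (1 + (M : MonoidAlgebra ℤ C) * y') = 1 := by
      rw [← hy, ← hinv]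
      exact Units.mul_inv _
    rw [add_mul, mul_add, mul_add, one_mul, one_mul, mul_one] at h1
    have h2 : (M : MonoidAlgebra ℤ C) * y * ((M : MonoidAlgebra ℤ C) * y') =
        (M : MonoidAlgebra ℤ C) * ((M : MonoidAlgebra ℤ C) * (y * y')) := by
      rw [mul_assoc, ← mul_assoc y, ← (Nat.cast_commute M y).eq]
      simp only [mul_assoc]
    rw [h2] at h1
    rw [mul_add, mul_add]
    have h3 := sub_eq_zero.2 h1
    rw [← h3]
    abel
  have key' : y' + y + (M : MonoidAlgebra ℤ C) * (y' * y) = 0 := by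
    apply tf M hM
    have h1 : (1 + (M : MonoidAlgebra ℤ C) * y') * (1 + (M : MonoidAlgebra ℤ C) * y) = 1 := by
      rw [← hy, ← hinv]
      exact Units.inv_mul _
    rw [add_mul, mul_add, mul_add, one_mul, one_mul, mul_one] at h1
    have h2 : (M : MonoidAlgebra ℤ C) * y' * ((M : MonoidAlgebra ℤ C) * y) =
        (M : MonoidAlgebra ℤ C) * ((M : MonoidAlgebra ℤ C) * (y' * y)) := by
      rw [mul_assoc, ← mul_assoc y', ← (Nat.cast_commute M y').eq]
      simp only [mul_assoc]
    rw [h2] at h1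
    rw [mul_add, mul_add]
    have h3 := sub_eq_zero.2 h1
    rw [← h3]
    abel
  obtain ⟨x, hx⟩ := exists_lift φ hφ y
  obtain ⟨x', hx'⟩ := exists_lift φ hφ y'
  refine ⟨n, ⟨1 + sk φ * x, 1 + sk φ * x', one_add_mul φ hφ x x' ?_, one_add_mul φ hφ x' x ?_⟩,
    hn, ?_⟩
  · rw [map_add, map_add, map_mul, map_mul, map_natCast, hx, hx']
    exact key
  · rw [map_add, map_add, map_mul, map_mul, map_natCast, hx, hx']
    exact key'
  · apply Units.ext
    show MonoidAlgebra.mapDomainRingHom ℤ φ (1 + sk φ * x) = (w ^ n : (MonoidAlgebra ℤ C)ˣ).val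
    rw [map_add, map_mul, map_one, map_sk, hx, hy]

end Pool.Agent.SUR
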