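import Pool.Agent.SUR.St5
import Pool.Agent.SUR.LOC

/-!
# LOCR: the conclusion for arbitrary target groups passes to direct limits
-/

set_option autoImplicit false

universe u

namespace Pool.Agent.SUR

open Pool.Agent.WhK

theorem t_LOCR : s_LOCR := by
  intro G _ h Γ _ π x hx
  obtain ⟨n, X, rfl⟩ := K1.exists_mk x
  obtain ⟨G₀, hG₀, X₀, rfl⟩ := LOC.lift n X
  have e1 : K1.map (ringMap π) (K1.mk n (GLn.map (ringMap G₀.subtype) n X₀)) =
      K1.map (ringMap (π.comp G₀.subtype)) (K1.mk n X₀) := by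
    rw [← K1.map_mk, K1.map_comp, ringMap_comp]
  rw [e1] at hx ⊢
  obtain ⟨k, hk, hmem⟩ := h G₀ hG₀ Γ (π.comp G₀.subtype) (K1.mk n X₀) hx
  refine ⟨k, hk, ?_⟩
  refine (AddSubgroup.closure_le _).2 ?_ hmem
  rintro y ⟨H, hH, z, rfl⟩
  refine AddSubgroup.subset_closure ?_
  let e : H ≃* H.map G₀.subtype := Subgroup.equivMapOfInjective H G₀.subtype G₀.subtype_injective
  refine ⟨H.map G₀.subtype, Finite.of_equiv _ e.toEquiv, K1.map (ringMap e.toMonoidHom) z, ?_⟩
  rw [K1.map_comp, ringMap_comp]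
  rfl

end Pool.Agent.SUR
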