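import Pool.Agent.SUR.St

/-!
# Module NTG: naturality of the integral logarithm of matrices
-/

set_option autoImplicit false

universe u

namespace Pool.Agent.SUR

open Pool.Agent.WhK

namespace NTGaux

variable {G Q : Type u} [Group G] [Group Q]

theorem psi_map (π : G →* Q) {n : ℕ} (i j : Fin n) (x : MonoidAlgebra ℤ G) :
    psi i j (ringMap π x) = MonoidAlgebra.mapDomainRingHom ℤ (mmMap π n) (psi i j x) := by
  induction x using MonoidAlgebra.induction_linear with
  | zero => rw [map_zero, map_zero, map_zero, map_zero]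
  | add x y hx hy => rw [map_add, map_add, hx, hy, map_add, map_add]
  | single g r =>
    rw [ringMap_single, psi_single, psi_single, map_sub, MonoidAlgebra.mapDomainRingHom_apply,
      MonoidAlgebra.mapDomainRingHom_apply, MonoidAlgebra.mapDomain_single,
      MonoidAlgebra.mapDomain_single]
    rfl

theorem Fhom_map (π : G →* Q) {n : ℕ} (X : Matrix (Fin n) (Fin n) (MonoidAlgebra ℤ G)) :
    Fhom Q n ((ringMap π).mapMatrix X) =
      MonoidAlgebra.mapDomainRingHom ℤ (mmMap π n) (Fhom G n X) := by
  rw [Fhom_apply, Fhom_apply, map_add, map_one]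
  congr 1
  have h1 : (ringMap π).mapMatrix X - 1 = (ringMap π).mapMatrix (X - 1) := by
    rw [map_sub, map_one]
  rw [h1, Psi_apply, Psi_apply, map_sum]
  refine Finset.sum_congr rfl fun i _ => ?_
  rw [map_sum]
  refine Finset.sum_congr rfl fun j _ => ?_
  rw [RingHom.mapMatrix_apply, Matrix.map_apply, psi_map]

theorem cl_map (π : G →* Q) {n : ℕ} (a : MM G n) :
    MM.cl (mmMap π n a) = Option.map (ConjClasses.map π) (MM.cl a) := by
  cases a with
  | one => rfl
  | zero => rfl
  | unit i j g =>
    show (if i = j then some (ConjClasses.mk (π g)) else none) =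
      Option.map (ConjClasses.map π) (if i = j then some (ConjClasses.mk g) else none)
    by_cases h : i = j
    · rw [if_pos h, if_pos h]
      rfl
    · rw [if_neg h, if_neg h]
      rfl

end NTGaux

open NTGaux in
theorem t_NTG (h : s_NAT.{u}) : s_NTG.{u} := by
  intro G Q _ _ π n p m _ hp X
  have h1 := h (MM G n) (MM Q n) (Option (ConjClasses G)) (Option (ConjClasses Q)) MM.cl
    MM.cl_comm MM.cl MM.cl_comm (mmMap π n) (Option.map (ConjClasses.map π)) (cl_map π) p m hp
    (Units.map (Fhom G n) X)
  have h2 : Units.map (Fhom Q n) (GLn.map (ringMap π) n X) =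
      Units.map (MonoidAlgebra.mapDomainRingHom ℤ (mmMap π n)).toMonoidHom
        (Units.map (Fhom G n) X) := by
    refine Units.ext ?_
    exact Fhom_map π X.val
  rw [← h2] at h1
  exact h1

end Pool.Agent.SUR
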