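import Pool.Agent.SUR.St
import Pool.Agent.SUR.Bil

/-!
# Module REF: the main identity, divided by `p ^ j`
-/

set_option autoImplicit false

universe u

namespace Pool.Agent.SUR

open Pool.Agent.WhK

theorem t_REF (hKAP : s_KAP.{u}) (hWRW : s_WRW.{u}) (hDIV : s_DIV.{u}) (hINV : s_INV.{u})
    (hGAM : s_GAM.{u}) (hTOT : s_TOT.{u}) (hEVA : s_EVA.{u}) : s_REF.{u} := by
  intro 𝔐 K _ cl hcl k v W hW p m _ hp j c hj hv w
  obtain ⟨hW1, hW2, hW3⟩ := hW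
  have hpp : p.Prime := Fact.out
  have hp0 : ((p : ℤ) ^ j) ≠ 0 := pow_ne_zero _ (Int.natCast_ne_zero.2 hpp.ne_zero)
  have hN1 : 1 < p ^ (m + 1) := Nat.one_lt_pow (Nat.succ_ne_zero m) hpp.one_lt
  have hv1 : ∀ a, cl a ≠ k → W 1 a = 0 := by
    intro a ha
    by_contra h
    exact ha (by rw [← one_mul a]; exact hW2 1 a h)
  have hdW : ∀ a, (((p ^ j : ℕ) : ℕ) : ℤ) ∣ W 1 a := by
    intro a
    by_cases ha : cl a = k
    · rw [hW3 a ha, hv]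
      exact ⟨c, by push_cast; rfl⟩
    · rw [hv1 a ha]
      exact dvd_zero _
  have hdiv : ∀ x y : Wr 𝔐 (p ^ (m + 1)),
      ((p : ℤ) ^ j) ∣ wr W x y - (The W (y * x) - The W (x * y)) := by
    intro x y
    have := hDIV 𝔐 (p ^ (m + 1)) W hW1 (p ^ j) (pow_dvd_pow p hj) hdW x y
    rwa [Nat.cast_pow] at this
  set w' : Wr 𝔐 (p ^ (m + 1)) → Wr 𝔐 (p ^ (m + 1)) → ℤ := fun x y =>
    (wr W x y - (The W (y * x) - The W (x * y))) / (p : ℤ) ^ j with hw'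
  have hw : ∀ x y, (p : ℤ) ^ j * w' x y = wr W x y - (The W (y * x) - The W (x * y)) :=
    fun x y => Int.mul_ediv_cancel' (hdiv x y)
  obtain ⟨hwt, hwr1⟩ := hWRW 𝔐 (p ^ (m + 1)) W hW1
  have hwt' : IsWt w' := by
    intro a b d
    have h1 : (p : ℤ) ^ j * w' a (b * d) = (p : ℤ) ^ j * (w' (a * b) d + w' (d * a) b) := by
      rw [mul_add, hw, hw, hw, hwt a b d, ← mul_assoc a b d, mul_assoc b d a, mul_assoc d a b]
      ring
    exact mul_left_cancel₀ hp0 h1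
  have hdeg : ∀ a b, w' a b ≠ 0 → degW 𝔐 (p ^ (m + 1)) (a * b) = Multiplicative.ofAdd 1 := by
    intro a b hab
    by_contra h
    have h1 : a.i + b.i ≠ 1 := fun h2 => h (congrArg Multiplicative.ofAdd h2)
    have h2 : wr W a b = 0 := if_neg h1
    have h3 : The W (a * b) = 0 := if_neg h1
    have h4 : The W (b * a) = 0 :=
      if_neg fun h : b.i + a.i = 1 => h1 ((add_comm a.i b.i).trans h)
    have h5 := hw a b
    rw [h2, h3, h4, sub_zero, sub_zero] at h5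
    exact hab ((mul_eq_zero.1 h5).resolve_left hp0)
  have hw1 : ∀ a : Wr 𝔐 (p ^ (m + 1)), (p : ℤ) ^ j * w' 1 a =
      if a.i = 1 then W 1 (prodSeq a.s) else 0 := by
    intro a
    rw [hw, hwr1, mul_one, one_mul, sub_self, sub_zero]
  have hw2 : ∀ a : Wr 𝔐 (p ^ (m + 1)), a.i = 1 ∧ cl (prodSeq a.s) = k → w' 1 a = c := by
    intro a ha
    have h1 := hw1 a
    rw [if_pos ha.1, hW3 _ ha.2, hv] at h1
    exact mul_left_cancel₀ hp0 h1
  have hw3 : ∀ a : Wr 𝔐 (p ^ (m + 1)), ¬(a.i = 1 ∧ cl (prodSeq a.s) = k) → w' 1 a = 0 := by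
    intro a ha
    have h1 := hw1 a
    by_cases hi : a.i = 1
    · rw [if_pos hi, hv1 _ fun h => ha ⟨hi, h⟩] at h1
      exact (mul_eq_zero.1 h1).resolve_left hp0
    · rw [if_neg hi] at h1
      exact (mul_eq_zero.1 h1).resolve_left hp0
  -- the triple
  have htrip := isTrip_of cl hcl p m w.val (w⁻¹ : (MonoidAlgebra ℤ 𝔐)ˣ).val w.mul_inv w.inv_mul
      (zOf_spec p m w.val)
  set U := extPow (ZMod (p ^ (m + 1))) w.val with hU
  set Ui := extPow (ZMod (p ^ (m + 1))) (w⁻¹ : (MonoidAlgebra ℤ 𝔐)ˣ).val with hUi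
  set Wo := Wof p m w.val with hWo
  set Wi := Wof p m (w⁻¹ : (MonoidAlgebra ℤ 𝔐)ˣ).val with hWi
  set z := zOf p m w.val with hz
  obtain ⟨hXY, hYX⟩ := hINV 𝔐 K cl hcl (p ^ (m + 1)) U Ui Wo Wi z htrip
  have hK := hKAP (Wr 𝔐 (p ^ (m + 1))) (p ^ (m + 1)) w' hwt' (degW 𝔐 (p ^ (m + 1))) hdeg
    (XW Ui z Wi) (YW U z) hXY hYX
  have hG := hGAM 𝔐 K cl hcl (p ^ (m + 1)) k U Ui Wi z
  have hT := hTOT 𝔐 K cl hcl (p ^ (m + 1)) W U Ui Wo Wi z hN1 htrip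
  obtain ⟨hE1, hE2⟩ := hEVA 𝔐 W p m (w⁻¹ : (MonoidAlgebra ℤ 𝔐)ˣ).val w.val w.inv_mul
  have h6 : bil (fun a b : Wr 𝔐 (p ^ (m + 1)) =>
      ((w' 1 (a * b) : ℤ) : ZMod (p ^ (m + 1))) * (degW 𝔐 (p ^ (m + 1)) b).toAdd)
      (XW Ui z Wi) (YW U z) =
      (c : ZMod (p ^ (m + 1))) * -((cycData (p ^ (m + 1)) cl hcl).gam Ui Wi z k) := by
    rw [← hG]
    refine Eq.trans ?_ (map_bil (AddMonoidHom.mulLeft (c : ZMod (p ^ (m + 1)))) _ _ _).symm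
    refine bil_congr _ _ _ _ fun a _ b _ => ?_
    rw [AddMonoidHom.coe_mulLeft]
    show ((w' 1 (a * b) : ℤ) : ZMod (p ^ (m + 1))) * b.i = _
    by_cases hab : (a * b).i = 1 ∧ cl (prodSeq (a * b).s) = k
    · rw [if_pos hab, hw2 _ hab, one_mul]
    · rw [if_neg hab, hw3 _ hab, Int.cast_zero, zero_mul, mul_zero]
  have h7 : (p : ℤ) ^ j * bil w' (XW Ui z Wi) (YW U z) = bil (wr W) (XW Ui z Wi) (YW U z) := by
    have e1 : (p : ℤ) ^ j * bil w' (XW Ui z Wi) (YW U z) =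
        bil (fun a b => wr W a b - (The W (b * a) - The W (a * b))) (XW Ui z Wi) (YW U z) := by
      refine (map_bil (AddMonoidHom.mulLeft ((p : ℤ) ^ j)) _ _ _).trans ?_
      refine bil_congr _ _ _ _ fun a _ b _ => ?_
      rw [AddMonoidHom.coe_mulLeft]
      exact hw a b
    rw [e1, bil_fun_sub, bil_fun_sub, bil_mul,
      bil_swap (fun a b : Wr 𝔐 (p ^ (m + 1)) => The W (a * b)), bil_mul, hXY, hYX, sub_self,
      sub_zero]
  have h8 : bil (wr W) (XW Ui z Wi) (YW U z) =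
      -(bil W (w⁻¹ : (MonoidAlgebra ℤ 𝔐)ˣ).val w.val -
        bil (pw W p) (w⁻¹ : (MonoidAlgebra ℤ 𝔐)ˣ).val w.val) := by
    rw [hE1, hE2] at hT
    have hN0 : ((p ^ (m + 1) : ℕ) : ℤ) ≠ 0 := Int.natCast_ne_zero.2 (by omega)
    refine mul_left_cancel₀ hN0 ?_
    rw [hT]
    ring
  refine ⟨-(bil w' (XW Ui z Wi) (YW U z)), ?_, ?_⟩
  · rw [mul_neg, h7, h8, neg_neg]
  · rw [h6] at hK
    rw [Int.cast_neg, ← hK, mul_neg, neg_neg]
    rfl

end Pool.Agent.SUR
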