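import Pool.Agent.SUR.St

/-!
# SUP: the support of the integral logarithm
-/

set_option autoImplicit false

universe u

namespace Pool.Agent.SUR

open Pool.Agent.WhK Finset

namespace SUP_aux

variable {𝔐 : Type*} [Monoid 𝔐] {N : ℕ} (ℓ : 𝔐 → ℕ)

/-- All entries of the sequence have length at most `B`. -/
def Pb (B : ℕ) (g : ZMod N → 𝔐) : Prop := ∀ i, ℓ (g i) ≤ B

/-- The element is supported on sequences whose entries have length at most `B`. -/
def Bd (B : ℕ) (x : MonoidAlgebra ℤ (ZMod N → 𝔐)) : Prop := ∀ g, x.coeff g ≠ 0 → Pb ℓ B g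

variable {ℓ}

lemma Bd.mono {B B' : ℕ} (h : B ≤ B') {x : MonoidAlgebra ℤ (ZMod N → 𝔐)} (hx : Bd ℓ B x) :
    Bd ℓ B' x := fun g hg i => (hx g hg i).trans h

lemma Bd.mul (hℓ : ∀ a b, ℓ (a * b) ≤ ℓ a + ℓ b) {B B' : ℕ}
    {x y : MonoidAlgebra ℤ (ZMod N → 𝔐)} (hx : Bd ℓ B x) (hy : Bd ℓ B' y) :
    Bd ℓ (B + B') (x * y) := by
  classical
  intro g hg i
  have h : ∃ a ∈ x.coeff.support, ∃ b ∈ y.coeff.support, a * b = g := by
    by_contra hcon
    push Not at hcon
    apply hg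
    rw [MonoidAlgebra.coeff_mul]
    refine Finset.sum_eq_zero fun a ha => Finset.sum_eq_zero fun b hb => ?_
    exact if_neg (hcon a ha b hb)
  obtain ⟨a, ha, b, hb, rfl⟩ := h
  have h1 := hx a (Finsupp.mem_support_iff.1 ha) i
  have h2 := hy b (Finsupp.mem_support_iff.1 hb) i
  exact (hℓ _ _).trans (by omega)

lemma Bd.rho {B : ℕ} {x : MonoidAlgebra ℤ (ZMod N → 𝔐)} (hx : Bd ℓ B x) (j : ZMod N) :
    Bd ℓ B (rho j x) := by
  intro g hg i
  rw [coeff_rho] at hg
  have := hx _ hg (i + j)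
  rw [shiftHom_apply] at this
  simpa using this

lemma bd_extPow {B : ℕ} (I : Type) [Fintype I] (u : MonoidAlgebra ℤ 𝔐)
    (hu : ∀ a ∈ u.coeff.support, ℓ a ≤ B) (g : I → 𝔐) (hg : (extPow I u).coeff g ≠ 0) (i : I) :
    ℓ (g i) ≤ B := by
  rw [coeff_extPow] at hg
  refine hu _ (Finsupp.mem_support_iff.2 fun h0 => hg ?_)
  exact Finset.prod_eq_zero (Finset.mem_univ i) h0

lemma bd_Wof {B p m : ℕ} [Fact p.Prime] (u : MonoidAlgebra ℤ 𝔐)
    (hu : ∀ a ∈ u.coeff.support, ℓ a ≤ B) : Bd ℓ B (Wof p m u) := by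
  intro g hg i
  rw [Wof_eq] at hg
  by_cases h : g ∈ Set.range (diagHom (𝔐 := 𝔐) p m)
  · obtain ⟨y, rfl⟩ := h
    rw [coeff_mapDomain_inj (diagHom_injective p m)] at hg
    rw [diagHom_apply]
    exact bd_extPow _ u hu y hg _
  · exact absurd (coeff_mapDomain_notin _ h) hg

/-- A norm representative with small support. -/
lemma exists_z' {B p m : ℕ} [Fact p.Prime] (u : MonoidAlgebra ℤ 𝔐)
    (hu : ∀ a ∈ u.coeff.support, ℓ a ≤ B) :
    ∃ z : MonoidAlgebra ℤ (ZMod (p ^ (m + 1)) → 𝔐),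
      ∑ i, rho i z = extPow (ZMod (p ^ (m + 1))) u - Wof p m u ∧ Bd ℓ B z := by
  classical
  obtain ⟨z0, hz0⟩ := exists_z p m u
  have hF : ∀ g, (extPow (ZMod (p ^ (m + 1))) u - Wof p m u).coeff g ≠ 0 → Pb ℓ B g := by
    intro g hg i
    rw [MonoidAlgebra.coeff_sub, Finsupp.sub_apply] at hg
    by_cases h : (extPow (ZMod (p ^ (m + 1))) u).coeff g = 0
    · rw [h, zero_sub, neg_ne_zero] at hg
      exact bd_Wof u hu g hg i
    · exact bd_extPow _ u hu g h i
  let z : MonoidAlgebra ℤ (ZMod (p ^ (m + 1)) → 𝔐) :=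
    .ofCoeff (z0.coeff.filter (Pb ℓ B))
  have hz : ∀ g, z.coeff g = if Pb ℓ B g then z0.coeff g else 0 := fun g =>
    Finsupp.filter_apply _ _ _
  have hshift : ∀ (j : ZMod (p ^ (m + 1))) (g : ZMod (p ^ (m + 1)) → 𝔐),
      Pb ℓ B (shiftHom j g) ↔ Pb ℓ B g := by
    intro j g
    constructor
    · intro h i
      have := h (i - j)
      rw [shiftHom_apply, sub_add_cancel] at this
      exact this
    · intro h i
      exact h (i + j)
  refine ⟨z, ?_, ?_⟩
  · ext g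
    rw [MonoidAlgebra.coeff_sum, Finsupp.finsetSum_apply]
    have h1 : ∀ i, (rho i z).coeff g = if Pb ℓ B g then (rho i z0).coeff g else 0 := by
      intro i
      rw [coeff_rho, hz, coeff_rho]
      simp only [hshift]
    rw [Finset.sum_congr rfl fun i _ => h1 i]
    by_cases hP : Pb ℓ B g
    · simp only [if_pos hP]
      rw [← hz0, MonoidAlgebra.coeff_sum, Finsupp.finsetSum_apply]
    · simp only [if_neg hP, Finset.sum_const_zero]
      by_contra hne
      exact hP (hF g (Ne.symm hne))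
  · intro g hg
    rw [hz] at hg
    by_contra hP
    rw [if_neg hP] at hg
    exact hg rfl

/-- The length of the product of a nonempty list. -/
lemma len_prod (hℓ : ∀ a b, ℓ (a * b) ≤ ℓ a + ℓ b) {B : ℕ} (l : List 𝔐) (hl : l ≠ [])
    (h : ∀ a ∈ l, ℓ a ≤ B) : ℓ l.prod ≤ B * l.length := by
  induction l with
  | nil => exact absurd rfl hl
  | cons a l ih =>
    by_cases h0 : l = []
    · subst h0
      rw [List.prod_cons, List.prod_nil, mul_one]
      have := h a List.mem_cons_self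
      simpa using this
    · rw [List.prod_cons, List.length_cons]
      have h1 := ih h0 fun b hb => h b (List.mem_cons_of_mem _ hb)
      have h2 := h a List.mem_cons_self
      calc ℓ (a * l.prod) ≤ ℓ a + ℓ l.prod := hℓ _ _
        _ ≤ B + B * l.length := by omega
        _ = B * (l.length + 1) := by ring

lemma len_prodSeq (hℓ : ∀ a b, ℓ (a * b) ≤ ℓ a + ℓ b) (hN : 0 < N) {B : ℕ} (g : ZMod N → 𝔐)
    (h : Pb ℓ B g) : ℓ (prodSeq g) ≤ B * N := by
  unfold prodSeq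
  have h1 := len_prod hℓ (B := B) ((List.range N).map fun k : ℕ => g (k : ZMod N)) (by
    intro h0
    have := congrArg List.length h0
    rw [List.length_map, List.length_range] at this
    simp at this
    omega) (by
    intro a ha
    rw [List.mem_map] at ha
    obtain ⟨k, -, rfl⟩ := ha
    exact h _)
  rwa [List.length_map, List.length_range] at h1

/-- The support of the twisted trace. -/
lemma Tmod_ne {K : Type*} (cl : 𝔐 → K) (x : MonoidAlgebra ℤ (ZMod N → 𝔐)) (k : K)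
    (h : Tmod cl x k ≠ 0) : ∃ g, x.coeff g ≠ 0 ∧ cl (prodSeq g) = k := by
  classical
  have h1 : Tint cl x k ≠ 0 := by
    intro h0
    apply h
    rw [Tmod_apply]
    show ((Tint cl x k : ℤ) : ZMod N) = 0
    rw [h0, Int.cast_zero]
  rw [Tint_apply] at h1
  have h2 := Finsupp.mapDomain_support (Finsupp.mem_support_iff.2 h1)
  rw [Finset.mem_image] at h2
  obtain ⟨g, hg, hk⟩ := h2
  exact ⟨g, Finsupp.mem_support_iff.1 hg, hk⟩

end SUP_aux

open SUP_aux in
/-- SUP -/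
theorem t_SUP : s_SUP.{u} := by
  intro 𝔐 K _ cl hcl p m _ hp ℓ hℓ L w hw hwi k hk
  obtain ⟨z, hz, hzB⟩ := exists_z' (p := p) (m := m) w.val hw
  rw [gamVal_eq hp w hz] at hk
  set Ui := extPow (ZMod (p ^ (m + 1))) (w⁻¹ : (MonoidAlgebra ℤ 𝔐)ˣ).val with hUi
  set Wi := Wof p m (w⁻¹ : (MonoidAlgebra ℤ 𝔐)ˣ).val with hWi
  have hUiB : Bd ℓ L Ui := fun g hg i => bd_extPow _ _ hwi g hg i
  have hWiB : Bd ℓ L Wi := bd_Wof _ hwi
  have hpos : 0 < p ^ (m + 1) := pow_pos (Nat.Prime.pos Fact.out) _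
  -- an element of the support
  have hfin : ∀ x : MonoidAlgebra ℤ (ZMod (p ^ (m + 1)) → 𝔐), Bd ℓ (4 * L) x →
      Tmod cl x k ≠ 0 → ∃ a, cl a = k ∧ ℓ a ≤ 4 * L * p ^ (m + 1) := by
    intro x hx hT
    obtain ⟨g, hg, hk⟩ := Tmod_ne cl x k hT
    exact ⟨prodSeq g, hk, len_prodSeq hℓ hpos g (hx g hg)⟩
  have h1 : Bd ℓ (4 * L) (Ui * z) := (hUiB.mul hℓ hzB).mono (by omega)
  have h2 : ∀ j, Bd ℓ (4 * L) (Ui * z * Wi * rho j z) := fun j =>
    (((hUiB.mul hℓ hzB).mul hℓ hWiB).mul hℓ (hzB.rho j)).mono (by omega)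
  by_contra hcon
  apply hk
  have g1 : Tmod cl (Ui * z) k = 0 := by
    by_contra h
    exact hcon (hfin _ h1 h)
  have g2 : ∀ j, Tmod cl (Ui * z * Wi * rho j z) k = 0 := by
    intro j
    by_contra h
    exact hcon (hfin _ (h2 j) h)
  show (Tmod cl (Ui * z) + ∑ j : ZMod (p ^ (m + 1)),
    (1 - j) • Tmod cl (Ui * z * Wi * rho j z)) k = 0
  rw [Finsupp.add_apply, g1, zero_add, Finsupp.finsetSum_apply]
  refine Finset.sum_eq_zero fun j _ => ?_
  rw [Finsupp.smul_apply, g2, smul_zero]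

end Pool.Agent.SUR
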