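import Pool.Agent.SUR.St

/-!
# The integral logarithm at the classes of `SC` and at their `p`-th powers (SUR, module VAL)
-/

set_option autoImplicit false

universe u

namespace Pool.Agent.SUR

open Pool.Agent.WhK

namespace VALx

theorem bil_zero {X A : Type*} [AddCommGroup A] (F : X → X → A) (x y : MonoidAlgebra ℤ X)
    (h : ∀ a ∈ x.coeff.support, ∀ b ∈ y.coeff.support, F a b = 0) : bil F x y = 0 := by
  unfold bil Finsupp.sum
  refine Finset.sum_eq_zero fun a ha => Finset.sum_eq_zero fun b hb => ?_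
  show (x.coeff a * y.coeff b) • F a b = 0
  rw [h a ha b hb, smul_zero]

end VALx

theorem t_VAL (hREF : s_REF.{u}) (hRES : s_RES.{u}) : s_VAL.{u} := by
  intro G _ n p m _ hn hp w K v W hW
  have hpp : p.Prime := Fact.out
  have hp0 : (p : ℤ) ≠ 0 := by exact_mod_cast hpp.ne_zero
  obtain ⟨-, R2, R3, R4, R5⟩ := hRES G n p K v W hn hpp hW
  constructor
  · intro hv
    obtain ⟨e, he, h2⟩ := hREF (MM G n) (Option (ConjClasses G)) MM.cl MM.cl_comm (some K) v W hW
      p m hp 0 v (Nat.zero_le _) (by rw [pow_zero, one_mul]) w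
    rw [pow_zero, one_mul, R5 hv, sub_zero] at he
    rw [h2, he]
  · intro T v' hvv hK hT hS
    obtain ⟨e, he, h2⟩ := hREF (MM G n) (Option (ConjClasses G)) MM.cl MM.cl_comm (some K) v W hW
      p m hp 0 v (Nat.zero_le _) (by rw [pow_zero, one_mul]) w
    have h0 : bil W (w⁻¹ : (MonoidAlgebra ℤ (MM G n))ˣ).val w.val = 0 := by
      refine VALx.bil_zero _ _ _ fun a ha b hb => ?_
      by_contra hab
      exact hK ⟨a, ha, b, hb, hW.2.1 a b hab⟩
    have h1 := R4 T (w⁻¹ : (MonoidAlgebra ℤ (MM G n))ˣ).val w.val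
      (fun C hC => ((hT C).1 hC).2)
      (fun a ha b hb C hC hCK => (hT C).2 ⟨⟨a, ha, b, hb, hC⟩, hCK⟩)
    have h3 : ∀ C ∈ T, (v' : ZMod (p ^ (m + 1))) * gamVal MM.cl MM.cl_comm p m w (some C) =
        ((bil (resW MM.cl W p (some C)) (w⁻¹ : (MonoidAlgebra ℤ (MM G n))ˣ).val w.val : ℤ) :
          ZMod (p ^ (m + 1))) := by
      intro C hC
      obtain ⟨v'', hv'', hWt⟩ := R3 C ((hT C).1 hC).2
      have hvv' : v'' = v' := mul_left_cancel₀ hp0 (hv''.symm.trans hvv)
      rw [hvv'] at hWt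
      obtain ⟨e', he', h2'⟩ := hREF (MM G n) (Option (ConjClasses G)) MM.cl MM.cl_comm (some C) v'
        (resW MM.cl W p (some C)) hWt p m hp 0 v' (Nat.zero_le _) (by rw [pow_zero, one_mul]) w
      have h0' : bil (pw (resW MM.cl W p (some C)) p)
          (w⁻¹ : (MonoidAlgebra ℤ (MM G n))ˣ).val w.val = 0 := by
        refine VALx.bil_zero _ _ _ fun a ha b hb => ?_
        by_contra hab
        have h5 : MM.cl ((a * b) ^ (p - 1) * a * b) = some C := hWt.2.1 _ _ hab
        rw [mul_assoc, ← pow_succ, Nat.sub_add_cancel hpp.one_le] at h5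
        obtain ⟨C', hC', hpow⟩ := R2 (a * b) C h5
        exact hS C hC C' ⟨a, ha, b, hb, hC'⟩ hpow
      rw [pow_zero, one_mul, h0', sub_zero] at he'
      rw [h2', he']
    rw [pow_zero, one_mul, h0, zero_sub, h1] at he
    have h6 : (v : ZMod (p ^ (m + 1))) = (p : ZMod (p ^ (m + 1))) * (v' : ZMod (p ^ (m + 1))) := by
      rw [hvv]
      push_cast
      rfl
    rw [mul_add, Finset.mul_sum, Finset.sum_congr rfl h3]
    have h7 : (v' : ZMod (p ^ (m + 1))) * ((p : ZMod (p ^ (m + 1))) *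
        gamVal MM.cl MM.cl_comm p m w (some K)) = (e : ZMod (p ^ (m + 1))) := by
      rw [← h2, h6]
      ring
    rw [h7, he]
    push_cast
    exact neg_add_cancel _

end Pool.Agent.SUR
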