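import Pool.Agent.SUR.St

/-!
# SUR_VAN: the integral logarithm at the classes outside of the finite set `SC`
-/

set_option autoImplicit false

universe u

namespace Pool.Agent.SUR

open Pool.Agent.WhK

/-- the length of a matrix unit -/
def lenMM {G : Type u} {n : ℕ} (ℓ : G → ℕ) : MM G n → ℕ
  | .one => 0
  | .zero => 0
  | .unit _ _ h => ℓ h

theorem lenMM_mul {G : Type u} [Group G] {n : ℕ} {ℓ : G → ℕ} (hℓ : ∀ a b, ℓ (a * b) ≤ ℓ a + ℓ b)
    (a b : MM G n) : lenMM ℓ (a * b) ≤ lenMM ℓ a + lenMM ℓ b := by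
  cases a with
  | one => rw [MM.one_mul']; exact Nat.le_add_left _ _
  | zero => rw [MM.zero_mul']; exact Nat.zero_le _
  | unit i j g =>
    cases b with
    | one => rw [MM.mul_one']; exact Nat.le_add_right _ _
    | zero => rw [MM.mul_zero']; exact Nat.zero_le _
    | unit k l h =>
      rw [MM.unit_mul]
      by_cases hjk : j = k
      · rw [if_pos hjk]; exact hℓ g h
      · rw [if_neg hjk]; exact Nat.zero_le _

theorem eq_unit_of_cl {G : Type u} [Group G] {n : ℕ} {a : MM G n} {K : ConjClasses G}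
    (h : MM.cl a = some K) : ∃ (i : Fin n) (g : G), a = .unit i i g ∧ ConjClasses.mk g = K := by
  cases a with
  | one => exact absurd h (by simp [MM.cl])
  | zero => exact absurd h (by simp [MM.cl])
  | unit i j g =>
    by_cases hij : i = j
    · subst hij
      refine ⟨i, g, rfl, ?_⟩
      simpa [MM.cl] using h
    · exact absurd h (by simp [MM.cl, hij])

theorem bil_eq_zero_of {X A : Type*} [AddCommGroup A] (F : X → X → A) (x y : MonoidAlgebra ℤ X)
    (h : ∀ a ∈ x.coeff.support, ∀ b ∈ y.coeff.support, F a b = 0) : bil F x y = 0 := by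
  unfold bil
  refine Finset.sum_eq_zero fun a ha => Finset.sum_eq_zero fun b hb => ?_
  show (_ * _ : ℤ) • F a b = 0
  rw [h a ha b hb, smul_zero]

theorem t_VAN (hREF : s_REF.{u}) (hSUP : s_SUP.{u}) (hCOC : s_COC.{u}) (hRES : s_RES.{u}) :
    s_VAN.{u} := by
  intro G _ ℓ hLB n p m L _ hn hp hL w hw hw' K hK hSC hpow
  by_contra hne
  obtain ⟨hsub, hf⟩ := hLB
  have hpp : p.Prime := Fact.out
  obtain ⟨a, ha, hla⟩ := hSUP (MM G n) (Option (ConjClasses G)) MM.cl MM.cl_comm p m hp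
    (lenMM ℓ) (lenMM_mul hsub) L w
    (fun a ha => by
      cases a with
      | one => exact Nat.zero_le _
      | zero => exact Nat.zero_le _
      | unit i j h => exact hw i j h ha)
    (fun a ha => by
      cases a with
      | one => exact Nat.zero_le _
      | zero => exact Nat.zero_le _
      | unit i j h => exact hw' i j h ha) (some K) hne
  obtain ⟨i, h, rfl, hmk⟩ := eq_unit_of_cl ha
  obtain ⟨f, hf0, hfl⟩ := hf h (hK h hmk)
  set v : ℤ := (f ⟨h, Subgroup.mem_centralizer_singleton_iff.2 rfl⟩).toAdd with hv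
  have hlh : ℓ h ≤ 4 * L * p ^ (m + 1) := hla
  have hvlt : v.natAbs < p ^ (m + 2) := by
    refine (hfl.trans hlh).trans_lt ?_
    calc 4 * L * p ^ (m + 1) < p * p ^ (m + 1) :=
          Nat.mul_lt_mul_of_pos_right hL (pow_pos hpp.pos _)
      _ = p ^ (m + 2) := by ring
  have hfm : FiniteMultiplicity (p : ℤ) v :=
    Int.finiteMultiplicity_iff.2 ⟨by simpa using hpp.one_lt.ne', hf0⟩
  obtain ⟨c, hc1, hc2⟩ := hfm.exists_eq_pow_mul_and_not_dvd
  set j := multiplicity (p : ℤ) v
  have hj : j ≤ m + 1 := by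
    by_contra hj
    have h1 : (p : ℤ) ^ (m + 2) ∣ v := by
      rw [hc1]
      exact (pow_dvd_pow _ (by omega)).trans (Dvd.intro _ rfl)
    have h2 : p ^ (m + 2) ∣ v.natAbs := by
      have := Int.natAbs_dvd_natAbs.2 h1
      rwa [Int.natAbs_pow, Int.natAbs_natCast] at this
    exact absurd (Nat.le_of_dvd (Int.natAbs_pos.2 hf0) h2) (by omega)
  obtain ⟨W, hW⟩ := hCOC G n h f
  have hW' : WtAt MM.cl (some K) v W := by rw [← hmk]; exact hW
  have hb1 : bil W (w⁻¹ : (MonoidAlgebra ℤ (MM G n))ˣ).val w.val = 0 := by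
    refine bil_eq_zero_of _ _ _ fun a ha b hb => ?_
    by_contra hab
    exact hSC ⟨a, ha, b, hb, hW'.2.1 a b hab⟩
  obtain ⟨-, -, -, h4, -⟩ := hRES G n p K v W hn hpp hW'
  have hb2 : bil (pw W p) (w⁻¹ : (MonoidAlgebra ℤ (MM G n))ˣ).val w.val = 0 := by
    rw [h4 ∅ _ _ (by simp) (fun a ha b hb C hC hCK =>
      absurd hCK (hpow C ⟨a, ha, b, hb, hC⟩))]
    simp
  obtain ⟨e, he1, he2⟩ := hREF (MM G n) (Option (ConjClasses G)) MM.cl MM.cl_comm (some K) v W hW'
    p m hp j c hj hc1 w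
  rw [hb1, hb2, sub_zero] at he1
  have he : e = 0 := by
    rcases mul_eq_zero.1 he1 with h | h
    · exact absurd h (pow_ne_zero _ (by exact_mod_cast hpp.ne_zero))
    · exact h
  rw [he, Int.cast_zero] at he2
  have hcu : IsUnit (c : ZMod (p ^ (m + 1))) := by
    have hcop : IsCoprime c ((p ^ (m + 1) : ℕ) : ℤ) := by
      push_cast
      refine IsCoprime.pow_right ?_
      exact ((Nat.prime_iff_prime_int.1 hpp).coprime_iff_not_dvd.2 hc2).symm
    exact (ZMod.coe_int_isUnit_iff_isCoprime c _).2 hcop.symm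
  exact hne ((hcu.mul_right_eq_zero).1 he2)

end Pool.Agent.SUR
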