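import Pool.Agent.SUR.St2

/-!
# SUR_VANL: the vanishing of the integral logarithms, from a length bound
-/

set_option autoImplicit false

universe u

namespace Pool.Agent.SUR

open Pool.Agent.WhK

/-- the length of a matrix unit, for the bound on finite sets -/
def vlen {G : Type u} {n : ℕ} (ℓ : G → ℕ) : MM G n → ℕ
  | .one => 0
  | .zero => 0
  | .unit _ _ h => ℓ h

theorem t_VANL (hVAN : s_VAN.{u}) : s_VANL.{u} := by
  intro G _ ℓ hLB n hn w
  obtain ⟨L, hL⟩ : ∃ L, L = w.val.coeff.support.sup (vlen ℓ) +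
      (w⁻¹ : (MonoidAlgebra ℤ (MM G n))ˣ).val.coeff.support.sup (vlen ℓ) := ⟨_, rfl⟩
  refine ⟨max 2 (4 * L), fun p m _ hp K hK hSC hpow => ?_⟩
  refine hVAN G ℓ hLB n p m L hn (by omega) (by omega) w ?_ ?_ K hK hSC hpow
  · intro i j h hh
    have := Finset.le_sup (f := vlen ℓ) hh
    have h2 : vlen ℓ (.unit i j h : MM G n) = ℓ h := rfl
    omega
  · intro i j h hh
    have := Finset.le_sup (f := vlen ℓ) hh
    have h2 : vlen ℓ (.unit i j h : MM G n) = ℓ h := rfl
    omega

end Pool.Agent.SUR
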