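import Pool.Agent.SUR.KAP
import Pool.Agent.SUR.WRW
import Pool.Agent.SUR.DIV
import Pool.Agent.SUR.INV
import Pool.Agent.SUR.GAM
import Pool.Agent.SUR.TOT
import Pool.Agent.SUR.EVG
import Pool.Agent.SUR.EVA
import Pool.Agent.SUR.REF
import Pool.Agent.SUR.NAT
import Pool.Agent.SUR.NTG
import Pool.Agent.SUR.COC
import Pool.Agent.SUR.RES
import Pool.Agent.SUR.SUP
import Pool.Agent.SUR.VAN
import Pool.Agent.SUR.VANL
import Pool.Agent.SUR.VAL
import Pool.Agent.SUR.END
import Pool.Agent.SUR.KCO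
import Pool.Agent.SUR.LIF
import Pool.Agent.SUR.VANC
import Pool.Agent.SUR.FINC
import Pool.Agent.SUR.ARIC

/-!
# Surjectivity in degree one, seen in finite quotients: the composition of the modules
-/

set_option autoImplicit false

universe u

namespace Pool.Agent.SUR

open Pool.Agent.WhK

theorem t_REF' : s_REF.{u} :=
  t_REF t_KAP t_WRW (t_DIV t_WRW) t_INV t_GAM t_TOT (t_EVA t_EVG)

theorem t_FINC' : s_FINC.{u} := t_FINC t_END t_KCO t_LIF (t_NTG t_NAT)

theorem t_ARIC' : s_ARIC.{u} :=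
  t_ARIC (t_VAL t_REF' t_RES) t_COC t_RES

theorem surjG_of_lengthBound (G : Type u) [Group G] (ℓ : G → ℕ)
    (h : LengthBound ℓ) : SurjG G :=
  t_FINC' G (t_ARIC' G (fun g hg => by
    obtain ⟨f, hf, -⟩ := h.2 g hg
    exact ⟨f, hf⟩) (t_VANL (t_VAN t_REF' t_SUP t_COC t_RES) G ℓ h))

theorem surjG_of_centHom (hCOH : s_COH.{u}) (G : Type u) [Group G]
    (h : CentHom G) : SurjG G :=
  t_FINC' G (t_ARIC' G h (t_VANC hCOH t_REF' t_COC t_RES G h))

end Pool.Agent.SUR
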