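import Pool.Agent.SUR.StP

/-!
Module DTP_LSA (MP_e40716_gt): linear quotients of residually torsion-free nilpotent groups and of their
automorphism groups.
-/

set_option autoImplicit false

universe u

namespace Pool.Agent.SUR

namespace PLSA

open MonoidAlgebra

/-! ### Unipotent elements of finite order -/

theorem pow_one_add {R : Type*} [Ring R] {N : R} {j : ℕ} (h : N ^ (j + 2) = 0) (f : ℕ) :
    N ^ j * (1 + N) ^ f = N ^ j + f • N ^ (j + 1) := by
  induction f with
  | zero => simp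
  | succ f ih =>
    rw [pow_succ, ← mul_assoc, ih, add_mul, mul_add, mul_add, mul_one, mul_one, ← pow_succ,
      smul_mul_assoc, ← pow_succ, h, smul_zero, add_zero, succ_nsmul]
    abel

theorem unip {R : Type*} [Ring R] {N : R} {f : ℕ} (hR : ∀ x : R, f • x = 0 → x = 0)
    (hf : (1 + N) ^ f = 1) : ∀ k : ℕ, N ^ (k + 1) = 0 → N = 0
  | 0, h => by rwa [zero_add, pow_one] at h
  | k + 1, h => by
    refine unip hR hf k ?_
    have h1 := pow_one_add (j := k) h f
    rw [hf, mul_one] at h1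
    exact hR _ (left_eq_add.1 h1)

/-! ### Strictly triangular matrices -/

/-- the matrices with entries `(i, j)` only for `i + k ≤ j` -/
def Str {R : Type*} [Ring R] (m k : ℕ) (A : Matrix (Fin m) (Fin m) R) : Prop :=
  ∀ i j : Fin m, j.val < i.val + k → A i j = 0

section Str

variable {R : Type*} [Ring R] {m : ℕ}

theorem Str.add {k : ℕ} {A B : Matrix (Fin m) (Fin m) R} (hA : Str m k A) (hB : Str m k B) :
    Str m k (A + B) := fun i j h => by rw [Matrix.add_apply, hA i j h, hB i j h, add_zero]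

theorem Str.zero (k : ℕ) : Str m k (0 : Matrix (Fin m) (Fin m) R) := fun _ _ _ => rfl

theorem Str.smul {S : Type*} [SMulZeroClass S R] {k : ℕ} {A : Matrix (Fin m) (Fin m) R} (c : S)
    (hA : Str m k A) : Str m k (c • A) :=
  fun i j h => by rw [Matrix.smul_apply, hA i j h, smul_zero]

theorem Str.mul {k l : ℕ} {A B : Matrix (Fin m) (Fin m) R} (hA : Str m k A) (hB : Str m l B) :
    Str m (k + l) (A * B) := by
  intro i j h
  rw [Matrix.mul_apply]
  refine Finset.sum_eq_zero fun t _ => ?_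
  rcases lt_or_ge t.val (i.val + k) with h1 | h1
  · rw [hA i t h1, zero_mul]
  · rw [hB t j (by omega), mul_zero]

theorem Str.one : Str m 0 (1 : Matrix (Fin m) (Fin m) R) := fun i j h => by
  refine Matrix.one_apply_ne fun h1 => ?_
  rw [h1] at h
  omega

theorem Str.pow {A : Matrix (Fin m) (Fin m) R} (hA : Str m 1 A) : ∀ k : ℕ, Str m k (A ^ k)
  | 0 => by rw [pow_zero]; exact Str.one
  | k + 1 => by rw [pow_succ]; exact (Str.pow hA k).mul hA

theorem Str.eq_zero {k : ℕ} (hk : m ≤ k) {A : Matrix (Fin m) (Fin m) R} (hA : Str m k A) : A = 0 := by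
  ext i j
  exact hA i j (by have := j.isLt; omega)

end Str

/-! ### Passing to `GL` over `ULift ℚ` -/

/-- the inclusion of `ℚ` -/
def up : ℚ →+* ULift.{u} ℚ := (ULift.ringEquiv.symm : ℚ ≃+* ULift.{u} ℚ).toRingHom

theorem up_injective : Function.Injective (up.{u}) := up.injective

/-- a representation by rational matrices gives one in `GL` -/
noncomputable def toGL {G : Type u} [Group G] {n : ℕ} (ρ : G →* Matrix (Fin n) (Fin n) ℚ) :
    G →* GL (Fin n) (ULift.{u} ℚ) :=
  (Units.map ((up.{u}).mapMatrix : Matrix (Fin n) (Fin n) ℚ →+* Matrix (Fin n) (Fin n) (ULift.{u} ℚ)).toMonoidHom).comp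
    ρ.toHomUnits

theorem toGL_fin {G : Type u} [Group G] {n : ℕ} (ρ : G →* Matrix (Fin n) (Fin n) ℚ) (x : G)
    (h : IsOfFinOrder (toGL ρ x)) : ∃ f : ℕ, 0 < f ∧ ρ x ^ f = 1 := by
  obtain ⟨f, hf, h1⟩ := isOfFinOrder_iff_pow_eq_one.1 h
  refine ⟨f, hf, ?_⟩
  have h2 := congrArg Units.val h1
  rw [← map_pow] at h2
  have h3 : (up.{u}).mapMatrix (ρ (x ^ f)) = (up.{u}).mapMatrix 1 := by
    rw [map_one]; exact h2
  rw [← map_pow]
  ext i j
  exact up_injective (congrFun (congrFun h3 i) j)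

theorem linSep_of {G : Type u} [Group G] (x : G) {n : ℕ} (ρ : G →* Matrix (Fin n) (Fin n) ℚ)
    (h : ∀ f : ℕ, 0 < f → ρ x ^ f ≠ 1) : ∃ (F : Type u) (_ : Field F) (n : ℕ) (ρ : G →* GL (Fin n) F),
    ¬IsOfFinOrder (ρ x) :=
  ⟨ULift.{u} ℚ, inferInstance, n, toGL ρ, fun h1 => by
    obtain ⟨f, hf, h2⟩ := toGL_fin ρ x h1
    exact h f hf h2⟩

/-! ### The first part -/

/-- the extension of scalars of an integral representation -/
noncomputable def ratRep {G : Type*} [Monoid G] {m : ℕ} (ρ : G →* Matrix (Fin m) (Fin m) ℤ) :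
    G →* Matrix (Fin m) (Fin m) ℚ :=
  ((Int.castRingHom ℚ).mapMatrix : Matrix (Fin m) (Fin m) ℤ →+* Matrix (Fin m) (Fin m) ℚ).toMonoidHom.comp ρ

theorem ratRep_apply {G : Type*} [Monoid G] {m : ℕ} (ρ : G →* Matrix (Fin m) (Fin m) ℤ) (g : G)
    (i j : Fin m) : ratRep ρ g i j = ((ρ g i j : ℤ) : ℚ) := rfl

theorem ratRep_inj {G : Type*} [Monoid G] {m : ℕ} (ρ : G →* Matrix (Fin m) (Fin m) ℤ) {g h : G}
    (e : ratRep ρ g = ratRep ρ h) : ρ g = ρ h := by
  ext i j
  have := congrFun (congrFun e i) j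
  rw [ratRep_apply, ratRep_apply] at this
  exact_mod_cast this

theorem str_sub_one {G : Type*} [Monoid G] {m : ℕ} {ρ : G →* Matrix (Fin m) (Fin m) ℤ}
    (hρ : ∀ h i j, j ≤ i → ρ h i j = if i = j then 1 else 0) (g : G) :
    Str m 1 (ratRep ρ g - 1) := by
  intro i j h
  have h1 : j ≤ i := by
    have : j.val ≤ i.val := by omega
    exact this
  rw [Matrix.sub_apply, ratRep_apply, hρ g i j h1, Matrix.one_apply]
  split_ifs <;> simp

theorem part1 (G : Type u) [Group G] (hG : RTN G) : LinSep G := by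
  intro x hx
  have hx1 : x ≠ 1 := by
    rintro rfl
    exact hx IsOfFinOrder.one
  obtain ⟨m, ρ, hρ, hne⟩ := hG x hx1
  refine linSep_of x (ratRep ρ) fun f hf h => ?_
  have h0 : ratRep ρ x - 1 = 0 := by
    refine unip (f := f) (fun A hA => ?_) ?_ m ?_
    · ext i j
      have := congrFun (congrFun hA i) j
      rw [Matrix.smul_apply, nsmul_eq_mul] at this
      exact (mul_eq_zero.1 this).resolve_left (by exact_mod_cast hf.ne')
    · rw [add_sub_cancel, h]
    · exact ((str_sub_one hρ x).pow (m + 1)).eq_zero (by omega)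
  refine hne ?_
  have h1 : ratRep ρ x = ratRep ρ 1 := by rw [map_one]; exact sub_eq_zero.1 h0
  rw [ratRep_inj ρ h1, map_one]

/-! ### The powers of the augmentation ideal -/

variable {π : Type u} [Group π]

theorem sub_mem (g : π) : (single g 1 - 1 : MonoidAlgebra ℚ π) ∈ IQ π :=
  Submodule.subset_span ⟨g, rfl⟩

theorem single_eq_smul (g : π) (r : ℚ) :
    (single g r : MonoidAlgebra ℚ π) = r • single g 1 := by
  rw [smul_single, smul_eq_mul, mul_one]

/-- the action of the automorphisms on the group ring -/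
noncomputable def ext (θ : MulAut π) : MonoidAlgebra ℚ π →ₐ[ℚ] MonoidAlgebra ℚ π :=
  MonoidAlgebra.mapDomainAlgHom ℚ ℚ (θ : π →* π)

theorem ext_single (θ : MulAut π) (g : π) (r : ℚ) :
    ext θ (single g r) = single (θ g) r := mapDomain_single

theorem ext_mul (θ ψ : MulAut π) (a : MonoidAlgebra ℚ π) : ext (θ * ψ) a = ext θ (ext ψ a) := by
  induction a using MonoidAlgebra.induction_linear with
  | zero => simp
  | add a b h1 h2 => rw [map_add, h1, h2, map_add, map_add]
  | single g r => rw [ext_single, ext_single, ext_single]; rfl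

theorem ext_one (a : MonoidAlgebra ℚ π) : ext (1 : MulAut π) a = a := by
  induction a using MonoidAlgebra.induction_linear with
  | zero => simp
  | add a b h1 h2 => rw [map_add, h1, h2]
  | single g r => rw [ext_single]; rfl

theorem ext_mem (θ : MulAut π) {x : MonoidAlgebra ℚ π} (hx : x ∈ IQ π) : ext θ x ∈ IQ π := by
  induction hx using Submodule.span_induction with
  | mem y hy =>
    obtain ⟨h, rfl⟩ := hy
    rw [map_sub, map_one, ext_single]
    exact sub_mem _
  | zero => rw [map_zero]; exact zero_mem _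
  | add y z _ _ h1 h2 => rw [map_add]; exact add_mem h1 h2
  | smul c y _ h => rw [map_smul]; exact Submodule.smul_mem _ _ h

theorem ext_pow_mem (θ : MulAut π) : ∀ (k : ℕ) {x : MonoidAlgebra ℚ π}, x ∈ IQ π ^ k →
    ext θ x ∈ IQ π ^ k
  | 0, x, hx => by
    rw [pow_zero, Submodule.mem_one] at hx ⊢
    obtain ⟨y, rfl⟩ := hx
    exact ⟨y, ((ext θ).commutes y).symm⟩
  | k + 1, x, hx => by
    rw [pow_succ] at hx ⊢
    induction hx using Submodule.mul_induction_on' with
    | mem_mul_mem m hm n hn =>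
      rw [map_mul]
      exact Submodule.mul_mem_mul (ext_pow_mem θ k hm) (ext_mem θ hn)
    | add x _ y _ h1 h2 => rw [map_add]; exact add_mem h1 h2

theorem ext_sub_mem (θ : MulAut π) (a : MonoidAlgebra ℚ π) : ext θ a - a ∈ IQ π := by
  induction a using MonoidAlgebra.induction_linear with
  | zero => rw [map_zero, sub_zero]; exact zero_mem _
  | add a b h1 h2 =>
    rw [map_add, add_sub_add_comm]
    exact add_mem h1 h2
  | single g r =>
    have e : ext θ (single g r) - single g r =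
        r • ((single (θ g) 1 - 1) - (single g 1 - 1) : MonoidAlgebra ℚ π) := by
      rw [ext_single, single_eq_smul (θ g), single_eq_smul g, sub_sub_sub_cancel_right, smul_sub]
    rw [e]
    exact Submodule.smul_mem _ _ (Submodule.sub_mem _ (sub_mem _) (sub_mem _))

/-- the action on the quotient by a power of the augmentation ideal -/
noncomputable def act (k : ℕ) : MulAut π →* Module.End ℚ (MonoidAlgebra ℚ π ⧸ IQ π ^ k) where
  toFun θ := Submodule.mapQ (IQ π ^ k) (IQ π ^ k) (ext θ).toLinearMap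
    fun _ hx => ext_pow_mem θ k hx
  map_one' := by
    refine LinearMap.ext fun x => ?_
    obtain ⟨a, rfl⟩ := Submodule.mkQ_surjective _ x
    exact congrArg (Submodule.mkQ (IQ π ^ k)) (ext_one a)
  map_mul' θ ψ := by
    refine LinearMap.ext fun x => ?_
    obtain ⟨a, rfl⟩ := Submodule.mkQ_surjective _ x
    exact congrArg (Submodule.mkQ (IQ π ^ k)) (ext_mul θ ψ a)

theorem act_mk (k : ℕ) (θ : MulAut π) (a : MonoidAlgebra ℚ π) :
    act k θ (Submodule.mkQ (IQ π ^ k) a) = Submodule.mkQ (IQ π ^ k) (ext θ a) := rfl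

theorem act_fin (hPGRF : s_PGRF.{u}) (hπ : Group.FG π) (x : MulAut π)
    (hx : ∀ (F : Type u) (_ : Field F) (n : ℕ) (ρ : MulAut π →* GL (Fin n) F), IsOfFinOrder (ρ x))
    (k : ℕ) (hk : 1 ≤ k) : ∃ f : ℕ, 0 < f ∧ act k x ^ f = 1 := by
  have := hPGRF π hπ k hk
  let b := Module.finBasis ℚ (MonoidAlgebra ℚ π ⧸ IQ π ^ k)
  let e := LinearMap.toMatrixAlgEquiv b
  obtain ⟨f, hf, h⟩ := toGL_fin ((MonoidHomClass.toMonoidHom e).comp (act k)) x (hx _ _ _ _)
  refine ⟨f, hf, e.injective ?_⟩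
  rw [map_pow, map_one]
  exact h

theorem step {η : MulAut π} (h2 : ∀ a : MonoidAlgebra ℚ π, ext η a - a ∈ IQ π ^ 2) :
    ∀ (k : ℕ) {a : MonoidAlgebra ℚ π}, a ∈ IQ π ^ (k + 1) → ext η a - a ∈ IQ π ^ (k + 2)
  | 0, a, _ => h2 a
  | k + 1, a, ha => by
    rw [pow_succ] at ha
    induction ha using Submodule.mul_induction_on' with
    | mem_mul_mem m hm n hn =>
      have e : ext η (m * n) - m * n = (ext η m - m) * ext η n + m * (ext η n - n) := by
        rw [map_mul, sub_mul, mul_sub]; abel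
      rw [e]
      refine add_mem ?_ ?_
      · rw [show k + 1 + 2 = (k + 2) + 1 from rfl, pow_succ]
        exact Submodule.mul_mem_mul (step h2 k hm) (ext_mem η hn)
      · rw [pow_add]
        exact Submodule.mul_mem_mul hm (h2 n)
    | add x _ y _ h3 h4 =>
      rw [map_add, add_sub_add_comm]
      exact add_mem h3 h4

theorem nil {η : MulAut π} (h2 : ∀ a : MonoidAlgebra ℚ π, ext η a - a ∈ IQ π ^ 2) (K : ℕ) :
    ∀ (k : ℕ) (a : MonoidAlgebra ℚ π), ∃ b ∈ IQ π ^ (k + 1),
      ((act K η - 1) ^ (k + 1)) (Submodule.mkQ (IQ π ^ K) a) = Submodule.mkQ (IQ π ^ K) b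
  | 0, a => ⟨ext η a - a, by rw [zero_add, pow_one]; exact ext_sub_mem η a, by
      rw [zero_add, pow_one, LinearMap.sub_apply, act_mk, map_sub]; rfl⟩
  | k + 1, a => by
    obtain ⟨b, hb, e⟩ := nil h2 K k a
    refine ⟨ext η b - b, step h2 k hb, ?_⟩
    rw [pow_succ', Module.End.mul_apply, e, LinearMap.sub_apply, act_mk, map_sub]
    rfl

theorem act_eq_one (k : ℕ) {η : MulAut π} (h : act k η = 1) (a : MonoidAlgebra ℚ π) :
    ext η a - a ∈ IQ π ^ k := by
  have h1 := LinearMap.congr_fun h (Submodule.mkQ (IQ π ^ k) a)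
  rw [act_mk] at h1
  have h2 : Submodule.mkQ (IQ π ^ k) (ext η a - a) = 0 := by
    rw [map_sub, h1]; exact sub_self _
  rwa [Submodule.mkQ_apply, Submodule.Quotient.mk_eq_zero] at h2

theorem act_unip {η : MulAut π} (h2 : ∀ a : MonoidAlgebra ℚ π, ext η a - a ∈ IQ π ^ 2) (k : ℕ)
    (hk : 1 ≤ k) {f : ℕ} (hf : 0 < f) (h : act k η ^ f = 1) : act k η = 1 := by
  refine sub_eq_zero.1 (unip (f := f) (fun N hN => ?_) ?_ k ?_)
  · refine LinearMap.ext fun x => ?_
    have := LinearMap.congr_fun hN x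
    rw [LinearMap.smul_apply, ← Nat.cast_smul_eq_nsmul ℚ] at this
    exact (smul_eq_zero.1 this).resolve_left (by exact_mod_cast hf.ne')
  · rw [add_sub_cancel, h]
  · obtain ⟨l, rfl⟩ : ∃ l, k = l + 1 := ⟨k - 1, by omega⟩
    have h0 : (act (l + 1) η - 1) ^ (l + 1) = 0 := by
      refine LinearMap.ext fun x => ?_
      obtain ⟨a, rfl⟩ := Submodule.mkQ_surjective _ x
      obtain ⟨b, hb, e⟩ := nil h2 (l + 1) l a
      rw [e, Submodule.mkQ_apply, (Submodule.Quotient.mk_eq_zero _).2 hb]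
      rfl
    exact (pow_succ' (act (l + 1) η - 1) (l + 1)).trans (by rw [h0, mul_zero])

/-! ### Unitriangular representations of the group ring -/

theorem str_gen {m : ℕ} {ρ : π →* Matrix (Fin m) (Fin m) ℤ}
    (hρ : ∀ h i j, j ≤ i → ρ h i j = if i = j then 1 else 0) {x : MonoidAlgebra ℚ π}
    (hx : x ∈ IQ π) :
    Str m 1 (MonoidAlgebra.lift ℚ (Matrix (Fin m) (Fin m) ℚ) π (ratRep ρ) x) := by
  induction hx using Submodule.span_induction with
  | mem y hy =>
    obtain ⟨h, rfl⟩ := hy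
    rw [map_sub, map_one, MonoidAlgebra.lift_single, one_smul]
    exact str_sub_one hρ h
  | zero => rw [map_zero]; exact Str.zero _
  | add y z _ _ h1 h2 => rw [map_add]; exact h1.add h2
  | smul c y _ h => rw [map_smul]; exact h.smul c

theorem str_pow {m : ℕ} {ρ : π →* Matrix (Fin m) (Fin m) ℤ}
    (hρ : ∀ h i j, j ≤ i → ρ h i j = if i = j then 1 else 0) : ∀ (k : ℕ) {x : MonoidAlgebra ℚ π},
    x ∈ IQ π ^ (k + 1) →
      Str m (k + 1) (MonoidAlgebra.lift ℚ (Matrix (Fin m) (Fin m) ℚ) π (ratRep ρ) x)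
  | 0, x, hx => str_gen hρ (by rwa [zero_add, pow_one] at hx)
  | k + 1, x, hx => by
    rw [pow_succ] at hx
    induction hx using Submodule.mul_induction_on' with
    | mem_mul_mem m hm n hn =>
      rw [map_mul]
      exact (str_pow hρ k hm).mul (str_gen hρ hn)
    | add x _ y _ h1 h2 => rw [map_add]; exact h1.add h2

theorem fixed (hR : RTN π) {η : MulAut π}
    (h : ∀ (k : ℕ), 1 ≤ k → ∀ a : MonoidAlgebra ℚ π, ext η a - a ∈ IQ π ^ k) : η = 1 := by
  refine MulEquiv.ext fun g => ?_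
  by_contra hne
  have hne' : η g * g⁻¹ ≠ 1 := fun e => hne (mul_inv_eq_one.1 e)
  obtain ⟨m, ρ, hρ, hρh⟩ := hR _ hne'
  refine hρh ?_
  have h1 := (str_pow hρ m (h (m + 1) (by omega) (single g 1))).eq_zero (by omega)
  rw [ext_single, map_sub, MonoidAlgebra.lift_single, MonoidAlgebra.lift_single, one_smul,
    one_smul] at h1
  rw [map_mul, ratRep_inj ρ (sub_eq_zero.1 h1), ← map_mul, mul_inv_cancel, map_one]

end PLSA

open PLSA in
/-- **DTP_LSA.** -/
theorem t_PLSA (hPGRF : s_PGRF.{u}) : s_PLSA.{u} := by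
  refine ⟨part1, fun π _ hfg hR x hx => ?_⟩
  by_contra hcon
  push Not at hcon
  have hfin := act_fin hPGRF hfg x hcon
  obtain ⟨e, he, he1⟩ := hfin 2 (by norm_num)
  have hη2 : ∀ a : MonoidAlgebra ℚ π, ext (x ^ e) a - a ∈ IQ π ^ 2 :=
    act_eq_one 2 (by rw [map_pow]; exact he1)
  have hη : x ^ e = 1 := by
    refine fixed hR fun k hk => act_eq_one k ?_
    obtain ⟨f, hf, hf1⟩ := hfin k hk
    refine act_unip hη2 k hk hf ?_
    rw [map_pow, ← pow_mul, mul_comm, pow_mul, hf1, one_pow]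
  exact hx (isOfFinOrder_iff_pow_eq_one.2 ⟨e, he, hη⟩)

end Pool.Agent.SUR
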