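import Pool.Agent.SUR.StQ
import Pool.Agent.SUR.LWE

/-!
# QWT: weights at one element and at its powers

`t_QWT : s_QWT`, compare `Pool/Agent/SUR/LWE.lean`.
-/

set_option autoImplicit false

universe u

namespace Pool.Agent.SUR

open Pool.Agent.WhK Finset

namespace QWT

section nil

variable {Z Z' R : Type*} [Group Z] [Group Z'] [CommRing R]

theorem shift_pow (h : Z) (v : R) (s : Z → R) (H : ∀ z, s (h * z) = s z + v) (p : ℕ) (z : Z) :
    s (h ^ p * z) = s z + (p : R) * v := by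
  induction p with
  | zero => simp
  | succ p ih =>
    rw [pow_succ', mul_assoc, H, ih]
    push_cast
    ring

theorem per_pow (h : Z) (φ : List Z → R)
    (H : ∀ l₁ x l₂, φ (l₁ ++ h * x :: l₂) = φ (l₁ ++ x :: l₂)) (p : ℕ) (l₁ : List Z) (x : Z)
    (l₂ : List Z) : φ (l₁ ++ h ^ p * x :: l₂) = φ (l₁ ++ x :: l₂) := by
  induction p with
  | zero => simp
  | succ p ih => rw [pow_succ', mul_assoc, H, ih]

theorem cupE_map (ι : Z' →* Z) (s : Z → R) (l : List Z') :
    cupE (fun z => s (ι z)) l = cupE s (l.map ι) := by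
  match l with
  | [] => simp [cupE]
  | [_] => simp [cupE]
  | [_, _] => simp [cupE]
  | x :: y :: w :: l =>
    have ih := cupE_map ι s (w :: l)
    simp only [cupE, List.map_cons] at ih ⊢
    rw [ih]
    simp only [eu, map_mul, map_inv]
  termination_by l.length

theorem eraseIdx_map (ι : Z' → Z) (l : List Z') (i : ℕ) :
    (l.eraseIdx i).map ι = (l.map ι).eraseIdx i := by
  induction l generalizing i with
  | nil => simp
  | cons a l ih =>
    cases i with
    | zero => simp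
    | succ i => simp [ih]

theorem cobL_map (ι : Z' → Z) (φ : List Z → R) (l : List Z') :
    cobL (fun l => φ (l.map ι)) l = cobL φ (l.map ι) := by
  simp only [cobL, List.length_map, eraseIdx_map]

/-- pull back of a `NilEuler` along a homomorphism which maps `h'` to `h ^ p` -/
theorem nil_comp (ι : Z' →* Z) (h : Z) (h' : Z') (p : ℕ) (hh : ι h' = h ^ p) (r : ℕ) (v : R)
    (s : Z → R) (φ : List Z → R) (H : NilEuler h r v s φ) :
    NilEuler h' r ((p : R) * v) (fun z => s (ι z)) (fun l => φ (l.map ι)) where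
  shift z := by
    rw [map_mul, hh]
    exact shift_pow h v s H.shift p _
  inv w l := by
    have h1 : (l.map fun x => w * x).map ι = (l.map ι).map fun x => ι w * x := by
      simp [List.map_map, Function.comp_def]
    rw [h1]
    exact H.inv _ _
  per l₁ x l₂ := by
    rw [List.map_append, List.map_append, List.map_cons, List.map_cons, map_mul, hh]
    exact per_pow h φ H.per p _ _ _
  cob l hl := by
    rw [cobL_map, cupE_map]
    exact H.cob _ (by rw [List.length_map]; exact hl)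

end nil

/-- the weights for one element with a nilpotent Euler class -/
theorem of_eul (hEUL : s_LEUL.{u, u}) (hPSH : s_LPSH.{u, u})
    (hPOW : s_LPOW.{u}) (hTRA : s_LTRA.{u}) (F : Type u) [Field F] (S : Set F) (M : ℕ)
    (hψ : ∀ ν ∈ Subring.closure S, ν ≠ 0 →
      ∃ ψ : Subring.closure S →+ ZM M, ∀ h : ν ∈ Subring.closure S, ψ ⟨ν, h⟩ ≠ 0)
    (G : Type u) [Group G] (n : ℕ) (hn : 0 < n) (g : G) (j : ℕ) (hj : 0 < j)
    (v : Subring.closure S) (hv : v ≠ 0)
    (s : Subgroup.centralizer {g} → Subring.closure S)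
    (φ : List (Subgroup.centralizer {g}) → Subring.closure S)
    (hE : NilEuler ((⟨g, Subgroup.mem_centralizer_singleton_iff.2 rfl⟩ :
      Subgroup.centralizer {g}) ^ j) n v s φ) (N : ℕ) :
    ∃ (v : ZM M) (W : FreeMonoid (MM G N) → FreeMonoid (MM G N) → ZM M), v ≠ 0 ∧
      WtAtA (clF G N) (some (ConjClasses.mk g)) v W ∧ DegV (th (MM G N)) n W := by
  set c : Subgroup.centralizer {g} := ⟨g, Subgroup.mem_centralizer_singleton_iff.2 rfl⟩
    with hcdef
  have hcen : ∀ z : Subgroup.centralizer {g}, c * z = z * c := fun z =>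
    Subtype.ext (Subgroup.mem_centralizer_singleton_iff.1 z.2).symm
  have hcen' : ∀ z, c ^ j * z = z * c ^ j := fun z =>
    (Commute.pow_left (hcen z : Commute c z) j).eq
  obtain ⟨W, hW, hD⟩ := hEUL (Subgroup.centralizer {g}) (Subring.closure S) (c ^ j) hcen' n v s φ
    hn hE
  set v₁ : Subring.closure S := v ^ n with hv₁
  have hv₁0 : v₁ ≠ 0 := pow_ne_zero _ hv
  obtain ⟨ψ, hψv⟩ := hψ v₁.1 v₁.2 fun h0 => hv₁0 (Subtype.ext h0)
  have hψ0 : ψ v₁ ≠ 0 := hψv v₁.2
  have hP := hPSH (FreeMonoid (Subgroup.centralizer {g})) (Subgroup.centralizer {g})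
    (Subgroup.centralizer {g}) (Subring.closure S) (ZM M) (th (Subgroup.centralizer {g})) ψ W
  have htors : ∀ (j : ℕ) (a : ZM M), 0 < j → j • a = 0 → a = 0 := fun j a hj h0 =>
    (smul_eq_zero.1 h0).resolve_left hj.ne'
  obtain ⟨v', W', hv', hW', hD'⟩ := hPOW (Subgroup.centralizer {g}) (ZM M) c hcen htors j
    n hj (ψ v₁) _ (hP.2 _ _ _ hW) (hP.1 _ hD)
  obtain ⟨W'', hW'', hD''⟩ := hTRA G (ZM M) N n g v' W' hW' hD'
  refine ⟨v', W'', fun h0 => hψ0 ?_, hW'', hD''⟩
  rw [← hv', h0, smul_zero]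

/-- the inclusion of the centraliser of `g ^ p` into that of `g` -/
def inc {G : Type u} [Group G] (g : G) (p : ℕ)
    (h : ∀ h : G, h * g ^ p = g ^ p * h → h * g = g * h) :
    Subgroup.centralizer {g ^ p} →* Subgroup.centralizer {g} :=
  Subgroup.inclusion fun z hz => Subgroup.mem_centralizer_singleton_iff.2
    (h z (Subgroup.mem_centralizer_singleton_iff.1 hz))

theorem inc_self {G : Type u} [Group G] (g : G) (p : ℕ)
    (h : ∀ h : G, h * g ^ p = g ^ p * h → h * g = g * h) :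
    inc g p h ⟨g ^ p, Subgroup.mem_centralizer_singleton_iff.2 rfl⟩ =
      (⟨g, Subgroup.mem_centralizer_singleton_iff.2 rfl⟩ : Subgroup.centralizer {g}) ^ p :=
  Subtype.ext rfl

end QWT

/-- QWT -/
theorem t_QWT (hEUL : s_LEUL.{u, u}) (hMONO : s_LMONO.{u}) (hCORE : s_LCORE.{u, u})
    (hCORE0 : s_LCORE.{u, 0}) (hPSH : s_LPSH.{u, u}) (hPOW : s_LPOW.{u}) (hTRA : s_LTRA.{u})
    (hALG : s_LALG.{u, u}) (hEIG : s_LEIG.{u}) (hNNF : s_NNF.{u}) : s_QWT.{u} := by
  rintro G _ g hg ⟨F, _, S, n, hS, hn, hG⟩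
  obtain ⟨M, hM, hψ⟩ : ∃ M : ℕ, 0 < M ∧ (CharZero F → ∀ ν ∈ Subring.closure S, ν ≠ 0 →
      ∃ ψ : Subring.closure S →+ ZM M, ∀ h : ν ∈ Subring.closure S, ψ ⟨ν, h⟩ ≠ 0) := by
    by_cases hc : CharZero F
    · obtain ⟨M, hM, h⟩ := hNNF F S hS
      exact ⟨M, hM, fun _ => h⟩
    · exact ⟨1, one_pos, fun h => absurd h hc⟩
  refine ⟨M, n * n + n + 2, hM, ?_, ?_⟩
  · intro N _
    rcases hG with ⟨ρ, hρg⟩ | ⟨hchar, j, v, s, φ, hj, hv, hE⟩
    · obtain ⟨v, W, hv, hW, hD⟩ :=
        LWEx.of_rep hCORE hCORE0 hPSH hPOW hTRA hALG hEIG F S hS M hψ G n g ρ hρg N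
      exact ⟨v, W, hv, hW, hMONO _ _ _ _ _ _ _ (by omega) hD⟩
    · obtain ⟨v, W, hv, hW, hD⟩ := QWT.of_eul hEUL hPSH hPOW hTRA F S M (hψ hchar) G n hn g j hj v
        hv s φ hE N
      exact ⟨v, W, hv, hW, hMONO _ _ _ _ _ _ _ (by omega) hD⟩
  · intro p hp hcp N _
    rcases hG with ⟨ρ, hρg⟩ | ⟨hchar, j, v, s, φ, hj, hv, hE⟩
    · have hρ' : ¬IsOfFinOrder ((ρ.comp (QWT.inc g p hcp))
          ⟨g ^ p, Subgroup.mem_centralizer_singleton_iff.2 rfl⟩) := by
        rw [MonoidHom.comp_apply, QWT.inc_self, map_pow]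
        intro h
        exact hρg ((isOfFinOrder_pow.1 h).resolve_right hp.ne_zero)
      obtain ⟨v, W, hv, hW, hD⟩ :=
        LWEx.of_rep hCORE hCORE0 hPSH hPOW hTRA hALG hEIG F S hS M hψ G n (g ^ p)
          (ρ.comp (QWT.inc g p hcp)) hρ' N
      exact ⟨v, W, hv, hW, hMONO _ _ _ _ _ _ _ (by omega) hD⟩
    · have hchar' : CharZero (Subring.closure S) := by
        refine ⟨fun a b hab => ?_⟩
        have h1 := congrArg (Subring.closure S).subtype hab
        rw [map_natCast, map_natCast] at h1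
        exact Nat.cast_injective h1
      have hpv : ((p : ℕ) : Subring.closure S) * v ≠ 0 :=
        mul_ne_zero (Nat.cast_ne_zero.2 hp.ne_zero) hv
      have hE' := QWT.nil_comp (QWT.inc g p hcp) _
        ((⟨g ^ p, Subgroup.mem_centralizer_singleton_iff.2 rfl⟩ :
          Subgroup.centralizer {g ^ p}) ^ j) p
        (by rw [map_pow, QWT.inc_self, ← pow_mul, ← pow_mul, mul_comm]) n v s φ hE
      obtain ⟨v, W, hv, hW, hD⟩ := QWT.of_eul hEUL hPSH hPOW hTRA F S M (hψ hchar) G n hn (g ^ p) j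
        hj _ hpv _ _ hE' N
      exact ⟨v, W, hv, hW, hMONO _ _ _ _ _ _ _ (by omega) hD⟩

end Pool.Agent.SUR
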