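import Pool.Agent.SUR.St2

/-!
# Surjectivity in degree one, seen in finite quotients: direct limits, linear groups, walls
-/

set_option autoImplicit false

universe u

namespace Pool.Agent.SUR

open Pool.Agent.WhK

/-- all finitely generated subgroups satisfy `CentHom` -/
def LocCentHom (G : Type*) [Group G] : Prop := ∀ G₀ : Subgroup G, G₀.FG → CentHom G₀

/-- LOC (150 lines). Direct limits.
Proof. `x = K1.mk n X`. Let `G₀` be generated by the elements of the supports of all entries of `X`
and `X⁻¹` (finitely generated). The entries are in the range of the injective ring homomorphism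
`ringMap G₀.subtype`, so `X = GLn.map (ringMap G₀.subtype) n X₀` (the inverse relations hold by
injectivity) and `x = K1.map (ringMap G₀.subtype) (K1.mk n X₀)`. Apply the hypothesis to
`π.comp G₀.subtype` and `K1.mk n X₀` (`K1.map_comp`, `ringMap_comp`). A generator
`K1.map (ringMap ((π.comp G₀.subtype).comp H.subtype)) z`, `H` a finite subgroup of `G₀`, is the
generator for `H.map G₀.subtype` and the image of `z` under the isomorphism
`H ≃* H.map G₀.subtype`. -/
def s_LOC : Prop := ∀ (G : Type u) [Group G], (∀ G₀ : Subgroup G, G₀.FG → SurjG G₀) → SurjG G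

/-- VALF (250 lines). A homomorphism to `ℤ` from the units of a finitely generated field of positive
characteristic which does not vanish at a given element which is not a root of unity.
Proof. `t` is transcendental over `ZMod p` (a nonzero element algebraic over `ZMod p` lies in a
finite field, so it is a root of unity). Extend `{t}` to a transcendence basis of `E` contained in
`{t} ∪ S` (`exists_isTranscendenceBasis_between` or similar) and let `T` be the rest, `K` the subfield
(intermediate field) generated by `T`; `t` is transcendental over `K`, `E` is algebraic and finitely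
generated, so finite, over `K(t)`. `K(t)` is the fraction field of the polynomial ring `K[t]`; let
`v` be the valuation at the prime `(t)`, as a homomorphism from the units of `K(t)` to `ℤ` (for
example `IsDedekindDomain.HeightOneSpectrum.valuation` on `RatFunc K` or on `FractionRing K[X]`, and
`WithZero.unitsWithZeroEquiv`), `v(t) ≠ 0`. Take `f = v ∘ Norm`, `Norm = Algebra.norm K(t)`:
`f(t) = [E : K(t)] v(t) ≠ 0`. No extension of valuations is needed. -/
def s_VALF : Prop := ∀ (E : Type u) [Field E] (p : ℕ) [Fact p.Prime] [CharP E p] (S : Set E),
  S.Finite → Subfield.closure S = ⊤ → ∀ t : Eˣ, ¬IsOfFinOrder t →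
  ∃ f : Eˣ →* Multiplicative ℤ, (f t).toAdd ≠ 0

/-- EIG (250 lines). The determinant on a generalised eigenspace.
Proof. If all eigenvalues of `g` in an algebraic closure `L` of `F` were roots of unity, then some
power `g^k`, `k > 0`, would be unipotent, `(g^k - 1)^n = 0`, and `g^(k p^s) - 1 = (g^k - 1)^(p^s) = 0`
for `p^s ≥ n`. So there is an eigenvalue `t` in `L` which is not a root of unity (it is not `0`). Let
`E` be the subfield of `L` generated by `t` and by the (images of the) entries of a finite set of
generators of `G₀` and of their inverses. All elements of `G₀` have entries in `E` (the matrices of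
`GL n L` in the range of `GL n E` form a subgroup), so there is an injective homomorphism
`j : G₀ →* GL n E`. The generalised eigenspace `V = ker (j g - t)^n` over `E` is not `0` and
invariant under the `j z`, `z` in the centraliser; `d z = det (j z | V)` is a homomorphism to `Eˣ`,
and `d g = t ^ (dim V)` because `j g - t` is nilpotent on `V` (for example: the characteristic
polynomial of `j g | V` divides a power of `X - t`; or `d g` is a product of eigenvalues). So `d g`
is not a root of unity. -/
def s_EIG : Prop := ∀ (F : Type u) [Field F] (p : ℕ) [Fact p.Prime] [CharP F p] (n : ℕ)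
  (G₀ : Subgroup (GL (Fin n) F)), G₀.FG → ∀ g : G₀, ¬IsOfFinOrder g →
  ∃ (E : Type u) (_ : Field E) (_ : CharP E p) (S : Set E), S.Finite ∧ Subfield.closure S = ⊤ ∧
    ∃ d : Subgroup.centralizer {g} →* Eˣ,
      ¬IsOfFinOrder (d ⟨g, Subgroup.mem_centralizer_singleton_iff.2 rfl⟩)

/-- LINP (40 lines). Subgroups of `GL n F`, `F` a field of positive characteristic. Hypotheses
`s_VALF`, `s_EIG`.
Proof. A finitely generated subgroup `G₁` of the group `G ≤ GL n F` corresponds to the finitely
generated subgroup `G₁.map G.subtype` of `GL n F`, isomorphic to it; `EIG` and `VALF`, `f ∘ d`. -/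
def s_LINP : Prop := ∀ (F : Type u) [Field F] (p : ℕ) [Fact p.Prime] [CharP F p] (n : ℕ)
  (G : Subgroup (GL (Fin n) F)), LocCentHom G

/-- WALC (40 lines). Groups acting on spaces with walls. Hypothesis `s_WAL`.
Proof. A subgroup acts on the same space and satisfies the same hypotheses (an element of the
subgroup of infinite order has infinite order in the group); `WAL` gives `LengthBound`, which gives
`CentHom`. -/
def s_WALC : Prop := ∀ (G V : Type u) [Group G] [MulAction G V] (ℋ : Set (Set V)), Nonempty V →
  (∀ (g : G), ∀ h ∈ ℋ, (fun x => g • x) '' h ∈ ℋ) →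
  (∀ x y : V, {h ∈ ℋ | x ∈ h ∧ y ∉ h}.Finite) →
  (∀ g : G, ¬IsOfFinOrder g → ∃ h ∈ ℋ, ∃ (x : V) (n : ℕ), ∀ i : ℕ, n ≤ i →
    (g⁻¹) ^ i • x ∈ h ∧ g ^ i • x ∉ h) →
  LocCentHom G

end Pool.Agent.SUR
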