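import Pool.Agent.SUR.St5

/-!
# Whitehead groups, arbitrary target groups

The trivial units `± g` are allowed on both sides.
-/

set_option autoImplicit false

universe u

namespace Pool.Agent.SUR

open Pool.Agent.WhK

/-- the theorem modulo trivial units, for `K₁` -/
def SurjT (G : Type u) [Group G] : Prop :=
  ∀ (Γ : Type u) [Group Γ] (π : G →* Γ) (x : K1 (MonoidAlgebra ℤ G)),
  (∃ n : ℕ, 0 < n ∧ n • K1.map (ringMap π) x ∈ FinPart Γ ⊔ trivUnits Γ) →
  ∃ n : ℕ, 0 < n ∧ n • K1.map (ringMap π) x ∈ FinPartOf π ⊔ trivUnits Γ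

/-- the theorem for Whitehead groups -/
def SurjW (G : Type u) [Group G] : Prop :=
  ∀ (Γ : Type u) [Group Γ] (π : G →* Γ) (x : Wh G),
  (∃ n : ℕ, 0 < n ∧ n • Wh.map π x ∈ AddSubgroup.closure
    {y | ∃ (H : Subgroup Γ) (_ : Finite H) (z : Wh H), y = Wh.map H.subtype z}) →
  ∃ n : ℕ, 0 < n ∧ n • Wh.map π x ∈ AddSubgroup.closure
    {y | ∃ (H : Subgroup G) (_ : Finite H) (z : Wh H), y = Wh.map (π.comp H.subtype) z}

/-- KCW (as `KCG`, modulo trivial units).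
Proof. As `KCO` / `KCG`. `n1 • K1.mk n X = a + b`, `a ∈ FinPart Γ`, `b ∈ trivUnits Γ`. A multiple of `a`
is in the range of `liftColim` (`KCG`), so there are `n0`, `ξ`, `b'` with
`n0 • K1.mk n X = liftColim (K1.unitHom _) ξ + b'`, `b' ∈ trivUnits Γ`. `b' = K1.ofUnit w` for some
`w ∈ Wtriv Γ` (as in `Lmap_eq_zero`, `Lib_helper44/Wh/StepA.lean`: `h3`). With `exists_total ξ`
(unit `v`): `K1.ofUnit (v * w) = n0 • K1.mk n X`; then as in `KCO`; `GamGL` of the stabilisation of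
`w` vanishes at all `some κ` (`hw` in `Lmap_eq_zero`). -/
def s_KCW : Prop := ∀ (Γ : Type u) [Group Γ] (n : ℕ) (X : GLn (MonoidAlgebra ℤ Γ) n),
  (∃ n1 : ℕ, 0 < n1 ∧ n1 • K1.mk n X ∈ FinPart Γ ⊔ trivUnits Γ) →
  ∃ (n0 : ℕ) (ξ : ColimK1 Γ) (k : ℕ) (hk : n ≤ k + 1), 0 < n0 ∧
    n0 • K1.mk n X - liftColim (K1.unitHom (MonoidAlgebra ℤ Γ)) ξ ∈ trivUnits Γ ∧
    ∀ (p m : ℕ) [Fact p.Prime] (hp : p ≠ 2) (κ : ConjClasses Γ),
      Lmap Γ k p m hp ξ (some κ) =
        n0 • (GamGL Γ (k + 1) p m hp (stabGL (MonoidAlgebra ℤ Γ) n (k + 1) hk X)).toAdd (some κ)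

/-- FINW (as `FING`, `Pool/Agent/SUR/FING.lean`). Hypotheses `s_ENG`, `s_KCW`, `s_LIF`, `s_NTG`.
Proof. As `FING`; the last step: `(n1 * D) • (n0 • π x - liftColim ξ) ∈ trivUnits Γ` and a multiple of
`liftColim (n1 • D • ξ)` is in `FinPartOf π`. -/
def s_FINW : Prop := ∀ (G : Type u) [Group G], ArithR G → SurjT G

/-- LOCT (as `LOC`). Direct limits. -/
def s_LOCT : Prop := ∀ (G : Type u) [Group G], (∀ G₀ : Subgroup G, G₀.FG → SurjT G₀) → SurjT G

/-- WHT (100 lines). From `K₁` modulo trivial units to Whitehead groups.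
Proof. `Wh Γ` is the quotient of `K₁(ℤ[Γ])` by `trivUnits Γ`, `Wh.mk : K₁ → Wh`. `x = Wh.mk y`
(`Wh.exists_mk`), `Wh.map π (Wh.mk y) = Wh.mk (K1.map (ringMap π) y)` (`Wh.map_mk`). The closure in the
hypothesis is the image of `FinPart Γ` under `Wh.mk` (`AddMonoidHom.map_closure`, `Wh.exists_mk`), so
`n • K1.map (ringMap π) y ∈ FinPart Γ ⊔ trivUnits Γ`; the same for the conclusion. -/
def s_WHT : Prop := ∀ (G : Type u) [Group G], SurjT G → SurjW G

/-- FINITE (60 lines). Finite target groups, torsion free groups.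
Proof. (1) `H = ⊤`: `(⊤ : Subgroup Γ).subtype` is an isomorphism, so `Wh.map` of it is surjective
(`Wh.map_comp` with the inverse). (2) Finite subgroups of `G` are trivial, `Wh` of a trivial group is
a torsion group (`Pool/Agent/SUR/TF.lean`), so all elements of the closure have finite order. -/
def s_FINITE : Prop :=
  (∀ (Γ : Type u) [Group Γ] [Finite Γ] (y : Wh Γ), y ∈ AddSubgroup.closure
    {y | ∃ (H : Subgroup Γ) (_ : Finite H) (z : Wh H), y = Wh.map H.subtype z}) ∧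
  (∀ (G Γ : Type u) [Group G] [Group Γ] (π : G →* Γ), (∀ g : G, IsOfFinOrder g → g = 1) →
    ∀ y ∈ AddSubgroup.closure
      {y | ∃ (H : Subgroup G) (_ : Finite H) (z : Wh H), y = Wh.map (π.comp H.subtype) z},
    ∃ n : ℕ, 0 < n ∧ n • y = 0)

end Pool.Agent.SUR
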