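import Pool.Agent.SUR.StR

/-!
# Outer automorphism groups: unique roots and integral representations

Statements of the modules `DTO_XXX`, `theorem Pool.Agent.SUR.t_OXXX : s_OXXX` in
`Pool/Agent/SUR/OXXX.lean`. Conjugacy classes are separated by the functions `cyT ρ`: the coefficient of
`ε` in the trace of a representation over the dual numbers `ℤ[ε]` which is unitriangular modulo `ε`. For
free groups these functions contain the coefficients of the cyclic words in the Magnus expansion.
-/

set_option autoImplicit false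

universe u

namespace Pool.Agent.SUR

open Finset

/-! ### Definitions -/

/-- representations over the dual numbers which are unitriangular modulo `ε` -/
def Adm {π : Type*} [Group π] {d : ℕ} (ρ : π →* Matrix (Fin d) (Fin d) (DualNumber ℤ)) : Prop :=
  ∀ h i j, j ≤ i → TrivSqZeroExt.fst (ρ h i j) = if i = j then 1 else 0

/-- the coefficient of `ε` in the trace -/
def cyT {π : Type*} [Group π] {d : ℕ} (ρ : π →* Matrix (Fin d) (Fin d) (DualNumber ℤ)) (g : π) :
    ℤ :=
  TrivSqZeroExt.snd (Matrix.trace (ρ g))

/-- an automorphism which preserves all functions `cyT ρ` is inner -/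
def OutSep (π : Type*) [Group π] : Prop :=
  ∀ θ : MulAut π, (∀ (d : ℕ) (ρ : π →* Matrix (Fin d) (Fin d) (DualNumber ℤ)), Adm ρ →
    ∀ g, cyT ρ (θ g) = cyT ρ g) → θ ∈ (MulAut.conj (G := π)).range

/-- the commutators of the integral group ring, as a `ℤ`-submodule -/
noncomputable def CR (π : Type*) [Group π] : Submodule ℤ (MonoidAlgebra ℤ π) :=
  Submodule.span ℤ {z | ∃ x y : MonoidAlgebra ℤ π, z = x * y - y * x}

/-! ### The modules -/

/-- OMAT (200 lines). The coefficient of a cyclic word.
Proof. Put `M = m + 2`, indices modulo `M`. For a letter `z` let `N z` be the matrix with the entries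
`c i` at `(i, i + 1)` for all `i` with `x i = z`, and `0` else, where `c i = 1` for `i < M - 1` and
`c (M - 1) = ε` (the entry `(M - 1, 0)`). `N z * N z = 0` because `x i ≠ x (i + 1)`. `ρ (of z) = 1 + N z`
(inverse `1 - N z`), `ρ (of z ^ k) = 1 + k N z`. Modulo `ε` the `N z` are strictly upper triangular, so
`Adm ρ`. The product of the `1 + f k N (y k)`, `k < m'`, is the sum over subsets `T` of `Fin m'` of the
products of the `f k N (y k)`, `k ∈ T` (in order). A product of `s` matrices `N z` has nonzero entries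
only at places `(i, i + s)`, so its trace is `0` if `M` does not divide `s`. So for `m' < M` only `T = ∅`
contributes to the trace, and `cyT = 0`. For `m' = M` only `T = ∅` and `T = univ` contribute, and the
trace of `N (x 0) ⋯ N (x (M - 1))` is `ε` times the number of the `j` with `x (j + i) = x i` for all
`i` (a path from `j` to `j + M` passes each place `(i, i + 1)` once), and `j = 0` is one of them. So
`cyT = (∏ e i) * (number)`, not `0`. It may be convenient to grade: say that a matrix `A` has degree `s` if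
`A i j = 0` unless `j = i + s` (in `Fin M`), and to write the product as a sum of a matrix of
path length less than `M`. -/
def s_OMAT : Prop := ∀ (α : Type u) (m : ℕ) (x : Fin (m + 2) → α) (e : Fin (m + 2) → ℤ),
  (∀ i, x i ≠ x (i + 1)) → (∀ i, e i ≠ 0) →
  ∃ ρ : FreeGroup α →* Matrix (Fin (m + 2)) (Fin (m + 2)) (DualNumber ℤ), Adm ρ ∧
    cyT ρ ((List.ofFn fun i => FreeGroup.of (x i) ^ e i).prod) ≠ 0 ∧
    ∀ (m' : ℕ) (y : Fin m' → α) (f : Fin m' → ℤ), m' < m + 2 →
      cyT ρ ((List.ofFn fun i => FreeGroup.of (y i) ^ f i).prod) = 0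

/-- OSYL (150 lines). Syllables (see `Pool/Agent/SUR/PFREE.lean`).
Proof. (1) Every element of a free group is a product of powers `of (x i) ^ e i` with `e i ≠ 0` and
different adjacent letters. (2) Cyclic form: induction on the number of syllables; if there are at least
two and the first and the last letter agree, conjugate by the last syllable and merge it with the first
one (if the exponents add up to `0`, the number drops by two: then the adjacent ones may be equal,
so use the statement for products of any powers and induction on their number: if two cyclically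
adjacent letters agree, merge them after a rotation; if an exponent is `0`, drop it). -/
def s_OSYL : Prop := ∀ (α : Type u) (g : FreeGroup α),
  (∃ (l : ℕ) (z : Fin l → α) (f : Fin l → ℤ),
    g = (List.ofFn fun i => FreeGroup.of (z i) ^ f i).prod ∧ (∀ i, f i ≠ 0) ∧
    ∀ i j : Fin l, (i : ℕ) + 1 = j → z i ≠ z j) ∧
  (g = 1 ∨ (∃ (x : α) (e : ℤ), e ≠ 0 ∧ IsConj (FreeGroup.of x ^ e) g) ∨
    ∃ (m : ℕ) (x : Fin (m + 2) → α) (e : Fin (m + 2) → ℤ), (∀ i, x i ≠ x (i + 1)) ∧
      (∀ i, e i ≠ 0) ∧ IsConj ((List.ofFn fun i => FreeGroup.of (x i) ^ e i).prod) g)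

/-- OINN (250 lines). Hypotheses `s_OMAT`, `s_OSYL`. Free groups.
Proof. `cyT ρ` is invariant under conjugation. Let `θ` preserve all `cyT ρ`. (Step 1) `θ (of x)` is
conjugate to `of x`: otherwise by `OSYL` it is (a) conjugate to a cyclic product with `m + 2` syllables:
take `ρ` from `OMAT`, `cyT ρ (θ (of x)) ≠ 0` but `cyT ρ (of x) = 0` (one syllable); (b) conjugate to
`of y ^ e` or `1`: the representation `ρ z` of size `1`, `of z ↦ 1 + ε`, `of z' ↦ 1` for `z' ≠ z`, has
`cyT (ρ z) =` exponent sum of `z`; `z = x` gives `y = x`, `e = 1`. (Step 2) If `x ≠ y`,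
`θ (of x) = of x`, then `θ (of y) = of x ^ k * of y * of x ^ (-k)` for some `k : ℤ`: write
`θ (of y) = g * of y * g⁻¹`, and by `OSYL` `g = of x ^ k * g' * of y ^ j` with `g'` a product of `l`
syllables `z i ^ f i`, adjacent letters different, first letter not `x`, last letter not `y` (strip a first
syllable with letter `x` and a last one with letter `y`). If `l ≥ 1`, `θ (of x * of y)` is conjugate to
`of x * g' * of y * g'⁻¹`, a cyclic product with `2 l + 2` syllables
`x, z 0, …, z (l - 1), y, z (l - 1), …, z 0` and nonzero exponents, cyclically adjacent letters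
different, so `OMAT` gives `ρ` with `cyT ρ (θ (of x * of y)) ≠ 0`, but `cyT ρ (of x * of y) = 0` (two
syllables, `2 < 2 l + 2`). So `l = 0`. (Step 3) If `α` is empty, clear. Let `x₁ : α`; by Step 1, after
composing `θ` with an inner automorphism, `θ (of x₁) = of x₁`, and `θ (of y) = x₁ ^ k y x₁ ^ (-k)`,
`k = k y`, for all `y ≠ x₁`. If there is `y₀ ≠ x₁`, compose with the conjugation by `x₁ ^ (-k y₀)`; so
`k y₀ = 0`. For `y ≠ x₁, y₀`: if `k y ≠ 0`, `θ (of y₀ * of y) = y₀ x₁ ^ k y x₁ ^ (-k)` is a cyclic
product with four syllables, a contradiction as before. So `θ` fixes all generators. -/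
def s_OINN : Prop := ∀ α : Type u, OutSep (FreeGroup α)

/-- OTRJ (150 lines). The functions `cyT` and the filtrations.
Proof. Extend `ρ` to a ring homomorphism `ρ'` from `MonoidAlgebra ℤ π` to the matrices
(`MonoidAlgebra.lift`) and put `λ a = snd (trace (ρ' a))`, additive; `λ` vanishes on `CR π`
(`Matrix.trace_mul_comm`). `ρ'` maps `IZ π ^ k` to `0` for `k ≥ 2 * d + 1`: elements of `IZ π` go to
matrices which are strictly upper triangular modulo `ε`, products of `d` of them are `0` modulo `ε`,
so products of `2 d` of them are `0` (`ε ^ 2 = 0`). So (2): `m * (cyT ρ g - cyT ρ h) = 0`. (1)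
`J2 π ^ k` maps to matrices all of whose entries are divisible by `2 ^ (k - 2 * d - 1)`:
`J2 π ≤ 2 R + IZ π`, so `J2 π ^ k` is contained in the sum of the `2 ^ i IZ π ^ (k - i)` and `2 ^ k R`
(induction on `k`: `J2 π ^ k ≤ ⨆ i ≤ k`, or directly: the set `N k` of the matrices `A` such that `A` is a
sum of `2 ^ i B` with `B` a product of `k - i` matrices strictly upper triangular modulo `ε`). So
`cyT ρ g - cyT ρ h` is divisible by all powers of `2`. -/
def s_OTRJ : Prop := ∀ (π : Type u) [Group π] (d : ℕ)
  (ρ : π →* Matrix (Fin d) (Fin d) (DualNumber ℤ)), Adm ρ → ∀ g h : π,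
  ((∀ k : ℕ, 1 ≤ k → (MonoidAlgebra.single g 1 - MonoidAlgebra.single h 1 : MonoidAlgebra ℤ π) ∈
    J2 π ^ k ⊔ CR π) → cyT ρ g = cyT ρ h) ∧
  ((∀ k : ℕ, 1 ≤ k → ∃ m : ℤ, m ≠ 0 ∧
    m • (MonoidAlgebra.single g 1 - MonoidAlgebra.single h 1 : MonoidAlgebra ℤ π) ∈
    IZ π ^ k ⊔ CR π) → cyT ρ g = cyT ρ h)

/-- OUTU (150 lines). Hypotheses `s_PJ2`, `s_OTRJ`. Unique roots in outer automorphism groups.
Proof. In the proof of `PAUT` (2) (`Pool/Agent/SUR/PAUT.lean`; use its lemmas) there is `m > 0` such that
for all `θ : MulAut π`, `s`, `t` the automorphism `θ ^ (m 2 ^ s t)` has level `s + 1`; in particular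
`θ ^ (m 2 ^ s t) a - a ∈ J ^ (s + 1)` for all `a` in the group ring. Let `p > max 2 m` be a prime,
`q x ^ p = q y ^ p`, so `x ^ p = y ^ p * conj h`. For `s` choose `u, t` with `p u = 1 + m 2 ^ s t`. For
`g : π`: `x ^ (p u) g = x (x ^ (m 2 ^ s t) g) ≡ x g` modulo `J ^ (s + 1)`. As the inner automorphisms are
normal, `x ^ (p u) = y ^ (p u) * conj h'` for some `h'`, so
`x ^ (p u) g = y (y ^ (m 2 ^ s t) (h' g h'⁻¹)) ≡ y (h' g h'⁻¹) ≡ y g` modulo `J ^ (s + 1)` and `CR π`
(`y (h' g h'⁻¹) = y h' * y g * (y h')⁻¹`). So `x g - y g ∈ J ^ k ⊔ CR π` for all `k`, and applying `y⁻¹`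
the same for `θ g` and `g`, `θ = y⁻¹ * x`. By `OTRJ` `θ` preserves all `cyT ρ`, so it is inner
(`OutSep`) and `q x = q y`. -/
def s_OUTU : Prop := ∀ (π : Type u) [Group π], Group.FG π → OutSep π →
  ∀ (𝒢 : Type u) [Group 𝒢] (q : MulAut π →* 𝒢), Function.Surjective q →
  q.ker = (MulAut.conj (G := π)).range → UniqExp 𝒢

/-- OUTL (220 lines). Hypotheses `s_RGRF`, `s_OTRJ`. Integral representations of outer automorphism
groups (compare `s_RLSZ`, part (2)).
Proof. `I = IZ π`, `A = MonoidAlgebra ℤ π`. Let `L k` be the quotient of `A` by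
`{a | ∃ m ≠ 0, m a ∈ I ^ k ⊔ CR π}`: finitely generated (`RGRF`), torsion free, so free. `MulAut π` acts
on it, inner automorphisms act trivially (`h a h⁻¹ - a = (h a) h⁻¹ - h⁻¹ (h a)`), so `𝒢` acts
(`q` is surjective with kernel the inner automorphisms). Let `q x` have infinite order and suppose that it
has finite order in all these representations (`k ≥ 1`); let `x ^ e`, `e > 0`, act trivially on `L 2`.
`CR π ≤ I ^ 2` (`x y - y x` does not change if the augmentations are subtracted). So for all `a` a nonzero
multiple of `η a - a`, `η = x ^ e`, is in `I ^ 2`, and as in `RLSZ` for `a ∈ I ^ k` a nonzero multiple of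
`η a - a` is in `I ^ (k + 1)`, so `η` is unipotent on `L k`, of finite order, so trivial. So for all
`g`, `k` a nonzero multiple of `η g - g` is in `I ^ k ⊔ CR π`, `η` preserves all `cyT ρ` by `OTRJ`, so it
is inner, and `q x ^ e = 1`, a contradiction. -/
def s_OUTL : Prop := ∀ (π : Type u) [Group π], Group.FG π → OutSep π →
  ∀ (𝒢 : Type u) [Group 𝒢] (q : MulAut π →* 𝒢), Function.Surjective q →
  q.ker = (MulAut.conj (G := π)).range → LinSepZ 𝒢

end Pool.Agent.SUR
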