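import Pool.Agent.SUR.StD
import Pool.Agent.SUR.CondN

/-!
# The Dennis trace of `K₁(ℤ[G])`: elements of finite order, and groups with unique roots

Statements of the modules `DTP_XXX`: `theorem Pool.Agent.SUR.t_PXXX : s_PXXX` in
`Pool/Agent/SUR/PXXX.lean` (hypotheses named in the doc strings become arguments of the theorem, for
example `theorem t_PTOR (hREF : s_PREF.{u}) (hRES : s_ARES.{u}) : s_PTOR.{u}`). The definitions are
those of `StA.lean`, `StD.lean`.
-/

set_option autoImplicit false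

universe u

namespace Pool.Agent.SUR

open Pool.Agent.WhK Finset

/-! ### Definitions -/

open Classical in
/-- the part of a cocycle at a conjugacy class -/
noncomputable def atG {G A : Type*} [Group G] [AddCommGroup A] (K : ConjClasses G) (F : G → G → A)
    (a b : G) : A :=
  if ConjClasses.mk (a * b) = K then F a b else 0

/-- for finite sets `S` of elements of infinite order there are arbitrarily large primes `p` such that for
all `x, y ∈ S` the centralisers of `x ^ p` and of `x` agree, `x ^ p` is not conjugate to `y`, and `x ^ p` is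
conjugate to `y ^ p` only if `x` is conjugate to `y` -/
def PRoots (G : Type u) [Group G] : Prop :=
  ∀ S : Finset G, (∀ x ∈ S, ¬IsOfFinOrder x) → ∀ N : ℕ, ∃ p : ℕ, N < p ∧ p.Prime ∧
    (∀ x ∈ S, ∀ h : G, h * x ^ p = x ^ p * h → h * x = x * h) ∧
    ∀ x ∈ S, ∀ y ∈ S, ¬IsConj (x ^ p) y ∧ (IsConj (x ^ p) (y ^ p) → IsConj x y)

/-- for `x` of infinite order and any `y` only finitely many `x ^ p`, `p` prime, are conjugate to `y` -/
def FewRoots (G : Type u) [Group G] : Prop :=
  ∀ x y : G, ¬IsOfFinOrder x → {p : ℕ | p.Prime ∧ IsConj (x ^ p) y}.Finite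

/-- all elements of infinite order have infinite order in some linear quotient -/
def LinSep (G : Type u) [Group G] : Prop :=
  ∀ x : G, ¬IsOfFinOrder x → ∃ (F : Type u) (_ : Field F) (n : ℕ) (ρ : G →* GL (Fin n) F),
    ¬IsOfFinOrder (ρ x)

/-- the augmentation of the group ring modulo `2`, as a `ℤ`-submodule -/
noncomputable def J2 (π : Type*) [Group π] : Submodule ℤ (MonoidAlgebra ℤ π) :=
  Submodule.span ℤ (insert 2 {x | ∃ g : π, x = MonoidAlgebra.single g 1 - 1})

/-- the augmentation ideal of the rational group ring, as a `ℚ`-submodule -/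
noncomputable def IQ (π : Type*) [Group π] : Submodule ℚ (MonoidAlgebra ℚ π) :=
  Submodule.span ℚ {x | ∃ g : π, x = MonoidAlgebra.single g 1 - 1}

/-! ### Elements of finite order -/

/-- PREF: `AREF` for all primes (the proof of `t_AREF` does not use `p ≠ 2`). -/
def s_PREF : Prop := ∀ (𝔐 K : Type u) [Monoid 𝔐] (cl : 𝔐 → K)
  (hcl : ∀ a b, cl (a * b) = cl (b * a)) (k : K) (p m : ℕ) [Fact p.Prime],
  ∀ (v : ℤ_[p]) (W : 𝔐 → 𝔐 → ℤ_[p]), WtAtA cl k v W → ∀ w : (MonoidAlgebra ℤ 𝔐)ˣ,
    PadicInt.toZModPow (m + 1) v * gamVal cl hcl p m w k =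
      PadicInt.toZModPow (m + 1) (bil W (w⁻¹ : (MonoidAlgebra ℤ 𝔐)ˣ).val w.val -
        bil (pwA W p) (w⁻¹ : (MonoidAlgebra ℤ 𝔐)ˣ).val w.val)

/-- PSUM (60 lines). The parts at the conjugacy classes. `S` is the set of the classes of the products
`a b`, `a` in the support of an `X⁻¹ i j`, `b` in the support of `X j i` (compare `DTRaux.bil_atC` in
`Pool/Agent/SUR/DTR.lean`). In (2) the class of `a (b c)`, `(a b) c`, `(c a) b` is the same. -/
def s_PSUM : Prop := ∀ (G : Type u) (A : Type) [Group G] [AddCommGroup A],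
  (∀ (n : ℕ) (X : (Matrix (Fin n) (Fin n) (MonoidAlgebra ℤ G))ˣ), ∃ S : Finset (ConjClasses G),
    ∀ F : G → G → A, pairF F X = ∑ K ∈ S, pairF (atG K F) X) ∧
  (∀ (F : G → G → A) (K : ConjClasses G), IsWtA F → IsWtA (atG K F)) ∧
  (∀ (B : Type) [AddCommGroup B] (ψ : A →+ B) (F : G → G → A) (n : ℕ)
    (X : (Matrix (Fin n) (Fin n) (MonoidAlgebra ℤ G))ˣ),
    pairF (fun a b => ψ (F a b)) X = ψ (pairF F X))

/-- PTOR (150 lines). Hypotheses `s_PREF`, `s_ARES`.
Proof. The set `SC MM.cl w` is finite. Choose `B` such that `p ^ B` does not divide `orderOf c` for the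
`c` of finite order with `some (ConjClasses.mk c) ∈ SC MM.cl w` (the order depends only on the class). By
induction on `k`: the assertion holds for all `g` (of finite order, `p ∣ orderOf g`) and `W` if
`p ^ (B - k) ∣ orderOf g`. For `k = 0` the class of `g` is not in `SC MM.cl w`, so all summands of `bil`
vanish. Step: `PREF` with `v = 0` for all `m` gives `bil W w⁻¹ w = bil (pwA W p) w⁻¹ w`
(`PadicInt.ext_of_toZModPow`). By the third part of `ARES`, with `S` the finite set of the `C` with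
`some C ∈ SC MM.cl w` and `powC p C = ConjClasses.mk g`, this is the sum of the
`bil (resWA MM.cl W p (some C)) w⁻¹ w`, `C ∈ S`, and by the second part `resWA MM.cl W p (some C)` is a
weight at `C` with constant `v'`, `0 = p v'`, so `v' = 0`. If `C` is the class of `c`, then `c ^ p` is
conjugate to `g`, so `c` has finite order and `orderOf c = p * orderOf g` (`orderOf_pow`:
`orderOf (c ^ p) = orderOf c / gcd (orderOf c) p`, and the gcd is `1` or `p`; if it is `1`, then
`p ∣ orderOf g = orderOf c`, a contradiction). So `p ^ (B - k) ∣ orderOf c`. -/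
def s_PTOR : Prop := ∀ (G : Type u) [Group G] (n p : ℕ) [Fact p.Prime], 0 < n →
  ∀ (w : (MonoidAlgebra ℤ (MM G n))ˣ) (g : G), IsOfFinOrder g → p ∣ orderOf g →
  ∀ W : MM G n → MM G n → ℤ_[p], WtAtA MM.cl (some (ConjClasses.mk g)) 0 W →
    bil W (w⁻¹ : (MonoidAlgebra ℤ (MM G n))ˣ).val w.val = 0

/-- PFIN (130 lines). Hypotheses `s_DMM`, `s_PTOR`, `s_PSUM`.
Proof. `n = 0`: clear. A rational number whose denominator is not divisible by `p` is a `p`-adic integer
(`Padic.norm_rat_le_one`), so there is `F' : G → G → ℤ_[p]` with `(F' a b : ℚ_[p]) = (F a b : ℚ)`; it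
satisfies the rule (the coercion `ℤ_[p] → ℚ_[p]` is injective and additive). `F' 1 g = 0`: the function
`j ↦ F' (g ^ (1 - j)) (g ^ j)` (`j : ℤ`) is additive by the rule, it vanishes at
`j = 0` (`F' a 1 = 0`), so at `j = orderOf g`, so at `j = 1` (`ℤ_[p]` has no torsion). `FMM F' n` is a
weight at the class of `g` with constant `0` by `DMM` (`atC` of it is itself, since it sees only this
class), so `pairF F' X = bil (FMM F' n) w⁻¹ w = 0` by `PTOR`, `w = Units.map (Fhom G n) X` (compare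
`t_DTR`). The image of `pairF F' X` in `ℚ_[p]` is the image of `pairF F X` (`PSUM`, third part,
twice). -/
def s_PFIN : Prop := ∀ (G : Type u) [Group G] (g : G), IsOfFinOrder g → ∀ (p : ℕ) [Fact p.Prime],
  p ∣ orderOf g → ∀ F : G → G → ℚ, IsWtA F → (∀ a b, F a b ≠ 0 → IsConj (a * b) g) →
  (∀ a b, ¬p ∣ (F a b).den) →
  ∀ (n : ℕ) (X : (Matrix (Fin n) (Fin n) (MonoidAlgebra ℤ G))ˣ), pairF F X = 0

/-! ### Groups with unique roots -/

/-- PCMP (60 lines). Hypotheses `s_DANT`, `s_DPB`, `s_LLIFT`.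
Proof. `Lft 2 w x y` by `LLIFT`; the pull backs of `W` and `U` under `th 𝔑` are weights for
`fun a => cl (th 𝔑 a)` of degree `0` (`DPB`), so `bil (U ∘ th) y x = 0` by `DANT` with `r = 0`, and this is
`bil U w⁻¹ w` by the third part of `DPB`. -/
def s_PCMP : Prop := ∀ (𝔑 K : Type u) [Monoid 𝔑] (cl : 𝔑 → K), (∀ a b, cl (a * b) = cl (b * a)) →
  ∀ (k : K) (v : ℚ) (W U : 𝔑 → 𝔑 → ℚ), v ≠ 0 → WtAtA cl k v W → WtAtA cl k 0 U →
  ∀ w : (MonoidAlgebra ℤ 𝔑)ˣ, bil U (w⁻¹ : (MonoidAlgebra ℤ 𝔑)ˣ).val w.val = 0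

/-- PCORE (250 lines). Hypotheses `s_PREF`, `s_ARES`, `s_ACOC`, `s_ANEQ`, `s_PCMP`, `s_DMM`.
Proof. `n = 0`: clear. Let `w = Units.map (Fhom G n) X` (compare `t_DTR`), `W = FMM F n`, by `DMM` a weight
at the class `K` of `g` with constant `v = F 1 g` and `d := pairF F X = bil W w⁻¹ w`. Suppose `d ≠ 0`.
Let `S` be a finite set of elements of infinite order which contains `g` and for every class in
`SC MM.cl w` of elements of infinite order an element of the class. Take `p` from `PRoots` for `S` and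
`N = max M 2 + |numerator of d|`, and `j : ZM M →+* ℤ_[p]` from `ANEQ`. (1) No `C` with
`some C ∈ SC MM.cl w` has `powC p C = K`: `C` is the class of `c`, `c ^ p` conjugate to `g`, so `c` has
infinite order and is conjugate to some `c' ∈ S`; but `c' ^ p` is not conjugate to `g`. (2) Case
`v = 0`: `PREF` for `j ∘ W` and all `m` gives `j d = bil (pwA (j ∘ W) p) w⁻¹ w`
(`PadicInt.ext_of_toZModPow`), and this is `0` by the third part of `ARES` with `S = ∅`. So `d = 0`.
(3) Case `v ≠ 0`. By `PRoots` the centraliser of `g ^ p` is that of `g`;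
`f z = F (z⁻¹ g) z` is a homomorphism from it to `Multiplicative (ZM M)` (the rule), `f g = v`, so
`f (g ^ p) = p v`. `ACOC` for `g ^ p`: a weight `W'` at the class `K'` of `g ^ p` with constant `p v`.
`some K' ∉ SC MM.cl w` (else `g ^ p` is conjugate to some `c' ∈ S`), so `bil (j ∘ W') w⁻¹ w = 0`.
`PREF` with `m = 0`: `toZModPow 1 (j (p v)) = 0`, so `p` divides `bil (pwA (j ∘ W') p) w⁻¹ w`
(`PadicInt.ker_toZModPow`). By the third part of `ARES` for `K'` with `S = {K}` (if `c ^ p` is conjugate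
to `g ^ p` then the class of `c` is `K`) this is `bil (j ∘ R) w⁻¹ w`, `R = resWA MM.cl W' p (some K)`.
(4) `R` is a weight at `K` with constant `v` (rule: see `resWA_isWtA` in `ARES.lean`, or by `ARES` and
injectivity of `j`; the constant `v'` satisfies `p v = p v'`), so the difference of `W` and `R`, with
values in `ℚ`, is a weight at `K` with constant `0`, and `bil R w⁻¹ w = bil W w⁻¹ w = d` by `PCMP`. So `p`
divides `j d` in `ℤ_[p]`, and `p` divides the numerator of `d` (`(j d : ℚ_[p]) = d`, its norm is less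
than `1`), a contradiction. -/
def s_PCORE : Prop := ∀ (G : Type u) [Group G] (M : ℕ), 0 < M → PRoots G →
  ∀ g : G, ¬IsOfFinOrder g → ∀ F : G → G → ZM M, IsWtA F →
  (∀ a b, F a b ≠ 0 → IsConj (a * b) g) →
  ∀ (n : ℕ) (X : (Matrix (Fin n) (Fin n) (MonoidAlgebra ℤ G))ˣ), pairF F X = 0

/-- PPRT (40 lines).
Proof. `S`, `N` given. All but finitely many primes `p` are larger than `N` and the bound in `UniqExp`, and
satisfy `¬IsConj (x ^ p) y` for `x, y ∈ S`. If `h x ^ p = x ^ p h`, then `(h x h⁻¹) ^ p = x ^ p`, so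
`h x h⁻¹ = x`. If `k x ^ p k⁻¹ = y ^ p`, then `(k x k⁻¹) ^ p = y ^ p`, so `k x k⁻¹ = y`. -/
def s_PPRT : Prop := ∀ (G : Type u) [Group G], UniqExp G → FewRoots G → PRoots G

/-- PNOR (60 lines). Hypotheses `s_LRES`, `s_ANEQ`, `s_LPSH.{u, 0}`.
Proof. If `y` has finite order the set is empty. Otherwise let `(v, W)` be the weight at the class of `y`
for the size `n = 1`. If `p` is a prime with `p ∤ M` and `x ^ p` is conjugate to `y`, let
`j : ZM M →+* ℤ_[p]` (`ANEQ`); the second part of `LRES` for `j ∘ W` and the class `C` of `x` gives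
`j v = p v'`. So `p` divides the numerator of `v ≠ 0`. -/
def s_PNOR : Prop := ∀ (G : Type u) [Group G] (M r : ℕ), 0 < M → CentWt G M r → FewRoots G

/-- PLSE (80 lines). Hypotheses `s_PNOR`, `s_LWE`, and `locCentEul_linear` (`FinalL.lean`, as the argument
`hlin : ∀ (F : Type u) [Field F] (n : ℕ) (G : Subgroup (GL (Fin n) F)), LocCentEul G`).
Proof. Given `x`, let `ρ` be as in `LinSep`. If `x ^ p` is conjugate to `y` in `G`, then `ρ x ^ p` is
conjugate to `ρ y` in the image `H` of `ρ`, which is finitely generated; `ρ x` has infinite order.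
`CentEul` of the image (use `hlin` for `⊤ : Subgroup (GL (Fin n) F)` and a finitely generated subgroup of
it to which `G` maps), so `CentWt` by `LWE` and `FewRoots` by `PNOR`. -/
def s_PLSE : Prop := ∀ (G : Type u) [Group G], Group.FG G → LinSep G → FewRoots G

/-! ### Automorphisms -/

/-- PJ2 (150 lines). The powers of `J = J2 π` (`ℤ`-submodules of the ring `R = MonoidAlgebra ℤ π`).
Proof. (1) `J = {x | the augmentation of x is even}`, so `R J ⊆ J`, `J R ⊆ J`; by induction on `k ≥ 1`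
`R J ^ k ⊆ J ^ k`, `J ^ k R ⊆ J ^ k` (it suffices to treat generators: `single g 1 * J ⊆ J`), and
`J ^ (k + 1) ⊆ J ^ k`. (2) `J ^ k J ^ l = J ^ (k + l)`. (3) An automorphism `θ` of `π` induces the ring
automorphism `MonoidAlgebra.mapDomain θ`, which preserves `J` and `J ^ k`. (4) Let `ρ` be a homomorphism to
unitriangular matrices, extended to `R` (`MonoidAlgebra.lift`). It maps `J ^ k` to the set `N k` of the
matrices `A` with `A i j = 0` for `j < i` and `2 ^ (k - (j - i)) ∣ A i j` for `i ≤ j` (natural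
subtraction): `J` is mapped to `N 1`, and `N k * N l ⊆ N (k + l)`. So if `h - 1 ∈ J ^ k` for all
`k ≥ 1`, then all entries of `ρ h - 1` are divisible by all powers of `2`, so `ρ h = 1`. -/
def s_PJ2 : Prop := ∀ (π : Type u) [Group π],
  (∀ (k : ℕ) (a : MonoidAlgebra ℤ π), 1 ≤ k → ∀ x ∈ J2 π ^ k, a * x ∈ J2 π ^ k ∧ x * a ∈ J2 π ^ k) ∧
  (∀ k : ℕ, 1 ≤ k → J2 π ^ (k + 1) ≤ J2 π ^ k) ∧
  (∀ (θ : MulAut π) (k : ℕ), ∀ x ∈ J2 π ^ k, MonoidAlgebra.mapDomain θ x ∈ J2 π ^ k) ∧
  (RTN π → ∀ h : π, (∀ k : ℕ, 1 ≤ k → MonoidAlgebra.single h (1 : ℤ) - 1 ∈ J2 π ^ k) → h = 1)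

/-- PAUT (200 lines). Hypothesis `s_PJ2`.
Proof. (1) `G` with `RTN G`: `N = 2`. For `g : G`, `g ^ (2 ^ s) - 1 ∈ J ^ (s + 1)` (induction:
`h ^ 2 - 1 = (h - 1) ^ 2 + 2 (h - 1)`), so `g ^ (2 ^ s * t) - 1 ∈ J ^ (s + 1)` for all `t`. Let `p > 2` be a
prime, `x ^ p = y ^ p`, `s : ℕ`. There are `u, t` with `p u = 1 + 2 ^ s t`. So
`x * x ^ (2 ^ s t) = x ^ (p u) = y ^ (p u) = y * y ^ (2 ^ s t)` and `x - y ∈ J ^ (s + 1)`. So
`x y⁻¹ - 1 ∈ J ^ k` for all `k` and `x = y` by (4) of `PJ2`.
(2) `MulAut π`. The set `K = {g | g - 1 ∈ J ^ 2}` is a normal subgroup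
(`g h - 1 = (g - 1) h + (h - 1)`), invariant under automorphisms. `a ^ 2 ∈ K`
(`a ^ 2 - 1 = (a - 1) ^ 2 + 2 (a - 1)`) and the commutators are in `K`
(`a b a⁻¹ b⁻¹ - 1 = ((a - 1) (b - 1) - (b - 1) (a - 1)) a⁻¹ b⁻¹`), so `π/K` is abelian of exponent `2` and
finitely generated, so finite (`CommGroup.finite_of_fg_torsion`). Let `m = (card (π/K))!`; then
`θ ^ m (g) g⁻¹ ∈ K` for all `θ`, `g` (`θ` induces a permutation of `π/K`, whose order divides `m`). For
`η = θ ^ m` and its extension to `R = MonoidAlgebra ℤ π`: `η x - x ∈ J ^ 2 ⊆ J` for all `x : R`, and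
`η x - x ∈ J ^ (k + 1)` for `x ∈ J ^ k`, `k ≥ 1` (`η (x y) - x y = (η x - x) η y + x (η y - y)`). Say that
`ζ` has level `s ≥ 1` if `ζ x - x ∈ J ^ s` for all `x : R` and `ζ x - x ∈ J ^ (k + s)` for `x ∈ J ^ k`,
`k ≥ 1`. If `ζ` has level `s`, then `ζ ^ 2` has level `s + 1`
(`ζ (ζ x) - x = (ζ z - z) + 2 z`, `z = ζ x - x`), and all powers `ζ ^ t` have level `s`. So
`θ ^ (m 2 ^ s t) ` has level `s + 1`. Let `p > max 2 m` be a prime, `x ^ p = y ^ p` in `MulAut π`. For `s`
choose `u, t` with `p u = 1 + m 2 ^ s t`; then for `g : π`, modulo `J ^ (s + 1)`,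
`x g = x (x ^ (m 2 ^ s t) g) = x ^ (p u) g = y ^ (p u) g = y g`. So `x g * (y g)⁻¹ = 1` by (4) of
`PJ2`. -/
def s_PAUT : Prop := (∀ (G : Type u) [Group G], RTN G → UniqExp G) ∧
  ∀ (π : Type u) [Group π], Group.FG π → RTN π → UniqExp (MulAut π)

/-- PGRF (100 lines). `I = IQ π`, `A = MonoidAlgebra ℚ π`.
Proof. Let `T` be a finite generating set with inverses, `V` the span of the `t - 1`, `t ∈ T`. By
`g h - 1 = (g - 1) (h - 1) + (g - 1) + (h - 1)` and induction over the generated subgroup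
`I ≤ V ⊔ I ^ 2`, `V ≤ I`. So `I ^ k ≤ V ^ k ⊔ I ^ (k + 1)` for `k ≥ 1` and
`⊤ = 1 ⊔ I = 1 ⊔ V ⊔ ⋯ ⊔ V ^ (k - 1) ⊔ I ^ k` (`1` the span of the unit element), and the `V ^ i` are
finitely generated (`Submodule.FG.pow`). So `A ⧸ I ^ k` is finite (the quotient map restricted to
`1 ⊔ V ⊔ ⋯ ⊔ V ^ (k - 1)` is surjective). -/
def s_PGRF : Prop := ∀ (π : Type u) [Group π], Group.FG π → ∀ k : ℕ, 1 ≤ k →
  Module.Finite ℚ (MonoidAlgebra ℚ π ⧸ IQ π ^ k)

/-- PLSA (200 lines). Hypothesis `s_PGRF`.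
Proof. (1) `RTN G`: an element `x ≠ 1` has `ρ x ≠ 1` unitriangular over `ℤ`; it has infinite order
(compare (2)); map the matrices to `GL` over `ULift ℚ`.
(2) `I = IQ π`, `A = MonoidAlgebra ℚ π`. `A I ^ k ⊆ I ^ k`, `I ^ k A ⊆ I ^ k` for `k ≥ 1`, automorphisms of
`π` preserve `I ^ k`. So `MulAut π` acts on the finite dimensional space `C k = A ⧸ I ^ k` (`PGRF`); choose
a basis to get a homomorphism to `GL (Fin n) (ULift ℚ)`. Let `x : MulAut π` have infinite order and suppose
that it has finite order in all these representations (`k ≥ 1`). Let `x ^ e`, `e > 0`, act trivially on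
`C 2`. Then `η = x ^ e` satisfies `η a - a ∈ I ^ 2` for `a ∈ A`, so `η a - a ∈ I ^ (k + 1)` for `a ∈ I ^ k`
(`η (a b) - a b = (η a - a) η b + a (η b - b)`), so `(η - 1) ^ k = 0` on `C k`; as `η` has finite
order on `C k`, `η = 1` on `C k`: if `N = η - 1` is nilpotent and `(1 + N) ^ f = 1`, `f > 0`, then
`N (f + N (⋯)) = 0` and `f + N (⋯)` is invertible. So `η g - g ∈ I ^ k` for all `g`, `k`. By `RTN` this
gives `η g = g`: extend `ρ` to `A → Matrix (Fin m) (Fin m) ℚ`; it maps `I` to strictly upper triangular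
matrices, so `I ^ m` to `0` (products of `m` of them: entries `(i, j)` with `j - i < k` of an element of
the image of `I ^ k` vanish). So `x ^ e = 1`, a contradiction. -/
def s_PLSA : Prop := (∀ (G : Type u) [Group G], RTN G → LinSep G) ∧
  ∀ (π : Type u) [Group π], Group.FG π → RTN π → LinSep (MulAut π)

/-- PFREE (150 lines). Free groups are residually torsion-free nilpotent.
Proof. Let `g ≠ 1` be in the free group. There are `m ≥ 1`, `a : Fin m → α`, `e : Fin m → ℤ`, all
`e k ≠ 0`, `a k ≠ a (k + 1)`, such that `g` is the product of the `(FreeGroup.of (a k)) ^ (e k)`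
(`freeGroupEquivCoprodI` and `Monoid.CoprodI.Word`, or group the letters of the reduced word). Let
`N x` be the matrix of size `m + 1` with entries `1` at `(k, k + 1)` for all `k` with `a k = x` and `0` else;
`N x * N x = 0` since `a k ≠ a (k + 1)`. `ρ` is given by `FreeGroup.of x ↦ 1 + N x` (inverse `1 - N x`), it
has unitriangular values, `ρ (of x ^ e) = 1 + e N x`. Multiply the row vector `(1, 0, …, 0)` by the
factors `1 + e k N (a k)` from the right one after the other: after `k` factors the entry `k` is the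
product of the first `k` exponents and the later entries vanish. So the entry `(0, m)` of `ρ g` is the
product of all exponents, not `0`, and `ρ g ≠ 1`. -/
def s_PFREE : Prop := ∀ α : Type u, RTN (FreeGroup α)

end Pool.Agent.SUR
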