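import Pool.Agent.SUR.StP

/-!
# The Dennis trace of `K₁(ℤ[G])`: rational cocycles for groups with unique roots

Second part of `StP.lean`: statements of the modules `DTQ_XXX`, `theorem Pool.Agent.SUR.t_QXXX : s_QXXX`
in `Pool/Agent/SUR/QXXX.lean`. Here the condition on the centralisers (`EulAt`) is for one element, without
any uniformity, and weights are needed only at `g` and at `g ^ p`.
-/

set_option autoImplicit false

universe u

namespace Pool.Agent.SUR

open Pool.Agent.WhK Finset

/-! ### Definitions -/

/-- the condition on the centraliser `Z` of one element `g`: either (a) `Z` has a homomorphism to `GL_n(A)`,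
`A` a finitely generated subring of a field, which maps `g` to an element of infinite order, or (b) a power
of the Euler class of the central extension of `Z/⟨g ^ j⟩` vanishes, with coefficients in a finitely
generated domain of characteristic `0` (compare `CentEul`) -/
def EulAt (G : Type u) [Group G] (g : G) : Prop :=
  ∃ (F : Type u) (_ : Field F) (S : Set F) (n : ℕ), S.Finite ∧ 0 < n ∧
    ((∃ ρ : Subgroup.centralizer {g} →* Matrix (Fin n) (Fin n) (Subring.closure S),
        ¬IsOfFinOrder (ρ ⟨g, Subgroup.mem_centralizer_singleton_iff.2 rfl⟩)) ∨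
      (CharZero F ∧ ∃ (j : ℕ) (v : Subring.closure S)
        (s : Subgroup.centralizer {g} → Subring.closure S)
        (φ : List (Subgroup.centralizer {g}) → Subring.closure S), 0 < j ∧ v ≠ 0 ∧
        NilEuler ((⟨g, Subgroup.mem_centralizer_singleton_iff.2 rfl⟩ :
          Subgroup.centralizer {g}) ^ j) n v s φ))

/-- the class of `g` has weights of degree at most `r` with values in `ZM M` and a nonzero constant -/
def WtG (G : Type u) [Group G] (M r : ℕ) (g : G) : Prop :=
  ∀ n : ℕ, 0 < n →
    ∃ (v : ZM M) (W : FreeMonoid (MM G n) → FreeMonoid (MM G n) → ZM M), v ≠ 0 ∧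
      WtAtA (clF G n) (some (ConjClasses.mk g)) v W ∧ DegV (th (MM G n)) r W

/-! ### The modules -/

/-- QWT (120 lines). Hypotheses: those of `t_LWE` (`Pool/Agent/SUR/LWE.lean`).
Proof. As `t_LWE`, for one element: `M` from `NNF` for `S`, `r = n * n + n + 2`. Case (a): `LWEx.of_rep`
for `g` and `ρ`, and for `g ^ p` and the composition of `ρ` with the inclusion of the centraliser of
`g ^ p` into that of `g`; it maps `g ^ p` to a `p`-th power of an element of infinite order. Case (b): the
second half of the proof of `t_LWE` for `g`; make it a lemma for an element `g'` with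
`NilEuler (c' ^ j) n v s φ`, and apply it to `g' = g ^ p`: if `c, c'` are `g, g ^ p` as elements of the
centralisers, `ι` the inclusion, then `ι (c' ^ j) = (c ^ j) ^ p`, and
`NilEuler (c' ^ j) n (p • v) (s ∘ ι) (φ ∘ List.map ι)` (iterate `shift`, `per`; `cupE (s ∘ ι) l =
cupE s (l.map ι)`, `cobL (φ ∘ List.map ι) l = cobL φ (l.map ι)`), `p • v ≠ 0`. -/
def s_QWT : Prop := ∀ (G : Type u) [Group G] (g : G), ¬IsOfFinOrder g → EulAt G g →
  ∃ M r : ℕ, 0 < M ∧ WtG G M r g ∧ ∀ p : ℕ, p.Prime →
    (∀ h : G, h * g ^ p = g ^ p * h → h * g = g * h) → WtG G M r (g ^ p)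

/-- QZERO (250 lines, copy of `Pool/Agent/SUR/DZERO.lean`). Hypotheses `s_LVAL`, `s_LRES`, `s_ANEQ`,
`s_LPSH.{u, 0}`.
Proof. As `t_DZERO` for one class `K` (of `g`). If `K` is not in `SCL x y`, clear. Let `V` be a finite set
of elements of infinite order which contains `g` and for every class of infinite order in `SCL x y` an
element of the class. Take the prime `p` from `PRoots` for `V`, larger than `M`, `2` and the absolute
values of the integers `T v`, `T b` (`exists_scale` for `v` and `b = bil W y x`). (F1) `p` does not divide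
`j v`. (F2) `powC p C ≠ K` for `some C ∈ SCL x y` (`PRoots`: `x ^ p` is not conjugate to `g`, `x ∈ V`).
(F3) `v * gamVal K = b`. (F4) with the weight `(v', W')` at `K' = powC p K` (the class of `g ^ p`, by the
hypothesis, since the centralisers agree): `some K' ∉ SCL x y`, `j v' = p v''`, and the second part of
`LVAL` with the set `{K}` (if `some C ∈ SCL x y` and `powC p C = K'` then `C = K` by `PRoots`) gives
`v'' (p gamVal K' + gamVal K) = 0` for all `m`. (F5) So `p` divides the integer `T b` (`dvd_of_forall'`),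
which is smaller than `p`, so `b = 0`. -/
def s_QZERO : Prop := ∀ (G : Type u) [Group G] (M r : ℕ), 0 < M → PRoots G →
  ∀ g : G, ¬IsOfFinOrder g →
  (∀ p : ℕ, p.Prime → (∀ h : G, h * g ^ p = g ^ p * h → h * g = g * h) → WtG G M r (g ^ p)) →
  ∀ n : ℕ, 0 < n → ∀ (w : (MonoidAlgebra ℤ (MM G n))ˣ)
    (x y : MonoidAlgebra ℤ (FreeMonoid (MM G n))), Lft (r + 1) w x y →
  ∀ (v : ZM M) (W : FreeMonoid (MM G n) → FreeMonoid (MM G n) → ZM M), v ≠ 0 →
  WtAtA (clF G n) (some (ConjClasses.mk g)) v W → DegV (th (MM G n)) r W → bil W y x = 0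

/-- QTR (120 lines, from `Pool/Agent/SUR/DTR.lean`). Hypotheses `s_LMONO`, `s_LLIFT`, `s_DMM`, `s_DPB`,
`s_QZERO`, `s_DANT`, `s_LPSH.{u, 0}`.
Proof. As `t_DTR`, for one class: `FMM F n` is a weight at the class of `g` (it sees only this class) with
constant `F 1 g`. With the weight `(v, W)` at the class of `g` for the size `n` (`WtG`), `bil W y x = 0` by
`QZERO` (for the degree `2 r + 1`: `LMONO`, also for the weights at `g ^ p`), and
`U = v P' - v₁ W'` has constant `0`. -/
def s_QTR : Prop := ∀ (G : Type u) [Group G], PRoots G → ∀ g : G, ¬IsOfFinOrder g →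
  (∃ M r : ℕ, 0 < M ∧ WtG G M r g ∧ ∀ p : ℕ, p.Prime →
    (∀ h : G, h * g ^ p = g ^ p * h → h * g = g * h) → WtG G M r (g ^ p)) →
  ∀ F : G → G → ℚ, IsWtA F → (∀ a b, F a b ≠ 0 → IsConj (a * b) g) →
  ∀ (n : ℕ) (X : (Matrix (Fin n) (Fin n) (MonoidAlgebra ℤ G))ˣ), pairF F X = 0

/-- QEUL (60 lines, compare `Pool/Agent/SUR/LLIN.lean`). Linear quotients.
Proof. Let `ρ : G →* GL (Fin n) F` map `g` to an element of infinite order (so `n > 0`), `S` the finite set
of the entries of the `ρ t`, `t` in a finite generating set of `G` closed under inverses. All `ρ z` have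
entries in `Subring.closure S`; restrict to the centraliser. -/
def s_QEUL : Prop := ∀ (G : Type u) [Group G], Group.FG G → LinSep G → ∀ g : G, ¬IsOfFinOrder g →
  EulAt G g

/-- QULN (60 lines, compare `Pool/Agent/SUR/DUR.lean`). Hypotheses `s_DFG`, `s_DPW`.
Proof. As `t_DUR`: `G₀` embeds into the invertible matrices over `Subring.closure S`, and `DPW` gives
`p₀`. -/
def s_QULN : Prop := ∀ (F : Type u) [Field F] (n : ℕ) (G : Subgroup (GL (Fin n) F))
  (G₀ : Subgroup G), G₀.FG → UniqExp G₀

end Pool.Agent.SUR
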